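import Pool.Agent.Lib.MP_17a322_ntDP.Defs

/-!
# LEAF EM: the map of the points under a homomorphism of fields

PROOF.  `opP_inj`: cases.  `isPt_opP`: `EK_eqn` (`MP_17a322_ntVK/EA`).  `pt_of`: the converse, `EK_nons`.  `ex_map`: after `subst` the map is `.zero ↦ .zero`, `.some x y h ↦ .some (f x) (f y) _` (nonsingular: `WeierstrassCurve.Affine.map_nonsingular` for the injective map `f`, the curve `(EK a b).map f` is `EK (f a) (f b)` (`WeierstrassCurve.ext`, `map_zero`); or by `nonsingular_iff'`, `EK`); additive: as in Mathlib `WeierstrassCurve.Affine.Point.map` (`Mathlib/AlgebraicGeometry/EllipticCurve/Affine/Point.lean`, section of the base change): if the `x`, `y` are opposite both sums are `0` (`add_of_Y_eq`), otherwise `add_some` and `map_addX`, `map_addY`, `map_slope`, `map_negY`; see also `exists_map` in `Pool/Agent/Lib/MP_1a91b9_nuE` or `MP_1a91b9_nuX` (grep).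
-/

set_option autoImplicit false

namespace DP

open Finset NumberField LVH VK FB

private theorem EM_map {F F' : Type} [Field F] [Field F'] [DecidableEq F] [DecidableEq F'] (f : F →+* F')
    (W : WeierstrassCurve F) (W' : WeierstrassCurve F') (h : W.map f = W') :
    ∃ φ : W.toAffine.Point →+ W'.toAffine.Point, Function.Injective φ ∧
      ∀ x y h, ∃ h', φ (.some x y h) = .some (f x) (f y) h' := by
  subst h
  let _i : Algebra F F' := f.toAlgebra
  exact ⟨WeierstrassCurve.Affine.Point.map (W' := W) (Algebra.ofId F F'),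
    WeierstrassCurve.Affine.Point.map_injective (W' := W) (Algebra.ofId F F'), fun x y h => ⟨_, rfl⟩⟩

theorem opP_inj {F : Type} [Field F] {a b : F} : Function.Injective (opP : Pt a b → Option (F × F)) := by
  intro P Q h
  rcases P with _ | ⟨x, y, h1⟩
  · rcases Q with _ | ⟨x', y', h2⟩
    · rfl
    · exact absurd h (by simp [opP])
  · rcases Q with _ | ⟨x', y', h2⟩
    · exact absurd h (by simp [opP])
    · have h3 : (x, y) = (x', y') := Option.some.inj h
      obtain ⟨rfl, rfl⟩ := Prod.mk.inj h3
      rfl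

theorem isPt_opP {F : Type} [Field F] {a b : F} (P : Pt a b) : IsPt a b (opP P) := by
  classical
  rcases P with _ | ⟨x, y, h⟩
  · trivial
  · exact (EK_eqn a b x y).1 h.1

theorem pt_of {F : Type} [Field F] {a b : F} (h2 : (2 : F) ≠ 0) (hd : ds a b ≠ 0) (z : Option (F × F))
    (hz : IsPt a b z) : ∃ P : Pt a b, opP P = z := by
  classical
  rcases z with _ | ⟨x, y⟩
  · exact ⟨.zero, rfl⟩
  · exact ⟨.some x y ((EK_nons a b h2 hd x y).2 hz), rfl⟩

theorem ex_map {F F' : Type} [Field F] [Field F'] [DecidableEq F] [DecidableEq F'] (f : F →+* F') {a b : F}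
    {a' b' : F'} (ha : f a = a') (hb : f b = b') : ∃ φ : Pt a b →+ Pt a' b', Function.Injective φ ∧
      ∀ P, opP (φ P) = mpO f (opP P) := by
  subst ha hb
  have h1 : (EK a b).map f = EK (f a) (f b) := by
    refine WeierstrassCurve.ext ?_ ?_ ?_ rfl rfl
    · exact map_zero f
    · exact map_zero f
    · exact map_zero f
  obtain ⟨φ, hφ, h2⟩ := EM_map f (EK a b) (EK (f a) (f b)) h1
  refine ⟨φ, hφ, fun P => ?_⟩
  rcases P with _ | ⟨x, y, h⟩
  · have h3 : φ (.zero : Pt a b) = .zero := map_zero φ
    rw [h3]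
    rfl
  · obtain ⟨h', h3⟩ := h2 x y h
    rw [h3]
    rfl

end DP
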