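import Pool.Agent.Lib.MP_17a322_ntDP.Defs2
import Pool.Agent.Lib.MP_17a322_ntDP.EM

/-!
# LEAF AS: Frobenius and the values of the sections

PROOF.  `sM_fr`: `fun x => x ^ p` is a ring homomorphism on `Om p` (`frobenius (Om p) p`, characteristic `p`) which fixes the image of `em p`; it commutes with sums, products, integral powers (`map_zpow₀`), and `RamCov.bas (Om p) d (frO p P) k = RamCov.bas (Om p) d P k ^ p` (cases; `if .. then 1 else 0`).  `stp_inj`: `x ↦ x ^ p` is injective on `Om p` (`frobenius_inj`), `Φ l` is injective because `opP` is (`opP_inj`) and `frO p` is injective (cases).  `van_it`: induction on `i` with `sM_fr` and `hΦ`: if the section vanishes at `x` it vanishes at all `(stp Φ)^[i] x`.  `it_fst` etc.: induction on `i`.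
-/

set_option autoImplicit false

namespace DP

open Finset NumberField LVH VK FB

private theorem AS_em {p : ℕ} [Fact p.Prime] (a : ZMod p) : em p a ^ p = em p a := by
  rw [← map_pow, ZMod.pow_card]

private theorem AS_bas {p : ℕ} [Fact p.Prime] (d : ℕ) (P : Option (Om p × Om p)) (k : RamCov.Ix d) :
    RamCov.bas (Om p) d (frO p P) k = RamCov.bas (Om p) d P k ^ p := by
  have hp : p ≠ 0 := (Fact.out : p.Prime).ne_zero
  rcases P with _ | z
  · rcases k with i | i
    · show (if i = Fin.last d then (1 : Om p) else 0) = (if i = Fin.last d then (1 : Om p) else 0) ^ p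
      split_ifs
      · rw [one_pow]
      · rw [zero_pow hp]
    · show (0 : Om p) = 0 ^ p
      rw [zero_pow hp]
  · rcases k with i | i
    · show (z.1 ^ p) ^ (i : ℕ) = (z.1 ^ (i : ℕ)) ^ p
      rw [← pow_mul, ← pow_mul, mul_comm]
    · show (z.1 ^ p) ^ (i : ℕ) * z.2 ^ p = (z.1 ^ (i : ℕ) * z.2) ^ p
      rw [mul_pow, ← pow_mul, ← pow_mul, mul_comm p]

private theorem AS_frO_inj {p : ℕ} [Fact p.Prime] : Function.Injective (frO p : Option (Om p × Om p) → Option (Om p × Om p)) := by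
  unfold frO
  refine Option.map_injective fun z z' h => ?_
  have h1 : z.1 ^ p = z'.1 ^ p := congrArg Prod.fst h
  have h2 : z.2 ^ p = z'.2 ^ p := congrArg Prod.snd h
  exact Prod.ext (frobenius_inj (Om p) p h1) (frobenius_inj (Om p) p h2)

theorem sM_fr {p : ℕ} [Fact p.Prime] {n q M s : ℕ} {ι : Type} [Fintype ι] {ν : Fin s → ℕ} {d : Fin s → Fin q → ℕ}
    (E : Fin s → ι → Fin n → ℤ) (a : IxM ι M ν d → ZMod p) (t : Fin n → Om p) (P : Fin q → Option (Om p × Om p))
    (y : Fin (M + 1) → Om p) (j : Fin s) :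
    sM E (fun x => em p (a x)) (fun l => t l ^ p) (fun l => frO p (P l)) (fun l => y l ^ p) j =
      sM E (fun x => em p (a x)) t P y j ^ p := by
  unfold sM
  have h0 : ∀ x : Om p, x ^ p = frobenius (Om p) p x := fun x => rfl
  rw [h0 (∑ _, _), map_sum]
  refine sum_congr rfl fun z _ => ?_
  rw [map_mul, map_mul, ← h0, ← h0, ← h0, AS_em]
  congr 1
  congr 1
  · unfold MWS.mo
    rw [← prod_pow]
    exact prod_congr rfl fun i _ => by rw [← pow_mul, ← pow_mul, mul_comm]
  · unfold bT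
    rw [mul_pow, ← prod_pow, ← prod_pow]
    congr 1
    · refine prod_congr rfl fun l _ => ?_
      show (t l ^ p) ^ E j z.2.1 l = (t l ^ E j z.2.1 l) ^ p
      rw [h0 (t l), h0 (t l ^ E j z.2.1 l), map_zpow₀]
    · exact prod_congr rfl fun l _ => AS_bas _ _ _

open Classical in
theorem stp_inj {p : ℕ} [Fact p.Prime] {n M q : ℕ} {α β : Fin q → ZMod p}
    {Φ : (l : Fin q) → Pt (em p (α l)) (em p (β l)) →+ Pt (em p (α l)) (em p (β l))} (hΦ : IsFr p Φ) :
    Function.Injective (stp Φ : Xp p n M α β → Xp p n M α β) := by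
  intro x x' h
  have h1 : ∀ l, x.1 l ^ p = x'.1 l ^ p := fun l => congrFun (congrArg (fun w : Xp p n M α β => w.1) h) l
  have h2 : ∀ l, Φ l (x.2.1 l) = Φ l (x'.2.1 l) := fun l => congrFun (congrArg (fun w : Xp p n M α β => w.2.1) h) l
  have h3 : ∀ l, x.2.2 l ^ p = x'.2.2 l ^ p := fun l => congrFun (congrArg (fun w : Xp p n M α β => w.2.2) h) l
  refine Prod.ext (funext fun l => frobenius_inj (Om p) p (h1 l)) (Prod.ext (funext fun l => ?_)
    (funext fun l => frobenius_inj (Om p) p (h3 l)))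
  have h4 := congrArg opP (h2 l)
  rw [hΦ, hΦ] at h4
  exact opP_inj (AS_frO_inj h4)

open Classical in
theorem stp_it {p : ℕ} [Fact p.Prime] {n M q : ℕ} {α β : Fin q → ZMod p}
    (Φ : (l : Fin q) → Pt (em p (α l)) (em p (β l)) →+ Pt (em p (α l)) (em p (β l))) (x : Xp p n M α β) (i : ℕ) :
    (stp Φ)^[i] x = (fun l => x.1 l ^ p ^ i, fun l => (⇑(Φ l))^[i] (x.2.1 l), fun l => x.2.2 l ^ p ^ i) := by
  induction i with
  | zero =>
    rw [Function.iterate_zero, id_eq]
    refine Prod.ext (funext fun l => ?_) (Prod.ext (funext fun l => ?_) (funext fun l => ?_))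
    · show x.1 l = x.1 l ^ p ^ 0
      rw [pow_zero, pow_one]
    · rfl
    · show x.2.2 l = x.2.2 l ^ p ^ 0
      rw [pow_zero, pow_one]
  | succ i ih =>
    rw [Function.iterate_succ_apply', ih]
    refine Prod.ext (funext fun l => ?_) (Prod.ext (funext fun l => ?_) (funext fun l => ?_))
    · show (x.1 l ^ p ^ i) ^ p = x.1 l ^ p ^ (i + 1)
      rw [← pow_mul, pow_succ]
    · show Φ l ((⇑(Φ l))^[i] (x.2.1 l)) = (⇑(Φ l))^[i + 1] (x.2.1 l)
      rw [Function.iterate_succ_apply']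
    · show (x.2.2 l ^ p ^ i) ^ p = x.2.2 l ^ p ^ (i + 1)
      rw [← pow_mul, pow_succ]

open Classical in
theorem van_it {p : ℕ} [Fact p.Prime] {n M q s : ℕ} {ι : Type} [Fintype ι] {ν : Fin s → ℕ} {d : Fin s → Fin q → ℕ}
    {α β : Fin q → ZMod p} {Φ : (l : Fin q) → Pt (em p (α l)) (em p (β l)) →+ Pt (em p (α l)) (em p (β l))}
    (hΦ : IsFr p Φ) (E : Fin s → ι → Fin n → ℤ) (a : IxM ι M ν d → ZMod p) (x : Xp p n M α β) (j : Fin s)
    (h : sM E (fun x => em p (a x)) x.1 (fun l => opP (x.2.1 l)) x.2.2 j = 0) (i : ℕ) :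
    sM E (fun x => em p (a x)) ((stp Φ)^[i] x).1 (fun l => opP (((stp Φ)^[i] x).2.1 l)) ((stp Φ)^[i] x).2.2 j = 0 := by
  induction i with
  | zero => exact h
  | succ i ih =>
    rw [Function.iterate_succ_apply']
    obtain ⟨w, hw⟩ : ∃ w, w = (stp Φ)^[i] x := ⟨_, rfl⟩
    rw [← hw] at ih ⊢
    have h1 : (fun l => opP ((stp Φ w).2.1 l)) = fun l => frO p (opP (w.2.1 l)) := funext fun l => hΦ l (w.2.1 l)
    rw [h1]
    have h2 := sM_fr E a w.1 (fun l => opP (w.2.1 l)) w.2.2 j
    rw [ih, zero_pow (Fact.out : p.Prime).ne_zero] at h2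
    exact h2

end DP
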