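import Pool.Agent.Lib.MP_17a322_ntVY.VB
import Pool.Agent.Lib.MP_17a322_ntVY.Stmt
import Pool.Agent.Lib.MP_17a322_ntVB.Defs
import Pool.Agent.Lib.MP_17a322_ntFB.PDefs

/-!
# Points of bounded degree: definitions
-/

set_option autoImplicit false

namespace DP

open Finset NumberField LVH VK FB

/-- the algebraic closure of the prime field -/
abbrev Om (p : ℕ) [Fact p.Prime] : Type := AlgebraicClosure (ZMod p)

/-- the elements of the prime field -/
noncomputable abbrev em (p : ℕ) [Fact p.Prime] : ZMod p →+* Om p := algebraMap (ZMod p) (Om p)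

/-- Frobenius on the points of a curve: the coordinates to the power `p` -/
def frO {F : Type} [Field F] (p : ℕ) : Option (F × F) → Option (F × F) := Option.map fun z => (z.1 ^ p, z.2 ^ p)

/-- the image of a point under a homomorphism -/
def mpO {F F' : Type} [Field F] [Field F'] (f : F →+* F') : Option (F × F) → Option (F' × F') :=
  Option.map fun z => (f z.1, f z.2)

open Classical in
/-- `m ≤ k` points of `G_m^n × E_1 × .. × E_q × ℙ^M` over the algebraic closure of the prime field, permuted by Frobenius,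
whose product in `G_m^n` is `u` and whose sum in `E_1 × .. × E_q` is `z`, each with the property `Q` -/
def Tup (p : ℕ) [Fact p.Prime] {n q M : ℕ} (k : ℕ) (α β : Fin q → ZMod p) (u : Fin n → ZMod p)
    (z : Fin q → Option (ZMod p × ZMod p))
    (Q : (Fin n → Om p) → (Fin q → Option (Om p × Om p)) → (Fin (M + 1) → Om p) → Prop) : Prop :=
  ∃ (m : ℕ) (τ : Equiv.Perm (Fin m)) (t : Fin m → Fin n → Om p)
    (P : Fin m → (l : Fin q) → Pt (em p (α l)) (em p (β l))) (y : Fin m → Fin (M + 1) → Om p),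
    1 ≤ m ∧ m ≤ k ∧ (∀ i l, t i l ≠ 0 ∧ t (τ i) l = t i l ^ p) ∧
    (∀ i l, opP (P (τ i) l) = frO p (opP (P i l))) ∧ (∀ i, Nrm (y i) ∧ ∀ l, y (τ i) l = y i l ^ p) ∧
    (∀ l, ∏ i, t i l = em p (u l)) ∧ (∀ l, opP (∑ i, P i l) = mpO (em p) (z l)) ∧
    ∀ i, Q (t i) (fun l => opP (P i l)) (y i)

/-- the local condition at the curves with the coordinates `ζ` -/
def RD {K : Type} [Field K] [NumberField K] {n h g M w s e : ℕ} {κ ι : Type} [Fintype κ] [Fintype ι] (k : ℕ)
    (A' B' : Fin h → 𝓞 K) {δ : Fin w → ℕ} {d' : Fin w → Fin h → ℕ} (E' : Fin w → κ → Fin n → ℤ)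
    (b : IxM κ M δ d' → 𝓞 K) (ν : Fin s → ℕ) (d : Fin s → Fin (h + g) → ℕ) (E : Fin s → ι → Fin n → ℤ)
    (ω : Fin e → 𝓞 K) (ζ : Cv e g) : Loc K n (h + g) (IxM ι M ν d × Fin e) :=
  fun p π u z =>
  {c | ∃ _ : Fact p.Prime, (∀ l, ds (res π (aA ω A' ζ l)) (res π (aB ω B' ζ l)) ≠ 0) ∧
    Tup p k (fun l => res π (aA ω A' ζ l)) (fun l => res π (aB ω B' ζ l)) u z fun t P y =>
      (∀ i, sM E' (fun x => em p (res π ((b x : 𝓞 K) : K))) t (fun l => P (Fin.castAdd g l)) y i = 0) ∧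
      ∀ j, sM E (fun x => em p (∑ i, c (x, i) * res π ((ω i : 𝓞 K) : K))) t P y j = 0}

/-- `x` is integral over the ring of the `S`-integers of `K` -/
def IntS {K : Type} [Field K] [NumberField K] (S : Finset (FinitePlace K)) {L : Type} [Field L] [Algebra K L] (x : L) :
    Prop :=
  ∃ f : Polynomial K, f.Monic ∧ (∀ v : FinitePlace K, v ∉ S → ∀ i, v (f.coeff i) ≤ 1) ∧ Polynomial.aeval x f = 0

/-- the subvariety of `G_m^n × E_1 × .. × E_(h+g) × ℙ^M` given by the sections with the coefficients `b` (on the first `h`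
curves) and the sections with the coefficients `a` has a point over some extension `L` of `K` of degree at most `k` whose
coordinates in `G_m^n` are `S`-units of `L` -/
def IntD {K : Type} [Field K] [NumberField K] {n h g M w s : ℕ} {κ ι : Type} [Fintype κ] [Fintype ι] {δ : Fin w → ℕ}
    {d' : Fin w → Fin h → ℕ} {ν : Fin s → ℕ} {d : Fin s → Fin (h + g) → ℕ} (k : ℕ) (S : Finset (FinitePlace K))
    (E' : Fin w → κ → Fin n → ℤ) (b : IxM κ M δ d' → K) (E : Fin s → ι → Fin n → ℤ) (A B : Fin (h + g) → K)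
    (a : IxM ι M ν d → K) : Prop :=
  ∃ (L : Type) (_ : Field L) (_ : NumberField L) (_ : Algebra K L), Module.finrank K L ≤ k ∧
    ∃ (x : Fin n → L) (P : Fin (h + g) → Option (L × L)) (u : Fin (M + 1) → L),
      (∀ l, x l ≠ 0 ∧ IntS S (x l) ∧ IntS S (x l)⁻¹) ∧
      (∀ l, IsPt (algebraMap K L (A l)) (algebraMap K L (B l)) (P l)) ∧ u ≠ 0 ∧
      (∀ i, sM E' (fun t => algebraMap K L (b t)) x (fun l => P (Fin.castAdd g l)) u i = 0) ∧
      ∀ j, sM E (fun t => algebraMap K L (a t)) x P u j = 0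

/-- the exponents of the monomials contain a translate of `{0, .., k - 1}^n` -/
def Rich {n : ℕ} {ι : Type} (k : ℕ) (E : ι → Fin n → ℤ) : Prop :=
  ∃ a0 : Fin n → ℤ, ∀ a : Fin n → Fin k, ∃ i, E i = fun l => a0 l + ((a l : ℕ) : ℤ)

/-- the set of the tuples of the box with a point satisfying the local conditions, which depend on the curves -/
abbrev ZR {K : Type} [Field K] [NumberField K] (L : Type) [Field L] [NumberField L] (p0 : ℕ) {e n h g : ℕ} {ι : Type}
    (ω : Fin e → 𝓞 K) (A' B' : Fin h → 𝓞 K) (Γ : Subgroup Kˣ) (H : ℕ) (R : Cv e g → Loc K n (h + g) ι) : Type :=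
  {z : Cv e g × (ι → ℤ) // Box ω H z ∧ ∃ x : Fin n → Kˣ, (∀ l, x l ∈ Γ) ∧
    ∃ P : (l : Fin (h + g)) → Pt (aA ω A' z.1 l) (aB ω B' z.1 l),
      AdmK L p0 (R z.1) (A := aA ω A' z.1) (B := aB ω B' z.1) z.2 x P}

end DP
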