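import Pool.Agent.Lib.MP_17a322_ntDP.B2
import Pool.Agent.Lib.MP_17a322_ntOC.TI

/-!
# The sieve on average if some of the fixed curves have only finitely many points, local conditions which depend on
the curves
-/

namespace DP

open Finset NumberField LVH VK OCM

private theorem B3_cast {K : Type} [Field K] {A B A1 B1 : K} (h1 : A1 = A) (h2 : B1 = B) (P : Pt A1 B1) :
    ∃ Q : Pt A B, ∀ (p : ℕ) (π : Pl K p), rdK π Q = rdK π P := by
  subst h1 h2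
  exact ⟨P, fun _ _ => rfl⟩

/-- good reduction at the large primes -/
private theorem B3_good {K : Type} [Field K] [NumberField K] {A B : 𝓞 K} (hd : ds A B ≠ 0) : ∃ p1 : ℕ, ∀ p : ℕ, p.Prime →
    p1 ≤ p → ∀ (π : Pl K p), ds (res π ((A : 𝓞 K) : K)) (res π ((B : 𝓞 K) : K)) ≠ 0 := by
  have hn0 : ((ds A B : 𝓞 K) : K) ≠ 0 := fun h0 => hd (NumberField.RingOfIntegers.coe_eq_zero_iff.1 h0)
  obtain ⟨N, hN⟩ := unit_pl K (g := ((ds A B : 𝓞 K) : K)) hn0
  refine ⟨1 + N, fun p hp hpp π => ?_⟩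
  have : Fact p.Prime := ⟨hp⟩
  obtain ⟨u1, u2⟩ := hN p hp (by omega) π
  have hr := res_ne hn0 u1 u2
  have hA := rd_res (int_mem π A)
  have hB := rd_res (int_mem π B)
  have e4 : Rd π ((4 : ℤ) : K) ((4 : ℤ) : ZMod p) := Rd.int 4
  have e27 : Rd π ((27 : ℤ) : K) ((27 : ℤ) : ZMod p) := Rd.int 27
  have hds : Rd π ((ds A B : 𝓞 K) : K) (ds (res π ((A : 𝓞 K) : K)) (res π ((B : 𝓞 K) : K))) := by
    have h1 := (e4.mul (hA.pow 3)).add (e27.mul (hB.pow 2))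
    have h2 : ((ds A B : 𝓞 K) : K) = ((4 : ℤ) : K) * ((A : 𝓞 K) : K) ^ 3 + ((27 : ℤ) : K) * ((B : 𝓞 K) : K) ^ 2 := by
      unfold ds
      push_cast
      rfl
    have h3 : ds (res π ((A : 𝓞 K) : K)) (res π ((B : 𝓞 K) : K))
        = ((4 : ℤ) : ZMod p) * res π ((A : 𝓞 K) : K) ^ 3 + ((27 : ℤ) : ZMod p) * res π ((B : 𝓞 K) : K) ^ 2 := by
      unfold ds
      push_cast
      rfl
    rw [h2, h3]
    exact h1
  have h4 := hds.unique (rd_res u1)
  rw [h4]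
  exact hr

private theorem B3_fin {e g : ℕ} {K : Type} [Field K] [NumberField K] {τ : Type} [Fintype τ] (ω : Fin e → 𝓞 K) (H : ℕ)
    (Q : Cv e g × (τ → ℤ) → Prop) : Finite {z : Cv e g × (τ → ℤ) // Box ω H z ∧ Q z} := by
  let f : {z : Cv e g × (τ → ℤ) // Box ω H z ∧ Q z} →
      (Fin g → (Fin e → (Icc (-(H : ℤ) ^ 2) ((H : ℤ) ^ 2) : Finset ℤ)) × (Fin e → (Icc (-(H : ℤ) ^ 3) ((H : ℤ) ^ 3) : Finset ℤ))) ×
        (τ → (Icc (-(H : ℤ)) (H : ℤ) : Finset ℤ)) :=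
    fun z => (fun l => (fun i => ⟨(z.1.1 l).1 i, mem_Icc.2 (abs_le.1 ((z.2.1.1 l).2.1 i))⟩,
        fun i => ⟨(z.1.1 l).2 i, mem_Icc.2 (abs_le.1 ((z.2.1.1 l).2.2 i))⟩),
        fun i => ⟨z.1.2 i, mem_Icc.2 (abs_le.1 (z.2.1.2 i))⟩)
  refine Finite.of_injective f fun a b hab => ?_
  have h1 : a.1.1 = b.1.1 := by
    funext l
    refine Prod.ext (funext fun i => ?_) (funext fun i => ?_)
    · exact congrArg (fun w => (((w.1 l).1 i : Icc (-(H : ℤ) ^ 2) ((H : ℤ) ^ 2)) : ℤ)) hab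
    · exact congrArg (fun w => (((w.1 l).2 i : Icc (-(H : ℤ) ^ 3) ((H : ℤ) ^ 3)) : ℤ)) hab
  have h2 : a.1.2 = b.1.2 := by
    funext i
    exact congrArg (fun w => ((w.2 i : Icc (-(H : ℤ)) (H : ℤ)) : ℤ)) hab
  exact Subtype.ext (Prod.ext h1 h2)

open Classical in
/-- the local condition in which the points of the curves of index not in `J` are given -/
private noncomputable def B3_R {K : Type} [Field K] [NumberField K] {n h g : ℕ} {ι : Type} {A' B' : Fin h → 𝓞 K}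
    (J : Fin h → Prop) (R : Loc K n (h + g) ι) (Q : (l : {l // ¬ J l}) → Pt ((A' l.1 : 𝓞 K) : K) ((B' l.1 : 𝓞 K) : K)) :
    Loc K n (h + g) ι := fun p π u z =>
  R p π u fun l => Fin.addCases (motive := fun _ => Option (ZMod p × ZMod p))
    (fun i => if hi : J i then z (Fin.castAdd g i) else rdK π (Q ⟨i, hi⟩)) (fun j => z (Fin.natAdd h j)) l

theorem coreFR (K : Type) [Field K] [NumberField K] [DecidableEq K] (hFR : FactRK K) (hFQ : MWS.FactQ) (L : Type)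
    [Field L] [NumberField L] [Algebra K L] {h : ℕ} (A' B' A'' B'' : Fin h → 𝓞 K) (hd' : ∀ l, ds (A' l) (B' l) ≠ 0)
    (hd'' : ∀ l, ds (A'' l) (B'' l) ≠ 0) (hSm : Smo L A'' B'')
    (hJ : ∀ l, (A'' l = A' l ∧ B'' l = B' l) ∨ Finite (Pt ((A' l : 𝓞 K) : K) ((B' l : 𝓞 K) : K))) :
    ∃ c₀ : ℝ, 0 < c₀ ∧
    ∀ (e : ℕ) (ω : Module.Basis (Fin e) ℤ (𝓞 K)) (n g g' p0 N : ℕ) (σ : Fin g → Fin g') (κ : ℝ), 0 < κ → κ ≤ 1 →
    ∃ C : ℝ, 0 ≤ C ∧
    ∀ H : ℕ, 1 ≤ H → ∀ (Γ : Subgroup Kˣ) (t' : ℕ) (Bd : Finset ℕ), TCls Γ n t' → (t' : ℝ) ≤ (Real.log H) ^ c₀ →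
    (Bd.card : ℝ) ≤ (Real.log H) ^ c₀ →
    (∀ p : ℕ, p.Prime → p0 ≤ p → p ∉ Bd → ∀ π : Pl K p, ∀ γ ∈ Γ, (γ : K) ∈ π.V ∧ (γ : K)⁻¹ ∈ π.V) →
    ∀ (ι : Type) [Fintype ι] [DecidableEq ι], Fintype.card ι = N → ∀ R : Cv e g' → Loc K n (h + g) ι,
    (∀ ζ, DensK L p0 (R ζ) κ) →
    (Nat.card (ZSR L p0 (n := n) (g := g) (ι := ι) σ ω A' B' Γ H R) : ℝ) ≤
      C * (H : ℝ) ^ (N + 5 * e * g') * Real.exp (-(Real.log H) ^ c₀) := by
  classical
  obtain ⟨c₀, hc₀, hcore⟩ := coreSR K hFR hFQ L A'' B'' hd'' hSm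
  refine ⟨c₀, hc₀, fun e ω n g g' p0 N σ κ hκ hκ1 => ?_⟩
  choose pg hpg using fun l => B3_good (hd' l)
  obtain ⟨p1, hp1⟩ : ∃ p1 : ℕ, ∀ l, pg l ≤ p1 := ⟨univ.sup pg, fun l => le_sup (f := pg) (mem_univ l)⟩
  obtain ⟨C, hC0, hC⟩ := hcore e ω n g g' (max p0 p1) N σ κ hκ hκ1
  obtain ⟨J, hJd⟩ : ∃ J : Fin h → Prop, ∀ l, J l ↔ (A'' l = A' l ∧ B'' l = B' l) := ⟨_, fun _ => Iff.rfl⟩
  have hfin : ∀ l : {l // ¬ J l}, Finite (Pt ((A' l.1 : 𝓞 K) : K) ((B' l.1 : 𝓞 K) : K)) := fun l =>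
    (hJ l.1).resolve_left fun h1 => l.2 ((hJd _).2 h1)
  have hT : Finite ((l : {l // ¬ J l}) → Pt ((A' l.1 : 𝓞 K) : K) ((B' l.1 : 𝓞 K) : K)) := Pi.finite
  obtain ⟨hTf⟩ := nonempty_fintype ((l : {l // ¬ J l}) → Pt ((A' l.1 : 𝓞 K) : K) ((B' l.1 : 𝓞 K) : K))
  refine ⟨Fintype.card ((l : {l // ¬ J l}) → Pt ((A' l.1 : 𝓞 K) : K) ((B' l.1 : 𝓞 K) : K)) * C, by positivity,
    fun H hH Γ t' Bd hTC htL hBL hBd ι _ _ hι R hR => ?_⟩
  have hone : ∀ Q : (l : {l // ¬ J l}) → Pt ((A' l.1 : 𝓞 K) : K) ((B' l.1 : 𝓞 K) : K),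
      (Nat.card (ZSR L (max p0 p1) (n := n) (g := g) (ι := ι) σ ω A'' B'' Γ H (fun ζ => B3_R J (R ζ) Q)) : ℝ) ≤
        C * (H : ℝ) ^ (N + 5 * e * g') * Real.exp (-(Real.log H) ^ c₀) := fun Q =>
    hC H hH Γ t' Bd hTC htL hBL (fun p hp hpp => hBd p hp ((le_max_left _ _).trans hpp)) ι hι _
      (fun ζ p hp hpp hD π u z hu => hR ζ p hp ((le_max_left _ _).trans hpp) hD π u _ hu)
  have hex : ∀ z : ZSR L p0 (n := n) (g := g) (ι := ι) σ ω A' B' Γ H R,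
      ∃ Q : (l : {l // ¬ J l}) → Pt ((A' l.1 : 𝓞 K) : K) ((B' l.1 : 𝓞 K) : K),
        Box (⇑ω) H z.1 ∧ ∃ x : Fin n → Kˣ, (∀ l, x l ∈ Γ) ∧
          ∃ P : (l : Fin (h + g)) → Pt (aA ω A'' (fun i => z.1.1 (σ i)) l) (aB ω B'' (fun i => z.1.1 (σ i)) l),
            AdmK L (max p0 p1) (B3_R J (R z.1.1) Q) (A := aA ω A'' (fun i => z.1.1 (σ i)))
              (B := aB ω B'' (fun i => z.1.1 (σ i))) z.1.2 x P := by
    rintro ⟨z, hz, x, hx, P, hP⟩
    choose Q hQ using fun l : {l // ¬ J l} => B3_cast (A := ((A' l.1 : 𝓞 K) : K)) (B := ((B' l.1 : 𝓞 K) : K))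
      (by simp only [aA, Fin.append_left]) (by simp only [aB, Fin.append_left]) (P (Fin.castAdd g l.1))
    have hP2 : ∀ l : Fin (h + g), ∃ P2 : Pt (aA ω A'' (fun i => z.1 (σ i)) l) (aB ω B'' (fun i => z.1 (σ i)) l),
        (∀ i, l = Fin.castAdd g i → J i) → ∀ (p : ℕ) (π : Pl K p), rdK π P2 = rdK π (P l) := by
      intro l
      refine Fin.addCases (fun i => ?_) (fun j => ?_) l
      · by_cases hi : J i
        · obtain ⟨P2, h2⟩ := B3_cast (A := aA ω A'' (fun i => z.1 (σ i)) (Fin.castAdd g i))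
            (B := aB ω B'' (fun i => z.1 (σ i)) (Fin.castAdd g i))
            (by simp only [aA, Fin.append_left, ((hJd i).1 hi).1])
            (by simp only [aB, Fin.append_left, ((hJd i).1 hi).2]) (P (Fin.castAdd g i))
          exact ⟨P2, fun _ => h2⟩
        · exact ⟨.zero, fun h1 => absurd (h1 i rfl) hi⟩
      · obtain ⟨P2, h2⟩ := B3_cast (A := aA ω A'' (fun i => z.1 (σ i)) (Fin.natAdd h j))
          (B := aB ω B'' (fun i => z.1 (σ i)) (Fin.natAdd h j))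
          (by simp only [aA, Fin.append_right]) (by simp only [aB, Fin.append_right]) (P (Fin.natAdd h j))
        exact ⟨P2, fun _ => h2⟩
    choose P2 hP2 using hP2
    refine ⟨Q, hz, x, hx, P2, fun p hp hpp hD π hAB hds hxu => ?_⟩
    have h1 := hP p hp ((le_max_left _ _).trans hpp) hD π (fun l => ?_) (fun l => ?_) hxu
    · show _ ∈ R z.1 p π _ _
      have h2 : (fun l : Fin (h + g) => Fin.addCases (motive := fun _ => Option (ZMod p × ZMod p))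
          (fun i => if hi : J i then rdK π (P2 (Fin.castAdd g i)) else rdK π (Q ⟨i, hi⟩))
          (fun j => rdK π (P2 (Fin.natAdd h j))) l) = fun l => rdK π (P l) := by
        funext l
        refine Fin.addCases (fun i => ?_) (fun j => ?_) l
        · rw [Fin.addCases_left]
          by_cases hi : J i
          · rw [dif_pos hi]
            exact hP2 _ (fun i' hi' => by
              have h3 := Fin.castAdd_injective h g hi'
              rw [← h3]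
              exact hi) p π
          · rw [dif_neg hi]
            exact hQ ⟨i, hi⟩ p π
        · rw [Fin.addCases_right]
          exact hP2 _ (fun i' hi' => absurd hi' (by
            intro h3
            have h4 := congrArg Fin.val h3
            rw [Fin.val_natAdd, Fin.val_castAdd] at h4
            omega)) p π
      rw [h2]
      exact h1
    · refine Fin.addCases (fun i => ?_) (fun j => ?_) l
      · simp only [aA, aB, Fin.append_left]
        exact ⟨int_mem π _, int_mem π _⟩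
      · simp only [aA, aB, Fin.append_right, cA, cB]
        exact ⟨int_mem π _, int_mem π _⟩
    · refine Fin.addCases (fun i => ?_) (fun j => ?_) l
      · simp only [aA, aB, Fin.append_left]
        exact hpg i p hp ((hp1 i).trans ((le_max_right _ _).trans hpp)) π
      · have h3 := hds (Fin.natAdd h j)
        simp only [aA, aB, Fin.append_right] at h3 ⊢
        exact h3
  choose f hf using hex
  have hfinS : ∀ Q : (l : {l // ¬ J l}) → Pt ((A' l.1 : 𝓞 K) : K) ((B' l.1 : 𝓞 K) : K),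
      Finite (ZSR L (max p0 p1) (n := n) (g := g) (ι := ι) σ ω A'' B'' Γ H (fun ζ => B3_R J (R ζ) Q)) :=
    fun Q => B3_fin (⇑ω) H _
  have hcard : Nat.card (ZSR L p0 (n := n) (g := g) (ι := ι) σ ω A' B' Γ H R) ≤
      Nat.card (Σ Q : (l : {l // ¬ J l}) → Pt ((A' l.1 : 𝓞 K) : K) ((B' l.1 : 𝓞 K) : K),
        ZSR L (max p0 p1) (n := n) (g := g) (ι := ι) σ ω A'' B'' Γ H (fun ζ => B3_R J (R ζ) Q)) := by
    refine Nat.card_le_card_of_injective (fun z => ⟨f z, z.1, hf z⟩) fun a b hab => ?_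
    exact Subtype.ext (congrArg (fun w => w.2.1) hab)
  refine le_trans (Nat.cast_le.2 hcard) ?_
  rw [Nat.card_sigma, Nat.cast_sum]
  refine (sum_le_sum fun Q _ => hone Q).trans ?_
  rw [sum_const, card_univ, nsmul_eq_mul]
  exact le_of_eq (by ring)

end DP
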