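import Mathlib

/-!
# LEAF CY: the cycles of a tuple of points which is permuted by an injective map

PROOF.  Let `D` be the finite set of the values of `x`; `f` maps `D` to `D` (`f (x i) = x (τ i)`), injectively, so it permutes `D`.  For `y` in `D` let `N y` be the number of the `i` with `x i = y`.  `N (f y) = N y`: `τ` is a bijection of `{i // x i = y}` onto `{i // x i = f y}` (`x (τ i) = f (x i)`, `f` injective).  Every `y` in `D` is periodic for `f` (injective self map of a finite set; or: `f^[orderOf τ] (x i) = x ((τ ^ orderOf τ) i) = x i`); `b y = Function.minimalPeriod f y ≥ 1`.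
The orbits `{f^[i] y | i < b y}` (the points `f^[i] y`, `i < b y`, are distinct: `Function.iterate_injOn_Iio_minimalPeriod` or `iterate_eq_iterate_iff_of_lt_minimalPeriod`) form a partition of `D`.  One way: induction over the size of a finite set `S` of values which is stable under `f` (`f y ∈ S` if `y ∈ S`): for every such `S` and every `N` with `N (f y) = N y` on `S` there is a list `y_1, .., y_r` in `S`, `b_j = minimalPeriod f y_j`, such that `(j, i) ↦ f^[i] (y_j)` (`i < b_j`) is a bijection onto `S`: remove the orbit of one element, the rest is stable since `f` is injective on `S` and `S` is finite.  Then for `φ : α → G`: `∑ i, φ (x i) = ∑ y ∈ D, N y • φ y` (`Finset.sum_comp` or `sum_fiberwise`) `= ∑ j, ∑ i < b_j, N (f^[i] y_j) • φ (f^[i] y_j) = ∑ j, N (y_j) • ∑ i < b_j, φ (f^[i] y_j)`; `μ j = N (y_j) ≥ 1`.  `1 ≤ r` as `D` is not empty (`1 ≤ m`).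
-/

set_option autoImplicit false

namespace DP

open Finset

private theorem CY_ind {α : Type} [DecidableEq α] (f : α → α) (hf : Function.Injective f) :
    ∀ (n : ℕ) (S : Finset α), S.card ≤ n → (∀ y ∈ S, f y ∈ S) →
      (∀ y ∈ S, ∃ k, 1 ≤ k ∧ f^[k] y = y) →
      ∃ (r : ℕ) (y : Fin r → α) (b : Fin r → ℕ),
        (∀ j, y j ∈ S ∧ 1 ≤ b j ∧ f^[b j] (y j) = y j) ∧
        (∀ j i j' i', i < b j → i' < b j' → f^[i] (y j) = f^[i'] (y j') → j = j' ∧ i = i') ∧
        (∀ z ∈ S, ∃ j, ∃ i, i < b j ∧ f^[i] (y j) = z) := by
  intro n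
  induction n with
  | zero =>
    intro S hS _ _
    have hS0 : S = ∅ := by
      rw [← Finset.card_eq_zero]; omega
    subst hS0
    refine ⟨0, fun j => j.elim0, fun j => j.elim0, fun j => j.elim0, fun j => j.elim0, ?_⟩
    intro z hz
    simp at hz
  | succ n ih =>
    intro S hS hst hper
    rcases S.eq_empty_or_nonempty with hE | ⟨y0, hy0⟩
    · subst hE
      refine ⟨0, fun j => j.elim0, fun j => j.elim0, fun j => j.elim0, fun j => j.elim0, ?_⟩
      intro z hz
      simp at hz
    · obtain ⟨k, hk1, hk⟩ := hper y0 hy0
      have hpp : Function.IsPeriodicPt f k y0 := hk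
      have hb0 : 0 < Function.minimalPeriod f y0 := hpp.minimalPeriod_pos (by omega)
      have hbb : f^[Function.minimalPeriod f y0] y0 = y0 := Function.iterate_minimalPeriod
      have hinj := Function.iterate_injOn_Iio_minimalPeriod (f := f) (x := y0)
      generalize Function.minimalPeriod f y0 = b0 at hb0 hbb hinj
      have hO : ∀ i, f^[i] y0 ∈ S := by
        intro i
        induction i with
        | zero => exact hy0
        | succ i ihi => rw [Function.iterate_succ_apply']; exact hst _ ihi
      have hst' : ∀ z ∈ S \ (Finset.range b0).image (fun i => f^[i] y0),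
          f z ∈ S \ (Finset.range b0).image (fun i => f^[i] y0) := by
        intro z hz
        rw [Finset.mem_sdiff] at hz ⊢
        refine ⟨hst z hz.1, ?_⟩
        intro hm
        rw [Finset.mem_image] at hm
        obtain ⟨i, hi, hiz⟩ := hm
        rw [Finset.mem_range] at hi
        apply hz.2
        rw [Finset.mem_image]
        rcases i with _ | i
        · refine ⟨b0 - 1, Finset.mem_range.2 (by omega), ?_⟩
          apply hf
          have e : f (f^[b0 - 1] y0) = f^[b0] y0 := by
            rw [← Function.iterate_succ_apply' f]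
            congr 2
            omega
          rw [e, hbb]
          exact hiz
        · refine ⟨i, Finset.mem_range.2 (by omega), ?_⟩
          apply hf
          rw [← hiz]
          exact (Function.iterate_succ_apply' f i y0).symm
      obtain ⟨r, y, b, h1, h2, h3⟩ := ih (S \ (Finset.range b0).image (fun i => f^[i] y0)) (by
          have hlt : (S \ (Finset.range b0).image (fun i => f^[i] y0)).card < S.card := by
            apply Finset.card_lt_card
            refine ⟨Finset.sdiff_subset, ?_⟩
            intro hsub
            have := hsub hy0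
            rw [Finset.mem_sdiff] at this
            apply this.2
            rw [Finset.mem_image]
            exact ⟨0, Finset.mem_range.2 hb0, rfl⟩
          omega) hst' (by
          intro z hz
          rw [Finset.mem_sdiff] at hz
          exact hper z hz.1)
      have hO' : ∀ j i, f^[i] (y j) ∈ S \ (Finset.range b0).image (fun i => f^[i] y0) := by
        intro j i
        induction i with
        | zero => exact (h1 j).1
        | succ i ihi => rw [Function.iterate_succ_apply']; exact hst' _ ihi
      have hne : ∀ j i i0, i0 < b0 → f^[i] (y j) ≠ f^[i0] y0 := by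
        intro j i i0 hi0 he
        have := hO' j i
        rw [Finset.mem_sdiff, he] at this
        apply this.2
        rw [Finset.mem_image]
        exact ⟨i0, Finset.mem_range.2 hi0, rfl⟩
      refine ⟨r + 1, Fin.cons y0 y, Fin.cons b0 b, ?_, ?_, ?_⟩
      · intro j
        refine Fin.cases ?_ (fun j => ?_) j
        · exact ⟨hy0, hb0, hbb⟩
        · simp only [Fin.cons_succ]
          have := hO' j 0
          exact ⟨(Finset.mem_sdiff.1 this).1, (h1 j).2⟩
      · intro j i j' i'
        refine Fin.cases ?_ (fun j => ?_) j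
        · refine Fin.cases ?_ (fun j' => ?_) j'
          · simp only [Fin.cons_zero]
            intro hi hi' he
            exact ⟨trivial, hinj hi hi' he⟩
          · simp only [Fin.cons_zero, Fin.cons_succ]
            intro hi hi' he
            exact absurd he.symm (hne j' i' i hi)
        · refine Fin.cases ?_ (fun j' => ?_) j'
          · simp only [Fin.cons_zero, Fin.cons_succ]
            intro hi hi' he
            exact absurd he (hne j i i' hi')
          · simp only [Fin.cons_succ]
            intro hi hi' he
            obtain ⟨e1, e2⟩ := h2 j i j' i' hi hi' he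
            exact ⟨by rw [e1], e2⟩
      · intro z hz
        by_cases hzo : z ∈ (Finset.range b0).image (fun i => f^[i] y0)
        · rw [Finset.mem_image] at hzo
          obtain ⟨i, hi, hiz⟩ := hzo
          exact ⟨0, i, by simpa using hi, by simpa using hiz⟩
        · obtain ⟨j, i, hi, hiz⟩ := h3 z (Finset.mem_sdiff.2 ⟨hz, hzo⟩)
          exact ⟨j.succ, i, by simpa using hi, by simpa using hiz⟩

theorem cyc {α : Type} (f : α → α) (hf : Function.Injective f) {m : ℕ} (hm : 1 ≤ m) (x : Fin m → α)
    (τ : Equiv.Perm (Fin m)) (hx : ∀ i, x (τ i) = f (x i)) :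
    ∃ (r : ℕ) (y : Fin r → α) (b μ : Fin r → ℕ), 1 ≤ r ∧
      (∀ j, 1 ≤ b j ∧ 1 ≤ μ j ∧ f^[b j] (y j) = y j ∧ ∃ i, y j = x i) ∧
      Function.Injective (fun c : (j : Fin r) × Fin (b j) => f^[(c.2 : ℕ)] (y c.1)) ∧
      ∀ (G : Type) [AddCommMonoid G] (φ : α → G),
        ∑ i, φ (x i) = ∑ j, μ j • ∑ i ∈ range (b j), φ (f^[i] (y j)) := by
  classical
  have hit : ∀ (k : ℕ) (i : Fin m), f^[k] (x i) = x ((τ ^ k) i) := by
    intro k
    induction k with
    | zero => intro i; simp
    | succ k ih =>
      intro i
      rw [Function.iterate_succ_apply', ih, ← hx, pow_succ', Equiv.Perm.mul_apply]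
  obtain ⟨r, y, b, h1, h2, h3⟩ := CY_ind f hf (Finset.univ.image x).card (Finset.univ.image x) le_rfl
    (by
      intro z hz
      rw [Finset.mem_image] at hz ⊢
      obtain ⟨i, _, rfl⟩ := hz
      exact ⟨τ i, Finset.mem_univ _, hx i⟩)
    (by
      intro z hz
      rw [Finset.mem_image] at hz
      obtain ⟨i, _, rfl⟩ := hz
      refine ⟨orderOf τ, orderOf_pos τ, ?_⟩
      rw [hit, pow_orderOf_eq_one]
      rfl)
  have hN : ∀ z : α, (Finset.univ.filter (fun i => x i = f z)).card =
      (Finset.univ.filter (fun i => x i = z)).card := by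
    intro z
    symm
    apply Finset.card_bij (fun i _ => τ i)
    · intro i hi
      simp only [Finset.mem_filter, Finset.mem_univ, true_and] at hi ⊢
      rw [hx, hi]
    · intro i _ i' _ he
      exact τ.injective he
    · intro i' hi'
      simp only [Finset.mem_filter, Finset.mem_univ, true_and] at hi'
      refine ⟨τ.symm i', ?_, by simp⟩
      simp only [Finset.mem_filter, Finset.mem_univ, true_and]
      apply hf
      rw [← hx, Equiv.apply_symm_apply, hi']
  have hNi : ∀ (k : ℕ) (z : α), (Finset.univ.filter (fun i => x i = f^[k] z)).card =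
      (Finset.univ.filter (fun i => x i = z)).card := by
    intro k z
    induction k with
    | zero => rfl
    | succ k ih => rw [Function.iterate_succ_apply', hN, ih]
  refine ⟨r, y, b, fun j => (Finset.univ.filter (fun i => x i = y j)).card, ?_, ?_, ?_, ?_⟩
  · obtain ⟨j, _⟩ := h3 (x ⟨0, hm⟩) (Finset.mem_image_of_mem x (Finset.mem_univ _))
    have := j.pos
    omega
  · intro j
    obtain ⟨hy, hb, hp⟩ := h1 j
    rw [Finset.mem_image] at hy
    obtain ⟨i, _, hi⟩ := hy
    refine ⟨hb, ?_, hp, i, hi.symm⟩
    apply Finset.card_pos.2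
    exact ⟨i, by simp [hi]⟩
  · rintro ⟨j, i⟩ ⟨j', i'⟩ he
    obtain ⟨e1, e2⟩ := h2 j i j' i' i.2 i'.2 he
    subst e1
    have : i = i' := Fin.ext e2
    rw [this]
  · intro G _ φ
    rw [Finset.sum_comp φ x]
    have hrhs : (∑ j, (Finset.univ.filter (fun i => x i = y j)).card • ∑ i ∈ range (b j), φ (f^[i] (y j))) =
        ∑ p ∈ (Finset.univ : Finset (Fin r)).sigma (fun j => range (b j)),
          (Finset.univ.filter (fun i => x i = f^[p.2] (y p.1))).card • φ (f^[p.2] (y p.1)) := by
      rw [Finset.sum_sigma]
      apply Finset.sum_congr rfl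
      intro j _
      rw [Finset.smul_sum]
      apply Finset.sum_congr rfl
      intro i _
      rw [hNi]
    rw [hrhs]
    symm
    apply Finset.sum_bij (fun (p : (_ : Fin r) × ℕ) _ => f^[p.2] (y p.1))
    · rintro ⟨j, i⟩ _
      obtain ⟨hy, _⟩ := h1 j
      rw [Finset.mem_image] at hy ⊢
      obtain ⟨i', _, hi'⟩ := hy
      exact ⟨(τ ^ i) i', Finset.mem_univ _, by rw [← hit, hi']⟩
    · rintro ⟨j, i⟩ hi ⟨j', i'⟩ hi' he
      simp only [Finset.mem_sigma, Finset.mem_univ, Finset.mem_range, true_and] at hi hi'
      obtain ⟨e1, e2⟩ := h2 j i j' i' hi hi' he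
      subst e1
      subst e2
      rfl
    · intro z hz
      obtain ⟨j, i, hi, hiz⟩ := h3 z hz
      exact ⟨⟨j, i⟩, by simpa using hi, hiz⟩
    · rintro ⟨j, i⟩ _
      rfl

end DP
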