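import Pool.Agent.Lib.MP_17a322_ntDP.Defs

/-!
# Points of bounded degree: patterns of cycles of Frobenius
-/

set_option autoImplicit false

namespace DP

open Finset NumberField LVH VK FB

/-- the points of `G_m^n × E_1 × .. × E_q × A^(M + 1)` over the algebraic closure of the prime field -/
abbrev Xp (p : ℕ) [Fact p.Prime] (n M : ℕ) {q : ℕ} (α β : Fin q → ZMod p) : Type :=
  (Fin n → Om p) × ((l : Fin q) → Pt (em p (α l)) (em p (β l))) × (Fin (M + 1) → Om p)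

open Classical in
/-- `Φ` is Frobenius on the points of the curves -/
def IsFr (p : ℕ) [Fact p.Prime] {q : ℕ} {α β : Fin q → ZMod p}
    (Φ : (l : Fin q) → Pt (em p (α l)) (em p (β l)) →+ Pt (em p (α l)) (em p (β l))) : Prop :=
  ∀ l P, opP (Φ l P) = frO p (opP P)

open Classical in
/-- Frobenius on the points -/
noncomputable def stp {p : ℕ} [Fact p.Prime] {n M q : ℕ} {α β : Fin q → ZMod p}
    (Φ : (l : Fin q) → Pt (em p (α l)) (em p (β l)) →+ Pt (em p (α l)) (em p (β l))) (x : Xp p n M α β) :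
    Xp p n M α β := (fun l => x.1 l ^ p, fun l => Φ l (x.2.1 l), fun l => x.2.2 l ^ p)

open Classical in
/-- `x j`, `j < r`, are points over the extension of degree `c j` of the prime field, the last coordinates normalised, the
product of the conjugates of the `x j` with the multiplicities `μ j` is `u`, their sum is `z` -/
def Pat {p : ℕ} [Fact p.Prime] {n M q r : ℕ} {α β : Fin q → ZMod p}
    (Φ : (l : Fin q) → Pt (em p (α l)) (em p (β l)) →+ Pt (em p (α l)) (em p (β l))) (c μ : Fin r → ℕ)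
    (u : Fin n → ZMod p) (z : (l : Fin q) → Pt (em p (α l)) (em p (β l))) (x : Fin r → Xp p n M α β) : Prop :=
  (∀ j l, (x j).1 l ≠ 0 ∧ (x j).1 l ^ p ^ c j = (x j).1 l) ∧ (∀ j l, (⇑(Φ l))^[c j] ((x j).2.1 l) = (x j).2.1 l) ∧
  (∀ j, Nrm (x j).2.2 ∧ ∀ l, (x j).2.2 l ^ p ^ c j = (x j).2.2 l) ∧
  (∀ l, ∏ j, (∏ i ∈ range (c j), (x j).1 l ^ p ^ i) ^ μ j = em p (u l)) ∧
  ∀ l, ∑ j, μ j • ∑ i ∈ range (c j), (⇑(Φ l))^[i] ((x j).2.1 l) = z l

/-- the local condition with one more coordinate of the torus -/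
def RDU {K : Type} [Field K] [NumberField K] {n h g M w s e : ℕ} {κ ι : Type} [Fintype κ] [Fintype ι] (k : ℕ)
    (A' B' : Fin h → 𝓞 K) {δ : Fin w → ℕ} {d' : Fin w → Fin h → ℕ} (E' : Fin w → κ → Fin n → ℤ)
    (b : IxM κ M δ d' → 𝓞 K) (ν : Fin s → ℕ) (d : Fin s → Fin (h + g) → ℕ) (E : Fin s → ι → Fin n → ℤ)
    (ω : Fin e → 𝓞 K) (ζ : Cv e g) : Loc K (n + 1) (h + g) (IxM ι M ν d × Fin e) :=
  fun p π u z => RD k A' B' E' b ν d E ω ζ p π (fun l => u (Fin.castSucc l)) z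

theorem dens_RDU {K : Type} [Field K] [NumberField K] (L : Type) [Field L] [NumberField L] {p0 : ℕ} {κ0 : ℝ}
    {n h g M w s e k : ℕ} {κ ι : Type} [Fintype κ] [Fintype ι]
    {A' B' : Fin h → 𝓞 K} {δ : Fin w → ℕ} {d' : Fin w → Fin h → ℕ} {E' : Fin w → κ → Fin n → ℤ}
    {b : IxM κ M δ d' → 𝓞 K} {ν : Fin s → ℕ} {d : Fin s → Fin (h + g) → ℕ} {E : Fin s → ι → Fin n → ℤ}
    {ω : Fin e → 𝓞 K} {ζ : Cv e g} (hR : DensK L p0 (RD k A' B' E' b ν d E ω ζ) κ0) :
    DensK L p0 (RDU k A' B' E' b ν d E ω ζ) κ0 :=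
  fun p hp hpp hD π u z hu => hR p hp hpp hD π (fun l => u (Fin.castSucc l)) z fun l => hu _

end DP
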