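import Pool.Agent.Lib.MP_17a322_ntDP.Defs2
import Pool.Agent.Lib.MP_17a322_ntVU.Cl

/-!
# Points of bounded degree on pairs: definitions
-/

set_option autoImplicit false

namespace DP

open Finset NumberField LVH VK FB

/-- the finite place `w` of `L` is not above a place in `S` -/
def Off {K : Type} [Field K] [NumberField K] (S : Finset (FinitePlace K)) {L : Type} [Field L] [NumberField L]
    [Algebra K L] (w : FinitePlace L) : Prop := ∀ v ∈ S, ∃ a : K, v a < 1 ∧ w (algebraMap K L a) = 1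

/-- the pair `(X, D)` has a point over some extension `L` of `K` of degree at most `k` which is integral outside of the
places above `S`: `X` is the subvariety of `G_m^n × E_1 × .. × E_(h+g) × ℙ^M` given by the sections with the coefficients `b`
(on the first `h` curves) and the sections with the coefficients `a` of index not in `V`, `D` is the sum of the divisors of
the sections of index in `V` -/
def IntV {K : Type} [Field K] [NumberField K] {n h g M w s : ℕ} {κ ι : Type} [Fintype κ] [Fintype ι] {δ : Fin w → ℕ}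
    {d' : Fin w → Fin h → ℕ} {ν : Fin s → ℕ} {d : Fin s → Fin (h + g) → ℕ} (k : ℕ) (S : Finset (FinitePlace K))
    (V : Finset (Fin s)) (E' : Fin w → κ → Fin n → ℤ) (b : IxM κ M δ d' → K) (E : Fin s → ι → Fin n → ℤ)
    (A B : Fin (h + g) → K) (a : IxM ι M ν d → K) : Prop :=
  ∃ (L : Type) (_ : Field L) (_ : NumberField L) (_ : Algebra K L), Module.finrank K L ≤ k ∧
    ∃ (x : Fin n → L) (P : Fin (h + g) → Option (L × L)) (u : Fin (M + 1) → L),
      (∀ l, x l ≠ 0) ∧ (∀ l, IsPt (algebraMap K L (A l)) (algebraMap K L (B l)) (P l)) ∧ u ≠ 0 ∧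
      (∀ i, sM E' (fun t => algebraMap K L (b t)) x (fun l => P (Fin.castAdd g l)) u i = 0) ∧
      (∀ j ∉ V, sM E (fun t => algebraMap K L (a t)) x P u j = 0) ∧
      ∀ v : FinitePlace L, Off S v → (∀ l, v (x l) = 1) ∧
        ∀ j ∈ V, v (sM E (fun t => algebraMap K L (a t)) x P u j) = lf v (ν j) (d j) P u

open Classical in
/-- `m ≤ k` points of `G_m^n × E_1 × .. × E_q × ℙ^M` over the algebraic closure of the prime field, permuted by Frobenius,
whose product in `G_m^n` is `u` and whose sum in `E_1 × .. × E_q` is `z`, each with the property `Q`, at which the sections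
of index not in `V` vanish and for which the product of the values of the section of index `j` in `V` is `τ j` -/
def TupV (p : ℕ) [Fact p.Prime] {n q M s : ℕ} {ι : Type} [Fintype ι] {ν : Fin s → ℕ} {d : Fin s → Fin q → ℕ} (k : ℕ)
    (V : Finset (Fin s)) (α β : Fin q → ZMod p) (u : Fin n → ZMod p) (z : Fin q → Option (ZMod p × ZMod p))
    (Q : (Fin n → Om p) → (Fin q → Option (Om p × Om p)) → (Fin (M + 1) → Om p) → Prop) (E : Fin s → ι → Fin n → ℤ)
    (a : IxM ι M ν d → ZMod p) (τ : Fin s → ZMod p) : Prop :=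
  ∃ (m : ℕ) (σ : Equiv.Perm (Fin m)) (t : Fin m → Fin n → Om p)
    (P : Fin m → (l : Fin q) → Pt (em p (α l)) (em p (β l))) (y : Fin m → Fin (M + 1) → Om p),
    1 ≤ m ∧ m ≤ k ∧ (∀ i l, t i l ≠ 0 ∧ t (σ i) l = t i l ^ p) ∧
    (∀ i l, opP (P (σ i) l) = frO p (opP (P i l))) ∧ (∀ i, Nrm (y i) ∧ ∀ l, y (σ i) l = y i l ^ p) ∧
    (∀ l, ∏ i, t i l = em p (u l)) ∧ (∀ l, opP (∑ i, P i l) = mpO (em p) (z l)) ∧
    (∀ i, Q (t i) (fun l => opP (P i l)) (y i)) ∧
    (∀ j ∉ V, ∀ i, sM E (fun x => em p (a x)) (t i) (fun l => opP (P i l)) (y i) j = 0) ∧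
    ∀ j ∈ V, ∏ i, sM E (fun x => em p (a x)) (t i) (fun l => opP (P i l)) (y i) j = em p (τ j)

/-- the local condition for pairs -/
def RDV {K : Type} [Field K] [NumberField K] {n h g M w s e : ℕ} {κ ι : Type} [Fintype κ] [Fintype ι] (k : ℕ)
    (V : Finset (Fin s)) (A' B' : Fin h → 𝓞 K) {δ : Fin w → ℕ} {d' : Fin w → Fin h → ℕ} (E' : Fin w → κ → Fin n → ℤ)
    (b : IxM κ M δ d' → 𝓞 K) (ν : Fin s → ℕ) (d : Fin s → Fin (h + g) → ℕ) (E : Fin s → ι → Fin n → ℤ)
    (ω : Fin e → 𝓞 K) (ζ : Cv e g) : Loc K (n + s) (h + g) (IxM ι M ν d × Fin e) :=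
  fun p π u z =>
  {c | ∃ _ : Fact p.Prime, (∀ l, ds (res π (aA ω A' ζ l)) (res π (aB ω B' ζ l)) ≠ 0) ∧
    ∃ (c0 : ZMod p) (t : Fin (h + g) → ZMod p), c0 ≠ 0 ∧ (∀ l, t l ≠ 0) ∧
    TupV p k V (fun l => res π (aA ω A' ζ l)) (fun l => res π (aB ω B' ζ l)) (fun l => u (Fin.castAdd s l)) z
      (fun t P y => ∀ i, sM E' (fun x => em p (res π ((b x : 𝓞 K) : K))) t (fun l => P (Fin.castAdd g l)) y i = 0)
      E (fun x : IxM ι M ν d => ∑ i, c (x, i) * res π ((ω i : 𝓞 K) : K))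
      (fun j => c0 ^ ν j * (∏ l, t l ^ d j l) * u (Fin.natAdd n j))}

/-- the local condition with one more coordinate of the torus -/
def RVU {K : Type} [Field K] [NumberField K] {n h g M w s e : ℕ} {κ ι : Type} [Fintype κ] [Fintype ι] (k : ℕ)
    (V : Finset (Fin s)) (A' B' : Fin h → 𝓞 K) {δ : Fin w → ℕ} {d' : Fin w → Fin h → ℕ} (E' : Fin w → κ → Fin n → ℤ)
    (b : IxM κ M δ d' → 𝓞 K) (ν : Fin s → ℕ) (d : Fin s → Fin (h + g) → ℕ) (E : Fin s → ι → Fin n → ℤ)
    (ω : Fin e → 𝓞 K) (ζ : Cv e g) : Loc K (n + s + 1) (h + g) (IxM ι M ν d × Fin e) :=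
  fun p π u z => RDV k V A' B' E' b ν d E ω ζ p π (fun l => u (Fin.castSucc l)) z

theorem dens_RVU {K : Type} [Field K] [NumberField K] (L : Type) [Field L] [NumberField L] {p0 : ℕ} {κ0 : ℝ}
    {n h g M w s e k : ℕ} {κ ι : Type} [Fintype κ] [Fintype ι] {V : Finset (Fin s)}
    {A' B' : Fin h → 𝓞 K} {δ : Fin w → ℕ} {d' : Fin w → Fin h → ℕ} {E' : Fin w → κ → Fin n → ℤ}
    {b : IxM κ M δ d' → 𝓞 K} {ν : Fin s → ℕ} {d : Fin s → Fin (h + g) → ℕ} {E : Fin s → ι → Fin n → ℤ}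
    {ω : Fin e → 𝓞 K} {ζ : Cv e g} (hR : DensK L p0 (RDV k V A' B' E' b ν d E ω ζ) κ0) :
    DensK L p0 (RVU k V A' B' E' b ν d E ω ζ) κ0 :=
  fun p hp hpp hD π u z hu => hR p hp hpp hD π (fun l => u (Fin.castSucc l)) z fun _ => hu _

/-- `c⁻¹` has the absolute value of the product of the contents of the conjugates of the vector `u`, at all the places of
`N` above the places outside of `S` -/
def Nf {K L N : Type} [Field K] [NumberField K] [Field L] [NumberField L] [Field N] [NumberField N] [Algebra K L]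
    [Algebra K N] (S : Finset (FinitePlace K)) (σ : Fin (Module.finrank K L) ≃ (L →ₐ[K] N)) {M : ℕ}
    (u : Fin (M + 1) → L) (c : K) : Prop :=
  ∀ v : FinitePlace K, v ∉ S → ∀ (F : Type) [Field F] (Λ : PF N F), (∀ x : K, algebraMap K N x ∈ Λ.V ↔ v x ≤ 1) →
    ∀ c' : Fin (Module.finrank K L) → N,
      (∀ i, (∀ a, c' i * σ i (u a) ∈ Λ.V) ∧ ∃ a, rf Λ (c' i * σ i (u a)) ≠ 0) →
      (∏ i, c' i) / algebraMap K N c ∈ Λ.V ∧ rf Λ ((∏ i, c' i) / algebraMap K N c) ≠ 0

end DP
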