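import Pool.Agent.Lib.MP_17a322_ntDP.Defs3

/-!
# Integral points of bounded degree on pairs
-/

set_option autoImplicit false

namespace DP

open Finset NumberField LVH VK FB

/-- the pair `(X, D)` has an `S`-integral point over some extension `L` of `K` of degree at most `k`.  In
`G_m^n × E_1 × .. × E_(h+g) × ℙ^M` the variety `X` is given by the sections with the coefficients `b` (on the first `h`
curves) of index not in `W`, the sections `F_j` with the coefficients `a` of index `j` not in `V` and not in `R`, and the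
equations `F_j = γ t ^ (ρ j)` for `j ∈ R` (a cyclic cover, `γ` any number of `L` which is a unit outside of `S`); `D` is the
sum of the divisors of the sections of index in `W` and in `V`; `S`-integral: at the places of `L` which are not above
places in `S` the coordinates `x_l` of the torus are units and the local heights of all these divisors vanish -/
def IntG {K : Type} [Field K] [NumberField K] {n h g M w s : ℕ} {κ ι : Type} [Fintype κ] [Fintype ι] {δ : Fin w → ℕ}
    {d' : Fin w → Fin h → ℕ} {ν : Fin s → ℕ} {d : Fin s → Fin (h + g) → ℕ} (k : ℕ) (S : Finset (FinitePlace K))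
    (W : Finset (Fin w)) (V R : Finset (Fin s)) (ρ : Fin s → ℕ) (E' : Fin w → κ → Fin n → ℤ)
    (b : IxM κ M δ d' → K) (E : Fin s → ι → Fin n → ℤ) (A B : Fin (h + g) → K) (a : IxM ι M ν d → K) : Prop :=
  ∃ (L : Type) (_ : Field L) (_ : NumberField L) (_ : Algebra K L), Module.finrank K L ≤ k ∧
    ∃ (x : Fin n → L) (P : Fin (h + g) → Option (L × L)) (u : Fin (M + 1) → L),
      (∀ l, x l ≠ 0) ∧ (∀ l, IsPt (algebraMap K L (A l)) (algebraMap K L (B l)) (P l)) ∧ u ≠ 0 ∧
      (∀ i ∉ W, sM E' (fun t => algebraMap K L (b t)) x (fun l => P (Fin.castAdd g l)) u i = 0) ∧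
      (∀ j, j ∉ V → j ∉ R → sM E (fun t => algebraMap K L (a t)) x P u j = 0) ∧
      (∀ j ∈ R, ∃ γ t : L, γ ≠ 0 ∧ (∀ v : FinitePlace L, Off S v → v γ = 1) ∧
        sM E (fun t => algebraMap K L (a t)) x P u j = γ * t ^ ρ j) ∧
      ∀ v : FinitePlace L, Off S v → (∀ l, v (x l) = 1) ∧
        (∀ i ∈ W, v (sM E' (fun t => algebraMap K L (b t)) x (fun l => P (Fin.castAdd g l)) u i) =
          lf v (δ i) (d' i) (fun l => P (Fin.castAdd g l)) u) ∧
        ∀ j ∈ V, v (sM E (fun t => algebraMap K L (a t)) x P u j) = lf v (ν j) (d j) P u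

end DP
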