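import Pool.Agent.Lib.MP_17a322_ntDP.Defs3

/-!
# Points of bounded degree, the boundary case: definitions
-/

set_option autoImplicit false

namespace DP

open Finset NumberField LVH VK FB

/-- the proportion of the elements with the property `B` -/
noncomputable def pr {Ω : Type} (B : Ω → Prop) : ℝ := (Nat.card {a : Ω // B a} : ℝ) / Nat.card Ω

/-- `N` is a finite set of points with the property `G` which is stable under `f` -/
def Stb {X : Type} (f : X → X) (G : X → Prop) (N : Finset X) : Prop := ∀ x ∈ N, f x ∈ N ∧ G x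

/-- the functions on `N` which are compatible with `f` and Frobenius, extended by `0` -/
def Fn (p : ℕ) [Fact p.Prime] {X : Type} (f : X → X) (N : Finset X) : Set (X → Om p) :=
  {g | (∀ x, x ∉ N → g x = 0) ∧ ∀ x ∈ N, g (f x) = g x ^ p}

open Classical in
/-- the restriction of a function to `N`, extended by `0` -/
noncomputable def rs {X F : Type} [Zero F] (N : Finset X) (g : X → F) : X → F := fun x => if x ∈ N then g x else 0

/-- `X` is a set of points, `f` is Frobenius, `G` the property to be a good point, `χ` the map to the group `A`, `ev a j x`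
the value at `x` of the section of index `j` with the coefficients `a`, `V` the set of the indices of the sections of the
boundary, `Θ` the set of the families of values which are allowed for the products of their values -/
structure Sys (p : ℕ) [Fact p.Prime] (X Ω A : Type) (s : ℕ) where
  /-- Frobenius -/
  f : X → X
  /-- good points -/
  G : X → Prop
  /-- the map to the group -/
  χ : X → A
  /-- the values of the sections -/
  ev : Ω → Fin s → X → Om p
  /-- the sections of the boundary -/
  V : Finset (Fin s)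
  /-- the families of values -/
  Θ : Finset (Fin s → Om p)

/-- the sections of index not in `V` vanish on `T`, the products over `T` of the values of the other ones are a family of
`Θ` -/
def Sys.Ev {p : ℕ} [Fact p.Prime] {X Ω A : Type} {s : ℕ} (S : Sys p X Ω A s) (T : Finset X) (a : Ω) : Prop :=
  (∀ j ∉ S.V, ∀ x ∈ T, S.ev a j x = 0) ∧ ∃ θ ∈ S.Θ, ∀ j ∈ S.V, ∏ x ∈ T, S.ev a j x = θ j

/-- the property `B` depends only on the values of the sections at the points in `U` -/
def Sys.Dp {p : ℕ} [Fact p.Prime] {X Ω A : Type} {s : ℕ} (S : Sys p X Ω A s) (U : Finset X) (B : Ω → Prop) : Prop :=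
  ∀ a b, (∀ j, ∀ x ∈ U, S.ev a j x = S.ev b j x) → (B a ↔ B b)

/-- the hypotheses: `D1` is the dimension of the group, `D2 - 1` the dimension of the set of the points, `p ^ ρ` bounds the
number of the families in `Θ`, the values at at most `N0` points are independent -/
structure Sys.Ok {p : ℕ} [Fact p.Prime] {X Ω A : Type} [AddCommGroup A] {s : ℕ} (S : Sys p X Ω A s)
    (k N0 D1 D2 ρ C : ℕ) : Prop where
  fin : Finite Ω
  ne : Nonempty Ω
  inj : Function.Injective S.f
  fr : ∀ a j x, S.ev a j (S.f x) = S.ev a j x ^ p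
  eq : ∀ U : Finset X, Stb S.f S.G U → U.card ≤ N0 → ∀ g : Fin s → X → Om p, (∀ j, g j ∈ Fn p S.f U) →
    Nat.card {a : Ω // ∀ j, rs U (S.ev a j) = g j} * p ^ (s * U.card) = Nat.card Ω
  cnt : ∀ m : ℕ, 1 ≤ m → m ≤ k → ∀ z : A, ∃ F : Finset (Finset X), F.card * p ^ (D1 + m) ≤ C * p ^ (m * D2) ∧
    ∀ N, Stb S.f S.G N → N.card = m → ∑ x ∈ N, S.χ x = z → N ∈ F
  cls : S.Θ.card ≤ p ^ ρ ∧ ∀ θ ∈ S.Θ, ∀ j ∈ S.V, θ j ≠ 0
  nrm : ∀ N : Finset X, (∀ x ∈ N, S.f x ∈ N) → 1 ≤ N.card → N.card ≤ k → ∀ θ : Om p, θ ≠ 0 →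
    Nat.card {g : X → Om p // g ∈ Fn p S.f N ∧ ∏ x ∈ N, g x = θ} * p ≤ C * p ^ N.card

/-- the finite sets of `k` good points, stable under `f`, of sum `z` -/
def Sys.Tk {p : ℕ} [Fact p.Prime] {X Ω A : Type} [AddCommGroup A] {s : ℕ} (S : Sys p X Ω A s) (k : ℕ) (z : A)
    (T : Finset X) : Prop := Stb S.f S.G T ∧ T.card = k ∧ ∑ x ∈ T, S.χ x = z

/-- good points: the coordinates of the torus are not zero, the last coordinates are normalised, the fixed sections vanish -/
def Gd {K : Type} [Field K] [NumberField K] {p : ℕ} [Fact p.Prime] {n h g M w : ℕ} {κ : Type} [Fintype κ] {δ : Fin w → ℕ}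
    {d' : Fin w → Fin h → ℕ} (E' : Fin w → κ → Fin n → ℤ) (b : IxM κ M δ d' → 𝓞 K) (φ : 𝓞 K →+* ZMod p)
    (α β : Fin (h + g) → ZMod p) (x : Xp p n M α β) : Prop :=
  (∀ l, x.1 l ≠ 0) ∧ Nrm x.2.2 ∧
    ∀ i, sM E' (fun x => em p (φ (b x))) x.1 (fun l => opP (x.2.1 (Fin.castAdd g l))) x.2.2 i = 0

/-- the value at `x` of the section of index `j` with the coefficients `a` -/
noncomputable def evX {p : ℕ} [Fact p.Prime] {n q M s e : ℕ} {ι : Type} [Fintype ι] {α β : Fin q → ZMod p} {ν : Fin s → ℕ}
    {d : Fin s → Fin q → ℕ} (E : Fin s → ι → Fin n → ℤ) (v : Fin e → ZMod p) (a : IxM ι M ν d × Fin e → ZMod p)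
    (j : Fin s) (x : Xp p n M α β) : Om p :=
  sM E (fun x => em p (∑ i, a (x, i) * v i)) x.1 (fun l => opP (x.2.1 l)) x.2.2 j

end DP
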