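import Pool.Agent.Lib.MP_17a322_ntOC.OR1
import Pool.Agent.Lib.MP_17a322_ntVK.EB

/-!
# LEAF EA: a lower bound for the number of points

PROOF.  `card_pt` (EB): `Nat.card (Pt a b) = nz a b + 1`.  `OCM.hasse` (`ds a b = 4 a ^ 3 + 27 b ^ 2` by definition): `(p - nz) ^ 2 ≤ 4 p`.  If `4 (nz + 1) < p` then `p - nz > 3 p / 4`, `(3 p / 4) ^ 2 < 4 p` is false for `p ≥ 16`.
-/

set_option autoImplicit false

namespace DP

open Finset VK

theorem card_low {p : ℕ} [Fact p.Prime] (hp : 16 ≤ p) {a b : ZMod p} (hd : ds a b ≠ 0) :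
    p ≤ 4 * Nat.card (Pt a b) := by
  have h1 := OCM.hasse (p := p) (by omega) (A := a) (B := b) hd
  rw [card_pt (by omega) hd]
  by_contra hcon
  have h2 : 4 * ((MWS.nz a b : ℤ) + 1) < p := by
    have h3 : 4 * (MWS.nz a b + 1) < p := not_le.mp hcon
    exact_mod_cast h3
  have h4 : (16 : ℤ) ≤ p := by exact_mod_cast hp
  have h5 : (0 : ℤ) ≤ MWS.nz a b := Int.natCast_nonneg _
  have h6 : 3 * (p : ℤ) ≤ 4 * ((p : ℤ) - MWS.nz a b) := by linarith
  have h7 : (3 * (p : ℤ)) ^ 2 ≤ (4 * ((p : ℤ) - MWS.nz a b)) ^ 2 :=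
    pow_le_pow_left₀ (by linarith) h6 2
  nlinarith

end DP
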