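import Pool.Agent.Lib.MP_17a322_ntFB.N7
import Pool.Agent.Lib.MP_17a322_ntVK.EA

/-!
# LEAF EB: division by two of the points over an algebraically closed field

PROOF.  `P = 0`: `Q = 0`.  `P = (X, Y)`: the polynomial `x ^ 4 - 2 a x ^ 2 - 8 b x + a ^ 2 - 4 X (x ^ 3 + a x + b)` has a root `x` (degree `4`, `IsAlgClosed.exists_root`), `y ^ 2 = x ^ 3 + a x + b` for some `y`.  `y ≠ 0`: otherwise `x ^ 3 + a x + b = 0` and `x ^ 4 - 2 a x ^ 2 - 8 b x + a ^ 2 = (3 x ^ 2 + a) ^ 2 - 8 x (x ^ 3 + a x + b) = 0` give `3 x ^ 2 + a = 0`, so the discriminant `ds a b` is `0` (a polynomial identity: `4 a ^ 3 + 27 b ^ 2 = 4 a ^ 3 + 27 (x ^ 3 + a x) ^ 2`, `a = - 3 x ^ 2`: `- 108 x ^ 6 + 27 * 4 x ^ 6 = 0`).  The point `Q = (x, y)` (`EK_nons`) has `Q ≠ - Q` (`2 y ≠ 0`), so `2 Q ≠ 0`, `dup_pt` (N7): the `x`-coordinate of `2 Q` is `X` (`4 y ^ 2 ≠ 0`), so `2 Q = P` or `2 Q = - P`; take `Q` or `- Q`.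
-/

set_option autoImplicit false

namespace DP

open Finset VK FB

private theorem EB_root {F : Type} [Field F] [IsAlgClosed F] (a b X : F) :
    ∃ x : F, x ^ 4 - 2 * a * x ^ 2 - 8 * b * x + a ^ 2 - 4 * X * (x ^ 3 + a * x + b) = 0 := by
  obtain ⟨p, hp⟩ : ∃ p : Polynomial F, p = Polynomial.X ^ 4 - Polynomial.C (4 * X) * Polynomial.X ^ 3 -
    Polynomial.C (2 * a) * Polynomial.X ^ 2 - Polynomial.C (8 * b + 4 * X * a) * Polynomial.X +
    Polynomial.C (a ^ 2 - 4 * X * b) := ⟨_, rfl⟩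
  have h4 : p.natDegree = 4 := by
    rw [hp]
    compute_degree!
  have h5 : p.degree ≠ 0 := by
    intro h
    have h6 : p.natDegree = 0 := Polynomial.natDegree_eq_of_degree_eq_some h
    omega
  obtain ⟨x, hx⟩ := IsAlgClosed.exists_root p h5
  refine ⟨x, ?_⟩
  rw [Polynomial.IsRoot.def, hp] at hx
  simp only [Polynomial.eval_add, Polynomial.eval_sub, Polynomial.eval_mul, Polynomial.eval_pow,
    Polynomial.eval_X, Polynomial.eval_C] at hx
  linear_combination hx

theorem half {F : Type} [Field F] [DecidableEq F] [IsAlgClosed F] (h2 : (2 : F) ≠ 0) {a b : F} (hd : ds a b ≠ 0)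
    (P : Pt a b) : ∃ Q : Pt a b, 2 • Q = P := by
  rcases P with _ | ⟨X, Y, hXY⟩
  · exact ⟨0, nsmul_zero 2⟩
  have hP : Y ^ 2 = X ^ 3 + a * X + b := (EK_nons a b h2 hd X Y).1 hXY
  obtain ⟨x, hx⟩ := EB_root a b X
  obtain ⟨y, hy⟩ := IsAlgClosed.exists_pow_nat_eq (x ^ 3 + a * x + b) (n := 2) (by norm_num)
  have h4 : (4 : F) ≠ 0 := by
    have : (4 : F) = 2 * 2 := by norm_num
    rw [this]
    exact mul_ne_zero h2 h2
  have hy0 : y ≠ 0 := by
    intro h0
    rw [h0] at hy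
    have e1 : x ^ 3 + a * x + b = 0 := by
      rw [← hy]
      ring
    have e2 : (3 * x ^ 2 + a) ^ 2 = 0 := by
      linear_combination hx + (8 * x + 4 * X) * e1
    have e3 : 3 * x ^ 2 + a = 0 := pow_eq_zero_iff (two_ne_zero) |>.1 e2
    refine hd ?_
    unfold ds
    have ha : a = -3 * x ^ 2 := by linear_combination e3
    have hb : b = 2 * x ^ 3 := by
      rw [ha] at e1
      linear_combination e1
    rw [ha, hb]
    ring
  have hn := (EK_nons a b h2 hd x y).2 hy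
  obtain ⟨Q, hQ⟩ : ∃ Q : Pt a b, Q = .some x y hn := ⟨_, rfl⟩
  have hQ0 : Q ≠ 0 := by
    rw [hQ]
    exact WeierstrassCurve.Affine.Point.some_ne_zero hn
  have hQ2 : 2 • Q ≠ 0 := by
    intro h
    rw [two_nsmul] at h
    have h6 : Q = -Q := eq_neg_of_add_eq_zero_left h
    rw [hQ, WeierstrassCurve.Affine.Point.neg_some] at h6
    have h7 := (WeierstrassCurve.Affine.Point.some.inj h6).2
    have h8 : (EK a b).toAffine.negY x y = -y := by
      simp [WeierstrassCurve.Affine.negY, EK]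
    rw [h8] at h7
    have h9 : 2 * y = 0 := by linear_combination h7
    exact hy0 ((mul_eq_zero.1 h9).resolve_left h2)
  have hD := dup_pt Q hQ0 hQ2
  have hneg : ∀ (x' y' : F) (h' : (EK a b).toAffine.Nonsingular x' y'),
      (EK a b).toAffine.negY x' y' = -y' := by
    intro x' y' _
    simp [WeierstrassCurve.Affine.negY, EK]
  generalize hR : 2 • Q = R at hQ2 hD
  rcases R with _ | ⟨X', Y', h'⟩
  · exact absurd rfl hQ2
  have hD' : X' * (4 * (x ^ 3 + a * x + b)) = x ^ 4 - 2 * a * x ^ 2 - 8 * b * x + a ^ 2 := by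
    rw [hQ] at hD
    exact hD
  have hXX : X' = X := by
    have h10 : (X' - X) * (4 * y ^ 2) = 0 := by
      rw [hy]
      linear_combination hD' + hx
    have h11 := (mul_eq_zero.1 h10).resolve_right (mul_ne_zero h4 (pow_ne_zero 2 hy0))
    linear_combination h11
  subst hXX
  have hP' : Y' ^ 2 = X' ^ 3 + a * X' + b := (EK_nons a b h2 hd X' Y').1 h'
  have h12 : (Y - Y') * (Y + Y') = 0 := by linear_combination hP - hP'
  rcases mul_eq_zero.1 h12 with h13 | h13
  · have h14 : Y = Y' := by linear_combination h13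
    subst h14
    exact ⟨Q, hR⟩
  · have h14 : Y = -Y' := by linear_combination h13
    refine ⟨-Q, ?_⟩
    rw [smul_neg, hR, WeierstrassCurve.Affine.Point.neg_some]
    subst h14
    rw [WeierstrassCurve.Affine.Point.some.injEq]
    exact ⟨rfl, hneg X' Y' h'⟩

end DP
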