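import Pool.Agent.Lib.MP_17a322_ntDP.EB
import Pool.Agent.Lib.MP_17a322_ntVK.EA

/-!
# LEAF EC: points of large order over an algebraically closed field

PROOF.  `T = (e, 0)`, `e` a root of `x ^ 3 + a x + b` (`EK_nons`): `T ≠ 0`, `2 • T = 0` (`T = - T`).  By `half`, induction: for every `i` there is `P_i` with `2 ^ i • P_i = T`.  For `P = P_n`: `addOrderOf P = 2 ^ (n + 1)` (`addOrderOf_eq_prime_pow`: `2 ^ n • P ≠ 0`, `2 ^ (n + 1) • P = 0`), and `n < 2 ^ (n + 1)`, so `j • P ≠ 0` for `1 ≤ j ≤ n`.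
-/

set_option autoImplicit false

namespace DP

open Finset VK FB

private theorem EC_two {F : Type} [Field F] [DecidableEq F] [IsAlgClosed F] (h2 : (2 : F) ≠ 0) {a b : F}
    (hd : ds a b ≠ 0) : ∃ T : Pt a b, T ≠ 0 ∧ 2 • T = 0 := by
  obtain ⟨e, he⟩ := IsAlgClosed.exists_root
    (Polynomial.X ^ 3 + Polynomial.C a * Polynomial.X + Polynomial.C b : Polynomial F) (by
      have h1 : (Polynomial.X ^ 3 + Polynomial.C a * Polynomial.X + Polynomial.C b : Polynomial F).degree = 3 := by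
        compute_degree!
      rw [h1]
      norm_num)
  have h1 : e ^ 3 + a * e + b = 0 := by
    rw [Polynomial.IsRoot.def] at he
    simpa using he
  have h3 : (EK a b).toAffine.Nonsingular e 0 := (EK_nons a b h2 hd e 0).2 (by rw [h1]; ring)
  refine ⟨.some e 0 h3, WeierstrassCurve.Affine.Point.some_ne_zero _, ?_⟩
  have h4 : (0 : F) = (EK a b).toAffine.negY e 0 := by
    rw [WeierstrassCurve.Affine.negY]
    simp [EK]
  rw [two_nsmul]
  exact WeierstrassCurve.Affine.Point.add_of_Y_eq rfl h4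

private theorem EC_iter {F : Type} [Field F] [DecidableEq F] [IsAlgClosed F] (h2 : (2 : F) ≠ 0) {a b : F}
    (hd : ds a b ≠ 0) (T : Pt a b) (i : ℕ) : ∃ P : Pt a b, 2 ^ i • P = T := by
  induction i with
  | zero => exact ⟨T, by rw [pow_zero, one_nsmul]⟩
  | succ i ih =>
    obtain ⟨P, hP⟩ := ih
    obtain ⟨Q, hQ⟩ := half h2 hd P
    exact ⟨Q, by rw [pow_succ, mul_nsmul', hQ, hP]⟩

theorem ord_big {F : Type} [Field F] [DecidableEq F] [IsAlgClosed F] (h2 : (2 : F) ≠ 0) {a b : F} (hd : ds a b ≠ 0)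
    (n : ℕ) : ∃ P : Pt a b, ∀ j : ℕ, 1 ≤ j → j ≤ n → j • P ≠ 0 := by
  obtain ⟨T, hT, hT2⟩ := EC_two h2 hd
  obtain ⟨P, hP⟩ := EC_iter h2 hd T n
  have : Fact (Nat.Prime 2) := ⟨Nat.prime_two⟩
  have h1 : addOrderOf P = 2 ^ (n + 1) := addOrderOf_eq_prime_pow (by rw [hP]; exact hT)
    (by rw [pow_succ, mul_comm, mul_nsmul', hP, hT2])
  refine ⟨P, fun j hj hjn h => ?_⟩
  have h3 := addOrderOf_dvd_of_nsmul_eq_zero h
  rw [h1] at h3
  have h4 := Nat.le_of_dvd hj h3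
  have h5 : n + 1 < 2 ^ (n + 1) := Nat.lt_two_pow_self
  omega

end DP
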