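import Pool.Agent.Lib.MP_17a322_ntFB.N7

/-!
# LEAF ED: the coordinates of the multiples of a point

PROOF.  Induction (two steps).  `n = 1`: `X = x`, `Z = 1`.  `n = 2`: `dup_pt`: `X = x ^ 4 - 2 a x ^ 2 - 8 b x + a ^ 2`, `Z = 4 (x ^ 3 + a x + b)`; `Z ≠ 0` at the points with `2 P ≠ 0` (`P = (x, y)`, `y = 0` would give `2 P = 0`; `4 ≠ 0`).  `n + 1`, `n ≥ 2`: let `x = xc P`, `x_i = xc (i • P)`, all `i • P`, `1 ≤ i ≤ n + 1`, are `≠ 0`.  `x_n ≠ x`, otherwise `n P = P` or `n P = - P` (equal `x`-coordinates), so `(n - 1) P = 0` or `(n + 1) P = 0`.  From `RO.A1_exists (EK a b) (n • P) P` as in the proof of `trip_pt` (N7; the points `n P + P = (n + 1) P`, `n P - P = (n - 1) P`), the entries 1 and 2 (`A1_eval1`, `A1_eval2`): `(x_(n+1) + x_(n-1)) (x_n - x) ^ 2 = 2 ((x + x_n) (a + x x_n) + 2 b)`.  With `x_n = X_n / Z_n`, `x_(n-1) = X_(n-1) / Z_(n-1)`: `Z_(n+1) = (x Z_n - X_n) ^ 2 Z_(n-1)`, `X_(n+1) = 2 ((x Z_n + X_n) (a Z_n + x X_n) + 2 b Z_n ^ 2) Z_(n-1) - X_(n-1) (x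 Z_n - X_n) ^ 2`.  Degrees: `D (n + 1) = 2 D n + D (n - 1) + 4`, which does not depend on the field.  (The induction hypothesis for `n` and `n - 1` applies to `P`.)
-/

set_option autoImplicit false

namespace DP

open Finset VK FB

private theorem ED_b2 {F : Type} [Field F] (A B : F) : (EK A B).b₂ = 0 := by
  simp [EK, WeierstrassCurve.b₂]

private theorem ED_b4 {F : Type} [Field F] (A B : F) : (EK A B).b₄ = 2 * A := by
  simp [EK, WeierstrassCurve.b₄]

private theorem ED_b6 {F : Type} [Field F] (A B : F) : (EK A B).b₆ = 4 * B := by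
  simp [EK, WeierstrassCurve.b₆]

private theorem ED_ne {F : Type} [Field F] [DecidableEq F] {a b : F} (P Q : Pt a b) (hP : P ≠ 0) (hQ : Q ≠ 0)
    (h1 : P ≠ Q) (h2 : P ≠ -Q) : xc P ≠ xc Q := by
  rcases P with _ | ⟨x, y, h⟩
  · exact absurd rfl hP
  rcases Q with _ | ⟨X, Y, h'⟩
  · exact absurd rfl hQ
  intro hx
  have hx' : x = X := hx
  rcases WeierstrassCurve.Affine.Point.X_eq_iff.1 hx' with h3 | h3
  · exact h1 h3
  · exact h2 h3

private theorem ED_add {F : Type} [Field F] [DecidableEq F] {a b : F} (P Q : Pt a b) (hP : P ≠ 0) (hQ : Q ≠ 0)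
    (h1 : Q + P ≠ 0) (h2 : Q - P ≠ 0) :
    (xc (Q + P) + xc (Q - P)) * (xc Q - xc P) ^ 2 =
      2 * ((xc P + xc Q) * (a + xc P * xc Q) + 2 * b) := by
  obtain ⟨c, hc⟩ := Pool.Agent.Lib.MP_17a322_nt.RO.A1_exists (EK a b) Q P
  have e1 := hc 1
  have e2 := hc 2
  rw [Pool.Agent.Lib.MP_17a322_nt.RO.A1_eval1, ED_b2, ED_b4, ED_b6] at e1
  rw [Pool.Agent.Lib.MP_17a322_nt.RO.A1_eval2] at e2
  generalize Q + P = S at h1 e1 e2 ⊢
  generalize Q - P = T at h2 e1 e2 ⊢
  rcases P with _ | ⟨x, y, h⟩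
  · exact absurd rfl hP
  rcases Q with _ | ⟨X, Y, h'⟩
  · exact absurd rfl hQ
  rcases S with _ | ⟨Z, W, hS⟩
  · exact absurd rfl h1
  rcases T with _ | ⟨Z', W', hT⟩
  · exact absurd rfl h2
  rw [WeierstrassCurve.Affine.Point.sym2x_some_some,
    WeierstrassCurve.Affine.Point.sym2x_some_some] at e1 e2
  simp at e1 e2
  simp only [xc]
  linear_combination (Z + Z') * e2 - e1

private theorem ED_z2 {F : Type} [Field F] [DecidableEq F] (h2 : (2 : F) ≠ 0) {a b : F} (P : Pt a b)
    (hP : P ≠ 0) (hP2 : 2 • P ≠ 0) : 4 * (xc P ^ 3 + a * xc P + b) ≠ 0 := by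
  rcases P with _ | ⟨x, y, h⟩
  · exact absurd rfl hP
  intro h0
  have h0' : 4 * (x ^ 3 + a * x + b) = 0 := h0
  have hE := (WeierstrassCurve.Affine.equation_iff _ _).1 h.1
  have hE' : y ^ 2 = x ^ 3 + a * x + b := by
    have e1 : (EK a b).a₁ = 0 := rfl
    have e2 : (EK a b).a₂ = 0 := rfl
    have e3 : (EK a b).a₃ = 0 := rfl
    have e4 : (EK a b).a₄ = a := rfl
    have e6 : (EK a b).a₆ = b := rfl
    rw [e1, e2, e3, e4, e6] at hE
    linear_combination hE
  have h4 : (2 * y) ^ 2 = 0 := by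
    rw [← h0', ← hE']
    ring
  have h5 : 2 * y = 0 := pow_eq_zero_iff (two_ne_zero) |>.1 h4
  have hy : y = 0 := (mul_eq_zero.1 h5).resolve_left h2
  apply hP2
  rw [two_nsmul]
  refine WeierstrassCurve.Affine.Point.add_self_of_Y_eq ?_
  unfold WeierstrassCurve.Affine.negY
  have e1 : (EK a b).a₁ = 0 := rfl
  have e3 : (EK a b).a₃ = 0 := rfl
  rw [e1, e3, hy]
  ring

theorem mult_form (n : ℕ) (hn : 1 ≤ n) : ∃ D : ℕ, ∀ (F : Type) [Field F] [DecidableEq F], (2 : F) ≠ 0 → ∀ a b : F,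
    ∃ X Z : Polynomial F, X.natDegree ≤ D ∧ Z.natDegree ≤ D ∧ ∀ P : Pt a b, (∀ j : ℕ, 1 ≤ j → j ≤ n → j • P ≠ 0) →
      Z.eval (xc P) ≠ 0 ∧ xc (n • P) * Z.eval (xc P) = X.eval (xc P) := by
  induction n using Nat.strong_induction_on with
  | _ n ih =>
  rcases Nat.lt_or_ge n 3 with hlt | hge
  · rcases Nat.lt_or_ge n 2 with h1 | h1
    · have hn1 : n = 1 := by omega
      subst hn1
      refine ⟨1, fun F _ _ _ a b => ⟨Polynomial.X, 1, Polynomial.natDegree_X_le, ?_, fun P _ => ?_⟩⟩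
      · rw [Polynomial.natDegree_one]
        omega
      · rw [Polynomial.eval_one, Polynomial.eval_X, one_smul, mul_one]
        exact ⟨one_ne_zero, rfl⟩
    · have hn2 : n = 2 := by omega
      subst hn2
      refine ⟨4, fun F _ _ h2 a b => ⟨Polynomial.X ^ 4 - Polynomial.C (2 * a) * Polynomial.X ^ 2 -
        Polynomial.C (8 * b) * Polynomial.X + Polynomial.C (a ^ 2),
        Polynomial.C 4 * (Polynomial.X ^ 3 + Polynomial.C a * Polynomial.X + Polynomial.C b), ?_, ?_, fun P hP => ?_⟩⟩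
      · compute_degree
      · compute_degree
        norm_num
      · have hP1 : P ≠ 0 := by
          have h3 := hP 1 le_rfl (by norm_num)
          rwa [one_smul] at h3
        have hP2 : 2 • P ≠ 0 := hP 2 (by norm_num) le_rfl
        have h3 := dup_pt P hP1 hP2
        unfold Dup at h3
        simp only [Polynomial.eval_add, Polynomial.eval_sub, Polynomial.eval_mul, Polynomial.eval_pow,
          Polynomial.eval_X, Polynomial.eval_C]
        exact ⟨ED_z2 h2 P hP1 hP2, h3⟩
  · obtain ⟨m, rfl⟩ : ∃ m, n = m + 3 := ⟨n - 3, by omega⟩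
    obtain ⟨D1, H1⟩ := ih (m + 1) (by omega) (by omega)
    obtain ⟨D2, H2⟩ := ih (m + 2) (by omega) (by omega)
    refine ⟨2 * D2 + D1 + 4, fun F _ _ h2 a b => ?_⟩
    obtain ⟨X1, Z1, dX1, dZ1, K1⟩ := H1 F h2 a b
    obtain ⟨X2, Z2, dX2, dZ2, K2⟩ := H2 F h2 a b
    have dA : (Polynomial.X * Z2 - X2).natDegree ≤ D2 + 1 := by
      refine (Polynomial.natDegree_sub_le _ _).trans (max_le ?_ (by omega))
      refine Polynomial.natDegree_mul_le.trans ?_
      have := Polynomial.natDegree_X_le (R := F)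
      omega
    have dA2 : ((Polynomial.X * Z2 - X2) ^ 2).natDegree ≤ 2 * (D2 + 1) :=
      Polynomial.natDegree_pow_le.trans (Nat.mul_le_mul_left 2 dA)
    have dB : (Polynomial.X * Z2 + X2).natDegree ≤ D2 + 1 := by
      refine (Polynomial.natDegree_add_le _ _).trans (max_le ?_ (by omega))
      refine Polynomial.natDegree_mul_le.trans ?_
      have := Polynomial.natDegree_X_le (R := F)
      omega
    have dC : (Polynomial.C a * Z2 + Polynomial.X * X2).natDegree ≤ D2 + 1 := by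
      refine (Polynomial.natDegree_add_le _ _).trans (max_le ?_ ?_)
      · exact (Polynomial.natDegree_C_mul_le _ _).trans (by omega)
      · refine Polynomial.natDegree_mul_le.trans ?_
        have := Polynomial.natDegree_X_le (R := F)
        omega
    have dE : (Polynomial.C (2 * b) * Z2 ^ 2).natDegree ≤ 2 * D2 :=
      (Polynomial.natDegree_C_mul_le _ _).trans (Polynomial.natDegree_pow_le.trans (Nat.mul_le_mul_left 2 dZ2))
    have dG : (Polynomial.C 2 * ((Polynomial.X * Z2 + X2) * (Polynomial.C a * Z2 + Polynomial.X * X2) +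
        Polynomial.C (2 * b) * Z2 ^ 2)).natDegree ≤ 2 * D2 + 2 := by
      refine (Polynomial.natDegree_C_mul_le _ _).trans ((Polynomial.natDegree_add_le _ _).trans (max_le ?_ (by omega)))
      refine Polynomial.natDegree_mul_le.trans ?_
      omega
    refine ⟨Polynomial.C 2 * ((Polynomial.X * Z2 + X2) * (Polynomial.C a * Z2 + Polynomial.X * X2) +
        Polynomial.C (2 * b) * Z2 ^ 2) * Z1 - X1 * (Polynomial.X * Z2 - X2) ^ 2,
      (Polynomial.X * Z2 - X2) ^ 2 * Z1, ?_, ?_, fun P hP => ?_⟩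
    · refine (Polynomial.natDegree_sub_le _ _).trans (max_le ?_ ?_)
      · refine Polynomial.natDegree_mul_le.trans ?_
        omega
      · refine Polynomial.natDegree_mul_le.trans ?_
        omega
    · refine Polynomial.natDegree_mul_le.trans ?_
      omega
    · obtain ⟨z1, k1⟩ := K1 P fun j hj hj' => hP j hj (by omega)
      obtain ⟨z2, k2⟩ := K2 P fun j hj hj' => hP j hj (by omega)
      have hP1 : P ≠ 0 := by
        have h3 := hP 1 le_rfl (by omega)
        rwa [one_smul] at h3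
      have s1 : (m + 2) • P + P = (m + 3) • P := by
        rw [← succ_nsmul]
      have s2 : (m + 2) • P - P = (m + 1) • P := by
        rw [succ_nsmul P (m + 1), add_sub_cancel_right]
      have hadd := ED_add P ((m + 2) • P) hP1 (hP _ (by omega) (by omega)) (by
        rw [s1]
        exact hP _ (by omega) (by omega)) (by
        rw [s2]
        exact hP _ (by omega) (by omega))
      rw [s1, s2] at hadd
      have hne : xc ((m + 2) • P) ≠ xc P := by
        refine ED_ne _ _ (hP _ (by omega) (by omega)) hP1 (fun h3 => ?_) (fun h3 => ?_)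
        · apply hP (m + 1) (by omega) (by omega)
          rw [← s2, h3, sub_self]
        · apply hP (m + 3) (by omega) (by omega)
          rw [← s1, h3, neg_add_cancel]
      generalize xc ((m + 3) • P) = x3 at hadd ⊢
      generalize xc ((m + 2) • P) = x2 at hadd k2 hne
      generalize xc ((m + 1) • P) = x1 at hadd k1
      generalize xc P = x at *
      simp only [Polynomial.eval_add, Polynomial.eval_sub, Polynomial.eval_mul, Polynomial.eval_pow,
          Polynomial.eval_X, Polynomial.eval_C]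
      rw [← k1, ← k2]
      refine ⟨?_, ?_⟩
      · have h3 : x * Z2.eval x - x2 * Z2.eval x = (x - x2) * Z2.eval x := by ring
        rw [h3]
        exact mul_ne_zero (pow_ne_zero _ (mul_ne_zero (sub_ne_zero.2 (Ne.symm hne)) z2)) z1
      · linear_combination (Z2.eval x) ^ 2 * Z1.eval x * hadd

end DP
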