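import Pool.Agent.Lib.MP_17a322_ntDP.EC
import Pool.Agent.Lib.MP_17a322_ntDP.ED
import Pool.Agent.Lib.MP_17a322_ntDP.EM

/-!
# LEAF EE: the number of the torsion points

PROOF.  First `F` algebraically closed.  It is enough to bound, for every `j ≤ m`, the set of the `P` with `j • P = 0` and `i • P ≠ 0` for `1 ≤ i < j` (every `P` with `m • P = 0` is in one of these sets: take the least `j ≥ 1` with `j • P = 0`).  `j = 1`: `P = 0`.  `j = 2`: `P = (x, y)` with `y = - y`, so `y = 0`, `x ^ 3 + a x + b = 0`: at most `3`.  `j ≥ 3`: let `D, X, Z` be from `mult_form (j - 1)`.  `(j - 1) P = - P`, so `xc ((j - 1) • P) = xc P` and `f = X - x Z` vanishes at `xc P`.  `f ≠ 0`: take `P0` from `ord_big j`: `f (xc P0) = (xc ((j - 1) P0) - xc P0) * Z (xc P0) ≠ 0` (equal `x`-coordinates: `(j - 1) P0 = P0` or `= - P0`, so `(j - 2) P0 = 0` or `j P0 = 0`).  So at most `D + 1` values of `x` and at most two `y` for each `x` (`y ^ 2 = x ^ 3 + a x + b`): at most `2 (D + 1)` points.  The union of these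 finite sets has at most `T` elements, `T` independent of the field.
General `F`: `ex_map` for `F → AlgebraicClosure F` is injective: preimage of the finite set (`Finset.preimage`, card `≤` by injectivity).
-/

set_option autoImplicit false

namespace DP

open Finset NumberField LVH VK FB

private theorem EE_pm {F : Type} [Field F] [DecidableEq F] {a b : F} {P Q : Pt a b} (hP : P ≠ 0) (hQ : Q ≠ 0)
    (h : xc P = xc Q) : P = Q ∨ P = -Q := by
  rcases P with _ | ⟨x, y, hp⟩
  · exact absurd rfl hP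
  rcases Q with _ | ⟨x', y', hq⟩
  · exact absurd rfl hQ
  change x = x' at h
  subst h
  rcases WeierstrassCurve.Affine.Y_eq_of_X_eq hp.1 hq.1 rfl with h | h
  · left
    subst h
    rfl
  · right
    rw [WeierstrassCurve.Affine.Point.neg_some]
    subst h
    rfl

/-- the points with a given first coordinate -/
private theorem EE_fib {F : Type} [Field F] [DecidableEq F] {a b : F} (x : F) :
    ∃ Z : Finset (Pt a b), Z.card ≤ 2 ∧ ∀ P : Pt a b, P ≠ 0 → xc P = x → P ∈ Z := by
  classical
  by_cases h : ∃ P0 : Pt a b, P0 ≠ 0 ∧ xc P0 = x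
  · obtain ⟨P0, h0, hx⟩ := h
    refine ⟨{P0, -P0}, Finset.card_le_two, fun P hP hPx => ?_⟩
    rcases EE_pm hP h0 (hPx.trans hx.symm) with h | h
    · rw [h]
      exact Finset.mem_insert_self _ _
    · rw [h]
      exact Finset.mem_insert_of_mem (Finset.mem_singleton_self _)
  · refine ⟨∅, by rw [Finset.card_empty]; omega, fun P hP hPx => absurd ⟨P, hP, hPx⟩ h⟩

/-- the points whose first coordinate is a root of a polynomial -/
private theorem EE_poly {F : Type} [Field F] [DecidableEq F] {a b : F} (f : Polynomial F) (hf : f ≠ 0) {D : ℕ}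
    (hD : f.natDegree ≤ D) :
    ∃ Z : Finset (Pt a b), Z.card ≤ 2 * D ∧ ∀ P : Pt a b, P ≠ 0 → f.eval (xc P) = 0 → P ∈ Z := by
  classical
  choose Z hZ1 hZ2 using fun x : F => EE_fib (a := a) (b := b) x
  refine ⟨f.roots.toFinset.biUnion Z, ?_, fun P hP hPf => ?_⟩
  · refine (Finset.card_biUnion_le_card_mul _ _ 2 fun x _ => hZ1 x).trans ?_
    have h1 : f.roots.toFinset.card ≤ D :=
      (Multiset.toFinset_card_le _).trans ((Polynomial.card_roots' f).trans hD)
    rw [mul_comm]
    exact Nat.mul_le_mul_left 2 h1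
  · rw [Finset.mem_biUnion]
    refine ⟨xc P, ?_, hZ2 (xc P) P hP rfl⟩
    rw [Multiset.mem_toFinset, Polynomial.mem_roots hf]
    exact hPf

private theorem EE_xc_neg {F : Type} [Field F] [DecidableEq F] {a b : F} (P : Pt a b) : xc (-P) = xc P := by
  rcases P with _ | ⟨x, y, hp⟩
  · rfl
  · rw [WeierstrassCurve.Affine.Point.neg_some]
    rfl

/-- the points of exact order `j` over an algebraically closed field -/
private theorem EE_ord (j : ℕ) (hj : 1 ≤ j) : ∃ T : ℕ, ∀ (F : Type) [Field F] [DecidableEq F] [IsAlgClosed F],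
    (2 : F) ≠ 0 → ∀ a b : F, ds a b ≠ 0 → ∃ Z : Finset (Pt a b), Z.card ≤ T ∧ ∀ P : Pt a b, j • P = 0 →
      (∀ i : ℕ, 1 ≤ i → i < j → i • P ≠ 0) → P ∈ Z := by
  rcases Nat.lt_or_ge j 3 with h3 | h3
  · by_cases hj1 : j = 1
    · subst hj1
      refine ⟨1, fun F _ _ _ h2 a b hd => ⟨{0}, by rw [Finset.card_singleton], fun P hP _ => ?_⟩⟩
      rw [one_nsmul] at hP
      rw [hP]
      exact Finset.mem_singleton_self _
    · have hj2 : j = 2 := by omega
      subst hj2
      refine ⟨2 * 3, fun F _ _ _ h2 a b hd => ?_⟩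
      set f : Polynomial F := Polynomial.X ^ 3 + Polynomial.C a * Polynomial.X + Polynomial.C b with hf
      have hdeg : f.natDegree = 3 := by
        rw [hf]
        compute_degree!
      have hf0 : f ≠ 0 := by
        intro h0
        rw [h0, Polynomial.natDegree_zero] at hdeg
        omega
      obtain ⟨Z, hZ1, hZ2⟩ := EE_poly (a := a) (b := b) f hf0 hdeg.le
      refine ⟨Z, hZ1, fun P hP hP1 => ?_⟩
      have hP0 : P ≠ 0 := by
        have h4 := hP1 1 le_rfl (by norm_num)
        rwa [one_nsmul] at h4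
      refine hZ2 P hP0 ?_
      have hneg : P = -P := by
        rw [two_nsmul] at hP
        exact eq_neg_of_add_eq_zero_left hP
      rcases P with _ | ⟨x, y, hp⟩
      · exact absurd rfl hP0
      rw [WeierstrassCurve.Affine.Point.neg_some] at hneg
      injection hneg with _ h5
      have h6 : y = -y := by
        have h7 : (EK a b).toAffine.negY x y = -y := by
          simp [WeierstrassCurve.Affine.negY, EK]
        rw [h7] at h5
        exact h5
      have h8 : y = 0 := by
        have h9 : 2 * y = 0 := by linear_combination h6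
        exact (mul_eq_zero.1 h9).resolve_left h2
      have h10 := (EK_eqn a b x y).1 hp.1
      rw [h8] at h10
      show f.eval x = 0
      rw [hf]
      simp only [Polynomial.eval_add, Polynomial.eval_pow, Polynomial.eval_X, Polynomial.eval_mul, Polynomial.eval_C]
      linear_combination -h10
  · obtain ⟨D, hD⟩ := mult_form (j - 1) (by omega)
    refine ⟨2 * (D + 1), fun F _ _ _ h2 a b hd => ?_⟩
    obtain ⟨A, B, hA, hB, hAB⟩ := hD F h2 a b
    obtain ⟨P0, hP0⟩ := ord_big h2 hd j
    set f : Polynomial F := A - Polynomial.X * B with hf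
    have hdeg : f.natDegree ≤ D + 1 := by
      rw [hf]
      refine (Polynomial.natDegree_sub_le _ _).trans (max_le (by omega) ?_)
      refine Polynomial.natDegree_mul_le.trans ?_
      have h4 : (Polynomial.X : Polynomial F).natDegree ≤ 1 := Polynomial.natDegree_X_le
      omega
    have hev : ∀ P : Pt a b, (∀ i : ℕ, 1 ≤ i → i ≤ j - 1 → i • P ≠ 0) →
        f.eval (xc P) = (xc ((j - 1) • P) - xc P) * B.eval (xc P) ∧ B.eval (xc P) ≠ 0 := by
      intro P hP
      obtain ⟨h4, h5⟩ := hAB P hP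
      refine ⟨?_, h4⟩
      rw [hf, Polynomial.eval_sub, Polynomial.eval_mul, Polynomial.eval_X, ← h5]
      ring
    have hj1 : ∀ P : Pt a b, (j - 1) • P + P = j • P := by
      intro P
      rw [← succ_nsmul]
      congr 1
      omega
    have hj2 : ∀ P : Pt a b, (j - 2) • P + P = (j - 1) • P := by
      intro P
      rw [← succ_nsmul]
      congr 1
      omega
    have hf0 : f ≠ 0 := by
      intro h0
      obtain ⟨h4, h5⟩ := hev P0 (fun i h1 h2 => hP0 i h1 (by omega))
      rw [h0, Polynomial.eval_zero] at h4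
      have h6 : xc ((j - 1) • P0) = xc P0 := by
        rcases mul_eq_zero.1 h4.symm with h | h
        · exact sub_eq_zero.1 h
        · exact absurd h h5
      have h7 : (P0 : Pt a b) ≠ 0 := by
        have h8 := hP0 1 le_rfl (by omega)
        rwa [one_nsmul] at h8
      rcases EE_pm (hP0 (j - 1) (by omega) (by omega)) h7 h6 with h | h
      · apply hP0 (j - 2) (by omega) (by omega)
        have h8 := hj2 P0
        rw [h] at h8
        exact add_eq_right.1 h8
      · apply hP0 j (by omega) le_rfl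
        rw [← hj1 P0, h, neg_add_cancel]
    obtain ⟨Z, hZ1, hZ2⟩ := EE_poly (a := a) (b := b) f hf0 hdeg
    refine ⟨Z, hZ1, fun P hP hPi => ?_⟩
    have hP1 : P ≠ 0 := by
      have h4 := hPi 1 le_rfl (by omega)
      rwa [one_nsmul] at h4
    refine hZ2 P hP1 ?_
    obtain ⟨h4, h5⟩ := hev P (fun i h1 h2 => hPi i h1 (by omega))
    have h6 : (j - 1) • P = -P := by
      have h7 := hj1 P
      rw [hP] at h7
      exact eq_neg_of_add_eq_zero_left h7
    rw [h4, h6, EE_xc_neg, sub_self, zero_mul]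

/-- the torsion points over an algebraically closed field -/
private theorem EE_cl (m : ℕ) : ∃ T : ℕ, ∀ (F : Type) [Field F] [DecidableEq F] [IsAlgClosed F],
    (2 : F) ≠ 0 → ∀ a b : F, ds a b ≠ 0 → ∃ Z : Finset (Pt a b), Z.card ≤ T ∧ ∀ P : Pt a b, ∀ j : ℕ, 1 ≤ j → j ≤ m →
      j • P = 0 → P ∈ Z := by
  classical
  choose T hT using EE_ord
  refine ⟨∑ j ∈ (Finset.Icc 1 m).attach, T j.1 (Finset.mem_Icc.1 j.2).1, fun F _ _ _ h2 a b hd => ?_⟩
  choose Z hZ1 hZ2 using fun (j : ℕ) (hj : 1 ≤ j) => hT j hj F h2 a b hd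
  refine ⟨(Finset.Icc 1 m).attach.biUnion fun j => Z j.1 (Finset.mem_Icc.1 j.2).1, ?_, fun P j hj hjm hjP => ?_⟩
  · exact Finset.card_biUnion_le.trans (Finset.sum_le_sum fun j _ => hZ1 j.1 _)
  · have hex : ∃ i : ℕ, 1 ≤ i ∧ i • P = 0 := ⟨j, hj, hjP⟩
    have h4 := Nat.find_spec hex
    have h5 : Nat.find hex ≤ j := Nat.find_min' hex ⟨hj, hjP⟩
    rw [Finset.mem_biUnion]
    refine ⟨⟨Nat.find hex, Finset.mem_Icc.2 ⟨h4.1, h5.trans hjm⟩⟩, Finset.mem_attach _ _, ?_⟩
    refine hZ2 _ _ P h4.2 fun i h6 h7 h8 => ?_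
    exact Nat.find_min hex h7 ⟨h6, h8⟩

theorem tors_bd (m : ℕ) (hm : 1 ≤ m) : ∃ T : ℕ, ∀ (F : Type) [Field F] [DecidableEq F], (2 : F) ≠ 0 →
    ∀ a b : F, ds a b ≠ 0 → ∃ Z : Finset (Pt a b), Z.card ≤ T ∧ ∀ P : Pt a b, m • P = 0 → P ∈ Z := by
  classical
  obtain ⟨T, hT⟩ := EE_cl m
  refine ⟨T, fun F _ _ h2 a b hd => ?_⟩
  let f : F →+* AlgebraicClosure F := algebraMap F (AlgebraicClosure F)
  obtain ⟨φ, hφ, -⟩ := ex_map f (a := a) (b := b) rfl rfl
  have h2' : (2 : AlgebraicClosure F) ≠ 0 := by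
    have h3 : f 2 = 2 := map_ofNat f 2
    rw [← h3]
    exact (map_ne_zero f).2 h2
  have hd' : ds (f a) (f b) ≠ 0 := by
    have h3 : f (ds a b) = ds (f a) (f b) := by
      unfold ds
      simp only [map_add, map_mul, map_pow, map_ofNat]
    rw [← h3]
    exact (map_ne_zero f).2 hd
  obtain ⟨Z, hZ1, hZ2⟩ := hT (AlgebraicClosure F) h2' (f a) (f b) hd'
  refine ⟨Z.preimage φ hφ.injOn, ?_, fun P hP => ?_⟩
  · refine le_trans ?_ hZ1
    rw [← Finset.card_image_of_injective _ hφ]
    apply Finset.card_le_card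
    intro Q hQ
    obtain ⟨P, hP, rfl⟩ := Finset.mem_image.1 hQ
    exact Finset.mem_preimage.1 hP
  · rw [Finset.mem_preimage]
    refine hZ2 (φ P) m hm le_rfl ?_
    rw [← map_nsmul, hP, map_zero]

end DP
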