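import Mathlib

/-!
# LEAF EF: the fibres of a homomorphism with a large image

PROOF.  If there is no `g ∈ S` with `σ g = z` the left side is `0`.  Otherwise the set is a coset of the kernel `N` of `σ` restricted to `S` (translate by one element): `Nat.card {g // g ∈ S ∧ σ g = z} ≤ Nat.card N`, and `Nat.card S = Nat.card N * Nat.card (range of σ on S)` (`AddSubgroup.card_eq_card_quotient_mul_card_addSubgroup`, `QuotientAddGroup.quotientKerEquivRange`).  The range contains the range of `σ ∘ δ`, and `Nat.card H0 = Nat.card (ker (σ ∘ δ)) * Nat.card (range (σ ∘ δ)) ≤ T * Nat.card (range (σ on S))`.  So `Nat.card N * Nat.card H0 ≤ T * Nat.card S`.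
-/

set_option autoImplicit false

namespace DP

open Finset

theorem fib_bd {G H H0 : Type} [AddCommGroup G] [AddCommGroup H] [AddCommGroup H0] [Finite H0] (S : AddSubgroup G)
    [Finite S] (σ : G →+ H) (δ : H0 →+ G) (hδ : ∀ x, δ x ∈ S) (T : ℕ) (hT : Nat.card {x : H0 // σ (δ x) = 0} ≤ T)
    (z : H) : Nat.card {g : G // g ∈ S ∧ σ g = z} * Nat.card H0 ≤ T * Nat.card S := by
  obtain ⟨ψ, hψ⟩ : ∃ ψ : S →+ H, ψ = σ.comp S.subtype := ⟨_, rfl⟩
  obtain ⟨φ, hφ⟩ : ∃ φ : H0 →+ H, φ = σ.comp δ := ⟨_, rfl⟩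
  have hψa : ∀ g : S, ψ g = σ (g : G) := fun g => by rw [hψ]; rfl
  have hφa : ∀ x : H0, φ x = σ (δ x) := fun x => by rw [hφ]; rfl
  have h1 : Nat.card ψ.ker * Nat.card ψ.range = Nat.card S := by
    rw [← AddSubgroup.index_ker, AddSubgroup.card_mul_index]
  have h2 : Nat.card φ.ker * Nat.card φ.range = Nat.card H0 := by
    rw [← AddSubgroup.index_ker, AddSubgroup.card_mul_index]
  have h3 : Nat.card φ.ker ≤ T := by
    refine le_trans (Nat.card_le_card_of_injective (fun x : φ.ker =>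
      (⟨(x : H0), by rw [← hφa]; exact x.2⟩ : {x : H0 // σ (δ x) = 0})) ?_) hT
    intro x y h
    exact Subtype.ext (congrArg (fun t : {x : H0 // σ (δ x) = 0} => (t : H0)) h)
  have hle : φ.range ≤ ψ.range := by
    rintro _ ⟨x, rfl⟩
    exact ⟨⟨δ x, hδ x⟩, by rw [hψa, hφa]⟩
  have hfin : Finite ψ.range := Set.finite_range ψ
  have h4 : Nat.card φ.range ≤ Nat.card ψ.range := by
    refine Nat.card_le_card_of_injective (fun x : φ.range => (⟨(x : H), hle x.2⟩ : ψ.range)) ?_
    intro x y h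
    exact Subtype.ext (congrArg (fun t : ψ.range => (t : H)) h)
  have h5 : Nat.card {g : G // g ∈ S ∧ σ g = z} ≤ Nat.card ψ.ker := by
    by_cases hex : ∃ g0 : G, g0 ∈ S ∧ σ g0 = z
    · obtain ⟨g0, hg0, hz0⟩ := hex
      refine Nat.card_le_card_of_injective (fun g : {g : G // g ∈ S ∧ σ g = z} =>
        (⟨⟨(g : G) - g0, S.sub_mem g.2.1 hg0⟩, by
          show ψ ⟨(g : G) - g0, _⟩ = 0
          rw [hψa]
          show σ ((g : G) - g0) = 0
          rw [map_sub, g.2.2, hz0, sub_self]⟩ : ψ.ker)) ?_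
      intro x y h
      have h6 := congrArg (fun t : ψ.ker => ((t : S) : G)) h
      have h7 : (x : G) - g0 = (y : G) - g0 := h6
      exact Subtype.ext (sub_left_injective h7)
    · have : IsEmpty {g : G // g ∈ S ∧ σ g = z} := ⟨fun g => hex ⟨g, g.2⟩⟩
      rw [Nat.card_of_isEmpty]
      exact Nat.zero_le _
  rw [← h1, ← h2]
  have h8 : Nat.card φ.ker * Nat.card φ.range ≤ T * Nat.card ψ.range := Nat.mul_le_mul h3 h4
  refine (Nat.mul_le_mul h5 h8).trans (le_of_eq ?_)
  ring

end DP
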