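import Pool.Agent.Lib.MP_17a322_ntDP.Defs

/-!
# LEAF FA: the finite subfields of the algebraic closure of the prime field

PROOF.  `k = GaloisField p m`, `Nat.card k = p ^ m` (`GaloisField.card`), `f = IsAlgClosed.lift` (a `ZMod p`-algebra homomorphism to `Om p`; `k` is algebraic over `ZMod p`).  Every `y` in `k` satisfies `y ^ p ^ m = y` (`FiniteField.pow_card`), so the image of `f` has `p ^ m` elements which are roots of `X ^ (p ^ m) - X`, a polynomial of degree `p ^ m`, and there are no others (`card_roots'`, `Finset.eq_of_subset_of_card_le`).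
-/

set_option autoImplicit false

namespace DP

open Finset NumberField LVH VK FB

theorem gal_im (p : ℕ) [Fact p.Prime] (m : ℕ) (hm : 1 ≤ m) : ∃ (k : Type) (_ : Field k) (_ : Finite k) (f : k →+* Om p),
    Nat.card k = p ^ m ∧ ∀ x : Om p, x ^ p ^ m = x ↔ ∃ y, f y = x := by
  classical
  have hcard : Nat.card (GaloisField p m) = p ^ m := GaloisField.card p m (by omega)
  obtain ⟨f⟩ : Nonempty (GaloisField p m →ₐ[ZMod p] Om p) := ⟨IsAlgClosed.lift⟩
  refine ⟨GaloisField p m, inferInstance, inferInstance, f.toRingHom, hcard, fun x => ⟨fun hx => ?_, ?_⟩⟩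
  · have := Fintype.ofFinite (GaloisField p m)
    have hq : Fintype.card (GaloisField p m) = p ^ m := by rw [← Nat.card_eq_fintype_card, hcard]
    have h1 : 1 < p ^ m := Nat.one_lt_pow (by omega) (Fact.out : p.Prime).one_lt
    have hne : (Polynomial.X ^ (p ^ m) - Polynomial.X : Polynomial (Om p)) ≠ 0 :=
      FiniteField.X_pow_card_sub_X_ne_zero (Om p) h1
    have hdeg : (Polynomial.X ^ (p ^ m) - Polynomial.X : Polynomial (Om p)).natDegree = p ^ m :=
      FiniteField.X_pow_card_sub_X_natDegree_eq (Om p) h1
    have hmem : ∀ z : Om p, z ∈ (Polynomial.X ^ (p ^ m) - Polynomial.X : Polynomial (Om p)).roots.toFinset ↔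
        z ^ p ^ m = z := by
      intro z
      rw [Multiset.mem_toFinset, Polynomial.mem_roots hne, Polynomial.IsRoot.def, Polynomial.eval_sub,
        Polynomial.eval_pow, Polynomial.eval_X, sub_eq_zero]
    have hsub : Finset.univ.image f ⊆ (Polynomial.X ^ (p ^ m) - Polynomial.X : Polynomial (Om p)).roots.toFinset := by
      intro z hz
      obtain ⟨y, -, rfl⟩ := Finset.mem_image.1 hz
      rw [hmem, ← map_pow, ← hq, FiniteField.pow_card]
    have hle : (Polynomial.X ^ (p ^ m) - Polynomial.X : Polynomial (Om p)).roots.toFinset.card ≤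
        (Finset.univ.image f).card := by
      rw [Finset.card_image_of_injective _ (show Function.Injective f from f.toRingHom.injective), Finset.card_univ, hq]
      exact (Multiset.toFinset_card_le _).trans ((Polynomial.card_roots' _).trans hdeg.le)
    have heq := Finset.eq_of_subset_of_card_le hsub hle
    have h2 := (hmem x).2 hx
    rw [← heq] at h2
    obtain ⟨y, -, hy⟩ := Finset.mem_image.1 h2
    exact ⟨y, hy⟩
  · rintro ⟨y, rfl⟩
    have := Fintype.ofFinite (GaloisField p m)
    have hq : Fintype.card (GaloisField p m) = p ^ m := by rw [← Nat.card_eq_fintype_card, hcard]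
    rw [← map_pow, ← hq, FiniteField.pow_card]

end DP
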