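import Pool.Agent.Lib.MP_17a322_ntDP.EM
import Pool.Agent.Lib.MP_17a322_ntDP.FA

/-!
# LEAF EG: the number of the points over a finite field

PROOF.  The iterate `(frO p)^[m]` raises the coordinates to the power `p ^ m`.  So the affine points `(x, y)` with the property have `x ^ p ^ m = x`: at most `p ^ m` values of `x` (roots of `X ^ (p ^ m) - X ≠ 0`, or `gal_im`), and at most two `y` for each `x`; with the point at infinity at most `2 p ^ m + 1 ≤ 3 p ^ m`.  (`Finset` of the points: image of a finset of pairs, or the finite set `{P | ..}.toFinset`.)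
-/

set_option autoImplicit false

namespace DP

open Finset NumberField LVH VK FB

private theorem EG_iter {F : Type} [Field F] (p m : ℕ) (z : Option (F × F)) :
    (frO p)^[m] z = Option.map (fun z => (z.1 ^ p ^ m, z.2 ^ p ^ m)) z := by
  induction m with
  | zero =>
    rw [Function.iterate_zero_apply]
    cases z with
    | none => rfl
    | some z => simp
  | succ m ih =>
    rw [Function.iterate_succ_apply', ih]
    cases z with
    | none => rfl
    | some z =>
      show some ((z.1 ^ p ^ m) ^ p, (z.2 ^ p ^ m) ^ p) = some (z.1 ^ p ^ (m + 1), z.2 ^ p ^ (m + 1))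
      rw [pow_succ, pow_mul, pow_mul]

open Classical in
private theorem EG_fin {F : Type} [Field F] {N : ℕ} (hN : 1 < N) (c : F → F) : ∃ S : Finset (F × F), S.card ≤ 2 * N ∧
    ∀ x y : F, x ^ N = x → y ^ 2 = c x → (x, y) ∈ S := by
  have h1 : (Polynomial.X ^ N - Polynomial.X : Polynomial F) ≠ 0 := by
    intro h
    have h2 := congrArg (fun f => Polynomial.coeff f N) h
    simp only [Polynomial.coeff_sub, Polynomial.coeff_X_pow, if_true, Polynomial.coeff_zero] at h2
    rw [Polynomial.coeff_X, if_neg (by omega), sub_zero] at h2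
    exact one_ne_zero h2
  have h2 : ∀ x : F, (Polynomial.X ^ 2 - Polynomial.C (c x) : Polynomial F) ≠ 0 := fun x =>
    Polynomial.X_pow_sub_C_ne_zero (by norm_num) _
  have h3 : (Polynomial.X ^ N - Polynomial.X : Polynomial F).natDegree ≤ N := by
    refine (Polynomial.natDegree_sub_le _ _).trans ?_
    rw [Polynomial.natDegree_X_pow, Polynomial.natDegree_X]
    exact max_le le_rfl (by omega)
  refine ⟨(Polynomial.X ^ N - Polynomial.X : Polynomial F).roots.toFinset.biUnion fun x =>
    ((Polynomial.X ^ 2 - Polynomial.C (c x) : Polynomial F).roots.toFinset.image fun y => (x, y)), ?_, ?_⟩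
  · have h4 : (Polynomial.X ^ N - Polynomial.X : Polynomial F).roots.toFinset.card ≤ N :=
      (Multiset.toFinset_card_le _).trans ((Polynomial.card_roots' _).trans h3)
    have h5 : ∀ x ∈ (Polynomial.X ^ N - Polynomial.X : Polynomial F).roots.toFinset,
        (((Polynomial.X ^ 2 - Polynomial.C (c x) : Polynomial F).roots.toFinset.image fun y => (x, y))).card ≤ 2 := by
      intro x _
      refine Finset.card_image_le.trans ((Multiset.toFinset_card_le _).trans ((Polynomial.card_roots' _).trans ?_))
      exact (Polynomial.natDegree_X_pow_sub_C).le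
    calc _ ≤ (Polynomial.X ^ N - Polynomial.X : Polynomial F).roots.toFinset.card * 2 :=
          Finset.card_biUnion_le_card_mul _ _ _ h5
      _ ≤ 2 * N := by omega
  · intro x y hx hy
    rw [Finset.mem_biUnion]
    refine ⟨x, ?_, ?_⟩
    · rw [Multiset.mem_toFinset, Polynomial.mem_roots h1]
      simp [Polynomial.IsRoot, hx]
    · rw [Finset.mem_image]
      refine ⟨y, ?_, rfl⟩
      rw [Multiset.mem_toFinset, Polynomial.mem_roots (h2 x)]
      simp [Polynomial.IsRoot, hy]

open Classical in
theorem fix_cnt {p : ℕ} [Fact p.Prime] {m : ℕ} (hm : 1 ≤ m) (a b : Om p) : ∃ T : Finset (Pt a b),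
    T.card ≤ 3 * p ^ m ∧ ∀ P : Pt a b, (frO p)^[m] (opP P) = opP P → P ∈ T := by
  have hp : 1 < p ^ m := Nat.one_lt_pow (by omega) (Fact.out : p.Prime).one_lt
  obtain ⟨S, hS, hmem⟩ := EG_fin hp (fun x : Om p => x ^ 3 + a * x + b)
  have hinj : Function.Injective (opP : Pt a b → Option (Om p × Om p)) := opP_inj
  refine ⟨S.insertNone.preimage opP hinj.injOn, ?_, ?_⟩
  · have h1 : (S.insertNone.preimage opP hinj.injOn).card ≤ S.insertNone.card := by
      refine Finset.card_le_card_of_injOn opP (fun P hP => ?_) hinj.injOn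
      exact Finset.mem_preimage.1 hP
    rw [Finset.card_insertNone] at h1
    omega
  · intro P hP
    rw [Finset.mem_preimage]
    cases P with
    | zero => exact Finset.none_mem_insertNone
    | some x y h =>
      rw [EG_iter] at hP
      have h2 : some (x ^ p ^ m, y ^ p ^ m) = some (x, y) := hP
      have h3 : (x ^ p ^ m, y ^ p ^ m) = (x, y) := Option.some.inj h2
      have h4 : x ^ p ^ m = x := congrArg Prod.fst h3
      have h5 := (EK_eqn a b x y).1 h.1
      exact Finset.some_mem_insertNone.2 (hmem x y h4 h5)

end DP
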