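import Pool.Agent.Lib.MP_17a322_ntDP.EA
import Pool.Agent.Lib.MP_17a322_ntDP.EE
import Pool.Agent.Lib.MP_17a322_ntDP.EF
import Pool.Agent.Lib.MP_17a322_ntDP.EG

/-!
# LEAF EH: the number of the tuples of points with a given sum

PROOF.  `m0 = ∑ j, μ j * b j`, `1 ≤ m0 ≤ k`.  `G = Fin r → Pt (em a) (em b)`, `S` the subgroup of the `P` with `φ^[b j] (P j) = P j` for all `j` (an `AddSubgroup`: the iterate of `φ` is additive, `AddMonoidHom.iterate_map_add`; or `(φ ^ n : AddMonoid.End _)`), `σ P = ∑ j, μ j • ∑ i ∈ range (b j), φ^[i] (P j)` (a homomorphism), `δ : Pt a b →+ G` over `ZMod p`, `δ Q j = ψ Q`, `ψ` from `ex_map (em p)`; `φ (ψ Q) = ψ Q` (`opP_inj`, `frO p (mpO (em p) z) = mpO (em p) z` as `x ^ p = x` in `ZMod p`).  So `δ Q ∈ S` and `σ (δ Q) = m0 • ψ Q = ψ (m0 • Q)`, zero only if `m0 • Q = 0` (`ψ` injective): at most `T` elements (`tors_bd m0`; take the maximum / sum over `1 ≤ m0 ≤ k`).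
`S` is finite with `Nat.card S ≤ ∏ j, 3 * p ^ b j ≤ 3 ^ k * p ^ ∑ b j` (`fix_cnt` for every `j`, `Fintype.piFinset`; `opP (φ^[m] P) = (frO p)^[m] (opP P)`; `r ≤ ∑ μ j b j ≤ k`).  `fib_bd`: `#{P ∈ S, σ P = z} * Nat.card (Pt a b) ≤ T * 3 ^ k * p ^ ∑ b j` and `p ≤ 4 * Nat.card (Pt a b)` (`card_low`): `#.. * p ≤ 4 * T * 3 ^ k * p ^ ∑ b j`.  `p1 = 16` (so `2, ds` are fine: `(2 : Om p) ≠ 0`, `ds (em a) (em b) = em (ds a b) ≠ 0`; `Finite (Pt a b)`: `fin_pt`).  The finset is the set of these `P` (finite).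
-/

set_option autoImplicit false

namespace DP

open Finset NumberField LVH VK FB

private theorem EH_fr (p : ℕ) [Fact p.Prime] (z : Option (ZMod p × ZMod p)) :
    frO p (mpO (em p) z) = mpO (em p) z := by
  rcases z with _ | ⟨x, y⟩
  · rfl
  · change some ((em p x) ^ p, (em p y) ^ p) = some (em p x, em p y)
    rw [← map_pow, ← map_pow, ZMod.pow_card, ZMod.pow_card]

open Classical in
theorem base_E (k : ℕ) : ∃ C p1 : ℕ, ∀ (p : ℕ) [Fact p.Prime], p1 ≤ p → ∀ a b : ZMod p, ds a b ≠ 0 →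
    ∀ φ : Pt (em p a) (em p b) →+ Pt (em p a) (em p b), (∀ P, opP (φ P) = frO p (opP P)) →
    ∀ (r : ℕ) (c μ : Fin r → ℕ), 1 ≤ r → (∀ j, 1 ≤ c j ∧ 1 ≤ μ j) → ∑ j, μ j * c j ≤ k → ∀ z : Pt (em p a) (em p b),
    ∃ T : Finset (Fin r → Pt (em p a) (em p b)), T.card * p ≤ C * p ^ ∑ j, c j ∧
      ∀ P : Fin r → Pt (em p a) (em p b), (∀ j, (⇑φ)^[c j] (P j) = P j) →
        ∑ j, μ j • ∑ i ∈ range (c j), (⇑φ)^[i] (P j) = z → P ∈ T := by
  have h0 : ∀ m : ℕ, ∃ T : ℕ, 1 ≤ m → ∀ (F : Type) [Field F] [DecidableEq F], (2 : F) ≠ 0 →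
      ∀ a b : F, ds a b ≠ 0 → ∃ Z : Finset (Pt a b), Z.card ≤ T ∧ ∀ P : Pt a b, m • P = 0 → P ∈ Z := by
    intro m
    by_cases hm : 1 ≤ m
    · obtain ⟨T, hT⟩ := tors_bd m hm
      exact ⟨T, fun _ => hT⟩
    · exact ⟨0, fun h => absurd h hm⟩
  choose T1 hT1 using h0
  refine ⟨4 * (∑ m ∈ range (k + 1), T1 m) * 3 ^ k, 16, ?_⟩
  intro p _ hp a b hd φ hφ r c μ hr hcμ hk z
  have hp2 : p ≠ 2 := by omega
  have hfinP : Finite (Pt a b) := fin_pt hp2 hd
  obtain ⟨ψ, hψi, hψ⟩ := ex_map (em p) (a := a) (b := b) rfl rfl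
  have hψφ : ∀ Q, φ (ψ Q) = ψ Q := by
    intro Q
    apply opP_inj
    rw [hφ, hψ, EH_fr]
  have hit : ∀ (Q : Pt a b) (n : ℕ), (⇑φ)^[n] (ψ Q) = ψ Q := fun Q n => Function.iterate_fixed (hψφ Q) n
  have hsemi : Function.Semiconj (opP : Pt (em p a) (em p b) → Option (Om p × Om p)) φ (frO p) := hφ
  let S : AddSubgroup (Fin r → Pt (em p a) (em p b)) :=
    { carrier := {P | ∀ j, (⇑φ)^[c j] (P j) = P j}
      zero_mem' := fun j => iterate_map_zero φ (c j)
      add_mem' := by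
        intro P P' hP hP' j
        change (⇑φ)^[c j] (P j + P' j) = P j + P' j
        rw [iterate_map_add, hP j, hP' j]
      neg_mem' := by
        intro P hP j
        change (⇑φ)^[c j] (- P j) = - P j
        rw [iterate_map_neg, hP j] }
  have hSm : ∀ P, P ∈ S ↔ ∀ j, (⇑φ)^[c j] (P j) = P j := fun P => Iff.rfl
  let σ : (Fin r → Pt (em p a) (em p b)) →+ Pt (em p a) (em p b) :=
    { toFun := fun P => ∑ j, μ j • ∑ i ∈ range (c j), (⇑φ)^[i] (P j)
      map_zero' := by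
        refine Finset.sum_eq_zero fun j _ => ?_
        have h1 : ∑ i ∈ range (c j), (⇑φ)^[i] ((0 : Fin r → Pt (em p a) (em p b)) j) = 0 :=
          Finset.sum_eq_zero fun i _ => iterate_map_zero φ i
        rw [h1, smul_zero]
      map_add' := by
        intro P P'
        rw [← Finset.sum_add_distrib]
        refine Finset.sum_congr rfl fun j _ => ?_
        rw [← smul_add, ← Finset.sum_add_distrib]
        congr 1
        refine Finset.sum_congr rfl fun i _ => ?_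
        exact iterate_map_add φ i (P j) (P' j) }
  have hσ : ∀ P, σ P = ∑ j, μ j • ∑ i ∈ range (c j), (⇑φ)^[i] (P j) := fun P => rfl
  let δ : Pt a b →+ (Fin r → Pt (em p a) (em p b)) :=
    { toFun := fun Q _ => ψ Q
      map_zero' := funext fun _ => map_zero ψ
      map_add' := fun Q Q' => funext fun _ => map_add ψ Q Q' }
  have hδ : ∀ Q j, δ Q j = ψ Q := fun Q j => rfl
  have hm0 : ∀ Q, σ (δ Q) = ψ ((∑ j, μ j * c j) • Q) := by
    intro Q
    rw [hσ, map_nsmul, Finset.sum_smul]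
    refine Finset.sum_congr rfl fun j _ => ?_
    rw [Finset.sum_congr rfl fun i _ => (by rw [hδ]; exact hit Q i : (⇑φ)^[i] (δ Q j) = ψ Q), Finset.sum_const,
      Finset.card_range, mul_smul]
  have h1m : 1 ≤ ∑ j, μ j * c j := by
    have h1 : (1 : ℕ) ≤ μ ⟨0, hr⟩ * c ⟨0, hr⟩ := Nat.mul_pos (hcμ _).2 (hcμ _).1
    exact h1.trans (Finset.single_le_sum (f := fun j => μ j * c j) (fun _ _ => Nat.zero_le _) (Finset.mem_univ _))
  have hrk : r ≤ k := by
    have h1 : ∑ _j : Fin r, 1 ≤ ∑ j, μ j * c j :=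
      Finset.sum_le_sum fun j _ => Nat.mul_pos (hcμ j).2 (hcμ j).1
    rw [Finset.sum_const, Finset.card_univ, Fintype.card_fin, smul_eq_mul, mul_one] at h1
    exact h1.trans hk
  have hT : Nat.card {x : Pt a b // σ (δ x) = 0} ≤ ∑ m ∈ range (k + 1), T1 m := by
    obtain ⟨Z, hZ1, hZ2⟩ := hT1 (∑ j, μ j * c j) h1m (ZMod p) (two_ne hp2) a b hd
    have h1 : Nat.card {x : Pt a b // σ (δ x) = 0} ≤ Nat.card Z := by
      refine Nat.card_le_card_of_injective (fun x => (⟨x.1, hZ2 x.1 ?_⟩ : Z)) ?_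
      · have h2 := x.2
        rw [hm0] at h2
        exact hψi (h2.trans (map_zero ψ).symm)
      · intro x y h
        exact Subtype.ext (congrArg (fun t : Z => t.1) h)
    have h2 : Nat.card Z = Z.card := by rw [Nat.card_eq_fintype_card, Fintype.card_coe]
    rw [h2] at h1
    refine h1.trans (hZ1.trans ?_)
    exact Finset.single_le_sum (f := T1) (fun _ _ => Nat.zero_le _) (Finset.mem_range.2 (by omega))
  -- the number of the elements of `S`
  choose TT hTT1 hTT2 using fun j => fix_cnt (p := p) (m := c j) (hcμ j).1 (em p a) (em p b)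
  have hSsub : ∀ P ∈ S, P ∈ Fintype.piFinset TT := by
    intro P hP
    rw [Fintype.mem_piFinset]
    intro j
    apply hTT2
    rw [← (hsemi.iterate_right (c j)).eq (P j), (hSm P).1 hP j]
  have hSfin : (S : Set (Fin r → Pt (em p a) (em p b))).Finite :=
    (Fintype.piFinset TT).finite_toSet.subset hSsub
  have hSF : Finite S := hSfin
  have hScard : Nat.card S ≤ 3 ^ k * p ^ ∑ j, c j := by
    have h1 : Nat.card S ≤ (Fintype.piFinset TT).card := by
      have h2 : Nat.card (Fintype.piFinset TT) = (Fintype.piFinset TT).card := by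
        rw [Nat.card_eq_fintype_card, Fintype.card_coe]
      rw [← h2]
      refine Nat.card_le_card_of_injective (fun s : S => (⟨s.1, hSsub s.1 s.2⟩ : (Fintype.piFinset TT))) ?_
      intro x y h
      exact Subtype.ext (congrArg (fun t : (Fintype.piFinset TT) => t.1) h)
    rw [Fintype.card_piFinset] at h1
    have h2 : ∏ j, (TT j).card ≤ ∏ j, (3 * p ^ c j) := Finset.prod_le_prod' fun j _ => hTT1 j
    rw [Finset.prod_mul_distrib, Finset.prod_const, Finset.card_univ, Fintype.card_fin, Finset.prod_pow_eq_pow_sum] at h2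
    exact (h1.trans h2).trans (Nat.mul_le_mul_right _ (Nat.pow_le_pow_right (by norm_num) hrk))
  have hfb := fib_bd S σ δ (fun x j => hit x (c j)) (∑ m ∈ range (k + 1), T1 m) hT z
  have hlow := card_low hp hd
  have hfin : {g : Fin r → Pt (em p a) (em p b) | g ∈ S ∧ σ g = z}.Finite := hSfin.subset fun g hg => hg.1
  refine ⟨hfin.toFinset, ?_, ?_⟩
  · have h1 : hfin.toFinset.card = Nat.card {g : Fin r → Pt (em p a) (em p b) // g ∈ S ∧ σ g = z} :=
      (Nat.card_eq_card_finite_toFinset hfin).symm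
    rw [h1]
    calc Nat.card {g : Fin r → Pt (em p a) (em p b) // g ∈ S ∧ σ g = z} * p
        ≤ Nat.card {g : Fin r → Pt (em p a) (em p b) // g ∈ S ∧ σ g = z} * (4 * Nat.card (Pt a b)) :=
          Nat.mul_le_mul_left _ hlow
      _ = 4 * (Nat.card {g : Fin r → Pt (em p a) (em p b) // g ∈ S ∧ σ g = z} * Nat.card (Pt a b)) := by ring
      _ ≤ 4 * ((∑ m ∈ range (k + 1), T1 m) * Nat.card S) := Nat.mul_le_mul_left _ hfb
      _ ≤ 4 * ((∑ m ∈ range (k + 1), T1 m) * (3 ^ k * p ^ ∑ j, c j)) :=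
          Nat.mul_le_mul_left _ (Nat.mul_le_mul_left _ hScard)
      _ = 4 * (∑ m ∈ range (k + 1), T1 m) * 3 ^ k * p ^ ∑ j, c j := by ring
  · intro P hP1 hP2
    rw [Set.Finite.mem_toFinset]
    exact ⟨hP1, hP2⟩

end DP
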