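import Pool.Agent.Lib.MP_17a322_ntDP.Defs
import Pool.Agent.Lib.MP_17a322_ntDP.EF

/-!
# LEAF EI: the number of the tuples of elements of the multiplicative group with a given product

PROOF.  As `base_E` with `Additive (Om p)ˣ`: `G = Fin r → Additive (Om p)ˣ`, `S` the `t` with `t j ^ p ^ c j = t j`, `σ t = ∏ j, (∏ i ∈ range (c j), t j ^ p ^ i) ^ μ j`, `δ : (ZMod p)ˣ → G` the constant tuples (`x ^ p = x` in `ZMod p`), `σ (δ x) = x ^ m0`, `m0 = ∑ μ j * c j`, `1 ≤ m0 ≤ k`: equal to `1` for at most `m0 ≤ k` elements `x` (roots of `X ^ m0 - 1`).  `Nat.card S ≤ ∏ j, p ^ c j` (each `t j` is a root of `X ^ (p ^ c j) - X`).  `Nat.card (ZMod p)ˣ = p - 1 ≥ p / 2`.  `fib_bd`: `#.. * (p - 1) ≤ k * p ^ ∑ c j`, `C = 2 * k`.  If `u = 0` the set is empty.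
-/

set_option autoImplicit false

namespace DP

open Finset NumberField LVH VK FB

open Classical in
theorem base_T (k : ℕ) : ∃ C p1 : ℕ, ∀ (p : ℕ) [Fact p.Prime], p1 ≤ p → ∀ (r : ℕ) (c μ : Fin r → ℕ), 1 ≤ r →
    (∀ j, 1 ≤ c j ∧ 1 ≤ μ j) → ∑ j, μ j * c j ≤ k → ∀ u : Om p,
    ∃ T : Finset (Fin r → Om p), T.card * p ≤ C * p ^ ∑ j, c j ∧
      ∀ t : Fin r → Om p, (∀ j, t j ≠ 0 ∧ t j ^ p ^ c j = t j) →
        ∏ j, (∏ i ∈ range (c j), t j ^ p ^ i) ^ μ j = u → t ∈ T := by
  refine ⟨2 * k, 0, ?_⟩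
  intro p hpf _ r c μ hr hcμ hk u
  have hp1 : 1 < p := hpf.out.one_lt
  by_cases hu : u = 0
  · refine ⟨∅, ?_, ?_⟩
    · rw [Finset.card_empty, zero_mul]
      exact Nat.zero_le _
    · intro t ht h1
      exfalso
      rw [hu] at h1
      refine Finset.prod_ne_zero_iff.2 (fun j _ => ?_) h1
      refine pow_ne_zero _ (Finset.prod_ne_zero_iff.2 fun i _ => pow_ne_zero _ (ht j).1)
  let S' : Subgroup (Fin r → (Om p)ˣ) :=
    { carrier := {t | ∀ j, t j ^ p ^ c j = t j}
      one_mem' := fun j => one_pow _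
      mul_mem' := by
        intro t t' ht ht' j
        change (t j * t' j) ^ p ^ c j = t j * t' j
        rw [mul_pow, ht j, ht' j]
      inv_mem' := by
        intro t ht j
        change (t j)⁻¹ ^ p ^ c j = (t j)⁻¹
        rw [inv_pow, ht j] }
  let f : (Fin r → (Om p)ˣ) →* (Om p)ˣ :=
    { toFun := fun t => ∏ j, (∏ i ∈ range (c j), t j ^ p ^ i) ^ μ j
      map_one' := by
        refine Finset.prod_eq_one fun j _ => ?_
        have h1 : ∏ i ∈ range (c j), (1 : Fin r → (Om p)ˣ) j ^ p ^ i = 1 :=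
          Finset.prod_eq_one fun i _ => one_pow _
        rw [h1, one_pow]
      map_mul' := by
        intro t t'
        rw [← Finset.prod_mul_distrib]
        refine Finset.prod_congr rfl fun j _ => ?_
        rw [← mul_pow, ← Finset.prod_mul_distrib]
        congr 1
        exact Finset.prod_congr rfl fun i _ => mul_pow (t j) (t' j) (p ^ i) }
  have hf : ∀ t, f t = ∏ j, (∏ i ∈ range (c j), t j ^ p ^ i) ^ μ j := fun t => rfl
  let g : (ZMod p)ˣ →* (Fin r → (Om p)ˣ) :=
    { toFun := fun x _ => Units.map (em p : ZMod p →* Om p) x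
      map_one' := funext fun _ => map_one _
      map_mul' := fun x x' => funext fun _ => map_mul _ x x' }
  have hy : ∀ (x : (ZMod p)ˣ) (i : ℕ), (Units.map (em p : ZMod p →* Om p) x) ^ p ^ i =
      Units.map (em p : ZMod p →* Om p) x := by
    intro x i
    have h1 : x ^ p = x := by
      apply Units.ext
      rw [Units.val_pow_eq_pow_val, ZMod.pow_card]
    induction i with
    | zero => rw [pow_zero, pow_one]
    | succ i ih => rw [pow_succ, pow_mul, ih, ← map_pow, h1]
  have hgS : ∀ x, g x ∈ S' := fun x j => hy x (c j)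
  have hfg : ∀ x, f (g x) = Units.map (em p : ZMod p →* Om p) (x ^ ∑ j, μ j * c j) := by
    intro x
    rw [hf, map_pow, ← Finset.prod_pow_eq_pow_sum]
    refine Finset.prod_congr rfl fun j _ => ?_
    have h1 : ∏ i ∈ range (c j), g x j ^ p ^ i = (Units.map (em p : ZMod p →* Om p) x) ^ c j := by
      have h2 : ∀ i ∈ range (c j), g x j ^ p ^ i = Units.map (em p : ZMod p →* Om p) x := fun i _ => hy x i
      rw [Finset.prod_congr rfl h2, Finset.prod_const, Finset.card_range]
    rw [h1, ← pow_mul, mul_comm]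
  have hmapi : Function.Injective (Units.map (em p : ZMod p →* Om p)) :=
    Units.map_injective (em p).injective
  have h1m : 1 ≤ ∑ j, μ j * c j := by
    have h1 : (1 : ℕ) ≤ μ ⟨0, hr⟩ * c ⟨0, hr⟩ := Nat.mul_pos (hcμ _).2 (hcμ _).1
    exact h1.trans (Finset.single_le_sum (f := fun j => μ j * c j) (fun _ _ => Nat.zero_le _) (Finset.mem_univ _))
  have hT : Nat.card {x : Additive (ZMod p)ˣ // MonoidHom.toAdditive f (MonoidHom.toAdditive g x) = 0} ≤ k := by
    have : NeZero (∑ j, μ j * c j) := ⟨by omega⟩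
    refine le_trans ?_ ((card_rootsOfUnity (ZMod p) (∑ j, μ j * c j)).trans hk)
    refine Nat.card_le_card_of_injective
      (fun x => (⟨x.1.toMul, ?_⟩ : rootsOfUnity (∑ j, μ j * c j) (ZMod p))) ?_
    · rw [mem_rootsOfUnity]
      apply hmapi
      rw [← hfg, map_one]
      exact x.2
    · intro x y h
      exact Subtype.ext (congrArg (fun t : rootsOfUnity (∑ j, μ j * c j) (ZMod p) => t.1) h)
  -- the number of the elements of `S`
  have hR : ∀ j, (Polynomial.X ^ p ^ c j - Polynomial.X : Polynomial (Om p)) ≠ 0 := fun j =>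
    FiniteField.X_pow_card_pow_sub_X_ne_zero (Om p) (by have := (hcμ j).1; omega) hp1
  let R : Fin r → Finset (Om p) := fun j =>
    (Polynomial.X ^ p ^ c j - Polynomial.X : Polynomial (Om p)).roots.toFinset
  have hRc : ∀ j, (R j).card ≤ p ^ c j := by
    intro j
    refine (Multiset.toFinset_card_le _).trans ((Polynomial.card_roots' _).trans (le_of_eq ?_))
    exact FiniteField.X_pow_card_pow_sub_X_natDegree_eq (Om p) (by have := (hcμ j).1; omega) hp1
  have hRm : ∀ j (x : Om p), x ^ p ^ c j = x → x ∈ R j := by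
    intro j x hx
    rw [Multiset.mem_toFinset, Polynomial.mem_roots (hR j), Polynomial.IsRoot, Polynomial.eval_sub,
      Polynomial.eval_pow, Polynomial.eval_X, hx, sub_self]
  have hinj : Function.Injective (fun (t : S') => (⟨fun j => ((t.1 j : (Om p)ˣ) : Om p), by
      rw [Fintype.mem_piFinset]
      intro j
      apply hRm
      rw [← Units.val_pow_eq_pow_val, t.2 j]⟩ : Fintype.piFinset R)) := by
    intro t t' h
    apply Subtype.ext
    funext j
    apply Units.ext
    exact congrFun (congrArg (fun s : Fintype.piFinset R => s.1) h) j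
  have hSF' : Finite S' := Finite.of_injective _ hinj
  have hSF : Finite (Subgroup.toAddSubgroup S') := hSF'
  have hScard : Nat.card (Subgroup.toAddSubgroup S') ≤ p ^ ∑ j, c j := by
    have h1 : Nat.card S' ≤ Nat.card (Fintype.piFinset R) := Nat.card_le_card_of_injective _ hinj
    rw [Nat.card_eq_fintype_card (α := Fintype.piFinset R), Fintype.card_coe, Fintype.card_piFinset] at h1
    have h2 : ∏ j, (R j).card ≤ ∏ j, p ^ c j := Finset.prod_le_prod' fun j _ => hRc j
    rw [Finset.prod_pow_eq_pow_sum] at h2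
    exact h1.trans h2
  have hfb := fib_bd (Subgroup.toAddSubgroup S') (MonoidHom.toAdditive f) (MonoidHom.toAdditive g)
    (fun x => hgS x.toMul) k hT (Additive.ofMul (Units.mk0 u hu))
  have hH0 : Nat.card (Additive (ZMod p)ˣ) = p - 1 := by
    rw [Nat.card_congr (Additive.toMul : Additive (ZMod p)ˣ ≃ (ZMod p)ˣ), Nat.card_eq_fintype_card,
      ZMod.card_units]
  rw [hH0] at hfb
  have hfin : {t : Additive (Fin r → (Om p)ˣ) | t ∈ Subgroup.toAddSubgroup S' ∧
      MonoidHom.toAdditive f t = Additive.ofMul (Units.mk0 u hu)}.Finite := by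
    have h1 : ((Subgroup.toAddSubgroup S' : AddSubgroup (Additive (Fin r → (Om p)ˣ))) :
      Set (Additive (Fin r → (Om p)ˣ))).Finite := hSF
    exact h1.subset fun t ht => ht.1
  refine ⟨hfin.toFinset.image fun t j => ((t.toMul j : (Om p)ˣ) : Om p), ?_, ?_⟩
  · have h1 : hfin.toFinset.card = Nat.card {t : Additive (Fin r → (Om p)ˣ) // t ∈ Subgroup.toAddSubgroup S' ∧
        MonoidHom.toAdditive f t = Additive.ofMul (Units.mk0 u hu)} :=
      (Nat.card_eq_card_finite_toFinset hfin).symm
    rw [← h1] at hfb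
    have h2 : (hfin.toFinset.image fun t j => ((t.toMul j : (Om p)ˣ) : Om p)).card ≤ hfin.toFinset.card :=
      Finset.card_image_le
    calc (hfin.toFinset.image fun t j => ((t.toMul j : (Om p)ˣ) : Om p)).card * p
        ≤ hfin.toFinset.card * (2 * (p - 1)) := Nat.mul_le_mul h2 (by omega)
      _ = 2 * (hfin.toFinset.card * (p - 1)) := by ring
      _ ≤ 2 * (k * Nat.card (Subgroup.toAddSubgroup S')) := Nat.mul_le_mul_left _ hfb
      _ ≤ 2 * (k * p ^ ∑ j, c j) := Nat.mul_le_mul_left _ (Nat.mul_le_mul_left _ hScard)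
      _ = 2 * k * p ^ ∑ j, c j := by ring
  · intro t ht hpr
    rw [Finset.mem_image]
    refine ⟨Additive.ofMul fun j => Units.mk0 (t j) (ht j).1, ?_, funext fun j => rfl⟩
    rw [Set.Finite.mem_toFinset]
    refine ⟨fun j => ?_, ?_⟩
    · apply Units.ext
      rw [Units.val_pow_eq_pow_val]
      exact (ht j).2
    · have h1 : f (fun j => Units.mk0 (t j) (ht j).1) = Units.mk0 u hu := by
        apply Units.ext
        rw [hf, Units.val_mk0, ← hpr]
        have h2 : ∀ x : (Om p)ˣ, (x : Om p) = Units.coeHom (Om p) x := fun x => rfl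
        rw [h2, map_prod]
        refine Finset.prod_congr rfl fun j _ => ?_
        rw [map_pow, map_prod]
        congr 1
      exact h1

end DP
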