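import Pool.Agent.Lib.MP_17a322_ntDP.FA
import Pool.Agent.Lib.MP_17a322_ntDP.EM
import Pool.Agent.Lib.MP_17a322_ntVY.UJ
import Pool.Agent.Lib.MP_17a322_ntVY.VG

/-!
# LEAF FB_: the number of the points of a fibre over a finite field

PROOF.  `C0, N0` from `cnt_fib K A' B' E' b r (fib_of hF)`.  `k, f` from `gal_im p m`, `Q = p ^ m = Nat.card k`.  `ψ : 𝓞 K →+* k` is `φ` followed by the homomorphism `ZMod p → k` (`k` has characteristic `p` as it embeds into `Om p`; `ZMod.castHom` or `ZMod.lift`; `f (ψ a) = em p (φ a)` by uniqueness of the homomorphism `ZMod p → Om p`, `Subsingleton` / `ZMod.ringHom_ext`).  `(N0 : k) ≠ 0` as `p ∤ N0`.  The coordinates of `t`, `P`, `y` are in the image of `f` (`(frO p)^[m]` raises the coordinates to the power `p ^ m`): `t = f ∘ t0`, `P l = mpO f (P0 l)`, `y = f ∘ y0`; `IsPt (ψ (A' l)) (ψ (B' l)) (P0 l)` (`f` injective), `sM E' (em ∘ φ ∘ b) t P y i = f (sM E' (ψ ∘ b) t0 P0 y0 i)` (`map_sum`, `map_mul`, `map_zpow₀`;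 cases on `P0` for `bas`).  So all `y` are images of the `y0` in `Z = {u | ∀ i, sM E' (ψ ∘ b) t0 P0 u i = 0}`, normalised; `Nat.card Z ≤ C0 * Q ^ r` (`v = 0`).  `Z` is stable under scalars (`sM` is homogeneous of degree `δ i` in `u`: `VU.sM_smul`, `MP_17a322_ntVU/G4.lean`, or `MWS.mo (l • u) γ = l ^ δ * mo u γ`), the map `(l, y0) ↦ l • y0` from `kˣ × {y0 ∈ Z, Nrm y0}` to `Z` is injective (as in `card_nrm`, `MP_17a322_ntVY/VB.lean`), so `(Q - 1) * #{normalised} ≤ C0 * Q ^ r` and `Q ≤ 2 (Q - 1)`: `C = 2 * C0`.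
-/

set_option autoImplicit false

namespace DP

open Finset NumberField LVH VK FB

private theorem FB_fro {F : Type} [Field F] (p m : ℕ) (z : Option (F × F)) :
    (frO p)^[m] z = Option.map (fun z => (z.1 ^ p ^ m, z.2 ^ p ^ m)) z := by
  induction m with
  | zero =>
    cases z with
    | none => rfl
    | some z =>
      change some z = some (z.1 ^ p ^ 0, z.2 ^ p ^ 0)
      rw [pow_zero, pow_one, pow_one]
  | succ m ih =>
    rw [Function.iterate_succ_apply', ih]
    cases z with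
    | none => rfl
    | some z =>
      change some ((z.1 ^ p ^ m) ^ p, (z.2 ^ p ^ m) ^ p) = some (z.1 ^ p ^ (m + 1), z.2 ^ p ^ (m + 1))
      rw [← pow_mul, ← pow_mul, ← pow_succ]

private theorem FB_bas {F F' : Type} [Field F] [Field F'] (f : F →+* F') (d : ℕ) (z : Option (F × F))
    (i : RamCov.Ix d) : RamCov.bas F' d (mpO f z) i = f (RamCov.bas F d z i) := by
  cases z with
  | none =>
    cases i with
    | inl i =>
      change (if i = Fin.last d then (1 : F') else 0) = f (if i = Fin.last d then (1 : F) else 0)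
      by_cases h : i = Fin.last d
      · rw [if_pos h, if_pos h, map_one]
      · rw [if_neg h, if_neg h, map_zero]
    | inr i => exact (map_zero f).symm
  | some z =>
    cases i with
    | inl i => exact (map_pow f _ _).symm
    | inr i =>
      change f z.1 ^ (i : ℕ) * f z.2 = f (z.1 ^ (i : ℕ) * z.2)
      rw [map_mul, map_pow]

private theorem FB_sM {F F' : Type} [Field F] [Field F'] (f : F →+* F') {n m g s : ℕ} {ι : Type} [Fintype ι]
    {ν : Fin s → ℕ} {d : Fin s → Fin g → ℕ} (E : Fin s → ι → Fin n → ℤ) (a : IxM ι m ν d → F) (x : Fin n → F)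
    (P : Fin g → Option (F × F)) (u : Fin (m + 1) → F) (j : Fin s) :
    sM E (fun t => f (a t)) (fun l => f (x l)) (fun l => mpO f (P l)) (fun i => f (u i)) j = f (sM E a x P u j) := by
  unfold sM
  rw [map_sum]
  refine Finset.sum_congr rfl fun t _ => ?_
  have h1 : MWS.mo (fun i => f (u i)) t.1 = f (MWS.mo u t.1) := by
    unfold MWS.mo
    rw [map_prod]
    exact Finset.prod_congr rfl fun i _ => (map_pow f _ _).symm
  have h2 : bT (E j) (fun l => f (x l)) (fun l => mpO f (P l)) t.2 = f (bT (E j) x P t.2) := by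
    unfold bT
    rw [map_mul, map_prod, map_prod]
    have h3 : (∏ l, f (x l) ^ E j t.2.1 l) = ∏ l, f (x l ^ E j t.2.1 l) :=
      Finset.prod_congr rfl fun l _ => (map_zpow₀ f _ _).symm
    have h4 : (∏ l, RamCov.bas F' (d j l) (mpO f (P l)) (t.2.2 l)) = ∏ l, f (RamCov.bas F (d j l) (P l) (t.2.2 l)) :=
      Finset.prod_congr rfl fun l _ => FB_bas f _ _ _
    rw [h3, h4]
  rw [h1, h2, map_mul, map_mul]

private theorem FB_sc {F : Type} [Field F] {n m g s : ℕ} {ι : Type} [Fintype ι]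
    {ν : Fin s → ℕ} {d : Fin s → Fin g → ℕ} (E : Fin s → ι → Fin n → ℤ) (a : IxM ι m ν d → F) (x : Fin n → F)
    (P : Fin g → Option (F × F)) (u : Fin (m + 1) → F) (l : F) (j : Fin s) :
    sM E a x P (l • u) j = l ^ ν j * sM E a x P u j := by
  unfold sM
  rw [Finset.mul_sum]
  refine Finset.sum_congr rfl fun t _ => ?_
  have h1 : MWS.mo (l • u) t.1 = l ^ ν j * MWS.mo u t.1 := by
    unfold MWS.mo
    simp only [Pi.smul_apply, smul_eq_mul, mul_pow]
    rw [Finset.prod_mul_distrib, Finset.prod_pow_eq_pow_sum, t.1.2]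
  rw [h1]
  ring

private theorem FB_one {F : Type} [Field F] {q : ℕ} {x : Fin q → F} {l : F} (hx : Nrm x)
    (hl : Nrm (l • x)) : l = 1 := by
  obtain ⟨i, h1, h2⟩ := hx
  obtain ⟨j, h3, h4⟩ := hl
  rw [Pi.smul_apply, smul_eq_mul] at h3
  rcases lt_trichotomy i j with h | h | h
  · have h5 := h4 i h
    rw [Pi.smul_apply, smul_eq_mul, h1, mul_one] at h5
    rw [h5, zero_mul] at h3
    exact absurd h3 zero_ne_one
  · rw [← h, h1, mul_one] at h3
    exact h3
  · rw [h2 j h, mul_zero] at h3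
    exact absurd h3 zero_ne_one

private theorem FB_card {F : Type} [Field F] [Finite F] {q C r : ℕ} (S : Set (Fin q → F))
    (hS : ∀ x ∈ S, ∀ l : F, l • x ∈ S) (h : Nat.card S ≤ C * Nat.card F ^ r) :
    Nat.card {x : Fin q → F // x ∈ S ∧ Nrm x} * Nat.card F ≤ 2 * C * Nat.card F ^ r := by
  let Φ : Fˣ × {x : Fin q → F // x ∈ S ∧ Nrm x} → S :=
    fun a => ⟨(a.1 : F) • a.2.1, hS _ a.2.2.1 _⟩
  have hΦ : Function.Injective Φ := by
    rintro ⟨u, x⟩ ⟨v, y⟩ hxy
    have h1 : (u : F) • x.1 = (v : F) • y.1 := congrArg Subtype.val hxy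
    have h2 : y.1 = (((v⁻¹ : Fˣ) : F) * u) • x.1 := by
      rw [mul_smul, h1, smul_smul, Units.inv_mul, one_smul]
    have h3 : (((v⁻¹ : Fˣ) : F) * u) = 1 := by
      refine FB_one x.2.2 ?_
      rw [← h2]
      exact y.2.2
    have h4 : x = y := by
      apply Subtype.ext
      rw [h2, h3, one_smul]
    have h5 : u = v := by
      have h6 : v⁻¹ * u = 1 := Units.ext (by rw [Units.val_mul, h3, Units.val_one])
      exact (inv_mul_eq_one.1 h6).symm
    rw [h4, h5]
  have h1 := Nat.card_le_card_of_injective Φ hΦ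
  rw [Nat.card_prod, Nat.card_units] at h1
  obtain ⟨c, hc⟩ : ∃ c : ℕ, c = Nat.card {x : Fin q → F // x ∈ S ∧ Nrm x} := ⟨_, rfl⟩
  rw [← hc] at h1 ⊢
  have hF : 2 ≤ Nat.card F := Finite.one_lt_card
  have h3 : Nat.card F ≤ 2 * (Nat.card F - 1) := by omega
  calc c * Nat.card F ≤ c * (2 * (Nat.card F - 1)) := Nat.mul_le_mul_left _ h3
    _ = 2 * ((Nat.card F - 1) * c) := by ring
    _ ≤ 2 * (C * Nat.card F ^ r) := Nat.mul_le_mul_left _ (h1.trans h)
    _ = 2 * C * Nat.card F ^ r := by ring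

open Classical in
theorem fib_cnt (K : Type) [Field K] [NumberField K] {n h M w r : ℕ} {κ : Type} [Fintype κ] {δ : Fin w → ℕ}
    {d' : Fin w → Fin h → ℕ} (A' B' : Fin h → 𝓞 K) (E' : Fin w → κ → Fin n → ℤ) (b : IxM κ M δ d' → 𝓞 K)
    (hF : FibP A' B' E' b r) : ∃ C N0 : ℕ, N0 ≠ 0 ∧ ∀ (p : ℕ) [Fact p.Prime], ¬ p ∣ N0 → ∀ (φ : 𝓞 K →+* ZMod p) (m : ℕ),
      1 ≤ m → ∀ (t : Fin n → Om p) (P : Fin h → Option (Om p × Om p)), (∀ l, t l ≠ 0 ∧ t l ^ p ^ m = t l) →
      (∀ l, IsPt (em p (φ (A' l))) (em p (φ (B' l))) (P l) ∧ (frO p)^[m] (P l) = P l) →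
      ∃ T : Finset (Fin (M + 1) → Om p), T.card * p ^ m ≤ C * (p ^ m) ^ r ∧
        ∀ y : Fin (M + 1) → Om p, Nrm y → (∀ l, y l ^ p ^ m = y l) →
          (∀ i, sM E' (fun x => em p (φ (b x))) t P y i = 0) → y ∈ T := by
  obtain ⟨C0, N0, hN0, hc⟩ := cnt_fib K A' B' E' b r (fib_of hF)
  refine ⟨2 * C0, N0, hN0, ?_⟩
  intro p _ hp φ m hm t P ht hP
  obtain ⟨k, _, _, f, hk, him⟩ := gal_im p m hm
  have : CharP k p := RingHom.charP f f.injective p
  let ψ : 𝓞 K →+* k := (ZMod.castHom (dvd_refl p) k).comp φ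
  have hψ : ∀ a, f (ψ a) = em p (φ a) := by
    intro a
    have h1 : f.comp (ZMod.castHom (dvd_refl p) k) = em p := Subsingleton.elim _ _
    rw [← h1]
    rfl
  have hNk : (N0 : k) ≠ 0 := by
    intro h
    exact hp ((CharP.cast_eq_zero_iff k p N0).1 h)
  choose t0 ht0 using fun l => (him (t l)).1 (ht l).2
  have hP0 : ∀ l, ∃ z : Option (k × k), mpO f z = P l := by
    intro l
    have h1 := (hP l).2
    rw [FB_fro] at h1
    cases h2 : P l with
    | none => exact ⟨none, rfl⟩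
    | some z =>
      rw [h2] at h1
      have h3 : (z.1 ^ p ^ m, z.2 ^ p ^ m) = z := Option.some.inj h1
      obtain ⟨a, ha⟩ := (him z.1).1 (congrArg Prod.fst h3)
      obtain ⟨c, hc⟩ := (him z.2).1 (congrArg Prod.snd h3)
      refine ⟨some (a, c), ?_⟩
      change some (f a, f c) = some z
      rw [ha, hc]
  choose P0 hP1 using hP0
  have hpt : ∀ l, IsPt (ψ (A' l)) (ψ (B' l)) (P0 l) := by
    intro l
    have h1 := (hP l).1
    rw [← hP1 l] at h1
    cases h2 : P0 l with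
    | none => trivial
    | some z =>
      rw [h2] at h1
      change z.2 ^ 2 = z.1 ^ 3 + ψ (A' l) * z.1 + ψ (B' l)
      apply f.injective
      have h3 : f z.2 ^ 2 = f z.1 ^ 3 + em p (φ (A' l)) * f z.1 + em p (φ (B' l)) := h1
      rw [map_pow, map_add, map_add, map_mul, map_pow, hψ, hψ]
      exact h3
  have ht1 : ∀ l, t0 l ≠ 0 := by
    intro l h
    apply (ht l).1
    rw [← ht0 l, h, map_zero]
  have hcnt := hc k ψ hNk t0 P0 ht1 hpt (fun _ => 0) (fun i => Or.inl rfl)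
  have : Fintype k := Fintype.ofFinite k
  have h1 := FB_card (F := k) (C := C0) (r := r) {u : Fin (M + 1) → k | ∀ i, sM E' (fun t => ψ (b t)) t0 P0 u i = 0}
    (fun x hx l i => by rw [FB_sc, hx i, mul_zero]) hcnt
  refine ⟨(univ.filter fun y0 : Fin (M + 1) → k => y0 ∈ {u : Fin (M + 1) → k | ∀ i, sM E' (fun t => ψ (b t)) t0 P0 u i = 0} ∧
    Nrm y0).image (fun y0 l => f (y0 l)), ?_, ?_⟩
  · refine le_trans (Nat.mul_le_mul_right _ Finset.card_image_le) ?_
    rw [← Fintype.card_subtype, ← Nat.card_eq_fintype_card, ← hk]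
    exact h1
  · intro y hy hyp hys
    choose y0 hy0 using fun l => (him (y l)).1 (hyp l)
    refine Finset.mem_image.2 ⟨y0, Finset.mem_filter.2 ⟨Finset.mem_univ _, ?_, ?_⟩, funext hy0⟩
    · intro i
      apply f.injective
      rw [map_zero, ← FB_sM f]
      have h2 := hys i
      have e1 : (fun t => f (ψ (b t))) = fun x => em p (φ (b x)) := funext fun x => hψ _
      have e2 : (fun l => f (t0 l)) = t := funext ht0
      have e3 : (fun l => mpO f (P0 l)) = P := funext hP1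
      have e4 : (fun l => f (y0 l)) = y := funext hy0
      rw [e1, e2, e3, e4]
      exact h2
    · obtain ⟨i, hi1, hi2⟩ := hy
      refine ⟨i, f.injective ?_, fun i' hi' => f.injective ?_⟩
      · rw [hy0, hi1, map_one]
      · rw [hy0, hi2 i' hi', map_zero]

end DP
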