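import Pool.Agent.Lib.MP_17a322_ntVY.VD
import Pool.Agent.Lib.MP_17a322_ntVU.W3
import Pool.Agent.Lib.MP_17a322_ntLH.F8
import Pool.Agent.Lib.MP_17a322_ntVK.SR1

/-!
# LEAF GA: elements of a number field which are integral at a place

PROOF.  `loc_frac`: the number field `N`, a finite place `v` (`v = FinitePlace.mk P` for a height one prime `P`): if `v x ≤ 1` there are `a, b : 𝓞 N` with `v b = 1` and `x * b = a`.  Proof: the ideal `I = {b : 𝓞 N | b x ∈ 𝓞 N}` is not contained in `P` : e.g. by the strong approximation / `IsLocalization.AtPrime (Localization.AtPrime P) P` and Mathlib (`IsDedekindDomain.HeightOneSpectrum.valuation_le_one_iff..`, `exists_adicValued_mul_sub_le`, or: write `x = c / d`, and let `Q` be an ideal prime to `P` with `P ^ k * Q = (d)`; choose `b ∈ Q` outside of `P` (`Q ⊄ P`); then `(b c) ⊆ (d)` because `v_P (b c) ≥ k` and `b c ∈ Q`, `P ^ k ⊓ Q = P ^ k * Q` as coprime), so `b c = d a`.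
`pl_frac`: `ρ` from `res_hom` (VD: `ρ a = res π a`), `pl_iff` (`MP_17a322_ntVU` or `ntVK`, used in `MP_17a322_ntOC/TE.lean`): `v` with `x ∈ π.V ↔ v x ≤ 1`; `ρ b ≠ 0` as `v b = 1`: `b, b⁻¹ ∈ π.V` (`res_ne`).
-/

set_option autoImplicit false

namespace DP

open Finset NumberField LVH VK VU

theorem loc_frac {N : Type} [Field N] [NumberField N] (v : FinitePlace N) {x : N} (hx : v x ≤ 1) :
    ∃ a b : 𝓞 N, v ((b : 𝓞 N) : N) = 1 ∧ x * ((b : 𝓞 N) : N) = (a : N) := by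
  obtain ⟨P, rfl⟩ : ∃ P : IsDedekindDomain.HeightOneSpectrum (𝓞 N), FinitePlace.mk P = v :=
    ⟨v.maximalIdeal, FinitePlace.mk_maximalIdeal v⟩
  have h1 : P.valuation N x ≤ 1 := by
    rw [FinitePlace.mk_apply, FinitePlace.norm_embedding'] at hx
    have h2 : (1 : NNReal) < (Ideal.absNorm P.asIdeal : NNReal) := by
      exact HeightOneSpectrum.one_lt_absNorm_nnreal P
    exact (WithZeroMulInt.toNNReal_le_one_iff h2).1 (by exact_mod_cast hx)
  obtain ⟨a, b, hab⟩ := P.exists_primeCompl_mul_eq_of_integer x h1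
  refine ⟨a, b.1, ?_, hab⟩
  rw [FinitePlace.mk_apply]
  exact (FinitePlace.norm_eq_one_iff_notMem N P b.1).2 b.2

theorem pl_frac {K : Type} [Field K] [NumberField K] {p : ℕ} [Fact p.Prime] (π : Pl K p) :
    ∃ ρ : 𝓞 K →+* ZMod p, (∀ a : 𝓞 K, Rd π (a : K) (ρ a)) ∧
      ∀ x ∈ π.V, ∃ a b : 𝓞 K, ρ b ≠ 0 ∧ x * (b : K) = a := by
  obtain ⟨ρ, hρ⟩ := res_hom π
  refine ⟨ρ, fun a => ?_, fun x hx => ?_⟩
  · rw [hρ a]
    exact rd_res (int_mem π a)
  · obtain ⟨v, -, hv⟩ := pl_iff K (Fact.out : p.Prime) π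
    obtain ⟨a, b, hb, hab⟩ := loc_frac v ((hv x).1 hx)
    refine ⟨a, b, ?_, hab⟩
    rw [hρ b]
    have hb0 : ((b : 𝓞 K) : K) ≠ 0 := by
      intro h
      rw [h, map_zero] at hb
      exact zero_ne_one hb
    refine res_ne hb0 ((hv _).2 hb.le) ((hv _).2 ?_)
    rw [map_inv₀, hb, inv_one]

end DP
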