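import Pool.Agent.Lib.MP_17a322_ntDP.GA
import Pool.Agent.Lib.MP_17a322_ntFB.PV

/-!
# LEAF GB: the place of a homomorphism of the ring of integers

PROOF.  `P = ker ρ` is a prime ideal, `≠ ⊥` by `h0`: `v : HeightOneSpectrum (𝓞 N)`.  The valuation ring is `V = VR v` (`FB.VR`, `(v.valuation N).valuationSubring`); `x ∈ V ↔ v.valuation N x ≤ 1`, and by `loc_frac` for `FinitePlace.mk v` (`FB.fp_in`, `MP_17a322_ntFB/N12.lean`, compares) every `x ∈ V` is `a / b` with `b ∉ P`, i.e. `ρ b ≠ 0`.  The residue map `V → F`: `x ↦ ρ a / ρ b`, well defined (`a b' = a' b` in `𝓞 N`), a ring homomorphism; it is `0` at `x = a / b` if `x⁻¹ ∉ V`: otherwise `ρ a ≠ 0`, `a ∉ P`, so `x⁻¹ = b / a ∈ V` (`v.valuation a = 1`).  (Or: `IsLocalization.lift`: `V` is the localization of `𝓞 N` at `P`.)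
-/

set_option autoImplicit false

namespace DP

open Finset NumberField LVH VK FB IsDedekindDomain

private theorem GB_cm {N : Type} [Field N] [NumberField N] (a b : 𝓞 N) : ((a * b : 𝓞 N) : N) = (a : N) * (b : N) := rfl

private theorem GB_ca {N : Type} [Field N] [NumberField N] (a b : 𝓞 N) : ((a + b : 𝓞 N) : N) = (a : N) + (b : N) := rfl

private theorem GB_cn {N : Type} [Field N] [NumberField N] (a : 𝓞 N) : ((-a : 𝓞 N) : N) = -(a : N) := rfl

private theorem GB_c1 {N : Type} [Field N] [NumberField N] : ((1 : 𝓞 N) : N) = 1 := rfl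

private theorem GB_c0 {N : Type} [Field N] [NumberField N] : ((0 : 𝓞 N) : N) = 0 := rfl

private theorem GB_cross {N : Type} [Field N] [NumberField N] {F : Type} [Field F] (ρ : 𝓞 N →+* F) {x : N} {a b a' b' : 𝓞 N}
    (hb : ρ b ≠ 0) (hb' : ρ b' ≠ 0) (h : x * (b : N) = a) (h' : x * (b' : N) = a') : ρ a / ρ b = ρ a' / ρ b' := by
  have h1 : ((a * b' : 𝓞 N) : N) = ((a' * b : 𝓞 N) : N) := by
    rw [GB_cm, GB_cm, ← h, ← h']
    ring
  have h2 : a * b' = a' * b := RingOfIntegers.ext h1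
  rw [div_eq_div_iff hb hb', ← map_mul, ← map_mul, h2]

private theorem GB_frac {N : Type} [Field N] [NumberField N] {F : Type} [Field F] (ρ : 𝓞 N →+* F)
    (h0 : ∃ a, a ≠ 0 ∧ ρ a = 0) (x : N) : (∃ a b : 𝓞 N, ρ b ≠ 0 ∧ x * (b : N) = a) ∨ ∃ a b : 𝓞 N, ρ b ≠ 0 ∧ x⁻¹ * (b : N) = a := by
  obtain ⟨a0, ha0, ha1⟩ := h0
  obtain ⟨P, hP⟩ : ∃ P : HeightOneSpectrum (𝓞 N), P.asIdeal = RingHom.ker ρ := by
    refine ⟨⟨RingHom.ker ρ, RingHom.ker_isPrime ρ, ?_⟩, rfl⟩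
    intro hbot
    have h1 : a0 ∈ RingHom.ker ρ := ha1
    rw [hbot] at h1
    exact ha0 h1
  have key : ∀ y : N, FinitePlace.mk P y ≤ 1 → ∃ a b : 𝓞 N, ρ b ≠ 0 ∧ y * (b : N) = a := by
    intro y hy
    obtain ⟨a, b, hb, hab⟩ := loc_frac (FinitePlace.mk P) hy
    refine ⟨a, b, ?_, hab⟩
    intro hb0
    have h1 : b ∈ P.asIdeal := by
      rw [hP]
      exact hb0
    rw [FinitePlace.mk_apply] at hb
    exact (FinitePlace.norm_eq_one_iff_notMem N P b).1 hb h1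
  rcases le_total (FinitePlace.mk P x) 1 with h | h
  · exact Or.inl (key x h)
  · refine Or.inr (key x⁻¹ ?_)
    rw [map_inv₀]
    exact inv_le_one_of_one_le₀ h

private def GB_ring {N : Type} [Field N] [NumberField N] {F : Type} [Field F] (ρ : 𝓞 N →+* F) : Subring N where
  carrier := {x | ∃ a b : 𝓞 N, ρ b ≠ 0 ∧ x * (b : N) = a}
  mul_mem' := by
    rintro x y ⟨a, b, hb, h⟩ ⟨a', b', hb', h'⟩
    refine ⟨a * a', b * b', ?_, ?_⟩
    · rw [map_mul]
      exact mul_ne_zero hb hb'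
    · rw [GB_cm, GB_cm, ← h, ← h']
      ring
  one_mem' := ⟨1, 1, by rw [map_one]; exact one_ne_zero, by rw [GB_c1, mul_one]⟩
  add_mem' := by
    rintro x y ⟨a, b, hb, h⟩ ⟨a', b', hb', h'⟩
    refine ⟨a * b' + a' * b, b * b', ?_, ?_⟩
    · rw [map_mul]
      exact mul_ne_zero hb hb'
    · rw [GB_ca, GB_cm, GB_cm, GB_cm, ← h, ← h']
      ring
  zero_mem' := ⟨0, 1, by rw [map_one]; exact one_ne_zero, by rw [GB_c0, zero_mul]⟩
  neg_mem' := by
    rintro x ⟨a, b, hb, h⟩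
    exact ⟨-a, b, hb, by rw [GB_cn, ← h, neg_mul]⟩

private theorem GB_mem {N : Type} [Field N] [NumberField N] {F : Type} [Field F] (ρ : 𝓞 N →+* F) (x : N) :
    x ∈ GB_ring ρ ↔ ∃ a b : 𝓞 N, ρ b ≠ 0 ∧ x * (b : N) = a := Iff.rfl

theorem ex_pf {N : Type} [Field N] [NumberField N] {F : Type} [Field F] (ρ : 𝓞 N →+* F)
    (h0 : ∃ a, a ≠ 0 ∧ ρ a = 0) : ∃ Λ : PF N F, (∀ a : 𝓞 N, Rf Λ (a : N) (ρ a)) ∧
      ∀ x ∈ Λ.V, ∃ a b : 𝓞 N, ρ b ≠ 0 ∧ x * (b : N) = a := by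
  classical
  obtain ⟨V, hV⟩ : ∃ V : ValuationSubring N, ∀ x, x ∈ V ↔ ∃ a b : 𝓞 N, ρ b ≠ 0 ∧ x * (b : N) = a :=
    ⟨{ GB_ring ρ with mem_or_inv_mem' := fun x => GB_frac ρ h0 x }, fun x => Iff.rfl⟩
  have hV' : ∀ x : V, ∃ a b : 𝓞 N, ρ b ≠ 0 ∧ (x : N) * (b : N) = a := fun x => (hV x).1 x.2
  choose α β hβ hαβ using hV'
  have hval : ∀ (x : V) (a b : 𝓞 N), ρ b ≠ 0 → (x : N) * (b : N) = a → ρ (α x) / ρ (β x) = ρ a / ρ b :=
    fun x a b hb h => GB_cross ρ (hβ x) hb (hαβ x) h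
  obtain ⟨f, hf⟩ : ∃ f : V →+* F, ∀ x, f x = ρ (α x) / ρ (β x) :=
    ⟨{ toFun := fun x => ρ (α x) / ρ (β x)
       map_one' := by
         rw [hval 1 1 1 (by rw [map_one]; exact one_ne_zero) (by rw [GB_c1, mul_one]; rfl), map_one, div_one]
       map_mul' := by
         intro x y
         rw [hval (x * y) (α x * α y) (β x * β y) (by rw [map_mul]; exact mul_ne_zero (hβ x) (hβ y)) (by
           rw [GB_cm, GB_cm, ← hαβ x, ← hαβ y]
           show (x : N) * (y : N) * _ = _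
           ring), map_mul, map_mul, div_mul_div_comm]
       map_zero' := by
         rw [hval 0 0 1 (by rw [map_one]; exact one_ne_zero) (by rw [GB_c0]; exact zero_mul _), map_zero, zero_div]
       map_add' := by
         intro x y
         rw [hval (x + y) (α x * β y + α y * β x) (β x * β y) (by rw [map_mul]; exact mul_ne_zero (hβ x) (hβ y)) (by
           rw [GB_ca, GB_cm, GB_cm, GB_cm, ← hαβ x, ← hαβ y]
           show ((x : N) + (y : N)) * _ = _
           ring), map_add, map_mul, map_mul, map_mul, div_add_div _ _ (hβ x) (hβ y)]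
         ring }, fun x => rfl⟩
  refine ⟨⟨V, f, ?_⟩, ?_, ?_⟩
  · intro x hx
    rw [hf]
    by_contra hne
    apply hx
    have hα : ρ (α x) ≠ 0 := by
      intro h
      rw [h, zero_div] at hne
      exact hne rfl
    have hα0 : ((α x : 𝓞 N) : N) ≠ 0 := by
      intro h
      apply hα
      have h1 : α x = 0 := RingOfIntegers.ext (by rw [h, GB_c0])
      rw [h1, map_zero]
    have hx0 : (x : N) ≠ 0 := by
      intro h
      apply hα0
      rw [← hαβ x, h, zero_mul]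
    rw [hV]
    refine ⟨β x, α x, hα, ?_⟩
    rw [← hαβ x, ← mul_assoc, inv_mul_cancel₀ hx0, one_mul]
  · intro a
    have ha : (a : N) ∈ V := (hV _).2 ⟨a, 1, by rw [map_one]; exact one_ne_zero, by rw [GB_c1, mul_one]⟩
    refine ⟨ha, ?_⟩
    show f ⟨(a : N), ha⟩ = ρ a
    rw [hf, hval ⟨(a : N), ha⟩ a 1 (by rw [map_one]; exact one_ne_zero) (by rw [GB_c1, mul_one]), map_one, div_one]
  · intro x hx
    exact (hV x).1 hx

end DP
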