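import Pool.Agent.Lib.MP_17a322_ntDP.Defs

/-!
# LEAF GC: Frobenius in a Galois extension

PROOF.  `P = ker ρ1`, a maximal ideal of `𝓞 K` (`ρ1` is surjective onto the prime field: `ZMod p` is a field generated by `1`), `𝓞 K / P ≃ ZMod p`, so `Nat.card (𝓞 K ⧸ P) = p`.  `Q` a prime of `𝓞 N` over `P` (`Ideal.exists_maximal_ideal_liesOver_of_isIntegral`), `𝓞 N / Q` finite.  Frobenius: Mathlib `IsArithFrobAt` (`Mathlib/RingTheory/Frobenius.lean`): `∃ σ : Gal(N/K)` (the group `N ≃ₐ[K] N` acts on `𝓞 N` with invariants `𝓞 K`: `IsInvariant`), `σ x - x ^ (Nat.card (𝓞 K ⧸ Q.under)) ∈ Q` for all `x : 𝓞 N` (`exists_arithFrobAt` / `IsArithFrobAt.exists_of_isInvariant`).  `𝓞 N ⧸ Q` is an algebraic extension of `ZMod p` (characteristic `p` as `P` contains `p`), so it embeds into `Om p` (`IsAlgClosed.lift`); `ρ` is the composition `𝓞 N → 𝓞 N ⧸ Q → Om p`.  `ρ ∘ algebraMap = em p ∘ ρ1`: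 both kill `P` (`ρ1` has the kernel `P`), and for `a : 𝓞 K` choose `k : ℕ` with `ρ1 a = k`, `a - k ∈ P`: both are `(k : Om p)`.  `ρ a' = ρ a ^ p` for `a' = σ a`.  `h0`: `a = (p : 𝓞 N)`.
-/

set_option autoImplicit false

namespace DP

open Finset NumberField LVH VK FB

theorem ex_fr {K N : Type} [Field K] [NumberField K] [Field N] [NumberField N] [Algebra K N] [IsGalois K N] {p : ℕ}
    [Fact p.Prime] (ρ1 : 𝓞 K →+* ZMod p) : ∃ (ρ : 𝓞 N →+* Om p) (φ : N ≃ₐ[K] N), (∃ a, a ≠ 0 ∧ ρ a = 0) ∧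
      (∀ a : 𝓞 K, ρ (algebraMap (𝓞 K) (𝓞 N) a) = em p (ρ1 a)) ∧
      ∀ a : 𝓞 N, ∃ a' : 𝓞 N, ((a' : 𝓞 N) : N) = φ (a : N) ∧ ρ a' = ρ a ^ p := by
  classical
  have hsurj : Function.Surjective ρ1 := ZMod.ringHom_surjective ρ1
  have hPm : (RingHom.ker ρ1).IsMaximal := RingHom.ker_isMaximal_of_surjective ρ1 hsurj
  obtain ⟨Q, hQm, hQl⟩ := Ideal.exists_maximal_ideal_liesOver_of_isIntegral (S := 𝓞 N) (RingHom.ker ρ1)
  have hunder : Q.under (𝓞 K) = RingHom.ker ρ1 := hQl.over.symm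
  have hcard : Nat.card (𝓞 K ⧸ Q.under (𝓞 K)) = p := by
    rw [hunder, Nat.card_congr (RingHom.quotientKerEquivOfSurjective hsurj).toEquiv, Nat.card_zmod]
  have hker : ∀ a : 𝓞 K, ρ1 a = 0 → algebraMap (𝓞 K) (𝓞 N) a ∈ Q := by
    intro a ha
    have h1 : a ∈ Q.under (𝓞 K) := by
      rw [hunder, RingHom.mem_ker]
      exact ha
    exact h1
  have hpQ : (p : 𝓞 N) ∈ Q := by
    have h1 := hker (p : 𝓞 K) (by rw [map_natCast, ZMod.natCast_self])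
    rwa [map_natCast] at h1
  have hp0 : (p : 𝓞 N) ≠ 0 := Nat.cast_ne_zero.2 (Fact.out : p.Prime).ne_zero
  have hQ0 : Q ≠ ⊥ := by
    intro h
    rw [h] at hpQ
    exact hp0 hpQ
  have hfin : Finite (𝓞 N ⧸ Q) := Ideal.finiteQuotientOfFreeOfNeBot Q hQ0
  obtain ⟨σ, hσ⟩ := IsArithFrobAt.exists_of_isInvariant (𝓞 K) (N ≃ₐ[K] N) Q
  let _ : Field (𝓞 N ⧸ Q) := Ideal.Quotient.field Q
  have hch : CharP (𝓞 N ⧸ Q) p := by
    refine (CharP.charP_iff_prime_eq_zero (Fact.out : p.Prime)).2 ?_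
    have h1 : ((p : ℕ) : 𝓞 N ⧸ Q) = Ideal.Quotient.mk Q (p : 𝓞 N) := by rw [map_natCast]
    rw [h1]
    exact Ideal.Quotient.eq_zero_iff_mem.2 hpQ
  let _ : Algebra (ZMod p) (𝓞 N ⧸ Q) := ZMod.algebra _ p
  have hfm : Module.Finite (ZMod p) (𝓞 N ⧸ Q) := Module.Finite.of_finite
  obtain ⟨f⟩ : Nonempty ((𝓞 N ⧸ Q) →ₐ[ZMod p] Om p) := ⟨IsAlgClosed.lift⟩
  refine ⟨f.toRingHom.comp (Ideal.Quotient.mk Q), σ, ⟨(p : 𝓞 N), hp0, ?_⟩, fun a => ?_, fun a => ?_⟩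
  · rw [RingHom.comp_apply, Ideal.Quotient.eq_zero_iff_mem.2 hpQ, map_zero]
  · have h1 : ρ1 (a - (((ρ1 a).val : ℕ) : 𝓞 K)) = 0 := by
      rw [map_sub, map_natCast, ZMod.natCast_zmod_val, sub_self]
    have h2 := hker _ h1
    rw [map_sub, map_natCast] at h2
    have h3 := (Ideal.Quotient.eq (I := Q)).2 h2
    rw [RingHom.comp_apply, h3, map_natCast, map_natCast]
    have h4 : em p (((ρ1 a).val : ℕ) : ZMod p) = (((ρ1 a).val : ℕ) : Om p) := map_natCast (em p) _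
    rw [← h4, ZMod.natCast_zmod_val]
  · refine ⟨σ • a, rfl, ?_⟩
    have h1 := hσ a
    rw [hcard] at h1
    have h2 := (Ideal.Quotient.eq (I := Q)).2 h1
    rw [RingHom.comp_apply, RingHom.comp_apply, ← map_pow, ← map_pow]
    exact congrArg f.toRingHom h2

end DP
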