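import Pool.Agent.Lib.MP_17a322_ntDP.GB
import Pool.Agent.Lib.MP_17a322_ntDP.GC

/-!
# LEAF GD: a place of a Galois extension over a given place, with a Frobenius element

PROOF.  `ρ1` from `pl_frac π`, `ρ, φ` from `ex_fr ρ1`, `Λ` from `ex_pf ρ`.  `x ∈ π.V`: `x * b = a`, `ρ1 b ≠ 0`: the image of `b` in `N` has the residue `em p (ρ1 b) ≠ 0` at `Λ`, so its inverse is in `Λ.V` (`Λ.ker`), `algebraMap x = a / b` has the residue `em p (ρ1 a / ρ1 b) = em p (res π x)` (`Rf.mul`, `Rf.inv`, in `FB`; `Rd.unique`).  `x ∈ Λ.V`: `x * b = a` in `N`, `ρ b ≠ 0`; `φ x * b' = a'` with `ρ b' = ρ b ^ p ≠ 0`, `ρ a' = ρ a ^ p`, so `φ x = a' / b'` has the residue `(ρ a / ρ b) ^ p = (rf Λ x) ^ p`.  The last statement: `φ x ∈ Λ.V → x ∈ Λ.V`: `φ` has finite order `m ≥ 1`, `x = φ^(m - 1) (φ x)`.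
-/

set_option autoImplicit false

namespace DP

open Finset NumberField LVH VK FB

theorem ex_frob {K N : Type} [Field K] [NumberField K] [Field N] [NumberField N] [Algebra K N] [IsGalois K N] {p : ℕ}
    [Fact p.Prime] (π : Pl K p) : ∃ (Λ : PF N (Om p)) (φ : N ≃ₐ[K] N),
      (∀ x ∈ π.V, Rf Λ (algebraMap K N x) (em p (res π x))) ∧ (∀ x ∈ Λ.V, Rf Λ (φ x) (rf Λ x ^ p)) ∧
      ∀ x, φ x ∈ Λ.V → x ∈ Λ.V := by
  classical
  obtain ⟨ρ1, h1, h1f⟩ := pl_frac π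
  obtain ⟨ρ, φ, h0, hρ, hφ⟩ := ex_fr (K := K) (N := N) ρ1
  obtain ⟨Λ, hΛ, hΛf⟩ := ex_pf ρ h0
  have key : ∀ (x : N) (a b : 𝓞 N), ρ b ≠ 0 → x * (b : N) = a → Rf Λ x (ρ a / ρ b) := by
    intro x a b hb hx
    have hb0 : (b : N) ≠ 0 := by
      intro h
      have h2 : b = 0 := RingOfIntegers.ext h
      exact hb (by rw [h2, map_zero])
    have hbV : (b : N)⁻¹ ∈ Λ.V := by
      by_contra hcon
      obtain ⟨hm, hr⟩ := hΛ b
      exact hb (hr.symm.trans (Λ.ker ⟨(b : N), hm⟩ hcon))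
    have h2 := (hΛ a).mul ((hΛ b).inv hbV)
    have h3 : (a : N) * (b : N)⁻¹ = x := by rw [← hx, mul_assoc, mul_inv_cancel₀ hb0, mul_one]
    rw [h3, ← div_eq_mul_inv] at h2
    exact h2
  have second : ∀ x ∈ Λ.V, Rf Λ (φ x) (rf Λ x ^ p) := by
    intro x hx
    obtain ⟨a, b, hb, hab⟩ := hΛf x hx
    obtain ⟨a', ha', hra'⟩ := hφ a
    obtain ⟨b', hb', hrb'⟩ := hφ b
    have h2 : Rf Λ (φ x) (ρ a' / ρ b') := key (φ x) a' b' (by rw [hrb']; exact pow_ne_zero _ hb)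
      (by rw [ha', hb', ← map_mul, hab])
    have h3 : rf Λ x = ρ a / ρ b := (rf_res hx).unique (key x a b hb hab)
    rw [h3, div_pow, ← hra', ← hrb']
    exact h2
  refine ⟨Λ, φ, ?_, second, ?_⟩
  · intro x hx
    obtain ⟨a, b, hb, hab⟩ := h1f x hx
    have hbem : ρ (algebraMap (𝓞 K) (𝓞 N) b) ≠ 0 := by
      rw [hρ]
      exact (map_ne_zero (em p)).2 hb
    have h2 := key (algebraMap K N x) (algebraMap (𝓞 K) (𝓞 N) a) (algebraMap (𝓞 K) (𝓞 N) b) hbem (by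
      have h3 := congrArg (algebraMap K N) hab
      rw [map_mul] at h3
      exact h3)
    rw [hρ, hρ, ← map_div₀] at h2
    have h3 : Rd π (a : K) (res π x * ρ1 b) := by
      rw [← hab]
      exact (rd_res hx).mul (h1 b)
    have h4 : res π x = ρ1 a / ρ1 b := (eq_div_iff hb).2 (h3.unique (h1 a))
    rw [h4]
    exact h2
  · intro x hx
    have hfd : FiniteDimensional K N := Module.Finite.of_restrictScalars_finite ℚ K N
    have hst : ∀ (m : ℕ) (y : N), y ∈ Λ.V → (φ ^ m) y ∈ Λ.V := by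
      intro m
      induction m with
      | zero => intro y hy; rw [pow_zero]; exact hy
      | succ m ih =>
        intro y hy
        rw [pow_succ, AlgEquiv.mul_apply]
        exact ih _ (second y hy).1
    have hm : orderOf φ - 1 + 1 = orderOf φ := Nat.sub_add_cancel (orderOf_pos φ)
    have h2 := hst (orderOf φ - 1) (φ x) hx
    rw [← AlgEquiv.mul_apply, ← pow_succ, hm, pow_orderOf_eq_one] at h2
    exact h2

end DP
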