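import Pool.Agent.Lib.MP_17a322_ntFB.PS3
import Pool.Agent.Lib.MP_17a322_ntVK.SR3

/-!
# LEAF GE: the reduction homomorphism at a place with an arbitrary residue field

PROOF.  Copy `exists_redK` (`Pool/Agent/Lib/MP_17a322_ntVK/SR3.lean`) with `PF K F`, `Rf`, `rf` in place of `Pl K p`, `Rd`, `res` (`red_linK` in `MP_17a322_ntFB/PS1.lean`, `red_unitK` in `PS2.lean`, `den_xyK`, `rf_res` in `PS1`); `rdF` (PDefs) is the same function.  After `obtain rfl`: `a = rf π A`, `b = rf π B`.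
-/

set_option autoImplicit false

namespace DP

open Finset VK FB

section GE

variable {K F : Type} [Field K] [Field F] (π : PF K F) {A B : K}

private theorem GE_eqn (hA : A ∈ π.V) (hB : B ∈ π.V) {x y : K} (hx : x ∈ π.V)
    (h : y ^ 2 = x ^ 3 + A * x + B) :
    (rf π y) ^ 2 = (rf π x) ^ 3 + rf π A * rf π x + rf π B := by
  have hy : y ∈ π.V := (FB.den_xyK π hA hB h).1 hx
  have h1 : Rf π (y ^ 2) ((rf π y) ^ 2) := (rf_res hy).pow 2
  have h2 : Rf π (x ^ 3 + A * x + B) ((rf π x) ^ 3 + rf π A * rf π x + rf π B) :=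
    (((rf_res hx).pow 3).add ((rf_res hA).mul (rf_res hx))).add (rf_res hB)
  rw [← h] at h2
  rw [← FB.res_eq h1, ← FB.res_eq h2]

variable [DecidableEq K] [DecidableEq F]

omit [DecidableEq K] [DecidableEq F] in
private theorem GE_eq {F₀ : Type} [Field F₀] [DecidableEq F₀] {a b x y : F₀}
    (h : (EK a b).toAffine.Nonsingular x y) : y ^ 2 = x ^ 3 + a * x + b :=
  (EK_eqn a b x y).1 h.1

private theorem GE_ns (hA : A ∈ π.V) (hB : B ∈ π.V) (h2F : (2 : F) ≠ 0) (hd : ds (rf π A) (rf π B) ≠ 0)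
    {x y : K} (h : (EK A B).toAffine.Nonsingular x y) (hx : x ∈ π.V) :
    (EK (rf π A) (rf π B)).toAffine.Nonsingular (rf π x) (rf π y) :=
  (EK_nons _ _ h2F hd _ _).2 (GE_eqn π hA hB hx (GE_eq h))

open Classical in
/-- the reduction map -/
private noncomputable def GE_f (hA : A ∈ π.V) (hB : B ∈ π.V) (h2F : (2 : F) ≠ 0)
    (hd : ds (rf π A) (rf π B) ≠ 0) : Pt A B → Pt (rf π A) (rf π B)
  | .zero => .zero
  | .some x y h => if hx : x ∈ π.V then
      .some (rf π x) (rf π y) (GE_ns π hA hB h2F hd h hx) else .zero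

private theorem GE_bad (hA : A ∈ π.V) (hB : B ∈ π.V) (h2F : (2 : F) ≠ 0) (hd : ds (rf π A) (rf π B) ≠ 0)
    (x y : K) (h : (EK A B).toAffine.Nonsingular x y) (hx : x ∉ π.V) :
    GE_f π hA hB h2F hd (.some x y h) = 0 := dif_neg hx

private theorem GE_good (hA : A ∈ π.V) (hB : B ∈ π.V) (h2F : (2 : F) ≠ 0) (hd : ds (rf π A) (rf π B) ≠ 0)
    (x y : K) (h : (EK A B).toAffine.Nonsingular x y) (hx : x ∈ π.V) :
    GE_f π hA hB h2F hd (.some x y h) = .some (rf π x) (rf π y) (GE_ns π hA hB h2F hd h hx) := dif_pos hx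

private theorem GE_neg (hA : A ∈ π.V) (hB : B ∈ π.V) (h2F : (2 : F) ≠ 0) (hd : ds (rf π A) (rf π B) ≠ 0)
    (P : Pt A B) : GE_f π hA hB h2F hd (-P) = - GE_f π hA hB h2F hd P := by
  rcases P with _ | ⟨x, y, h⟩
  · rfl
  · rw [WeierstrassCurve.Affine.Point.neg_some]
    by_cases hx : x ∈ π.V
    · rw [GE_good π hA hB h2F hd _ _ _ hx, GE_good π hA hB h2F hd _ _ _ hx,
        WeierstrassCurve.Affine.Point.neg_some]
      have hy : y ∈ π.V := (FB.den_xyK π hA hB (GE_eq h)).1 hx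
      have e1 : (EK A B).toAffine.negY x y = -y := by
        simp [WeierstrassCurve.Affine.negY, EK]
      have e2 : (EK (rf π A) (rf π B)).toAffine.negY (rf π x) (rf π y) = - rf π y := by
        simp [WeierstrassCurve.Affine.negY, EK]
      have e3 : rf π ((EK A B).toAffine.negY x y) =
          (EK (rf π A) (rf π B)).toAffine.negY (rf π x) (rf π y) := by
        rw [e1, e2]
        obtain ⟨g1, g2⟩ := rf_res hy
        have g3 : Rf π (-y) (-rf π y) := ⟨π.V.neg_mem _ g1, by rw [← g2]; exact map_neg π.ρ ⟨y, g1⟩⟩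
        exact FB.res_eq g3
      simp only [e3]
    · rw [GE_bad π hA hB h2F hd _ _ _ hx, GE_bad π hA hB h2F hd _ _ _ hx, neg_zero]

omit [DecidableEq K] [DecidableEq F] in
private theorem GE_swap {F₀ : Type} [Field F₀] {a b l n x₁ y₁ x₂ y₂ x₃ y₃ : F₀}
    (h : Lin a b l n x₁ y₁ x₂ y₂ x₃ y₃) : Lin a b l n x₂ y₂ x₁ y₁ x₃ y₃ where
  y1 := h.y2
  y2 := h.y1
  y3 := h.y3
  e1 := by rw [h.e1]; ring
  e2 := by rw [h.e2]; ring
  e3 := by rw [h.e3]; ring

omit [DecidableEq K] [DecidableEq F] in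
private theorem GE_rot {F₀ : Type} [Field F₀] {a b l n x₁ y₁ x₂ y₂ x₃ y₃ : F₀}
    (h : Lin a b l n x₁ y₁ x₂ y₂ x₃ y₃) : Lin a b l n x₂ y₂ x₃ y₃ x₁ y₁ where
  y1 := h.y2
  y2 := h.y3
  y3 := h.y1
  e1 := by rw [h.e1]; ring
  e2 := by rw [h.e2]; ring
  e3 := by rw [h.e3]; ring

omit [DecidableEq K] [DecidableEq F] in
/-- two points with the same first coordinates and opposite second coordinates have sum zero -/
private theorem GE_opp {F₀ : Type} [Field F₀] [DecidableEq F₀] {a b x y x' y' : F₀}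
    (h : (EK a b).toAffine.Nonsingular x y)
    (h' : (EK a b).toAffine.Nonsingular x' y') (hx : x' = x) (hy : y' = -y) :
    (.some x y h : Pt a b) + .some x' y' h' = 0 := by
  subst hx
  apply WeierstrassCurve.Affine.Point.add_of_Y_eq rfl
  rw [hy]
  simp [WeierstrassCurve.Affine.negY, EK]

/-- the first point in the kernel of reduction -/
private theorem GE_one (hA : A ∈ π.V) (hB : B ∈ π.V) (h2F : (2 : F) ≠ 0) (hd : ds (rf π A) (rf π B) ≠ 0)
    {x₁ y₁ x₂ y₂ x₃ y₃ : K} {l n : K}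
    (h₁ : (EK A B).toAffine.Nonsingular x₁ y₁) (h₂ : (EK A B).toAffine.Nonsingular x₂ y₂)
    (h₃ : (EK A B).toAffine.Nonsingular x₃ y₃) (h : Lin A B l n x₁ y₁ x₂ y₂ x₃ y₃)
    (k1 : x₁ ∉ π.V) :
    GE_f π hA hB h2F hd (.some x₁ y₁ h₁) + GE_f π hA hB h2F hd (.some x₂ y₂ h₂)
      + GE_f π hA hB h2F hd (.some x₃ y₃ h₃) = 0 := by
  rw [GE_bad π hA hB h2F hd _ _ _ k1, zero_add]
  by_cases k2 : x₂ ∈ π.V
  · obtain ⟨g1, g2, g3⟩ := FB.red_unitK π hA hB h (GE_eq h₁) (GE_eq h₂) (GE_eq h₃) k1 k2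
    rw [GE_good π hA hB h2F hd _ _ _ k2, GE_good π hA hB h2F hd _ _ _ g1]
    exact GE_opp _ _ g2 g3
  · by_cases k3 : x₃ ∈ π.V
    · exact absurd (FB.red_unitK π hA hB (GE_swap (GE_rot (GE_rot h))) (GE_eq h₁) (GE_eq h₃) (GE_eq h₂) k1 k3).1 k2
    · rw [GE_bad π hA hB h2F hd _ _ _ k2, GE_bad π hA hB h2F hd _ _ _ k3, zero_add]

private theorem GE_sum [CharZero K] (hA : A ∈ π.V) (hB : B ∈ π.V) (h2F : (2 : F) ≠ 0)
    (hd : ds (rf π A) (rf π B) ≠ 0) (P Q R : Pt A B) (h : P + Q + R = 0) :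
    GE_f π hA hB h2F hd P + GE_f π hA hB h2F hd Q + GE_f π hA hB h2F hd R = 0 := by
  have h0 : GE_f π hA hB h2F hd (0 : Pt A B) = 0 := rfl
  by_cases hP : P = 0
  · have h1 : R = -Q := by
      rw [hP, zero_add] at h
      exact (neg_eq_of_add_eq_zero_right h).symm
    rw [hP, h1, GE_neg, h0, zero_add, add_neg_cancel]
  by_cases hQ : Q = 0
  · have h1 : R = -P := by
      rw [hQ, add_zero] at h
      exact (neg_eq_of_add_eq_zero_right h).symm
    rw [hQ, h1, GE_neg, h0, add_zero, add_neg_cancel]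
  by_cases hR : R = 0
  · have h1 : Q = -P := by
      rw [hR, add_zero] at h
      exact (neg_eq_of_add_eq_zero_right h).symm
    rw [hR, h1, GE_neg, h0, add_zero, add_neg_cancel]
  rcases P with _ | ⟨x₁, y₁, h₁⟩
  · exact absurd rfl hP
  rcases Q with _ | ⟨x₂, y₂, h₂⟩
  · exact absurd rfl hQ
  rcases R with _ | ⟨x₃, y₃, h₃⟩
  · exact absurd rfl hR
  obtain ⟨l, n, hL⟩ := lin_of_sum A B (two_ne_zero) x₁ y₁ x₂ y₂ x₃ y₃ h₁ h₂ h₃ h
  by_cases k1 : x₁ ∈ π.V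
  · by_cases k2 : x₂ ∈ π.V
    · by_cases k3 : x₃ ∈ π.V
      · have g1 : y₁ ∈ π.V := (FB.den_xyK π hA hB (GE_eq h₁)).1 k1
        have hM := FB.red_linK π hA hB hL k1 k2 k3 g1
        rw [GE_good π hA hB h2F hd _ _ _ k1, GE_good π hA hB h2F hd _ _ _ k2,
          GE_good π hA hB h2F hd _ _ _ k3]
        exact sum_of_lin _ _ h2F hd _ _ _ _ _ _ _ _ _ _ _ hM
      · have := GE_one π hA hB h2F hd h₃ h₁ h₂ (GE_rot (GE_rot hL)) k3
        rwa [add_assoc, add_comm] at this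
    · have := GE_one π hA hB h2F hd h₂ h₁ h₃ (GE_swap hL) k2
      rwa [add_comm (GE_f π hA hB h2F hd (.some x₂ y₂ h₂))] at this
  · exact GE_one π hA hB h2F hd h₁ h₂ h₃ hL k1

end GE

theorem exists_redF {K F : Type} [Field K] [CharZero K] [Field F] [DecidableEq K] [DecidableEq F] (π : PF K F)
    {A B : K} {a b : F} (hA : Rf π A a) (hB : Rf π B b) (h2 : (2 : F) ≠ 0) (hd : ds a b ≠ 0) :
    ∃ ρ : Pt A B →+ Pt a b, ∀ P, opP (ρ P) = rdF π P := by
  obtain rfl := FB.res_eq hA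
  obtain rfl := FB.res_eq hB
  obtain ⟨hA', -⟩ := hA
  obtain ⟨hB', -⟩ := hB
  have hadd : ∀ P Q : Pt A B, GE_f π hA' hB' h2 hd (P + Q) = GE_f π hA' hB' h2 hd P + GE_f π hA' hB' h2 hd Q := by
    intro P Q
    have h1 := GE_sum π hA' hB' h2 hd P Q (-(P + Q)) (add_neg_cancel _)
    rw [GE_neg] at h1
    exact (add_neg_eq_zero.1 h1).symm
  refine ⟨AddMonoidHom.mk' (GE_f π hA' hB' h2 hd) hadd, fun P => ?_⟩
  change opP (GE_f π hA' hB' h2 hd P) = rdF π P
  rcases P with _ | ⟨x, y, h⟩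
  · rfl
  · by_cases hx : x ∈ π.V
    · have h1 : rdF π (.some x y h : Pt A B) = some (rf π x, rf π y) := if_pos hx
      rw [GE_good π hA' hB' h2 hd x y h hx, h1]
      rfl
    · have h1 : rdF π (.some x y h : Pt A B) = none := if_neg hx
      rw [GE_bad π hA' hB' h2 hd x y h hx, h1]
      rfl

end DP
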