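import Mathlib

/-!
# LEAF GF: the Galois closure

PROOF.  `N = IntermediateField.normalClosure K L (AlgebraicClosure L)` (or the splitting field of the minimal polynomial of a primitive element over `K`); finite over `K` (`normalClosure.is_finiteDimensional`), normal, so Galois (characteristic `0`), a number field (finite over `K`; `NumberField` from `Module.Finite ℚ`, tower).  The number of the `K`-embeddings `L → N` is `finrank K L`: the embeddings into the algebraically closed field `AlgebraicClosure L` are `finrank K L` (`AlgHom.card`) and all have their image in the normal closure (`Algebra.IsAlgebraic.algHomEquivOfNormal..` / `IntermediateField.normalClosure` lemma `fieldRange_le_normalClosure`, `AlgHom.codRestrict`).  `Fintype.equivFinOfCardEq`.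
-/

set_option autoImplicit false

namespace DP

open NumberField

theorem ex_gal (K L : Type) [Field K] [NumberField K] [Field L] [NumberField L] [Algebra K L] :
    ∃ (N : Type) (_ : Field N) (_ : NumberField N) (_ : Algebra K N) (_ : IsGalois K N),
      Nonempty (Fin (Module.finrank K L) ≃ (L →ₐ[K] N)) := by
  classical
  have hKL : FiniteDimensional K L := Module.Finite.of_restrictScalars_finite ℚ K L
  have hKLa : Algebra.IsAlgebraic K L := Algebra.IsAlgebraic.of_finite K L
  have halg : Algebra.IsAlgebraic K (AlgebraicClosure L) := Algebra.IsAlgebraic.trans K L _
  have hac : IsAlgClosure K (AlgebraicClosure L) := ⟨inferInstance, halg⟩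
  have hnorm : Normal K (AlgebraicClosure L) := IsAlgClosure.normal K _
  have hfd : FiniteDimensional K (IntermediateField.normalClosure K L (AlgebraicClosure L)) :=
    normalClosure.is_finiteDimensional K L _
  have hn : Normal K (IntermediateField.normalClosure K L (AlgebraicClosure L)) :=
    normalClosure.normal K L _
  have hsep : Algebra.IsSeparable K (IntermediateField.normalClosure K L (AlgebraicClosure L)) :=
    inferInstance
  have hgal : IsGalois K (IntermediateField.normalClosure K L (AlgebraicClosure L)) := ⟨⟩
  have hnf : NumberField (IntermediateField.normalClosure K L (AlgebraicClosure L)) :=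
    NumberField.of_module_finite K _
  refine ⟨IntermediateField.normalClosure K L (AlgebraicClosure L), inferInstance, hnf,
    inferInstance, hgal, ⟨?_⟩⟩
  have hcard : Fintype.card (L →ₐ[K] AlgebraicClosure L) = Module.finrank K L :=
    AlgHom.card K L (AlgebraicClosure L)
  exact (finCongr hcard.symm).trans
    ((Fintype.equivFin (L →ₐ[K] AlgebraicClosure L)).symm.trans
      (normalClosure.algHomEquiv K L (AlgebraicClosure L)).symm)

end DP
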