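import Pool.Agent.Lib.MP_17a322_ntDP.EM

/-!
# LEAF GG: points fixed by the Galois group, norms

PROOF.  `tr_pt`: `T = 0`: `T0 = 0`.  `T = some x y`: `φ x = x`, `φ y = y` for all `φ`, so `x, y` are in the image of `K` (`IsGalois.mem_bot_iff_fixed` / `IsGalois.tfae`), `x = algebraMap x0` etc.; nonsingular: injectivity of `algebraMap` (`WeierstrassCurve.Affine.map_nonsingular`, or `EK_eqn` and the derivatives via `nonsingular_iff'`; see the proof of `ex_map`).
`norm_prod`: Mathlib `Algebra.norm_eq_prod_embeddings` is for an algebraically closed field; compose with `N → AlgebraicClosure N`: the `m = finrank K L` embeddings `algebraMap ∘ σ i` are distinct, so they are all the embeddings (`AlgHom.card`), injectivity.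
`norm_S`: `v = FinitePlace.mk P`; `R = ` the valuation ring of `v` in `K` is integrally closed with fraction field `K`, `x` is integral over `R` (all coefficients of `f` are in `R`: `Polynomial.lifts`, or `f.toSubring`), so the norm is integral over `R` (`Algebra.isIntegral_norm`), hence in `R`.
`int_red`: `σ x` is a root of the monic polynomial `f` with coefficients in `K` which are in `π.V` (`hS`), so their images are in `Λ.V` (`hΛ`); `Λ.V` is integrally closed in `N` (`ValuationSubring`: `IsIntegrallyClosed`, `IsIntegrallyClosed.isIntegral_iff`).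
-/

set_option autoImplicit false

namespace DP

open Finset NumberField LVH VK FB

/-- a root of a monic polynomial with coefficients in a valuation ring is in the valuation ring -/
private theorem GG_mem {F : Type} [Field F] (A : ValuationSubring F) (f : Polynomial F) (hf : f.Monic)
    (hc : ∀ i, f.coeff i ∈ A) (z : F) (hz : f.eval z = 0) : z ∈ A := by
  by_contra hcon
  have hz0 : z ≠ 0 := by
    intro h
    rw [h] at hcon
    exact hcon A.zero_mem
  have hinv : z⁻¹ ∈ A := (A.mem_or_inv_mem z).resolve_left hcon
  have h1 : z ^ f.natDegree + ∑ i ∈ Finset.range f.natDegree, f.coeff i * z ^ i = 0 := by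
    have h2 := hz
    rw [hf.as_sum, Polynomial.eval_add, Polynomial.eval_pow, Polynomial.eval_X, Polynomial.eval_finsetSum] at h2
    rw [← h2]
    refine congrArg₂ (· + ·) rfl (Finset.sum_congr rfl fun i _ => ?_)
    rw [Polynomial.eval_mul, Polynomial.eval_C, Polynomial.eval_pow, Polynomial.eval_X]
  rcases Nat.eq_zero_or_pos f.natDegree with h0 | h0
  · rw [h0, Finset.range_zero, Finset.sum_empty, pow_zero, add_zero] at h1
    exact one_ne_zero h1
  · have h2 : z = - ∑ i ∈ Finset.range f.natDegree, f.coeff i * (z⁻¹) ^ (f.natDegree - 1 - i) := by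
      have h3 : z = z ^ f.natDegree * (z⁻¹) ^ (f.natDegree - 1) := by
        have h4 : f.natDegree = f.natDegree - 1 + 1 := by omega
        rw [h4, pow_succ, Nat.add_sub_cancel, mul_comm _ z, mul_assoc, ← mul_pow, mul_inv_cancel₀ hz0, one_pow, mul_one]
      have h4 : z ^ f.natDegree = - ∑ i ∈ Finset.range f.natDegree, f.coeff i * z ^ i := eq_neg_of_add_eq_zero_left h1
      rw [h4, neg_mul, Finset.sum_mul] at h3
      rw [h3]
      refine congrArg Neg.neg (Finset.sum_congr rfl fun i hi => ?_)
      rw [← h3]
      have h5 : f.natDegree - 1 = i + (f.natDegree - 1 - i) := by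
        have := Finset.mem_range.1 hi
        omega
      have h6 : (z⁻¹) ^ (f.natDegree - 1) = (z⁻¹) ^ i * (z⁻¹) ^ (f.natDegree - 1 - i) := by
        rw [← pow_add, ← h5]
      rw [h6, mul_assoc, ← mul_assoc (z ^ i), ← mul_pow, mul_inv_cancel₀ hz0, one_pow, one_mul]
    apply hcon
    rw [h2]
    refine neg_mem (Subring.sum_mem A.toSubring fun i _ => ?_)
    exact mul_mem (hc i) (pow_mem hinv _)

/-- the valuation ring of a finite place -/
private noncomputable def GG_A {K : Type} [Field K] [NumberField K] (v : FinitePlace K) : ValuationSubring K where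
  carrier := {x | v x ≤ 1}
  mul_mem' := fun {a b} ha hb => by
    show v (a * b) ≤ 1
    rw [map_mul]
    exact mul_le_one₀ ha (apply_nonneg v b) hb
  one_mem' := by
    show v 1 ≤ 1
    rw [map_one]
  add_mem' := fun {a b} ha hb => by
    show v (a + b) ≤ 1
    exact (FinitePlace.add_le v a b).trans (max_le ha hb)
  zero_mem' := by
    show v 0 ≤ 1
    rw [map_zero]
    exact zero_le_one
  neg_mem' := fun {a} ha => by
    show v (-a) ≤ 1
    have h1 : v (-1) = 1 := by
      have h2 : v (-1) * v (-1) = 1 := by
        rw [← map_mul, neg_mul_neg, one_mul, map_one]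
      have h3 : (0 : ℝ) ≤ v (-1) := apply_nonneg v _
      nlinarith
    rw [← neg_one_mul, map_mul, h1, one_mul]
    exact ha
  mem_or_inv_mem' := fun x => by
    show v x ≤ 1 ∨ v x⁻¹ ≤ 1
    rcases le_total (v x) 1 with h | h
    · exact Or.inl h
    · right
      rw [map_inv₀]
      exact inv_le_one_of_one_le₀ h

theorem tr_pt {K N : Type} [Field K] [NumberField K] [Field N] [NumberField N] [Algebra K N] [IsGalois K N] (A B : K)
    (T : Pt (algebraMap K N A) (algebraMap K N B)) (hT : ∀ φ : N ≃ₐ[K] N, mpO (φ : N →+* N) (opP T) = opP T) :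
    ∃ T0 : Pt A B, mpO (algebraMap K N) (opP T0) = opP T := by
  rcases T with _ | ⟨x, y, h⟩
  · exact ⟨.zero, rfl⟩
  · have hfd : FiniteDimensional K N := Module.Finite.of_restrictScalars_finite ℚ K N
    have h1 : ∀ φ : N ≃ₐ[K] N, φ x = x ∧ φ y = y := by
      intro φ
      have h2 : (φ x, φ y) = (x, y) := Option.some.inj (hT φ)
      exact Prod.mk.inj h2
    obtain ⟨x0, hx0⟩ := (IsGalois.mem_range_algebraMap_iff_fixed (F := K) x).2 fun φ => (h1 φ).1
    obtain ⟨y0, hy0⟩ := (IsGalois.mem_range_algebraMap_iff_fixed (F := K) y).2 fun φ => (h1 φ).2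
    have hm : (EK A B).map (algebraMap K N) = EK (algebraMap K N A) (algebraMap K N B) := by
      refine WeierstrassCurve.ext ?_ ?_ ?_ rfl rfl
      · exact map_zero (algebraMap K N)
      · exact map_zero (algebraMap K N)
      · exact map_zero (algebraMap K N)
    have h3 : (EK A B).toAffine.Nonsingular x0 y0 := by
      rw [← hx0, ← hy0, ← hm] at h
      exact (WeierstrassCurve.Affine.map_nonsingular (EK A B).toAffine (algebraMap K N).injective x0 y0).1 h
    refine ⟨.some x0 y0 h3, ?_⟩
    show some (algebraMap K N x0, algebraMap K N y0) = some (x, y)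
    rw [hx0, hy0]

theorem norm_prod {K L N : Type} [Field K] [NumberField K] [Field L] [NumberField L] [Field N] [NumberField N]
    [Algebra K L] [Algebra K N] (σ : Fin (Module.finrank K L) ≃ (L →ₐ[K] N)) (x : L) :
    ∏ i, σ i x = algebraMap K N (Algebra.norm K x) := by
  classical
  have hfd : FiniteDimensional K L := Module.Finite.of_restrictScalars_finite ℚ K L
  have h1 := Algebra.norm_eq_prod_embeddings K (L := L) (AlgebraicClosure N) x
  let Φ : (L →ₐ[K] N) → (L →ₐ[K] AlgebraicClosure N) := fun τ =>
    (IsScalarTower.toAlgHom K N (AlgebraicClosure N)).comp τ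
  have hΦi : Function.Injective Φ := by
    intro τ τ' h
    refine AlgHom.ext fun y => ?_
    have h2 := DFunLike.congr_fun h y
    exact (algebraMap N (AlgebraicClosure N)).injective h2
  have hcard : Fintype.card (Fin (Module.finrank K L)) = Fintype.card (L →ₐ[K] AlgebraicClosure N) := by
    rw [Fintype.card_fin, AlgHom.card]
  have hb : Function.Bijective fun i => Φ (σ i) :=
    (Fintype.bijective_iff_injective_and_card _).2 ⟨hΦi.comp σ.injective, hcard⟩
  apply (algebraMap N (AlgebraicClosure N)).injective
  rw [← IsScalarTower.algebraMap_apply K N (AlgebraicClosure N), h1, map_prod]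
  exact hb.prod_comp fun τ : L →ₐ[K] AlgebraicClosure N => τ x

theorem norm_S {K L : Type} [Field K] [NumberField K] [Field L] [NumberField L] [Algebra K L]
    (S : Finset (FinitePlace K)) (x : L) (hx : IntS S x) (v : FinitePlace K) (hv : v ∉ S) :
    v (Algebra.norm K x) ≤ 1 := by
  obtain ⟨f, hf, hc, h0⟩ := hx
  have hfd : FiniteDimensional K L := Module.Finite.of_restrictScalars_finite ℚ K L
  obtain ⟨A, hA⟩ : ∃ A : ValuationSubring K, A = GG_A v := ⟨_, rfl⟩
  have hmem : ∀ y : K, y ∈ A ↔ v y ≤ 1 := by
    intro y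
    rw [hA]
    exact Iff.rfl
  have hfA : ∀ i, f.coeff i ∈ A := fun i => (hmem _).2 (hc v hv i)
  have hsub : (↑f.coeffs : Set K) ⊆ (A.toSubring : Set K) := by
    intro y hy
    obtain ⟨i, -, rfl⟩ := Polynomial.mem_coeffs_iff.1 (Finset.mem_coe.1 hy)
    exact hfA i
  let _ : Algebra A.toSubring L := ((algebraMap K L).comp A.toSubring.subtype).toAlgebra
  have hT : IsScalarTower A.toSubring K L := IsScalarTower.of_algebraMap_eq fun _ => rfl
  have hint : IsIntegral A.toSubring x := by
    refine ⟨f.toSubring A.toSubring hsub, (Polynomial.monic_toSubring f A.toSubring hsub).2 hf, ?_⟩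
    have h2 : Polynomial.eval₂ (algebraMap A.toSubring L) x (f.toSubring A.toSubring hsub) =
        Polynomial.eval₂ (algebraMap K L) x ((f.toSubring A.toSubring hsub).map A.toSubring.subtype) := by
      rw [Polynomial.eval₂_map]
      rfl
    rw [h2, Polynomial.map_toSubring]
    exact h0
  obtain ⟨g, hg, hg0⟩ := Algebra.isIntegral_norm K hint
  rw [← hmem]
  refine GG_mem A (g.map A.toSubring.subtype) (hg.map _) (fun i => ?_) _ ?_
  · rw [Polynomial.coeff_map]
    exact (g.coeff i).2
  · rw [Polynomial.eval_map]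
    exact hg0

theorem int_red {K L N F : Type} [Field K] [NumberField K] [Field L] [NumberField L] [Field N] [NumberField N] [Field F]
    [Algebra K L] [Algebra K N] (V : ValuationSubring K) (Λ : PF N F)
    (hΛ : ∀ x ∈ V, algebraMap K N x ∈ Λ.V) (S : Finset (FinitePlace K))
    (hS : ∀ x : K, (∀ v : FinitePlace K, v ∉ S → v x ≤ 1) → x ∈ V) (σ : L →ₐ[K] N) (x : L) (hx : IntS S x) :
    σ x ∈ Λ.V := by
  obtain ⟨f, hf, hc, h0⟩ := hx
  refine GG_mem Λ.V (f.map (algebraMap K N)) (hf.map _) (fun i => ?_) _ ?_
  · rw [Polynomial.coeff_map]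
    exact hΛ _ (hS _ fun v hv => hc v hv i)
  · rw [Polynomial.eval_map]
    have h1 : σ (Polynomial.aeval x f) = Polynomial.aeval (σ x) f := (Polynomial.aeval_algHom_apply σ x f).symm
    rw [h0, map_zero] at h1
    exact h1.symm

end DP
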