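import Pool.Agent.Lib.MP_17a322_ntDP.Defs
import Pool.Agent.Lib.MP_17a322_ntFB.PS3

/-!
# LEAF GH: the reduction of a point of the projective space

PROOF.  `nr_ex`: choose `i0` with `u i0 ≠ 0` and `u i / u i0 ∈ Λ.V` for all `i` (the valuation of `Λ.V` takes its maximum on the finite set of the `u i`: `Finite.exists_max`, `ValuationSubring.valuation_le_one_iff`; or induction on the number of coordinates with `mem_or_inv_mem`).  The residues of `u i / u i0` are not all `0` (`1` at `i0`); `nrm_ex` (VB) gives a scalar `l ≠ 0` of `F` for which `l • (residues)` is normalised: if the first coordinate with residue `≠ 0` is `i1`, then `u i1 / u i0` is a unit at `Λ`, and `c = (u i1)⁻¹`: `c * u i = (u i / u i0) * (u i1 / u i0)⁻¹`.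
`nr_uniq`: both are normalised reductions of the same `u`; `c' = c * e`, `e ≠ 0`.  Let `y i = 1`, so `c * u i` is a unit at `Λ` (`ker`) and `e = (c' * u i) / (c * u i)` is in `Λ.V`; by symmetry `e⁻¹ ∈ Λ.V`, so with `ε = rf Λ e ≠ 0`, `y' = ε • y`, both normalised, so `ε = 1` (as `VB_one` in `MP_17a322_ntVY/VB.lean`).
-/

set_option autoImplicit false

namespace DP

open Finset NumberField LVH VK FB

private theorem GH_unit {N F : Type} [Field N] [Field F] (Λ : PF N F) {x : N} {a : F} (h : Rf Λ x a) (ha : a ≠ 0) :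
    x ≠ 0 ∧ x⁻¹ ∈ Λ.V := by
  have h1 : rf Λ x ≠ 0 := by
    rw [res_eq h]
    exact ha
  obtain ⟨h2, -⟩ := h
  have h3 := mt (res_zero Λ h2).2 h1
  exact ⟨fun h0 => h3 (Or.inl h0), by_contra fun h0 => h3 (Or.inr h0)⟩

private theorem GH_max {N F : Type} [Field N] [Field F] (Λ : PF N F) {M : ℕ} (u : Fin (M + 1) → N) (hu : u ≠ 0) :
    ∃ i0, u i0 ≠ 0 ∧ ∀ i, u i * (u i0)⁻¹ ∈ Λ.V := by
  obtain ⟨i0, h0⟩ := Finite.exists_max fun i => Λ.V.valuation (u i)
  have h1 : u i0 ≠ 0 := by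
    intro h
    apply hu
    funext i
    have h2 := h0 i
    rw [h, map_zero] at h2
    exact (map_eq_zero _).1 (le_antisymm h2 zero_le)
  refine ⟨i0, h1, fun i => ?_⟩
  rw [← Λ.V.valuation_le_one_iff, ← div_eq_mul_inv, map_div₀]
  exact (div_le_one₀ (zero_lt_iff.2 ((map_ne_zero _).2 h1))).2 (h0 i)

private theorem GH_div {N F : Type} [Field N] [Field F] (Λ : PF N F) {M : ℕ} (u : Fin (M + 1) → N) {y y' : Fin (M + 1) → F}
    {c c' : N} (hc : c ≠ 0) (hy : Nrm y) (h : ∀ i, Rf Λ (c * u i) (y i))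
    (h' : ∀ i, Rf Λ (c' * u i) (y' i)) : c' * c⁻¹ ∈ Λ.V := by
  obtain ⟨i, hi, -⟩ := hy
  obtain ⟨h1, h2⟩ := GH_unit Λ (h i) (by rw [hi]; exact one_ne_zero)
  have h3 : u i ≠ 0 := fun h0 => h1 (by rw [h0, mul_zero])
  have h4 : c' * c⁻¹ = (c' * u i) * (c * u i)⁻¹ := by
    field_simp
  rw [h4]
  exact Λ.V.mul_mem _ _ (h' i).1 h2

theorem nr_ex {N F : Type} [Field N] [Field F] (Λ : PF N F) {M : ℕ} (u : Fin (M + 1) → N) (hu : u ≠ 0) :
    ∃ (y : Fin (M + 1) → F) (c : N), c ≠ 0 ∧ Nrm y ∧ ∀ i, Rf Λ (c * u i) (y i) := by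
  obtain ⟨i0, h0, h1⟩ := GH_max Λ u hu
  have h2 : (fun i => rf Λ (u i * (u i0)⁻¹)) ≠ 0 := by
    intro h
    have h3 := congrFun h i0
    simp only [Pi.zero_apply] at h3
    rw [mul_inv_cancel₀ h0, res_eq Rf.one] at h3
    exact one_ne_zero h3
  obtain ⟨l, hl, hn⟩ := nrm_ex h2
  refine ⟨_, ?_, ?_, hn, ?_⟩
  · exact (u hn.choose)⁻¹
  · have h3 := hn.choose_spec.1
    generalize hn.choose = i1 at h3 ⊢
    rw [Pi.smul_apply, smul_eq_mul] at h3
    have h4 : rf Λ (u i1 * (u i0)⁻¹) ≠ 0 := right_ne_zero_of_mul_eq_one h3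
    have h5 := (GH_unit Λ (rf_res (h1 i1)) h4).1
    exact inv_ne_zero (left_ne_zero_of_mul h5)
  · intro i
    have h3 := hn.choose_spec.1
    generalize hn.choose = i1 at h3 ⊢
    rw [Pi.smul_apply, smul_eq_mul] at h3
    have h4 : rf Λ (u i1 * (u i0)⁻¹) ≠ 0 := right_ne_zero_of_mul_eq_one h3
    obtain ⟨h5, h6⟩ := GH_unit Λ (rf_res (h1 i1)) h4
    have h7 : u i1 ≠ 0 := left_ne_zero_of_mul h5
    have h8 : (u i1)⁻¹ * u i = (u i1 * (u i0)⁻¹)⁻¹ * (u i * (u i0)⁻¹) := by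
      field_simp
    have h9 : l = (rf Λ (u i1 * (u i0)⁻¹))⁻¹ := eq_inv_of_mul_eq_one_left h3
    rw [h8, Pi.smul_apply, smul_eq_mul, h9]
    exact ((rf_res (h1 i1)).inv h6).mul (rf_res (h1 i))

theorem nr_uniq {N F : Type} [Field N] [Field F] (Λ : PF N F) {M : ℕ} (u : Fin (M + 1) → N) {y y' : Fin (M + 1) → F}
    {c c' : N} (hc : c ≠ 0) (hc' : c' ≠ 0) (hy : Nrm y) (hy' : Nrm y') (h : ∀ i, Rf Λ (c * u i) (y i))
    (h' : ∀ i, Rf Λ (c' * u i) (y' i)) : y = y' := by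
  have h1 := GH_div Λ u hc hy h h'
  have h2 := GH_div Λ u hc' hy' h' h
  have h3 : (c' * c⁻¹)⁻¹ = c * c'⁻¹ := by
    rw [mul_inv, inv_inv, mul_comm]
  have h4 : c' * c⁻¹ ≠ 0 := mul_ne_zero hc' (inv_ne_zero hc)
  have h5 := rf_res h1
  have h6 : rf Λ (c' * c⁻¹) ≠ 0 := rf_ne h4 h1 (by rw [h3]; exact h2)
  generalize rf Λ (c' * c⁻¹) = ε at h5 h6
  have h7 : ∀ k, y' k = ε * y k := by
    intro k
    have h8 := h5.mul (h k)
    have h9 : c' * c⁻¹ * (c * u k) = c' * u k := by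
      field_simp
    rw [h9] at h8
    exact (h' k).unique h8
  obtain ⟨i, hi, hi'⟩ := hy
  obtain ⟨j, hj, hj'⟩ := hy'
  have h10 : ε = 1 := by
    rcases lt_trichotomy i j with hij | hij | hij
    · have h11 := hj' i hij
      rw [h7, hi, mul_one] at h11
      exact absurd h11 h6
    · subst hij
      rw [h7, hi, mul_one] at hj
      exact hj
    · rw [h7, hi' j hij, mul_zero] at hj
      exact absurd hj zero_ne_one
  funext k
  rw [h7 k, h10, one_mul]

end DP
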