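import Pool.Agent.Lib.MP_17a322_ntDP.Defs
import Pool.Agent.Lib.MP_17a322_ntDP.EM
import Pool.Agent.Lib.MP_17a322_ntFB.PS3
import Pool.Agent.Lib.MP_17a322_ntVK.SR1

/-!
# LEAF GI: reduction, Frobenius and extension of the field for points

PROOF.  Cases on the point.  `rdF_fr`: `P = some x y`, `P' = some (φ x) (φ y)` (from `h`): `φ x ∈ Λ.V ↔ x ∈ Λ.V` (`h1`, `h2`), and if `x ∈ Λ.V` then `y ∈ Λ.V` (`y ^ 2 = x ^ 3 + A x + B`, `den_xyK` in `FB`, `MP_17a322_ntFB/PS1.lean`), residues `(rf x) ^ p`, `(rf y) ^ p` (`Rf` unique: `rf_eq`).  `rdF_ext`: `P' = some (algebraMap x) (algebraMap y)`: `x ∈ π.V` gives the residues `em p (res π x)`, `em p (res π y)` (`y ∈ π.V`: `den_xyK` in `VK`, SR1); if `x ∉ π.V` then `x⁻¹ ∈ π.V` has residue `0`, so its image has residue `0` at `Λ` and `algebraMap x ∉ Λ.V` (otherwise `1 = 0`).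
-/

set_option autoImplicit false

namespace DP

open Finset NumberField LVH VK FB

theorem rdF_fr {N : Type} [Field N] {p : ℕ} [Fact p.Prime] (Λ : PF N (Om p)) (φ : N →+* N)
    (h1 : ∀ x ∈ Λ.V, Rf Λ (φ x) (rf Λ x ^ p)) (h2 : ∀ x, φ x ∈ Λ.V → x ∈ Λ.V) {A B A' B' : N} (hA : A ∈ Λ.V)
    (hB : B ∈ Λ.V) (P : Pt A B) (P' : Pt A' B') (h : opP P' = mpO φ (opP P)) : rdF Λ P' = frO p (rdF Λ P) := by
  classical
  cases P with
  | zero =>
    cases P' with
    | zero => rfl
    | some x' y' hx' => exact absurd h (by simp [opP, mpO])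
  | some x y hxy =>
    cases P' with
    | zero => exact absurd h (by simp [opP, mpO])
    | some x' y' hxy' =>
      have h3 : some (x', y') = some (φ x, φ y) := h
      have h4 := Option.some.inj h3
      have hx' : x' = φ x := congrArg Prod.fst h4
      have hy' : y' = φ y := congrArg Prod.snd h4
      by_cases hx : x ∈ Λ.V
      · have heq : y ^ 2 = x ^ 3 + A * x + B := (EK_eqn A B x y).1 hxy.1
        have hy : y ∈ Λ.V := (FB.den_xyK Λ hA hB heq).1 hx
        have h5 : x' ∈ Λ.V := by
          rw [hx']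
          exact (h1 x hx).1
        simp only [rdF, if_pos hx, if_pos h5]
        rw [hx', hy', FB.res_eq (h1 x hx), FB.res_eq (h1 y hy)]
        rfl
      · have h5 : x' ∉ Λ.V := by
          rw [hx']
          exact fun h6 => hx (h2 x h6)
        simp only [rdF, if_neg hx, if_neg h5]
        rfl

theorem rdF_ext {K N : Type} [Field K] [Field N] [Algebra K N] {p : ℕ} [Fact p.Prime] (π : Pl K p) (Λ : PF N (Om p))
    (h1 : ∀ x ∈ π.V, Rf Λ (algebraMap K N x) (em p (res π x))) {A B : K} (hA : A ∈ π.V) (hB : B ∈ π.V) {A' B' : N}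
    (P : Pt A B) (P' : Pt A' B') (h : opP P' = mpO (algebraMap K N) (opP P)) : rdF Λ P' = mpO (em p) (rdK π P) := by
  classical
  cases P with
  | zero =>
    cases P' with
    | zero => rfl
    | some x' y' hx' => exact absurd h (by simp [opP, mpO])
  | some x y hxy =>
    cases P' with
    | zero => exact absurd h (by simp [opP, mpO])
    | some x' y' hxy' =>
      have h3 : some (x', y') = some (algebraMap K N x, algebraMap K N y) := h
      have h4 := Option.some.inj h3
      have hx' : x' = algebraMap K N x := congrArg Prod.fst h4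
      have hy' : y' = algebraMap K N y := congrArg Prod.snd h4
      by_cases hx : x ∈ π.V
      · have heq : y ^ 2 = x ^ 3 + A * x + B := (EK_eqn A B x y).1 hxy.1
        have hy : y ∈ π.V := (VK.den_xyK π hA hB heq).1 hx
        have h5 : x' ∈ Λ.V := by
          rw [hx']
          exact (h1 x hx).1
        simp only [rdF, rdK, if_pos hx, if_pos h5]
        rw [hx', hy', FB.res_eq (h1 x hx), FB.res_eq (h1 y hy)]
        rfl
      · have h5 : x' ∉ Λ.V := by
          rw [hx']
          intro h6
          have hi : x⁻¹ ∈ π.V := (π.V.mem_or_inv_mem x).resolve_left hx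
          have hx0 : x ≠ 0 := by
            rintro rfl
            exact hx π.V.zero_mem
          have h7 : res π x⁻¹ = 0 := (VK.res_zero π hi).2 (Or.inr (by rw [inv_inv]; exact hx))
          have h8 := h1 x⁻¹ hi
          rw [h7, map_zero] at h8
          have h9 := (rf_res h6).mul h8
          rw [← map_mul, mul_inv_cancel₀ hx0, map_one, mul_zero] at h9
          exact one_ne_zero (Rf.one.unique h9)
        simp only [rdF, rdK, if_neg hx, if_neg h5]
        rfl

end DP
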