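import Pool.Agent.Lib.MP_17a322_ntDP.Defs
import Pool.Agent.Lib.MP_17a322_ntFB.PD1

/-!
# LEAF GJ: the reduction of a section which vanishes at a point

PROOF.  For every `l` there is `ρ l ≠ 0` in `N` with `Rf Λ (ρ l * bas N (d j l) (opP (P l)) k) (bas F (d j l) (rdF Λ (P l)) k)` for all `k`: `d j l = 0`: the basis is the single function `1`, `ρ = 1`; `d j l ≥ 1`: `bas_red` (PD1) with `q = 1`.  `x l ^ E` reduces to `(rf Λ (x l)) ^ E` for units (`PD1_zpow`, private in PD1: copy).  `MWS.mo (fun i => c * u i) γ = c ^ ν j * MWS.mo u γ` (`∑ γ_i = ν j`).  So `c ^ ν j * (∏ l, ρ l) * sM E a x (opP ∘ P) u j` has the residue `sM E a' (rf Λ ∘ x) (rdF Λ ∘ P) y j` (`Rf.sum`, `Rf.mul`, `Rf.prod`, `Rf.pow`; see `sec_rd` in `MP_17a322_ntVU/G5.lean` or where it is defined, the same for `Pl`); the left side is `0`, and `Rf Λ 0 0`, `Rf.unique`.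
-/

set_option autoImplicit false

namespace DP

open Finset NumberField LVH VK FB

private theorem GJ_zpow {K F : Type} [Field K] [Field F] {π : PF K F} {x : K} (h1 : x ∈ π.V) (h2 : x⁻¹ ∈ π.V)
    (n : ℤ) : Rf π (x ^ n) (rf π x ^ n) := by
  have h3 := rf_res h1
  rcases n with n | n
  · show Rf π (x ^ ((n : ℕ) : ℤ)) (rf π x ^ ((n : ℕ) : ℤ))
    rw [zpow_natCast, zpow_natCast]
    exact h3.pow n
  · rw [zpow_negSucc, zpow_negSucc, ← inv_pow, ← inv_pow]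
    exact (h3.inv h2).pow (n + 1)

private theorem GJ_mo {K : Type} [Field K] {m n : ℕ} (c : K) (u : Fin (m + 1) → K) (e : MWS.Mo m n) :
    MWS.mo (fun l => c * u l) e = c ^ n * MWS.mo u e := by
  unfold MWS.mo
  simp only [mul_pow]
  rw [Finset.prod_mul_distrib, Finset.prod_pow_eq_pow_sum, e.2]

private theorem GJ_mo_rf {K F : Type} [Field K] [Field F] {π : PF K F} {m n : ℕ} {u : Fin (m + 1) → K}
    {y : Fin (m + 1) → F} (h : ∀ l, Rf π (u l) (y l)) (e : MWS.Mo m n) :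
    Rf π (MWS.mo u e) (MWS.mo y e) :=
  Rf.prod _ fun l _ => (h l).pow _

private theorem GJ_bas0 (R : Type) [Field R] (z : Option (R × R)) (i : Fin (0 + 1)) :
    RamCov.bas R 0 z (.inl i) = 1 := by
  have hi : i = Fin.last 0 := Fin.ext (by have := i.2; simp only [Fin.val_last]; omega)
  subst hi
  rcases z with _ | z
  · show (if Fin.last 0 = Fin.last 0 then (1 : R) else 0) = 1
    exact if_pos rfl
  · show z.1 ^ ((Fin.last 0 : Fin (0 + 1)) : ℕ) = 1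
    exact pow_zero _

private theorem GJ_bas {N F : Type} [Field N] [Field F] (Λ : PF N F) {A B : N} (hA : A ∈ Λ.V) (hB : B ∈ Λ.V)
    (P : Pt A B) (d : ℕ) : ∃ ρ : N, ρ ≠ 0 ∧ ∀ k : RamCov.Ix d,
      Rf Λ (ρ * RamCov.bas N d (opP P) k) (RamCov.bas F d (rdF Λ P) k) := by
  rcases Nat.eq_zero_or_pos d with rfl | hd
  · refine ⟨1, one_ne_zero, fun k => ?_⟩
    rw [one_mul]
    rcases k with i | i
    · rw [GJ_bas0, GJ_bas0]
      exact Rf.one
    · exact absurd i.2 (by omega)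
  · obtain ⟨σ, h0, h⟩ := bas_red Λ hA hB hd (one_dvd _) P
    refine ⟨σ, h0, fun k => ?_⟩
    have h1 := h k
    rwa [pow_one] at h1

theorem sec_red {N F : Type} [Field N] [Field F] (Λ : PF N F) {n q M s : ℕ} {ι : Type} [Fintype ι] {ν : Fin s → ℕ}
    {d : Fin s → Fin q → ℕ} (E : Fin s → ι → Fin n → ℤ) {A B : Fin q → N} (hA : ∀ l, A l ∈ Λ.V) (hB : ∀ l, B l ∈ Λ.V)
    (a : IxM ι M ν d → N) (a' : IxM ι M ν d → F) (ha : ∀ x, Rf Λ (a x) (a' x)) (x : Fin n → N)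
    (hx : ∀ l, x l ∈ Λ.V ∧ (x l)⁻¹ ∈ Λ.V) (P : (l : Fin q) → Pt (A l) (B l)) (u : Fin (M + 1) → N) (c : N)
    (y : Fin (M + 1) → F) (hy : ∀ i, Rf Λ (c * u i) (y i)) (j : Fin s)
    (h : sM E a x (fun l => opP (P l)) u j = 0) : sM E a' (fun l => rf Λ (x l)) (fun l => rdF Λ (P l)) y j = 0 := by
  choose ρ hρ0 hρ using fun l => GJ_bas Λ (hA l) (hB l) (P l) (d j l)
  have h2 : c ^ ν j * (∏ l, ρ l) * sM E a x (fun l => opP (P l)) u j =
      ∑ t : MWS.Mo M (ν j) × IxT ι (d j), a ⟨j, t⟩ *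
        (MWS.mo (fun l => c * u l) t.1 * ((∏ l, x l ^ E j t.2.1 l) *
          ∏ l, (ρ l * RamCov.bas N (d j l) (opP (P l)) (t.2.2 l)))) := by
    unfold sM
    rw [Finset.mul_sum]
    refine Finset.sum_congr rfl fun t _ => ?_
    rw [GJ_mo, Finset.prod_mul_distrib]
    unfold bT
    ring
  have h3 : Rf Λ (∑ t : MWS.Mo M (ν j) × IxT ι (d j), a ⟨j, t⟩ *
        (MWS.mo (fun l => c * u l) t.1 * ((∏ l, x l ^ E j t.2.1 l) *
          ∏ l, (ρ l * RamCov.bas N (d j l) (opP (P l)) (t.2.2 l)))))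
      (sM E a' (fun l => rf Λ (x l)) (fun l => rdF Λ (P l)) y j) := by
    unfold sM
    refine Rf.sum _ fun t _ => (ha ⟨j, t⟩).mul ((GJ_mo_rf hy t.1).mul ?_)
    unfold bT
    exact (Rf.prod _ fun l _ => GJ_zpow (hx l).1 (hx l).2 _).mul (Rf.prod _ fun l _ => hρ l (t.2.2 l))
  rw [← h2, h, mul_zero] at h3
  exact h3.unique Rf.zero

end DP
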