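import Pool.Agent.Lib.MP_17a322_ntDP.DefsH
import Pool.Agent.Lib.MP_17a322_ntDP.CY

/-!
# LEAF HA: the orbits of a finite set of points which is stable under an injective map

PROOF.  `m = N.card`, `x : Fin m → X` the enumeration of `N` (`N.equivFin`), `f` maps `N` injectively to itself, hence bijectively (finite), so there is a permutation `τ` of `Fin m` with `x (τ i) = f (x i)`.  `cyc f hf` (leaf CY) gives `r, y, b, μ`.  All `f^[i] (y j)` are in `N` (`y j` is one of the `x i`, `hN`); conversely `x i0 ∈ N` is one of them: take `G = ℕ` and `φ y = if y = x i0 then 1 else 0` in the last statement of `cyc`: the left side is `≥ 1`.  `∑ j, c j = N.card`: the map `(j, i) ↦ f^[i] (y j)` is a bijection of the sigma type onto `N` (`Fintype.card_sigma`, `Finset.card_bij` or `Finset.card_image_of_injective`).  For the products: `Finset.prod_bij` / `Finset.prod_image`, `Finset.univ_sigma_univ`, `Finset.prod_sigma'`, `Finset.prod_range`.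
-/

set_option autoImplicit false

namespace DP

open Finset NumberField LVH VK VU FB

private theorem HA_ind {α : Type} [DecidableEq α] (f : α → α) (hf : Function.Injective f) :
    ∀ (n : ℕ) (S : Finset α), S.card ≤ n → (∀ y ∈ S, f y ∈ S) →
      (∀ y ∈ S, ∃ k, 1 ≤ k ∧ f^[k] y = y) →
      ∃ (r : ℕ) (y : Fin r → α) (b : Fin r → ℕ),
        (∀ j, y j ∈ S ∧ 1 ≤ b j ∧ f^[b j] (y j) = y j) ∧
        (∀ j i j' i', i < b j → i' < b j' → f^[i] (y j) = f^[i'] (y j') → j = j' ∧ i = i') ∧
        (∀ z ∈ S, ∃ j, ∃ i, i < b j ∧ f^[i] (y j) = z) := by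
  intro n
  induction n with
  | zero =>
    intro S hS _ _
    have hS0 : S = ∅ := by
      rw [← Finset.card_eq_zero]; omega
    subst hS0
    refine ⟨0, fun j => j.elim0, fun j => j.elim0, fun j => j.elim0, fun j => j.elim0, ?_⟩
    intro z hz
    simp at hz
  | succ n ih =>
    intro S hS hst hper
    rcases S.eq_empty_or_nonempty with hE | ⟨y0, hy0⟩
    · subst hE
      refine ⟨0, fun j => j.elim0, fun j => j.elim0, fun j => j.elim0, fun j => j.elim0, ?_⟩
      intro z hz
      simp at hz
    · obtain ⟨k, hk1, hk⟩ := hper y0 hy0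
      have hpp : Function.IsPeriodicPt f k y0 := hk
      have hb0 : 0 < Function.minimalPeriod f y0 := hpp.minimalPeriod_pos (by omega)
      have hbb : f^[Function.minimalPeriod f y0] y0 = y0 := Function.iterate_minimalPeriod
      have hinj := Function.iterate_injOn_Iio_minimalPeriod (f := f) (x := y0)
      generalize Function.minimalPeriod f y0 = b0 at hb0 hbb hinj
      have hO : ∀ i, f^[i] y0 ∈ S := by
        intro i
        induction i with
        | zero => exact hy0
        | succ i ihi => rw [Function.iterate_succ_apply']; exact hst _ ihi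
      have hst' : ∀ z ∈ S \ (Finset.range b0).image (fun i => f^[i] y0),
          f z ∈ S \ (Finset.range b0).image (fun i => f^[i] y0) := by
        intro z hz
        rw [Finset.mem_sdiff] at hz ⊢
        refine ⟨hst z hz.1, ?_⟩
        intro hm
        rw [Finset.mem_image] at hm
        obtain ⟨i, hi, hiz⟩ := hm
        rw [Finset.mem_range] at hi
        apply hz.2
        rw [Finset.mem_image]
        rcases i with _ | i
        · refine ⟨b0 - 1, Finset.mem_range.2 (by omega), ?_⟩
          apply hf
          have e : f (f^[b0 - 1] y0) = f^[b0] y0 := by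
            rw [← Function.iterate_succ_apply' f]
            congr 2
            omega
          rw [e, hbb]
          exact hiz
        · refine ⟨i, Finset.mem_range.2 (by omega), ?_⟩
          apply hf
          rw [← hiz]
          exact (Function.iterate_succ_apply' f i y0).symm
      obtain ⟨r, y, b, h1, h2, h3⟩ := ih (S \ (Finset.range b0).image (fun i => f^[i] y0)) (by
          have hlt : (S \ (Finset.range b0).image (fun i => f^[i] y0)).card < S.card := by
            apply Finset.card_lt_card
            refine ⟨Finset.sdiff_subset, ?_⟩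
            intro hsub
            have := hsub hy0
            rw [Finset.mem_sdiff] at this
            apply this.2
            rw [Finset.mem_image]
            exact ⟨0, Finset.mem_range.2 hb0, rfl⟩
          omega) hst' (by
          intro z hz
          rw [Finset.mem_sdiff] at hz
          exact hper z hz.1)
      have hO' : ∀ j i, f^[i] (y j) ∈ S \ (Finset.range b0).image (fun i => f^[i] y0) := by
        intro j i
        induction i with
        | zero => exact (h1 j).1
        | succ i ihi => rw [Function.iterate_succ_apply']; exact hst' _ ihi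
      have hne : ∀ j i i0, i0 < b0 → f^[i] (y j) ≠ f^[i0] y0 := by
        intro j i i0 hi0 he
        have := hO' j i
        rw [Finset.mem_sdiff, he] at this
        apply this.2
        rw [Finset.mem_image]
        exact ⟨i0, Finset.mem_range.2 hi0, rfl⟩
      refine ⟨r + 1, Fin.cons y0 y, Fin.cons b0 b, ?_, ?_, ?_⟩
      · intro j
        refine Fin.cases ?_ (fun j => ?_) j
        · exact ⟨hy0, hb0, hbb⟩
        · simp only [Fin.cons_succ]
          have := hO' j 0
          exact ⟨(Finset.mem_sdiff.1 this).1, (h1 j).2⟩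
      · intro j i j' i'
        refine Fin.cases ?_ (fun j => ?_) j
        · refine Fin.cases ?_ (fun j' => ?_) j'
          · simp only [Fin.cons_zero]
            intro hi hi' he
            exact ⟨trivial, hinj hi hi' he⟩
          · simp only [Fin.cons_zero, Fin.cons_succ]
            intro hi hi' he
            exact absurd he.symm (hne j' i' i hi)
        · refine Fin.cases ?_ (fun j' => ?_) j'
          · simp only [Fin.cons_zero, Fin.cons_succ]
            intro hi hi' he
            exact absurd he (hne j i i' hi')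
          · simp only [Fin.cons_succ]
            intro hi hi' he
            obtain ⟨e1, e2⟩ := h2 j i j' i' hi hi' he
            exact ⟨by rw [e1], e2⟩
      · intro z hz
        by_cases hzo : z ∈ (Finset.range b0).image (fun i => f^[i] y0)
        · rw [Finset.mem_image] at hzo
          obtain ⟨i, hi, hiz⟩ := hzo
          exact ⟨0, i, by simpa using hi, by simpa using hiz⟩
        · obtain ⟨j, i, hi, hiz⟩ := h3 z (Finset.mem_sdiff.2 ⟨hz, hzo⟩)
          exact ⟨j.succ, i, by simpa using hi, by simpa using hiz⟩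

private theorem HA_per {X : Type} (f : X → X) (hf : Function.Injective f) (N : Finset X) (hN : ∀ x ∈ N, f x ∈ N)
    (y : X) (hy : y ∈ N) : ∃ k, 1 ≤ k ∧ f^[k] y = y := by
  let g : N → N := fun x => ⟨f x.1, hN x.1 x.2⟩
  have hg : Function.Injective g := fun x x' h => Subtype.ext (hf (congrArg Subtype.val h))
  have hit : ∀ (k : ℕ) (x : N), ((g^[k] x : N) : X) = f^[k] x.1 := by
    intro k
    induction k with
    | zero => intro x; rfl
    | succ k ih =>
      intro x
      rw [Function.iterate_succ_apply', Function.iterate_succ_apply', ← ih]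
  obtain ⟨k, hk, hk2⟩ := hg.mem_periodicPts (⟨y, hy⟩ : N)
  refine ⟨k, hk, ?_⟩
  have h1 := congrArg Subtype.val (hk2 : g^[k] ⟨y, hy⟩ = ⟨y, hy⟩)
  rw [hit] at h1
  exact h1

theorem orb {X : Type} (f : X → X) (hf : Function.Injective f) (N : Finset X) (hN : ∀ x ∈ N, f x ∈ N)
    (h1 : 1 ≤ N.card) : ∃ (r : ℕ) (y : Fin r → X) (c : Fin r → ℕ), 1 ≤ r ∧
      (∀ j, 1 ≤ c j ∧ f^[c j] (y j) = y j ∧ y j ∈ N) ∧
      Function.Injective (fun i : (j : Fin r) × Fin (c j) => f^[(i.2 : ℕ)] (y i.1)) ∧
      (∀ x, x ∈ N ↔ ∃ i : (j : Fin r) × Fin (c j), f^[(i.2 : ℕ)] (y i.1) = x) ∧ ∑ j, c j = N.card ∧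
      ∀ (G : Type) [AddCommMonoid G] (φ : X → G), ∑ x ∈ N, φ x = ∑ j, ∑ i ∈ range (c j), φ (f^[i] (y j)) := by
  classical
  obtain ⟨r, y, c, e1, e2, e3⟩ := HA_ind f hf N.card N le_rfl hN (HA_per f hf N hN)
  have hmem : ∀ (j : Fin r) (i : ℕ), f^[i] (y j) ∈ N := by
    intro j i
    induction i with
    | zero => exact (e1 j).1
    | succ i ih =>
      rw [Function.iterate_succ_apply']
      exact hN _ ih
  have hinj : Function.Injective (fun i : (j : Fin r) × Fin (c j) => f^[(i.2 : ℕ)] (y i.1)) := by
    rintro ⟨j, i⟩ ⟨j', i'⟩ h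
    obtain ⟨h2, h3⟩ := e2 j i j' i' i.2 i'.2 h
    subst h2
    rw [Fin.ext h3]
  have hiff : ∀ x, x ∈ N ↔ ∃ i : (j : Fin r) × Fin (c j), f^[(i.2 : ℕ)] (y i.1) = x := by
    intro x
    constructor
    · intro hx
      obtain ⟨j, i, hi, hx2⟩ := e3 x hx
      exact ⟨⟨j, ⟨i, hi⟩⟩, hx2⟩
    · rintro ⟨i, rfl⟩
      exact hmem _ _
  have hmap : N = (Finset.univ : Finset ((j : Fin r) × Fin (c j))).map ⟨_, hinj⟩ := by
    ext x
    rw [Finset.mem_map, hiff x]
    constructor
    · rintro ⟨i, hi⟩
      exact ⟨i, Finset.mem_univ i, hi⟩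
    · rintro ⟨i, -, hi⟩
      exact ⟨i, hi⟩
  refine ⟨r, y, c, ?_, fun j => ⟨(e1 j).2.1, (e1 j).2.2, (e1 j).1⟩, hinj, hiff, ?_, ?_⟩
  · obtain ⟨x, hx⟩ := Finset.card_pos.1 h1
    obtain ⟨j, -⟩ := e3 x hx
    exact Nat.one_le_iff_ne_zero.2 fun h0 => (Fin.cast h0 j).elim0
  · conv_rhs => rw [hmap]
    rw [Finset.card_map, Finset.card_univ, Fintype.card_sigma]
    simp only [Fintype.card_fin]
  · intro G _ φ
    conv_lhs => rw [hmap]
    rw [Finset.sum_map, Fintype.sum_sigma]
    refine Finset.sum_congr rfl fun j _ => ?_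
    rw [Finset.sum_range]
    rfl

end DP
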