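import Pool.Agent.Lib.MP_17a322_ntDP.HA
import Pool.Agent.Lib.MP_17a322_ntDP.EI

/-!
# LEAF HB: functions on a stable set of points which are compatible with Frobenius

PROOF.  `N` empty: only the zero function (`p ^ 0 = 1`).  Otherwise `r, y, c` from `orb` (leaf HA).  A function `g ∈ Fn p f N` satisfies `g (f^[i] (y j)) = g (y j) ^ p ^ i` (induction), so `g (y j) ^ p ^ c j = g (y j)`, and `g` is determined by the tuple `(g (y j))_j` (every point of `N` is some `f^[i] (y j)`; outside of `N` it is `0`).  The number of the elements `x` of `Om p` with `x ^ p ^ c = x` is at most `p ^ c` (`card_roots'` for `X ^ (p ^ c) - X ≠ 0`, or `gal_im`, leaf FA), so there are at most `∏ j, p ^ c j = p ^ ∑ j, c j` tuples.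
`fn_nrm`: `C, p1` from `base_T k` (leaf EI) with `μ j = 1`: the product of `g` over `N` is `∏ j, ∏ i ∈ range (c j), g (y j) ^ p ^ i` (`orb` with `G = Additive (Om p)`, `φ = g`), it is `θ ≠ 0`, so all `g (y j) ≠ 0` and the tuple is in the finset `T` of `base_T` for `u = θ`, `T.card * p ≤ C * p ^ ∑ j, c j`; the map `g ↦ (g (y j))_j` is injective on the set.
-/

set_option autoImplicit false

namespace DP

open Finset NumberField LVH VK VU FB

private theorem HB_it {p : ℕ} [Fact p.Prime] {X : Type} (f : X → X) (N : Finset X) (hN : ∀ x ∈ N, f x ∈ N) (g : X → Om p)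
    (hg : g ∈ Fn p f N) (y : X) (hy : y ∈ N) (i : ℕ) : f^[i] y ∈ N ∧ g (f^[i] y) = g y ^ p ^ i := by
  induction i with
  | zero => exact ⟨hy, by rw [Function.iterate_zero, id, pow_zero, pow_one]⟩
  | succ i ih =>
    rw [Function.iterate_succ_apply']
    refine ⟨hN _ ih.1, ?_⟩
    rw [hg.2 _ ih.1, ih.2, ← pow_mul, pow_succ]

private theorem HB_inj {p : ℕ} [Fact p.Prime] {X : Type} (f : X → X) (N : Finset X) (hN : ∀ x ∈ N, f x ∈ N) {r : ℕ}
    (y : Fin r → X) (c : Fin r → ℕ) (hy : ∀ j, y j ∈ N)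
    (hx : ∀ x, x ∈ N ↔ ∃ i : (j : Fin r) × Fin (c j), f^[(i.2 : ℕ)] (y i.1) = x) (g g' : X → Om p)
    (hg : g ∈ Fn p f N) (hg' : g' ∈ Fn p f N) (h : ∀ j, g (y j) = g' (y j)) : g = g' := by
  funext x
  by_cases hxN : x ∈ N
  · obtain ⟨i, rfl⟩ := (hx x).1 hxN
    rw [(HB_it f N hN g hg _ (hy i.1) _).2, (HB_it f N hN g' hg' _ (hy i.1) _).2, h]
  · rw [hg.1 x hxN, hg'.1 x hxN]

theorem fn_fin {p : ℕ} [Fact p.Prime] {X : Type} (f : X → X) (hf : Function.Injective f) (N : Finset X)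
    (hN : ∀ x ∈ N, f x ∈ N) : Finite {g : X → Om p // g ∈ Fn p f N} ∧
      Nat.card {g : X → Om p // g ∈ Fn p f N} ≤ p ^ N.card := by
  classical
  by_cases h0 : N.card = 0
  · have hN0 : N = ∅ := Finset.card_eq_zero.1 h0
    have hz : ∀ g : {g : X → Om p // g ∈ Fn p f N}, g.1 = fun _ => 0 := fun g => funext fun x => g.2.1 x (by rw [hN0]; exact Finset.notMem_empty x)
    have hs : Subsingleton {g : X → Om p // g ∈ Fn p f N} := ⟨fun a b => Subtype.ext ((hz a).trans (hz b).symm)⟩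
    refine ⟨inferInstance, ?_⟩
    rw [h0, pow_zero]
    exact Finite.card_le_one_iff_subsingleton.2 hs
  obtain ⟨r, y, c, hr, hy, -, hx, hc, -⟩ := orb f hf N hN (by omega)
  have hp1 : 1 < p := (Fact.out : p.Prime).one_lt
  have hR : ∀ j, (Polynomial.X ^ p ^ c j - Polynomial.X : Polynomial (Om p)) ≠ 0 := fun j =>
    FiniteField.X_pow_card_pow_sub_X_ne_zero (Om p) (by have := (hy j).1; omega) hp1
  let R : Fin r → Finset (Om p) := fun j =>
    (Polynomial.X ^ p ^ c j - Polynomial.X : Polynomial (Om p)).roots.toFinset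
  have hRc : ∀ j, (R j).card ≤ p ^ c j := by
    intro j
    refine (Multiset.toFinset_card_le _).trans ((Polynomial.card_roots' _).trans (le_of_eq ?_))
    exact FiniteField.X_pow_card_pow_sub_X_natDegree_eq (Om p) (by have := (hy j).1; omega) hp1
  have hRm : ∀ j (x : Om p), x ^ p ^ c j = x → x ∈ R j := by
    intro j x hx
    rw [Multiset.mem_toFinset, Polynomial.mem_roots (hR j), Polynomial.IsRoot, Polynomial.eval_sub,
      Polynomial.eval_pow, Polynomial.eval_X, hx, sub_self]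
  have hmem : ∀ g : {g : X → Om p // g ∈ Fn p f N}, (fun j => g.1 (y j)) ∈ Fintype.piFinset R := by
    intro g
    rw [Fintype.mem_piFinset]
    intro j
    apply hRm
    rw [← (HB_it f N hN g.1 g.2 _ (hy j).2.2 (c j)).2, (hy j).2.1]
  have hinj : Function.Injective (fun g : {g : X → Om p // g ∈ Fn p f N} => (⟨fun j => g.1 (y j), hmem g⟩ : Fintype.piFinset R)) := by
    intro g g' h
    apply Subtype.ext
    exact HB_inj f N hN y c (fun j => (hy j).2.2) hx g.1 g'.1 g.2 g'.2 fun j =>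
      congrFun (congrArg (fun s : Fintype.piFinset R => s.1) h) j
  refine ⟨Finite.of_injective _ hinj, ?_⟩
  have h1 := Nat.card_le_card_of_injective _ hinj
  rw [Nat.card_eq_fintype_card (α := Fintype.piFinset R), Fintype.card_coe, Fintype.card_piFinset] at h1
  have h2 : ∏ j, (R j).card ≤ ∏ j, p ^ c j := Finset.prod_le_prod' fun j _ => hRc j
  rw [Finset.prod_pow_eq_pow_sum, hc] at h2
  exact h1.trans h2

theorem fn_nrm (k : ℕ) : ∃ C p1 : ℕ, ∀ (p : ℕ) [Fact p.Prime], p1 ≤ p → ∀ (X : Type) (f : X → X),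
    Function.Injective f → ∀ N : Finset X, (∀ x ∈ N, f x ∈ N) → 1 ≤ N.card → N.card ≤ k → ∀ θ : Om p, θ ≠ 0 →
    Nat.card {g : X → Om p // g ∈ Fn p f N ∧ ∏ x ∈ N, g x = θ} * p ≤ C * p ^ N.card := by
  obtain ⟨C, p1, h⟩ := base_T k
  refine ⟨C, p1, fun p _ hp X f hf N hN h1 hk θ hθ => ?_⟩
  obtain ⟨r, y, c, hr, hy, -, hx, hc, hsum⟩ := orb f hf N hN h1
  obtain ⟨T, hT1, hT2⟩ := h p hp r c (fun _ => 1) hr (fun j => ⟨(hy j).1, le_refl 1⟩) (by
    have e : ∑ j, 1 * c j = N.card := by rw [← hc]; exact Finset.sum_congr rfl fun j _ => one_mul _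
    rw [e]
    exact hk) θ
  have hmem : ∀ g : {g : X → Om p // g ∈ Fn p f N ∧ ∏ x ∈ N, g x = θ}, (fun j => g.1 (y j)) ∈ T := by
    intro g
    have hne : ∀ x ∈ N, g.1 x ≠ 0 := by
      have h2 : ∏ x ∈ N, g.1 x ≠ 0 := by rw [g.2.2]; exact hθ
      exact Finset.prod_ne_zero_iff.1 h2
    refine hT2 _ (fun j => ⟨hne _ (hy j).2.2, ?_⟩) ?_
    · rw [← (HB_it f N hN g.1 g.2.1 _ (hy j).2.2 (c j)).2, (hy j).2.1]
    · have h3 := hsum (Additive (Om p)) (fun x => Additive.ofMul (g.1 x))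
      have h4 : ∏ x ∈ N, g.1 x = ∏ j, ∏ i ∈ range (c j), g.1 (f^[i] (y j)) := by
        apply Additive.ofMul.injective
        rw [ofMul_prod, ofMul_prod, h3]
        exact Finset.sum_congr rfl fun j _ => (ofMul_prod _ _).symm
      refine Eq.trans ?_ (h4.symm.trans g.2.2)
      refine Finset.prod_congr rfl fun j _ => ?_
      rw [pow_one]
      exact Finset.prod_congr rfl fun i _ => ((HB_it f N hN g.1 g.2.1 _ (hy j).2.2 i).2).symm
  have hinj : Function.Injective (fun g : {g : X → Om p // g ∈ Fn p f N ∧ ∏ x ∈ N, g x = θ} => (⟨fun j => g.1 (y j), hmem g⟩ : T)) := by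
    intro g g' h
    apply Subtype.ext
    exact HB_inj f N hN y c (fun j => (hy j).2.2) hx g.1 g'.1 g.2.1 g'.2.1 fun j =>
      congrFun (congrArg (fun s : T => s.1) h) j
  have h5 := Nat.card_le_card_of_injective _ hinj
  rw [Nat.card_eq_fintype_card (α := T), Fintype.card_coe] at h5
  rw [← hc]
  exact (Nat.mul_le_mul_right p h5).trans hT1

end DP
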