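import Pool.Agent.Lib.MP_17a322_ntDP.HC

/-!
# LEAF HD: the probability that a set of points is on the random variety, if some values are given

PROOF.  `N = T \ U` is stable (`S.f` is injective and maps `U` bijectively onto `U`, so `x ∉ U` implies `S.f x ∉ U`), disjoint from `U`, `m = N.card`, `1 ≤ m ≤ k`, `U.card + m ≤ N0`.  Let `U0 = T ∩ U`.  `Φ U`, `Ω_g` as in the proof of `sys_ind` (leaf HC).  For `a ∈ Ω_g` (`g ∈ Φ U`) with `Ev T a`: the sections of index `j ∉ V` vanish on `N`, and for some `θ ∈ Θ` and all `j ∈ V`: `(∏ x ∈ U0, g j x) * ∏ x ∈ N, ev a j x = θ j ≠ 0`, so `∏ x ∈ N, ev a j x = θ j / c_j`, `c_j = ∏ x ∈ U0, g j x ≠ 0` (if some `c_j = 0` there is no such `a`).  The number of the families `g' ∈ Φ N` with `g' j = 0` for `j ∉ V` and `∏ x ∈ N, g' j x = θ j / c_j` for `j ∈ V` is at most `(C * p ^ (m - 1)) ^ V.card` (`hS.nrm`; in the form `# * p ^ V.card ≤ C ^ V.card * p ^ (m * V.card)`), for at most `Θ.card ≤ p ^ ρ` families `θ`; each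 `Ω_g ∩ Ω_g'` has the proportion `pr Ω_g / p ^ (s * m)` (`hS.eq` for `U ∪ N` and `U`).  Sum over the `g` with `Ω_g ⊆ B`: `pr (B ∧ Ev T) * p ^ (s * m) * p ^ V.card ≤ p ^ ρ * C ^ V.card * p ^ (m * V.card) * pr B`.
(It may be convenient to prove first: for `B` with `Dp U` and every `g' ∈ Φ N`: `pr (B ∧ ∀ j, rs N (ev a j) = g' j) * p ^ (s * m) = pr B`, from `sys_ind` and `hS.eq`, and to decompose `B` into the `B ∧ Ω_g`.)
`sys_stb`: the set `T \ U` is stable.
-/

set_option autoImplicit false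

namespace DP

open Finset NumberField LVH VK VU FB

private theorem hd_rs_mem {X F : Type} [Zero F] (N : Finset X) (g : X → F) {x : X} (hx : x ∈ N) : rs N g x = g x := by
  unfold rs
  rw [if_pos hx]

private theorem hd_rs_nmem {X F : Type} [Zero F] (N : Finset X) (g : X → F) {x : X} (hx : x ∉ N) : rs N g x = 0 := by
  unfold rs
  rw [if_neg hx]

/-- the sections with the coefficients `a` and `b` have the same values on `W` -/
private def HdR {p : ℕ} [Fact p.Prime] {X Ω A : Type} {s : ℕ} (S : Sys p X Ω A s) (W : Finset X) (a b : Ω) : Prop :=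
  ∀ j, ∀ x ∈ W, S.ev a j x = S.ev b j x

private theorem hd_rs_iff {p : ℕ} [Fact p.Prime] {X Ω A : Type} {s : ℕ} (S : Sys p X Ω A s) (W : Finset X) (a b : Ω) :
    (∀ j, rs W (S.ev a j) = rs W (S.ev b j)) ↔ HdR S W a b := by
  constructor
  · intro h j x hx
    have := congrFun (h j) x
    rwa [hd_rs_mem W _ hx, hd_rs_mem W _ hx] at this
  · intro h j
    funext x
    by_cases hx : x ∈ W
    · rw [hd_rs_mem W _ hx, hd_rs_mem W _ hx]
      exact h j x hx
    · rw [hd_rs_nmem W _ hx, hd_rs_nmem W _ hx]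

private theorem hd_fn {p : ℕ} [Fact p.Prime] {X Ω A : Type} [AddCommGroup A] {s : ℕ} {S : Sys p X Ω A s}
    {k N0 D1 D2 ρ C : ℕ} (hS : S.Ok k N0 D1 D2 ρ C) {W : Finset X} (hW : ∀ x ∈ W, S.f x ∈ W) (a : Ω) (j : Fin s) :
    rs W (S.ev a j) ∈ Fn p S.f W := by
  refine ⟨fun x hx => hd_rs_nmem W _ hx, fun x hx => ?_⟩
  rw [hd_rs_mem W _ hx, hd_rs_mem W _ (hW x hx)]
  exact hS.fr a j x

private theorem hd_eq {p : ℕ} [Fact p.Prime] {X Ω A : Type} [AddCommGroup A] {s : ℕ} {S : Sys p X Ω A s}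
    {k N0 D1 D2 ρ C : ℕ} (hS : S.Ok k N0 D1 D2 ρ C) {W : Finset X} (hW : Stb S.f S.G W) (hc : W.card ≤ N0) (b : Ω) :
    Nat.card {a : Ω // HdR S W a b} * p ^ (s * W.card) = Nat.card Ω := by
  rw [← hS.eq W hW hc (fun j => rs W (S.ev b j)) (fun j => hd_fn hS (fun x hx => (hW x hx).1) b j)]
  congr 1
  refine Nat.card_congr (Equiv.subtypeEquivRight fun a => ?_)
  exact (hd_rs_iff S W a b).symm

open Classical in
/-- the number of the families of values on `N` -/
private theorem hd_cnt {p : ℕ} [Fact p.Prime] {X Ω A : Type} [AddCommGroup A] {s : ℕ} {S : Sys p X Ω A s}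
    {k N0 D1 D2 ρ C : ℕ} (hS : S.Ok k N0 D1 D2 ρ C) {N : Finset X} (hN : ∀ x ∈ N, S.f x ∈ N) (h1 : 1 ≤ N.card)
    (hk : N.card ≤ k) (c : Fin s → Om p) (θ : Fin s → Om p) (hθ : ∀ j ∈ S.V, θ j ≠ 0)
    (J : Finset (Fin s → X → Om p))
    (hJ : ∀ g ∈ J, (∀ j, g j ∈ Fn p S.f N) ∧ (∀ j ∉ S.V, g j = 0) ∧ ∀ j ∈ S.V, c j * ∏ x ∈ N, g j x = θ j) :
    J.card * p ^ S.V.card ≤ (C * p ^ N.card) ^ S.V.card := by
  rcases J.eq_empty_or_nonempty with he | ⟨g0, hg0⟩
  · rw [he]
    simp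
  have hc : ∀ j ∈ S.V, c j ≠ 0 := by
    intro j hj h0
    have := (hJ g0 hg0).2.2 j hj
    rw [h0, zero_mul] at this
    exact hθ j hj this.symm
  have hfin : Finite {g : X → Om p // g ∈ Fn p S.f N} := (fn_fin S.f hS.inj N hN).1
  have hfQ : ∀ j : S.V, Finite {g : X → Om p // g ∈ Fn p S.f N ∧ ∏ x ∈ N, g x = θ j / c j} := by
    intro j
    refine Finite.of_injective
      (fun g : {g : X → Om p // g ∈ Fn p S.f N ∧ ∏ x ∈ N, g x = θ j / c j} =>
        (⟨g.1, g.2.1⟩ : {g : X → Om p // g ∈ Fn p S.f N})) ?_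
    intro g g' h
    have h2 := congrArg Subtype.val h
    exact Subtype.ext h2
  have hle : J.card ≤ Nat.card ((j : S.V) → {g : X → Om p // g ∈ Fn p S.f N ∧ ∏ x ∈ N, g x = θ j / c j}) := by
    have h2 : Nat.card J = J.card := by rw [Nat.card_eq_fintype_card, Fintype.card_coe]
    rw [← h2]
    refine Nat.card_le_card_of_injective
      (fun (g : J) (j : S.V) => (⟨g.1 j, (hJ g.1 g.2).1 j, by
        rw [eq_div_iff (hc j j.2), mul_comm]
        exact (hJ g.1 g.2).2.2 j j.2⟩ : {g : X → Om p // g ∈ Fn p S.f N ∧ ∏ x ∈ N, g x = θ j / c j})) ?_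
    intro g g' h
    apply Subtype.ext
    funext j
    by_cases hj : j ∈ S.V
    · have h3 := congrFun h ⟨j, hj⟩
      exact congrArg Subtype.val h3
    · rw [(hJ g.1 g.2).2.1 j hj, (hJ g'.1 g'.2).2.1 j hj]
  rw [Nat.card_pi] at hle
  calc J.card * p ^ S.V.card
      ≤ (∏ j : S.V, Nat.card {g : X → Om p // g ∈ Fn p S.f N ∧ ∏ x ∈ N, g x = θ j / c j}) * p ^ S.V.card :=
        Nat.mul_le_mul_right _ hle
    _ = ∏ j : S.V, (Nat.card {g : X → Om p // g ∈ Fn p S.f N ∧ ∏ x ∈ N, g x = θ j / c j} * p) := by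
        rw [Finset.prod_mul_distrib, Finset.prod_const, Finset.card_univ, Fintype.card_coe]
    _ ≤ ∏ _j : S.V, (C * p ^ N.card) := by
        refine Finset.prod_le_prod' fun j _ => ?_
        exact hS.nrm N hN h1 hk _ (div_ne_zero (hθ j j.2) (hc j j.2))
    _ = (C * p ^ N.card) ^ S.V.card := by
        rw [Finset.prod_const, Finset.card_univ, Fintype.card_coe]

open Classical in
/-- the bound on the class of `b` -/
private theorem hd_cls {p : ℕ} [Fact p.Prime] {X Ω A : Type} [AddCommGroup A] {s : ℕ} {S : Sys p X Ω A s}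
    {k N0 D1 D2 ρ C : ℕ} (hS : S.Ok k N0 D1 D2 ρ C) [Fintype Ω] {U T : Finset X}
    (hU : Stb S.f S.G U) (hN : Stb S.f S.G (T \ U)) (hk : T.card = k) (hc : U.card + k ≤ N0)
    (hm : 1 ≤ (T \ U).card) (b : Ω) :
    (Finset.univ.filter fun a : Ω => HdR S U a b ∧ S.Ev T a).card * p ^ (s * (T \ U).card + S.V.card) ≤
      C ^ S.V.card * p ^ (ρ + (T \ U).card * S.V.card) * (Finset.univ.filter fun a : Ω => HdR S U a b).card := by
  have hp : 0 < p := (Fact.out : p.Prime).pos
  set N := T \ U with hNdef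
  have hNk : N.card ≤ k := hk ▸ Finset.card_le_card Finset.sdiff_subset
  have hdis : Disjoint U N := Finset.disjoint_sdiff
  have hUN : Stb S.f S.G (U ∪ N) := by
    intro x hx
    rcases Finset.mem_union.1 hx with hx | hx
    · exact ⟨Finset.mem_union_left _ (hU x hx).1, (hU x hx).2⟩
    · exact ⟨Finset.mem_union_right _ (hN x hx).1, (hN x hx).2⟩
  have hcUN : (U ∪ N).card = U.card + N.card := Finset.card_union_of_disjoint hdis
  set R := Finset.univ.filter fun a : Ω => HdR S U a b with hR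
  set F := Finset.univ.filter fun a : Ω => HdR S U a b ∧ S.Ev T a with hF
  let φ : Ω → Fin s → X → Om p := fun a j => rs N (S.ev a j)
  set J := F.image φ with hJdef
  have hR1 : R.card * p ^ (s * U.card) = Nat.card Ω := by
    rw [← hd_eq hS hU (by omega) b, Nat.card_eq_fintype_card, Fintype.card_subtype]
  -- the fibres
  have hfib : ∀ g' ∈ J, (F.filter fun a => φ a = g').card * p ^ (s * N.card) ≤ R.card := by
    intro g' hg'
    obtain ⟨a0, ha0, rfl⟩ := Finset.mem_image.1 hg'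
    have ha0' : HdR S U a0 b := (Finset.mem_filter.1 ha0).2.1
    have hsub : (F.filter fun a => φ a = φ a0).card ≤ Nat.card {a : Ω // HdR S (U ∪ N) a a0} := by
      rw [Nat.card_eq_fintype_card, Fintype.card_subtype]
      refine Finset.card_le_card fun a ha => ?_
      rw [Finset.mem_filter] at ha
      refine Finset.mem_filter.2 ⟨Finset.mem_univ _, ?_⟩
      have h1 : HdR S U a b := (Finset.mem_filter.1 ha.1).2.1
      have h2 : HdR S N a a0 := (hd_rs_iff S N a a0).1 fun j => congrFun ha.2 j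
      intro j x hx
      rcases Finset.mem_union.1 hx with hx | hx
      · rw [h1 j x hx, ha0' j x hx]
      · exact h2 j x hx
    have h3 := hd_eq hS hUN (by omega) a0
    rw [hcUN, Nat.mul_add, pow_add] at h3
    have h4 : Nat.card {a : Ω // HdR S (U ∪ N) a a0} * p ^ (s * N.card) * p ^ (s * U.card) =
        R.card * p ^ (s * U.card) := by
      rw [hR1, ← h3]
      ring
    have h5 := Nat.eq_of_mul_eq_mul_right (pow_pos hp _) h4
    calc _ ≤ Nat.card {a : Ω // HdR S (U ∪ N) a a0} * p ^ (s * N.card) := Nat.mul_le_mul_right _ hsub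
      _ = R.card := h5
  have hF1 : F.card * p ^ (s * N.card) ≤ J.card * R.card := by
    rw [Finset.card_eq_sum_card_image φ F, Finset.sum_mul]
    calc ∑ g' ∈ J, (F.filter fun a => φ a = g').card * p ^ (s * N.card) ≤ ∑ _g' ∈ J, R.card :=
          Finset.sum_le_sum hfib
      _ = J.card * R.card := by rw [Finset.sum_const, smul_eq_mul]
  -- the number of the families
  have hJ1 : J.card * p ^ S.V.card ≤ S.Θ.card * (C * p ^ N.card) ^ S.V.card := by
    let c : Fin s → Om p := fun j => ∏ x ∈ T ∩ U, S.ev b j x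
    let Jθ : (Fin s → Om p) → Finset (Fin s → X → Om p) := fun θ =>
      J.filter fun g => (∀ j, g j ∈ Fn p S.f N) ∧ (∀ j ∉ S.V, g j = 0) ∧ ∀ j ∈ S.V, c j * ∏ x ∈ N, g j x = θ j
    have hJsub : J ⊆ S.Θ.biUnion Jθ := by
      intro g hg
      obtain ⟨a, ha, rfl⟩ := Finset.mem_image.1 hg
      obtain ⟨ha1, hav, θ, hθ, haθ⟩ := (Finset.mem_filter.1 ha).2
      refine Finset.mem_biUnion.2 ⟨θ, hθ, Finset.mem_filter.2 ⟨hg, ?_, ?_, ?_⟩⟩
      · intro j
        exact hd_fn hS (fun x hx => (hN x hx).1) a j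
      · intro j hj
        funext x
        by_cases hx : x ∈ N
        · exact (hd_rs_mem N _ hx).trans (hav j hj x (Finset.mem_sdiff.1 hx).1)
        · exact hd_rs_nmem N _ hx
      · intro j hj
        have h6 : ∏ x ∈ N, φ a j x = ∏ x ∈ N, S.ev a j x :=
          Finset.prod_congr rfl fun x hx => hd_rs_mem N _ hx
        have h7 : c j = ∏ x ∈ T ∩ U, S.ev a j x :=
          Finset.prod_congr rfl fun x hx => (ha1 j x (Finset.mem_inter.1 hx).2).symm
        rw [h6, h7, ← haθ j hj, ← Finset.prod_inter_mul_prod_sdiff T U]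
    calc J.card * p ^ S.V.card ≤ (∑ θ ∈ S.Θ, (Jθ θ).card) * p ^ S.V.card :=
          Nat.mul_le_mul_right _ ((Finset.card_le_card hJsub).trans Finset.card_biUnion_le)
      _ = ∑ θ ∈ S.Θ, (Jθ θ).card * p ^ S.V.card := Finset.sum_mul _ _ _
      _ ≤ ∑ _θ ∈ S.Θ, (C * p ^ N.card) ^ S.V.card := by
          refine Finset.sum_le_sum fun θ hθ => ?_
          exact hd_cnt hS (fun x hx => (hN x hx).1) hm hNk c θ (fun j hj => hS.cls.2 θ hθ j hj) (Jθ θ)
            fun g hg => (Finset.mem_filter.1 hg).2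
      _ = S.Θ.card * (C * p ^ N.card) ^ S.V.card := by rw [Finset.sum_const, smul_eq_mul]
  calc F.card * p ^ (s * N.card + S.V.card) = F.card * p ^ (s * N.card) * p ^ S.V.card := by
        rw [pow_add]
        ring
    _ ≤ J.card * R.card * p ^ S.V.card := Nat.mul_le_mul_right _ hF1
    _ = J.card * p ^ S.V.card * R.card := by ring
    _ ≤ S.Θ.card * (C * p ^ N.card) ^ S.V.card * R.card := Nat.mul_le_mul_right _ hJ1
    _ ≤ p ^ ρ * (C * p ^ N.card) ^ S.V.card * R.card :=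
        Nat.mul_le_mul_right _ (Nat.mul_le_mul_right _ hS.cls.1)
    _ = C ^ S.V.card * p ^ (ρ + N.card * S.V.card) * R.card := by
        rw [mul_pow, pow_add, pow_mul]
        ring

open Classical in
theorem sys_stb {p : ℕ} [Fact p.Prime] {X Ω A : Type} [AddCommGroup A] {s : ℕ} {S : Sys p X Ω A s}
    {k N0 D1 D2 ρ C : ℕ} (hS : S.Ok k N0 D1 D2 ρ C) {U T : Finset X}
    (hU : Stb S.f S.G U) (hT : Stb S.f S.G T) : Stb S.f S.G (T \ U) := by
  intro x hx
  obtain ⟨hxT, hxU⟩ := Finset.mem_sdiff.1 hx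
  refine ⟨Finset.mem_sdiff.2 ⟨(hT x hxT).1, fun hf => ?_⟩, (hT x hxT).2⟩
  have hsub : U.image S.f ⊆ U := by
    intro y hy
    obtain ⟨z, hz, rfl⟩ := Finset.mem_image.1 hy
    exact (hU z hz).1
  have himg : U.image S.f = U :=
    Finset.eq_of_subset_of_card_le hsub (Finset.card_image_of_injective U hS.inj).ge
  rw [← himg] at hf
  obtain ⟨y, hy, hyx⟩ := Finset.mem_image.1 hf
  exact hxU (hS.inj hyx ▸ hy)

open Classical in
theorem sys_cond {p : ℕ} [Fact p.Prime] {X Ω A : Type} [AddCommGroup A] {s : ℕ} {S : Sys p X Ω A s}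
    {k N0 D1 D2 ρ C : ℕ} (hS : S.Ok k N0 D1 D2 ρ C) {U T : Finset X}
    (hU : Stb S.f S.G U) (hT : Stb S.f S.G T) (hk : T.card = k) (hc : U.card + k ≤ N0) (hm : 1 ≤ (T \ U).card)
    {B : Ω → Prop} (hB : S.Dp U B) :
    pr (fun a => B a ∧ S.Ev T a) * (p : ℝ) ^ (s * (T \ U).card + S.V.card) ≤
      (C : ℝ) ^ S.V.card * (p : ℝ) ^ (ρ + (T \ U).card * S.V.card) * pr B := by
  have := hS.fin
  have := hS.ne
  have : Fintype Ω := Fintype.ofFinite Ω
  have hN := sys_stb hS hU hT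
  have hΩ : (0 : ℝ) < Nat.card Ω := by exact_mod_cast Nat.card_pos
  set F := Finset.univ.filter fun a : Ω => B a ∧ S.Ev T a with hF
  set G := Finset.univ.filter fun a : Ω => B a with hG
  let ψ : Ω → Fin s → X → Om p := fun a j => rs U (S.ev a j)
  have hmap : ∀ a ∈ F, ψ a ∈ G.image ψ := fun a ha =>
    Finset.mem_image_of_mem ψ (Finset.mem_filter.2 ⟨Finset.mem_univ _, (Finset.mem_filter.1 ha).2.1⟩)
  have key : F.card * p ^ (s * (T \ U).card + S.V.card) ≤
      C ^ S.V.card * p ^ (ρ + (T \ U).card * S.V.card) * G.card := by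
    rw [Finset.card_eq_sum_card_fiberwise hmap, Finset.card_eq_sum_card_image ψ G, Finset.sum_mul, Finset.mul_sum]
    refine Finset.sum_le_sum fun g hg => ?_
    obtain ⟨b, hb, rfl⟩ := Finset.mem_image.1 hg
    have hb' : B b := (Finset.mem_filter.1 hb).2
    have h1 : (F.filter fun a => ψ a = ψ b) ⊆ Finset.univ.filter fun a : Ω => HdR S U a b ∧ S.Ev T a := by
      intro a ha
      obtain ⟨ha1, ha2⟩ := Finset.mem_filter.1 ha
      exact Finset.mem_filter.2 ⟨Finset.mem_univ _, (hd_rs_iff S U a b).1 fun j => congrFun ha2 j,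
        (Finset.mem_filter.1 ha1).2.2⟩
    have h2 : (Finset.univ.filter fun a : Ω => HdR S U a b) ⊆ G.filter fun a => ψ a = ψ b := by
      intro a ha
      have ha1 : HdR S U a b := (Finset.mem_filter.1 ha).2
      refine Finset.mem_filter.2 ⟨Finset.mem_filter.2 ⟨Finset.mem_univ _, (hB a b ha1).2 hb'⟩, ?_⟩
      funext j
      exact (hd_rs_iff S U a b).2 ha1 j
    exact (Nat.mul_le_mul_right _ (Finset.card_le_card h1)).trans
      ((hd_cls hS hU hN hk hc hm b).trans (Nat.mul_le_mul_left _ (Finset.card_le_card h2)))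
  have hcF : Nat.card {a : Ω // B a ∧ S.Ev T a} = F.card := by
    rw [Nat.card_eq_fintype_card, Fintype.card_subtype]
  have hcG : Nat.card {a : Ω // B a} = G.card := by
    rw [Nat.card_eq_fintype_card, Fintype.card_subtype]
  unfold pr
  rw [hcF, hcG, div_mul_eq_mul_div, ← mul_div_assoc]
  refine div_le_div_of_nonneg_right ?_ hΩ.le
  exact_mod_cast key

end DP
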