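import Pool.Agent.Lib.MP_17a322_ntDP.HD

/-!
# LEAF HE: the number of the sets of points of given sum with a given number of new points

PROOF.  For `T` in the filter let `N = T \ U` (stable, `sys_stb`, `N.card = m`) and `U0 = T ∩ U ⊆ U`; `T = U0 ∪ N`, so `T` is determined by `(U0, N)`; `∑ x ∈ N, χ x = z - ∑ x ∈ U0, χ x`.  For each of the `2 ^ U.card` subsets `U0` of `U` (`Finset.card_powerset`) the set `N` is in the finset `F` of `hS.cnt m` for `z - ∑ x ∈ U0, χ x`, `F.card * p ^ (D1 + m) ≤ C * p ^ (m * D2)`.  So the filter injects into the sigma finset.  `sys_num0`: subsets of `U`.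
-/

set_option autoImplicit false

namespace DP

open Finset NumberField LVH VK VU FB

open Classical in
theorem sys_num {p : ℕ} [Fact p.Prime] {X Ω A : Type} [AddCommGroup A] {s : ℕ} {S : Sys p X Ω A s}
    {k N0 D1 D2 ρ C : ℕ} (hS : S.Ok k N0 D1 D2 ρ C) {U : Finset X}
    (hU : Stb S.f S.G U) (z : A) (𝒯 : Finset (Finset X)) (h𝒯 : ∀ T ∈ 𝒯, S.Tk k z T) {m : ℕ} (hm : 1 ≤ m)
    (hmk : m ≤ k) : (𝒯.filter fun T => (T \ U).card = m).card * p ^ (D1 + m) ≤ 2 ^ U.card * C * p ^ (m * D2) := by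
  have hfib : (𝒯.filter fun T => (T \ U).card = m).card =
      ∑ U0 ∈ U.powerset, ((𝒯.filter fun T => (T \ U).card = m).filter fun T => T ∩ U = U0).card := by
    refine Finset.card_eq_sum_card_fiberwise fun T _ => ?_
    exact Finset.mem_coe.2 (Finset.mem_powerset.2 Finset.inter_subset_right)
  have hle : ∀ U0 ∈ U.powerset,
      ((𝒯.filter fun T => (T \ U).card = m).filter fun T => T ∩ U = U0).card * p ^ (D1 + m) ≤
        C * p ^ (m * D2) := by
    intro U0 _
    obtain ⟨F, hF, hF2⟩ := hS.cnt m hm hmk (z - ∑ x ∈ U0, S.χ x)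
    refine le_trans (Nat.mul_le_mul_right _ ?_) hF
    refine Finset.card_le_card_of_injOn (fun T => T \ U) ?_ ?_
    · intro T hT
      have hT1 := Finset.mem_filter.1 (Finset.mem_coe.1 hT)
      have hT2 := Finset.mem_filter.1 hT1.1
      have hk := h𝒯 T hT2.1
      refine Finset.mem_coe.2 (hF2 (T \ U) (sys_stb hS hU hk.1) hT2.2 ?_)
      have h3 : ∑ x ∈ T ∩ U, S.χ x + ∑ x ∈ T \ U, S.χ x = ∑ x ∈ T, S.χ x :=
        Finset.sum_inter_add_sum_sdiff T U S.χ
      rw [hT1.2, hk.2.2] at h3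
      exact eq_sub_of_add_eq' h3
    · intro T hT T' hT' h
      have hT1 := (Finset.mem_filter.1 (Finset.mem_coe.1 hT)).2
      have hT1' := (Finset.mem_filter.1 (Finset.mem_coe.1 hT')).2
      change T \ U = T' \ U at h
      rw [← Finset.sdiff_union_inter T U, ← Finset.sdiff_union_inter T' U, hT1, hT1', h]
  calc (𝒯.filter fun T => (T \ U).card = m).card * p ^ (D1 + m)
      = ∑ U0 ∈ U.powerset,
          ((𝒯.filter fun T => (T \ U).card = m).filter fun T => T ∩ U = U0).card * p ^ (D1 + m) := by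
        rw [hfib, Finset.sum_mul]
    _ ≤ ∑ _U0 ∈ U.powerset, C * p ^ (m * D2) := Finset.sum_le_sum hle
    _ = 2 ^ U.card * C * p ^ (m * D2) := by
        rw [Finset.sum_const, Finset.card_powerset, smul_eq_mul, mul_assoc]

open Classical in
theorem sys_num0 {X : Type} (U : Finset X) (𝒯 : Finset (Finset X)) :
    (𝒯.filter fun T => (T \ U).card = 0).card ≤ 2 ^ U.card := by
  rw [← Finset.card_powerset]
  refine Finset.card_le_card fun T hT => ?_
  have h := (Finset.mem_filter.1 hT).2
  rw [Finset.card_eq_zero, Finset.sdiff_eq_empty_iff_subset] at h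
  exact Finset.mem_powerset.2 h

end DP
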