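import Pool.Agent.Lib.MP_17a322_ntDP.DefsH

/-!
# LEAF HK: the inequality of Bonferroni

PROOF.  For `a : Ω` let `N a` be the number of the `i ∈ 𝒯` with `A i a`.  The number of the injective tuples `T : Fin l → ι` in `𝒯` with `A (T i) a` for all `i` is `(N a).descFactorial l` (`Fintype.card_embedding_eq`; the injective functions `Fin l → {i // i ∈ 𝒯 ∧ A i a}`), and `descFactorial l = l! * choose l` (`Nat.descFactorial_eq_factorial_mul_choose`).  So after exchanging the sums (`pr (fun a => ..) = (∑ a, if .. then 1 else 0) / Nat.card Ω`) the left side is `(∑ a, ∑ l ∈ range (L + 1), (-1) ^ l * (N a).choose l) / Nat.card Ω`.  For `N = 0` the inner sum is `1`; for `N ≥ 1` it is `(-1) ^ L * (N - 1).choose L = - (N - 1).choose L ≤ 0` (`L` odd; Mathlib may have `Int.alternating_sum_range_choose_eq_choose` or similar; induction on `L` with Pascal's rule).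
-/

set_option autoImplicit false

namespace DP

open Finset NumberField LVH VK VU FB

open Classical in
private theorem HK_pr {Ω : Type} [Fintype Ω] (B : Ω → Prop) :
    pr B = (∑ a, if B a then (1 : ℝ) else 0) / Nat.card Ω := by
  unfold pr
  congr 1
  rw [Finset.sum_boole, Nat.card_eq_fintype_card, Fintype.card_subtype]

open Classical in
private theorem HK_cnt {ι : Type} (𝒯 : Finset ι) (l : ℕ) (B : ι → Prop) :
    (((Fintype.piFinset (fun _ : Fin l => 𝒯)).filter (fun T => Function.Injective T)).filter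
      fun T => ∀ i, B (T i)).card = ((𝒯.filter B).card).descFactorial l := by
  have h := Fintype.card_embedding_eq (α := Fin l) (β := {i // i ∈ 𝒯.filter B})
  rw [Fintype.card_fin, Fintype.card_coe] at h
  rw [← h, ← Finset.card_univ]
  symm
  refine Finset.card_bij (fun e _ => fun i => (e i : ι)) ?_ ?_ ?_
  · intro e _
    refine Finset.mem_filter.2 ⟨Finset.mem_filter.2 ⟨Fintype.mem_piFinset.2 fun i =>
      (Finset.mem_filter.1 (e i).2).1, fun i j hij => e.injective (Subtype.ext hij)⟩, fun i =>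
      (Finset.mem_filter.1 (e i).2).2⟩
  · intro e _ e' _ he
    exact DFunLike.ext _ _ fun i => Subtype.ext (congrFun he i)
  · intro T hT
    obtain ⟨hT1, hT2⟩ := Finset.mem_filter.1 hT
    obtain ⟨hT3, hT4⟩ := Finset.mem_filter.1 hT1
    exact ⟨⟨fun i => ⟨T i, Finset.mem_filter.2 ⟨Fintype.mem_piFinset.1 hT3 i, hT2 i⟩⟩,
      fun i j hij => hT4 (congrArg Subtype.val hij)⟩, Finset.mem_univ _, rfl⟩

private theorem HK_alt (N L : ℕ) (hL : Odd L) :
    ∑ l ∈ range (L + 1), (-1 : ℝ) ^ l * (N.choose l : ℝ) ≤ if N = 0 then 1 else 0 := by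
  rcases N with _ | n
  · rw [if_pos rfl, Finset.sum_range_succ']
    simp
  · rw [if_neg (Nat.succ_ne_zero n)]
    have h := Int.alternating_sum_range_choose_eq_choose (n := n) (m := L)
    have h2 : ∑ l ∈ range (L + 1), (-1 : ℝ) ^ l * ((n + 1).choose l : ℝ) = (-1) ^ L * (n.choose L : ℝ) := by
      exact_mod_cast h
    rw [h2, hL.neg_one_pow]
    have h3 : (0 : ℝ) ≤ (n.choose L : ℝ) := Nat.cast_nonneg _
    linarith

open Classical in
theorem bonf {Ω ι : Type} [Finite Ω] [Nonempty Ω] (𝒯 : Finset ι) (A : ι → Ω → Prop) (L : ℕ) (hL : Odd L) :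
    ∑ l ∈ range (L + 1), (-1 : ℝ) ^ l / l.factorial *
      ∑ T ∈ (Fintype.piFinset (fun _ : Fin l => 𝒯)).filter (fun T => Function.Injective T), pr (fun a => ∀ i, A (T i) a) ≤
      pr (fun a => ∀ i ∈ 𝒯, ¬ A i a) := by
  have : Fintype Ω := Fintype.ofFinite Ω
  rw [HK_pr]
  have h1 : ∀ l : ℕ, (-1 : ℝ) ^ l / l.factorial *
      ∑ T ∈ (Fintype.piFinset (fun _ : Fin l => 𝒯)).filter (fun T => Function.Injective T), pr (fun a => ∀ i, A (T i) a) =
      (∑ a : Ω, (-1 : ℝ) ^ l * (((𝒯.filter fun i => A i a).card).choose l : ℝ)) / Nat.card Ω := by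
    intro l
    have h2 : ∑ T ∈ (Fintype.piFinset (fun _ : Fin l => 𝒯)).filter (fun T => Function.Injective T),
        pr (fun a => ∀ i, A (T i) a) =
        (∑ a : Ω, (((𝒯.filter fun i => A i a).card).descFactorial l : ℝ)) / Nat.card Ω := by
      rw [Finset.sum_congr rfl fun T _ => HK_pr fun a => ∀ i, A (T i) a, ← Finset.sum_div, Finset.sum_comm]
      congr 1
      refine Finset.sum_congr rfl fun a _ => ?_
      rw [← HK_cnt 𝒯 l fun i => A i a, Finset.card_filter, Nat.cast_sum]
      refine Finset.sum_congr rfl fun T _ => ?_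
      by_cases h : ∀ i, A (T i) a
      · rw [if_pos h, if_pos h, Nat.cast_one]
      · rw [if_neg h, if_neg h, Nat.cast_zero]
    rw [h2, ← mul_div_assoc, Finset.mul_sum]
    congr 1
    refine Finset.sum_congr rfl fun a _ => ?_
    rw [Nat.descFactorial_eq_factorial_mul_choose, Nat.cast_mul]
    have h3 : (l.factorial : ℝ) ≠ 0 := Nat.cast_ne_zero.2 (Nat.factorial_ne_zero l)
    field_simp
  rw [Finset.sum_congr rfl fun l _ => h1 l, ← Finset.sum_div, Finset.sum_comm]
  refine div_le_div_of_nonneg_right (Finset.sum_le_sum fun a _ => ?_) (Nat.cast_nonneg _)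
  refine le_trans (HK_alt _ L hL) (le_of_eq ?_)
  have h4 : (𝒯.filter fun i => A i a).card = 0 ↔ ∀ i ∈ 𝒯, ¬ A i a := by
    rw [Finset.card_eq_zero, Finset.filter_eq_empty_iff]
  by_cases h5 : ∀ i ∈ 𝒯, ¬ A i a
  · rw [if_pos (h4.2 h5), if_pos h5]
  · rw [if_neg fun h6 => h5 (h4.1 h6), if_neg h5]

end DP
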