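import Pool.Agent.Lib.MP_17a322_ntDP.DefsH

/-!
# LEAF HL: the exponential series

PROOF.  `κ = exp (-Λ) / 2`.  For `0 ≤ x ≤ Λ` the difference of `exp (-x)` and the partial sum `∑ l ≤ L, (-x) ^ l / l!` is at most `∑ l > L, Λ ^ l / l!`, the tail of the series of `exp Λ`, which tends to `0` for `L → ∞` (`NormedSpace.expSeries_div_summable`, `Real.hasSum_exp..`, `summable.tendsto_sum_tsum_nat`, or `Real.exp_bound'`, `Complex.exp_bound'` : `|exp x - ∑ m < n, x ^ m / m!| ≤ |x| ^ n / n! * 2` for `|x| / (n + 1) ≤ 1 / 2`, and `Λ ^ n / n! → 0`: `FloorSemiring.tendsto_pow_div_factorial_atTop`); choose `L` odd and so large that the difference is at most `exp (-Λ) / 2`.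
-/

set_option autoImplicit false

namespace DP

open Finset NumberField LVH VK VU FB

private theorem HL_bd {x : ℝ} {n : ℕ} (hx : |x| / n.succ ≤ 1 / 2) :
    |Real.exp x - ∑ m ∈ range n, x ^ m / m.factorial| ≤ |x| ^ n / n.factorial * 2 := by
  have h1 := Complex.exp_bound' (x := (x : ℂ)) (n := n) (by rw [Complex.norm_real, Real.norm_eq_abs]; exact hx)
  rw [Complex.norm_real, Real.norm_eq_abs] at h1
  have h2 : Complex.exp (x : ℂ) - ∑ m ∈ range n, (x : ℂ) ^ m / (m.factorial : ℂ) =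
      ((Real.exp x - ∑ m ∈ range n, x ^ m / m.factorial : ℝ) : ℂ) := by
    push_cast
    rfl
  rw [h2, Complex.norm_real, Real.norm_eq_abs] at h1
  exact h1

theorem exp_num (Λ : ℝ) (hΛ : 0 ≤ Λ) : ∃ (L : ℕ) (κ : ℝ), Odd L ∧ 0 < κ ∧ ∀ x : ℝ, 0 ≤ x → x ≤ Λ →
    κ ≤ ∑ l ∈ range (L + 1), (-1 : ℝ) ^ l / l.factorial * x ^ l := by
  have _ := hΛ
  have hκ : 0 < Real.exp (-Λ) / 2 := by positivity
  have hlim := FloorSemiring.tendsto_pow_div_factorial_atTop Λ
  have hev : ∀ᶠ n : ℕ in Filter.atTop, Λ ^ n / n.factorial < Real.exp (-Λ) / 2 / 2 :=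
    hlim.eventually (gt_mem_nhds (by positivity))
  obtain ⟨N, hN⟩ := Filter.eventually_atTop.1 hev
  obtain ⟨M, hM⟩ := exists_nat_ge (2 * Λ)
  refine ⟨2 * (N + M) + 1, Real.exp (-Λ) / 2, ⟨N + M, rfl⟩, hκ, fun x hx hxΛ => ?_⟩
  obtain ⟨n, hn⟩ : ∃ n : ℕ, n = 2 * (N + M) + 1 + 1 := ⟨_, rfl⟩
  rw [← hn]
  have h1 : Λ ^ n / n.factorial < Real.exp (-Λ) / 2 / 2 := hN n (by omega)
  have hMn : (M : ℝ) ≤ n.succ := by
    have : M ≤ n.succ := by omega
    exact_mod_cast this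
  have hx' : |(-x)| = x := by rw [abs_neg, abs_of_nonneg hx]
  have h2 := HL_bd (x := -x) (n := n) (by
    rw [hx', div_le_iff₀ (by positivity)]
    linarith)
  rw [hx'] at h2
  have h3 : x ^ n / n.factorial ≤ Λ ^ n / n.factorial :=
    div_le_div_of_nonneg_right (pow_le_pow_left₀ hx hxΛ n) (Nat.cast_nonneg _)
  have h4 : Real.exp (-Λ) ≤ Real.exp (-x) := Real.exp_le_exp.2 (by linarith)
  have h5 : ∑ m ∈ range n, (-x) ^ m / (m.factorial : ℝ) = ∑ l ∈ range n, (-1 : ℝ) ^ l / l.factorial * x ^ l := by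
    refine Finset.sum_congr rfl fun l _ => ?_
    rw [neg_pow]
    ring
  rw [h5] at h2
  have h6 := (abs_le.1 h2).2
  linarith

end DP
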