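import Mathlib

/-!
# LEAF LA: the number of the vectors over the prime field which are killed by independent functionals

PROOF.  Let `W` be the `ZMod p`-subspace of `ι → ZMod p` of these vectors and `D` its dimension, so `Nat.card W = p ^ D` (`Module.card_eq_pow_finrank`).  A basis of `W` remains linearly independent over `Ω` (in `ι → Ω`; e.g. `LinearIndependent` of the rows of a matrix is preserved by a field extension: `D` independent rows over `ZMod p` have a `D × D` minor `≠ 0` / a left inverse matrix over `ZMod p`, which maps to a left inverse over `Ω`; or the map `ι → ZMod p` tensor `Ω`) and lies in the kernel `V` of the linear map `ψ : (ι → Ω) → (C → Ω)`, `w ↦ (∑ i, w i * v c i)_c`.  `ψ` is surjective by `hv` (for every `c0` a multiple of `Pi.single c0 1` is in the range), so `finrank V = card ι - card C` and `D + card C ≤ card ι`.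
-/

set_option autoImplicit false

namespace DP

open Finset

theorem card_ker {p : ℕ} [Fact p.Prime] {Ω : Type} [Field Ω] [Algebra (ZMod p) Ω] {ι C : Type} [Fintype ι] [Fintype C]
    (v : C → ι → Ω) (hv : ∀ c0, ∃ w : ι → Ω, ∑ i, w i * v c0 i ≠ 0 ∧ ∀ c, c ≠ c0 → ∑ i, w i * v c i = 0) :
    Nat.card {a : ι → ZMod p // ∀ c, ∑ i, algebraMap (ZMod p) Ω (a i) * v c i = 0} * p ^ Fintype.card C ≤
      p ^ Fintype.card ι := by
  classical
  let W : Submodule (ZMod p) (ι → ZMod p) :=
    { carrier := {a | ∀ c, ∑ i, algebraMap (ZMod p) Ω (a i) * v c i = 0}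
      add_mem' := by
        intro a b ha hb c
        have h1 : ∑ i, algebraMap (ZMod p) Ω ((a + b) i) * v c i =
            ∑ i, algebraMap (ZMod p) Ω (a i) * v c i + ∑ i, algebraMap (ZMod p) Ω (b i) * v c i := by
          rw [← Finset.sum_add_distrib]
          refine Finset.sum_congr rfl fun i _ => ?_
          rw [Pi.add_apply, map_add, add_mul]
        rw [h1, ha c, hb c, add_zero]
      zero_mem' := by
        intro c
        refine Finset.sum_eq_zero fun i _ => ?_
        rw [Pi.zero_apply, map_zero, zero_mul]
      smul_mem' := by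
        intro r a ha c
        have h1 : ∑ i, algebraMap (ZMod p) Ω ((r • a) i) * v c i =
            algebraMap (ZMod p) Ω r * ∑ i, algebraMap (ZMod p) Ω (a i) * v c i := by
          rw [Finset.mul_sum]
          refine Finset.sum_congr rfl fun i _ => ?_
          rw [Pi.smul_apply, smul_eq_mul, map_mul, mul_assoc]
        rw [h1, ha c, mul_zero] }
  have hmem : ∀ a, a ∈ W ↔ ∀ c, ∑ i, algebraMap (ZMod p) Ω (a i) * v c i = 0 := fun a => Iff.rfl
  let D := Module.finrank (ZMod p) W
  have hcard : Nat.card {a : ι → ZMod p // ∀ c, ∑ i, algebraMap (ZMod p) Ω (a i) * v c i = 0} = p ^ D := by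
    have h1 : Nat.card W = Nat.card (ZMod p) ^ Module.finrank (ZMod p) W :=
      Module.natCard_eq_pow_finrank (K := ZMod p) (V := W)
    rw [Nat.card_zmod] at h1
    exact h1
  let b := Module.finBasis (ZMod p) W
  let f : (Fin D → ZMod p) →ₗ[ZMod p] (ι → ZMod p) := W.subtype ∘ₗ (b.equivFun.symm : (Fin D → ZMod p) →ₗ[ZMod p] W)
  have hf : Function.Injective f := Subtype.val_injective.comp b.equivFun.symm.injective
  obtain ⟨g, hg⟩ := f.exists_leftInverse_of_injective (LinearMap.ker_eq_bot.2 hf)
  let m : Fin D → ι → ZMod p := fun j i => g (Pi.single i 1) j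
  let e : Fin D → ι → ZMod p := fun j => f (Pi.single j 1)
  have he : ∀ j, e j ∈ W := fun j => (b.equivFun.symm (Pi.single j 1)).2
  have hme : ∀ j j', ∑ i, m j i * e j' i = if j = j' then 1 else 0 := by
    intro j j'
    have h1 : g (e j') = Pi.single j' 1 := by
      have := LinearMap.congr_fun hg (Pi.single j' 1)
      exact this
    have h2 : e j' = ∑ i, e j' i • (Pi.single i (1 : ZMod p) : ι → ZMod p) := by
      funext i
      rw [Finset.sum_apply, Finset.sum_eq_single i]
      · simp
      · intro i' _ hne
        simp [hne.symm]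
      · intro h
        exact absurd (Finset.mem_univ i) h
    have h3 : g (e j') = ∑ i, e j' i • g (Pi.single i 1) := by
      conv_lhs => rw [h2]
      rw [map_sum]
      refine Finset.sum_congr rfl fun i _ => ?_
      rw [map_smul]
    have h4 := congrFun (h3.symm.trans h1) j
    rw [Finset.sum_apply] at h4
    rw [Pi.single_apply] at h4
    rw [← h4]
    refine Finset.sum_congr rfl fun i _ => ?_
    rw [Pi.smul_apply, smul_eq_mul, mul_comm]
  let ψ : (ι → Ω) →ₗ[Ω] (C → Ω) :=
    { toFun := fun w c => ∑ i, w i * v c i
      map_add' := by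
        intro w w'
        funext c
        show ∑ i, (w + w') i * v c i = ∑ i, w i * v c i + ∑ i, w' i * v c i
        rw [← Finset.sum_add_distrib]
        refine Finset.sum_congr rfl fun i _ => ?_
        rw [Pi.add_apply, add_mul]
      map_smul' := by
        intro r w
        funext c
        show ∑ i, (r • w) i * v c i = r • ∑ i, w i * v c i
        rw [Finset.smul_sum]
        refine Finset.sum_congr rfl fun i _ => ?_
        rw [Pi.smul_apply, smul_eq_mul, smul_eq_mul, mul_assoc] }
  have hψ : ∀ w c, ψ w c = ∑ i, w i * v c i := fun w c => rfl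
  have hsurj : LinearMap.range ψ = ⊤ := by
    rw [eq_top_iff]
    intro y _
    have h1 : ∀ c0, (Pi.single c0 (1 : Ω) : C → Ω) ∈ LinearMap.range ψ := by
      intro c0
      obtain ⟨w, hw0, hw⟩ := hv c0
      refine ⟨(∑ i, w i * v c0 i)⁻¹ • w, ?_⟩
      rw [map_smul]
      funext c
      rw [Pi.smul_apply, hψ, smul_eq_mul]
      by_cases hc : c = c0
      · subst hc
        rw [inv_mul_cancel₀ hw0, Pi.single_eq_same]
      · rw [hw c hc, mul_zero, Pi.single_eq_of_ne hc]
    have h2 : y = ∑ c, y c • (Pi.single c (1 : Ω) : C → Ω) := by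
      funext c
      rw [Finset.sum_apply, Finset.sum_eq_single c]
      · simp
      · intro c' _ hne
        simp [hne.symm]
      · intro h
        exact absurd (Finset.mem_univ c) h
    rw [h2]
    exact Submodule.sum_mem _ fun c _ => Submodule.smul_mem _ _ (h1 c)
  have hdim : Module.finrank Ω (LinearMap.ker ψ) + Fintype.card C = Fintype.card ι := by
    have h1 := LinearMap.finrank_range_add_finrank_ker ψ
    rw [hsurj, finrank_top, Module.finrank_fintype_fun_eq_card, Module.finrank_fintype_fun_eq_card] at h1
    omega
  let E : Fin D → LinearMap.ker ψ := fun j => ⟨fun i => algebraMap (ZMod p) Ω (e j i), by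
    rw [LinearMap.mem_ker]
    funext c
    rw [hψ]
    exact (hmem _).1 (he j) c⟩
  have hE : LinearIndependent Ω E := by
    rw [Fintype.linearIndependent_iff]
    intro a ha j
    have h1 : ∀ i, ∑ j', a j' * algebraMap (ZMod p) Ω (e j' i) = 0 := by
      intro i
      have h2 := congrArg (fun x : LinearMap.ker ψ => (x : ι → Ω) i) ha
      simp only [Submodule.coe_sum, Submodule.coe_smul, Finset.sum_apply, Pi.smul_apply, smul_eq_mul,
        Submodule.coe_zero, Pi.zero_apply] at h2
      exact h2
    have h3 : ∑ i, algebraMap (ZMod p) Ω (m j i) * ∑ j', a j' * algebraMap (ZMod p) Ω (e j' i) = a j := by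
      have h4 : ∑ i, algebraMap (ZMod p) Ω (m j i) * ∑ j', a j' * algebraMap (ZMod p) Ω (e j' i) =
          ∑ j', a j' * algebraMap (ZMod p) Ω (∑ i, m j i * e j' i) := by
        simp only [Finset.mul_sum, map_sum, map_mul]
        rw [Finset.sum_comm]
        refine Finset.sum_congr rfl fun j' _ => Finset.sum_congr rfl fun i _ => ?_
        ring
      rw [h4, Finset.sum_eq_single j]
      · rw [hme, if_pos rfl, map_one, mul_one]
      · intro j' _ hne
        rw [hme, if_neg hne.symm, map_zero, mul_zero]
      · intro h
        exact absurd (Finset.mem_univ j) h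
    rw [← h3]
    refine Finset.sum_eq_zero fun i _ => ?_
    rw [h1 i, mul_zero]
  have hle : D ≤ Module.finrank Ω (LinearMap.ker ψ) := by
    have h1 := hE.fintype_card_le_finrank
    rwa [Fintype.card_fin] at h1
  rw [hcard, ← pow_add]
  refine Nat.pow_le_pow_right (Nat.Prime.pos Fact.out) ?_
  omega

end DP
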