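import Pool.Agent.Lib.MP_17a322_ntDP.SE
import Pool.Agent.Lib.MP_17a322_ntDP.LA

/-!
# LEAF LB: the number of the coefficients of sections which vanish at given points

PROOF.  (1) The map `c ↦ a`, `a x = ∑ i, c (x, i) * w i`, from `(X × Fin e → ZMod p)` to `(X → ZMod p)`, `X = IxM ι M ν d`, is linear and surjective (`hw`), so every fibre has `p ^ (card X * e - card X)` elements (cardinality of a kernel: `Nat.card` of the domain `=` range `*` kernel); the number of the `c` with a property of `a` is this number times the number of the `a`.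
(2) The `a : IxM .. → ZMod p` are the families `(a_j)_j`, `a_j : Mo M (ν j) × IxT ι (d j) → ZMod p` (`IxM` is a sigma type: `Equiv.piCurry`), and the condition is a condition on each `a_j` separately: `sM E (em ∘ a) (t c) (P c) (y c) j = ∑ x, em p (a_j x) * (mo (y c) x.1 * bT (E j) (t c) (P c) x.2)`.  `Nat.card` of a product of subtypes is the product.  For each `j`: `card_ker` with `v c x = mo (y c) x.1 * bT (E j) (t c) (P c) x.2`, `hv` by `sep_all`.
-/

set_option autoImplicit false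

namespace DP

open Finset NumberField LVH VK FB

/-- the kernel of the linear map -/
private abbrev LB_Ker {p : ℕ} {X : Type} {e : ℕ} (w : Fin e → ZMod p) : Type :=
  {c : X × Fin e → ZMod p // ∀ x, ∑ i, c (x, i) * w i = 0}

/-- the fibres of the linear map `c ↦ (x ↦ ∑ i, c (x, i) * w i)` have the same cardinality -/
private theorem LB_equiv {p : ℕ} [Fact p.Prime] {X : Type} {e : ℕ} (w : Fin e → ZMod p) (hw : w ≠ 0)
    (Q : (X → ZMod p) → Prop) :
    Nat.card {c : X × Fin e → ZMod p // Q (fun x => ∑ i, c (x, i) * w i)} =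
      Nat.card {a : X → ZMod p // Q a} * Nat.card (LB_Ker (X := X) w) := by
  obtain ⟨i0, hi0⟩ : ∃ i, w i ≠ 0 := by
    by_contra h
    push Not at h
    exact hw (funext h)
  have hs : ∀ (a : X → ZMod p) (x : X),
      ∑ i, (if i = i0 then a x * (w i0)⁻¹ else 0) * w i = a x := by
    intro a x
    simp only [ite_mul, zero_mul, Finset.sum_ite_eq', Finset.mem_univ, if_true]
    rw [mul_assoc, inv_mul_cancel₀ hi0, mul_one]
  rw [← Nat.card_prod]
  refine Nat.card_congr
    { toFun := fun c => (⟨fun x => ∑ i, c.1 (x, i) * w i, c.2⟩,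
        ⟨fun z => c.1 z - (if z.2 = i0 then (∑ i, c.1 (z.1, i) * w i) * (w i0)⁻¹ else 0), fun x => ?_⟩)
      invFun := fun b => ⟨fun z => (if z.2 = i0 then b.1.1 z.1 * (w i0)⁻¹ else 0) + b.2.1 z, ?_⟩
      left_inv := fun c => ?_
      right_inv := fun b => ?_ }
  · simp only [sub_mul, Finset.sum_sub_distrib]
    rw [hs (fun x => ∑ i, c.1 (x, i) * w i) x, sub_self]
  · have h : (fun x => ∑ i, ((if i = i0 then b.1.1 x * (w i0)⁻¹ else 0) + b.2.1 (x, i)) * w i) = b.1.1 := by
      funext x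
      simp only [add_mul, Finset.sum_add_distrib]
      rw [hs b.1.1 x, b.2.2 x, add_zero]
    show Q (fun x => ∑ i, ((if i = i0 then b.1.1 x * (w i0)⁻¹ else 0) + b.2.1 (x, i)) * w i)
    rw [h]
    exact b.1.2
  · apply Subtype.ext
    funext z
    simp
  · have h : (fun x => ∑ i, ((if i = i0 then b.1.1 x * (w i0)⁻¹ else 0) + b.2.1 (x, i)) * w i) = b.1.1 := by
      funext x
      simp only [add_mul, Finset.sum_add_distrib]
      rw [hs b.1.1 x, b.2.2 x, add_zero]
    apply Prod.ext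
    · apply Subtype.ext
      exact h
    · apply Subtype.ext
      funext z
      have h1 := congrFun h z.1
      simp only at h1 ⊢
      rw [h1]
      ring


private theorem LB_one {p : ℕ} [Fact p.Prime] {T C : Type} [Fintype T] [Fintype C] (v : C → T → Om p)
    (hv : ∀ c0, ∃ w : T → Om p, ∑ i, w i * v c0 i ≠ 0 ∧ ∀ c, c ≠ c0 → ∑ i, w i * v c i = 0) :
    Nat.card {a : T → ZMod p // ∀ c, ∑ i, em p (a i) * v c i = 0} * p ^ Fintype.card C ≤
      p ^ Fintype.card T := by
  exact card_ker v hv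

private theorem LB_two {p : ℕ} [Fact p.Prime] {n q M s k : ℕ} {ι : Type} [Fintype ι] (α β : Fin q → Om p)
    (ν : Fin s → ℕ) (d : Fin s → Fin q → ℕ) (E : Fin s → ι → Fin n → ℤ) (hE : ∀ j, Rich k (E j))
    (hd : ∀ j l, 2 * (k - 1) ≤ d j l) (hν : ∀ j, k - 1 ≤ ν j ∨ M = 0) {C : Type} [Fintype C]
    (hC : Fintype.card C ≤ k) (t : C → Fin n → Om p) (P : C → Fin q → Option (Om p × Om p))
    (y : C → Fin (M + 1) → Om p) (ht : ∀ c l, t c l ≠ 0) (hP : ∀ c l, IsPt (α l) (β l) (P c l)) (hy : ∀ c, Nrm (y c))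
    (hinj : Function.Injective fun c => (t c, P c, y c)) (j : Fin s)
    (v : C → MWS.Mo M (ν j) × IxT ι (d j) → Om p)
    (hvd : v = fun c x => MWS.mo (y c) x.1 * bT (E j) (t c) (P c) x.2) :
    Nat.card {a : MWS.Mo M (ν j) × IxT ι (d j) → ZMod p // ∀ c : C,
          ∑ x, em p (a x) * v c x = 0} * p ^ Fintype.card C ≤
      p ^ Fintype.card (MWS.Mo M (ν j) × IxT ι (d j)) := by
  have hv : ∀ c0 : C, ∃ w : MWS.Mo M (ν j) × IxT ι (d j) → Om p,
      ∑ x, w x * v c0 x ≠ 0 ∧
      ∀ c, c ≠ c0 → ∑ x, w x * v c x = 0 := fun c0 => by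
    rw [hvd]
    exact sep_all α β (E j) (hE j) (hd j) (hν j) hC t P y ht hP hy hinj c0
  have h := LB_one v hv
  exact h

private theorem LB_key {p : ℕ} [Fact p.Prime] {n q M s k : ℕ} {ι : Type} [Fintype ι] (α β : Fin q → Om p)
    (ν : Fin s → ℕ) (d : Fin s → Fin q → ℕ) (E : Fin s → ι → Fin n → ℤ) (hE : ∀ j, Rich k (E j))
    (hd : ∀ j l, 2 * (k - 1) ≤ d j l) (hν : ∀ j, k - 1 ≤ ν j ∨ M = 0) {C : Type} [Fintype C]
    (hC : Fintype.card C ≤ k) (t : C → Fin n → Om p) (P : C → Fin q → Option (Om p × Om p))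
    (y : C → Fin (M + 1) → Om p) (ht : ∀ c l, t c l ≠ 0) (hP : ∀ c l, IsPt (α l) (β l) (P c l)) (hy : ∀ c, Nrm (y c))
    (hinj : Function.Injective fun c => (t c, P c, y c)) :
    Nat.card {a : IxM ι M ν d → ZMod p // ∀ (i : C) (j : Fin s),
      sM E (fun x => em p (a x)) (t i) (P i) (y i) j = 0} * p ^ (s * Fintype.card C) ≤
      p ^ Fintype.card (IxM ι M ν d) := by
  obtain ⟨v, hv⟩ : ∃ v : (j : Fin s) → C → MWS.Mo M (ν j) × IxT ι (d j) → Om p,
      ∀ j, v j = fun c x => MWS.mo (y c) x.1 * bT (E j) (t c) (P c) x.2 := ⟨_, fun _ => rfl⟩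
  have hs : ∀ (a : IxM ι M ν d → ZMod p) (c : C) (j : Fin s),
      sM E (fun x => em p (a x)) (t c) (P c) (y c) j = ∑ x, em p (a ⟨j, x⟩) * v j c x := by
    intro a c j
    rw [hv j]
    rfl
  simp only [hs]
  have h1 : Nat.card {a : IxM ι M ν d → ZMod p // ∀ (c : C) (j : Fin s),
      ∑ x, em p (a ⟨j, x⟩) * v j c x = 0} =
      ∏ j : Fin s, Nat.card {a : MWS.Mo M (ν j) × IxT ι (d j) → ZMod p // ∀ c : C,
        ∑ x, em p (a x) * v j c x = 0} := by
    rw [← Nat.card_pi]
    exact Nat.card_congr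
      { toFun := fun a j => ⟨fun x => a.1 ⟨j, x⟩, fun c => a.2 c j⟩
        invFun := fun b => ⟨fun x => (b x.1).1 x.2, fun c j => (b j).2 c⟩
        left_inv := fun a => rfl
        right_inv := fun b => rfl }
  rw [h1, Fintype.card_sigma, ← Finset.prod_pow_eq_pow_sum]
  have h2 : p ^ (s * Fintype.card C) = ∏ _j : Fin s, p ^ Fintype.card C := by
    rw [Finset.prod_const, Finset.card_univ, Fintype.card_fin, ← pow_mul, mul_comm]
  rw [h2, ← Finset.prod_mul_distrib]
  refine Finset.prod_le_prod' fun j _ => ?_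
  exact LB_two α β ν d E hE hd hν hC t P y ht hP hy hinj j (v j) (hv j)

theorem card_all {p : ℕ} [Fact p.Prime] {n q M s e k : ℕ} {ι : Type} [Fintype ι] (α β : Fin q → Om p)
    (ν : Fin s → ℕ) (d : Fin s → Fin q → ℕ) (E : Fin s → ι → Fin n → ℤ) (hE : ∀ j, Rich k (E j))
    (hd : ∀ j l, 2 * (k - 1) ≤ d j l) (hν : ∀ j, k - 1 ≤ ν j ∨ M = 0) {C : Type} [Fintype C]
    (hC : Fintype.card C ≤ k) (t : C → Fin n → Om p) (P : C → Fin q → Option (Om p × Om p))
    (y : C → Fin (M + 1) → Om p) (ht : ∀ c l, t c l ≠ 0) (hP : ∀ c l, IsPt (α l) (β l) (P c l)) (hy : ∀ c, Nrm (y c))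
    (hinj : Function.Injective fun c => (t c, P c, y c)) (w : Fin e → ZMod p) (hw : w ≠ 0) :
    Nat.card {c : IxM ι M ν d × Fin e → ZMod p // ∀ (i : C) (j : Fin s),
      sM E (fun x => em p (∑ i, c (x, i) * w i)) (t i) (P i) (y i) j = 0} * p ^ (s * Fintype.card C) ≤
      p ^ Fintype.card (IxM ι M ν d × Fin e) := by
  classical
  have key := LB_key α β ν d E hE hd hν hC t P y ht hP hy hinj
  have hA := LB_equiv (X := IxM ι M ν d) w hw (fun a => ∀ (i : C) (j : Fin s),
      sM E (fun x => em p (a x)) (t i) (P i) (y i) j = 0)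
  have hB := LB_equiv (X := IxM ι M ν d) w hw (fun _ => True)
  have hC1 : Nat.card {c : IxM ι M ν d × Fin e → ZMod p // True} = p ^ Fintype.card (IxM ι M ν d × Fin e) := by
    rw [Nat.card_congr (Equiv.subtypeUnivEquiv fun _ => trivial), Nat.card_eq_fintype_card, Fintype.card_fun,
      ZMod.card]
  have hC2 : Nat.card {a : IxM ι M ν d → ZMod p // True} = p ^ Fintype.card (IxM ι M ν d) := by
    rw [Nat.card_congr (Equiv.subtypeUnivEquiv fun _ => trivial), Nat.card_eq_fintype_card, Fintype.card_fun,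
      ZMod.card]
  rw [hC1, hC2] at hB
  rw [hB]
  calc _ = Nat.card {a : IxM ι M ν d → ZMod p // ∀ (i : C) (j : Fin s),
      sM E (fun x => em p (a x)) (t i) (P i) (y i) j = 0} * Nat.card (LB_Ker (X := IxM ι M ν d) w) *
        p ^ (s * Fintype.card C) := by rw [← hA]
    _ = Nat.card {a : IxM ι M ν d → ZMod p // ∀ (i : C) (j : Fin s),
      sM E (fun x => em p (a x)) (t i) (P i) (y i) j = 0} * p ^ (s * Fintype.card C) *
        Nat.card (LB_Ker (X := IxM ι M ν d) w) := by ring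
    _ ≤ _ := Nat.mul_le_mul_right _ key

end DP
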