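import Pool.Agent.Lib.MP_17a322_ntDP.Defs3
import Pool.Agent.Lib.MP_17a322_ntDP.LB

/-!
# LEAF VA: the number of the coefficients of sections with given values at given points

PROOF.  For a fixed family `z j : C → Om p` of values (`j ∈ V`, and `0` for `j ∉ V`) the set of the `c` with these values is empty or a translate of the set of `card_all` (the values are additive in `c`: `sM` is linear in the coefficients), so it has at most `Nat.card` of that set elements, and `card_all` bounds this.  The number of the families is `∏ j ∈ V, (Z j).card` (`Fintype.piFinset` over the subtype, or over all `j` with `{0}` for `j ∉ V`).  `Nat.card {..} ≤ ∑ over the families` (`Nat.card_le_card_of_injective` into a sigma type, or `Set.ncard` of a union).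
-/

set_option autoImplicit false

namespace DP

open Finset NumberField LVH VK FB

open Classical in
private theorem VA_fib {A B : Type} [AddCommGroup A] [Fintype A] (Q Q0 : A → Prop) (g : A → B) (F : Finset B)
    (h1 : ∀ a, Q a → g a ∈ F) (h2 : ∀ a b, g a = g b → Q0 (a - b)) :
    Nat.card {a : A // Q a} ≤ Nat.card {a : A // Q0 a} * F.card := by
  have h0 : ∀ Q : A → Prop, Nat.card {a : A // Q a} = (Finset.univ.filter Q).card := by
    intro Q
    rw [Nat.card_eq_fintype_card, Fintype.card_subtype]
  rw [h0, h0]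
  refine Finset.card_le_mul_card_image_of_maps_to (f := g) ?_ _ ?_
  · intro a ha
    rw [Finset.mem_filter] at ha
    exact h1 a ha.2
  · intro b _
    rcases Finset.eq_empty_or_nonempty ((Finset.univ.filter Q).filter fun a => g a = b) with h | ⟨a0, ha0⟩
    · rw [h, Finset.card_empty]
      exact Nat.zero_le _
    · rw [Finset.mem_filter] at ha0
      refine Finset.card_le_card_of_injOn (fun a => a - a0) ?_ ?_
      · intro a ha
        rw [Finset.mem_coe, Finset.mem_filter] at ha
        rw [Finset.mem_coe, Finset.mem_filter]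
        exact ⟨Finset.mem_univ _, h2 a a0 (ha.2.trans ha0.2.symm)⟩
      · intro a _ a' _ h3
        exact sub_left_injective h3

open Classical in
private theorem VA_abs {A W J : Type} [AddCommGroup A] [Fintype A] [AddCommGroup W] [Fintype J] (φ : J → A → W)
    (hφ : ∀ j a b, φ j (a - b) = φ j a - φ j b) (V : Finset J) (Z : J → Finset W) :
    Nat.card {a : A // (∀ j ∉ V, φ j a = 0) ∧ ∀ j ∈ V, φ j a ∈ Z j} ≤
      Nat.card {a : A // ∀ j, φ j a = 0} * ∏ j ∈ V, (Z j).card := by
  have h1 : (Fintype.piFinset fun j => if j ∈ V then Z j else {0}).card = ∏ j ∈ V, (Z j).card := by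
    rw [Fintype.card_piFinset]
    have h2 : ∀ j, (if j ∈ V then Z j else {0} : Finset W).card = if j ∈ V then (Z j).card else 1 := by
      intro j
      split_ifs
      · rfl
      · exact Finset.card_singleton _
    simp only [h2]
    rw [Finset.prod_ite_mem, Finset.univ_inter]
  rw [← h1]
  refine VA_fib _ _ (fun a j => φ j a) _ ?_ ?_
  · intro a ha
    rw [Fintype.mem_piFinset]
    intro j
    by_cases hj : j ∈ V
    · rw [if_pos hj]
      exact ha.2 j hj
    · rw [if_neg hj, Finset.mem_singleton]
      exact ha.1 j hj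
  · intro a b hab j
    rw [hφ, congrFun hab j, sub_self]

open Classical in
theorem card_val {p : ℕ} [Fact p.Prime] {n q M s e k : ℕ} {ι : Type} [Fintype ι] (α β : Fin q → Om p)
    (ν : Fin s → ℕ) (d : Fin s → Fin q → ℕ) (E : Fin s → ι → Fin n → ℤ) (hE : ∀ j, Rich k (E j))
    (hd : ∀ j l, 2 * (k - 1) ≤ d j l) (hν : ∀ j, k - 1 ≤ ν j ∨ M = 0) {C : Type} [Fintype C]
    (hC : Fintype.card C ≤ k) (t : C → Fin n → Om p) (P : C → Fin q → Option (Om p × Om p))
    (y : C → Fin (M + 1) → Om p) (ht : ∀ c l, t c l ≠ 0) (hP : ∀ c l, IsPt (α l) (β l) (P c l)) (hy : ∀ c, Nrm (y c))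
    (hinj : Function.Injective fun c => (t c, P c, y c)) (w : Fin e → ZMod p) (hw : w ≠ 0) (V : Finset (Fin s))
    (Z : Fin s → Finset (C → Om p)) :
    Nat.card {c : IxM ι M ν d × Fin e → ZMod p //
      (∀ j ∉ V, ∀ i : C, sM E (fun x => em p (∑ i, c (x, i) * w i)) (t i) (P i) (y i) j = 0) ∧
      ∀ j ∈ V, (fun i : C => sM E (fun x => em p (∑ i, c (x, i) * w i)) (t i) (P i) (y i) j) ∈ Z j} *
        p ^ (s * Fintype.card C) ≤ (∏ j ∈ V, (Z j).card) * p ^ Fintype.card (IxM ι M ν d × Fin e) := by
  have hs : ∀ (j : Fin s) (a b : IxM ι M ν d × Fin e → ZMod p) (i : C),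
      sM E (fun x => em p (∑ i, (a - b) (x, i) * w i)) (t i) (P i) (y i) j =
        sM E (fun x => em p (∑ i, a (x, i) * w i)) (t i) (P i) (y i) j -
          sM E (fun x => em p (∑ i, b (x, i) * w i)) (t i) (P i) (y i) j := by
    intro j a b i
    unfold sM
    rw [← Finset.sum_sub_distrib]
    refine Finset.sum_congr rfl fun x _ => ?_
    rw [← sub_mul, ← map_sub, ← Finset.sum_sub_distrib]
    simp only [Pi.sub_apply, sub_mul]
  have h1 := VA_abs (fun (j : Fin s) (a : IxM ι M ν d × Fin e → ZMod p) (i : C) =>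
    sM E (fun x => em p (∑ i, a (x, i) * w i)) (t i) (P i) (y i) j)
    (fun j a b => funext fun i => hs j a b i) V Z
  have h2 := card_all α β ν d E hE hd hν hC t P y ht hP hy hinj w hw
  have h3 : Nat.card {c : IxM ι M ν d × Fin e → ZMod p //
      (∀ j ∉ V, ∀ i : C, sM E (fun x => em p (∑ i, c (x, i) * w i)) (t i) (P i) (y i) j = 0) ∧
      ∀ j ∈ V, (fun i : C => sM E (fun x => em p (∑ i, c (x, i) * w i)) (t i) (P i) (y i) j) ∈ Z j} ≤
      Nat.card {c : IxM ι M ν d × Fin e → ZMod p // ∀ (i : C) (j : Fin s),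
        sM E (fun x => em p (∑ i, c (x, i) * w i)) (t i) (P i) (y i) j = 0} * ∏ j ∈ V, (Z j).card := by
    refine le_trans (le_of_eq ?_) (h1.trans (Nat.mul_le_mul_right _ (le_of_eq ?_)))
    · refine Nat.card_congr (Equiv.subtypeEquivRight fun c => ?_)
      refine and_congr (forall_congr' fun j => forall_congr' fun _ => ?_) Iff.rfl
      exact ⟨fun h => funext h, fun h i => congrFun h i⟩
    · refine Nat.card_congr (Equiv.subtypeEquivRight fun c => ?_)
      exact ⟨fun h i j => congrFun (h j) i, fun h j => funext fun i => h i j⟩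
  calc _ ≤ (Nat.card {c : IxM ι M ν d × Fin e → ZMod p // ∀ (i : C) (j : Fin s),
        sM E (fun x => em p (∑ i, c (x, i) * w i)) (t i) (P i) (y i) j = 0} * ∏ j ∈ V, (Z j).card) *
          p ^ (s * Fintype.card C) := Nat.mul_le_mul_right _ h3
    _ = (∏ j ∈ V, (Z j).card) * (Nat.card {c : IxM ι M ν d × Fin e → ZMod p // ∀ (i : C) (j : Fin s),
        sM E (fun x => em p (∑ i, c (x, i) * w i)) (t i) (P i) (y i) j = 0} * p ^ (s * Fintype.card C)) := by
      ring
    _ ≤ _ := Nat.mul_le_mul_left _ h2

end DP
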