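import Pool.Agent.Lib.MP_17a322_ntDP.HB
import Pool.Agent.Lib.MP_17a322_ntDP.VA
import Pool.Agent.Lib.MP_17a322_ntDP.AS

/-!
# LEAF IB_: the values of the sections at distinct points are equidistributed

PROOF.  Let `m = U.card`, `Ω = IxM ι M ν d × Fin e → ZMod p`, `Q = Nat.card Ω = p ^ Fintype.card (IxM ι M ν d × Fin e)`.  For `g` with `g j ∈ Fn p (stp Φ) U` for all `j` let `#g = Nat.card {a | ∀ j, rs U (evX E v a j) = g j}`.  `card_val` (leaf VA) with `C = {x // x ∈ U}` (`Fintype`, card `m ≤ N0`; `t, P, y` the components of the point, `opP`; `isPt_opP`; `hinj`: `opP_inj`, `Prod.ext`), `V = univ`, `Z j = {the restriction of g j}`: `#g * p ^ (s * m) ≤ Q`.  The sum of the `#g` over all such `g` is `Q`, because `rs U (evX E v a j)` is in `Fn p (stp Φ) U` for every `a` (`evX E v a j (stp Φ x) = evX E v a j x ^ p`: `ev_fr` below, `sM_fr` of leaf AS and `hΦ`).  The number of the `g` is at most `(p ^ m) ^ s` (`fn_fin`), so `Q = ∑ #g ≤ (number of the g) * (Q /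 p ^ (s * m)) ≤ Q`, hence `#g * p ^ (s * m) = Q` for every `g` (otherwise the sum would be `< Q`; `Finset.sum_lt_sum` or: `∑ over g of (Q - #g * p ^ (s * m)) = (number) * Q - p ^ (s * m) * Q ≤ 0`).
-/

set_option autoImplicit false

namespace DP

open Finset NumberField LVH VK VU FB

open Classical in
theorem ev_fr {p : ℕ} [Fact p.Prime] {n q M s e : ℕ} {ι : Type} [Fintype ι] {α β : Fin q → ZMod p} {ν : Fin s → ℕ}
    {d : Fin s → Fin q → ℕ} {Φ : (l : Fin q) → Pt (em p (α l)) (em p (β l)) →+ Pt (em p (α l)) (em p (β l))}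
    (hΦ : IsFr p Φ) (E : Fin s → ι → Fin n → ℤ) (v : Fin e → ZMod p) (a : IxM ι M ν d × Fin e → ZMod p) (j : Fin s)
    (x : Xp p n M α β) : evX E v a j (stp Φ x) = evX E v a j x ^ p := by
  have h1 : (fun l => opP ((stp Φ x).2.1 l)) = fun l => frO p (opP (x.2.1 l)) := funext fun l => hΦ l (x.2.1 l)
  unfold evX
  rw [h1]
  exact sM_fr E (fun x => ∑ i, a (x, i) * v i) x.1 (fun l => opP (x.2.1 l)) x.2.2 j

/-- Equidistribution from an upper bound: `Ω` is the union of the fibres of `F`, at most `N` fibres, each of at most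
`Q / N` elements. -/
private theorem IB_abs {Ω G : Type} [Finite Ω] [Finite G] (F : Ω → G) (N : ℕ) (hG : Nat.card G ≤ N)
    (h : ∀ g, Nat.card {a : Ω // F a = g} * N ≤ Nat.card Ω) (g : G) :
    Nat.card {a : Ω // F a = g} * N = Nat.card Ω := by
  have := Fintype.ofFinite G
  have := Fintype.ofFinite Ω
  have h1 : ∑ g, Nat.card {a : Ω // F a = g} = Nat.card Ω := by
    rw [← Nat.card_sigma]
    exact Nat.card_congr (Equiv.sigmaFiberEquiv F)
  have h2 : ∑ g : G, Nat.card {a : Ω // F a = g} * N = Nat.card Ω * N := by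
    rw [← Finset.sum_mul, h1]
  have h3 : ∑ _g : G, Nat.card Ω ≤ Nat.card Ω * N := by
    rw [Finset.sum_const, Finset.card_univ, smul_eq_mul, ← Nat.card_eq_fintype_card, mul_comm]
    exact Nat.mul_le_mul_left _ hG
  have h4 : ∑ g : G, Nat.card {a : Ω // F a = g} * N = ∑ _g : G, Nat.card Ω :=
    le_antisymm (Finset.sum_le_sum fun g _ => h g) (by rw [h2]; exact h3)
  exact (Finset.sum_eq_sum_iff_of_le fun g _ => h g).1 h4 g (Finset.mem_univ g)

open Classical in
theorem st_eq {p : ℕ} [Fact p.Prime] {n q M s e N0 : ℕ} {ι : Type} [Fintype ι] {α β : Fin q → ZMod p} {ν : Fin s → ℕ}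
    {d : Fin s → Fin q → ℕ} {Φ : (l : Fin q) → Pt (em p (α l)) (em p (β l)) →+ Pt (em p (α l)) (em p (β l))}
    (hΦ : IsFr p Φ) (E : Fin s → ι → Fin n → ℤ) (hE : ∀ j, Rich N0 (E j)) (hd : ∀ j l, 2 * (N0 - 1) ≤ d j l)
    (hν : ∀ j, N0 - 1 ≤ ν j ∨ M = 0) (v : Fin e → ZMod p) (hv : v ≠ 0) (U : Finset (Xp p n M α β))
    (hU : ∀ x ∈ U, stp Φ x ∈ U ∧ (∀ l, x.1 l ≠ 0) ∧ Nrm x.2.2) (hc : U.card ≤ N0)
    (g : Fin s → Xp p n M α β → Om p) (hg : ∀ j, g j ∈ Fn p (stp Φ) U) :
    Nat.card {a : IxM ι M ν d × Fin e → ZMod p // ∀ j, rs U (evX E v a j) = g j} * p ^ (s * U.card) =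
      Nat.card (IxM ι M ν d × Fin e → ZMod p) := by
  have hU1 : ∀ x ∈ U, stp Φ x ∈ U := fun x hx => (hU x hx).1
  obtain ⟨hfin, hcard⟩ := fn_fin (p := p) (stp Φ : Xp p n M α β → Xp p n M α β) (stp_inj hΦ) U hU1
  have hm : ∀ (a : IxM ι M ν d × Fin e → ZMod p) (j : Fin s),
      (rs U (evX E v a j) : Xp p n M α β → Om p) ∈ Fn p (stp Φ) U := by
    intro a j
    refine ⟨fun x hx => if_neg hx, fun x hx => ?_⟩
    have e1 : rs U (evX E v a j) (stp Φ x) = evX E v a j (stp Φ x) := if_pos (hU1 x hx)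
    have e2 : rs U (evX E v a j) x = evX E v a j x := if_pos hx
    rw [e1, e2, ev_fr hΦ]
  have : Finite (Fin s → {g : Xp p n M α β → Om p // g ∈ Fn p (stp Φ) U}) := Pi.finite
  have hG : Nat.card (Fin s → {g : Xp p n M α β → Om p // g ∈ Fn p (stp Φ) U}) ≤ p ^ (s * U.card) := by
    rw [Nat.card_fun, Nat.card_eq_fintype_card (α := Fin s), Fintype.card_fin, mul_comm s, pow_mul]
    exact Nat.pow_le_pow_left hcard s
  have hval : ∀ g : Fin s → Xp p n M α β → Om p, Nat.card {a : IxM ι M ν d × Fin e → ZMod p //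
      ∀ j, rs U (evX E v a j) = g j} * p ^ (s * U.card) ≤ Nat.card (IxM ι M ν d × Fin e → ZMod p) := by
    intro g
    have h1 := card_val (k := N0) (C := {x // x ∈ U}) (fun l => em p (α l)) (fun l => em p (β l)) ν d E hE hd hν
      (by rw [Fintype.card_coe]; exact hc) (fun c => c.1.1) (fun c l => opP (c.1.2.1 l)) (fun c => c.1.2.2)
      (fun c l => (hU c.1 c.2).2.1 l) (fun c l => isPt_opP _) (fun c => (hU c.1 c.2).2.2) (by
        intro c c' h
        have h2 : c.1.1 = c'.1.1 := congrArg (fun w : (Fin n → Om p) × (Fin q → Option (Om p × Om p)) × (Fin (M + 1) → Om p) => w.1) h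
        have h3 : (fun l => opP (c.1.2.1 l)) = fun l => opP (c'.1.2.1 l) :=
          congrArg (fun w : (Fin n → Om p) × (Fin q → Option (Om p × Om p)) × (Fin (M + 1) → Om p) => w.2.1) h
        have h4 : c.1.2.2 = c'.1.2.2 := congrArg (fun w : (Fin n → Om p) × (Fin q → Option (Om p × Om p)) × (Fin (M + 1) → Om p) => w.2.2) h
        exact Subtype.ext (Prod.ext h2 (Prod.ext (funext fun l => opP_inj (congrFun h3 l)) h4))) v hv Finset.univ
      (fun j => {fun c => g j c.1})
    rw [Fintype.card_coe] at h1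
    have h2 : ∏ j ∈ (Finset.univ : Finset (Fin s)), (({fun c : {x // x ∈ U} => g j c.1} : Finset ({x // x ∈ U} → Om p))).card = 1 :=
      Finset.prod_eq_one fun j _ => Finset.card_singleton _
    rw [h2, one_mul] at h1
    have h3 : Nat.card (IxM ι M ν d × Fin e → ZMod p) = p ^ Fintype.card (IxM ι M ν d × Fin e) := by
      rw [Nat.card_fun, Nat.card_eq_fintype_card, Nat.card_eq_fintype_card, ZMod.card]
    rw [h3]
    refine le_trans (Nat.mul_le_mul_right _ ?_) h1
    refine Nat.card_le_card_of_injective (fun a => ⟨a.1, fun j hj => absurd (Finset.mem_univ j) hj, fun j _ => ?_⟩) ?_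
    · rw [Finset.mem_singleton]
      funext c
      have h5 := congrFun (a.2 j) c.1
      have h6 : rs U (evX E v a.1 j) c.1 = evX E v a.1 j c.1 := if_pos c.2
      rw [h6] at h5
      exact h5
    · intro a b hab
      have h7 := congrArg Subtype.val hab
      exact Subtype.ext h7
  have key := IB_abs (fun (a : IxM ι M ν d × Fin e → ZMod p) (j : Fin s) =>
    (⟨rs U (evX E v a j), hm a j⟩ : {g : Xp p n M α β → Om p // g ∈ Fn p (stp Φ) U})) (p ^ (s * U.card)) hG
    (fun g' => by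
      refine le_trans (le_of_eq ?_) (hval fun j => (g' j).1)
      congr 1
      refine Nat.card_congr (Equiv.subtypeEquivRight fun a => ?_)
      exact ⟨fun h j => congrArg Subtype.val (congrFun h j), fun h => funext fun j => Subtype.ext (h j)⟩)
    (fun j => ⟨g j, hg j⟩)
  rw [← key]
  congr 1
  refine Nat.card_congr (Equiv.subtypeEquivRight fun a => ?_)
  exact ⟨fun h => funext fun j => Subtype.ext (h j), fun h j => congrArg Subtype.val (congrFun h j)⟩

end DP
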