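import Pool.Agent.Lib.MP_17a322_ntDP.JDefs
import Pool.Agent.Lib.MP_17a322_ntDP.HB

/-!
# The values of the sections on disjoint sets of points are independent
-/

set_option autoImplicit false

namespace DW

open Finset NumberField LVH VK VU FB DP

private theorem JC_pos {X F : Type} [Zero F] {N : Finset X} (g : X → F) {x : X} (h : x ∈ N) : rs N g x = g x := by
  unfold rs
  exact if_pos h

private theorem JC_neg {X F : Type} [Zero F] {N : Finset X} (g : X → F) {x : X} (h : x ∉ N) : rs N g x = 0 := by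
  unfold rs
  exact if_neg h

/-- every compatible family of values is attained -/
private theorem JC_surj {p : ℕ} [Fact p.Prime] {X Ω A : Type} [AddCommGroup A] {s : ℕ} {S : Sys p X Ω A s}
    {k N0 D1 D2 ρ C C' : ℕ} (hS : S.Ok k N0 D1 D2 ρ C C') {U : Finset X} (hU : Stb S.f S.G U) (hc : U.card ≤ N0)
    (g : Fin s → X → Om p) (hg : ∀ j, g j ∈ Fn p S.f U) : ∃ a, ∀ j, rs U (S.ev a j) = g j := by
  have h1 := hS.eq U hU hc g hg
  have := hS.fin
  have := hS.ne
  have h2 : Nat.card {a : Ω // ∀ j, rs U (S.ev a j) = g j} ≠ 0 := by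
    intro h3
    rw [h3, zero_mul] at h1
    exact Nat.card_pos.ne h1
  obtain ⟨a⟩ := (Nat.card_ne_zero.1 h2).1
  exact ⟨a.1, a.2⟩

/-- the values of the sections are compatible -/
private theorem JC_mem {p : ℕ} [Fact p.Prime] {X Ω A : Type} [AddCommGroup A] {s : ℕ} {S : Sys p X Ω A s}
    {k N0 D1 D2 ρ C C' : ℕ} (hS : S.Ok k N0 D1 D2 ρ C C') {U : Finset X} (hU : Stb S.f S.G U) (a : Ω) (j : Fin s) :
    rs U (S.ev a j) ∈ Fn p S.f U := by
  refine ⟨fun x hx => JC_neg _ hx, fun x hx => ?_⟩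
  rw [JC_pos _ hx, JC_pos _ (hU x hx).1]
  exact hS.fr a j x

open Classical in
private theorem JC_card {p : ℕ} [Fact p.Prime] {X Ω A : Type} [AddCommGroup A] {s : ℕ} {S : Sys p X Ω A s}
    {k N0 D1 D2 ρ C C' : ℕ} (hS : S.Ok k N0 D1 D2 ρ C C') [Fintype Ω] {U : Finset X} (hU : Stb S.f S.G U)
    (hc : U.card ≤ N0) {B : Ω → Prop} (hB : S.Dp U B) :
    (univ.filter B).card * p ^ (s * U.card) =
      ((univ.filter B).image fun a j => rs U (S.ev a j)).card * Nat.card Ω := by
  rw [Finset.card_eq_sum_card_image (fun a j => rs U (S.ev a j)) (univ.filter B), Finset.sum_mul,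
    ← smul_eq_mul (a := Finset.card _), ← Finset.sum_const]
  refine Finset.sum_congr rfl fun g hg => ?_
  obtain ⟨a₀, ha₀, rfl⟩ := mem_image.1 hg
  have hBa : B a₀ := (mem_filter.1 ha₀).2
  rw [← hS.eq U hU hc (fun j => rs U (S.ev a₀ j)) fun j => JC_mem hS hU a₀ j, Nat.card_eq_fintype_card,
    Fintype.card_subtype]
  congr 2
  ext a
  rw [mem_filter, mem_filter, mem_filter]
  constructor
  · rintro ⟨-, h⟩
    exact ⟨mem_univ _, fun j => congrFun h j⟩
  · rintro ⟨-, h⟩
    refine ⟨⟨mem_univ _, (hB a a₀ fun j x hx => ?_).2 hBa⟩, funext h⟩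
    have h1 := congrFun (h j) x
    rwa [JC_pos _ hx, JC_pos _ hx] at h1

open Classical in
private theorem JC_prod {p : ℕ} [Fact p.Prime] {X Ω A : Type} [AddCommGroup A] {s : ℕ} {S : Sys p X Ω A s}
    {k N0 D1 D2 ρ C C' : ℕ} (hS : S.Ok k N0 D1 D2 ρ C C') [Fintype Ω] {U U' : Finset X}
    (hU : Stb S.f S.G U) (hU' : Stb S.f S.G U') (hd : Disjoint U U') (hc : U.card + U'.card ≤ N0) {B B' : Ω → Prop}
    (hB : S.Dp U B) (hB' : S.Dp U' B') {BB : Ω → Prop} (hBB : ∀ a, BB a ↔ B a ∧ B' a) :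
    ((univ.filter BB).image fun a j => rs (U ∪ U') (S.ev a j)).card =
      ((univ.filter B).image fun a j => rs U (S.ev a j)).card *
        ((univ.filter B').image fun a j => rs U' (S.ev a j)).card := by
  rw [← card_product]
  have hUU : Stb S.f S.G (U ∪ U') := fun x hx => by
    rcases mem_union.1 hx with h | h
    · exact ⟨mem_union_left _ (hU x h).1, (hU x h).2⟩
    · exact ⟨mem_union_right _ (hU' x h).1, (hU' x h).2⟩
  have hcc : (U ∪ U').card ≤ N0 := by rwa [card_union_of_disjoint hd]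
  have r1 : ∀ g : X → Om p, rs U (rs (U ∪ U') g) = rs U g := fun g => by
    funext x
    by_cases hx : x ∈ U
    · rw [JC_pos _ hx, JC_pos _ hx, JC_pos _ (mem_union_left _ hx)]
    · rw [JC_neg _ hx, JC_neg _ hx]
  have r2 : ∀ g : X → Om p, rs U' (rs (U ∪ U') g) = rs U' g := fun g => by
    funext x
    by_cases hx : x ∈ U'
    · rw [JC_pos _ hx, JC_pos _ hx, JC_pos _ (mem_union_right _ hx)]
    · rw [JC_neg _ hx, JC_neg _ hx]
  refine card_bij (fun h _ => (fun j => rs U (h j), fun j => rs U' (h j))) ?_ ?_ ?_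
  · intro h hh
    obtain ⟨a, ha, rfl⟩ := mem_image.1 hh
    obtain ⟨hBa, hBa'⟩ := (hBB a).1 (mem_filter.1 ha).2
    rw [mem_product]
    refine ⟨mem_image.2 ⟨a, mem_filter.2 ⟨mem_univ _, hBa⟩, ?_⟩, mem_image.2 ⟨a, mem_filter.2 ⟨mem_univ _, hBa'⟩, ?_⟩⟩
    · funext j
      exact (r1 _).symm
    · funext j
      exact (r2 _).symm
  · intro h hh h' hh' he
    obtain ⟨a, ha, rfl⟩ := mem_image.1 hh
    obtain ⟨a', ha', rfl⟩ := mem_image.1 hh'
    obtain ⟨e1, e2⟩ := Prod.mk.injEq .. ▸ he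
    funext j x
    have e3 := congrFun (congrFun e1 j) x
    have e4 := congrFun (congrFun e2 j) x
    by_cases hx : x ∈ U
    · rwa [JC_pos _ hx, JC_pos _ hx] at e3
    · by_cases hx' : x ∈ U'
      · rwa [JC_pos _ hx', JC_pos _ hx'] at e4
      · have h3 : x ∉ U ∪ U' := fun h4 => (mem_union.1 h4).elim hx hx'
        rw [JC_neg _ h3, JC_neg _ h3]
  · rintro ⟨g, g'⟩ hg
    obtain ⟨hg1, hg2⟩ := mem_product.1 hg
    obtain ⟨a, ha, rfl⟩ := mem_image.1 hg1
    obtain ⟨b, hb, rfl⟩ := mem_image.1 hg2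
    have hBa : B a := (mem_filter.1 ha).2
    have hBb : B' b := (mem_filter.1 hb).2
    obtain ⟨h, hh⟩ : ∃ h : Fin s → X → Om p, h = fun j x => if x ∈ U then S.ev a j x else if x ∈ U' then S.ev b j x else 0 :=
      ⟨_, rfl⟩
    have hdj : ∀ x, x ∈ U' → x ∉ U := fun x h1 h2 => disjoint_left.1 hd h2 h1
    have v1 : ∀ j x, x ∈ U → h j x = S.ev a j x := fun j x hx => by
      rw [hh]
      exact if_pos hx
    have v2 : ∀ j x, x ∈ U' → h j x = S.ev b j x := fun j x hx => by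
      rw [hh]
      exact (if_neg (hdj x hx)).trans (if_pos hx)
    have v3 : ∀ j x, x ∉ U → x ∉ U' → h j x = 0 := fun j x hx hx' => by
      rw [hh]
      exact (if_neg hx).trans (if_neg hx')
    obtain ⟨c, hc'⟩ := JC_surj hS hUU hcc h fun j => by
      refine ⟨fun x hx => v3 j x (fun h1 => hx (mem_union_left _ h1)) fun h1 => hx (mem_union_right _ h1), fun x hx => ?_⟩
      rcases mem_union.1 hx with h1 | h1
      · rw [v1 j x h1, v1 j _ (hU x h1).1]
        exact hS.fr a j x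
      · rw [v2 j x h1, v2 j _ (hU' x h1).1]
        exact hS.fr b j x
    have w1 : ∀ j, ∀ x ∈ U, S.ev c j x = S.ev a j x := fun j x hx => by
      have h1 := congrFun (hc' j) x
      rwa [JC_pos _ (mem_union_left _ hx), v1 j x hx] at h1
    have w2 : ∀ j, ∀ x ∈ U', S.ev c j x = S.ev b j x := fun j x hx => by
      have h1 := congrFun (hc' j) x
      rwa [JC_pos _ (mem_union_right _ hx), v2 j x hx] at h1
    refine ⟨fun j => rs (U ∪ U') (S.ev c j), mem_image.2 ⟨c, mem_filter.2 ⟨mem_univ _, (hBB c).2 ⟨(hB c a w1).2 hBa, (hB' c b w2).2 hBb⟩⟩, rfl⟩, ?_⟩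
    refine Prod.ext ?_ ?_
    · funext j
      refine (r1 _).trans ?_
      funext x
      show rs U (S.ev c j) x = rs U (S.ev a j) x
      by_cases hx : x ∈ U
      · rw [JC_pos _ hx, JC_pos _ hx, w1 j x hx]
      · rw [JC_neg _ hx, JC_neg _ hx]
    · funext j
      refine (r2 _).trans ?_
      funext x
      show rs U' (S.ev c j) x = rs U' (S.ev b j) x
      by_cases hx : x ∈ U'
      · rw [JC_pos _ hx, JC_pos _ hx, w2 j x hx]
      · rw [JC_neg _ hx, JC_neg _ hx]

open Classical in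
theorem sys_ind {p : ℕ} [Fact p.Prime] {X Ω A : Type} [AddCommGroup A] {s : ℕ} {S : Sys p X Ω A s}
    {k N0 D1 D2 ρ C C' : ℕ} (hS : S.Ok k N0 D1 D2 ρ C C') {U U' : Finset X}
    (hU : Stb S.f S.G U) (hU' : Stb S.f S.G U') (hd : Disjoint U U') (hc : U.card + U'.card ≤ N0) {B B' : Ω → Prop}
    (hB : S.Dp U B) (hB' : S.Dp U' B') : pr (fun a => B a ∧ B' a) = pr B * pr B' := by
  have := hS.fin
  have := hS.ne
  obtain ⟨iΩ⟩ := nonempty_fintype Ω
  have hUU : Stb S.f S.G (U ∪ U') := fun x hx => by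
    rcases mem_union.1 hx with h | h
    · exact ⟨mem_union_left _ (hU x h).1, (hU x h).2⟩
    · exact ⟨mem_union_right _ (hU' x h).1, (hU' x h).2⟩
  have hcc : (U ∪ U').card ≤ N0 := by rwa [card_union_of_disjoint hd]
  obtain ⟨BB, hBB⟩ : ∃ BB : Ω → Prop, BB = fun a => B a ∧ B' a := ⟨_, rfl⟩
  rw [← hBB]
  have h1 := JC_card hS hU (by omega) hB
  have h2 := JC_card hS hU' (by omega) hB'
  have hBB' : ∀ a, BB a ↔ B a ∧ B' a := fun a => by rw [hBB]
  have h3 := JC_card hS hUU hcc (B := BB) fun a b hab => (hBB' a).trans <| Iff.trans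
    (and_congr (hB a b fun j x hx => hab j x (mem_union_left _ hx)) (hB' a b fun j x hx => hab j x (mem_union_right _ hx))) (hBB' b).symm
  rw [JC_prod hS hU hU' hd hc hB hB' hBB', card_union_of_disjoint hd, Nat.mul_add, pow_add] at h3
  have hp : (p : ℝ) ≠ 0 := Nat.cast_ne_zero.2 (Fact.out : p.Prime).ne_zero
  have hN : (Nat.card Ω : ℝ) ≠ 0 := Nat.cast_ne_zero.2 Nat.card_pos.ne'
  have e : ∀ P : Ω → Prop, Nat.card {a // P a} = (univ.filter P).card := fun P => by
    rw [Nat.card_eq_fintype_card, Fintype.card_subtype]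
  unfold pr
  rw [e, e, e, div_mul_div_comm, div_eq_div_iff hN (mul_ne_zero hN hN)]
  have h1' : ((univ.filter B).card : ℝ) * (p : ℝ) ^ (s * U.card) =
      (((univ.filter B).image fun a j => rs U (S.ev a j)).card : ℝ) * Nat.card Ω := by exact_mod_cast h1
  have h2' : ((univ.filter B').card : ℝ) * (p : ℝ) ^ (s * U'.card) =
      (((univ.filter B').image fun a j => rs U' (S.ev a j)).card : ℝ) * Nat.card Ω := by exact_mod_cast h2
  have h3' : ((univ.filter BB).card : ℝ) * ((p : ℝ) ^ (s * U.card) * (p : ℝ) ^ (s * U'.card)) =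
      (((univ.filter B).image fun a j => rs U (S.ev a j)).card : ℝ) *
        (((univ.filter B').image fun a j => rs U' (S.ev a j)).card : ℝ) * Nat.card Ω := by exact_mod_cast h3
  have hq : (p : ℝ) ^ (s * U.card) * (p : ℝ) ^ (s * U'.card) ≠ 0 := mul_ne_zero (pow_ne_zero _ hp) (pow_ne_zero _ hp)
  refine mul_right_cancel₀ hq ?_
  calc ((univ.filter BB).card : ℝ) * ((Nat.card Ω : ℝ) * Nat.card Ω) *
        ((p : ℝ) ^ (s * U.card) * (p : ℝ) ^ (s * U'.card))
      = ((univ.filter BB).card : ℝ) * ((p : ℝ) ^ (s * U.card) * (p : ℝ) ^ (s * U'.card)) *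
          ((Nat.card Ω : ℝ) * Nat.card Ω) := by ring
    _ = ((((univ.filter B).image fun a j => rs U (S.ev a j)).card : ℝ) * Nat.card Ω) *
        ((((univ.filter B').image fun a j => rs U' (S.ev a j)).card : ℝ) * Nat.card Ω) * Nat.card Ω := by
          rw [h3']
          ring
    _ = (((univ.filter B).card : ℝ) * (p : ℝ) ^ (s * U.card)) * (((univ.filter B').card : ℝ) * (p : ℝ) ^ (s * U'.card)) *
          Nat.card Ω := by rw [h1', h2']
    _ = ((univ.filter B).card : ℝ) * ((univ.filter B').card : ℝ) * Nat.card Ω *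
          ((p : ℝ) ^ (s * U.card) * (p : ℝ) ^ (s * U'.card)) := by ring

end DW
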