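import Pool.Agent.Lib.MP_17a322_ntDP.DefsH

/-!
# Points of bounded degree, the boundary case with fixed components: definitions
-/

set_option autoImplicit false

namespace DW

open Finset NumberField LVH VK FB DP

/-- `X` is a set of points, `f` is Frobenius, `G` the property to be a good point, `χ` the map to the group `A`, `ev a j x`
the value at `x` of the section of index `j` with the coefficients `a`, `V` the set of the indices of the sections of the
boundary, `Θ T` the set of the families of values which are allowed for the products of their values over `T` -/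
structure Sys (p : ℕ) [Fact p.Prime] (X Ω A : Type) (s : ℕ) where
  /-- Frobenius -/
  f : X → X
  /-- good points -/
  G : X → Prop
  /-- the map to the group -/
  χ : X → A
  /-- the values of the sections -/
  ev : Ω → Fin s → X → Om p
  /-- the sections of the boundary -/
  V : Finset (Fin s)
  /-- the families of values -/
  Θ : Finset X → Finset (Fin s → Om p)

/-- the sections of index not in `V` vanish on `T`, the products over `T` of the values of the other ones are a family of
`Θ T` -/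
def Sys.Ev {p : ℕ} [Fact p.Prime] {X Ω A : Type} {s : ℕ} (S : Sys p X Ω A s) (T : Finset X) (a : Ω) : Prop :=
  (∀ j ∉ S.V, ∀ x ∈ T, S.ev a j x = 0) ∧ ∃ θ ∈ S.Θ T, ∀ j ∈ S.V, ∏ x ∈ T, S.ev a j x = θ j

/-- the property `B` depends only on the values of the sections at the points in `U` -/
def Sys.Dp {p : ℕ} [Fact p.Prime] {X Ω A : Type} {s : ℕ} (S : Sys p X Ω A s) (U : Finset X) (B : Ω → Prop) : Prop :=
  ∀ a b, (∀ j, ∀ x ∈ U, S.ev a j x = S.ev b j x) → (B a ↔ B b)

/-- the finite sets of `k` good points, stable under `f`, of sum `z` -/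
def Sys.Tk {p : ℕ} [Fact p.Prime] {X Ω A : Type} [AddCommGroup A] {s : ℕ} (S : Sys p X Ω A s) (k : ℕ) (z : A)
    (T : Finset X) : Prop := Stb S.f S.G T ∧ T.card = k ∧ ∑ x ∈ T, S.χ x = z

open Classical in
/-- the hypotheses: the values at at most `N0` points are independent; the number of the pairs of a set `T` of `k` points
with `m` points outside of `U` and a family in `Θ T`; the families are few -/
structure Sys.Ok {p : ℕ} [Fact p.Prime] {X Ω A : Type} [AddCommGroup A] {s : ℕ} (S : Sys p X Ω A s)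
    (k N0 D1 D2 ρ C C' : ℕ) : Prop where
  fin : Finite Ω
  ne : Nonempty Ω
  inj : Function.Injective S.f
  fr : ∀ a j x, S.ev a j (S.f x) = S.ev a j x ^ p
  eq : ∀ U : Finset X, Stb S.f S.G U → U.card ≤ N0 → ∀ g : Fin s → X → Om p, (∀ j, g j ∈ Fn p S.f U) →
    Nat.card {a : Ω // ∀ j, rs U (S.ev a j) = g j} * p ^ (s * U.card) = Nat.card Ω
  tkf : ∀ z : A, {T : Finset X | S.Tk k z T}.Finite
  cnt : ∀ U : Finset X, Stb S.f S.G U → U.card ≤ N0 → ∀ (z : A) (𝒯 : Finset (Finset X)), (∀ T ∈ 𝒯, S.Tk k z T) →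
    ∀ m : ℕ, 1 ≤ m → m ≤ k → (∑ T ∈ 𝒯.filter (fun T => (T \ U).card = m), (S.Θ T).card) * p ^ (D1 + m) ≤
      2 ^ U.card * C * p ^ (m * D2 + ρ)
  cls : ∀ T : Finset X, ∀ θ ∈ S.Θ T, ∀ j ∈ S.V, θ j ≠ 0
  sml : ∀ (z : A) (T : Finset X), S.Tk k z T → (S.Θ T).card * p ^ (1 + k * S.V.card) ≤ C' * p ^ (s * k + S.V.card)
  nrm : ∀ N : Finset X, (∀ x ∈ N, S.f x ∈ N) → 1 ≤ N.card → N.card ≤ k → ∀ θ : Om p, θ ≠ 0 →
    Nat.card {g : X → Om p // g ∈ Fn p S.f N ∧ ∏ x ∈ N, g x = θ} * p ≤ C * p ^ N.card

end DW
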