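import Pool.Agent.Lib.MP_17a322_ntDP.JD
import Pool.Agent.Lib.MP_17a322_ntDP.HE

/-!
# One more set of points
-/

set_option autoImplicit false

namespace DW

open Finset NumberField LVH VK VU FB DP

private theorem JF_mono {Ω : Type} [Finite Ω] {B B' : Ω → Prop} (h : ∀ a, B a → B' a) : pr B ≤ pr B' := by
  unfold pr
  refine div_le_div_of_nonneg_right ?_ (Nat.cast_nonneg _)
  have h1 : Nat.card {a // B a} ≤ Nat.card {a // B' a} :=
    Nat.card_le_card_of_injective (fun a : {a // B a} => (⟨a.1, h _ a.2⟩ : {a // B' a}))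
      (fun a b hab => Subtype.ext (Subtype.mk.inj hab))
  exact_mod_cast h1

private theorem JF_nonneg {Ω : Type} (B : Ω → Prop) : 0 ≤ pr B := by
  unfold pr
  positivity

private theorem JF_arith {D1 D2 V s k m ρ : ℕ} (hE : k * (D2 + V) + ρ = D1 + V + k * (s + 1)) (hD : s + 2 ≤ D2 + V)
    (hmk : m ≤ k) : k - m + (m * D2 + (ρ + m * V)) ≤ s * m + V + (D1 + m) := by
  obtain ⟨e, he⟩ := Nat.exists_eq_add_of_le hD
  obtain ⟨t, rfl⟩ := Nat.exists_eq_add_of_le hmk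
  have h1 : (m + t) * (e + 1) + ρ = D1 + V := by
    have h2 : (m + t) * (s + 2 + e) = (m + t) * (s + 1) + (m + t) * (e + 1) := by ring
    rw [he, h2] at hE
    omega
  have h2 : m * D2 + m * V = m * (s + 1) + m * (e + 1) := by
    rw [← mul_add, he]
    ring
  have h3 : (m + t) * (e + 1) = m * (e + 1) + t * e + t := by ring
  have h4 : m * (s + 1) = s * m + m := by ring
  have h5 : m + t - m = t := by omega
  rw [h5]
  omega

open Classical in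
theorem sys_step {p : ℕ} [Fact p.Prime] {X Ω A : Type} [AddCommGroup A] {s : ℕ} {S : Sys p X Ω A s}
    {k N0 D1 D2 ρ C C' : ℕ} (hS : S.Ok k N0 D1 D2 ρ C C')
    (hE : k * (D2 + S.V.card) + ρ = D1 + S.V.card + k * (s + 1))
    (hD : s + 2 ≤ D2 + S.V.card) {U : Finset X} (hU : Stb S.f S.G U) (hc : U.card + k ≤ N0) {B : Ω → Prop} (hB : S.Dp U B) (z : A)
    (𝒯 : Finset (Finset X)) (h𝒯 : ∀ T ∈ 𝒯, S.Tk k z T) {m : ℕ} (hm : 1 ≤ m) (hmk : m ≤ k) :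
    (∑ T ∈ 𝒯.filter (fun T => (T \ U).card = m), pr (fun a => B a ∧ S.Ev T a)) * (p : ℝ) ^ (k - m) ≤
      2 ^ U.card * (C : ℝ) ^ (S.V.card + 1) * pr B := by
  have hp0 : (0 : ℝ) < p := by exact_mod_cast (Fact.out : p.Prime).pos
  have hp1 : (1 : ℝ) ≤ p := by exact_mod_cast (Fact.out : p.Prime).one_lt.le
  have hB0 : 0 ≤ pr B := JF_nonneg B
  set F := 𝒯.filter (fun T => (T \ U).card = m) with hF
  have hS0 : 0 ≤ ∑ T ∈ F, pr (fun a => B a ∧ S.Ev T a) := Finset.sum_nonneg fun T _ => JF_nonneg _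
  have h1 : (∑ T ∈ F, pr (fun a => B a ∧ S.Ev T a)) * (p : ℝ) ^ (s * m + S.V.card) ≤
      (∑ T ∈ F, ((S.Θ T).card : ℝ)) * ((C : ℝ) ^ S.V.card * (p : ℝ) ^ (m * S.V.card) * pr B) := by
    rw [Finset.sum_mul, Finset.sum_mul]
    refine Finset.sum_le_sum fun T hT => ?_
    obtain ⟨hT1, hT2⟩ := Finset.mem_filter.1 hT
    obtain ⟨h2, h3, -⟩ := h𝒯 T hT1
    have h4 := sys_cond hS hU h2 h3 hc (by rw [hT2]; exact hm) hB
    rw [hT2] at h4
    refine h4.trans (le_of_eq ?_)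
    ring
  have h2 : (∑ T ∈ F, ((S.Θ T).card : ℝ)) * (p : ℝ) ^ (D1 + m) ≤ 2 ^ U.card * C * (p : ℝ) ^ (m * D2 + ρ) := by
    exact_mod_cast hS.cnt U hU (by omega) z 𝒯 h𝒯 m hm hmk
  have h3 : (∑ T ∈ F, pr (fun a => B a ∧ S.Ev T a)) * (p : ℝ) ^ (s * m + S.V.card + (D1 + m)) ≤
      2 ^ U.card * (C : ℝ) ^ (S.V.card + 1) * pr B * (p : ℝ) ^ (m * D2 + (ρ + m * S.V.card)) := by
    calc (∑ T ∈ F, pr (fun a => B a ∧ S.Ev T a)) * (p : ℝ) ^ (s * m + S.V.card + (D1 + m)) =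
          (∑ T ∈ F, pr (fun a => B a ∧ S.Ev T a)) * (p : ℝ) ^ (s * m + S.V.card) * (p : ℝ) ^ (D1 + m) := by
          rw [pow_add, mul_assoc]
      _ ≤ (∑ T ∈ F, ((S.Θ T).card : ℝ)) * ((C : ℝ) ^ S.V.card * (p : ℝ) ^ (m * S.V.card) * pr B) * (p : ℝ) ^ (D1 + m) :=
          mul_le_mul_of_nonneg_right h1 (by positivity)
      _ = ((∑ T ∈ F, ((S.Θ T).card : ℝ)) * (p : ℝ) ^ (D1 + m)) * ((C : ℝ) ^ S.V.card * (p : ℝ) ^ (m * S.V.card) * pr B) := by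
          ring
      _ ≤ (2 ^ U.card * C * (p : ℝ) ^ (m * D2 + ρ)) * ((C : ℝ) ^ S.V.card * (p : ℝ) ^ (m * S.V.card) * pr B) :=
          mul_le_mul_of_nonneg_right h2 (by positivity)
      _ = _ := by
          rw [pow_add (p : ℝ) (m * D2), pow_add (p : ℝ) (m * D2), pow_add (p : ℝ) ρ, pow_succ]
          ring
  have h4 : (∑ T ∈ F, pr (fun a => B a ∧ S.Ev T a)) * (p : ℝ) ^ (k - m) * (p : ℝ) ^ (m * D2 + (ρ + m * S.V.card)) ≤
      2 ^ U.card * (C : ℝ) ^ (S.V.card + 1) * pr B * (p : ℝ) ^ (m * D2 + (ρ + m * S.V.card)) := by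
    rw [mul_assoc, ← pow_add]
    refine (mul_le_mul_of_nonneg_left ?_ hS0).trans h3
    exact pow_le_pow_right₀ hp1 (JF_arith hE hD hmk)
  exact le_of_mul_le_mul_right h4 (by positivity)

open Classical in
theorem sys_all {p : ℕ} [Fact p.Prime] {X Ω A : Type} [AddCommGroup A] {s : ℕ} {S : Sys p X Ω A s}
    {k N0 D1 D2 ρ C C' : ℕ} (hS : S.Ok k N0 D1 D2 ρ C C')
    (hE : k * (D2 + S.V.card) + ρ = D1 + S.V.card + k * (s + 1))
    (hD : s + 2 ≤ D2 + S.V.card) {U : Finset X} (hU : Stb S.f S.G U) (hc : U.card + k ≤ N0) {B : Ω → Prop} (hB : S.Dp U B) (z : A)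
    (𝒯 : Finset (Finset X)) (h𝒯 : ∀ T ∈ 𝒯, S.Tk k z T) :
    ∑ T ∈ 𝒯, pr (fun a => B a ∧ S.Ev T a) ≤ 2 ^ U.card * (1 + k * (C : ℝ) ^ (S.V.card + 1)) * pr B := by
  have hfin := hS.fin
  have hp1 : (1 : ℝ) ≤ p := by exact_mod_cast (Fact.out : p.Prime).one_lt.le
  have hB0 : 0 ≤ pr B := JF_nonneg B
  have h1 : ∑ T ∈ 𝒯, pr (fun a => B a ∧ S.Ev T a) =
      ∑ m ∈ range (k + 1), ∑ T ∈ 𝒯.filter (fun T => (T \ U).card = m), pr (fun a => B a ∧ S.Ev T a) := by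
    refine (Finset.sum_fiberwise_of_maps_to (fun T hT => ?_) _).symm
    rw [Finset.mem_range]
    have h2 : (T \ U).card ≤ T.card := Finset.card_le_card Finset.sdiff_subset
    rw [(h𝒯 T hT).2.1] at h2
    omega
  have h0 : ∑ T ∈ 𝒯.filter (fun T => (T \ U).card = 0), pr (fun a => B a ∧ S.Ev T a) ≤ 2 ^ U.card * pr B := by
    have h2 : ∑ T ∈ 𝒯.filter (fun T => (T \ U).card = 0), pr (fun a => B a ∧ S.Ev T a) ≤
        (𝒯.filter fun T => (T \ U).card = 0).card • pr B :=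
      Finset.sum_le_card_nsmul _ _ _ fun T _ => JF_mono fun a ha => ha.1
    rw [nsmul_eq_mul] at h2
    refine h2.trans (mul_le_mul_of_nonneg_right ?_ hB0)
    exact_mod_cast sys_num0 U 𝒯
  have h2 : ∀ m ∈ range k, ∑ T ∈ 𝒯.filter (fun T => (T \ U).card = m + 1), pr (fun a => B a ∧ S.Ev T a) ≤
      2 ^ U.card * (C : ℝ) ^ (S.V.card + 1) * pr B := by
    intro m hm
    have hm' := Finset.mem_range.1 hm
    have h3 := sys_step hS hE hD hU hc hB z 𝒯 h𝒯 (m := m + 1) (by omega) (by omega)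
    refine le_trans ?_ h3
    exact le_mul_of_one_le_right (Finset.sum_nonneg fun T _ => JF_nonneg _) (one_le_pow₀ hp1)
  rw [h1, Finset.sum_range_succ']
  have h3 := Finset.sum_le_card_nsmul _ _ _ h2
  rw [nsmul_eq_mul, Finset.card_range] at h3
  calc _ ≤ (k : ℝ) * (2 ^ U.card * (C : ℝ) ^ (S.V.card + 1) * pr B) + 2 ^ U.card * pr B := add_le_add h3 h0
    _ = _ := by ring

end DW
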