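import Pool.Agent.Lib.MP_17a322_ntDP.JF

/-!
# Tuples of sets of points
-/

set_option autoImplicit false

namespace DW

open Finset NumberField LVH VK VU FB DP

open Classical in
theorem sys_dp {p : ℕ} [Fact p.Prime] {X Ω A : Type} {s : ℕ} (S : Sys p X Ω A s) {U T : Finset X} {B : Ω → Prop}
    (hB : S.Dp U B) : S.Dp (U ∪ T) (fun a => B a ∧ S.Ev T a) := by
  intro a b hab
  have hU : S.Ev T a ↔ S.Ev T b := by
    have h1 : ∀ j, ∀ x ∈ T, S.ev a j x = S.ev b j x := fun j x hx => hab j x (Finset.mem_union_right _ hx)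
    unfold Sys.Ev
    constructor
    · rintro ⟨h2, θ, hθ, h3⟩
      refine ⟨fun j hj x hx => (h1 j x hx).symm.trans (h2 j hj x hx), θ, hθ, fun j hj => ?_⟩
      rw [← h3 j hj]
      exact Finset.prod_congr rfl fun x hx => (h1 j x hx).symm
    · rintro ⟨h2, θ, hθ, h3⟩
      refine ⟨fun j hj x hx => (h1 j x hx).trans (h2 j hj x hx), θ, hθ, fun j hj => ?_⟩
      rw [← h3 j hj]
      exact Finset.prod_congr rfl fun x hx => h1 j x hx
  have hB' : B a ↔ B b := hB a b fun j x hx => hab j x (Finset.mem_union_left _ hx)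
  exact and_congr hB' hU

open Classical in
theorem sys_tup {p : ℕ} [Fact p.Prime] {X Ω A : Type} [AddCommGroup A] {s : ℕ} {S : Sys p X Ω A s}
    {k N0 D1 D2 ρ C C' : ℕ} (hS : S.Ok k N0 D1 D2 ρ C C')
    (hE : k * (D2 + S.V.card) + ρ = D1 + S.V.card + k * (s + 1))
    (hD : s + 2 ≤ D2 + S.V.card) (z : A) (𝒯 : Finset (Finset X)) (h𝒯 : ∀ T ∈ 𝒯, S.Tk k z T) (l : ℕ) {U : Finset X}
    (hU : Stb S.f S.G U) (hc : U.card + l * k ≤ N0) {B : Ω → Prop} (hB : S.Dp U B) :
    ∑ T ∈ Fintype.piFinset (fun _ : Fin l => 𝒯), pr (fun a => B a ∧ ∀ i, S.Ev (T i) a) ≤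
      (2 ^ N0 * (1 + k * (C : ℝ) ^ (S.V.card + 1))) ^ l * pr B := by
  induction l generalizing U B with
  | zero =>
    have h1 : ∀ T ∈ Fintype.piFinset (fun _ : Fin 0 => 𝒯), pr (fun a => B a ∧ ∀ i, S.Ev (T i) a) = pr B := by
      intro T _
      apply congrArg
      funext a
      exact propext ⟨fun h => h.1, fun h => ⟨h, fun i => i.elim0⟩⟩
    rw [Finset.sum_congr rfl h1, Finset.sum_const, Fintype.card_piFinset]
    simp
  | succ l ih =>
    have e1 : ∑ T ∈ Fintype.piFinset (fun _ : Fin (l + 1) => 𝒯), pr (fun a => B a ∧ ∀ i, S.Ev (T i) a) =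
        ∑ T0 ∈ 𝒯, ∑ T' ∈ Fintype.piFinset (fun _ : Fin l => 𝒯), pr (fun a => (B a ∧ S.Ev T0 a) ∧ ∀ i, S.Ev (T' i) a) := by
      rw [← Finset.sum_product']
      refine Finset.sum_nbij' (fun T => (T 0, fun i => T i.succ)) (fun q => Fin.cons q.1 q.2) ?_ ?_ ?_ ?_ ?_
      · intro T hT
        rw [Fintype.mem_piFinset] at hT
        rw [Finset.mem_product, Fintype.mem_piFinset]
        exact ⟨hT 0, fun i => hT i.succ⟩
      · intro q hq
        rw [Finset.mem_product, Fintype.mem_piFinset] at hq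
        rw [Fintype.mem_piFinset]
        intro i
        refine Fin.cases ?_ (fun j => ?_) i
        · exact hq.1
        · exact hq.2 j
      · intro T _
        funext i
        refine Fin.cases ?_ (fun j => ?_) i
        · rfl
        · rfl
      · intro q _
        rfl
      · intro T _
        apply congrArg
        funext a
        refine propext ⟨fun h => ⟨⟨h.1, h.2 0⟩, fun i => h.2 i.succ⟩, fun h => ⟨h.1.1, fun i => ?_⟩⟩
        refine Fin.cases ?_ (fun j => ?_) i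
        · exact h.1.2
        · exact h.2 j
    rw [e1]
    have hKc0 : (0 : ℝ) ≤ 2 ^ N0 * (1 + k * (C : ℝ) ^ (S.V.card + 1)) := by positivity
    have hpr0 : ∀ P : Ω → Prop, 0 ≤ pr P := by
      intro P
      unfold pr
      positivity
    have h2 : ∀ T0 ∈ 𝒯, ∑ T' ∈ Fintype.piFinset (fun _ : Fin l => 𝒯),
        pr (fun a => (B a ∧ S.Ev T0 a) ∧ ∀ i, S.Ev (T' i) a) ≤
        (2 ^ N0 * (1 + k * (C : ℝ) ^ (S.V.card + 1))) ^ l * pr (fun a => B a ∧ S.Ev T0 a) := by
      intro T0 hT0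
      have hk := h𝒯 T0 hT0
      have hst : Stb S.f S.G (U ∪ T0) := by
        intro x hx
        rcases Finset.mem_union.mp hx with hx | hx
        · exact ⟨Finset.mem_union_left _ (hU x hx).1, (hU x hx).2⟩
        · exact ⟨Finset.mem_union_right _ (hk.1 x hx).1, (hk.1 x hx).2⟩
      have hcard : (U ∪ T0).card + l * k ≤ N0 := by
        have h3 := Finset.card_union_le U T0
        rw [hk.2.1] at h3
        have h4 : (l + 1) * k = l * k + k := by ring
        omega
      exact ih hst hcard (sys_dp S hB)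
    have hc' : U.card + k ≤ N0 := by
      have h4 : (l + 1) * k = l * k + k := by ring
      have h5 : 0 ≤ l * k := Nat.zero_le _
      omega
    have h3 := sys_all hS hE hD hU hc' hB z 𝒯 h𝒯
    have h4 : (2 : ℝ) ^ U.card ≤ 2 ^ N0 := pow_le_pow_right₀ (by norm_num) (by omega)
    calc ∑ T0 ∈ 𝒯, ∑ T' ∈ Fintype.piFinset (fun _ : Fin l => 𝒯), pr (fun a => (B a ∧ S.Ev T0 a) ∧ ∀ i, S.Ev (T' i) a)
        ≤ ∑ T0 ∈ 𝒯, (2 ^ N0 * (1 + k * (C : ℝ) ^ (S.V.card + 1))) ^ l * pr (fun a => B a ∧ S.Ev T0 a) :=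
          Finset.sum_le_sum h2
      _ = (2 ^ N0 * (1 + k * (C : ℝ) ^ (S.V.card + 1))) ^ l * ∑ T0 ∈ 𝒯, pr (fun a => B a ∧ S.Ev T0 a) := by
          rw [Finset.mul_sum]
      _ ≤ (2 ^ N0 * (1 + k * (C : ℝ) ^ (S.V.card + 1))) ^ l *
            (2 ^ U.card * (1 + k * (C : ℝ) ^ (S.V.card + 1)) * pr B) :=
          mul_le_mul_of_nonneg_left h3 (pow_nonneg hKc0 l)
      _ ≤ (2 ^ N0 * (1 + k * (C : ℝ) ^ (S.V.card + 1))) ^ l *
            (2 ^ N0 * (1 + k * (C : ℝ) ^ (S.V.card + 1)) * pr B) := by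
          apply mul_le_mul_of_nonneg_left _ (pow_nonneg hKc0 l)
          apply mul_le_mul_of_nonneg_right _ (hpr0 B)
          apply mul_le_mul_of_nonneg_right h4
          positivity
      _ = (2 ^ N0 * (1 + k * (C : ℝ) ^ (S.V.card + 1))) ^ (l + 1) * pr B := by
          rw [pow_succ]
          ring

end DW
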