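import Pool.Agent.Lib.MP_17a322_ntDP.JG

/-!
# Tuples of different sets of points which meet
-/

set_option autoImplicit false

namespace DW

open Finset NumberField LVH VK VU FB DP

private theorem JH_pr_nonneg {Ω : Type} (B : Ω → Prop) : 0 ≤ pr B := by
  unfold pr
  positivity

private theorem JH_pr_le {Ω : Type} [Finite Ω] (B : Ω → Prop) : pr B ≤ 1 := by
  unfold pr
  refine div_le_one_of_le₀ ?_ (Nat.cast_nonneg _)
  exact_mod_cast Nat.card_le_card_of_injective (Subtype.val : {a : Ω // B a} → Ω) Subtype.val_injective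

private theorem JH_pr_congr {Ω : Type} {B B' : Ω → Prop} (h : ∀ a, B a ↔ B' a) : pr B = pr B' := by
  have h1 : B = B' := funext fun a => propext (h a)
  rw [h1]

private theorem JH_cons {X : Type} (𝒯 : Finset (Finset X)) (n : ℕ) (F : (Fin (n + 1) → Finset X) → ℝ) :
    ∑ T ∈ Fintype.piFinset (fun _ : Fin (n + 1) => 𝒯), F T =
      ∑ T0 ∈ 𝒯, ∑ T' ∈ Fintype.piFinset (fun _ : Fin n => 𝒯), F (Fin.cons T0 T') := by
  rw [← Finset.sum_product']
  refine Finset.sum_bij' (fun T _ => (T 0, fun i => T (Fin.succ i))) (fun q _ => Fin.cons q.1 q.2) ?_ ?_ ?_ ?_ ?_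
  · intro T hT
    rw [Fintype.mem_piFinset] at hT
    rw [Finset.mem_product, Fintype.mem_piFinset]
    exact ⟨hT 0, fun i => hT _⟩
  · intro q hq
    rw [Finset.mem_product, Fintype.mem_piFinset] at hq
    rw [Fintype.mem_piFinset]
    intro i
    refine Fin.cases ?_ (fun i => ?_) i
    · exact hq.1
    · exact hq.2 i
  · intro T _
    funext i
    refine Fin.cases rfl (fun i => rfl) i
  · intro q _
    rfl
  · intro T _
    congr 1
    funext i
    refine Fin.cases rfl (fun i => rfl) i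

private theorem JH_perm (l : ℕ) {i j : Fin (l + 2)} (hij : i ≠ j) :
    ∃ σ : Equiv.Perm (Fin (l + 2)), σ 0 = i ∧ σ 1 = j := by
  classical
  have h10 : (1 : Fin (l + 2)) ≠ 0 := by
    intro h
    have := congrArg Fin.val h
    simp at this
  have hj : Equiv.swap 0 i j ≠ 0 := by
    intro h
    apply hij
    have h1 : Equiv.swap 0 i (Equiv.swap 0 i j) = Equiv.swap 0 i 0 := by rw [h]
    rw [Equiv.swap_apply_self, Equiv.swap_apply_left] at h1
    exact h1.symm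
  refine ⟨(Equiv.swap 1 (Equiv.swap 0 i j)).trans (Equiv.swap 0 i), ?_, ?_⟩
  · rw [Equiv.trans_apply, Equiv.swap_apply_of_ne_of_ne h10.symm hj.symm, Equiv.swap_apply_left]
  · rw [Equiv.trans_apply, Equiv.swap_apply_left, Equiv.swap_apply_self]

open Classical in
/-- Two different sets which meet. -/
private theorem JH_pair {p : ℕ} [Fact p.Prime] {X Ω A : Type} [AddCommGroup A] {s : ℕ} {S : Sys p X Ω A s}
    {k N0 D1 D2 ρ C C' : ℕ} (hS : S.Ok k N0 D1 D2 ρ C C')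
    (hE : k * (D2 + S.V.card) + ρ = D1 + S.V.card + k * (s + 1))
    (hD : s + 2 ≤ D2 + S.V.card) (z : A) (𝒯 : Finset (Finset X)) (h𝒯 : ∀ T ∈ 𝒯, S.Tk k z T) (hk : 2 * k ≤ N0)
    {T0 : Finset X} (hT0 : T0 ∈ 𝒯) :
    (∑ T1 ∈ 𝒯.filter (fun T1 => T1 ≠ T0 ∧ ¬ Disjoint T0 T1), pr (fun a => S.Ev T0 a ∧ S.Ev T1 a)) * (p : ℝ) ≤
      (2 ^ N0 * (1 + k * (C : ℝ) ^ (S.V.card + 1))) * pr (S.Ev T0) := by
  have hp1 : (1 : ℝ) ≤ p := by exact_mod_cast (Fact.out : p.Prime).one_lt.le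
  have hp0 : (0 : ℝ) ≤ p := zero_le_one.trans hp1
  obtain ⟨hst, hcard, -⟩ := h𝒯 T0 hT0
  have hdp : S.Dp T0 (S.Ev T0) := by
    have h := sys_dp S (U := (∅ : Finset X)) (T := T0) (B := fun _ => True) (fun _ _ _ => Iff.rfl)
    intro a b hab
    have h1 := h a b fun j x hx => hab j x (by rwa [Finset.empty_union] at hx)
    simpa only [true_and] using h1
  have hc : T0.card + k ≤ N0 := by omega
  have hstep := fun m (hm : 1 ≤ m) (hmk : m ≤ k) => sys_step hS hE hD hst hc hdp z 𝒯 h𝒯 hm hmk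
  have hQ0 : (0 : ℝ) ≤ 2 ^ T0.card * (C : ℝ) ^ (S.V.card + 1) * pr (S.Ev T0) :=
    mul_nonneg (by positivity) (JH_pr_nonneg _)
  -- the sum is at most the sum over `m`
  have h1 : ∑ T1 ∈ 𝒯.filter (fun T1 => T1 ≠ T0 ∧ ¬ Disjoint T0 T1), pr (fun a => S.Ev T0 a ∧ S.Ev T1 a) ≤
      ∑ m ∈ Finset.Icc 1 (k - 1), ∑ T1 ∈ 𝒯.filter (fun T1 => (T1 \ T0).card = m),
        pr (fun a => S.Ev T0 a ∧ S.Ev T1 a) := by
    rw [← Finset.sum_biUnion]
    · refine Finset.sum_le_sum_of_subset_of_nonneg ?_ fun T _ _ => JH_pr_nonneg _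
      intro T1 hT1
      rw [Finset.mem_filter] at hT1
      obtain ⟨hT1, hne, hmeet⟩ := hT1
      obtain ⟨-, hcard1, -⟩ := h𝒯 T1 hT1
      rw [Finset.mem_biUnion]
      refine ⟨(T1 \ T0).card, ?_, Finset.mem_filter.2 ⟨hT1, rfl⟩⟩
      rw [Finset.mem_Icc]
      constructor
      · rw [Nat.one_le_iff_ne_zero]
        intro h0
        rw [Finset.card_eq_zero, Finset.sdiff_eq_empty_iff_subset] at h0
        exact hne (Finset.eq_of_subset_of_card_le h0 (by omega))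
      · have h2 : 1 ≤ (T1 ∩ T0).card := by
          rw [Nat.one_le_iff_ne_zero]
          intro h0
          rw [Finset.card_eq_zero] at h0
          exact hmeet (Finset.disjoint_iff_inter_eq_empty.2 (by rwa [Finset.inter_comm]))
        have h3 := Finset.card_sdiff_add_card_inter T1 T0
        omega
    · intro m _ m' _ hmm
      rw [Function.onFun, Finset.disjoint_left]
      intro T hT hT'
      exact hmm ((Finset.mem_filter.1 hT).2.symm.trans (Finset.mem_filter.1 hT').2)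
  have h2 : (∑ m ∈ Finset.Icc 1 (k - 1), ∑ T1 ∈ 𝒯.filter (fun T1 => (T1 \ T0).card = m),
      pr (fun a => S.Ev T0 a ∧ S.Ev T1 a)) * (p : ℝ) ≤
      ∑ m ∈ Finset.Icc 1 (k - 1), 2 ^ T0.card * (C : ℝ) ^ (S.V.card + 1) * pr (S.Ev T0) := by
    rw [Finset.sum_mul]
    refine Finset.sum_le_sum fun m hm => ?_
    rw [Finset.mem_Icc] at hm
    refine le_trans ?_ (hstep m hm.1 (by omega))
    refine mul_le_mul_of_nonneg_left ?_ (Finset.sum_nonneg fun T _ => JH_pr_nonneg _)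
    exact le_self_pow₀ hp1 (by omega)
  have h3 : (∑ m ∈ Finset.Icc 1 (k - 1), 2 ^ T0.card * (C : ℝ) ^ (S.V.card + 1) * pr (S.Ev T0)) ≤
      (2 ^ N0 * (1 + k * (C : ℝ) ^ (S.V.card + 1))) * pr (S.Ev T0) := by
    rw [Finset.sum_const, Nat.card_Icc, nsmul_eq_mul]
    have h4 : ((k - 1 + 1 - 1 : ℕ) : ℝ) ≤ k := by exact_mod_cast (by omega : k - 1 + 1 - 1 ≤ k)
    have h5 : (2 : ℝ) ^ T0.card ≤ 2 ^ N0 := pow_le_pow_right₀ one_le_two (by omega)
    have hC : (0 : ℝ) ≤ (C : ℝ) ^ (S.V.card + 1) := by positivity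
    calc ((k - 1 + 1 - 1 : ℕ) : ℝ) * (2 ^ T0.card * (C : ℝ) ^ (S.V.card + 1) * pr (S.Ev T0))
        ≤ k * (2 ^ T0.card * (C : ℝ) ^ (S.V.card + 1) * pr (S.Ev T0)) :=
          mul_le_mul_of_nonneg_right h4 hQ0
      _ = 2 ^ T0.card * (k * (C : ℝ) ^ (S.V.card + 1)) * pr (S.Ev T0) := by ring
      _ ≤ 2 ^ N0 * (1 + k * (C : ℝ) ^ (S.V.card + 1)) * pr (S.Ev T0) := by
          refine mul_le_mul_of_nonneg_right ?_ (JH_pr_nonneg _)
          exact mul_le_mul h5 (by linarith) (by positivity) (by positivity)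
  exact (mul_le_mul_of_nonneg_right h1 hp0).trans (h2.trans h3)

open Classical in
theorem sys_ovl {p : ℕ} [Fact p.Prime] {X Ω A : Type} [AddCommGroup A] {s : ℕ} {S : Sys p X Ω A s}
    {k N0 D1 D2 ρ C C' : ℕ} (hS : S.Ok k N0 D1 D2 ρ C C')
    (hE : k * (D2 + S.V.card) + ρ = D1 + S.V.card + k * (s + 1))
    (hD : s + 2 ≤ D2 + S.V.card) (z : A) (𝒯 : Finset (Finset X)) (h𝒯 : ∀ T ∈ 𝒯, S.Tk k z T) (l : ℕ) (hl : l * k ≤ N0) :
    (∑ T ∈ (Fintype.piFinset (fun _ : Fin l => 𝒯)).filter (fun T => Function.Injective T ∧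
      ∃ i j, i ≠ j ∧ ¬ Disjoint (T i) (T j)), pr (fun a => ∀ i, S.Ev (T i) a)) * (p : ℝ) ≤
      (l : ℝ) ^ 2 * (2 ^ N0 * (1 + k * (C : ℝ) ^ (S.V.card + 1))) ^ l := by
  have hp1 : (1 : ℝ) ≤ p := by exact_mod_cast (Fact.out : p.Prime).one_lt.le
  have hp0 : (0 : ℝ) ≤ p := zero_le_one.trans hp1
  obtain ⟨Kc, hKc⟩ : ∃ Kc : ℝ, Kc = 2 ^ N0 * (1 + k * (C : ℝ) ^ (S.V.card + 1)) := ⟨_, rfl⟩
  have hK0 : 0 ≤ Kc := by
    rw [hKc]
    positivity
  rw [← hKc]
  have hrhs : (0 : ℝ) ≤ (l : ℝ) ^ 2 * Kc ^ l := by positivity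
  rcases Nat.lt_or_ge l 2 with hl2 | hl2
  · -- no pairs
    have h1 : (Fintype.piFinset (fun _ : Fin l => 𝒯)).filter (fun T => Function.Injective T ∧
        ∃ i j, i ≠ j ∧ ¬ Disjoint (T i) (T j)) = ∅ := by
      rw [Finset.filter_eq_empty_iff]
      rintro T - ⟨-, i, j, hij, -⟩
      apply hij
      apply Fin.ext
      have := i.2
      have := j.2
      omega
    rw [h1, Finset.sum_empty, zero_mul]
    exact hrhs
  obtain ⟨l', rfl⟩ : ∃ l', l = l' + 2 := ⟨l - 2, by omega⟩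
  have h2k : 2 * k ≤ N0 := by nlinarith
  have hfin : Finite Ω := hS.fin
  -- the sum over the pairs
  have hsum1 : ∑ T0 ∈ 𝒯, pr (S.Ev T0) ≤ Kc := by
    have h := sys_all hS hE hD (U := (∅ : Finset X)) (fun x hx => absurd hx (Finset.notMem_empty x))
      (by rw [Finset.card_empty]; omega) (B := fun _ => True) (fun _ _ _ => Iff.rfl) z 𝒯 h𝒯
    have e1 : ∀ T, pr (fun a => True ∧ S.Ev T a) = pr (S.Ev T) := fun T =>
      JH_pr_congr fun a => by rw [true_and]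
    simp only [e1] at h
    refine h.trans ?_
    rw [hKc, Finset.card_empty, pow_zero, one_mul]
    have h5 : (1 : ℝ) ≤ 2 ^ N0 := one_le_pow₀ one_le_two
    have h6 : (0 : ℝ) ≤ 1 + k * (C : ℝ) ^ (S.V.card + 1) := by positivity
    calc (1 + k * (C : ℝ) ^ (S.V.card + 1)) * pr (fun _ : Ω => True)
        ≤ (1 + k * (C : ℝ) ^ (S.V.card + 1)) * 1 := mul_le_mul_of_nonneg_left (JH_pr_le _) h6
      _ ≤ 2 ^ N0 * (1 + k * (C : ℝ) ^ (S.V.card + 1)) := by nlinarith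
  have hpairs : (∑ T0 ∈ 𝒯, ∑ T1 ∈ 𝒯.filter (fun T1 => T1 ≠ T0 ∧ ¬ Disjoint T0 T1),
      pr (fun a => S.Ev T0 a ∧ S.Ev T1 a)) * (p : ℝ) ≤ Kc ^ 2 := by
    rw [Finset.sum_mul]
    calc ∑ T0 ∈ 𝒯, (∑ T1 ∈ 𝒯.filter (fun T1 => T1 ≠ T0 ∧ ¬ Disjoint T0 T1),
          pr (fun a => S.Ev T0 a ∧ S.Ev T1 a)) * (p : ℝ) ≤ ∑ T0 ∈ 𝒯, Kc * pr (S.Ev T0) := by
          refine Finset.sum_le_sum fun T0 hT0 => ?_
          rw [hKc]
          exact JH_pair hS hE hD z 𝒯 h𝒯 h2k hT0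
      _ = Kc * ∑ T0 ∈ 𝒯, pr (S.Ev T0) := by rw [Finset.mul_sum]
      _ ≤ Kc * Kc := mul_le_mul_of_nonneg_left hsum1 hK0
      _ = Kc ^ 2 := (sq Kc).symm
  -- the tuples with the first two fixed
  have hfix : ∀ T0 ∈ 𝒯, ∀ T1 ∈ 𝒯, ∑ T' ∈ Fintype.piFinset (fun _ : Fin l' => 𝒯),
      pr (fun a => (S.Ev T0 a ∧ S.Ev T1 a) ∧ ∀ i, S.Ev (T' i) a) ≤
        Kc ^ l' * pr (fun a => S.Ev T0 a ∧ S.Ev T1 a) := by
    intro T0 hT0 T1 hT1
    obtain ⟨hst0, hcard0, -⟩ := h𝒯 T0 hT0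
    obtain ⟨hst1, hcard1, -⟩ := h𝒯 T1 hT1
    rw [hKc]
    refine sys_tup hS hE hD z 𝒯 h𝒯 l' (U := T0 ∪ T1) ?_ ?_ ?_
    · intro x hx
      rcases Finset.mem_union.1 hx with hx | hx
      · exact ⟨Finset.mem_union_left _ (hst0 x hx).1, (hst0 x hx).2⟩
      · exact ⟨Finset.mem_union_right _ (hst1 x hx).1, (hst1 x hx).2⟩
    · have h1 := Finset.card_union_le T0 T1
      have h2 : (l' + 2) * k = l' * k + 2 * k := by ring
      omega
    · have hdp : S.Dp T0 (S.Ev T0) := by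
        have h := sys_dp S (U := (∅ : Finset X)) (T := T0) (B := fun _ => True) (fun _ _ _ => Iff.rfl)
        intro a b hab
        have h1 := h a b fun j x hx => hab j x (by rwa [Finset.empty_union] at hx)
        simpa only [true_and] using h1
      exact sys_dp S hdp
  -- the tuples whose first two members meet
  have h01 : (∑ T ∈ (Fintype.piFinset (fun _ : Fin (l' + 2) => 𝒯)).filter
      (fun T => T 1 ≠ T 0 ∧ ¬ Disjoint (T 0) (T 1)), pr (fun a => ∀ i, S.Ev (T i) a)) * (p : ℝ) ≤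
      Kc ^ (l' + 2) := by
    have e1 : ∑ T ∈ (Fintype.piFinset (fun _ : Fin (l' + 2) => 𝒯)).filter
        (fun T => T 1 ≠ T 0 ∧ ¬ Disjoint (T 0) (T 1)), pr (fun a => ∀ i, S.Ev (T i) a) =
        ∑ T0 ∈ 𝒯, ∑ T1 ∈ 𝒯.filter (fun T1 => T1 ≠ T0 ∧ ¬ Disjoint T0 T1),
          ∑ T' ∈ Fintype.piFinset (fun _ : Fin l' => 𝒯),
            pr (fun a => (S.Ev T0 a ∧ S.Ev T1 a) ∧ ∀ i, S.Ev (T' i) a) := by
      rw [Finset.sum_filter, JH_cons 𝒯 (l' + 1)]
      refine Finset.sum_congr rfl fun T0 _ => ?_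
      rw [JH_cons 𝒯 l', Finset.sum_filter]
      refine Finset.sum_congr rfl fun T1 _ => ?_
      have a0 : ∀ T' : Fin l' → Finset X, (Fin.cons T0 (Fin.cons T1 T' : Fin (l' + 1) → Finset X) :
          Fin (l' + 2) → Finset X) 0 = T0 := fun T' => rfl
      have a1 : ∀ T' : Fin l' → Finset X, (Fin.cons T0 (Fin.cons T1 T' : Fin (l' + 1) → Finset X) :
          Fin (l' + 2) → Finset X) 1 = T1 := fun T' => rfl
      simp only [a0, a1]
      split_ifs with hc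
      · refine Finset.sum_congr rfl fun T' _ => JH_pr_congr fun a => ?_
        rw [Fin.forall_fin_succ, Fin.forall_fin_succ]
        constructor
        · rintro ⟨h1, h2, h3⟩
          exact ⟨⟨h1, h2⟩, h3⟩
        · rintro ⟨⟨h1, h2⟩, h3⟩
          exact ⟨h1, h2, h3⟩
      · rw [Finset.sum_const_zero]
    rw [e1]
    calc (∑ T0 ∈ 𝒯, ∑ T1 ∈ 𝒯.filter (fun T1 => T1 ≠ T0 ∧ ¬ Disjoint T0 T1),
          ∑ T' ∈ Fintype.piFinset (fun _ : Fin l' => 𝒯),
            pr (fun a => (S.Ev T0 a ∧ S.Ev T1 a) ∧ ∀ i, S.Ev (T' i) a)) * (p : ℝ)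
        ≤ (∑ T0 ∈ 𝒯, ∑ T1 ∈ 𝒯.filter (fun T1 => T1 ≠ T0 ∧ ¬ Disjoint T0 T1),
          Kc ^ l' * pr (fun a => S.Ev T0 a ∧ S.Ev T1 a)) * (p : ℝ) := by
          refine mul_le_mul_of_nonneg_right ?_ hp0
          exact Finset.sum_le_sum fun T0 hT0 => Finset.sum_le_sum fun T1 hT1 =>
            hfix T0 hT0 T1 (Finset.mem_filter.1 hT1).1
      _ = Kc ^ l' * ((∑ T0 ∈ 𝒯, ∑ T1 ∈ 𝒯.filter (fun T1 => T1 ≠ T0 ∧ ¬ Disjoint T0 T1),
          pr (fun a => S.Ev T0 a ∧ S.Ev T1 a)) * (p : ℝ)) := by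
          simp only [← Finset.mul_sum]
          ring
      _ ≤ Kc ^ l' * Kc ^ 2 := mul_le_mul_of_nonneg_left hpairs (pow_nonneg hK0 _)
      _ = Kc ^ (l' + 2) := (pow_add Kc l' 2).symm
  -- the tuples whose members `i`, `j` meet
  have hij : ∀ i j : Fin (l' + 2), i ≠ j → (∑ T ∈ (Fintype.piFinset (fun _ : Fin (l' + 2) => 𝒯)).filter
      (fun T => T j ≠ T i ∧ ¬ Disjoint (T i) (T j)), pr (fun a => ∀ i, S.Ev (T i) a)) * (p : ℝ) ≤
      Kc ^ (l' + 2) := by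
    intro i j hne
    obtain ⟨σ, h0, h1⟩ := JH_perm l' hne
    refine le_of_eq_of_le ?_ h01
    congr 1
    refine Finset.sum_bij' (fun T _ => fun a => T (σ a)) (fun T _ => fun a => T (σ.symm a)) ?_ ?_ ?_ ?_ ?_
    · intro T hT
      rw [Finset.mem_filter, Fintype.mem_piFinset] at hT ⊢
      refine ⟨fun a => hT.1 _, ?_⟩
      beta_reduce
      rw [h0, h1]
      exact hT.2
    · intro T hT
      rw [Finset.mem_filter, Fintype.mem_piFinset] at hT ⊢
      refine ⟨fun a => hT.1 _, ?_⟩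
      rw [← h0, ← h1]
      beta_reduce
      rw [Equiv.symm_apply_apply, Equiv.symm_apply_apply]
      exact hT.2
    · intro T _
      funext a
      beta_reduce
      rw [Equiv.apply_symm_apply]
    · intro T _
      funext a
      beta_reduce
      rw [Equiv.symm_apply_apply]
    · intro T _
      refine JH_pr_congr fun a => ?_
      constructor
      · exact fun h b => h (σ b)
      · intro h b
        have h5 := h (σ.symm b)
        beta_reduce at h5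
        rwa [Equiv.apply_symm_apply] at h5
  -- all pairs
  have hall : (∑ T ∈ (Fintype.piFinset (fun _ : Fin (l' + 2) => 𝒯)).filter (fun T => Function.Injective T ∧
      ∃ i j, i ≠ j ∧ ¬ Disjoint (T i) (T j)), pr (fun a => ∀ i, S.Ev (T i) a)) ≤
      ∑ q : Fin (l' + 2) × Fin (l' + 2), if q.1 ≠ q.2 then
        ∑ T ∈ (Fintype.piFinset (fun _ : Fin (l' + 2) => 𝒯)).filter
          (fun T => T q.2 ≠ T q.1 ∧ ¬ Disjoint (T q.1) (T q.2)), pr (fun a => ∀ i, S.Ev (T i) a) else 0 := by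
    have e1 : (∑ q : Fin (l' + 2) × Fin (l' + 2), if q.1 ≠ q.2 then
        ∑ T ∈ (Fintype.piFinset (fun _ : Fin (l' + 2) => 𝒯)).filter
          (fun T => T q.2 ≠ T q.1 ∧ ¬ Disjoint (T q.1) (T q.2)), pr (fun a => ∀ i, S.Ev (T i) a) else 0) =
        ∑ T ∈ Fintype.piFinset (fun _ : Fin (l' + 2) => 𝒯), ∑ q : Fin (l' + 2) × Fin (l' + 2),
          if q.1 ≠ q.2 ∧ T q.2 ≠ T q.1 ∧ ¬ Disjoint (T q.1) (T q.2) then pr (fun a => ∀ i, S.Ev (T i) a) else 0 := by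
      rw [Finset.sum_comm]
      refine Finset.sum_congr rfl fun q _ => ?_
      by_cases hq : q.1 ≠ q.2
      · rw [if_pos hq, Finset.sum_filter]
        refine Finset.sum_congr rfl fun T _ => ?_
        by_cases hT : T q.2 ≠ T q.1 ∧ ¬ Disjoint (T q.1) (T q.2)
        · rw [if_pos hT, if_pos ⟨hq, hT⟩]
        · rw [if_neg hT, if_neg fun h => hT h.2]
      · rw [if_neg hq]
        refine (Finset.sum_eq_zero fun T _ => ?_).symm
        rw [if_neg fun h => hq h.1]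
    rw [e1, Finset.sum_filter]
    refine Finset.sum_le_sum fun T _ => ?_
    split_ifs with hT
    · obtain ⟨hinj, i, j, hne, hmeet⟩ := hT
      have hc : (i, j).1 ≠ (i, j).2 ∧ T (i, j).2 ≠ T (i, j).1 ∧ ¬ Disjoint (T (i, j).1) (T (i, j).2) :=
        ⟨hne, fun h => hne (hinj h).symm, hmeet⟩
      have h6 := Finset.single_le_sum (s := (Finset.univ : Finset (Fin (l' + 2) × Fin (l' + 2))))
        (f := fun q => if q.1 ≠ q.2 ∧ T q.2 ≠ T q.1 ∧ ¬ Disjoint (T q.1) (T q.2) then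
          pr (fun a => ∀ i, S.Ev (T i) a) else 0)
        (fun q _ => by
          split_ifs
          · exact JH_pr_nonneg _
          · exact le_rfl) (Finset.mem_univ (i, j))
      beta_reduce at h6
      rw [if_pos hc] at h6
      exact h6
    · refine Finset.sum_nonneg fun q _ => ?_
      split_ifs
      · exact JH_pr_nonneg _
      · exact le_rfl
  refine (mul_le_mul_of_nonneg_right hall hp0).trans ?_
  rw [Finset.sum_mul]
  calc ∑ q : Fin (l' + 2) × Fin (l' + 2), (if q.1 ≠ q.2 then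
        ∑ T ∈ (Fintype.piFinset (fun _ : Fin (l' + 2) => 𝒯)).filter
          (fun T => T q.2 ≠ T q.1 ∧ ¬ Disjoint (T q.1) (T q.2)), pr (fun a => ∀ i, S.Ev (T i) a) else 0) * (p : ℝ)
      ≤ ∑ _q : Fin (l' + 2) × Fin (l' + 2), Kc ^ (l' + 2) := by
        refine Finset.sum_le_sum fun q _ => ?_
        split_ifs with hq
        · exact hij q.1 q.2 hq
        · rw [zero_mul]
          exact pow_nonneg hK0 _
    _ = ((l' + 2 : ℕ) : ℝ) ^ 2 * Kc ^ (l' + 2) := by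
        rw [Finset.sum_const, Finset.card_univ, Fintype.card_prod, Fintype.card_fin, nsmul_eq_mul]
        push_cast
        ring

end DW
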