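import Pool.Agent.Lib.MP_17a322_ntDP.JF

/-!
# Products over tuples of sets of points which meet
-/

set_option autoImplicit false

namespace DW

open Finset NumberField LVH VK VU FB DP

private theorem JI_exp1 {k s v m D1 D2 ρ : ℕ} (hv : v ≤ s) (hE : k * (D2 + v) + ρ = D1 + v + k * (s + 1))
    (hD : s + 2 ≤ D2 + v) (hmk : m < k) : 1 + (m * D2 + (ρ + k * v)) ≤ s * k + v + (D1 + m) := by
  obtain ⟨e, rfl⟩ : ∃ e, k = m + 1 + e := ⟨k - (m + 1), by omega⟩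
  obtain ⟨w, rfl⟩ : ∃ w, s = v + w := ⟨s - v, by omega⟩
  obtain ⟨d, rfl⟩ : ∃ d, D2 = w + 2 + d := ⟨D2 - (w + 2), by omega⟩
  nlinarith [hE, Nat.zero_le (e * w), Nat.zero_le (e * d), Nat.zero_le (m * d)]

private theorem JI_exp0 {k s v ρ : ℕ} (hv : v ≤ s) (hρ : ρ < v + k * (s - v)) :
    1 + (ρ + k * v) ≤ s * k + v := by
  obtain ⟨w, rfl⟩ : ∃ w, s = v + w := ⟨s - v, by omega⟩
  have h3 : v + w - v = w := by omega
  rw [h3] at hρ
  nlinarith [hρ]

private theorem JI_bun {α β : Type} [DecidableEq β] (s : Finset α) (t : α → Finset β) (f : β → ℝ)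
    (hf : ∀ x, 0 ≤ f x) : ∑ x ∈ s.biUnion t, f x ≤ ∑ a ∈ s, ∑ x ∈ t a, f x := by
  classical
  induction s using Finset.induction_on with
  | empty => simp
  | insert a s ha ih =>
    rw [Finset.biUnion_insert, Finset.sum_insert ha]
    have h := Finset.sum_union_inter (s₁ := t a) (s₂ := s.biUnion t) (f := f)
    have h2 : 0 ≤ ∑ x ∈ t a ∩ s.biUnion t, f x := Finset.sum_nonneg fun x _ => hf x
    linarith

private theorem JI_nonneg {Ω : Type} (B : Ω → Prop) : 0 ≤ pr B := by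
  unfold pr
  exact div_nonneg (Nat.cast_nonneg _) (Nat.cast_nonneg _)

private theorem JI_true {Ω : Type} [Finite Ω] [Nonempty Ω] : pr (fun _ : Ω => True) = 1 := by
  unfold pr
  have h1 : Nat.card {a : Ω // True} = Nat.card Ω := Nat.card_congr (Equiv.subtypeUnivEquiv fun _ => trivial)
  rw [h1]
  have h2 : (Nat.card Ω : ℝ) ≠ 0 := Nat.cast_ne_zero.mpr Nat.card_pos.ne'
  exact div_self h2

private theorem JI_true_and {Ω : Type} (B : Ω → Prop) : pr (fun a => True ∧ B a) = pr B := by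
  simp only [true_and]

private theorem JI_one {p : ℕ} [Fact p.Prime] {X Ω A : Type} [AddCommGroup A] {s : ℕ} {S : Sys p X Ω A s}
    {k N0 D1 D2 ρ C C' : ℕ} (hS : S.Ok k N0 D1 D2 ρ C C') (hk : 1 ≤ k) (hkN : k ≤ N0)
    {z : A} {T : Finset X} (hT : S.Tk k z T) :
    pr (S.Ev T) * (p : ℝ) ^ (s * k + S.V.card) ≤
      (C : ℝ) ^ S.V.card * ((p : ℝ) ^ (k * S.V.card) * (S.Θ T).card) := by
  classical
  have := hS.fin
  have := hS.ne
  have h := sys_cond hS (U := ∅) (T := T) (fun x hx => absurd hx (Finset.notMem_empty x)) hT.1 hT.2.1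
    (by rw [Finset.card_empty, Nat.zero_add]; exact hkN)
    (by rw [Finset.sdiff_empty, hT.2.1]; exact hk) (B := fun _ => True) (fun _ _ _ => Iff.rfl)
  rw [Finset.sdiff_empty, hT.2.1, JI_true_and, JI_true, mul_one] at h
  exact h

open Classical in
private theorem JI_sum {p : ℕ} [Fact p.Prime] {X Ω A : Type} [AddCommGroup A] {s : ℕ} {S : Sys p X Ω A s}
    {k N0 D1 D2 ρ C C' : ℕ} (hS : S.Ok k N0 D1 D2 ρ C C')
    (hE : k * (D2 + S.V.card) + ρ = D1 + S.V.card + k * (s + 1))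
    (hD : s + 2 ≤ D2 + S.V.card) (hkN : k ≤ N0) (z : A) (𝒯 : Finset (Finset X)) (h𝒯 : ∀ T ∈ 𝒯, S.Tk k z T) :
    ∑ T ∈ 𝒯, pr (S.Ev T) ≤ 2 ^ N0 * (1 + k * (C : ℝ) ^ (S.V.card + 1)) := by
  have := hS.fin
  have := hS.ne
  have h := sys_all hS hE hD (U := ∅) (fun x hx => absurd hx (Finset.notMem_empty x))
    (by rw [Finset.card_empty, Nat.zero_add]; exact hkN) (B := fun _ => True) (fun _ _ _ => Iff.rfl) z 𝒯 h𝒯
  rw [JI_true, mul_one, Finset.card_empty, pow_zero, one_mul] at h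
  simp only [JI_true_and] at h
  have h1 : (1 : ℝ) ≤ 2 ^ N0 := one_le_pow₀ (by norm_num)
  have h2 : (0 : ℝ) ≤ 1 + k * (C : ℝ) ^ (S.V.card + 1) := by positivity
  exact h.trans (le_mul_of_one_le_left h2 h1)

open Classical in
private theorem JI_lev {p : ℕ} [Fact p.Prime] {X Ω A : Type} [AddCommGroup A] {s : ℕ} {S : Sys p X Ω A s}
    {k N0 D1 D2 ρ C C' : ℕ} (hS : S.Ok k N0 D1 D2 ρ C C')
    (hE : k * (D2 + S.V.card) + ρ = D1 + S.V.card + k * (s + 1))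
    (hD : s + 2 ≤ D2 + S.V.card) (hkN : k ≤ N0) (z : A) (𝒯 : Finset (Finset X)) (h𝒯 : ∀ T ∈ 𝒯, S.Tk k z T)
    {T0 : Finset X} (hT0 : T0 ∈ 𝒯) {m : ℕ} (hm : 1 ≤ m) (hmk : m < k) :
    (∑ T1 ∈ 𝒯.filter (fun T => (T \ T0).card = m), pr (S.Ev T1)) * (p : ℝ) ≤
      2 ^ k * (C : ℝ) ^ (S.V.card + 1) := by
  have hp : 0 < p := (Fact.out : p.Prime).pos
  have hpR : (0 : ℝ) < p := Nat.cast_pos.mpr hp
  have hp1 : (1 : ℝ) ≤ p := Nat.one_le_cast.mpr hp
  have hv : S.V.card ≤ s := by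
    have := Finset.card_le_univ S.V
    rwa [Fintype.card_fin] at this
  have hk1 : 1 ≤ k := by omega
  have hnum := hS.cnt T0 (h𝒯 T0 hT0).1 (by rw [(h𝒯 T0 hT0).2.1]; exact hkN) z 𝒯 h𝒯 m hm hmk.le
  rw [(h𝒯 T0 hT0).2.1] at hnum
  have hnumR : (∑ T ∈ 𝒯.filter (fun T => (T \ T0).card = m), ((S.Θ T).card : ℝ)) * (p : ℝ) ^ (D1 + m) ≤
      2 ^ k * C * (p : ℝ) ^ (m * D2 + ρ) := by exact_mod_cast hnum
  set Sm : ℝ := ∑ T1 ∈ 𝒯.filter (fun T => (T \ T0).card = m), pr (S.Ev T1) with hSm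
  have hS0 : 0 ≤ Sm := Finset.sum_nonneg fun T _ => JI_nonneg _
  have h1 : Sm * (p : ℝ) ^ (s * k + S.V.card) ≤
      (∑ T ∈ 𝒯.filter (fun T => (T \ T0).card = m), ((S.Θ T).card : ℝ)) *
        ((C : ℝ) ^ S.V.card * (p : ℝ) ^ (k * S.V.card)) := by
    rw [hSm, Finset.sum_mul, Finset.sum_mul]
    refine Finset.sum_le_sum fun T hT => ?_
    refine (JI_one hS hk1 hkN (h𝒯 T (Finset.mem_filter.mp hT).1)).trans (le_of_eq ?_)
    ring
  have hexp : 1 + (m * D2 + (ρ + k * S.V.card)) ≤ s * k + S.V.card + (D1 + m) :=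
    JI_exp1 hv hE hD hmk
  have h2 : (Sm * (p : ℝ)) * (p : ℝ) ^ (m * D2 + (ρ + k * S.V.card)) ≤
      (2 ^ k * (C : ℝ) ^ (S.V.card + 1)) * (p : ℝ) ^ (m * D2 + (ρ + k * S.V.card)) := by
    calc (Sm * (p : ℝ)) * (p : ℝ) ^ (m * D2 + (ρ + k * S.V.card))
        = Sm * (p : ℝ) ^ (1 + (m * D2 + (ρ + k * S.V.card))) := by rw [pow_add _ 1, pow_one]; ring
      _ ≤ Sm * (p : ℝ) ^ (s * k + S.V.card + (D1 + m)) :=
          mul_le_mul_of_nonneg_left (pow_le_pow_right₀ hp1 hexp) hS0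
      _ = (Sm * (p : ℝ) ^ (s * k + S.V.card)) * (p : ℝ) ^ (D1 + m) := by rw [pow_add _ (s * k + S.V.card)]; ring
      _ ≤ ((∑ T ∈ 𝒯.filter (fun T => (T \ T0).card = m), ((S.Θ T).card : ℝ)) *
        ((C : ℝ) ^ S.V.card * (p : ℝ) ^ (k * S.V.card))) * (p : ℝ) ^ (D1 + m) :=
          mul_le_mul_of_nonneg_right h1 (by positivity)
      _ = ((∑ T ∈ 𝒯.filter (fun T => (T \ T0).card = m), ((S.Θ T).card : ℝ)) * (p : ℝ) ^ (D1 + m)) *
        ((C : ℝ) ^ S.V.card * (p : ℝ) ^ (k * S.V.card)) := by ring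
      _ ≤ (2 ^ k * C * (p : ℝ) ^ (m * D2 + ρ)) *
        ((C : ℝ) ^ S.V.card * (p : ℝ) ^ (k * S.V.card)) :=
          mul_le_mul_of_nonneg_right hnumR (by positivity)
      _ = (2 ^ k * (C : ℝ) ^ (S.V.card + 1)) * (p : ℝ) ^ (m * D2 + (ρ + k * S.V.card)) := by
          rw [pow_add _ (m * D2), pow_add _ (m * D2), pow_add _ ρ, pow_succ (C : ℝ)]; ring
  exact le_of_mul_le_mul_right h2 (by positivity)

open Classical in
private theorem JI_zero {p : ℕ} [Fact p.Prime] {X Ω A : Type} [AddCommGroup A] {s : ℕ} {S : Sys p X Ω A s}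
    {k N0 D1 D2 ρ C C' : ℕ} (hS : S.Ok k N0 D1 D2 ρ C C') (hk : 1 ≤ k) (hkN : k ≤ N0)
    (z : A) (𝒯 : Finset (Finset X)) (h𝒯 : ∀ T ∈ 𝒯, S.Tk k z T)
    {T0 : Finset X} (hT0 : T0 ∈ 𝒯) :
    (∑ T1 ∈ 𝒯.filter (fun T => (T \ T0).card = 0), pr (S.Ev T1)) * (p : ℝ) ≤
      (C : ℝ) ^ S.V.card * C' := by
  have hp : 0 < p := (Fact.out : p.Prime).pos
  have hpR : (0 : ℝ) < p := Nat.cast_pos.mpr hp
  have hp1 : (1 : ℝ) ≤ p := Nat.one_le_cast.mpr hp
  have hv : S.V.card ≤ s := by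
    have := Finset.card_le_univ S.V
    rwa [Fintype.card_fin] at this
  have hsub : 𝒯.filter (fun T => (T \ T0).card = 0) ⊆ {T0} := by
    intro T hT
    obtain ⟨hT1, hT2⟩ := Finset.mem_filter.mp hT
    rw [Finset.card_eq_zero, Finset.sdiff_eq_empty_iff_subset] at hT2
    rw [Finset.mem_singleton]
    exact Finset.eq_of_subset_of_card_le hT2 (by rw [(h𝒯 T0 hT0).2.1, (h𝒯 T hT1).2.1])
  have h1 : ∑ T1 ∈ 𝒯.filter (fun T => (T \ T0).card = 0), pr (S.Ev T1) ≤ pr (S.Ev T0) := by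
    refine (Finset.sum_le_sum_of_subset_of_nonneg hsub fun T _ _ => JI_nonneg _).trans ?_
    rw [Finset.sum_singleton]
  have h2 := JI_one hS hk hkN (h𝒯 T0 hT0)
  have h5 : ((S.Θ T0).card : ℝ) * (p : ℝ) ^ (1 + k * S.V.card) ≤ C' * (p : ℝ) ^ (s * k + S.V.card) := by
    exact_mod_cast hS.sml z T0 (h𝒯 T0 hT0)
  have h3 : (pr (S.Ev T0) * (p : ℝ)) * (p : ℝ) ^ (s * k + S.V.card) ≤
      (C : ℝ) ^ S.V.card * C' * (p : ℝ) ^ (s * k + S.V.card) := by
    calc (pr (S.Ev T0) * (p : ℝ)) * (p : ℝ) ^ (s * k + S.V.card)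
        = (pr (S.Ev T0) * (p : ℝ) ^ (s * k + S.V.card)) * p := by ring
      _ ≤ ((C : ℝ) ^ S.V.card * ((p : ℝ) ^ (k * S.V.card) * (S.Θ T0).card)) * p :=
          mul_le_mul_of_nonneg_right h2 hpR.le
      _ = (C : ℝ) ^ S.V.card * (((S.Θ T0).card : ℝ) * (p : ℝ) ^ (1 + k * S.V.card)) := by
          rw [pow_add _ 1, pow_one]; ring
      _ ≤ (C : ℝ) ^ S.V.card * (C' * (p : ℝ) ^ (s * k + S.V.card)) :=
          mul_le_mul_of_nonneg_left h5 (by positivity)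
      _ = _ := by ring
  have h4 : pr (S.Ev T0) * (p : ℝ) ≤ (C : ℝ) ^ S.V.card * C' := le_of_mul_le_mul_right h3 (by positivity)
  exact (mul_le_mul_of_nonneg_right h1 hpR.le).trans h4

open Classical in
private theorem JI_pair {p : ℕ} [Fact p.Prime] {X Ω A : Type} [AddCommGroup A] {s : ℕ} {S : Sys p X Ω A s}
    {k N0 D1 D2 ρ C C' : ℕ} (hS : S.Ok k N0 D1 D2 ρ C C')
    (hE : k * (D2 + S.V.card) + ρ = D1 + S.V.card + k * (s + 1))
    (hD : s + 2 ≤ D2 + S.V.card) (hk : 1 ≤ k) (hkN : k ≤ N0)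
    (z : A) (𝒯 : Finset (Finset X)) (h𝒯 : ∀ T ∈ 𝒯, S.Tk k z T)
    {T0 : Finset X} (hT0 : T0 ∈ 𝒯) :
    (∑ T1 ∈ 𝒯.filter (fun T => ¬ Disjoint T0 T), pr (S.Ev T1)) * (p : ℝ) ≤
      2 ^ N0 * (1 + k * (C : ℝ) ^ (S.V.card + 1)) + (C : ℝ) ^ S.V.card * C' := by
  have hp : 0 < p := (Fact.out : p.Prime).pos
  have hpR : (0 : ℝ) < p := Nat.cast_pos.mpr hp
  have hmaps : ∀ T ∈ 𝒯.filter (fun T => ¬ Disjoint T0 T), (T \ T0).card ∈ Finset.range k := by
    intro T hT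
    obtain ⟨hT1, hT2⟩ := Finset.mem_filter.mp hT
    rw [Finset.mem_range, ← (h𝒯 T hT1).2.1]
    refine Finset.card_lt_card ⟨Finset.sdiff_subset, fun h => hT2 ?_⟩
    rw [Finset.disjoint_left]
    intro x hx hx2
    exact (Finset.mem_sdiff.mp (h hx2)).2 hx
  have h1 : ∑ T1 ∈ 𝒯.filter (fun T => ¬ Disjoint T0 T), pr (S.Ev T1) ≤
      ∑ m ∈ Finset.range k, ∑ T1 ∈ 𝒯.filter (fun T => (T \ T0).card = m), pr (S.Ev T1) := by
    rw [← Finset.sum_fiberwise_of_maps_to hmaps]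
    refine Finset.sum_le_sum fun m _ => ?_
    refine Finset.sum_le_sum_of_subset_of_nonneg (fun T hT => ?_) fun T _ _ => JI_nonneg _
    obtain ⟨hT1, hT2⟩ := Finset.mem_filter.mp hT
    exact Finset.mem_filter.mpr ⟨(Finset.mem_filter.mp hT1).1, hT2⟩
  obtain ⟨k', rfl⟩ : ∃ k', k = k' + 1 := ⟨k - 1, by omega⟩
  have h2 : (∑ m ∈ Finset.range (k' + 1), ∑ T1 ∈ 𝒯.filter (fun T => (T \ T0).card = m), pr (S.Ev T1)) * (p : ℝ) ≤
      k' * (2 ^ (k' + 1) * (C : ℝ) ^ (S.V.card + 1)) + (C : ℝ) ^ S.V.card * C' := by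
    rw [Finset.sum_range_succ', add_mul]
    refine add_le_add ?_ (JI_zero hS hk hkN z 𝒯 h𝒯 hT0)
    rw [Finset.sum_mul]
    refine (Finset.sum_le_card_nsmul _ _ (2 ^ (k' + 1) * (C : ℝ) ^ (S.V.card + 1)) fun m hm => ?_).trans
      (le_of_eq ?_)
    · exact JI_lev hS hE hD hkN z 𝒯 h𝒯 hT0 (Nat.succ_le_succ (Nat.zero_le m))
        (Nat.succ_lt_succ (Finset.mem_range.mp hm))
    · rw [Finset.card_range, nsmul_eq_mul]
  have h4 : (2 : ℝ) ^ (k' + 1) ≤ 2 ^ N0 := pow_le_pow_right₀ (by norm_num) hkN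
  have h5 : (1 : ℝ) ≤ 2 ^ (k' + 1) := one_le_pow₀ (by norm_num)
  have h6 : (0 : ℝ) ≤ (C : ℝ) ^ (S.V.card + 1) := by positivity
  have h7 : (0 : ℝ) ≤ (k' : ℝ) := Nat.cast_nonneg _
  calc (∑ T1 ∈ 𝒯.filter (fun T => ¬ Disjoint T0 T), pr (S.Ev T1)) * (p : ℝ)
      ≤ (∑ m ∈ Finset.range (k' + 1), ∑ T1 ∈ 𝒯.filter (fun T => (T \ T0).card = m), pr (S.Ev T1)) * (p : ℝ) :=
        mul_le_mul_of_nonneg_right h1 hpR.le
    _ ≤ k' * (2 ^ (k' + 1) * (C : ℝ) ^ (S.V.card + 1)) + (C : ℝ) ^ S.V.card * C' := h2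
    _ ≤ 2 ^ (k' + 1) * (1 + ((k' + 1 : ℕ) : ℝ) * (C : ℝ) ^ (S.V.card + 1)) + (C : ℝ) ^ S.V.card * C' := by
        push_cast
        nlinarith [mul_le_mul_of_nonneg_right h5 h6]
    _ ≤ 2 ^ N0 * (1 + ((k' + 1 : ℕ) : ℝ) * (C : ℝ) ^ (S.V.card + 1)) + (C : ℝ) ^ S.V.card * C' := by
        have h8 : (2 : ℝ) ^ (k' + 1) * (1 + ((k' + 1 : ℕ) : ℝ) * (C : ℝ) ^ (S.V.card + 1)) ≤
            2 ^ N0 * (1 + ((k' + 1 : ℕ) : ℝ) * (C : ℝ) ^ (S.V.card + 1)) :=
          mul_le_mul_of_nonneg_right h4 (by positivity)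
        linarith

open Classical in
private theorem JI_tup {X : Type} (w : Finset X → ℝ) (hw : ∀ T, 0 ≤ w T) (𝒯 : Finset (Finset X)) (K P : ℝ) (hK : 0 ≤ K)
    (hP : 0 ≤ P)
    (hs : ∑ T ∈ 𝒯, w T ≤ K)
    (hp : ∀ T0 ∈ 𝒯, (∑ T1 ∈ 𝒯.filter (fun T => ¬ Disjoint T0 T), w T1) * P ≤ K) {l : ℕ} (i j : Fin l)
    (hij : i ≠ j) :
    (∑ T ∈ (Fintype.piFinset (fun _ : Fin l => 𝒯)).filter (fun T => ¬ Disjoint (T i) (T j)), ∏ i, w (T i)) * P ≤
      K ^ l := by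
  -- the sum for a fixed value of `T i`
  have hfix : ∀ a ∈ 𝒯, (∑ T ∈ (Fintype.piFinset (fun _ : Fin l => 𝒯)).filter
      (fun T => ¬ Disjoint (T i) (T j) ∧ T i = a), ∏ i, w (T i)) * P ≤ w a * K ^ (l - 1) := by
    intro a ha
    set g : Fin l → Finset X → ℝ := fun m x =>
      if m = i then (if x = a then w x else 0) else if m = j then (if ¬ Disjoint a x then w x else 0) else w x with hg
    have hg0 : ∀ m x, 0 ≤ g m x := by
      intro m x
      rw [hg]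
      simp only
      split_ifs <;> first | exact hw x | exact le_rfl
    have h1 : ∑ T ∈ (Fintype.piFinset (fun _ : Fin l => 𝒯)).filter
        (fun T => ¬ Disjoint (T i) (T j) ∧ T i = a), ∏ m, w (T m) ≤
        ∑ T ∈ Fintype.piFinset (fun _ : Fin l => 𝒯), ∏ m, g m (T m) := by
      rw [Finset.sum_filter]
      refine Finset.sum_le_sum fun T _ => ?_
      split_ifs with h
      · refine le_of_eq (Finset.prod_congr rfl fun m _ => ?_)
        rw [hg]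
        simp only
        split_ifs with h2 h3 h4 h5
        · rfl
        · exact absurd (h2 ▸ h.2) h3
        · exact absurd (show Disjoint (T i) (T j) by rw [h.2, ← h4]; exact h5) h.1
        · rfl
        · rfl
      · exact Finset.prod_nonneg fun m _ => hg0 m _
    rw [← Finset.prod_univ_sum] at h1
    have h2 : ∏ m, ∑ x ∈ 𝒯, g m x = (∑ x ∈ 𝒯, g i x) * ((∑ x ∈ 𝒯, g j x) *
        ∏ m ∈ (Finset.univ.erase i).erase j, ∑ x ∈ 𝒯, g m x) := by
      rw [← Finset.mul_prod_erase Finset.univ _ (Finset.mem_univ i),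
        ← Finset.mul_prod_erase (Finset.univ.erase i) _ (Finset.mem_erase.mpr ⟨hij.symm, Finset.mem_univ j⟩)]
    have h3 : ∑ x ∈ 𝒯, g i x = w a := by
      have h4 : ∀ x ∈ 𝒯, g i x = if x = a then w x else 0 := fun x _ => by
        rw [hg]; simp
      rw [Finset.sum_congr rfl h4, Finset.sum_ite_eq' 𝒯 a w, if_pos ha]
    have h4 : (∑ x ∈ 𝒯, g j x) * P ≤ K := by
      have h5 : ∀ x ∈ 𝒯, g j x = if ¬ Disjoint a x then w x else 0 := fun x _ => by
        rw [hg]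
        simp only
        rw [if_neg hij.symm, if_pos trivial]
      rw [Finset.sum_congr rfl h5, ← Finset.sum_filter]
      exact hp a ha
    have h5 : ∏ m ∈ (Finset.univ.erase i).erase j, ∑ x ∈ 𝒯, g m x ≤ K ^ (l - 2) := by
      have h6 : ((Finset.univ.erase i).erase j : Finset (Fin l)).card = l - 2 := by
        rw [Finset.card_erase_of_mem (Finset.mem_erase.mpr ⟨hij.symm, Finset.mem_univ j⟩),
          Finset.card_erase_of_mem (Finset.mem_univ i), Finset.card_univ, Fintype.card_fin]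
        rfl
      rw [← h6, ← Finset.prod_const]
      refine Finset.prod_le_prod (fun m _ => Finset.sum_nonneg fun x _ => hg0 m x) fun m hm => ?_
      have h7 : m ≠ j := (Finset.mem_erase.mp hm).1
      have h8 : m ≠ i := (Finset.mem_erase.mp (Finset.mem_erase.mp hm).2).1
      have h9 : ∀ x ∈ 𝒯, g m x = w x := fun x _ => by
        rw [hg]
        simp only
        rw [if_neg h8, if_neg h7]
      rw [Finset.sum_congr rfl h9]
      exact hs
    have hl : l - 1 = (l - 2) + 1 := by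
      have h6 : 2 ≤ l := by
        by_contra h
        exact hij (Fin.ext (by have h1 := i.2; have h2 := j.2; omega))
      omega
    have hprod0 : 0 ≤ ∏ m ∈ (Finset.univ.erase i).erase j, ∑ x ∈ 𝒯, g m x :=
      Finset.prod_nonneg fun m _ => Finset.sum_nonneg fun x _ => hg0 m x
    calc (∑ T ∈ (Fintype.piFinset (fun _ : Fin l => 𝒯)).filter
          (fun T => ¬ Disjoint (T i) (T j) ∧ T i = a), ∏ m, w (T m)) * P
        ≤ (∏ m, ∑ x ∈ 𝒯, g m x) * P := mul_le_mul_of_nonneg_right h1 hP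
      _ = w a * (((∑ x ∈ 𝒯, g j x) * P) * ∏ m ∈ (Finset.univ.erase i).erase j, ∑ x ∈ 𝒯, g m x) := by
          rw [h2, h3]; ring
      _ ≤ w a * (K * K ^ (l - 2)) :=
          mul_le_mul_of_nonneg_left (mul_le_mul h4 h5 hprod0 hK) (hw a)
      _ = w a * K ^ (l - 1) := by rw [hl, pow_succ]; ring
  have hmaps : ∀ T ∈ (Fintype.piFinset (fun _ : Fin l => 𝒯)).filter (fun T => ¬ Disjoint (T i) (T j)), T i ∈ 𝒯 :=
    fun T hT => Fintype.mem_piFinset.mp (Finset.mem_filter.mp hT).1 i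
  rw [← Finset.sum_fiberwise_of_maps_to hmaps, Finset.sum_mul]
  have hl : l = (l - 1) + 1 := by
    have := i.2
    omega
  calc ∑ a ∈ 𝒯, (∑ T ∈ ((Fintype.piFinset (fun _ : Fin l => 𝒯)).filter
        (fun T => ¬ Disjoint (T i) (T j))).filter (fun T => T i = a), ∏ m, w (T m)) * P
      ≤ ∑ a ∈ 𝒯, w a * K ^ (l - 1) := by
        refine Finset.sum_le_sum fun a ha => ?_
        rw [Finset.filter_filter]
        exact hfix a ha
    _ = (∑ a ∈ 𝒯, w a) * K ^ (l - 1) := by rw [Finset.sum_mul]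
    _ ≤ K * K ^ (l - 1) := mul_le_mul_of_nonneg_right hs (pow_nonneg hK _)
    _ = K ^ l := by rw [← pow_succ', ← hl]

open Classical in
theorem sys_ovp {p : ℕ} [Fact p.Prime] {X Ω A : Type} [AddCommGroup A] {s : ℕ} {S : Sys p X Ω A s}
    {k N0 D1 D2 ρ C C' : ℕ} (hS : S.Ok k N0 D1 D2 ρ C C')
    (hE : k * (D2 + S.V.card) + ρ = D1 + S.V.card + k * (s + 1))
    (hD : s + 2 ≤ D2 + S.V.card) (z : A) (𝒯 : Finset (Finset X)) (h𝒯 : ∀ T ∈ 𝒯, S.Tk k z T)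
    (l : ℕ) (hl : l * k ≤ N0) :
    (∑ T ∈ (Fintype.piFinset (fun _ : Fin l => 𝒯)).filter (fun T => ∃ i j, i ≠ j ∧ ¬ Disjoint (T i) (T j)),
      ∏ i, pr (S.Ev (T i))) * (p : ℝ) ≤
      (l : ℝ) ^ 2 * (2 ^ N0 * (1 + k * (C : ℝ) ^ (S.V.card + 1)) + (C : ℝ) ^ S.V.card * C') ^ l := by
  have hp : 0 < p := (Fact.out : p.Prime).pos
  have hpR : (0 : ℝ) < p := Nat.cast_pos.mpr hp
  set K : ℝ := 2 ^ N0 * (1 + k * (C : ℝ) ^ (S.V.card + 1)) + (C : ℝ) ^ S.V.card * C' with hKdef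
  have hK0 : 0 ≤ K := by positivity
  rcases Nat.eq_zero_or_pos k with hk0 | hk
  · -- all sets are empty
    have h1 : (Fintype.piFinset (fun _ : Fin l => 𝒯)).filter
        (fun T => ∃ i j, i ≠ j ∧ ¬ Disjoint (T i) (T j)) = ∅ := by
      refine Finset.filter_eq_empty_iff.mpr fun T hT h => ?_
      obtain ⟨i, j, _, h2⟩ := h
      have h3 := (h𝒯 (T i) (Fintype.mem_piFinset.mp hT i)).2.1
      rw [hk0, Finset.card_eq_zero] at h3
      rw [h3] at h2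
      exact h2 (Finset.disjoint_empty_left _)
    rw [h1, Finset.sum_empty, zero_mul]
    positivity
  · by_cases hl2 : 2 ≤ l
    · have hkN : k ≤ N0 := le_trans (by nlinarith) hl
      have hs : ∑ T ∈ 𝒯, pr (S.Ev T) ≤ K := by
        have h9 := JI_sum hS hE hD hkN z 𝒯 h𝒯
        have h8 : (0 : ℝ) ≤ (C : ℝ) ^ S.V.card * C' := by positivity
        rw [hKdef]
        linarith
      have hpair : ∀ T0 ∈ 𝒯, (∑ T1 ∈ 𝒯.filter (fun T => ¬ Disjoint T0 T), pr (S.Ev T1)) * (p : ℝ) ≤ K :=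
        fun T0 hT0 => JI_pair hS hE hD hk hkN z 𝒯 h𝒯 hT0
      have h1 : ∑ T ∈ (Fintype.piFinset (fun _ : Fin l => 𝒯)).filter
          (fun T => ∃ i j, i ≠ j ∧ ¬ Disjoint (T i) (T j)), ∏ i, pr (S.Ev (T i)) ≤
          ∑ q ∈ (Finset.univ : Finset (Fin l × Fin l)).filter (fun q => q.1 ≠ q.2),
            ∑ T ∈ (Fintype.piFinset (fun _ : Fin l => 𝒯)).filter (fun T => ¬ Disjoint (T q.1) (T q.2)),
              ∏ i, pr (S.Ev (T i)) := by
        have h2 : (Fintype.piFinset (fun _ : Fin l => 𝒯)).filter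
            (fun T => ∃ i j, i ≠ j ∧ ¬ Disjoint (T i) (T j)) ⊆
            ((Finset.univ : Finset (Fin l × Fin l)).filter (fun q => q.1 ≠ q.2)).biUnion
              (fun q => (Fintype.piFinset (fun _ : Fin l => 𝒯)).filter (fun T => ¬ Disjoint (T q.1) (T q.2))) := by
          intro T hT
          obtain ⟨hT1, i, j, hij, h3⟩ := Finset.mem_filter.mp hT
          exact Finset.mem_biUnion.mpr ⟨(i, j), Finset.mem_filter.mpr ⟨Finset.mem_univ _, hij⟩,
            Finset.mem_filter.mpr ⟨hT1, h3⟩⟩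
        refine (Finset.sum_le_sum_of_subset_of_nonneg h2 fun T _ _ =>
          Finset.prod_nonneg fun i _ => JI_nonneg _).trans ?_
        exact JI_bun _ _ _ fun T => Finset.prod_nonneg fun i _ => JI_nonneg _
      have h3 : ((Finset.univ : Finset (Fin l × Fin l)).filter (fun q => q.1 ≠ q.2)).card ≤ l ^ 2 := by
        refine (Finset.card_filter_le _ _).trans (le_of_eq ?_)
        rw [Finset.card_univ, Fintype.card_prod, Fintype.card_fin, sq]
      calc (∑ T ∈ (Fintype.piFinset (fun _ : Fin l => 𝒯)).filter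
            (fun T => ∃ i j, i ≠ j ∧ ¬ Disjoint (T i) (T j)), ∏ i, pr (S.Ev (T i))) * (p : ℝ)
          ≤ (∑ q ∈ (Finset.univ : Finset (Fin l × Fin l)).filter (fun q => q.1 ≠ q.2),
            ∑ T ∈ (Fintype.piFinset (fun _ : Fin l => 𝒯)).filter (fun T => ¬ Disjoint (T q.1) (T q.2)),
              ∏ i, pr (S.Ev (T i))) * (p : ℝ) := mul_le_mul_of_nonneg_right h1 hpR.le
        _ = ∑ q ∈ (Finset.univ : Finset (Fin l × Fin l)).filter (fun q => q.1 ≠ q.2),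
            (∑ T ∈ (Fintype.piFinset (fun _ : Fin l => 𝒯)).filter (fun T => ¬ Disjoint (T q.1) (T q.2)),
              ∏ i, pr (S.Ev (T i))) * (p : ℝ) := by rw [Finset.sum_mul]
        _ ≤ ((Finset.univ : Finset (Fin l × Fin l)).filter (fun q => q.1 ≠ q.2)).card • K ^ l := by
            refine Finset.sum_le_card_nsmul _ _ _ fun q hq => ?_
            exact JI_tup (fun T => pr (S.Ev T)) (fun T => JI_nonneg _) 𝒯 K p hK0 hpR.le hs hpair q.1 q.2
              (Finset.mem_filter.mp hq).2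
        _ ≤ (l : ℝ) ^ 2 * K ^ l := by
            rw [nsmul_eq_mul]
            refine mul_le_mul_of_nonneg_right ?_ (pow_nonneg hK0 _)
            exact_mod_cast h3
    · -- at most one set
      have h1 : (Fintype.piFinset (fun _ : Fin l => 𝒯)).filter
          (fun T => ∃ i j, i ≠ j ∧ ¬ Disjoint (T i) (T j)) = ∅ := by
        refine Finset.filter_eq_empty_iff.mpr fun T hT h => ?_
        obtain ⟨i, j, h2, _⟩ := h
        exact h2 (Fin.ext (by have h3 := i.2; have h4 := j.2; omega))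
      rw [h1, Finset.sum_empty, zero_mul]
      positivity

end DW
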