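import Pool.Agent.Lib.MP_17a322_ntDP.JC

/-!
# Disjoint sets of points are independent
-/

set_option autoImplicit false

namespace DW

open Finset NumberField LVH VK VU FB DP

private theorem JJ_half {p : ℕ} [Fact p.Prime] {X Ω A : Type} {s : ℕ} (S : Sys p X Ω A s) (T : Finset X) {a b : Ω}
    (h : ∀ j, ∀ x ∈ T, S.ev a j x = S.ev b j x) (ha : S.Ev T a) : S.Ev T b := by
  obtain ⟨h1, θ, hθ, h2⟩ := ha
  refine ⟨fun j hj x hx => (h j x hx).symm.trans (h1 j hj x hx), θ, hθ, fun j hj => ?_⟩
  rw [← h2 j hj]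
  exact Finset.prod_congr rfl fun x hx => (h j x hx).symm

private theorem JJ_dp {p : ℕ} [Fact p.Prime] {X Ω A : Type} {s : ℕ} (S : Sys p X Ω A s) (T U : Finset X)
    (hTU : T ⊆ U) : S.Dp U (S.Ev T) := fun _ _ h =>
  ⟨JJ_half S T fun j x hx => h j x (hTU hx), JJ_half S T fun j x hx => (h j x (hTU hx)).symm⟩

open Classical in
theorem sys_dis {p : ℕ} [Fact p.Prime] {X Ω A : Type} [AddCommGroup A] {s : ℕ} {S : Sys p X Ω A s}
    {k N0 D1 D2 ρ C C' : ℕ} (hS : S.Ok k N0 D1 D2 ρ C C') {l : ℕ}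
    (T : Fin l → Finset X) (hT : ∀ i, Stb S.f S.G (T i) ∧ (T i).card = k) (hd : ∀ i j, i ≠ j → Disjoint (T i) (T j))
    (hl : l * k ≤ N0) : pr (fun a => ∀ i, S.Ev (T i) a) = ∏ i, pr (S.Ev (T i)) := by
  induction l with
  | zero =>
    have hΩ : (Nat.card Ω : ℝ) ≠ 0 := by
      have := hS.fin
      have := hS.ne
      exact_mod_cast (Nat.card_pos (α := Ω)).ne'
    rw [Finset.univ_eq_empty, Finset.prod_empty]
    unfold pr
    rw [Nat.card_congr (Equiv.subtypeUnivEquiv fun a i => i.elim0), div_self hΩ]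
  | succ l ih =>
    have h1 := ih (fun i => T i.castSucc) (fun i => hT i.castSucc)
      (fun i j hij => hd _ _ fun h => hij (Fin.castSucc_injective l h))
      (le_trans (Nat.mul_le_mul_right k (Nat.le_succ l)) hl)
    set U : Finset X := Finset.univ.biUnion fun i : Fin l => T i.castSucc with hU
    have hsub : ∀ i : Fin l, T i.castSucc ⊆ U := fun i =>
      Finset.subset_biUnion_of_mem (fun i : Fin l => T i.castSucc) (Finset.mem_univ i)
    have hUs : Stb S.f S.G U := by
      intro x hx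
      obtain ⟨i, _, hi⟩ := Finset.mem_biUnion.1 hx
      exact ⟨hsub i ((hT i.castSucc).1 x hi).1, ((hT i.castSucc).1 x hi).2⟩
    have hUc : U.card = l * k := by
      rw [hU, Finset.card_biUnion fun i _ j _ hij => hd _ _ fun h => hij (Fin.castSucc_injective l h)]
      rw [Finset.sum_congr rfl fun i _ => (hT (Fin.castSucc i)).2, Finset.sum_const, Finset.card_univ,
        Fintype.card_fin, smul_eq_mul]
    have hUd : Disjoint U (T (Fin.last l)) := by
      rw [hU, Finset.disjoint_biUnion_left]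
      exact fun i _ => hd _ _ (Fin.castSucc_lt_last i).ne
    have hc : U.card + (T (Fin.last l)).card ≤ N0 := by
      rw [hUc, (hT (Fin.last l)).2]
      have h2 : (l + 1) * k = l * k + k := by ring
      rw [← h2]
      exact hl
    have hB : S.Dp U fun a => ∀ i : Fin l, S.Ev (T i.castSucc) a := fun a b h =>
      forall_congr' fun i => JJ_dp S (T i.castSucc) U (hsub i) a b h
    have h3 := sys_ind hS hUs (hT (Fin.last l)).1 hUd hc hB (JJ_dp S _ _ (Finset.Subset.refl (T (Fin.last l))))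
    rw [Fin.prod_univ_castSucc, ← h1, ← h3]
    congr 1
    funext a
    rw [Fin.forall_fin_succ']

end DW
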