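import Pool.Agent.Lib.MP_17a322_ntDP.JH
import Pool.Agent.Lib.MP_17a322_ntDP.JI
import Pool.Agent.Lib.MP_17a322_ntDP.JJ
import Pool.Agent.Lib.MP_17a322_ntDP.HK
import Pool.Agent.Lib.MP_17a322_ntDP.HL

/-!
# The probability that there is no set of points
-/

set_option autoImplicit false

namespace DW

open Finset NumberField LVH VK VU FB DP

private theorem JM_nn {Ω : Type} (B : Ω → Prop) : 0 ≤ pr B := by
  unfold pr
  exact div_nonneg (Nat.cast_nonneg _) (Nat.cast_nonneg _)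

private theorem JM_congr {Ω : Type} {B B' : Ω → Prop} (h : ∀ a, B a ↔ B' a) : pr B = pr B' :=
  congrArg pr (funext fun a => propext (h a))

private theorem JM_true {Ω : Type} [Finite Ω] [Nonempty Ω] : pr (fun _ : Ω => True) = 1 := by
  unfold pr
  have h1 : Nat.card {a : Ω // True} = Nat.card Ω := Nat.card_congr (Equiv.subtypeUnivEquiv fun _ => trivial)
  rw [h1]
  exact div_self (Nat.cast_ne_zero.2 Nat.card_pos.ne')

private theorem JM_compl {Ω : Type} [Finite Ω] [Nonempty Ω] (B : Ω → Prop) : pr B + pr (fun a => ¬ B a) = 1 := by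
  classical
  unfold pr
  rw [← add_div, ← Nat.cast_add, ← Nat.card_sum, Nat.card_congr (Equiv.sumCompl B)]
  exact div_self (Nat.cast_ne_zero.2 Nat.card_pos.ne')

open Classical in
/-- the sum over the injective tuples and the power of the sum over all sets -/
private theorem JM_term {p : ℕ} [Fact p.Prime] {X Ω A : Type} [AddCommGroup A] {s : ℕ} {S : Sys p X Ω A s}
    {k N0 D1 D2 ρ C C' : ℕ} (hk : 1 ≤ k) (hS : S.Ok k N0 D1 D2 ρ C C')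
    (hE : k * (D2 + S.V.card) + ρ = D1 + S.V.card + k * (s + 1)) (hD : s + 2 ≤ D2 + S.V.card)
    (z : A) (𝒯 : Finset (Finset X)) (h𝒯 : ∀ T ∈ 𝒯, S.Tk k z T) (l : ℕ)
    (hl : l * k ≤ N0) :
    |(∑ T ∈ (Fintype.piFinset (fun _ : Fin l => 𝒯)).filter (fun T => Function.Injective T),
      pr (fun a => ∀ i, S.Ev (T i) a)) - (∑ T ∈ 𝒯, pr (S.Ev T)) ^ l| * (p : ℝ) ≤
      (l : ℝ) ^ 2 * (2 ^ N0 * (1 + k * (C : ℝ) ^ (S.V.card + 1)) + (C : ℝ) ^ S.V.card * C') ^ l := by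
  obtain ⟨PF, hPF⟩ : ∃ PF : Finset (Fin l → Finset X), PF = Fintype.piFinset (fun _ : Fin l => 𝒯) := ⟨_, rfl⟩
  have hmem : ∀ T ∈ PF, ∀ i, S.Tk k z (T i) := by
    intro T hT i
    rw [hPF, Fintype.mem_piFinset] at hT
    exact h𝒯 _ (hT i)
  have h1 : (∑ T ∈ 𝒯, pr (S.Ev T)) ^ l = ∑ T ∈ PF, ∏ i, pr (S.Ev (T i)) := by
    have h2 : ∏ _i : Fin l, ∑ T ∈ 𝒯, pr (S.Ev T) = (∑ T ∈ 𝒯, pr (S.Ev T)) ^ l := by
      rw [Finset.prod_const, Finset.card_univ, Fintype.card_fin]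
    rw [← h2, Finset.prod_univ_sum, hPF]
  have h2 : ∑ T ∈ PF, ∏ i, pr (S.Ev (T i)) =
      (∑ T ∈ PF.filter (fun T => ∃ i j, i ≠ j ∧ ¬ Disjoint (T i) (T j)), ∏ i, pr (S.Ev (T i))) +
      ∑ T ∈ PF.filter (fun T => ¬ ∃ i j, i ≠ j ∧ ¬ Disjoint (T i) (T j)), ∏ i, pr (S.Ev (T i)) :=
    (Finset.sum_filter_add_sum_filter_not _ _ _).symm
  have h3 : ∑ T ∈ PF.filter (fun T => Function.Injective T), pr (fun a => ∀ i, S.Ev (T i) a) =
      (∑ T ∈ PF.filter (fun T => Function.Injective T ∧ ∃ i j, i ≠ j ∧ ¬ Disjoint (T i) (T j)),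
        pr (fun a => ∀ i, S.Ev (T i) a)) +
      ∑ T ∈ PF.filter (fun T => ¬ ∃ i j, i ≠ j ∧ ¬ Disjoint (T i) (T j)), pr (fun a => ∀ i, S.Ev (T i) a) := by
    rw [← Finset.sum_filter_add_sum_filter_not (PF.filter fun T => Function.Injective T)
      (fun T => ∃ i j, i ≠ j ∧ ¬ Disjoint (T i) (T j)), Finset.filter_filter, Finset.filter_filter]
    congr 2
    refine Finset.filter_congr fun T hT => ⟨fun h => h.2, fun h => ⟨?_, h⟩⟩
    intro i j hij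
    by_contra hne
    apply h
    refine ⟨i, j, hne, fun hd => ?_⟩
    rw [← hij, disjoint_self, Finset.bot_eq_empty] at hd
    have h4 := (hmem T hT i).2.1
    rw [hd, Finset.card_empty] at h4
    omega
  have h4 : ∑ T ∈ PF.filter (fun T => ¬ ∃ i j, i ≠ j ∧ ¬ Disjoint (T i) (T j)), pr (fun a => ∀ i, S.Ev (T i) a) =
      ∑ T ∈ PF.filter (fun T => ¬ ∃ i j, i ≠ j ∧ ¬ Disjoint (T i) (T j)), ∏ i, pr (S.Ev (T i)) := by
    refine Finset.sum_congr rfl fun T hT => ?_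
    rw [Finset.mem_filter] at hT
    refine sys_dis hS T (fun i => ⟨(hmem T hT.1 i).1, (hmem T hT.1 i).2.1⟩) (fun i j hij => ?_) hl
    by_contra hd
    exact hT.2 ⟨i, j, hij, hd⟩
  rw [← hPF, h1, h2, h3, h4, add_sub_add_right_eq_sub]
  have h5 := (sys_ovl hS hE hD z 𝒯 h𝒯 l hl).trans (mul_le_mul_of_nonneg_left (pow_le_pow_left₀ (by positivity)
    (le_add_of_nonneg_right (show (0 : ℝ) ≤ (C : ℝ) ^ S.V.card * C' by positivity)) l) (by positivity))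
  have h6 := sys_ovp hS hE hD z 𝒯 h𝒯 l hl
  rw [← hPF] at h5 h6
  have hp : (0 : ℝ) ≤ p := Nat.cast_nonneg _
  have h7 : 0 ≤ ∑ T ∈ PF.filter (fun T => Function.Injective T ∧ ∃ i j, i ≠ j ∧ ¬ Disjoint (T i) (T j)),
      pr (fun a => ∀ i, S.Ev (T i) a) := Finset.sum_nonneg fun T _ => JM_nn _
  have h8 : 0 ≤ ∑ T ∈ PF.filter (fun T => ∃ i j, i ≠ j ∧ ¬ Disjoint (T i) (T j)), ∏ i, pr (S.Ev (T i)) :=
    Finset.sum_nonneg fun T _ => Finset.prod_nonneg fun i _ => JM_nn _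
  rcases le_total (∑ T ∈ PF.filter (fun T => Function.Injective T ∧ ∃ i j, i ≠ j ∧ ¬ Disjoint (T i) (T j)),
      pr (fun a => ∀ i, S.Ev (T i) a))
    (∑ T ∈ PF.filter (fun T => ∃ i j, i ≠ j ∧ ¬ Disjoint (T i) (T j)), ∏ i, pr (S.Ev (T i))) with h | h
  · rw [abs_sub_comm, abs_of_nonneg (sub_nonneg.2 h)]
    exact (mul_le_mul_of_nonneg_right (sub_le_self _ h7) hp).trans h6
  · rw [abs_of_nonneg (sub_nonneg.2 h)]
    exact (mul_le_mul_of_nonneg_right (sub_le_self _ h8) hp).trans h5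

open Classical in
theorem sys_main (k v C : ℕ) (hk : 1 ≤ k) : ∃ (L : ℕ) (κ0 : ℝ), 0 < κ0 ∧ κ0 ≤ 1 ∧ ∀ C' : ℕ, ∃ p1 : ℕ,
    ∀ (p : ℕ) [Fact p.Prime],
    p1 ≤ p → ∀ (X Ω A : Type) [AddCommGroup A] (s : ℕ) (S : Sys p X Ω A s) (D1 D2 ρ : ℕ), S.V.card ≤ v →
    S.Ok k (L * k) D1 D2 ρ C C' → k * (D2 + S.V.card) + ρ = D1 + S.V.card + k * (s + 1) → s + 2 ≤ D2 + S.V.card →
    ∀ z : A, pr (fun a => ∃ T, S.Tk k z T ∧ S.Ev T a) ≤ 1 - κ0 := by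
  obtain ⟨L, κ, hL, hκ, hexp⟩ := exp_num ((C + 1 : ℝ) ^ (v + 1)) (by positivity)
  have hκ2 : 0 < κ / 2 := half_pos hκ
  refine ⟨L, min (κ / 2) 1, lt_min hκ2 one_pos, min_le_right _ _, fun C' => ?_⟩
  obtain ⟨Kc, hKc⟩ : ∃ Kc : ℝ, Kc = 2 ^ (L * k) * (1 + k * (C + 1 : ℝ) ^ (v + 1)) + (C + 1 : ℝ) ^ (v + 1) * C' := ⟨_, rfl⟩
  obtain ⟨Bg, hBg⟩ : ∃ Bg : ℝ, Bg = ∑ l ∈ range (L + 1), (l : ℝ) ^ 2 * Kc ^ l := ⟨_, rfl⟩
  obtain ⟨p1, hp1⟩ := exists_nat_ge (Bg / (κ / 2))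
  have hp1' : Bg ≤ p1 * (κ / 2) := (div_le_iff₀ hκ2).1 hp1
  refine ⟨p1, ?_⟩
  intro p _ hpp X Ω A _ s S D1 D2 ρ hv hS hE hD z
  have hp : p.Prime := Fact.out
  have hp0 : (0 : ℝ) < p := Nat.cast_pos.2 hp.pos
  have hfin : Finite Ω := hS.fin
  have hne : Nonempty Ω := hS.ne
  have hL1 : 1 ≤ L := hL.pos
  have hC0 : (0 : ℝ) ≤ C := Nat.cast_nonneg _
  have hCC : (C : ℝ) ^ (S.V.card + 1) ≤ (C + 1 : ℝ) ^ (v + 1) := by
    calc (C : ℝ) ^ (S.V.card + 1) ≤ (C + 1 : ℝ) ^ (S.V.card + 1) := pow_le_pow_left₀ hC0 (by linarith) _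
      _ ≤ (C + 1 : ℝ) ^ (v + 1) := pow_le_pow_right₀ (by linarith) (by omega)
  -- the finite set of the sets
  obtain ⟨𝒯, h𝒯⟩ : ∃ 𝒯 : Finset (Finset X), ∀ T, T ∈ 𝒯 ↔ S.Tk k z T := by
    exact ⟨(hS.tkf z).toFinset, fun T => (hS.tkf z).mem_toFinset⟩
  have h𝒯' : ∀ T ∈ 𝒯, S.Tk k z T := fun T hT => (h𝒯 T).1 hT
  obtain ⟨S1, hS1⟩ : ∃ S1 : ℝ, S1 = ∑ T ∈ 𝒯, pr (S.Ev T) := ⟨_, rfl⟩
  have hS10 : 0 ≤ S1 := by
    rw [hS1]
    exact Finset.sum_nonneg fun T _ => JM_nn _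
  have hS1l : S1 ≤ (C + 1 : ℝ) ^ (v + 1) := by
    have h1 := sys_step (N0 := L * k) hS hE hD (U := ∅) (fun x hx => absurd hx (Finset.notMem_empty x)) (by
      rw [Finset.card_empty, zero_add]
      exact Nat.le_mul_of_pos_left k hL1) (B := fun _ => True) (fun a b _ => Iff.rfl) z 𝒯 h𝒯' hk le_rfl
    rw [JM_true, Finset.card_empty, pow_zero, one_mul, mul_one, Nat.sub_self, pow_zero, mul_one] at h1
    have h2 : 𝒯.filter (fun T => (T \ (∅ : Finset X)).card = k) = 𝒯 := by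
      refine Finset.filter_true_of_mem fun T hT => ?_
      rw [Finset.sdiff_empty]
      exact (h𝒯' T hT).2.1
    rw [h2] at h1
    have h3 : ∑ T ∈ 𝒯, pr (fun a => True ∧ S.Ev T a) = S1 := by
      rw [hS1]
      exact Finset.sum_congr rfl fun T _ => JM_congr fun a => ⟨fun h => h.2, fun h => ⟨trivial, h⟩⟩
    rw [h3] at h1
    exact h1.trans hCC
  have hb := bonf 𝒯 S.Ev L hL
  obtain ⟨D, hDd⟩ : ∃ D : ℕ → ℝ, D = fun l => ∑ T ∈ (Fintype.piFinset (fun _ : Fin l => 𝒯)).filter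
    (fun T => Function.Injective T), pr (fun a => ∀ i, S.Ev (T i) a) := ⟨_, rfl⟩
  have hterm : ∀ l ∈ range (L + 1), |D l - S1 ^ l| ≤ (l : ℝ) ^ 2 * Kc ^ l / p := by
    intro l hl
    rw [Finset.mem_range] at hl
    have h1 := JM_term hk hS hE hD z 𝒯 h𝒯' l (Nat.mul_le_mul_right k (by omega : l ≤ L))
    rw [← hS1] at h1
    rw [le_div_iff₀ hp0, hDd]
    refine h1.trans ?_
    refine mul_le_mul_of_nonneg_left (pow_le_pow_left₀ (by positivity) ?_ _) (by positivity)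
    rw [hKc]
    refine add_le_add ?_ ?_
    · refine mul_le_mul_of_nonneg_left ?_ (by positivity)
      have h2 : (k : ℝ) * (C : ℝ) ^ (S.V.card + 1) ≤ k * (C + 1 : ℝ) ^ (v + 1) :=
        mul_le_mul_of_nonneg_left hCC (Nat.cast_nonneg _)
      linarith
    · refine mul_le_mul_of_nonneg_right ?_ (Nat.cast_nonneg _)
      calc (C : ℝ) ^ S.V.card ≤ (C + 1 : ℝ) ^ S.V.card := pow_le_pow_left₀ hC0 (by linarith) _
        _ ≤ (C + 1 : ℝ) ^ (v + 1) := pow_le_pow_right₀ (by linarith) (by omega)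
  have hsum : (∑ l ∈ range (L + 1), (-1 : ℝ) ^ l / l.factorial * S1 ^ l) - Bg / p ≤
      ∑ l ∈ range (L + 1), (-1 : ℝ) ^ l / l.factorial * D l := by
    rw [hBg, Finset.sum_div, ← Finset.sum_sub_distrib]
    refine Finset.sum_le_sum fun l hl => ?_
    have h1 := hterm l hl
    have h2 : |(-1 : ℝ) ^ l / l.factorial * (D l - S1 ^ l)| ≤ (l : ℝ) ^ 2 * Kc ^ l / p := by
      rw [abs_mul]
      have h3 : |(-1 : ℝ) ^ l / l.factorial| ≤ 1 := by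
        rw [abs_div, abs_pow, abs_neg, abs_one, one_pow, Nat.abs_cast]
        have h4 : (1 : ℝ) ≤ l.factorial := by
          have h5 := Nat.factorial_pos l
          exact_mod_cast h5
        exact (div_le_one₀ (by linarith)).2 h4
      calc |(-1 : ℝ) ^ l / l.factorial| * |D l - S1 ^ l| ≤ 1 * |D l - S1 ^ l| :=
            mul_le_mul_of_nonneg_right h3 (abs_nonneg _)
        _ ≤ _ := by rw [one_mul]; exact h1
    have h3 := neg_le_of_abs_le h2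
    have h4 : (-1 : ℝ) ^ l / l.factorial * (D l - S1 ^ l) =
      (-1 : ℝ) ^ l / l.factorial * D l - (-1 : ℝ) ^ l / l.factorial * S1 ^ l := mul_sub _ _ _
    rw [h4] at h3
    linarith
  have hBp : Bg / p ≤ κ / 2 := by
    rw [div_le_iff₀ hp0]
    have h1 : (p1 : ℝ) ≤ p := Nat.cast_le.2 hpp
    nlinarith
  have hex := hexp S1 hS10 hS1l
  have hnone : κ / 2 ≤ pr (fun a => ∀ T ∈ 𝒯, ¬ S.Ev T a) := by
    have h1 : ∑ l ∈ range (L + 1), (-1 : ℝ) ^ l / l.factorial * D l ≤ pr (fun a => ∀ T ∈ 𝒯, ¬ S.Ev T a) := by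
      refine le_trans (le_of_eq (Finset.sum_congr rfl fun l _ => ?_)) hb
      rw [hDd]
      refine congrArg _ (Finset.sum_congr ?_ fun _ _ => rfl)
      ext T
      simp only [Finset.mem_filter]
    linarith
  have hc := JM_compl fun a => ∃ T, S.Tk k z T ∧ S.Ev T a
  have hc2 : pr (fun a => ¬ ∃ T, S.Tk k z T ∧ S.Ev T a) = pr (fun a => ∀ T ∈ 𝒯, ¬ S.Ev T a) := by
    refine JM_congr fun a => ⟨fun h T hT hE => h ⟨T, h𝒯' T hT, hE⟩, ?_⟩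
    rintro h ⟨T, hT, hE⟩
    exact h T ((h𝒯 T).2 hT) hE
  rw [hc2] at hc
  have h1 : min (κ / 2) 1 ≤ κ / 2 := min_le_left _ _
  linarith

end DW
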