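import Pool.Agent.Lib.MP_17a322_ntDP.Defs3
import Pool.Agent.Lib.MP_17a322_ntDP.GB

/-!
# LEAF NA: places of extensions and of subfields

PROOF.  `ex_below`: `P = {a : 𝓞 L | rf Λ (σ a) = 0}` is a prime ideal (the kernel of the homomorphism `a ↦ Λ.ρ (σ a)`, `σ a ∈ Λ.V` by `FB.int_mem` or integrality), different from `⊥` (it contains `p`: `hp`; `(p : F) = 0`).  `w = FinitePlace.mk` of it.  `w x ≤ 1`: by `loc_frac` (leaf GA) `x * b = a`, `w b = 1`, so `b ∉ P`, `rf Λ (σ b) ≠ 0`, `(σ b)⁻¹ ∈ Λ.V` (`Λ.ker`), `σ x ∈ Λ.V`.  `w x > 1`: then `x⁻¹ * b = a` with `w b = 1`, `w a < 1`, so `σ x⁻¹ ∈ Λ.V` has residue `0`, and `σ x ∈ Λ.V` would give `1 = 0`.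
`ex_above`: `v = FinitePlace.mk Q` (`Q` a prime of `𝓞 K`), `P` a maximal ideal of `𝓞 N` over `Q`, `F = 𝓞 N ⧸ P`, `Λ` from `ex_pf (Ideal.Quotient.mk P)`; `p` the characteristic (a prime number in `Q`).  `v x ≤ 1 → algebraMap x ∈ Λ.V`: `loc_frac`, `b ∉ Q` is not in `P`; conversely as above with `x⁻¹`.
`off_of`: `S` and `v ∉ S`; `w` a place of `L` with `w (algebraMap a) ≤ 1 ↔ v a ≤ 1` for all `a : K`: for `v' ∈ S`, `v' ≠ v`, the primes of `v'` and `v` are different, so there is `a : 𝓞 K` in the first and not in the second: `v' a < 1`, `v a = 1`, hence `w a = 1` (`v a ≤ 1`, `v a⁻¹ ≤ 1`).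
-/

set_option autoImplicit false

namespace DP

open Finset NumberField LVH VK FB

private theorem NA_mem {L N F : Type} [Field L] [NumberField L] [Field N] [Field F] (σ : L →+* N) (Λ : PF N F)
    (a : 𝓞 L) : σ (a : L) ∈ Λ.V := by
  have h0 : IsIntegral ℤ (a : L) := NumberField.RingOfIntegers.isIntegral_coe a
  have h1 : IsIntegral ℤ (σ (a : L)) := h0.map σ.toIntAlgHom
  have h2 : IsIntegral Λ.V (σ (a : L)) := h1.tower_top
  obtain ⟨y, hy⟩ := IsIntegrallyClosed.isIntegral_iff.mp h2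
  rw [← hy]
  exact y.2

private theorem NA_key {L N F : Type} [Field L] [NumberField L] [Field N] [Field F] (σ : L →+* N) (Λ : PF N F)
    (P : IsDedekindDomain.HeightOneSpectrum (𝓞 L)) (hP : ∀ a : 𝓞 L, a ∈ P.asIdeal ↔ rf Λ (σ (a : L)) = 0) (x : L) :
    σ x ∈ Λ.V ↔ FinitePlace.mk P x ≤ 1 := by
  constructor
  · intro hx
    by_contra hw
    push Not at hw
    have hx0 : x ≠ 0 := by
      rintro rfl
      rw [map_zero] at hw
      exact absurd hw (by norm_num)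
    have h1 : FinitePlace.mk P x⁻¹ < 1 := by
      rw [map_inv₀]
      exact inv_lt_one_of_one_lt₀ hw
    obtain ⟨a, b, hb, hab⟩ := loc_frac (FinitePlace.mk P) h1.le
    have ha : FinitePlace.mk P (a : L) < 1 := by
      rw [← hab, map_mul, hb, mul_one]
      exact h1
    have ha' : a ∈ P.asIdeal := (FinitePlace.norm_lt_one_iff_mem L P a).1 (by rw [← FinitePlace.mk_apply]; exact ha)
    have hb' : b ∉ P.asIdeal := (FinitePlace.norm_eq_one_iff_notMem L P b).1 (by rw [← FinitePlace.mk_apply]; exact hb)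
    apply hb'
    rw [hP]
    have e : (b : L) = x * (a : L) := by
      rw [← hab, ← mul_assoc, mul_inv_cancel₀ hx0, one_mul]
    have r1 : Rf Λ (σ (a : L)) 0 := by
      have := rf_res (NA_mem σ Λ a)
      rw [(hP a).1 ha'] at this
      exact this
    have r2 : Rf Λ (σ (b : L)) (rf Λ (σ x) * 0) := by
      rw [e, map_mul]
      exact (rf_res hx).mul r1
    rw [mul_zero] at r2
    exact FB.res_eq r2
  · intro hx
    obtain ⟨a, b, hb, hab⟩ := loc_frac (FinitePlace.mk P) hx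
    have hb' : b ∉ P.asIdeal := (FinitePlace.norm_eq_one_iff_notMem L P b).1 (by rw [← FinitePlace.mk_apply]; exact hb)
    have hb0 : (b : L) ≠ 0 := by
      intro h
      rw [h, map_zero] at hb
      exact zero_ne_one hb
    have hσb : σ (b : L) ≠ 0 := (map_ne_zero σ).2 hb0
    have hi : (σ (b : L))⁻¹ ∈ Λ.V := by
      by_contra h
      exact hb' ((hP b).2 ((FB.res_zero Λ (NA_mem σ Λ b)).2 (Or.inr h)))
    have e : σ x = σ (a : L) * (σ (b : L))⁻¹ := by
      rw [← hab, map_mul, mul_assoc, mul_inv_cancel₀ hσb, mul_one]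
    rw [e]
    exact Λ.V.mul_mem _ _ (NA_mem σ Λ a) hi

theorem ex_below {L N F : Type} [Field L] [NumberField L] [Field N] [NumberField N] [Field F] (σ : L →+* N) (Λ : PF N F)
    {p : ℕ} (hp : p ≠ 0) (hpF : (p : F) = 0) : ∃ w : FinitePlace L, ∀ x : L, σ x ∈ Λ.V ↔ w x ≤ 1 := by
  obtain ⟨f, hf⟩ : ∃ f : 𝓞 L →+* F, ∀ a : 𝓞 L, f a = rf Λ (σ (a : L)) := by
    refine ⟨{ toFun := fun a => rf Λ (σ (a : L))
              map_one' := ?_
              map_mul' := ?_
              map_zero' := ?_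
              map_add' := ?_ }, fun a => rfl⟩
    · refine FB.res_eq ?_
      have e : σ ((1 : 𝓞 L) : L) = 1 := map_one σ
      rw [e]
      exact Rf.one
    · intro a b
      refine FB.res_eq ?_
      have e : σ ((a * b : 𝓞 L) : L) = σ (a : L) * σ (b : L) := map_mul σ _ _
      rw [e]
      exact (rf_res (NA_mem σ Λ a)).mul (rf_res (NA_mem σ Λ b))
    · refine FB.res_eq ?_
      have e : σ ((0 : 𝓞 L) : L) = 0 := map_zero σ
      rw [e]
      exact Rf.zero
    · intro a b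
      refine FB.res_eq ?_
      have e : σ ((a + b : 𝓞 L) : L) = σ (a : L) + σ (b : L) := map_add σ _ _
      rw [e]
      exact (rf_res (NA_mem σ Λ a)).add (rf_res (NA_mem σ Λ b))
  have hbot : RingHom.ker f ≠ ⊥ := by
    intro h
    have h1 : ((p : ℕ) : 𝓞 L) ∈ RingHom.ker f := by
      rw [RingHom.mem_ker, map_natCast, hpF]
    rw [h, Ideal.mem_bot, Nat.cast_eq_zero] at h1
    exact hp h1
  let P : IsDedekindDomain.HeightOneSpectrum (𝓞 L) := ⟨RingHom.ker f, RingHom.ker_isPrime f, hbot⟩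
  refine ⟨FinitePlace.mk P, fun x => NA_key σ Λ P (fun a => ?_) x⟩
  rw [← hf a]
  exact RingHom.mem_ker

theorem ex_above {K N : Type} [Field K] [NumberField K] [Field N] [NumberField N] [Algebra K N] (v : FinitePlace K) :
    ∃ (F : Type) (_ : Field F) (Λ : PF N F) (p : ℕ), p ≠ 0 ∧ (p : F) = 0 ∧
      ∀ x : K, algebraMap K N x ∈ Λ.V ↔ v x ≤ 1 := by
  obtain ⟨Q, rfl⟩ : ∃ Q : IsDedekindDomain.HeightOneSpectrum (𝓞 K), FinitePlace.mk Q = v :=
    ⟨v.maximalIdeal, FinitePlace.mk_maximalIdeal v⟩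
  have hQm : Q.asIdeal.IsMaximal := Q.isMaximal
  obtain ⟨P, hPm, hPQ⟩ := Ideal.exists_maximal_ideal_liesOver_of_isIntegral (S := 𝓞 N) Q.asIdeal
  have hcomap : Q.asIdeal = P.comap (algebraMap (𝓞 K) (𝓞 N)) := hPQ.over
  have hbot : P ≠ ⊥ := by
    rintro rfl
    apply Q.ne_bot
    rw [hcomap]
    exact Ideal.comap_bot_of_injective _ (FaithfulSMul.algebraMap_injective (𝓞 K) (𝓞 N))
  let hF : Field (𝓞 N ⧸ P) := Ideal.Quotient.field P
  have hn : Ideal.absNorm P ≠ 0 := by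
    rw [Ne, Ideal.absNorm_eq_zero_iff]
    exact hbot
  have hmem : ((Ideal.absNorm P : ℕ) : 𝓞 N) ∈ P := Ideal.absNorm_mem P
  have hz : Ideal.Quotient.mk P ((Ideal.absNorm P : ℕ) : 𝓞 N) = 0 := Ideal.Quotient.eq_zero_iff_mem.2 hmem
  obtain ⟨Λ, h1, -⟩ := ex_pf (F := 𝓞 N ⧸ P) (Ideal.Quotient.mk P)
    ⟨((Ideal.absNorm P : ℕ) : 𝓞 N), by exact_mod_cast hn, hz⟩
  refine ⟨𝓞 N ⧸ P, hF, Λ, Ideal.absNorm P, hn, ?_, fun x => ?_⟩
  · rw [← map_natCast (Ideal.Quotient.mk P)]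
    exact hz
  · refine NA_key (algebraMap K N) Λ Q (fun a => ?_) x
    have e : algebraMap K N (a : K) = ((algebraMap (𝓞 K) (𝓞 N) a : 𝓞 N) : N) := rfl
    rw [e, FB.res_eq (h1 _), Ideal.Quotient.eq_zero_iff_mem, hcomap, Ideal.mem_comap]

theorem off_of {K L : Type} [Field K] [NumberField K] [Field L] [NumberField L] [Algebra K L] {S : Finset (FinitePlace K)}
    {v : FinitePlace K} (hv : v ∉ S) {w : FinitePlace L} (h : ∀ a : K, w (algebraMap K L a) ≤ 1 ↔ v a ≤ 1) :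
    Off S w := by
  intro v' hv'
  have hne : v' ≠ v := by
    rintro rfl
    exact hv hv'
  obtain ⟨Q, rfl⟩ : ∃ Q : IsDedekindDomain.HeightOneSpectrum (𝓞 K), FinitePlace.mk Q = v :=
    ⟨v.maximalIdeal, FinitePlace.mk_maximalIdeal v⟩
  obtain ⟨Q', rfl⟩ : ∃ Q' : IsDedekindDomain.HeightOneSpectrum (𝓞 K), FinitePlace.mk Q' = v' :=
    ⟨v'.maximalIdeal, FinitePlace.mk_maximalIdeal v'⟩
  obtain ⟨a, ha', ha⟩ : ∃ a : 𝓞 K, a ∈ Q'.asIdeal ∧ a ∉ Q.asIdeal := by
    by_contra hcon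
    push Not at hcon
    have hle : Q'.asIdeal ≤ Q.asIdeal := fun a ha => hcon a ha
    have heq : Q'.asIdeal = Q.asIdeal := Q'.isMaximal.eq_of_le Q.isPrime.ne_top hle
    apply hne
    rw [IsDedekindDomain.HeightOneSpectrum.ext heq]
  have h1 : FinitePlace.mk Q' (a : K) < 1 := by
    rw [FinitePlace.mk_apply]
    exact (FinitePlace.norm_lt_one_iff_mem K Q' a).2 ha'
  have h2 : FinitePlace.mk Q (a : K) = 1 := by
    rw [FinitePlace.mk_apply]
    exact (FinitePlace.norm_eq_one_iff_notMem K Q a).2 ha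
  refine ⟨(a : K), h1, ?_⟩
  have h3 : w (algebraMap K L (a : K)) ≤ 1 := (h _).2 h2.le
  have h4 : w (algebraMap K L (a : K)⁻¹) ≤ 1 := (h _).2 (by rw [map_inv₀, h2, inv_one])
  have ha0 : (a : K) ≠ 0 := by
    intro h0
    rw [h0, map_zero] at h2
    exact zero_ne_one h2
  rw [map_inv₀, map_inv₀] at h4
  have hpos : 0 < w (algebraMap K L (a : K)) := by
    have hx : algebraMap K L (a : K) ≠ 0 := (map_ne_zero _).2 ha0
    exact (FinitePlace.pos_iff).2 hx
  refine le_antisymm h3 ?_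
  have h5 := (inv_le_one₀ hpos).1 h4
  exact h5

end DP
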