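import Pool.Agent.Lib.MP_17a322_ntDP.DefsG
import Pool.Agent.Lib.MP_17a322_ntDP.NA
import Pool.Agent.Lib.MP_17a322_ntDP.AS
import Pool.Agent.Lib.MP_17a322_ntVY.Stmt2
import Pool.Agent.Lib.MP_17a322_ntVU.W1

/-!
# LEAF KA: points of degree one

PROOF.  `finrank K L ≤ 1` (and `≥ 1`), so `algebraMap K L` is bijective (`finrank_eq_one_iff_of_nonzero'`, or `Subalgebra.bot_eq_top_of_finrank_eq_one`): all elements of `L` are `algebraMap` of elements of `K`: `x = algebraMap ∘ x0`, `u = algebraMap ∘ u0`, `P l = (P0 l).map (both coordinates)`, `γ`, `t` as well.  `sM` of the images is the image of `sM` (`map_sum`, `map_mul`, `map_zpow₀`, cases for `RamCov.bas`; see the private lemmas in GK.lean, GV.lean or FB_.lean of this folder), `IsPt` by injectivity.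
PLACES.  For `v ∉ S` there is a finite place `w` of `L` with `w (algebraMap K L a) ≤ 1 ↔ v a ≤ 1` for all `a` (`ex_above v` with `N = L`, then `ex_below (RingHom.id L) Λ`, leaf NA), so `Off S w` (`off_of`), and `w (algebraMap a) = 1 ↔ v a = 1` (use `a` and `a⁻¹`; `a = 0` gives `0` on both sides).  So `v (x0 l) = 1` for `v ∉ S`, i.e. `x0 l` and the `γ` are in `Su S` (`Su` is in `MP_17a322_ntVU/W1.lean`).
LOCAL HEIGHTS.  `lf w ν d P u = (⨆ i, w (u i)) ^ ν * ∏ l, max 1 (w (X l)) ^ d l`, `X l` the `x`-coordinate (`0` for the point at infinity).  Choose `i0` with `v (u0 i0) = ⨆ i, v (u0 i)` (`exists_eq_ciSup_of_finite`; `≠ 0` as `u0 ≠ 0`); then `w` of the images has its maximum at `i0` too (`v (u0 i / u0 i0) ≤ 1`), and `Y l = X l` if `v (X l) > 1`, otherwise `Y l = 1`.  So `w f = lf w ..` says `w (f / (u i0 ^ ν * ∏ l, Y l ^ d l)) = 1`, which gives `v (f0 / ..) = 1`, i.e. `v f0 = lf v ..`.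
-/

set_option autoImplicit false

namespace DP

open Finset NumberField LVH VK VU FB

/-- a basis function at the image of a point -/
private theorem KA_bas {L N : Type} [Field L] [Field N] (σ : L →+* N) (d : ℕ) (P : Option (L × L)) (k : RamCov.Ix d) :
    RamCov.bas N d (mpO σ P) k = σ (RamCov.bas L d P k) := by
  rcases P with _ | z
  · rcases k with i | i
    · show (if i = Fin.last d then (1 : N) else 0) = σ (if i = Fin.last d then (1 : L) else 0)
      rw [apply_ite σ, map_one, map_zero]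
    · show (0 : N) = σ 0
      rw [map_zero]
  · rcases k with i | i
    · show σ z.1 ^ (i : ℕ) = σ (z.1 ^ (i : ℕ))
      rw [map_pow]
    · show σ z.1 ^ (i : ℕ) * σ z.2 = σ (z.1 ^ (i : ℕ) * z.2)
      rw [map_mul, map_pow]

/-- a section at the image of a point -/
private theorem KA_sM {L N : Type} [Field L] [Field N] (σ : L →+* N) {n q M s : ℕ} {ι : Type} [Fintype ι] {ν : Fin s → ℕ}
    {d : Fin s → Fin q → ℕ} (E : Fin s → ι → Fin n → ℤ) (a : IxM ι M ν d → L) (x : Fin n → L)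
    (P : Fin q → Option (L × L)) (u : Fin (M + 1) → L) (j : Fin s) :
    sM E (fun t => σ (a t)) (fun l => σ (x l)) (fun l => mpO σ (P l)) (fun i => σ (u i)) j = σ (sM E a x P u j) := by
  unfold sM
  rw [map_sum]
  refine Finset.sum_congr rfl fun t _ => ?_
  rw [map_mul, map_mul]
  congr 2
  · unfold MWS.mo
    rw [map_prod]
    exact Finset.prod_congr rfl fun i _ => (map_pow σ _ _).symm
  · unfold bT
    rw [map_mul, map_prod, map_prod]
    congr 1
    · exact Finset.prod_congr rfl fun i _ => (map_zpow₀ σ _ _).symm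
    · exact Finset.prod_congr rfl fun l _ => KA_bas σ _ _ _

private theorem KA_elim {L N : Type} [Field L] [Field N] (σ : L →+* N) (z : Option (L × L)) :
    (mpO σ z).elim 0 Prod.fst = σ (z.elim 0 Prod.fst) := by
  rcases z with _ | z
  · exact (map_zero σ).symm
  · rfl

private theorem KA_pt {L N : Type} [Field L] [Field N] (σ : L →+* N) {A B : L} {z : Option (L × L)}
    (h : IsPt (σ A) (σ B) (mpO σ z)) : IsPt A B z := by
  rcases z with _ | z
  · trivial
  · have h1 : σ z.2 ^ 2 = σ z.1 ^ 3 + σ A * σ z.1 + σ B := h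
    show z.2 ^ 2 = z.1 ^ 3 + A * z.1 + B
    apply σ.injective
    rw [map_pow, map_add, map_add, map_pow, map_mul]
    exact h1

/-- an extension of degree one -/
private theorem KA_surj {K L : Type} [Field K] [NumberField K] [Field L] [NumberField L] [Algebra K L]
    (h : Module.finrank K L ≤ 1) (y : L) : ∃ a : K, algebraMap K L a = y := by
  have : Module.Finite K L := Module.Finite.of_restrictScalars_finite ℚ K L
  have h0 : 0 < Module.finrank K L := Module.finrank_pos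
  have h1 : Module.finrank K L = 1 := by omega
  have h2 := Subalgebra.bot_eq_top_of_finrank_eq_one h1
  have h3 : y ∈ (⊥ : Subalgebra K L) := by
    rw [h2]
    exact Algebra.mem_top
  exact Algebra.mem_bot.1 h3

private theorem KA_place {K L : Type} [Field K] [NumberField K] [Field L] [NumberField L] [Algebra K L]
    {S : Finset (FinitePlace K)} {v : FinitePlace K} (hv : v ∉ S) :
    ∃ w : FinitePlace L, (∀ a : K, w (algebraMap K L a) ≤ 1 ↔ v a ≤ 1) ∧ Off S w := by
  obtain ⟨F, _, Λ, p, hp, hpF, h1⟩ := ex_above (K := K) (N := L) v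
  obtain ⟨w, h2⟩ := ex_below (RingHom.id L) Λ hp hpF
  have h3 : ∀ a : K, w (algebraMap K L a) ≤ 1 ↔ v a ≤ 1 := fun a => (h2 (algebraMap K L a)).symm.trans (h1 a)
  exact ⟨w, h3, off_of hv h3⟩

private theorem KA_eq {K : Type} [Field K] [NumberField K] (v : FinitePlace K) (a : K) :
    v a = 1 ↔ a ≠ 0 ∧ v a ≤ 1 ∧ v a⁻¹ ≤ 1 := by
  constructor
  · intro h
    refine ⟨?_, h.le, ?_⟩
    · rintro rfl
      rw [map_zero] at h
      exact zero_ne_one h
    · rw [map_inv₀, h, inv_one]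
  · rintro ⟨h0, h1, h2⟩
    rw [map_inv₀] at h2
    have hpos : 0 < v a := (FinitePlace.pos_iff).2 h0
    exact le_antisymm h1 ((inv_le_one₀ hpos).1 h2)

private theorem KA_one {K L : Type} [Field K] [NumberField K] [Field L] [NumberField L] {σ : K →+* L}
    {v : FinitePlace K} {w : FinitePlace L} (h : ∀ a : K, w (σ a) ≤ 1 ↔ v a ≤ 1) (a : K) : w (σ a) = 1 ↔ v a = 1 := by
  rw [KA_eq, KA_eq, h, ← map_inv₀, h, Ne, map_eq_zero σ]

private theorem KA_le {K L : Type} [Field K] [NumberField K] [Field L] [NumberField L] {σ : K →+* L}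
    {v : FinitePlace K} {w : FinitePlace L} (h : ∀ a : K, w (σ a) ≤ 1 ↔ v a ≤ 1) {a b : K} (hb : b ≠ 0)
    (hab : v a ≤ v b) : w (σ a) ≤ w (σ b) := by
  have h1 : 0 < v b := (FinitePlace.pos_iff).2 hb
  have h2 : 0 < w (σ b) := (FinitePlace.pos_iff).2 ((map_ne_zero σ).2 hb)
  have h3 : v (a / b) ≤ 1 := by
    rw [map_div₀]
    exact (div_le_one h1).2 hab
  have h4 := (h _).2 h3
  rw [map_div₀, map_div₀] at h4
  exact (div_le_one h2).1 h4

/-- the local heights -/
private theorem KA_lf {K L : Type} [Field K] [NumberField K] [Field L] [NumberField L] {σ : K →+* L}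
    {v : FinitePlace K} {w : FinitePlace L} (h : ∀ a : K, w (σ a) ≤ 1 ↔ v a ≤ 1) {q M : ℕ} (ν : ℕ) (d : Fin q → ℕ)
    (P : Fin q → Option (K × K)) (u : Fin (M + 1) → K) (hu : u ≠ 0) (f : K)
    (hf : w (σ f) = lf w ν d (fun l => mpO σ (P l)) (fun i => σ (u i))) : v f = lf v ν d P u := by
  obtain ⟨i0, hi0⟩ := exists_eq_ciSup_of_finite (f := fun i => v (u i))
  have hle : ∀ i, v (u i) ≤ v (u i0) := by
    intro i
    have h1 := le_ciSup (Finite.bddAbove_range fun i => v (u i)) i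
    rw [← hi0] at h1
    exact h1
  have hui0 : u i0 ≠ 0 := by
    intro h0
    apply hu
    funext i
    by_contra hi
    have h1 : 0 < v (u i) := (FinitePlace.pos_iff).2 hi
    have h2 := hle i
    rw [h0, map_zero] at h2
    exact absurd h1 (not_lt.2 h2)
  obtain ⟨Y, hY⟩ : ∃ Y : Fin q → K, ∀ l, Y l ≠ 0 ∧ max 1 (v ((P l).elim 0 Prod.fst)) = v (Y l) ∧
      max 1 (w (σ ((P l).elim 0 Prod.fst))) = w (σ (Y l)) := by
    have hex : ∀ X : K, ∃ Y : K, Y ≠ 0 ∧ max 1 (v X) = v Y ∧ max 1 (w (σ X)) = w (σ Y) := by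
      intro X
      by_cases hX : v X ≤ 1
      · exact ⟨1, one_ne_zero, by rw [max_eq_left hX, map_one], by rw [max_eq_left ((h X).2 hX), map_one, map_one]⟩
      · refine ⟨X, ?_, max_eq_right (not_le.1 hX).le, max_eq_right (not_le.1 fun h' => hX ((h X).1 h')).le⟩
        rintro rfl
        apply hX
        rw [map_zero]
        exact zero_le_one
    exact ⟨fun l => (hex ((P l).elim 0 Prod.fst)).choose, fun l => (hex ((P l).elim 0 Prod.fst)).choose_spec⟩
  obtain ⟨D, hD⟩ : ∃ D : K, D = u i0 ^ ν * ∏ l, Y l ^ d l := ⟨_, rfl⟩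
  have hD0 : D ≠ 0 := by
    rw [hD]
    exact mul_ne_zero (pow_ne_zero _ hui0) (Finset.prod_ne_zero_iff.2 fun l _ => pow_ne_zero _ (hY l).1)
  have h1 : lf v ν d P u = v D := by
    unfold lf
    rw [hD, map_mul, map_pow, map_prod, ← hi0]
    congr 1
    exact Finset.prod_congr rfl fun l _ => by rw [(hY l).2.1, map_pow]
  have h2 : lf w ν d (fun l => mpO σ (P l)) (fun i => σ (u i)) = w (σ D) := by
    have h3 : (⨆ i, w (σ (u i))) = w (σ (u i0)) := by
      apply le_antisymm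
      · exact ciSup_le fun i => KA_le h hui0 (hle i)
      · exact le_ciSup (Finite.bddAbove_range fun i => w (σ (u i))) i0
    unfold lf
    rw [h3, hD, map_mul, map_mul, map_pow, map_pow, map_prod, map_prod]
    congr 1
    exact Finset.prod_congr rfl fun l _ => by rw [KA_elim, (hY l).2.2, map_pow, map_pow]
  rw [h2] at hf
  have h4 : w (σ (f / D)) = 1 := by
    rw [map_div₀, map_div₀, hf]
    exact div_self ((FinitePlace.pos_iff).2 ((map_ne_zero σ).2 hD0)).ne'
  have h5 : v (f / D) = 1 := (KA_one h _).1 h4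
  rw [map_div₀] at h5
  have h6 : 0 < v D := (FinitePlace.pos_iff).2 hD0
  rw [h1]
  exact (div_eq_one_iff_eq h6.ne').1 h5

private theorem KA_mpO {K L : Type} [Field K] [Field L] (σ : K →+* L) (hσ : ∀ y, ∃ a, σ a = y) (z : Option (L × L)) :
    ∃ z0 : Option (K × K), mpO σ z0 = z := by
  rcases z with _ | z
  · exact ⟨none, rfl⟩
  · obtain ⟨a, ha⟩ := hσ z.1
    obtain ⟨b, hb⟩ := hσ z.2
    exact ⟨some (a, b), congrArg some (Prod.ext ha hb)⟩

open Classical in
theorem intG_one {K : Type} [Field K] [NumberField K] {n h g M w s : ℕ} {κ ι : Type} [Fintype κ] [Fintype ι]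
    {δ : Fin w → ℕ} {d' : Fin w → Fin h → ℕ} {ν : Fin s → ℕ} {d : Fin s → Fin (h + g) → ℕ} {S : Finset (FinitePlace K)}
    {W : Finset (Fin w)} {V R : Finset (Fin s)} {ρ : Fin s → ℕ} {E' : Fin w → κ → Fin n → ℤ}
    {b : IxM κ M δ d' → K} {E : Fin s → ι → Fin n → ℤ} {A B : Fin (h + g) → K} {a : IxM ι M ν d → K}
    (hI : IntG 1 S W V R ρ E' b E A B a) : IntQ (Su S) S W V R ρ E' b E A B a := by
  obtain ⟨L, _, _, _, hk, x, P, u, hx0, hP, hu, hb0, ha0, hR, hv⟩ := hI
  obtain ⟨σ, hσ⟩ : ∃ σ : K →+* L, σ = algebraMap K L := ⟨_, rfl⟩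
  have hsur : ∀ y : L, ∃ a : K, σ a = y := by
    intro y
    rw [hσ]
    exact KA_surj hk y
  have hpl : ∀ v : FinitePlace K, v ∉ S → ∃ w : FinitePlace L, (∀ a : K, w (σ a) ≤ 1 ↔ v a ≤ 1) ∧ Off S w := by
    intro v hv
    rw [hσ]
    exact KA_place hv
  rw [← hσ] at hP hb0 ha0 hR hv
  choose x0 hx using fun l => hsur (x l)
  choose P0 hP0 using fun l => KA_mpO σ hsur (P l)
  choose u0 hu0 using fun l => hsur (u l)
  obtain rfl : x = fun l => σ (x0 l) := funext fun l => (hx l).symm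
  obtain rfl : P = fun l => mpO σ (P0 l) := funext fun l => (hP0 l).symm
  obtain rfl : u = fun l => σ (u0 l) := funext fun l => (hu0 l).symm
  have hx0' : ∀ l, x0 l ≠ 0 := fun l => (map_ne_zero σ).1 (hx0 l)
  have hu' : u0 ≠ 0 := by
    rintro rfl
    apply hu
    funext i
    exact map_zero σ
  refine ⟨fun l => Units.mk0 (x0 l) (hx0' l), ?_, P0, u0, ?_, hu', ?_, ?_, ?_, ?_⟩
  · intro l v hvS
    obtain ⟨w, h1, h2⟩ := hpl v hvS
    exact (KA_one h1 (x0 l)).1 ((hv w h2).1 l)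
  · exact fun l => KA_pt σ (hP l)
  · intro i hi
    have h1 := hb0 i hi
    rw [KA_sM σ E' b x0 (fun l => P0 (Fin.castAdd g l)) u0 i] at h1
    exact (map_eq_zero σ).1 h1
  · intro j hj hj'
    have h1 := ha0 j hj hj'
    rw [KA_sM σ E a x0 P0 u0 j] at h1
    exact (map_eq_zero σ).1 h1
  · intro j hj
    obtain ⟨γ, t, hγ, h1, h2⟩ := hR j hj
    obtain ⟨γ0, rfl⟩ := hsur γ
    obtain ⟨t0, rfl⟩ := hsur t
    rw [KA_sM σ E a x0 P0 u0 j, ← map_pow, ← map_mul] at h2
    refine ⟨Units.mk0 γ0 ((map_ne_zero σ).1 hγ), ?_, t0, σ.injective h2⟩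
    intro v hvS
    obtain ⟨w, h3, h4⟩ := hpl v hvS
    exact (KA_one h3 γ0).1 (h1 w h4)
  · intro v hvS
    obtain ⟨w, h3, h4⟩ := hpl v hvS
    obtain ⟨-, h5, h6⟩ := hv w h4
    refine ⟨fun i hi => ?_, fun j hj => ?_⟩
    · have h7 := h5 i hi
      rw [KA_sM σ E' b x0 (fun l => P0 (Fin.castAdd g l)) u0 i] at h7
      exact KA_lf h3 _ _ _ _ hu' _ h7
    · have h7 := h6 j hj
      rw [KA_sM σ E a x0 P0 u0 j] at h7
      exact KA_lf h3 _ _ _ _ hu' _ h7

end DP
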