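import Pool.Agent.Lib.MP_17a322_ntDP.AS
import Pool.Agent.Lib.MP_17a322_ntDP.EH
import Pool.Agent.Lib.MP_17a322_ntDP.EI
import Pool.Agent.Lib.MP_17a322_ntDP.Defs4

/-!
# LEAF WB: the number of the base points of the tuples of a pattern

PROOF.  The finset `B` in the proof of `pat_T` (`AA.lean`): copy (private lemma `AA_pi` too, prefix `WB_`), `C = (max C1 1) ^ n * (max C2 1) ^ q`, `C1` from `base_T k`, `C2` from `base_E k`, `p1 = max q1 q2`.
-/

set_option autoImplicit false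

namespace DP

open Finset NumberField LVH VK FB

private theorem WB_pi {ι : Type} [Fintype ι] (f : ι → ℕ) (C q p : ℕ) (h : ∀ l, f l * p ≤ C * q) :
    (∏ l, f l) * p ^ Fintype.card ι ≤ C ^ Fintype.card ι * q ^ Fintype.card ι := by
  calc (∏ l, f l) * p ^ Fintype.card ι = ∏ l, (f l * p) := by
        rw [Finset.prod_mul_distrib, Finset.prod_const, Finset.card_univ]
    _ ≤ ∏ _l : ι, (C * q) := Finset.prod_le_prod' fun l _ => h l
    _ = C ^ Fintype.card ι * q ^ Fintype.card ι := by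
        rw [Finset.prod_const, Finset.card_univ, mul_pow]

open Classical in
theorem pat_TP (n q M k : ℕ) : ∃ C p1 : ℕ, ∀ (p : ℕ) [Fact p.Prime], p1 ≤ p → ∀ (α β : Fin q → ZMod p),
    (∀ l, ds (α l) (β l) ≠ 0) →
    ∀ Φ : (l : Fin q) → Pt (em p (α l)) (em p (β l)) →+ Pt (em p (α l)) (em p (β l)), IsFr p Φ →
    ∀ (r : ℕ) (c μ : Fin r → ℕ), 1 ≤ r → (∀ j, 1 ≤ c j ∧ 1 ≤ μ j) → ∑ j, μ j * c j ≤ k →
    ∀ (u : Fin n → ZMod p) (z : (l : Fin q) → Pt (em p (α l)) (em p (β l))),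
    ∃ B : Finset ((Fin n → Fin r → Om p) × ((l : Fin q) → Fin r → Pt (em p (α l)) (em p (β l)))),
      B.card * p ^ (n + q) ≤ C * p ^ ((∑ j, c j) * (n + q)) ∧
      ∀ x : Fin r → Xp p n M α β, Pat Φ c μ u z x → ((fun l j => (x j).1 l, fun l j => (x j).2.1 l) :
        (Fin n → Fin r → Om p) × ((l : Fin q) → Fin r → Pt (em p (α l)) (em p (β l)))) ∈ B := by
  obtain ⟨C1, q1, h1⟩ := base_T k
  obtain ⟨C2, q2, h2⟩ := base_E k
  refine ⟨(max C1 1) ^ n * (max C2 1) ^ q, max q1 q2, ?_⟩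
  intro p _ hp α β hds Φ hΦ r c μ hr hc hk u z
  have hp1 : q1 ≤ p := le_trans (le_max_left q1 q2) hp
  have hp2 : q2 ≤ p := le_trans (le_max_right q1 q2) hp
  set m : ℕ := ∑ j, c j with hm
  have hT : ∀ l : Fin n, ∃ T : Finset (Fin r → Om p), T.card * p ≤ C1 * p ^ m ∧
      ∀ t : Fin r → Om p, (∀ j, t j ≠ 0 ∧ t j ^ p ^ c j = t j) →
        ∏ j, (∏ i ∈ range (c j), t j ^ p ^ i) ^ μ j = em p (u l) → t ∈ T :=
    fun l => h1 p hp1 r c μ hr hc hk (em p (u l))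
  choose Tt hTt1 hTt2 using hT
  have hP : ∀ l : Fin q, ∃ T : Finset (Fin r → Pt (em p (α l)) (em p (β l))), T.card * p ≤ C2 * p ^ m ∧
      ∀ P : Fin r → Pt (em p (α l)) (em p (β l)), (∀ j, (⇑(Φ l))^[c j] (P j) = P j) →
        ∑ j, μ j • ∑ i ∈ range (c j), (⇑(Φ l))^[i] (P j) = z l → P ∈ T :=
    fun l => h2 p hp2 (α l) (β l) (hds l) (Φ l) (fun P => hΦ l P) r c μ hr hc hk (z l)
  choose TP hTP1 hTP2 using hP
  refine ⟨Fintype.piFinset Tt ×ˢ Fintype.piFinset TP, ?_, ?_⟩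
  · have e1 := WB_pi (fun l => (Tt l).card) (max C1 1) (p ^ m) p fun l =>
      (hTt1 l).trans (Nat.mul_le_mul_right _ (le_max_left _ _))
    have e2 := WB_pi (fun l => (TP l).card) (max C2 1) (p ^ m) p fun l =>
      (hTP1 l).trans (Nat.mul_le_mul_right _ (le_max_left _ _))
    rw [Fintype.card_fin] at e1 e2
    have e3 : (Fintype.piFinset Tt ×ˢ Fintype.piFinset TP).card = (∏ l, (Tt l).card) * ∏ l, (TP l).card := by
      rw [Finset.card_product, Fintype.card_piFinset, Fintype.card_piFinset]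
    calc (Fintype.piFinset Tt ×ˢ Fintype.piFinset TP).card * p ^ (n + q) =
          ((∏ l, (Tt l).card) * p ^ n) * ((∏ l, (TP l).card) * p ^ q) := by
          rw [e3, pow_add]
          ring
      _ ≤ ((max C1 1) ^ n * (p ^ m) ^ n) * ((max C2 1) ^ q * (p ^ m) ^ q) := Nat.mul_le_mul e1 e2
      _ = ((max C1 1) ^ n * (max C2 1) ^ q) * p ^ (m * (n + q)) := by
          rw [← pow_mul, ← pow_mul, mul_add, pow_add]
          ring
  · intro x hx
    obtain ⟨a1, a2, a3, a4, a5⟩ := hx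
    refine Finset.mem_product.2 ⟨Fintype.mem_piFinset.2 fun l => ?_, Fintype.mem_piFinset.2 fun l => ?_⟩
    · exact hTt2 l _ (fun j => a1 j l) (a4 l)
    · exact hTP2 l _ (fun j => a2 j l) (a5 l)

end DP
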