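import Pool.Agent.Lib.MP_17a322_ntDP.FA
import Pool.Agent.Lib.MP_17a322_ntDP.Defs4

/-!
# LEAF WD: the normalised tuples

PROOF.  `p` is a prime, `m = ∑ j, c j`.  (1) For `j` the finset `Λ j` of the `l : Om p` with `l ≠ 0`, `l ^ p ^ c j = l` has `p ^ c j - 1` elements (`gal_im p (c j)`: the image of the `k`-points, `f` is injective), `p ^ c j ≤ 2 * (Λ j).card`, so `p ^ m ≤ 2 ^ r * (Fintype.piFinset Λ).card`.  (2) For `l ∈ Fintype.piFinset Λ` the norm `N l = ∏ j, (∏ i ∈ range (c j), l j ^ p ^ i) ^ μ j` is not zero and `N l ^ p = N l` (`∏ i ∈ range (c j), (l j ^ p ^ i) ^ p` is the product over `i + 1`: `Finset.prod_range_succ`, `prod_range_succ'` and `l j ^ p ^ c j = l j`), so there is a unit `a` of `ZMod p` with `em p a = N l` (`GV_fix` in `GV.lean`, private, copy).  (3) The map `(l, (x, y)) ↦ (act a x, fun j => l j • y j)` from `Fintype.piFinset Λ ×ˢ` (the normalised elements of `S`) to `S` is injective: `l j • y j = l' j •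 y' j` with `y j`, `y' j` normalised (`Nrm`: the first coordinate which is not zero is `1`) gives `l j = l' j` and `y j = y' j` (`FB_one` in `FB_.lean`, private, copy), then `a = a'` (`em p` injective; choose `a` as a function of `l`) and `x = x'` by `hact`.  So `(Fintype.piFinset Λ).card * # ≤ S.card`.
-/

set_option autoImplicit false

namespace DP

open Finset NumberField LVH VK FB

/-- a fixed point of Frobenius is in the prime field -/
private theorem WD_fix {p : ℕ} [Fact p.Prime] {x : Om p} (h : x ^ p = x) : ∃ x0 : ZMod p, em p x0 = x := by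
  have h1 : x ∈ (⊥ : Subfield (Om p)) := (Subfield.mem_bot_iff_pow_eq_self (Om p) p).2 h
  obtain ⟨n, hn⟩ := (mem_bot_iff_intCast p (Om p)).1 h1
  refine ⟨(n : ZMod p), ?_⟩
  rw [map_intCast]
  exact hn

private theorem WD_one {F : Type} [Field F] {q : ℕ} {x : Fin q → F} {l : F} (hx : Nrm x)
    (hl : Nrm (l • x)) : l = 1 := by
  obtain ⟨i, h1, h2⟩ := hx
  obtain ⟨j, h3, h4⟩ := hl
  rw [Pi.smul_apply, smul_eq_mul] at h3
  rcases lt_trichotomy i j with h | h | h
  · have h5 := h4 i h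
    rw [Pi.smul_apply, smul_eq_mul, h1, mul_one] at h5
    rw [h5, zero_mul] at h3
    exact absurd h3 zero_ne_one
  · rw [← h, h1, mul_one] at h3
    exact h3
  · rw [h2 j h, mul_zero] at h3
    exact absurd h3 zero_ne_one

/-- the scalar of a multiple of a normalised vector is unique -/
private theorem WD_eq {F : Type} [Field F] {q : ℕ} {x x' : Fin q → F} {l l' : F} (hx : Nrm x) (hx' : Nrm x')
    (hl : l ≠ 0) (h : l • x = l' • x') : l = l' ∧ x = x' := by
  have h1 : x = (l⁻¹ * l') • x' := by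
    rw [mul_smul, ← h, smul_smul, inv_mul_cancel₀ hl, one_smul]
  have h2 : l⁻¹ * l' = 1 := by
    refine WD_one hx' ?_
    rw [← h1]
    exact hx
  refine ⟨?_, ?_⟩
  · have h3 := congrArg (fun t => l * t) h2
    beta_reduce at h3
    rw [mul_inv_cancel_left₀ hl, mul_one] at h3
    exact h3.symm
  · rw [h1, h2, one_smul]

/-- the scalars -/
private theorem WD_lam {p : ℕ} [Fact p.Prime] (c : ℕ) (hc : 1 ≤ c) : ∃ Λ : Finset (Om p),
    (∀ l, l ∈ Λ ↔ l ≠ 0 ∧ l ^ p ^ c = l) ∧ p ^ c ≤ 2 * Λ.card := by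
  classical
  obtain ⟨k, _, _, f, hk, hf⟩ := gal_im p c hc
  have := Fintype.ofFinite k
  have := Fintype.ofFinite kˣ
  have hinj : Function.Injective fun u : kˣ => f (u : k) := fun u v huv =>
    Units.ext (f.injective huv)
  refine ⟨(univ : Finset kˣ).image fun u : kˣ => f (u : k), fun l => ?_, ?_⟩
  · rw [mem_image]
    constructor
    · rintro ⟨u, -, rfl⟩
      refine ⟨?_, (hf _).2 ⟨_, rfl⟩⟩
      rw [Ne, map_eq_zero]
      exact u.ne_zero
    · rintro ⟨h1, h2⟩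
      obtain ⟨y, rfl⟩ := (hf _).1 h2
      have hy : y ≠ 0 := fun h => h1 (by rw [h, map_zero])
      exact ⟨Units.mk0 y hy, mem_univ _, rfl⟩
  · rw [card_image_of_injective _ hinj, card_univ, ← Nat.card_eq_fintype_card, Nat.card_units, hk]
    have h1 : 1 < p ^ c := Nat.one_lt_pow (by omega) (Fact.out : p.Prime).one_lt
    omega

/-- the norm is in the prime field -/
private theorem WD_norm {p : ℕ} [Fact p.Prime] {r : ℕ} (c μ : Fin r → ℕ) {l : Fin r → Om p}
    (hl : ∀ j, l j ≠ 0 ∧ l j ^ p ^ c j = l j) :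
    ∃ a : (ZMod p)ˣ, ∏ j, (∏ i ∈ range (c j), l j ^ p ^ i) ^ μ j = em p (a : ZMod p) := by
  have h1 : ∀ j, (∏ i ∈ range (c j), l j ^ p ^ i) ^ p = ∏ i ∈ range (c j), l j ^ p ^ i := by
    intro j
    have e1 : (∏ i ∈ range (c j), l j ^ p ^ i) ^ p = ∏ i ∈ range (c j), l j ^ p ^ (i + 1) := by
      rw [← prod_pow]
      exact prod_congr rfl fun i _ => by rw [← pow_mul, pow_succ]
    have e2 := prod_range_succ (fun i => l j ^ p ^ i) (c j)
    have e3 := prod_range_succ' (fun i => l j ^ p ^ i) (c j)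
    rw [e3, (hl j).2, pow_zero, pow_one] at e2
    rw [e1]
    exact mul_right_cancel₀ (hl j).1 e2
  have h2 : (∏ j, (∏ i ∈ range (c j), l j ^ p ^ i) ^ μ j) ^ p =
      ∏ j, (∏ i ∈ range (c j), l j ^ p ^ i) ^ μ j := by
    rw [← prod_pow]
    exact prod_congr rfl fun j _ => by rw [← pow_mul, mul_comm, pow_mul, h1 j]
  obtain ⟨a, ha⟩ := WD_fix h2
  have h3 : ∏ j, (∏ i ∈ range (c j), l j ^ p ^ i) ^ μ j ≠ 0 :=
    prod_ne_zero_iff.2 fun j _ => pow_ne_zero _ (prod_ne_zero_iff.2 fun i _ => pow_ne_zero _ (hl j).1)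
  have ha0 : a ≠ 0 := fun h => h3 (by rw [← ha, h, map_zero])
  exact ⟨Units.mk0 a ha0, ha.symm⟩

open Classical in
theorem nrm_cnt {p : ℕ} [Fact p.Prime] {q r : ℕ} (c μ : Fin r → ℕ) (hc : ∀ j, 1 ≤ c j) {X : Type}
    (act : (ZMod p)ˣ → X → X) (hact : ∀ a, Function.Injective (act a)) (S : Finset (X × (Fin r → Fin q → Om p)))
    (hS : ∀ (x : X) (y : Fin r → Fin q → Om p) (l : Fin r → Om p) (a : (ZMod p)ˣ),
      (∀ j, l j ≠ 0 ∧ l j ^ p ^ c j = l j) → ∏ j, (∏ i ∈ range (c j), l j ^ p ^ i) ^ μ j = em p (a : ZMod p) →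
      (x, y) ∈ S → (act a x, fun j => l j • y j) ∈ S) :
    (S.filter fun s => ∀ j, Nrm (s.2 j)).card * p ^ (∑ j, c j) ≤ 2 ^ r * S.card := by
  have hΛ := fun j => WD_lam (p := p) (c j) (hc j)
  choose Λ hΛ1 hΛ2 using hΛ
  have hex : ∀ l : Fin r → Om p, ∃ a : (ZMod p)ˣ, (∀ j, l j ≠ 0 ∧ l j ^ p ^ c j = l j) →
      ∏ j, (∏ i ∈ range (c j), l j ^ p ^ i) ^ μ j = em p (a : ZMod p) := by
    intro l
    by_cases hl : ∀ j, l j ≠ 0 ∧ l j ^ p ^ c j = l j
    · obtain ⟨a, ha⟩ := WD_norm c μ hl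
      exact ⟨a, fun _ => ha⟩
    · exact ⟨1, fun h => absurd h hl⟩
  choose a ha using hex
  have hcard : (Fintype.piFinset Λ ×ˢ S.filter fun s => ∀ j, Nrm (s.2 j)).card ≤ S.card := by
    refine card_le_card_of_injOn
      (fun t => (act (a t.1) t.2.1, fun j => t.1 j • t.2.2 j)) ?_ ?_
    · rintro ⟨l, x, y⟩ ht
      rw [mem_coe, mem_product, Fintype.mem_piFinset, mem_filter] at ht
      obtain ⟨h1, h2, -⟩ := ht
      have h3 : ∀ j, l j ≠ 0 ∧ l j ^ p ^ c j = l j := fun j => (hΛ1 j _).1 (h1 j)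
      exact hS x y l (a l) h3 (ha l h3) h2
    · rintro ⟨l, x, y⟩ ht ⟨l', x', y'⟩ ht' he
      rw [mem_coe, mem_product, Fintype.mem_piFinset, mem_filter] at ht ht'
      obtain ⟨h1, -, h2⟩ := ht
      obtain ⟨h1', -, h2'⟩ := ht'
      have e1 : act (a l) x = act (a l') x' := congrArg Prod.fst he
      have e2 : ∀ j, l j • y j = l' j • y' j := fun j => congrFun (congrArg Prod.snd he) j
      have e3 := fun j => WD_eq (h2 j) (h2' j) ((hΛ1 j _).1 (h1 j)).1 (e2 j)
      have e4 : l = l' := funext fun j => (e3 j).1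
      have e5 : y = y' := funext fun j => (e3 j).2
      subst e4
      subst e5
      rw [hact _ e1]
  rw [card_product, Fintype.card_piFinset] at hcard
  obtain ⟨N, hN⟩ : ∃ N : ℕ, N = (S.filter fun s => ∀ j, Nrm (s.2 j)).card := ⟨_, rfl⟩
  rw [← hN] at hcard ⊢
  have h4 : p ^ (∑ j, c j) ≤ 2 ^ r * ∏ j, (Λ j).card := by
    rw [← prod_pow_eq_pow_sum]
    calc ∏ j, p ^ c j ≤ ∏ j, (2 * (Λ j).card) := prod_le_prod' fun j _ => hΛ2 j
      _ = 2 ^ r * ∏ j, (Λ j).card := by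
        rw [prod_mul_distrib, prod_const, card_univ, Fintype.card_fin]
  calc N * p ^ (∑ j, c j) ≤ N * (2 ^ r * ∏ j, (Λ j).card) := Nat.mul_le_mul_left _ h4
    _ = 2 ^ r * ((∏ j, (Λ j).card) * N) := by ring
    _ ≤ 2 ^ r * S.card := Nat.mul_le_mul_left _ hcard

end DP
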