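import Pool.Agent.Lib.MP_17a322_ntDP.WC
import Pool.Agent.Lib.MP_17a322_ntDP.WD

/-!
# LEAF WE: the number of the pairs of a family of values and a normalised tuple

PROOF.  `C0, p1` from `un_cnt K A' B' E' b hF k W hW`; `C = 2 ^ k * C0`.  For `x : X` let `T0 x` be the finset of `un_cnt` for `θ = fun i => em p (val x i)`.  `S` is the finset of the pairs `(x, y)` with `y ∈ T0 x` (`Finset.univ.sigma` / `biUnion` / `filter` of a product) with `y j l ^ p ^ c j = y j l`, the sections of index not in `W` zero, and the products for `i ∈ W` equal to `em p (val x i)`; by `un_cnt` membership in `S` is equivalent to the three conditions, and `S.card * p ^ W.card ≤ Fintype.card X * (C0 * p ^ (m * (r0 + W.card)))`.  `S` is stable as in `nrm_cnt`: `sM` is homogeneous of degree `δ i` in the vector (`FB_sc` in `FB_.lean`, private, copy): the value of the section `i` at `l j • y j` is `l j ^ δ i` times the value at `y j`; the product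 is `(N l) ^ δ i * em p (val x i) = em p (a ^ δ i * val x i)` with `N l = em p a`.  So by `nrm_cnt` the normalised elements of `S`, `T`, satisfy `T.card * p ^ m ≤ 2 ^ r * S.card`, `r ≤ k`.
-/

set_option autoImplicit false

namespace DP

open Finset NumberField LVH VK FB

private theorem WE_sc {F : Type} [Field F] {n m g s : ℕ} {ι : Type} [Fintype ι]
    {ν : Fin s → ℕ} {d : Fin s → Fin g → ℕ} (E : Fin s → ι → Fin n → ℤ) (a : IxM ι m ν d → F) (x : Fin n → F)
    (P : Fin g → Option (F × F)) (u : Fin (m + 1) → F) (l : F) (j : Fin s) :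
    sM E a x P (l • u) j = l ^ ν j * sM E a x P u j := by
  unfold sM
  rw [Finset.mul_sum]
  refine Finset.sum_congr rfl fun t _ => ?_
  have h1 : MWS.mo (l • u) t.1 = l ^ ν j * MWS.mo u t.1 := by
    unfold MWS.mo
    simp only [Pi.smul_apply, smul_eq_mul, mul_pow]
    rw [Finset.prod_mul_distrib, Finset.prod_pow_eq_pow_sum, t.1.2]
  rw [h1]
  ring

private theorem WE_prod {F : Type} [Field F] {r p δ : ℕ} (c μ : Fin r → ℕ) (l s : Fin r → F) :
    ∏ j, (∏ i' ∈ range (c j), (l j ^ δ * s j) ^ p ^ i') ^ μ j =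
      (∏ j, (∏ i' ∈ range (c j), l j ^ p ^ i') ^ μ j) ^ δ * ∏ j, (∏ i' ∈ range (c j), s j ^ p ^ i') ^ μ j := by
  rw [← Finset.prod_pow, ← Finset.prod_mul_distrib]
  refine Finset.prod_congr rfl fun j _ => ?_
  have h1 : ∏ i' ∈ range (c j), (l j ^ δ * s j) ^ p ^ i' =
      (∏ i' ∈ range (c j), l j ^ p ^ i') ^ δ * ∏ i' ∈ range (c j), s j ^ p ^ i' := by
    rw [← Finset.prod_pow, ← Finset.prod_mul_distrib]
    refine Finset.prod_congr rfl fun i _ => ?_
    rw [mul_pow, ← pow_mul, ← pow_mul, mul_comm δ (p ^ i)]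
  rw [h1, mul_pow, ← pow_mul, ← pow_mul, mul_comm δ (μ j)]

open Classical in
theorem pair_cnt (K : Type) [Field K] [NumberField K] {n h M w r0 : ℕ} {κ : Type} [Fintype κ] {δ : Fin w → ℕ}
    {d' : Fin w → Fin h → ℕ} (A' B' : Fin h → 𝓞 K) (E' : Fin w → κ → Fin n → ℤ) (b : IxM κ M δ d' → 𝓞 K)
    (hF : FibP A' B' E' b r0) (k : ℕ) (W : Finset (Fin w)) (hW : ∀ i ∈ W, 1 ≤ δ i) :
    ∃ C p1 : ℕ, ∀ (p : ℕ) [Fact p.Prime], p1 ≤ p →
    ∀ (φ : 𝓞 K →+* ZMod p) (r : ℕ) (c μ : Fin r → ℕ), 1 ≤ r → (∀ j, 1 ≤ c j ∧ 1 ≤ μ j) → ∑ j, μ j * c j ≤ k →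
    ∀ (t : Fin r → Fin n → Om p) (P : Fin r → Fin h → Option (Om p × Om p)),
      (∀ j l, t j l ≠ 0 ∧ t j l ^ p ^ c j = t j l) →
      (∀ j l, IsPt (em p (φ (A' l))) (em p (φ (B' l))) (P j l) ∧ (frO p)^[c j] (P j l) = P j l) →
    ∀ (X : Type) [Fintype X] (act : (ZMod p)ˣ → X → X) (val : X → Fin w → ZMod p), (∀ a, Function.Injective (act a)) →
      (∀ a x, ∀ i ∈ W, val (act a x) i = (a : ZMod p) ^ δ i * val x i) → (∀ x, ∀ i ∈ W, val x i ≠ 0) →
    ∃ T : Finset (X × (Fin r → Fin (M + 1) → Om p)),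
      T.card * p ^ ((∑ j, c j) + W.card) ≤ C * Fintype.card X * p ^ ((∑ j, c j) * (r0 + W.card)) ∧
      ∀ (x : X) (y : Fin r → Fin (M + 1) → Om p), (∀ j, Nrm (y j) ∧ ∀ l, y j l ^ p ^ c j = y j l) →
        (∀ i ∉ W, ∀ j, sM E' (fun x => em p (φ (b x))) (t j) (P j) (y j) i = 0) →
        (∀ i ∈ W, ∏ j, (∏ i' ∈ range (c j), sM E' (fun x => em p (φ (b x))) (t j) (P j) (y j) i ^ p ^ i') ^ μ j =
          em p (val x i)) → (x, y) ∈ T := by
  obtain ⟨C0, p1, hun⟩ := un_cnt K A' B' E' b hF k W hW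
  refine ⟨2 ^ k * C0, p1, ?_⟩
  intro p hpf hp φ r c μ hr hcμ hk t P ht hP X hX act val hact hval hne
  choose T0 hT0c hT0 using fun x : X => hun p hp φ r c μ hr hcμ hk t P ht hP (fun i => em p (val x i))
    (fun i hi => (map_ne_zero (em p)).2 (hne x i hi))
  have hrk : r ≤ k := by
    refine le_trans ?_ hk
    calc r = ∑ _j : Fin r, 1 := by simp
      _ ≤ ∑ j, μ j * c j := Finset.sum_le_sum fun j _ => Nat.mul_pos (hcμ j).2 (hcμ j).1
  obtain ⟨S, hSm, hSc⟩ : ∃ S : Finset (X × (Fin r → Fin (M + 1) → Om p)),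
      (∀ x y, (x, y) ∈ S ↔ (∀ j l, y j l ^ p ^ c j = y j l) ∧
        (∀ i ∉ W, ∀ j, sM E' (fun x => em p (φ (b x))) (t j) (P j) (y j) i = 0) ∧
        ∀ i ∈ W, ∏ j, (∏ i' ∈ range (c j), sM E' (fun x => em p (φ (b x))) (t j) (P j) (y j) i ^ p ^ i') ^ μ j =
          em p (val x i)) ∧
      S.card ≤ ∑ x, (T0 x).card := by
    refine ⟨((univ : Finset X).biUnion fun x => (T0 x).image fun y => (x, y)).filter fun s =>
      (∀ j l, s.2 j l ^ p ^ c j = s.2 j l) ∧
        (∀ i ∉ W, ∀ j, sM E' (fun x => em p (φ (b x))) (t j) (P j) (s.2 j) i = 0) ∧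
        ∀ i ∈ W, ∏ j, (∏ i' ∈ range (c j), sM E' (fun x => em p (φ (b x))) (t j) (P j) (s.2 j) i ^ p ^ i') ^ μ j =
          em p (val s.1 i), ?_, ?_⟩
    · intro x y
      rw [Finset.mem_filter]
      refine ⟨fun h => h.2, fun h => ⟨?_, h⟩⟩
      exact Finset.mem_biUnion.2 ⟨x, Finset.mem_univ _, Finset.mem_image.2 ⟨y, hT0 x y h.1 h.2.1 h.2.2, rfl⟩⟩
    · refine le_trans (Finset.card_filter_le _ _) (le_trans Finset.card_biUnion_le ?_)
      exact Finset.sum_le_sum fun x _ => Finset.card_image_le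
  have hst : ∀ (x : X) (y : Fin r → Fin (M + 1) → Om p) (l : Fin r → Om p) (a : (ZMod p)ˣ),
      (∀ j, l j ≠ 0 ∧ l j ^ p ^ c j = l j) → ∏ j, (∏ i ∈ range (c j), l j ^ p ^ i) ^ μ j = em p (a : ZMod p) →
      (x, y) ∈ S → (act a x, fun j => l j • y j) ∈ S := by
    intro x y l a hl hN hxy
    obtain ⟨h1, h2, h3⟩ := (hSm x y).1 hxy
    refine (hSm _ _).2 ⟨?_, ?_, ?_⟩
    · intro j l'
      rw [Pi.smul_apply, smul_eq_mul, mul_pow, (hl j).2, h1]
    · intro i hi j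
      rw [WE_sc, h2 i hi j, mul_zero]
    · intro i hi
      have h4 : (∏ j, (∏ i' ∈ range (c j), sM E' (fun x => em p (φ (b x))) (t j) (P j) (l j • y j) i ^ p ^ i') ^ μ j) =
          ∏ j, (∏ i' ∈ range (c j),
            (l j ^ δ i * sM E' (fun x => em p (φ (b x))) (t j) (P j) (y j) i) ^ p ^ i') ^ μ j :=
        Finset.prod_congr rfl fun j _ => by
          congr 1
          exact Finset.prod_congr rfl fun i' _ => by rw [WE_sc]
      rw [h4, WE_prod c μ l fun j => sM E' (fun x => em p (φ (b x))) (t j) (P j) (y j) i, hN, h3 i hi, hval a x i hi,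
        map_mul, map_pow]
  have hn := nrm_cnt c μ (fun j => (hcμ j).1) act hact S hst
  refine ⟨S.filter fun s => ∀ j, Nrm (s.2 j), ?_, ?_⟩
  · have h5 : S.card * p ^ W.card ≤ Fintype.card X * (C0 * p ^ ((∑ j, c j) * (r0 + W.card))) := by
      calc S.card * p ^ W.card ≤ (∑ x, (T0 x).card) * p ^ W.card := Nat.mul_le_mul_right _ hSc
        _ = ∑ x, (T0 x).card * p ^ W.card := by rw [Finset.sum_mul]
        _ ≤ ∑ _x : X, C0 * p ^ ((∑ j, c j) * (r0 + W.card)) := Finset.sum_le_sum fun x _ => hT0c x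
        _ = Fintype.card X * (C0 * p ^ ((∑ j, c j) * (r0 + W.card))) := by
            rw [Finset.sum_const, smul_eq_mul, Finset.card_univ]
    calc (S.filter fun s => ∀ j, Nrm (s.2 j)).card * p ^ ((∑ j, c j) + W.card)
        = ((S.filter fun s => ∀ j, Nrm (s.2 j)).card * p ^ (∑ j, c j)) * p ^ W.card := by rw [pow_add, mul_assoc]
      _ ≤ (2 ^ r * S.card) * p ^ W.card := Nat.mul_le_mul_right _ hn
      _ = 2 ^ r * (S.card * p ^ W.card) := by rw [mul_assoc]
      _ ≤ 2 ^ k * (Fintype.card X * (C0 * p ^ ((∑ j, c j) * (r0 + W.card)))) :=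
          Nat.mul_le_mul (Nat.pow_le_pow_right (by norm_num) hrk) h5
      _ = 2 ^ k * C0 * Fintype.card X * p ^ ((∑ j, c j) * (r0 + W.card)) := by ring
  · intro x y hy h0 h1
    exact Finset.mem_filter.2 ⟨(hSm x y).2 ⟨fun j l => (hy j).2 l, h0, h1⟩, fun j => (hy j).1⟩

end DP
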