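import Pool.Agent.Lib.MP_17a322_ntDP.KDefs
import Pool.Agent.Lib.MP_17a322_ntDP.HA
import Pool.Agent.Lib.MP_17a322_ntDP.WB
import Pool.Agent.Lib.MP_17a322_ntDP.WE
import Pool.Agent.Lib.MP_17a322_ntDP.AS

/-!
# LEAF KB: the number of the pairs of a family and a set of points of given product and sum

PROOF.  As `st_cnt` (file IA.lean, proved) with `pat_TP` (WB) and `pair_cnt` (WE) instead of `pat_T`.  `C1, p1` from `pat_TP n (h + g) M k`, `C2, p2` from `pair_cnt K A' B' E' b hF k W hW`, `Nk` the number of the pairs `(r, c)`, `C = Nk * C1 * C2`.  Let `N` be a stable set of good points with `N.card = m`.  `orb (stp Φ) (stp_inj hΦ) N` gives `r, x, c` with `∑ c j = m`, `μ = 1`; `Pat Φ c (fun _ => 1) u0 z x` as in IA.lean; `(t, P)` of `x` is in the finset `B` of `pat_TP`, `B.card * p ^ (n + (h + g)) ≤ C1 * p ^ (m * (n + (h + g)))`, and for such a `(t, P)` (if it satisfies the hypotheses of `pair_cnt`: `t j l ^ p ^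 c j = t j l` etc.; `isPt_opP`; for the other ones take the empty finset) the pair `(y, last coordinates of x)` is in the finset `T` of `pair_cnt`, `T.card * p ^ (m + W.card) ≤ C2 * card Y * p ^ (m * (r0 + W.card))`: for `i ∈ W` the product of the `fx i` over `N` is `∏ j, ∏ i' ∈ range (c j), (fx i (x j)) ^ p ^ i'` (`orb` with `G = Additive (Om p)`; `fx i ((stp Φ)^[i'] x) = fx i x ^ p ^ i'` : `sM_fr` at the points `fun l => opP (x.2.1 (castAdd g l))`, as `WG_it` in WG.lean).  `F` is the union over the `(r, c)`, `(t, P) ∈ B` of the images of `T` under `(y, v) ↦ (y, univ.image (fun i : (j : Fin r) × Fin (c j) => (stp Φ)^[i.2] (t · i.1, P · i.1, v i.1)))`.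
-/

set_option autoImplicit false

namespace DP

open Finset NumberField LVH VK VU FB

open Classical in
/-- the set of the iterates of the `y j` -/
private noncomputable def KB_im {X : Type} (f : X → X) {r : ℕ} (c : Fin r → ℕ) (y : Fin r → X) : Finset X :=
  univ.image (fun i : (j : Fin r) × Fin (c j) => f^[(i.2 : ℕ)] (y i.1))

private theorem KB_mem {X : Type} (f : X → X) {r : ℕ} (c : Fin r → ℕ) (y : Fin r → X) (x : X) :
    x ∈ KB_im f c y ↔ ∃ i : (j : Fin r) × Fin (c j), f^[(i.2 : ℕ)] (y i.1) = x := by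
  classical
  unfold KB_im
  rw [mem_image]
  constructor
  · rintro ⟨i, _, hi⟩
    exact ⟨i, hi⟩
  · rintro ⟨i, hi⟩
    exact ⟨i, mem_univ i, hi⟩

private theorem KB_prod {X G : Type} [CommMonoid G] (f : X → X) (hf : Function.Injective f) (N : Finset X)
    (hN : ∀ x ∈ N, f x ∈ N) (F : X → G) : ∏ x ∈ N, F (f x) = ∏ x ∈ N, F x := by
  classical
  have h3 : N.image f = N := by
    refine eq_of_subset_of_card_le (fun x hx => ?_) ?_
    · obtain ⟨x', hx', rfl⟩ := mem_image.1 hx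
      exact hN x' hx'
    · rw [card_image_of_injective _ hf]
  calc ∏ x ∈ N, F (f x) = ∏ x ∈ N.image f, F x := (prod_image fun _ _ _ _ h => hf h).symm
    _ = ∏ x ∈ N, F x := by rw [h3]

/-- a fixed point of Frobenius is in the prime field -/
private theorem KB_fix {p : ℕ} [Fact p.Prime] {x : Om p} (h : x ^ p = x) : ∃ x0 : ZMod p, em p x0 = x := by
  have h1 : x ∈ (⊥ : Subfield (Om p)) := (Subfield.mem_bot_iff_pow_eq_self (Om p) p).2 h
  obtain ⟨n, hn⟩ := (mem_bot_iff_intCast p (Om p)).1 h1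
  refine ⟨(n : ZMod p), ?_⟩
  rw [map_intCast]
  exact hn
open Classical in
private theorem KB_iter {p : ℕ} [Fact p.Prime] {q : ℕ} {α β : Fin q → ZMod p}
    {Φ : (l : Fin q) → Pt (em p (α l)) (em p (β l)) →+ Pt (em p (α l)) (em p (β l))} (hΦ : IsFr p Φ) (l : Fin q)
    (m : ℕ) (P : Pt (em p (α l)) (em p (β l))) : (frO p)^[m] (opP P) = opP ((⇑(Φ l))^[m] P) := by
  have h : Function.Semiconj (opP : Pt (em p (α l)) (em p (β l)) → Option (Om p × Om p)) (⇑(Φ l)) (frO p) :=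
    fun Q => hΦ l Q
  exact ((h.iterate_right m) P).symm

private theorem KB_isPt {F : Type} [Field F] {a b a' b' : F} (ha : a = a') (hb : b = b') {z : Option (F × F)}
    (h : IsPt a b z) : IsPt a' b' z := by
  subst ha
  subst hb
  exact h

open Classical in
/-- the number of the pairs of a family of values and a tuple of points -/
private theorem KB_T (K : Type) [Field K] [NumberField K] {n h M w r0 : ℕ} {κ : Type} [Fintype κ] {δ : Fin w → ℕ}
    {d' : Fin w → Fin h → ℕ} (A' B' : Fin h → 𝓞 K) (E' : Fin w → κ → Fin n → ℤ) (b : IxM κ M δ d' → 𝓞 K)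
    (hF : FibP A' B' E' b r0) (k g : ℕ) (W : Finset (Fin w)) (hW : ∀ i ∈ W, 1 ≤ δ i) :
    ∃ C p1 : ℕ, ∀ (p : ℕ) [Fact p.Prime], p1 ≤ p → ∀ (φ : 𝓞 K →+* ZMod p)
    (α β : Fin (h + g) → ZMod p), (∀ l, ds (α l) (β l) ≠ 0) →
    (∀ l : Fin h, α (Fin.castAdd g l) = φ (A' l) ∧ β (Fin.castAdd g l) = φ (B' l)) →
    ∀ Φ : (l : Fin (h + g)) → Pt (em p (α l)) (em p (β l)) →+ Pt (em p (α l)) (em p (β l)), IsFr p Φ →
    ∀ (r : ℕ) (c μ : Fin r → ℕ), 1 ≤ r → (∀ j, 1 ≤ c j ∧ 1 ≤ μ j) → ∑ j, μ j * c j ≤ k →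
    ∀ (u : Fin n → ZMod p) (z : (l : Fin (h + g)) → Pt (em p (α l)) (em p (β l))),
    ∀ (X : Type) [Fintype X] (act : (ZMod p)ˣ → X → X) (θ : X → Fin w → ZMod p), (∀ a, Function.Injective (act a)) →
      (∀ a x, ∀ i ∈ W, θ (act a x) i = (a : ZMod p) ^ δ i * θ x i) → (∀ x, ∀ i ∈ W, θ x i ≠ 0) →
    ∃ T : Finset (X × (Fin r → Xp p n M α β)),
      T.card * p ^ (n + (h + g) + ((∑ j, c j) + W.card)) ≤
        C * Fintype.card X * p ^ ((∑ j, c j) * (n + (h + g) + (r0 + W.card))) ∧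
      ∀ x0 x, Pat Φ c μ u z x →
        (∀ i ∉ W, ∀ j, sM E' (fun x => em p (φ (b x))) (x j).1 (fun l => opP ((x j).2.1 (Fin.castAdd g l)))
          (x j).2.2 i = 0) →
        (∀ i ∈ W, ∏ j, (∏ i' ∈ range (c j), sM E' (fun x => em p (φ (b x))) (x j).1
          (fun l => opP ((x j).2.1 (Fin.castAdd g l))) (x j).2.2 i ^ p ^ i') ^ μ j = em p (θ x0 i)) →
        (x0, x) ∈ T := by
  obtain ⟨C1, q1, h1⟩ := pat_TP n (h + g) M k
  obtain ⟨C2, q2, h2⟩ := pair_cnt K A' B' E' b hF k W hW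
  refine ⟨C1 * C2, max q1 q2, ?_⟩
  intro p _ hp φ α β hds hαβ Φ hΦ r c μ hr hc hk u z X _ act θ hact hθ hθ0
  have hp1 : q1 ≤ p := (le_max_left q1 q2).trans hp
  have hp2 : q2 ≤ p := (le_max_right q1 q2).trans hp
  obtain ⟨B, hB1, hB2⟩ := h1 p hp1 α β hds Φ hΦ r c μ hr hc hk u z
  have hY : ∀ tP : (Fin n → Fin r → Om p) × ((l : Fin (h + g)) → Fin r → Pt (em p (α l)) (em p (β l))),
      ∃ T : Finset (X × (Fin r → Fin (M + 1) → Om p)),
      T.card * p ^ ((∑ j, c j) + W.card) ≤ C2 * Fintype.card X * p ^ ((∑ j, c j) * (r0 + W.card)) ∧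
      ((∀ j l, tP.1 l j ≠ 0 ∧ tP.1 l j ^ p ^ c j = tP.1 l j) →
        (∀ (j : Fin r) (l : Fin (h + g)), (⇑(Φ l))^[c j] (tP.2 l j) = tP.2 l j) →
        ∀ (x : X) (y : Fin r → Fin (M + 1) → Om p), (∀ j, Nrm (y j) ∧ ∀ l, y j l ^ p ^ c j = y j l) →
          (∀ i ∉ W, ∀ j, sM E' (fun x => em p (φ (b x))) (fun l => tP.1 l j)
            (fun l => opP (tP.2 (Fin.castAdd g l) j)) (y j) i = 0) →
          (∀ i ∈ W, ∏ j, (∏ i' ∈ range (c j), sM E' (fun x => em p (φ (b x))) (fun l => tP.1 l j)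
            (fun l => opP (tP.2 (Fin.castAdd g l) j)) (y j) i ^ p ^ i') ^ μ j = em p (θ x i)) → (x, y) ∈ T) := by
    intro tP
    by_cases hh : (∀ j l, tP.1 l j ≠ 0 ∧ tP.1 l j ^ p ^ c j = tP.1 l j) ∧
        (∀ (j : Fin r) (l : Fin (h + g)), (⇑(Φ l))^[c j] (tP.2 l j) = tP.2 l j)
    · obtain ⟨T, hT1, hT2⟩ := h2 p hp2 φ r c μ hr hc hk (fun j l => tP.1 l j)
        (fun j l => opP (tP.2 (Fin.castAdd g l) j)) hh.1 (fun j l => by
          refine ⟨?_, ?_⟩
          · exact KB_isPt (congrArg (em p) (hαβ l).1) (congrArg (em p) (hαβ l).2)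
              (isPt_opP (tP.2 (Fin.castAdd g l) j))
          · rw [KB_iter hΦ, hh.2]) X act θ hact hθ hθ0
      exact ⟨T, hT1, fun _ _ x y hy1 hy2 hy3 => hT2 x y hy1 hy2 hy3⟩
    · refine ⟨∅, by simp, fun ha hb => absurd ⟨ha, hb⟩ hh⟩
  choose TT hTT1 hTT2 using hY
  let F : ((Fin n → Fin r → Om p) × ((l : Fin (h + g)) → Fin r → Pt (em p (α l)) (em p (β l)))) →
      (X × (Fin r → Fin (M + 1) → Om p)) → X × (Fin r → Xp p n M α β) :=
    fun tP xy => (xy.1, fun j => (fun l => tP.1 l j, fun l => tP.2 l j, xy.2 j))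
  refine ⟨B.biUnion fun tP => (TT tP).image (F tP), ?_, ?_⟩
  · have e1 : (B.biUnion fun tP => (TT tP).image (F tP)).card ≤ ∑ tP ∈ B, (TT tP).card :=
      Finset.card_biUnion_le.trans (Finset.sum_le_sum fun tP _ => Finset.card_image_le)
    have e2 : (∑ tP ∈ B, (TT tP).card) * p ^ ((∑ j, c j) + W.card) ≤
        B.card * (C2 * Fintype.card X * p ^ ((∑ j, c j) * (r0 + W.card))) := by
      rw [Finset.sum_mul]
      refine (Finset.sum_le_sum fun tP _ => hTT1 tP).trans ?_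
      rw [Finset.sum_const, smul_eq_mul]
    calc (B.biUnion fun tP => (TT tP).image (F tP)).card * p ^ (n + (h + g) + ((∑ j, c j) + W.card)) ≤
          (∑ tP ∈ B, (TT tP).card) * p ^ (n + (h + g) + ((∑ j, c j) + W.card)) := Nat.mul_le_mul_right _ e1
      _ = ((∑ tP ∈ B, (TT tP).card) * p ^ ((∑ j, c j) + W.card)) * p ^ (n + (h + g)) := by
          rw [pow_add p (n + (h + g)) ((∑ j, c j) + W.card)]
          ring
      _ ≤ (B.card * (C2 * Fintype.card X * p ^ ((∑ j, c j) * (r0 + W.card)))) * p ^ (n + (h + g)) :=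
          Nat.mul_le_mul_right _ e2
      _ = (B.card * p ^ (n + (h + g))) * (C2 * Fintype.card X * p ^ ((∑ j, c j) * (r0 + W.card))) := by ring
      _ ≤ (C1 * p ^ ((∑ j, c j) * (n + (h + g)))) * (C2 * Fintype.card X * p ^ ((∑ j, c j) * (r0 + W.card))) :=
          Nat.mul_le_mul_right _ hB1
      _ = C1 * C2 * Fintype.card X * p ^ ((∑ j, c j) * (n + (h + g) + (r0 + W.card))) := by
          rw [mul_add (∑ j, c j) (n + (h + g)) (r0 + W.card), pow_add p ((∑ j, c j) * (n + (h + g)))]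
          ring
  · intro x0 x hx hv hw
    have hx' := hx
    obtain ⟨a1, a2, a3, a4, a5⟩ := hx
    refine Finset.mem_biUnion.2 ⟨_, hB2 x hx', Finset.mem_image.2 ⟨(x0, fun j => (x j).2.2), ?_, ?_⟩⟩
    · exact hTT2 _ (fun j l => a1 j l) (fun j l => a2 j l) x0 _ a3 hv hw
    · rfl
open Classical in
/-- the values of the fixed sections at the conjugates of a point -/
private theorem KB_val {K : Type} [Field K] [NumberField K] {n h g M w : ℕ} {κ : Type} [Fintype κ] {δ : Fin w → ℕ}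
    {d' : Fin w → Fin h → ℕ} (E' : Fin w → κ → Fin n → ℤ) (b : IxM κ M δ d' → 𝓞 K) {p : ℕ} [Fact p.Prime]
    (φ : 𝓞 K →+* ZMod p) {α β : Fin (h + g) → ZMod p}
    {Φ : (l : Fin (h + g)) → Pt (em p (α l)) (em p (β l)) →+ Pt (em p (α l)) (em p (β l))} (hΦ : IsFr p Φ)
    (i : Fin w) (x : Xp p n M α β) (m : ℕ) : fx E' b φ i ((stp Φ)^[m] x) = fx E' b φ i x ^ p ^ m := by
  induction m with
  | zero =>
    rw [pow_zero, pow_one]
    rfl
  | succ m ih =>
    rw [Function.iterate_succ_apply', pow_succ, pow_mul, ← ih]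
    obtain ⟨y, hy⟩ : ∃ y, y = (stp Φ)^[m] x := ⟨_, rfl⟩
    rw [← hy]
    unfold fx
    have h1 : (fun l : Fin h => opP ((stp Φ y).2.1 (Fin.castAdd g l))) = fun l => frO p (opP (y.2.1 (Fin.castAdd g l))) :=
      funext fun l => hΦ (Fin.castAdd g l) (y.2.1 (Fin.castAdd g l))
    rw [h1]
    exact sM_fr E' (fun x => φ (b x)) y.1 (fun l => opP (y.2.1 (Fin.castAdd g l))) y.2.2 i

open Classical in
/-- a stable set is the set of the conjugates of a pattern -/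
private theorem KB_pat {K : Type} [Field K] [NumberField K] {n h g M w : ℕ} {κ : Type} [Fintype κ] {δ : Fin w → ℕ}
    {d' : Fin w → Fin h → ℕ} (W : Finset (Fin w)) (E' : Fin w → κ → Fin n → ℤ) (b : IxM κ M δ d' → 𝓞 K) {p : ℕ}
    [Fact p.Prime] (φ : 𝓞 K →+* ZMod p) (α β : Fin (h + g) → ZMod p)
    (Φ : (l : Fin (h + g)) → Pt (em p (α l)) (em p (β l)) →+ Pt (em p (α l)) (em p (β l))) (hΦ : IsFr p Φ)
    (u : Fin n → ZMod p) (z : (l : Fin (h + g)) → Pt (em p (α l)) (em p (β l))) (N : Finset (Xp p n M α β))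
    (hN : Stb (stp Φ) (Gw W E' b φ α β) N) (h1 : 1 ≤ N.card) (hu : ∀ l, ∏ x ∈ N, x.1 l = em p (u l))
    (hz : ∀ l, ∑ x ∈ N, x.2.1 l = z l) (θ : Fin w → ZMod p) (hθ : ∀ i ∈ W, ∏ x ∈ N, fx E' b φ i x = em p (θ i)) :
    ∃ (r : ℕ) (y : Fin r → Xp p n M α β) (c : Fin r → ℕ), 1 ≤ r ∧ (∀ j, 1 ≤ c j) ∧ ∑ j, c j = N.card ∧
      Pat Φ c (fun _ => 1) u z y ∧
      (∀ i ∉ W, ∀ j, sM E' (fun x => em p (φ (b x))) (y j).1 (fun l => opP ((y j).2.1 (Fin.castAdd g l)))
        (y j).2.2 i = 0) ∧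
      (∀ i ∈ W, ∏ j, (∏ i' ∈ range (c j), sM E' (fun x => em p (φ (b x))) (y j).1
        (fun l => opP ((y j).2.1 (Fin.castAdd g l))) (y j).2.2 i ^ p ^ i') ^ 1 = em p (θ i)) ∧
      KB_im (stp Φ) c y = N := by
  obtain ⟨r, y, c, hr, hc, -, hm, hs, hG⟩ := orb (stp Φ) (stp_inj hΦ) N (fun x hx => (hN x hx).1) h1
  have hfix : ∀ j, ((fun l => (y j).1 l ^ p ^ c j, fun l => (⇑(Φ l))^[c j] ((y j).2.1 l),
      fun l => (y j).2.2 l ^ p ^ c j) : Xp p n M α β) = y j := by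
    intro j
    rw [← stp_it Φ (y j) (c j)]
    exact (hc j).2.1
  refine ⟨r, y, c, hr, fun j => (hc j).1, hs, ⟨?_, ?_, ?_, ?_, ?_⟩, ?_, ?_, ?_⟩
  · intro j l
    exact ⟨(hN (y j) (hc j).2.2).2.1 l, congrFun (congrArg (fun w : Xp p n M α β => w.1) (hfix j)) l⟩
  · intro j l
    exact congrFun (congrArg (fun w : Xp p n M α β => w.2.1) (hfix j)) l
  · intro j
    exact ⟨(hN (y j) (hc j).2.2).2.2.1, fun l => congrFun (congrArg (fun w : Xp p n M α β => w.2.2) (hfix j)) l⟩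
  · intro l
    have h2 : ∏ x ∈ N, x.1 l = ∏ j, ∏ i ∈ range (c j), ((stp Φ)^[i] (y j)).1 l :=
      hG (Additive (Om p)) fun x => Additive.ofMul (x.1 l)
    rw [← hu l, h2]
    refine prod_congr rfl fun j _ => ?_
    rw [pow_one]
    refine prod_congr rfl fun i _ => ?_
    rw [stp_it]
  · intro l
    rw [← hz l, hG (Pt (em p (α l)) (em p (β l))) fun x => x.2.1 l]
    refine sum_congr rfl fun j _ => ?_
    rw [one_smul]
    refine sum_congr rfl fun i _ => ?_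
    rw [stp_it]
  · intro i hi j
    exact (hN (y j) (hc j).2.2).2.2.2 i hi
  · intro i hi
    have h2 : ∏ x ∈ N, fx E' b φ i x = ∏ j, ∏ i' ∈ range (c j), fx E' b φ i ((stp Φ)^[i'] (y j)) :=
      hG (Additive (Om p)) fun x => Additive.ofMul (fx E' b φ i x)
    rw [← hθ i hi, h2]
    refine prod_congr rfl fun j _ => ?_
    rw [pow_one]
    refine prod_congr rfl fun i' _ => ?_
    rw [KB_val E' b φ hΦ i (y j) i']
    rfl
  · ext x
    rw [KB_mem, hm x]

open Classical in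
theorem st_cntW (K : Type) [Field K] [NumberField K] {n h M w r0 : ℕ} {κ : Type} [Fintype κ] {δ : Fin w → ℕ}
    {d' : Fin w → Fin h → ℕ} (A' B' : Fin h → 𝓞 K) (E' : Fin w → κ → Fin n → ℤ) (b : IxM κ M δ d' → 𝓞 K)
    (hF : FibP A' B' E' b r0) (k g : ℕ) (W : Finset (Fin w)) (hW : ∀ i ∈ W, 1 ≤ δ i) : ∃ C p1 : ℕ,
    ∀ (p : ℕ) [Fact p.Prime], p1 ≤ p → ∀ (φ : 𝓞 K →+* ZMod p)
    (α β : Fin (h + g) → ZMod p), (∀ l, ds (α l) (β l) ≠ 0) →
    (∀ l : Fin h, α (Fin.castAdd g l) = φ (A' l) ∧ β (Fin.castAdd g l) = φ (B' l)) →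
    ∀ Φ : (l : Fin (h + g)) → Pt (em p (α l)) (em p (β l)) →+ Pt (em p (α l)) (em p (β l)), IsFr p Φ →
    ∀ m : ℕ, 1 ≤ m → m ≤ k → ∀ (u : Fin n → Om p) (z : (l : Fin (h + g)) → Pt (em p (α l)) (em p (β l)))
    (Y : Type) [Fintype Y] (act : (ZMod p)ˣ → Y → Y) (val : Y → Fin w → ZMod p), (∀ a, Function.Injective (act a)) →
    (∀ a x, ∀ i ∈ W, val (act a x) i = (a : ZMod p) ^ δ i * val x i) → (∀ x, ∀ i ∈ W, val x i ≠ 0) →
    ∃ F : Finset (Y × Finset (Xp p n M α β)),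
      F.card * p ^ (n + (h + g) + W.card + m) ≤ C * Fintype.card Y * p ^ (m * (n + (h + g) + r0 + W.card)) ∧
      ∀ (y : Y) (N : Finset (Xp p n M α β)), Stb (stp Φ) (Gw W E' b φ α β) N → N.card = m → (∀ l, ∏ x ∈ N, x.1 l = u l) →
        (∀ l, ∑ x ∈ N, x.2.1 l = z l) → (∀ i ∈ W, ∏ x ∈ N, fx E' b φ i x = em p (val y i)) → (y, N) ∈ F := by
  obtain ⟨C, p1, hT⟩ := KB_T K A' B' E' b hF k g W hW
  refine ⟨Fintype.card (Σ r : Fin (k + 1), (Fin r → Fin (k + 1))) * C, p1, ?_⟩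
  intro p _ hp φ α β hds hαβ Φ hΦ m hm1 hmk u z Y _ act val hact hval hne
  have hT' := hT p hp φ α β hds hαβ Φ hΦ
  by_cases hu : ∀ l, ∃ u0 : ZMod p, em p u0 = u l
  · choose u0 hu0 using hu
    have key : ∀ s : (Σ r : Fin (k + 1), (Fin r → Fin (k + 1))), ∃ F : Finset (Y × Finset (Xp p n M α β)),
        F.card * p ^ (n + (h + g) + W.card + m) ≤ C * Fintype.card Y * p ^ (m * (n + (h + g) + r0 + W.card)) ∧
        (1 ≤ (s.1 : ℕ) ∧ (∀ j, 1 ≤ (s.2 j : ℕ)) ∧ ∑ j, (s.2 j : ℕ) = m →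
          ∀ (y0 : Y) (y : Fin s.1 → Xp p n M α β), Pat Φ (fun j => (s.2 j : ℕ)) (fun _ => 1) u0 z y →
          (∀ i ∉ W, ∀ j, sM E' (fun x => em p (φ (b x))) (y j).1 (fun l => opP ((y j).2.1 (Fin.castAdd g l)))
            (y j).2.2 i = 0) →
          (∀ i ∈ W, ∏ j, (∏ i' ∈ range (s.2 j : ℕ), sM E' (fun x => em p (φ (b x))) (y j).1
            (fun l => opP ((y j).2.1 (Fin.castAdd g l))) (y j).2.2 i ^ p ^ i') ^ 1 = em p (val y0 i)) →
          (y0, KB_im (stp Φ) (fun j => (s.2 j : ℕ)) y) ∈ F) := by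
      intro s
      by_cases hs : 1 ≤ (s.1 : ℕ) ∧ (∀ j, 1 ≤ (s.2 j : ℕ)) ∧ ∑ j, (s.2 j : ℕ) = m
      · obtain ⟨T, h1, h2⟩ := hT' s.1 (fun j => (s.2 j : ℕ)) (fun _ => 1) hs.1 (fun j => ⟨hs.2.1 j, le_refl 1⟩)
          (by
            simp only [one_mul]
            rw [hs.2.2]
            exact hmk) u0 z Y act val hact hval hne
        rw [hs.2.2] at h1
        have e1 : n + (h + g) + (m + W.card) = n + (h + g) + W.card + m := by omega
        have e2 : n + (h + g) + (r0 + W.card) = n + (h + g) + r0 + W.card := by omega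
        rw [e1, e2] at h1
        exact ⟨T.image (fun q => (q.1, KB_im (stp Φ) (fun j => (s.2 j : ℕ)) q.2)),
          le_trans (Nat.mul_le_mul_right _ card_image_le) h1,
          fun _ y0 y hy hv hw => mem_image.2 ⟨(y0, y), h2 y0 y hy hv hw, rfl⟩⟩
      · refine ⟨∅, ?_, fun h => absurd h hs⟩
        rw [card_empty, zero_mul]
        exact Nat.zero_le _
    choose F hF1 hF2 using key
    refine ⟨univ.biUnion F, ?_, ?_⟩
    · calc (univ.biUnion F).card * p ^ (n + (h + g) + W.card + m) ≤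
            (∑ s, (F s).card) * p ^ (n + (h + g) + W.card + m) := Nat.mul_le_mul_right _ card_biUnion_le
        _ = ∑ s, (F s).card * p ^ (n + (h + g) + W.card + m) := sum_mul _ _ _
        _ ≤ ∑ _s : (Σ r : Fin (k + 1), (Fin r → Fin (k + 1))),
              C * Fintype.card Y * p ^ (m * (n + (h + g) + r0 + W.card)) := sum_le_sum fun s _ => hF1 s
        _ = Fintype.card (Σ r : Fin (k + 1), (Fin r → Fin (k + 1))) * C * Fintype.card Y *
              p ^ (m * (n + (h + g) + r0 + W.card)) := by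
            rw [sum_const, card_univ, smul_eq_mul, mul_assoc, mul_assoc, mul_assoc]
    · intro y0 N hN hc hu' hz hw
      obtain ⟨r, y, c, hr, hc1, hs, hP, hv, hv2, hI⟩ := KB_pat W E' b φ α β Φ hΦ u0 z N hN (by rw [hc]; exact hm1)
        (fun l => (hu' l).trans (hu0 l).symm) hz (val y0) hw
      rw [hc] at hs
      have hck : ∀ j, c j < k + 1 := by
        intro j
        have := single_le_sum (fun i _ => Nat.zero_le (c i)) (mem_univ j)
        omega
      have hrk : r < k + 1 := by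
        have : ∑ _j : Fin r, 1 ≤ ∑ j, c j := sum_le_sum fun j _ => hc1 j
        rw [sum_const, card_univ, Fintype.card_fin, smul_eq_mul, mul_one] at this
        omega
      refine mem_biUnion.2 ⟨⟨⟨r, hrk⟩, fun j => ⟨c j, hck j⟩⟩, mem_univ _, ?_⟩
      rw [← hI]
      exact hF2 ⟨⟨r, hrk⟩, fun j => ⟨c j, hck j⟩⟩ ⟨hr, hc1, hs⟩ y0 y hP hv hv2
  · refine ⟨∅, ?_, ?_⟩
    · rw [card_empty, zero_mul]
      exact Nat.zero_le _
    · intro y0 N hN hc hu' hz hw
      exfalso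
      apply hu
      intro l
      have h4 : (∏ x ∈ N, x.1 l) ^ p = ∏ x ∈ N, x.1 l := by
        rw [← prod_pow]
        exact KB_prod (stp Φ) (stp_inj hΦ) N (fun x hx => (hN x hx).1) fun x => x.1 l
      rw [← hu' l]
      exact KB_fix h4

end DP
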