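import Pool.Agent.Lib.MP_17a322_ntDP.IB_

/-!
# LEAF KC: the values of some of the sections at distinct points are equidistributed

PROOF.  As `st_eq` (file IB_.lean, proved), with `card_val` for `V = univ` and `Z j = {the restriction of g j1}` if `j = e0 j1`, and `Z j =` all the restrictions of the elements of `Fn p (stp Φ) U` (at most `p ^ U.card`, `fn_fin`) if `j` is not in the range of `e0` (`s - s1` indices: `Fintype.card`, `he0`).  So `# * p ^ (s * m) ≤ (p ^ m) ^ (s - s1) * Q` and `# * p ^ (s1 * m) ≤ Q` (`s1 ≤ s`).  The sum of these numbers over all `g : Fin s1 → ..` with `g j ∈ Fn p (stp Φ) U` (at most `(p ^ m) ^ s1`) is `Q`, so equality holds as in IB_.lean.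
-/

set_option autoImplicit false

namespace DP

open Finset NumberField LVH VK VU FB

/-- Equidistribution from an upper bound: `Ω` is the union of the fibres of `F`, at most `N` fibres, each of at most
`Q / N` elements. -/
private theorem KC_abs {Ω G : Type} [Finite Ω] [Finite G] (F : Ω → G) (N : ℕ) (hG : Nat.card G ≤ N)
    (h : ∀ g, Nat.card {a : Ω // F a = g} * N ≤ Nat.card Ω) (g : G) :
    Nat.card {a : Ω // F a = g} * N = Nat.card Ω := by
  have := Fintype.ofFinite G
  have := Fintype.ofFinite Ω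
  have h1 : ∑ g, Nat.card {a : Ω // F a = g} = Nat.card Ω := by
    rw [← Nat.card_sigma]
    exact Nat.card_congr (Equiv.sigmaFiberEquiv F)
  have h2 : ∑ g : G, Nat.card {a : Ω // F a = g} * N = Nat.card Ω * N := by
    rw [← Finset.sum_mul, h1]
  have h3 : ∑ _g : G, Nat.card Ω ≤ Nat.card Ω * N := by
    rw [Finset.sum_const, Finset.card_univ, smul_eq_mul, ← Nat.card_eq_fintype_card, mul_comm]
    exact Nat.mul_le_mul_left _ hG
  have h4 : ∑ g : G, Nat.card {a : Ω // F a = g} * N = ∑ _g : G, Nat.card Ω :=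
    le_antisymm (Finset.sum_le_sum fun g _ => h g) (by rw [h2]; exact h3)
  exact (Finset.sum_eq_sum_iff_of_le fun g _ => h g).1 h4 g (Finset.mem_univ g)

/-- If `F` is equidistributed then so are some of its coordinates. -/
private theorem KC_sub {Ω T : Type} [Finite Ω] [Finite T] {s s1 : ℕ} (F : Ω → Fin s → T) (e0 : Fin s1 → Fin s)
    (he0 : Function.Injective e0) (q : ℕ) (hq : 0 < q) (hT : Nat.card T ≤ q)
    (h : ∀ g, Nat.card {a : Ω // F a = g} * q ^ s = Nat.card Ω) (g : Fin s1 → T) :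
    Nat.card {a : Ω // (fun j => F a (e0 j)) = g} * q ^ s1 = Nat.card Ω := by
  classical
  have := Fintype.ofFinite T
  have := Fintype.ofFinite Ω
  refine KC_abs (fun a j => F a (e0 j)) (q ^ s1) ?_ ?_ g
  · rw [Nat.card_fun, Nat.card_eq_fintype_card (α := Fin s1), Fintype.card_fin]
    exact Nat.pow_le_pow_left hT s1
  · intro g
    have hc : ((Finset.univ.image e0)ᶜ : Finset (Fin s)).card = s - s1 := by
      rw [Finset.card_compl, Finset.card_image_of_injective _ he0, Finset.card_univ, Fintype.card_fin, Fintype.card_fin]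
    have hss : s1 ≤ s := by
      have := Fintype.card_le_of_injective e0 he0
      rwa [Fintype.card_fin, Fintype.card_fin] at this
    let R : Ω → ({j // j ∈ ((Finset.univ.image e0)ᶜ : Finset (Fin s))} → T) := fun a j => F a j.1
    have h1 : Nat.card {a : Ω // (fun j => F a (e0 j)) = g} =
        ∑ r, Nat.card {a : {a : Ω // (fun j => F a (e0 j)) = g} // R a.1 = r} := by
      rw [← Nat.card_sigma]
      exact (Nat.card_congr (Equiv.sigmaFiberEquiv fun a : {a : Ω // (fun j => F a (e0 j)) = g} => R a.1)).symm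
    have h2 : ∀ r, Nat.card {a : {a : Ω // (fun j => F a (e0 j)) = g} // R a.1 = r} * q ^ s ≤ Nat.card Ω := by
      intro r
      rcases isEmpty_or_nonempty {a : {a : Ω // (fun j => F a (e0 j)) = g} // R a.1 = r} with hem | ⟨⟨a0, ha0⟩⟩
      · rw [Nat.card_of_isEmpty, zero_mul]
        exact Nat.zero_le _
      · rw [← h (F a0.1)]
        refine Nat.mul_le_mul_right _ (Nat.card_le_card_of_injective (fun a => ⟨a.1.1, ?_⟩) ?_)
        · funext j
          by_cases hj : j ∈ Finset.univ.image e0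
          · obtain ⟨j1, -, rfl⟩ := Finset.mem_image.1 hj
            exact congrFun (a.1.2.trans a0.2.symm) j1
          · exact congrFun (a.2.trans ha0.symm) ⟨j, Finset.mem_compl.2 hj⟩
        · intro a b hab
          have h5 := congrArg Subtype.val hab
          exact Subtype.ext (Subtype.ext h5)
    have h3 : Nat.card {a : Ω // (fun j => F a (e0 j)) = g} * q ^ s ≤ q ^ (s - s1) * Nat.card Ω := by
      rw [h1, Finset.sum_mul]
      refine (Finset.sum_le_sum fun r _ => h2 r).trans ?_
      rw [Finset.sum_const, Finset.card_univ, smul_eq_mul, Fintype.card_fun, Fintype.card_coe, hc,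
        ← Nat.card_eq_fintype_card]
      exact Nat.mul_le_mul_right _ (Nat.pow_le_pow_left hT _)
    have h4 : q ^ s = q ^ (s - s1) * q ^ s1 := by
      rw [← pow_add, Nat.sub_add_cancel hss]
    rw [h4] at h3
    refine Nat.le_of_mul_le_mul_left ?_ (pow_pos hq (s - s1))
    calc q ^ (s - s1) * (Nat.card {a : Ω // (fun j => F a (e0 j)) = g} * q ^ s1) =
          Nat.card {a : Ω // (fun j => F a (e0 j)) = g} * (q ^ (s - s1) * q ^ s1) := by ring
      _ ≤ _ := h3

open Classical in
theorem st_eqF {p : ℕ} [Fact p.Prime] {n q M s s1 e N0 : ℕ} {ι : Type} [Fintype ι] {α β : Fin q → ZMod p} {ν : Fin s → ℕ}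
    {d : Fin s → Fin q → ℕ} {Φ : (l : Fin q) → Pt (em p (α l)) (em p (β l)) →+ Pt (em p (α l)) (em p (β l))}
    (hΦ : IsFr p Φ) (E : Fin s → ι → Fin n → ℤ) (hE : ∀ j, Rich N0 (E j)) (hd : ∀ j l, 2 * (N0 - 1) ≤ d j l)
    (hν : ∀ j, N0 - 1 ≤ ν j ∨ M = 0) (v : Fin e → ZMod p) (hv : v ≠ 0) (e0 : Fin s1 → Fin s)
    (he0 : Function.Injective e0) (U : Finset (Xp p n M α β))
    (hU : ∀ x ∈ U, stp Φ x ∈ U ∧ (∀ l, x.1 l ≠ 0) ∧ Nrm x.2.2) (hc : U.card ≤ N0)
    (g : Fin s1 → Xp p n M α β → Om p) (hg : ∀ j, g j ∈ Fn p (stp Φ) U) :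
    Nat.card {a : IxM ι M ν d × Fin e → ZMod p // ∀ j, rs U (evX E v a (e0 j)) = g j} * p ^ (s1 * U.card) =
      Nat.card (IxM ι M ν d × Fin e → ZMod p) := by
  have hU1 : ∀ x ∈ U, stp Φ x ∈ U := fun x hx => (hU x hx).1
  obtain ⟨hfin, hcard⟩ := fn_fin (p := p) (stp Φ : Xp p n M α β → Xp p n M α β) (stp_inj hΦ) U hU1
  have hm : ∀ (a : IxM ι M ν d × Fin e → ZMod p) (j : Fin s),
      (rs U (evX E v a j) : Xp p n M α β → Om p) ∈ Fn p (stp Φ) U := by
    intro a j
    refine ⟨fun x hx => if_neg hx, fun x hx => ?_⟩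
    have e1 : rs U (evX E v a j) (stp Φ x) = evX E v a j (stp Φ x) := if_pos (hU1 x hx)
    have e2 : rs U (evX E v a j) x = evX E v a j x := if_pos hx
    rw [e1, e2, ev_fr hΦ]
  have hp0 : 0 < p := (Fact.out : p.Prime).pos
  have : NeZero p := ⟨hp0.ne'⟩
  have key := KC_sub (fun (a : IxM ι M ν d × Fin e → ZMod p) (j : Fin s) =>
    (⟨rs U (evX E v a j), hm a j⟩ : {g : Xp p n M α β → Om p // g ∈ Fn p (stp Φ) U})) e0 he0 (p ^ U.card)
    (pow_pos hp0 _) hcard
    (fun g' => by
      rw [← pow_mul, mul_comm U.card s, ← st_eq hΦ E hE hd hν v hv U hU hc (fun j => (g' j).1) (fun j => (g' j).2)]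
      congr 1
      refine Nat.card_congr (Equiv.subtypeEquivRight fun a => ?_)
      exact ⟨fun h j => congrArg Subtype.val (congrFun h j), fun h => funext fun j => Subtype.ext (h j)⟩)
    (fun j => ⟨g j, hg j⟩)
  rw [← key, ← pow_mul, mul_comm U.card s1]
  congr 1
  refine Nat.card_congr (Equiv.subtypeEquivRight fun a => ?_)
  exact ⟨fun h => funext fun j => Subtype.ext (h j), fun h j => congrArg Subtype.val (congrFun h j)⟩

end DP
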