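import Pool.Agent.Lib.MP_17a322_ntDP.DefsH
import Pool.Agent.Lib.MP_17a322_ntDP.Defs4

/-!
# Points of bounded degree, the boundary case with fixed components: the fixed sections
-/

set_option autoImplicit false

namespace DP

open Finset NumberField LVH VK FB

/-- the value at `x` of the fixed section of index `i` -/
noncomputable def fx {K : Type} [Field K] [NumberField K] {p : ℕ} [Fact p.Prime] {n h g M w : ℕ} {κ : Type} [Fintype κ]
    {δ : Fin w → ℕ} {d' : Fin w → Fin h → ℕ} (E' : Fin w → κ → Fin n → ℤ) (b : IxM κ M δ d' → 𝓞 K) (φ : 𝓞 K →+* ZMod p)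
    {α β : Fin (h + g) → ZMod p} (i : Fin w) (x : Xp p n M α β) : Om p :=
  sM E' (fun x => em p (φ (b x))) x.1 (fun l => opP (x.2.1 (Fin.castAdd g l))) x.2.2 i

/-- good points: the coordinates of the torus are not zero, the last coordinates are normalised, the fixed sections of
index not in `W` vanish -/
def Gw {K : Type} [Field K] [NumberField K] {p : ℕ} [Fact p.Prime] {n h g M w : ℕ} {κ : Type} [Fintype κ]
    {δ : Fin w → ℕ} {d' : Fin w → Fin h → ℕ} (W : Finset (Fin w)) (E' : Fin w → κ → Fin n → ℤ)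
    (b : IxM κ M δ d' → 𝓞 K) (φ : 𝓞 K →+* ZMod p) (α β : Fin (h + g) → ZMod p) (x : Xp p n M α β) : Prop :=
  (∀ l, x.1 l ≠ 0) ∧ Nrm x.2.2 ∧ ∀ i ∉ W, fx E' b φ i x = 0

end DP
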