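import Pool.Agent.Lib.MP_17a322_ntVU.G1

/-!
# LEAF KE: families of values with a dependent class

PROOF.  Let `τ0 = ` the restriction of `τ` to `J` without `j0`.  `hdep`: `N • c (inr j0) = ∑ over the other indices i of λ i • c i` (`Submodule.mem_span_..`: an element of the span of `{c' | ∃ i ≠ inr j0, c' = c i}` is a finite integral combination: `Submodule.mem_span_image_iff..`, `Finsupp.mem_span_range_iff_exists_finsupp` for the family indexed by `{i // i ≠ inr j0}`).  Hence for a family `ch c l` (`ch c l i = ∏ m, l m ^ c i m`): `(ch c l (inr j0)) ^ N = ∏ over the others of (ch c l i) ^ λ i` is determined by `θ0` and `τ0`, and `x ^ N = a` has at most `N` solutions `x` in `(ZMod p)ˣ` (`card_nthRoots`, `IsCyclic.card_pow_eq_one_le` for a cyclic group, or `rootsOfUnity`).  So the number of the `τ` is at most `N * (p - 1) ^ (card J - 1)`, and times `p` at most `N * p ^ card J` (`p - 1 ≤ p`, `1 ≤ card J`).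
-/

set_option autoImplicit false

namespace DP

open Finset NumberField VU

private theorem KE_span {G μ : Type} [CommGroup G] [Fintype μ] (l l' : μ → G) (S : Set (μ → ℤ))
    (hS : ∀ v ∈ S, ∏ m, l m ^ v m = ∏ m, l' m ^ v m) (v : μ → ℤ) (hv : v ∈ Submodule.span ℤ S) :
    ∏ m, l m ^ v m = ∏ m, l' m ^ v m := by
  induction hv using Submodule.span_induction with
  | mem v h => exact hS v h
  | zero => simp only [Pi.zero_apply, zpow_zero]
  | add v w _ _ h1 h2 =>
    simp only [Pi.add_apply, zpow_add, Finset.prod_mul_distrib, h1, h2]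
  | smul a v _ h =>
    simp only [Pi.smul_apply, smul_eq_mul, mul_comm a, zpow_mul, Finset.prod_zpow, h]

private theorem KE_pow {p : ℕ} {I J μ : Type} [Fintype μ] (c : I ⊕ J → μ → ℤ)
    (j0 : J) (N : ℕ)
    (hdep : (N : ℤ) • c (Sum.inr j0) ∈ Submodule.span ℤ {c' | ∃ i, i ≠ Sum.inr j0 ∧ c' = c i})
    (l l' : μ → (ZMod p)ˣ) (h : ∀ i, i ≠ Sum.inr j0 → VU.ch c l i = VU.ch c l' i) :
    VU.ch c l (Sum.inr j0) ^ N = VU.ch c l' (Sum.inr j0) ^ N := by
  have h1 := KE_span l l' {c' | ∃ i, i ≠ Sum.inr j0 ∧ c' = c i} (by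
    rintro v ⟨i, hi, rfl⟩
    exact h i hi) _ hdep
  have h2 : ∀ l : μ → (ZMod p)ˣ, ∏ m, l m ^ ((N : ℤ) • c (Sum.inr j0)) m = VU.ch c l (Sum.inr j0) ^ N := by
    intro l
    have h3 : VU.ch c l (Sum.inr j0) = ∏ m, l m ^ c (Sum.inr j0) m := rfl
    rw [h3, ← Finset.prod_pow]
    refine Finset.prod_congr rfl fun m _ => ?_
    rw [Pi.smul_apply, smul_eq_mul, mul_comm, zpow_mul, zpow_natCast]
  rw [h2, h2] at h1
  exact h1

theorem few_fam {p : ℕ} [Fact p.Prime] {I J μ : Type} [Fintype I] [Fintype J] [Fintype μ] (c : I ⊕ J → μ → ℤ)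
    (j0 : J) (N : ℕ) (hN : 1 ≤ N)
    (hdep : (N : ℤ) • c (Sum.inr j0) ∈ Submodule.span ℤ {c' | ∃ i, i ≠ Sum.inr j0 ∧ c' = c i}) (θ0 : I → (ZMod p)ˣ) :
    Nat.card {τ : J → (ZMod p)ˣ // ∃ l : μ → (ZMod p)ˣ, (∀ i, VU.ch c l (Sum.inl i) = θ0 i) ∧
      ∀ j, VU.ch c l (Sum.inr j) = τ j} * p ≤ N * p ^ Fintype.card J := by
  classical
  have hNZ : NeZero N := ⟨by omega⟩
  let T := {τ : J → (ZMod p)ˣ // ∃ l : μ → (ZMod p)ˣ, (∀ i, VU.ch c l (Sum.inl i) = θ0 i) ∧
      ∀ j, VU.ch c l (Sum.inr j) = τ j}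
  let R : T → ({j : J // j ≠ j0} → (ZMod p)ˣ) := fun x j => x.1 j.1
  have hkey : ∀ x y : T, R x = R y → (x.1 j0 / y.1 j0) ^ N = 1 := by
    intro x y hxy
    obtain ⟨l, hl1, hl2⟩ := x.2
    obtain ⟨l', hl1', hl2'⟩ := y.2
    have h1 := KE_pow c j0 N hdep l l' (by
      intro i hi
      rcases i with i | j
      · rw [hl1, hl1']
      · have hj : j ≠ j0 := fun h => hi (by rw [h])
        rw [hl2, hl2']
        exact congrFun hxy ⟨j, hj⟩)
    rw [hl2, hl2'] at h1
    rw [div_pow, h1, div_self']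
  let b : T → T := fun x => (⟨R x, x, rfl⟩ : Set.range R).2.choose
  have hb : ∀ x, R (b x) = R x := fun x => (⟨R x, x, rfl⟩ : Set.range R).2.choose_spec
  have hb2 : ∀ x y, R x = R y → b x = b y := by
    intro x y hxy
    have h1 : (⟨R x, x, rfl⟩ : Set.range R) = ⟨R y, y, rfl⟩ := Subtype.ext hxy
    exact congrArg (fun z : Set.range R => z.2.choose) h1
  let F : T → ({j : J // j ≠ j0} → (ZMod p)ˣ) × rootsOfUnity N (ZMod p) := fun x =>
    (R x, ⟨x.1 j0 / (b x).1 j0, hkey x (b x) (hb x).symm⟩)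
  have hF : Function.Injective F := by
    intro x y hxy
    have h1 : R x = R y := congrArg Prod.fst hxy
    have h2 : x.1 j0 / (b x).1 j0 = y.1 j0 / (b y).1 j0 := congrArg Subtype.val (congrArg Prod.snd hxy)
    rw [hb2 x y h1] at h2
    have h3 : x.1 j0 = y.1 j0 := div_left_injective h2
    refine Subtype.ext (funext fun j => ?_)
    by_cases hj : j = j0
    · rw [hj]
      exact h3
    · exact congrFun h1 ⟨j, hj⟩
  have h1 := Nat.card_le_card_of_injective F hF
  rw [Nat.card_prod, Nat.card_fun, Nat.card_eq_fintype_card (α := (ZMod p)ˣ), ZMod.card_units,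
    Nat.card_eq_fintype_card (α := {j : J // j ≠ j0})] at h1
  have h2 : Fintype.card {j : J // j ≠ j0} = Fintype.card J - 1 := by
    rw [Fintype.card_subtype, Finset.filter_ne', Finset.card_erase_of_mem (Finset.mem_univ _), Finset.card_univ]
  have h3 := card_rootsOfUnity (ZMod p) N
  have hJ : 0 < Fintype.card J := Fintype.card_pos_iff.2 ⟨j0⟩
  rw [h2] at h1
  have h4 : (p - 1) ^ (Fintype.card J - 1) ≤ p ^ (Fintype.card J - 1) :=
    Nat.pow_le_pow_left (Nat.sub_le p 1) _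
  calc Nat.card T * p ≤ (p ^ (Fintype.card J - 1) * N) * p :=
        Nat.mul_le_mul_right p (le_trans h1 (Nat.mul_le_mul h4 h3))
    _ = N * (p ^ (Fintype.card J - 1) * p) := by ring
    _ = N * p ^ Fintype.card J := by
      rw [← pow_succ, Nat.sub_add_cancel hJ]

end DP
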