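import Pool.Agent.Lib.MP_17a322_ntDP.WF
import Pool.Agent.Lib.MP_17a322_ntVY.VD
import Pool.Agent.Lib.MP_17a322_ntVK.SC1
import Pool.Agent.Lib.MP_17a322_ntVU.G1

/-!
# LEAF WG: the density of the local condition, pairs with fixed components

PROOF.  As `dens_V` (`VC.lean`; copy its private lemmas with the prefix `WG_`).  `cV : {i // i ∈ W} ⊕ {j // j ∈ V} → Fin (h + g) ⊕ Unit → ℤ` is `Sum.elim (fun i => cl (Fin.append (d' i) 0) (δ i)) (fun j => cl (d j) (ν j))`; its range is `clD W V δ d' ν d`; `ρ = Set.finrank ℤ (Set.range cV) ≤ W.card + V.card`.  `C, p1` from `pat_cntW`; `Nk` the number of the patterns as there; `p0 = p1 + 2 * Nk * C + 3`.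
The families: `X = {f : {i // i ∈ W} ⊕ {j // j ∈ V} → (ZMod p)ˣ // ∃ l, f = VU.ch cV l}` (at most `(p - 1) ^ ρ ≤ p ^ ρ` by `ch_card`), `act a f = f * ch cV (Sum.elim 1 (fun _ => a))` (again of the form `ch cV (l * ..)`, injective), `θ f i = f (inl ⟨i, _⟩) * u (natAdd n (castAdd s i))` for `i ∈ W` (else `1`), `τ f j = f (inr ⟨j, _⟩) * u (natAdd n (natAdd w j))` for `j ∈ V` (else `1`); `θ (act a f) i = a ^ δ i * θ f i` since `ch cV (Sum.elim 1 (fun _ => a)) (inl i) = a ^ (δ i : ℤ)`.  For `c` in `RDG ..` with `c0, t` the family is `ch cV (Sum.elim t c0)`: `(∏ l, t l ^ (Fin.append (d' i) 0 l)) * c0 ^ δ i = c0 ^ δ i * ∏ l : Fin h, t (castAdd g l) ^ d' i l` (`Fin.prod_univ_add`, `Fin.append_left`, `Fin.append_right`).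
`cyc (stp Φ)` as in `VC_tup`, in addition with `G = Additive (Om p)` and the values of the sections with the coefficients `b` on the first `h` curves (`VC_it` also for them: `sM_fr` at the points `fun l => opP (x.2.1 (castAdd g l))`).  The rest as in `dens_V`, with `pat_cntW` once for every pattern (the union over the families is inside `pat_cntW`): `# * p ≤ Nk * C * p ^ N`.
-/

set_option autoImplicit false

namespace DP

open Finset NumberField LVH VK FB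

open Classical in
/-- the values of a function at the conjugates of a point -/
private theorem WG_it {p : ℕ} [Fact p.Prime] {n M q : ℕ} {α β : Fin q → ZMod p}
    {Φ : (l : Fin q) → Pt (em p (α l)) (em p (β l)) →+ Pt (em p (α l)) (em p (β l))} (hΦ : IsFr p Φ)
    (D : (Fin n → Om p) → (Fin q → Option (Om p × Om p)) → (Fin (M + 1) → Om p) → Om p)
    (hD : ∀ t P y, D (fun l => t l ^ p) (fun l => frO p (P l)) (fun l => y l ^ p) = D t P y ^ p)
    (x : Xp p n M α β) (i : ℕ) :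
    D ((stp Φ)^[i] x).1 (fun l => opP (((stp Φ)^[i] x).2.1 l)) ((stp Φ)^[i] x).2.2 =
      D x.1 (fun l => opP (x.2.1 l)) x.2.2 ^ p ^ i := by
  induction i with
  | zero =>
    rw [pow_zero, pow_one]
    rfl
  | succ i ih =>
    rw [Function.iterate_succ_apply', pow_succ, pow_mul, ← ih]
    obtain ⟨w, hw⟩ : ∃ w, w = (stp Φ)^[i] x := ⟨_, rfl⟩
    rw [← hw]
    have h1 : (fun l => opP ((stp Φ w).2.1 l)) = fun l => frO p (opP (w.2.1 l)) := funext fun l => hΦ l (w.2.1 l)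
    rw [h1]
    exact hD w.1 (fun l => opP (w.2.1 l)) w.2.2

open Classical in
/-- the cycles of Frobenius on a tuple of points -/
private theorem WG_tup {p : ℕ} [Fact p.Prime] {n q M k w s : ℕ} {ι : Type} [Fintype ι] {ν : Fin s → ℕ}
    {d : Fin s → Fin q → ℕ} (W : Finset (Fin w)) (V R : Finset (Fin s)) {α β : Fin q → ZMod p}
    (Φ : (l : Fin q) → Pt (em p (α l)) (em p (β l)) →+ Pt (em p (α l)) (em p (β l))) (hΦ : IsFr p Φ)
    (u : Fin n → ZMod p) (z : Fin q → Option (ZMod p × ZMod p)) (Z : (l : Fin q) → Pt (em p (α l)) (em p (β l)))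
    (hZ : ∀ l, opP (Z l) = mpO (em p) (z l))
    (D : (Fin n → Om p) → (Fin q → Option (Om p × Om p)) → (Fin (M + 1) → Om p) → Fin w → Om p)
    (hD : ∀ t P y i, D (fun l => t l ^ p) (fun l => frO p (P l)) (fun l => y l ^ p) i = D t P y i ^ p)
    (ϑ : Fin w → ZMod p)
    (E : Fin s → ι → Fin n → ℤ) (a : IxM ι M ν d → ZMod p) (θ : Fin s → ZMod p)
    (h : TupG p k W V R α β u z D ϑ E a θ) :
    ∃ (r : ℕ) (c μ : Fin r → ℕ), 1 ≤ r ∧ (∀ j, 1 ≤ c j ∧ 1 ≤ μ j) ∧ ∑ j, μ j * c j ≤ k ∧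
      ∃ x : Fin r → Xp p n M α β, Pat Φ c μ u Z x ∧
        Function.Injective (fun i : (j : Fin r) × Fin (c j) => (stp Φ)^[(i.2 : ℕ)] (x i.1)) ∧
        (∀ i ∉ W, ∀ j, D (x j).1 (fun l => opP ((x j).2.1 l)) (x j).2.2 i = 0) ∧
        (∀ i ∈ W, ∏ j, (∏ i' ∈ range (c j), D (x j).1 (fun l => opP ((x j).2.1 l)) (x j).2.2 i ^ p ^ i') ^ μ j =
          em p (ϑ i)) ∧
        (∀ j ∉ V, j ∉ R → ∀ i, sM E (fun x => em p (a x)) (x i).1 (fun l => opP ((x i).2.1 l)) (x i).2.2 j = 0) ∧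
        ∀ j ∈ V, ∏ i, (∏ i' ∈ range (c i), sM E (fun x => em p (a x)) (x i).1
          (fun l => opP ((x i).2.1 l)) (x i).2.2 j ^ p ^ i') ^ μ i = em p (θ j) := by
  obtain ⟨m, τ, t, P, y, hm, hmk, ht, hP, hy, hprod, hsum, hQ, hT, hW, hV⟩ := h
  obtain ⟨x, hxd⟩ : ∃ x : Fin m → Xp p n M α β, ∀ i, x i = (t i, P i, y i) := ⟨fun i => (t i, P i, y i), fun i => rfl⟩
  have hx : ∀ i, x (τ i) = stp Φ (x i) := by
    intro i
    rw [hxd, hxd]
    unfold stp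
    refine Prod.ext ?_ (Prod.ext ?_ ?_)
    · funext l
      exact (ht i l).2
    · funext l
      refine opP_inj ?_
      exact (hP i l).trans (hΦ l (P i l)).symm
    · funext l
      exact (hy i).2 l
  obtain ⟨r, v, c, μ, hr, hprop, hinj, hsums⟩ := cyc (stp Φ) (stp_inj hΦ) hm x τ hx
  have hfix : ∀ j, (fun l => (v j).1 l ^ p ^ c j, fun l => (⇑(Φ l))^[c j] ((v j).2.1 l), fun l => (v j).2.2 l ^ p ^ c j) = v j := by
    intro j
    have h1 := (hprop j).2.2.1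
    rw [stp_it] at h1
    exact h1
  have hdeg : ∑ j, μ j * c j ≤ k := by
    have h1 := hsums ℕ (fun _ => 1)
    simp only [Finset.sum_const, Finset.card_univ, Fintype.card_fin, Finset.card_range, smul_eq_mul, mul_one] at h1
    rw [← h1]
    exact hmk
  -- the product of the values of a function
  have hval : ∀ (F : (Fin n → Om p) → (Fin q → Option (Om p × Om p)) → (Fin (M + 1) → Om p) → Om p),
      (∀ t P y, F (fun l => t l ^ p) (fun l => frO p (P l)) (fun l => y l ^ p) = F t P y ^ p) →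
      ∏ i, F (t i) (fun l => opP (P i l)) (y i) =
        ∏ i, (∏ i' ∈ range (c i), F (v i).1 (fun l => opP ((v i).2.1 l)) (v i).2.2 ^ p ^ i') ^ μ i := by
    intro F hF
    have h1 := hsums (Additive (Om p)) (fun b => Additive.ofMul (F b.1 (fun l => opP (b.2.1 l)) b.2.2))
    have h2 := congrArg Additive.toMul h1
    rw [toMul_sum, toMul_sum] at h2
    simp only [toMul_nsmul, toMul_sum, toMul_ofMul] at h2
    have h3 : ∏ i, F (t i) (fun l => opP (P i l)) (y i) =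
        ∏ i, F (x i).1 (fun l => opP ((x i).2.1 l)) (x i).2.2 :=
      Finset.prod_congr rfl fun i _ => by rw [hxd]
    rw [h3, h2]
    refine Finset.prod_congr rfl fun i _ => ?_
    congr 1
    refine Finset.prod_congr rfl fun i' _ => ?_
    rw [WG_it hΦ F hF]
  refine ⟨r, c, μ, hr, fun j => ⟨(hprop j).1, (hprop j).2.1⟩, hdeg, v, ⟨?_, ?_, ?_, ?_, ?_⟩, hinj, ?_, ?_, ?_, ?_⟩
  · intro j l
    obtain ⟨i, hi⟩ := (hprop j).2.2.2
    refine ⟨?_, ?_⟩
    · rw [hi, hxd]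
      exact (ht i l).1
    · exact congrFun (congrArg Prod.fst (hfix j)) l
  · intro j l
    exact congrFun (congrArg (fun a => a.2.1) (hfix j)) l
  · intro j
    obtain ⟨i, hi⟩ := (hprop j).2.2.2
    refine ⟨?_, fun l => ?_⟩
    · rw [hi, hxd]
      exact (hy i).1
    · exact congrFun (congrArg (fun a => a.2.2) (hfix j)) l
  · intro l
    have h1 := hsums (Additive (Om p)) (fun a => Additive.ofMul (a.1 l))
    have h2 := congrArg Additive.toMul h1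
    rw [toMul_sum, toMul_sum] at h2
    simp only [toMul_nsmul, toMul_sum, toMul_ofMul] at h2
    rw [← hprod l]
    have h3 : ∏ i, t i l = ∏ i, (x i).1 l := Finset.prod_congr rfl fun i _ => by rw [hxd]
    rw [h3, h2]
    refine Finset.prod_congr rfl fun j _ => ?_
    congr 1
    refine Finset.prod_congr rfl fun i _ => ?_
    rw [stp_it]
  · intro l
    have h1 := hsums (Pt (em p (α l)) (em p (β l))) (fun a => a.2.1 l)
    refine opP_inj ?_
    rw [hZ l, ← hsum l]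
    congr 1
    have h3 : ∑ i, P i l = ∑ i, (x i).2.1 l := Finset.sum_congr rfl fun i _ => by rw [hxd]
    rw [h3, h1]
    refine Finset.sum_congr rfl fun j _ => ?_
    congr 1
    refine Finset.sum_congr rfl fun i _ => ?_
    rw [stp_it]
  · intro i hi j
    obtain ⟨i', hi'⟩ := (hprop j).2.2.2
    rw [hi', hxd]
    exact hQ i hi i'
  · intro i hi
    rw [← hT i hi]
    exact (hval (fun t P y => D t P y i) (fun t P y => hD t P y i)).symm
  · intro j hj hj' i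
    obtain ⟨i', hi'⟩ := (hprop i).2.2.2
    rw [hi', hxd]
    exact hW j hj hj' i'
  · intro j hj
    rw [← hV j hj]
    exact (hval (fun t P y => sM E (fun x => em p (a x)) t P y j) (fun t P y => sM_fr E a t P y j)).symm

open Classical in
/-- Frobenius on the points of the curves -/
private theorem WG_fr (p : ℕ) [Fact p.Prime] {q : ℕ} (α β : Fin q → ZMod p) :
    ∃ Φ : (l : Fin q) → Pt (em p (α l)) (em p (β l)) →+ Pt (em p (α l)) (em p (β l)), IsFr p Φ := by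
  have : CharP (Om p) p := charP_of_injective_algebraMap (algebraMap (ZMod p) (Om p)).injective p
  have : ExpChar (Om p) p := ExpChar.prime Fact.out
  have h1 : ∀ a : ZMod p, frobenius (Om p) p (em p a) = em p a := by
    intro a
    rw [frobenius_def, ← map_pow, ZMod.pow_card]
  have h2 : ∀ l : Fin q, ∃ φ : Pt (em p (α l)) (em p (β l)) →+ Pt (em p (α l)) (em p (β l)),
      ∀ P, opP (φ P) = frO p (opP P) := by
    intro l
    obtain ⟨φ, -, hφ⟩ := ex_map (frobenius (Om p) p) (h1 (α l)) (h1 (β l))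
    refine ⟨φ, fun P => ?_⟩
    rw [hφ P]
    rcases opP P with _ | z
    · rfl
    · rfl
  choose Φ hΦ using h2
  exact ⟨Φ, hΦ⟩

/-- the union over the patterns -/
private theorem WG_union {A Λ : Type} [Fintype A] [Fintype Λ] {p C Q : ℕ} (S : Set A) (V : Λ → Set A) (h : ∀ a ∈ S, ∃ w, a ∈ V w)
    (hV : ∀ w, Nat.card (V w) * p ≤ C * Q) : Nat.card S * p ≤ Fintype.card Λ * C * Q := by
  classical
  have h1 : Nat.card S = (Finset.univ.filter fun a => a ∈ S).card := by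
    rw [Nat.card_eq_fintype_card, ← Fintype.card_subtype]
  have h2 : ∀ w, Nat.card (V w) = (Finset.univ.filter fun a => a ∈ V w).card := by
    intro w
    rw [Nat.card_eq_fintype_card, ← Fintype.card_subtype]
  have h3 : (Finset.univ.filter fun a => a ∈ S) ⊆ (Finset.univ : Finset Λ).biUnion fun w => Finset.univ.filter fun a => a ∈ V w := by
    intro a ha
    obtain ⟨w, hw⟩ := h a (Finset.mem_filter.1 ha).2
    exact Finset.mem_biUnion.2 ⟨w, Finset.mem_univ _, Finset.mem_filter.2 ⟨Finset.mem_univ _, hw⟩⟩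
  rw [h1]
  refine (Nat.mul_le_mul_right p ((Finset.card_le_card h3).trans Finset.card_biUnion_le)).trans ?_
  rw [Finset.sum_mul]
  have h4 : ∀ w ∈ (Finset.univ : Finset Λ), (Finset.univ.filter fun a => a ∈ V w).card * p ≤ C * Q := by
    intro w _
    rw [← h2]
    exact hV w
  refine (Finset.sum_le_card_nsmul _ _ _ h4).trans ?_
  rw [Finset.card_univ, smul_eq_mul, mul_assoc]

/-- the value of the character `cl d ν` -/
private theorem WG_cl {G : Type} [CommGroup G] {q : ℕ} (l : Fin q → G) (a : G) (d : Fin q → ℕ) (ν : ℕ) :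
    (∏ m, (Sum.elim l (fun _ => a) m) ^ VU.cl d ν m) = (∏ i, l i ^ d i) * a ^ ν := by
  rw [Fintype.prod_sum_type]
  simp only [Sum.elim_inl, Sum.elim_inr, Finset.univ_unique, Finset.prod_singleton, VU.cl, zpow_natCast]

/-- the same for non-zero elements -/
private theorem WG_ch {p q : ℕ} [Fact p.Prime] (l : Fin q → ZMod p) (hl : ∀ i, l i ≠ 0) (a : ZMod p) (ha : a ≠ 0)
    (d : Fin q → ℕ) (ν : ℕ) :
    ((∏ m, (Sum.elim (fun i => Units.mk0 (l i) (hl i)) (fun _ => Units.mk0 a ha) m : (ZMod p)ˣ) ^ VU.cl d ν m :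
      (ZMod p)ˣ) : ZMod p) = (∏ i, l i ^ d i) * a ^ ν := by
  rw [WG_cl, Units.val_mul, Units.coe_prod, Units.val_pow_eq_pow_val]
  rfl

private theorem WG_mul {G μ I : Type} [CommGroup G] [Fintype μ] (c : I → μ → ℤ) (l l' : μ → G) :
    VU.ch c (l * l') = VU.ch c l * VU.ch c l' := by
  funext i
  simp only [VU.ch, Pi.mul_apply, mul_zpow, Finset.prod_mul_distrib]

open Classical in
theorem dens_W (K : Type) [Field K] [NumberField K] (L : Type) [Field L] [NumberField L] {n h M w r0 : ℕ} {κ : Type}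
    [Fintype κ] {δ : Fin w → ℕ} {d' : Fin w → Fin h → ℕ} (A' B' : Fin h → 𝓞 K) (E' : Fin w → κ → Fin n → ℤ)
    (b : IxM κ M δ d' → 𝓞 K) (hF : FibP A' B' E' b r0) (k g s e : ℕ) {ι : Type} [Fintype ι] (ν : Fin s → ℕ)
    (d : Fin s → Fin (h + g) → ℕ) (E : Fin s → ι → Fin n → ℤ) (ω : Module.Basis (Fin e) ℤ (𝓞 K))
    (hE : ∀ j, Rich k (E j)) (hd : ∀ j l, 2 * (k - 1) ≤ d j l) (hν : ∀ j, k - 1 ≤ ν j ∨ M = 0) (W : Finset (Fin w))
    (hW : ∀ i ∈ W, 1 ≤ δ i) (V R : Finset (Fin s))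
    (hk : k * (n + (h + g) + r0 + W.card + V.card + (R \ V).card) + Set.finrank ℤ (VU.clD W V δ d' ν d) <
      n + (h + g) + W.card + V.card + k * (s + 1)) :
    ∃ p0 : ℕ, ∀ ζ : Cv e g, DensK L p0 (RDG k W V R A' B' E' b ν d E (⇑ω) ζ) (1 / 2) := by
  obtain ⟨cV, hcV⟩ : ∃ cV : {i // i ∈ W} ⊕ {j // j ∈ V} → Fin (h + g) ⊕ Unit → ℤ,
      cV = Sum.elim (fun i => VU.cl (Fin.append (d' i.1) (0 : Fin g → ℕ)) (δ i.1)) (fun j => VU.cl (d j.1) (ν j.1)) :=
    ⟨_, rfl⟩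
  have hcl : ∀ i : {i // i ∈ W}, cV (Sum.inl i) = VU.cl (Fin.append (d' i.1) (0 : Fin g → ℕ)) (δ i.1) := fun i => by
    rw [hcV]
    rfl
  have hcr : ∀ j : {j // j ∈ V}, cV (Sum.inr j) = VU.cl (d j.1) (ν j.1) := fun j => by
    rw [hcV]
    rfl
  have hset : VU.clD W V δ d' ν d = Set.range cV := by
    ext c
    constructor
    · rintro (⟨i, hi, hc⟩ | ⟨j, hj, hc⟩)
      · exact ⟨Sum.inl ⟨i, hi⟩, by rw [hcl, hc]⟩
      · exact ⟨Sum.inr ⟨j, hj⟩, by rw [hcr, hc]⟩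
    · rintro ⟨i | j, hj⟩
      · exact Or.inl ⟨i.1, i.2, by rw [← hj, hcl]⟩
      · exact Or.inr ⟨j.1, j.2, by rw [← hj, hcr]⟩
  rw [hset] at hk
  obtain ⟨ρ, hρd⟩ : ∃ ρ, ρ = Set.finrank ℤ (Set.range cV) := ⟨_, rfl⟩
  have hρ : ρ ≤ W.card + V.card := by
    rw [hρd]
    refine (finrank_range_le_card (R := ℤ) cV).trans (le_of_eq ?_)
    rw [Fintype.card_sum, Fintype.card_coe, Fintype.card_coe]
  rw [← hρd] at hk
  obtain ⟨C, p1, hC⟩ := pat_cntW K A' B' E' b hF k g s e ν d E hE hd hν W hW V R ρ hρ hk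
  refine ⟨p1 + 2 * (Fintype.card ((r : Fin (k + 1)) × ((Fin (r : ℕ) → Fin (k + 1)) × (Fin (r : ℕ) → Fin (k + 1)))) * C) + 3, fun ζ => ?_⟩
  intro p hp hpp _ π u z hu
  have hpf : Fact p.Prime := ⟨hp⟩
  have hp0 : 0 < p := hp.pos
  have hnn : (0 : ℝ) ≤ (1 - 1 / 2) * (p : ℝ) ^ Fintype.card (IxM ι M ν d × Fin e) := by positivity
  by_cases hds : ∀ l, ds (res π (aA (⇑ω) A' ζ l)) (res π (aB (⇑ω) B' ζ l)) ≠ 0
  swap
  · have h0 : IsEmpty (RDG k W V R A' B' E' b ν d E (⇑ω) ζ p π u z) := by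
      refine ⟨fun a => ?_⟩
      obtain ⟨_, h1, _⟩ := a.2
      exact hds h1
    rw [Nat.card_of_isEmpty, Nat.cast_zero]
    exact hnn
  by_cases hZ : ∀ l, ∃ Zl : Pt (em p (res π (aA (⇑ω) A' ζ l))) (em p (res π (aB (⇑ω) B' ζ l))), opP Zl = mpO (em p) (z l)
  swap
  · have h0 : IsEmpty (RDG k W V R A' B' E' b ν d E (⇑ω) ζ p π u z) := by
      refine ⟨fun a => ?_⟩
      obtain ⟨_, _, _, _, _, _, m, τ, t, P, y, _, _, _, _, _, _, h1, _⟩ := a.2
      exact hZ fun l => ⟨∑ i, P i l, h1 l⟩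
    rw [Nat.card_of_isEmpty, Nat.cast_zero]
    exact hnn
  choose Z hZ' using hZ
  obtain ⟨φ, hφ⟩ := res_hom π
  obtain ⟨Φ, hΦ⟩ := WG_fr p (fun l => res π (aA (⇑ω) A' ζ l)) (fun l => res π (aB (⇑ω) B' ζ l))
  have hv : (fun i => res π ((ω i : 𝓞 K) : K)) ≠ 0 := w_ne ω fun i => rd_res (int_mem π _)
  have hαβ : ∀ l : Fin h, (fun l => res π (aA (⇑ω) A' ζ l)) (Fin.castAdd g l) = φ (A' l) ∧
      (fun l => res π (aB (⇑ω) B' ζ l)) (Fin.castAdd g l) = φ (B' l) := by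
    intro l
    rw [hφ, hφ]
    unfold aA aB
    dsimp only
    rw [Fin.append_left, Fin.append_left]
    exact ⟨rfl, rfl⟩
  -- the families of the values
  have hTc : Fintype.card {f : {i // i ∈ W} ⊕ {j // j ∈ V} → (ZMod p)ˣ // ∃ l : Fin (h + g) ⊕ Unit → (ZMod p)ˣ, f = VU.ch cV l} ≤
      p ^ ρ := by
    have h1 := VU.ch_card (G := (ZMod p)ˣ) cV
    rw [← hρd, Nat.card_eq_fintype_card] at h1
    refine h1.trans (Nat.pow_le_pow_left ?_ ρ)
    rw [Nat.card_eq_fintype_card, ZMod.card_units]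
    exact Nat.sub_le _ _
  obtain ⟨act, hact⟩ : ∃ act : (ZMod p)ˣ →
      {f : {i // i ∈ W} ⊕ {j // j ∈ V} → (ZMod p)ˣ // ∃ l : Fin (h + g) ⊕ Unit → (ZMod p)ˣ, f = VU.ch cV l} →
      {f : {i // i ∈ W} ⊕ {j // j ∈ V} → (ZMod p)ˣ // ∃ l : Fin (h + g) ⊕ Unit → (ZMod p)ˣ, f = VU.ch cV l},
      ∀ a f, (act a f).1 = f.1 * VU.ch cV (Sum.elim 1 (fun _ => a)) :=
    ⟨fun a f => ⟨f.1 * VU.ch cV (Sum.elim 1 (fun _ => a)), by
      obtain ⟨l, hl⟩ := f.2
      exact ⟨l * Sum.elim (1 : Fin (h + g) → (ZMod p)ˣ) (fun _ => a), by rw [hl, WG_mul]⟩⟩, fun a f => rfl⟩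
  have hacti : ∀ a, Function.Injective (act a) := by
    intro a f f' hff
    apply Subtype.ext
    have h1 := congrArg Subtype.val hff
    rw [hact, hact] at h1
    exact mul_right_cancel h1
  obtain ⟨θ, hθ⟩ : ∃ θ : {f : {i // i ∈ W} ⊕ {j // j ∈ V} → (ZMod p)ˣ // ∃ l : Fin (h + g) ⊕ Unit → (ZMod p)ˣ, f = VU.ch cV l} →
      Fin w → ZMod p,
      ∀ f i (hi : i ∈ W), θ f i = ((f.1 (Sum.inl ⟨i, hi⟩) : (ZMod p)ˣ) : ZMod p) * u (Fin.natAdd n (Fin.castAdd s i)) :=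
    ⟨fun f i => if hi : i ∈ W then ((f.1 (Sum.inl ⟨i, hi⟩) : (ZMod p)ˣ) : ZMod p) * u (Fin.natAdd n (Fin.castAdd s i)) else 0,
      fun f i hi => dif_pos hi⟩
  obtain ⟨τ, hτ⟩ : ∃ τ : {f : {i // i ∈ W} ⊕ {j // j ∈ V} → (ZMod p)ˣ // ∃ l : Fin (h + g) ⊕ Unit → (ZMod p)ˣ, f = VU.ch cV l} →
      Fin s → ZMod p,
      ∀ f j (hj : j ∈ V), τ f j = ((f.1 (Sum.inr ⟨j, hj⟩) : (ZMod p)ˣ) : ZMod p) * u (Fin.natAdd n (Fin.natAdd w j)) :=
    ⟨fun f j => if hj : j ∈ V then ((f.1 (Sum.inr ⟨j, hj⟩) : (ZMod p)ˣ) : ZMod p) * u (Fin.natAdd n (Fin.natAdd w j)) else 0,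
      fun f j hj => dif_pos hj⟩
  have hθ0 : ∀ f, ∀ i ∈ W, θ f i ≠ 0 := by
    intro f i hi
    rw [hθ f i hi]
    exact mul_ne_zero (Units.ne_zero _) (hu _)
  have hτ0 : ∀ f, ∀ j ∈ V, τ f j ≠ 0 := by
    intro f j hj
    rw [hτ f j hj]
    exact mul_ne_zero (Units.ne_zero _) (hu _)
  have hθa : ∀ a f, ∀ i ∈ W, θ (act a f) i = (a : ZMod p) ^ δ i * θ f i := by
    intro a f i hi
    have h2 : VU.ch cV (Sum.elim 1 (fun _ => a)) (Sum.inl ⟨i, hi⟩) = a ^ δ i := by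
      unfold VU.ch
      rw [hcl, WG_cl]
      simp only [Pi.one_apply, one_pow, Finset.prod_const_one, one_mul]
    rw [hθ _ i hi, hθ _ i hi, hact, Pi.mul_apply, h2, Units.val_mul, Units.val_pow_eq_pow_val]
    ring
  have hpat := fun (r : ℕ) (c μ : Fin r → ℕ) (h1 : 1 ≤ r) (h2 : ∀ j, 1 ≤ c j ∧ 1 ≤ μ j) (h3 : ∑ j, μ j * c j ≤ k) =>
    hC p (by omega) φ (fun l => res π (aA (⇑ω) A' ζ l)) (fun l => res π (aB (⇑ω) B' ζ l)) hds hαβ Φ hΦ r c μ h1 h2 h3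
      (fun l => u (Fin.castAdd (w + s) l)) Z (fun i => res π ((ω i : 𝓞 K) : K)) hv _ act θ τ hTc hacti hθa hθ0 hτ0
  have hmain := WG_union (p := p) (C := C) (Q := p ^ Fintype.card (IxM ι M ν d × Fin e)) (RDG k W V R A' B' E' b ν d E (⇑ω) ζ p π u z)
    (fun v : (r : Fin (k + 1)) × ((Fin (r : ℕ) → Fin (k + 1)) × (Fin (r : ℕ) → Fin (k + 1))) =>
      {a : IxM ι M ν d × Fin e → ZMod p | (1 ≤ (v.1 : ℕ) ∧ (∀ j, 1 ≤ (v.2.1 j : ℕ) ∧ 1 ≤ (v.2.2 j : ℕ)) ∧ ∑ j, (v.2.2 j : ℕ) * (v.2.1 j : ℕ) ≤ k) ∧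
        ∃ (x0 : {f : {i // i ∈ W} ⊕ {j // j ∈ V} → (ZMod p)ˣ // ∃ l : Fin (h + g) ⊕ Unit → (ZMod p)ˣ, f = VU.ch cV l})
          (x : Fin (v.1 : ℕ) → Xp p n M (fun l => res π (aA (⇑ω) A' ζ l)) (fun l => res π (aB (⇑ω) B' ζ l))),
          Pat Φ (fun j => (v.2.1 j : ℕ)) (fun j => (v.2.2 j : ℕ)) (fun l => u (Fin.castAdd (w + s) l)) Z x ∧
      Function.Injective (fun i : (j : Fin (v.1 : ℕ)) × Fin (v.2.1 j : ℕ) => (stp Φ)^[(i.2 : ℕ)] (x i.1)) ∧
      (∀ i ∉ W, ∀ j, sM E' (fun x => em p (φ (b x))) (x j).1 (fun l => opP ((x j).2.1 (Fin.castAdd g l)))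
        (x j).2.2 i = 0) ∧
      (∀ i ∈ W, ∏ j, (∏ i' ∈ range (v.2.1 j : ℕ), sM E' (fun x => em p (φ (b x))) (x j).1
        (fun l => opP ((x j).2.1 (Fin.castAdd g l))) (x j).2.2 i ^ p ^ i') ^ (v.2.2 j : ℕ) = em p (θ x0 i)) ∧
      (∀ j ∉ V, j ∉ R → ∀ i, sM E (fun x => em p (∑ i, a (x, i) * res π ((ω i : 𝓞 K) : K))) (x i).1
        (fun l => opP ((x i).2.1 l)) (x i).2.2 j = 0) ∧
      ∀ j ∈ V, ∏ i, (∏ i' ∈ range (v.2.1 i : ℕ), sM E (fun x => em p (∑ i, a (x, i) * res π ((ω i : 𝓞 K) : K))) (x i).1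
        (fun l => opP ((x i).2.1 l)) (x i).2.2 j ^ p ^ i') ^ (v.2.2 i : ℕ) = em p (τ x0 j)}) ?_ ?_
  · have h5 : Fintype.card ((r : Fin (k + 1)) × ((Fin (r : ℕ) → Fin (k + 1)) × (Fin (r : ℕ) → Fin (k + 1)))) * C * 2 ≤ p := by omega
    have h6 : Nat.card (RDG k W V R A' B' E' b ν d E (⇑ω) ζ p π u z) * 2 ≤ p ^ Fintype.card (IxM ι M ν d × Fin e) := by
      refine Nat.le_of_mul_le_mul_right ?_ hp0
      calc Nat.card (RDG k W V R A' B' E' b ν d E (⇑ω) ζ p π u z) * 2 * p = Nat.card (RDG k W V R A' B' E' b ν d E (⇑ω) ζ p π u z) * p * 2 := by ring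
        _ ≤ Fintype.card ((r : Fin (k + 1)) × ((Fin (r : ℕ) → Fin (k + 1)) × (Fin (r : ℕ) → Fin (k + 1)))) * C *
            p ^ Fintype.card (IxM ι M ν d × Fin e) * 2 := Nat.mul_le_mul_right _ hmain
        _ = Fintype.card ((r : Fin (k + 1)) × ((Fin (r : ℕ) → Fin (k + 1)) × (Fin (r : ℕ) → Fin (k + 1)))) * C * 2 *
            p ^ Fintype.card (IxM ι M ν d × Fin e) := by ring
        _ ≤ p * p ^ Fintype.card (IxM ι M ν d × Fin e) := Nat.mul_le_mul_right _ h5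
        _ = _ := by ring
    have h7 : ((Nat.card (RDG k W V R A' B' E' b ν d E (⇑ω) ζ p π u z) : ℕ) : ℝ) * 2 ≤ (p : ℝ) ^ Fintype.card (IxM ι M ν d × Fin e) := by
      exact_mod_cast h6
    linarith
  · intro a ha
    obtain ⟨_, _, c0, t0, hc0, ht0, hT⟩ := ha
    obtain ⟨r, c, μ, hr, hcμ, hdeg, x, hPat, hinj, hQ, hQW, hW', hVV⟩ := WG_tup W V R Φ hΦ (fun l => u (Fin.castAdd (w + s) l)) z Z
      hZ' _ (fun t P y i => sM_fr E' (fun x => res π ((b x : 𝓞 K) : K)) t (fun l => P (Fin.castAdd g l)) y i) _ _ _ _ hT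
    have hc : ∀ j, c j ≤ k := by
      intro j
      refine le_trans ?_ ((Finset.single_le_sum (f := fun j => μ j * c j) (fun _ _ => Nat.zero_le _) (Finset.mem_univ j)).trans hdeg)
      exact Nat.le_mul_of_pos_left _ (hcμ j).2
    have hμ : ∀ j, μ j ≤ k := by
      intro j
      refine le_trans ?_ ((Finset.single_le_sum (f := fun j => μ j * c j) (fun _ _ => Nat.zero_le _) (Finset.mem_univ j)).trans hdeg)
      exact Nat.le_mul_of_pos_right _ (hcμ j).1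
    have hrk : r ≤ k := by
      refine le_trans ?_ hdeg
      calc r = ∑ _j : Fin r, 1 := by rw [Finset.sum_const, Finset.card_univ, Fintype.card_fin, smul_eq_mul, mul_one]
        _ ≤ ∑ j, μ j * c j := Finset.sum_le_sum fun j _ => Nat.mul_pos (hcμ j).2 (hcμ j).1
    refine ⟨⟨⟨r, Nat.lt_succ_of_le hrk⟩, (fun j => ⟨c j, Nat.lt_succ_of_le (hc j)⟩, fun j => ⟨μ j, Nat.lt_succ_of_le (hμ j)⟩)⟩,
      ⟨hr, hcμ, hdeg⟩, ⟨VU.ch cV (Sum.elim (fun i => Units.mk0 (t0 i) (ht0 i)) (fun _ => Units.mk0 c0 hc0)), _, rfl⟩,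
      x, hPat, hinj, ?_, ?_, hW', ?_⟩
    · intro i hi j
      have h8 := hQ i hi j
      simp only [hφ]
      exact h8
    · intro i hi
      simp only [hφ]
      refine (hQW i hi).trans ?_
      rw [hθ _ i hi]
      congr 1
      have h9 := WG_ch t0 ht0 c0 hc0 (Fin.append (d' i) (0 : Fin g → ℕ)) (δ i)
      have h10 : (((VU.ch cV (Sum.elim (fun i => Units.mk0 (t0 i) (ht0 i)) (fun _ => Units.mk0 c0 hc0)) (Sum.inl ⟨i, hi⟩) :
          (ZMod p)ˣ)) : ZMod p) = (∏ l, t0 l ^ (Fin.append (d' i) (0 : Fin g → ℕ)) l) * c0 ^ δ i := by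
        rw [← h9]
        unfold VU.ch
        rw [hcl]
      rw [h10, Fin.prod_univ_add]
      simp only [Fin.append_left, Fin.append_right, Pi.zero_apply, pow_zero, Finset.prod_const_one, mul_one]
      ring
    · intro j hj
      refine (hVV j hj).trans ?_
      rw [hτ _ j hj]
      congr 1
      have h9 := WG_ch t0 ht0 c0 hc0 (d j) (ν j)
      have h10 : (((VU.ch cV (Sum.elim (fun i => Units.mk0 (t0 i) (ht0 i)) (fun _ => Units.mk0 c0 hc0)) (Sum.inr ⟨j, hj⟩) :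
          (ZMod p)ˣ)) : ZMod p) = (∏ i, t0 i ^ d j i) * c0 ^ ν j := by
        rw [← h9]
        unfold VU.ch
        rw [hcr]
      rw [h10]
      ring
  · intro v
    by_cases hw : 1 ≤ (v.1 : ℕ) ∧ (∀ j, 1 ≤ (v.2.1 j : ℕ) ∧ 1 ≤ (v.2.2 j : ℕ)) ∧ ∑ j, (v.2.2 j : ℕ) * (v.2.1 j : ℕ) ≤ k
    · refine le_trans (Nat.mul_le_mul_right _ ?_) (hpat (v.1 : ℕ) (fun j => (v.2.1 j : ℕ)) (fun j => (v.2.2 j : ℕ)) hw.1 hw.2.1 hw.2.2)
      refine Nat.card_le_card_of_injective (fun a => ⟨a.1, a.2.2⟩) ?_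
      intro a a' haa
      have h9 := congrArg Subtype.val haa
      exact Subtype.ext h9
    · refine le_trans (le_of_eq ?_) (Nat.zero_le _)
      rw [mul_eq_zero]
      left
      rw [Nat.card_eq_zero]
      left
      exact ⟨fun a => hw a.2.1⟩

end DP
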