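import Pool.Agent.Lib.MP_17a322_ntDP.JM
import Pool.Agent.Lib.MP_17a322_ntDP.KB
import Pool.Agent.Lib.MP_17a322_ntDP.KC
import Pool.Agent.Lib.MP_17a322_ntDP.KD
import Pool.Agent.Lib.MP_17a322_ntDP.KE
import Pool.Agent.Lib.MP_17a322_ntDP.WG

/-!
# LEAF KF: the density of the local condition, boundary case, pairs with fixed components

PROOF.  As `dens_B` (file ID.lean, proved; helper18) and `dens_W` (file WG.lean, proved; helper72).  `q = h + g`; `cV`, the type `Y` of the families (`Y = {f : {i // i ∈ W} ⊕ {j // j ∈ V} → (ZMod p)ˣ // ∃ l, f = VU.ch cV l}`), `act`, `θ`, `τ` and `ρ` as in `dens_W`: `Fintype.card Y ≤ p ^ ρ`.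
CONSTANTS: `C1, p1` from `st_cntW K A' B' E' b hF k g W hW` (KB), `C2, p2` from `fn_nrm k` (HB), `C = C1 + C2`; `L, κ` from `DW.sys_main k s C hk1` (JM), `N0 = max (L * k) k`, `κ0 = κ / 2`; these do not depend on `ν, d, E, V, R`.  (`Rich N0 (E j) → Rich k' (E j)` for `k' ≤ N0`.)  `s1 = s - (R \ V).card`, `e0 : Fin s1 → Fin s` injective with range the complement of `R \ V` (`Finset.orderEmbOfFin` or `equivFin`), `V1 = {j1 | e0 j1 ∈ V}`, `V1.card = V.card` (`V` is in the range).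
THE SYSTEM `S : DW.Sys p X Ω A s1`: `X = Xp p n M α β`, `Ω = IxM ι M ν d × Fin e → ZMod p`, `A = (Fin n → Additive (Om p)ˣ) × ((l : Fin q) → Pt ..)`, `f = stp Φ`, `G = Gw W E' b φ α β`, `χ` as in `dens_B`, `ev a j1 = evX E v a (e0 j1)`, `V = V1`, `Θ T` = the finset of the families `fun j1 => if e0 j1 ∈ V then em p (τ y (e0 j1)) else 0`, for the `y : Y` with `∀ i ∈ W, ∏ x ∈ T, fx E' b φ i x = em p (θ y i)`.
`Ok k (L * k) D1 D2 ρ C C'` with `D1 = n + q + W.card`, `D2 = n + q + r0 + W.card`: `eq`: `st_eqF` (KC).  `cls`: `τ y j ≠ 0`.  `nrm`: `fn_nrm`.  `tkf`: the set of the `T` with `Tk k z T` is finite: e.g. the points of `T` have coordinates with `x ^ p ^ k! = x` (finitely many points); or: `T ↦ (T, y)` is in one of the finsets of `st_cntW` for the families `Y = Unit`-like systems: if `∏ x ∈ T, fx i x ≠ 0` for all `i ∈ W` use `st_cntW` with `Y = Fin w → (ZMod p)ˣ` , `act a y i = a ^ δ i * y i`,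 `val y = y`; to avoid the sets `T` for which some product is `0` put the condition `∀ i ∈ W, fx E' b φ i x ≠ 0` into the property `G` of the system (good points with non-zero values; a `T` with `Θ T` not empty has only such points), so `G x = Gw .. x ∧ ∀ i ∈ W, fx .. i x ≠ 0`.
`cnt`: for `U` stable, `T ∈ 𝒯` with `(T \ U).card = m`, `U0 = T ∩ U`, `N = T \ U` (stable: `DW.sys_stb` in JD.lean needs `Ok`; its proof uses only the injectivity of `f`: copy), `(Θ T).card ≤ #{y | ∀ i ∈ W, ∏ x ∈ T, fx i x = em p (θ y i)}`, and `∏ x ∈ T = (∏ x ∈ U0) * ∏ x ∈ N`; `∏ x ∈ U0, fx i x = em p (c i)`, `c i ≠ 0` (`U0` is stable, the product is fixed by `x ↦ x ^ p`).  For each of the `2 ^ U.card` subsets `U0` of `U` `st_cntW` with `val y i = θ y i / c i` and the products and sums divided by those over `U0` gives the finset `F_(U0)`; the pairs `(y, T)` inject into the union of the `F_(U0)`: `(∑ T, (Θ T).card) * p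 ^ (D1 + m) ≤ 2 ^ U.card * C1 * card Y * p ^ (m * D2)`.
`sml`: `C' = 1` if `V.card + (R \ V).card < s`: `(Θ T).card ≤ (p - 1) ^ V.card ≤ p ^ V.card`, and `V.card + 1 + k * V.card ≤ s1 * k + V.card` as `V.card + 1 ≤ s1`, `1 ≤ k`; otherwise `j ∈ V`, `N` are given and `s1 ≥ V.card`: `C' = N` by `few_fam` (KE) with `c = cV`, `j0 = j`, `θ0` = the values divided by `u`: `(Θ T).card * p ≤ N * p ^ V.card`, times `p ^ (k * V.card)`.  (`clD W (V.erase j) ..` is contained in the set of the `cV i` with `i ≠ inr j`: `Submodule.span_mono`.)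
`hE`, `hD` of `sys_main`: `k * (D2 + V.card) + ρ = D1 + V.card + k * (s1 + 1)` and `s1 + 2 ≤ D2 + V.card` from `hk`, `hdim` with `s = s1 + (R \ V).card`.
THE COVERING: as in `dens_B`, with the families as in `dens_W`: for `m = k` and `x` injective `T = univ.image x` satisfies `Tk` and `Ev` (with the family `y = ch cV (Sum.elim t c0)`: in `Θ T`); otherwise a pattern with `∑ c j ≤ k - 1`, `pat_cntX` (KD) with `k1 = k - 1`.
-/

set_option autoImplicit false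

namespace DP

open Finset NumberField LVH VK VU FB

/-- all the values are different if the cycles are long -/
private theorem KF_inj {α : Type} (f : α → α) {m : ℕ} (x : Fin m → α) (τ : Equiv.Perm (Fin m))
    (hx : ∀ i, x (τ i) = f (x i)) {r : ℕ} (y : Fin r → α) (c : Fin r → ℕ) (hy : ∀ j, ∃ i, y j = x i)
    (hinj : Function.Injective (fun i : (j : Fin r) × Fin (c j) => f^[(i.2 : ℕ)] (y i.1))) (hc : m ≤ ∑ j, c j) :
    Function.Injective x := by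
  classical
  have hit : ∀ (k : ℕ) (i : Fin m), ∃ i', f^[k] (x i) = x i' := by
    intro k
    induction k with
    | zero => exact fun i => ⟨i, rfl⟩
    | succ k ih =>
      intro i
      obtain ⟨i', hi'⟩ := ih i
      exact ⟨τ i', by rw [Function.iterate_succ_apply', hi', hx]⟩
  have h1 : (Finset.univ.image fun i : (j : Fin r) × Fin (c j) => f^[(i.2 : ℕ)] (y i.1)) ⊆ Finset.univ.image x := by
    intro z hz
    obtain ⟨i, _, hi⟩ := Finset.mem_image.1 hz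
    obtain ⟨i0, hi0⟩ := hy i.1
    obtain ⟨i1, hi1⟩ := hit (i.2 : ℕ) i0
    refine Finset.mem_image.2 ⟨i1, Finset.mem_univ _, ?_⟩
    rw [← hi1, ← hi0]
    exact hi
  have h2 := Finset.card_le_card h1
  rw [Finset.card_image_of_injective _ hinj, Finset.card_univ, Fintype.card_sigma] at h2
  simp only [Fintype.card_fin] at h2
  have h3 : (Finset.univ.image x).card = (Finset.univ : Finset (Fin m)).card := by
    refine le_antisymm Finset.card_image_le ?_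
    rw [Finset.card_univ, Fintype.card_fin]
    exact hc.trans h2
  have h4 := Finset.card_image_iff.1 h3
  rwa [Finset.coe_univ, Set.injOn_univ] at h4

/-- the union of two sets -/
private theorem KF_un {A : Type} [Finite A] (S S1 S2 : Set A) (h : ∀ a ∈ S, a ∈ S1 ∨ a ∈ S2) :
    Nat.card S ≤ Nat.card S1 + Nat.card S2 := by
  rw [Nat.card_coe_set_eq, Nat.card_coe_set_eq, Nat.card_coe_set_eq]
  exact (Set.ncard_le_ncard (fun a ha => h a ha) (Set.toFinite _)).trans (Set.ncard_union_le _ _)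

private theorem KF_rich {n k k' : ℕ} {ι : Type} {E : ι → Fin n → ℤ} (hk : k' ≤ k) (h : Rich k E) : Rich k' E := by
  obtain ⟨a0, ha⟩ := h
  refine ⟨a0, fun a => ?_⟩
  obtain ⟨i, hi⟩ := ha fun l => Fin.castLE hk (a l)
  exact ⟨i, by rw [hi]; rfl⟩

open Classical in
/-- the map to the group -/
private noncomputable def KF_chi {p : ℕ} [Fact p.Prime] {n M q : ℕ} {α β : Fin q → ZMod p} (x : Xp p n M α β) :
    (Fin n → Additive (Om p)ˣ) × ((l : Fin q) → Pt (em p (α l)) (em p (β l))) :=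
  (fun l => if h : x.1 l ≠ 0 then Additive.ofMul (Units.mk0 (x.1 l) h) else 0, x.2.1)

open Classical in
private theorem KF_chi1 {p : ℕ} [Fact p.Prime] {n M q : ℕ} {α β : Fin q → ZMod p} (x : Xp p n M α β) (l : Fin n)
    (h : x.1 l ≠ 0) : ((Additive.toMul ((KF_chi x).1 l) : (Om p)ˣ) : Om p) = x.1 l := by
  unfold KF_chi
  dsimp only
  rw [dif_pos h]
  rfl

open Classical in
private theorem KF_sum1 {p : ℕ} [Fact p.Prime] {n M q : ℕ} {α β : Fin q → ZMod p} (N : Finset (Xp p n M α β)) (l : Fin n)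
    (h : ∀ x ∈ N, x.1 l ≠ 0) : ((Additive.toMul ((∑ x ∈ N, KF_chi x).1 l) : (Om p)ˣ) : Om p) = ∏ x ∈ N, x.1 l := by
  rw [Prod.fst_sum, Finset.sum_apply, toMul_sum, Units.coe_prod]
  exact Finset.prod_congr rfl fun x hx => KF_chi1 x l (h x hx)

open Classical in
private theorem KF_sum2 {p : ℕ} [Fact p.Prime] {n M q : ℕ} {α β : Fin q → ZMod p} (N : Finset (Xp p n M α β)) (l : Fin q) :
    (∑ x ∈ N, KF_chi x).2 l = ∑ x ∈ N, x.2.1 l := by
  rw [Prod.snd_sum, Finset.sum_apply]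
  rfl

open Classical in
/-- the values of a function at the conjugates of a point -/
private theorem KF_it {p : ℕ} [Fact p.Prime] {n M q : ℕ} {α β : Fin q → ZMod p}
    {Φ : (l : Fin q) → Pt (em p (α l)) (em p (β l)) →+ Pt (em p (α l)) (em p (β l))} (hΦ : IsFr p Φ)
    (D : (Fin n → Om p) → (Fin q → Option (Om p × Om p)) → (Fin (M + 1) → Om p) → Om p)
    (hD : ∀ t P y, D (fun l => t l ^ p) (fun l => frO p (P l)) (fun l => y l ^ p) = D t P y ^ p)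
    (x : Xp p n M α β) (i : ℕ) :
    D ((stp Φ)^[i] x).1 (fun l => opP (((stp Φ)^[i] x).2.1 l)) ((stp Φ)^[i] x).2.2 =
      D x.1 (fun l => opP (x.2.1 l)) x.2.2 ^ p ^ i := by
  induction i with
  | zero =>
    rw [pow_zero, pow_one]
    rfl
  | succ i ih =>
    rw [Function.iterate_succ_apply', pow_succ, pow_mul, ← ih]
    obtain ⟨w, hw⟩ : ∃ w, w = (stp Φ)^[i] x := ⟨_, rfl⟩
    rw [← hw]
    have h1 : (fun l => opP ((stp Φ w).2.1 l)) = fun l => frO p (opP (w.2.1 l)) := funext fun l => hΦ l (w.2.1 l)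
    rw [h1]
    exact hD w.1 (fun l => opP (w.2.1 l)) w.2.2

open Classical in
/-- Frobenius on the points of the curves -/
private theorem KF_fr (p : ℕ) [Fact p.Prime] {q : ℕ} (α β : Fin q → ZMod p) :
    ∃ Φ : (l : Fin q) → Pt (em p (α l)) (em p (β l)) →+ Pt (em p (α l)) (em p (β l)), IsFr p Φ := by
  have : CharP (Om p) p := charP_of_injective_algebraMap (algebraMap (ZMod p) (Om p)).injective p
  have : ExpChar (Om p) p := ExpChar.prime Fact.out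
  have h1 : ∀ a : ZMod p, frobenius (Om p) p (em p a) = em p a := by
    intro a
    rw [frobenius_def, ← map_pow, ZMod.pow_card]
  have h2 : ∀ l : Fin q, ∃ φ : Pt (em p (α l)) (em p (β l)) →+ Pt (em p (α l)) (em p (β l)),
      ∀ P, opP (φ P) = frO p (opP P) := by
    intro l
    obtain ⟨φ, -, hφ⟩ := ex_map (frobenius (Om p) p) (h1 (α l)) (h1 (β l))
    refine ⟨φ, fun P => ?_⟩
    rw [hφ P]
    rcases opP P with _ | z
    · rfl
    · rfl
  choose Φ hΦ using h2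
  exact ⟨Φ, hΦ⟩

/-- the union over the patterns -/
private theorem KF_union {A Λ : Type} [Fintype A] [Fintype Λ] {p C Q : ℕ} (S : Set A) (V : Λ → Set A) (h : ∀ a ∈ S, ∃ w, a ∈ V w)
    (hV : ∀ w, Nat.card (V w) * p ≤ C * Q) : Nat.card S * p ≤ Fintype.card Λ * C * Q := by
  classical
  have h1 : Nat.card S = (Finset.univ.filter fun a => a ∈ S).card := by
    rw [Nat.card_eq_fintype_card, ← Fintype.card_subtype]
  have h2 : ∀ w, Nat.card (V w) = (Finset.univ.filter fun a => a ∈ V w).card := by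
    intro w
    rw [Nat.card_eq_fintype_card, ← Fintype.card_subtype]
  have h3 : (Finset.univ.filter fun a => a ∈ S) ⊆ (Finset.univ : Finset Λ).biUnion fun w => Finset.univ.filter fun a => a ∈ V w := by
    intro a ha
    obtain ⟨w, hw⟩ := h a (Finset.mem_filter.1 ha).2
    exact Finset.mem_biUnion.2 ⟨w, Finset.mem_univ _, Finset.mem_filter.2 ⟨Finset.mem_univ _, hw⟩⟩
  rw [h1]
  refine (Nat.mul_le_mul_right p ((Finset.card_le_card h3).trans Finset.card_biUnion_le)).trans ?_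
  rw [Finset.sum_mul]
  have h4 : ∀ w ∈ (Finset.univ : Finset Λ), (Finset.univ.filter fun a => a ∈ V w).card * p ≤ C * Q := by
    intro w _
    rw [← h2]
    exact hV w
  refine (Finset.sum_le_card_nsmul _ _ _ h4).trans ?_
  rw [Finset.card_univ, smul_eq_mul, mul_assoc]

/-- the value of the character `cl d ν` -/
private theorem KF_cl {G : Type} [CommGroup G] {q : ℕ} (l : Fin q → G) (a : G) (d : Fin q → ℕ) (ν : ℕ) :
    (∏ m, (Sum.elim l (fun _ => a) m) ^ VU.cl d ν m) = (∏ i, l i ^ d i) * a ^ ν := by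
  rw [Fintype.prod_sum_type]
  simp only [Sum.elim_inl, Sum.elim_inr, Finset.univ_unique, Finset.prod_singleton, VU.cl, zpow_natCast]

/-- the same for non-zero elements -/
private theorem KF_ch {p q : ℕ} [Fact p.Prime] (l : Fin q → ZMod p) (hl : ∀ i, l i ≠ 0) (a : ZMod p) (ha : a ≠ 0)
    (d : Fin q → ℕ) (ν : ℕ) :
    ((∏ m, (Sum.elim (fun i => Units.mk0 (l i) (hl i)) (fun _ => Units.mk0 a ha) m : (ZMod p)ˣ) ^ VU.cl d ν m :
      (ZMod p)ˣ) : ZMod p) = (∏ i, l i ^ d i) * a ^ ν := by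
  rw [KF_cl, Units.val_mul, Units.coe_prod, Units.val_pow_eq_pow_val]
  rfl

private theorem KF_mul {G μ I : Type} [CommGroup G] [Fintype μ] (c : I → μ → ℤ) (l l' : μ → G) :
    VU.ch c (l * l') = VU.ch c l * VU.ch c l' := by
  funext i
  simp only [VU.ch, Pi.mul_apply, mul_zpow, Finset.prod_mul_distrib]

private theorem KF_prod {X G : Type} [CommMonoid G] (f : X → X) (hf : Function.Injective f) (N : Finset X)
    (hN : ∀ x ∈ N, f x ∈ N) (F : X → G) : ∏ x ∈ N, F (f x) = ∏ x ∈ N, F x := by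
  classical
  have h3 : N.image f = N := by
    refine eq_of_subset_of_card_le (fun x hx => ?_) ?_
    · obtain ⟨x', hx', rfl⟩ := mem_image.1 hx
      exact hN x' hx'
    · rw [card_image_of_injective _ hf]
  calc ∏ x ∈ N, F (f x) = ∏ x ∈ N.image f, F x := (prod_image fun _ _ _ _ h => hf h).symm
    _ = ∏ x ∈ N, F x := by rw [h3]

/-- a fixed point of Frobenius is in the prime field -/
private theorem KF_fix {p : ℕ} [Fact p.Prime] {x : Om p} (h : x ^ p = x) : ∃ x0 : ZMod p, em p x0 = x := by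
  have h1 : x ∈ (⊥ : Subfield (Om p)) := (Subfield.mem_bot_iff_pow_eq_self (Om p) p).2 h
  obtain ⟨n, hn⟩ := (mem_bot_iff_intCast p (Om p)).1 h1
  refine ⟨(n : ZMod p), ?_⟩
  rw [map_intCast]
  exact hn

open Classical in
/-- a tuple of points is a family of `k` different points or has a pattern with less than `k` different points -/
private theorem KF_tup {p : ℕ} [Fact p.Prime] {n q M k w s : ℕ} {ι : Type} [Fintype ι] {ν : Fin s → ℕ}
    {d : Fin s → Fin q → ℕ} (W : Finset (Fin w)) (V R : Finset (Fin s)) {α β : Fin q → ZMod p}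
    (Φ : (l : Fin q) → Pt (em p (α l)) (em p (β l)) →+ Pt (em p (α l)) (em p (β l))) (hΦ : IsFr p Φ)
    (u : Fin n → ZMod p) (z : Fin q → Option (ZMod p × ZMod p)) (Z : (l : Fin q) → Pt (em p (α l)) (em p (β l)))
    (hZ : ∀ l, opP (Z l) = mpO (em p) (z l))
    (D : (Fin n → Om p) → (Fin q → Option (Om p × Om p)) → (Fin (M + 1) → Om p) → Fin w → Om p)
    (hD : ∀ t P y i, D (fun l => t l ^ p) (fun l => frO p (P l)) (fun l => y l ^ p) i = D t P y i ^ p)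
    (ϑ : Fin w → ZMod p)
    (E : Fin s → ι → Fin n → ℤ) (a : IxM ι M ν d → ZMod p) (θ : Fin s → ZMod p)
    (h : TupG p k W V R α β u z D ϑ E a θ) :
    (∃ x : Fin k → Xp p n M α β, Function.Injective x ∧ (∃ τ : Equiv.Perm (Fin k), ∀ i, x (τ i) = stp Φ (x i)) ∧
      (∀ i l, (x i).1 l ≠ 0) ∧ (∀ i, Nrm (x i).2.2) ∧ (∀ l, ∏ i, (x i).1 l = em p (u l)) ∧
      (∀ l, ∑ i, (x i).2.1 l = Z l) ∧
      (∀ j ∉ W, ∀ i, D (x i).1 (fun l => opP ((x i).2.1 l)) (x i).2.2 j = 0) ∧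
      (∀ j ∈ W, ∏ i, D (x i).1 (fun l => opP ((x i).2.1 l)) (x i).2.2 j = em p (ϑ j)) ∧
      (∀ j ∉ V, j ∉ R → ∀ i, sM E (fun x => em p (a x)) (x i).1 (fun l => opP ((x i).2.1 l)) (x i).2.2 j = 0) ∧
      ∀ j ∈ V, ∏ i, sM E (fun x => em p (a x)) (x i).1 (fun l => opP ((x i).2.1 l)) (x i).2.2 j = em p (θ j)) ∨
    ∃ (r : ℕ) (c μ : Fin r → ℕ), 1 ≤ r ∧ (∀ j, 1 ≤ c j ∧ 1 ≤ μ j) ∧ ∑ j, μ j * c j ≤ k ∧ ∑ j, c j < k ∧
      ∃ x : Fin r → Xp p n M α β, Pat Φ c μ u Z x ∧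
        Function.Injective (fun i : (j : Fin r) × Fin (c j) => (stp Φ)^[(i.2 : ℕ)] (x i.1)) ∧
        (∀ i ∉ W, ∀ j, D (x j).1 (fun l => opP ((x j).2.1 l)) (x j).2.2 i = 0) ∧
        (∀ i ∈ W, ∏ j, (∏ i' ∈ range (c j), D (x j).1 (fun l => opP ((x j).2.1 l)) (x j).2.2 i ^ p ^ i') ^ μ j =
          em p (ϑ i)) ∧
        (∀ j ∉ V, j ∉ R → ∀ i, sM E (fun x => em p (a x)) (x i).1 (fun l => opP ((x i).2.1 l)) (x i).2.2 j = 0) ∧
        ∀ j ∈ V, ∏ i, (∏ i' ∈ range (c i), sM E (fun x => em p (a x)) (x i).1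
          (fun l => opP ((x i).2.1 l)) (x i).2.2 j ^ p ^ i') ^ μ i = em p (θ j) := by
  obtain ⟨m, τ, t, P, y, hm, hmk, ht, hP, hy, hprod, hsum, hQ, hT, hW, hV⟩ := h
  obtain ⟨x, hxd⟩ : ∃ x : Fin m → Xp p n M α β, ∀ i, x i = (t i, P i, y i) := ⟨fun i => (t i, P i, y i), fun i => rfl⟩
  have hx : ∀ i, x (τ i) = stp Φ (x i) := by
    intro i
    rw [hxd, hxd]
    unfold stp
    refine Prod.ext ?_ (Prod.ext ?_ ?_)
    · funext l
      exact (ht i l).2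
    · funext l
      refine opP_inj ?_
      exact (hP i l).trans (hΦ l (P i l)).symm
    · funext l
      exact (hy i).2 l
  by_cases hcase : m = k ∧ Function.Injective x
  · left
    obtain ⟨hmk', hxi⟩ := hcase
    subst hmk'
    refine ⟨x, hxi, ⟨τ, hx⟩, ?_, ?_, ?_, ?_, ?_, ?_, ?_, ?_⟩
    · intro i l
      rw [hxd]
      exact (ht i l).1
    · intro i
      rw [hxd]
      exact (hy i).1
    · intro l
      rw [← hprod l]
      exact Finset.prod_congr rfl fun i _ => by rw [hxd]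
    · intro l
      refine opP_inj ?_
      rw [hZ l, ← hsum l]
      congr 1
      exact Finset.sum_congr rfl fun i _ => by rw [hxd]
    · intro j hj i
      rw [hxd]
      exact hQ j hj i
    · intro j hj
      rw [← hT j hj]
      exact Finset.prod_congr rfl fun i _ => by rw [hxd]
    · intro j hj hj' i
      rw [hxd]
      exact hW j hj hj' i
    · intro j hj
      rw [← hV j hj]
      exact Finset.prod_congr rfl fun i _ => by rw [hxd]
  right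
  obtain ⟨r, v, c, μ, hr, hprop, hinj, hsums⟩ := cyc (stp Φ) (stp_inj hΦ) hm x τ hx
  have hfix : ∀ j, (fun l => (v j).1 l ^ p ^ c j, fun l => (⇑(Φ l))^[c j] ((v j).2.1 l), fun l => (v j).2.2 l ^ p ^ c j) = v j := by
    intro j
    have h1 := (hprop j).2.2.1
    rw [stp_it] at h1
    exact h1
  have hdeg0 : m = ∑ j, μ j * c j := by
    have h1 := hsums ℕ (fun _ => 1)
    simp only [Finset.sum_const, Finset.card_univ, Fintype.card_fin, Finset.card_range, smul_eq_mul, mul_one] at h1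
    exact h1
  have hdeg : ∑ j, μ j * c j ≤ k := by
    rw [← hdeg0]
    exact hmk
  have hlt : ∑ j, c j < k := by
    by_contra hge
    rw [not_lt] at hge
    have h2 : ∑ j, c j ≤ ∑ j, μ j * c j := Finset.sum_le_sum fun j _ => Nat.le_mul_of_pos_left _ (hprop j).2.1
    exact hcase ⟨by omega, KF_inj (stp Φ) x τ hx v c (fun j => (hprop j).2.2.2) hinj (by omega)⟩
  -- the product of the values of a function
  have hval : ∀ (F : (Fin n → Om p) → (Fin q → Option (Om p × Om p)) → (Fin (M + 1) → Om p) → Om p),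
      (∀ t P y, F (fun l => t l ^ p) (fun l => frO p (P l)) (fun l => y l ^ p) = F t P y ^ p) →
      ∏ i, F (t i) (fun l => opP (P i l)) (y i) =
        ∏ i, (∏ i' ∈ range (c i), F (v i).1 (fun l => opP ((v i).2.1 l)) (v i).2.2 ^ p ^ i') ^ μ i := by
    intro F hF
    have h1 := hsums (Additive (Om p)) (fun b => Additive.ofMul (F b.1 (fun l => opP (b.2.1 l)) b.2.2))
    have h2 := congrArg Additive.toMul h1
    rw [toMul_sum, toMul_sum] at h2
    simp only [toMul_nsmul, toMul_sum, toMul_ofMul] at h2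
    have h3 : ∏ i, F (t i) (fun l => opP (P i l)) (y i) =
        ∏ i, F (x i).1 (fun l => opP ((x i).2.1 l)) (x i).2.2 :=
      Finset.prod_congr rfl fun i _ => by rw [hxd]
    rw [h3, h2]
    refine Finset.prod_congr rfl fun i _ => ?_
    congr 1
    refine Finset.prod_congr rfl fun i' _ => ?_
    rw [KF_it hΦ F hF]
  refine ⟨r, c, μ, hr, fun j => ⟨(hprop j).1, (hprop j).2.1⟩, hdeg, hlt, v, ⟨?_, ?_, ?_, ?_, ?_⟩, hinj, ?_, ?_, ?_, ?_⟩
  · intro j l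
    obtain ⟨i, hi⟩ := (hprop j).2.2.2
    refine ⟨?_, ?_⟩
    · rw [hi, hxd]
      exact (ht i l).1
    · exact congrFun (congrArg Prod.fst (hfix j)) l
  · intro j l
    exact congrFun (congrArg (fun a => a.2.1) (hfix j)) l
  · intro j
    obtain ⟨i, hi⟩ := (hprop j).2.2.2
    refine ⟨?_, fun l => ?_⟩
    · rw [hi, hxd]
      exact (hy i).1
    · exact congrFun (congrArg (fun a => a.2.2) (hfix j)) l
  · intro l
    have h1 := hsums (Additive (Om p)) (fun a => Additive.ofMul (a.1 l))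
    have h2 := congrArg Additive.toMul h1
    rw [toMul_sum, toMul_sum] at h2
    simp only [toMul_nsmul, toMul_sum, toMul_ofMul] at h2
    rw [← hprod l]
    have h3 : ∏ i, t i l = ∏ i, (x i).1 l := Finset.prod_congr rfl fun i _ => by rw [hxd]
    rw [h3, h2]
    refine Finset.prod_congr rfl fun j _ => ?_
    congr 1
    refine Finset.prod_congr rfl fun i _ => ?_
    rw [stp_it]
  · intro l
    have h1 := hsums (Pt (em p (α l)) (em p (β l))) (fun a => a.2.1 l)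
    refine opP_inj ?_
    rw [hZ l, ← hsum l]
    congr 1
    have h3 : ∑ i, P i l = ∑ i, (x i).2.1 l := Finset.sum_congr rfl fun i _ => by rw [hxd]
    rw [h3, h1]
    refine Finset.sum_congr rfl fun j _ => ?_
    congr 1
    refine Finset.sum_congr rfl fun i _ => ?_
    rw [stp_it]
  · intro i hi j
    obtain ⟨i', hi'⟩ := (hprop j).2.2.2
    rw [hi', hxd]
    exact hQ i hi i'
  · intro i hi
    rw [← hT i hi]
    exact (hval (fun t P y => D t P y i) (fun t P y => hD t P y i)).symm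
  · intro j hj hj' i
    obtain ⟨i', hi'⟩ := (hprop i).2.2.2
    rw [hi', hxd]
    exact hW j hj hj' i'
  · intro j hj
    rw [← hV j hj]
    exact (hval (fun t P y => sM E (fun x => em p (a x)) t P y j) (fun t P y => sM_fr E a t P y j)).symm

private theorem KF_stb {X : Type} [DecidableEq X] {f : X → X} (hf : Function.Injective f) {G : X → Prop} {U T : Finset X}
    (hU : Stb f G U) (hT : Stb f G T) : Stb f G (T \ U) := by
  intro x hx
  obtain ⟨hxT, hxU⟩ := Finset.mem_sdiff.1 hx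
  refine ⟨Finset.mem_sdiff.2 ⟨(hT x hxT).1, fun hf' => ?_⟩, (hT x hxT).2⟩
  have hsub : U.image f ⊆ U := by
    intro y hy
    obtain ⟨z, hz, rfl⟩ := Finset.mem_image.1 hy
    exact (hU z hz).1
  have himg : U.image f = U :=
    Finset.eq_of_subset_of_card_le hsub (Finset.card_image_of_injective U hf).ge
  rw [← himg] at hf'
  obtain ⟨y, hy, hyx⟩ := Finset.mem_image.1 hf'
  exact hxU (hf hyx ▸ hy)

open Classical in
/-- the values of the fixed sections at the conjugates -/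
private theorem KF_fx {K : Type} [Field K] [NumberField K] {p : ℕ} [Fact p.Prime] {n h g M w : ℕ} {κ : Type} [Fintype κ]
    {δ : Fin w → ℕ} {d' : Fin w → Fin h → ℕ} (E' : Fin w → κ → Fin n → ℤ) (b : IxM κ M δ d' → 𝓞 K) (φ : 𝓞 K →+* ZMod p)
    {α β : Fin (h + g) → ZMod p}
    {Φ : (l : Fin (h + g)) → Pt (em p (α l)) (em p (β l)) →+ Pt (em p (α l)) (em p (β l))} (hΦ : IsFr p Φ) (i : Fin w)
    (x : Xp p n M α β) : fx E' b φ i (stp Φ x) = fx E' b φ i x ^ p := by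
  have h1 : (fun l => opP ((stp Φ x).2.1 (Fin.castAdd g l))) = fun l => frO p (opP (x.2.1 (Fin.castAdd g l))) :=
    funext fun l => hΦ (Fin.castAdd g l) (x.2.1 (Fin.castAdd g l))
  unfold fx
  rw [h1]
  exact sM_fr E' (fun x => φ (b x)) x.1 (fun l => opP (x.2.1 (Fin.castAdd g l))) x.2.2 i

open Classical in
/-- the products of the values of the fixed sections -/
private theorem KF_val {K : Type} [Field K] [NumberField K] {p : ℕ} [Fact p.Prime] {n h g M w : ℕ} {κ : Type} [Fintype κ]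
    {δ : Fin w → ℕ} {d' : Fin w → Fin h → ℕ} (E' : Fin w → κ → Fin n → ℤ) (b : IxM κ M δ d' → 𝓞 K) (φ : 𝓞 K →+* ZMod p)
    {α β : Fin (h + g) → ZMod p}
    {Φ : (l : Fin (h + g)) → Pt (em p (α l)) (em p (β l)) →+ Pt (em p (α l)) (em p (β l))} (hΦ : IsFr p Φ) (i : Fin w)
    (N : Finset (Xp p n M α β)) (hN : ∀ x ∈ N, stp Φ x ∈ N) : ∃ c : ZMod p, em p c = ∏ x ∈ N, fx E' b φ i x := by
  refine KF_fix ?_
  rw [← Finset.prod_pow]
  refine Eq.trans ?_ (KF_prod (stp Φ) (stp_inj hΦ) N hN fun x => fx E' b φ i x)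
  exact Finset.prod_congr rfl fun x _ => (KF_fx E' b φ hΦ i x).symm

open Classical in
/-- the families of values for a set of points -/
private noncomputable def KF_Th {K : Type} [Field K] [NumberField K] {p : ℕ} [Fact p.Prime] {n h g M w s s1 : ℕ} {κ : Type}
    [Fintype κ] {δ : Fin w → ℕ} {d' : Fin w → Fin h → ℕ} (E' : Fin w → κ → Fin n → ℤ) (b : IxM κ M δ d' → 𝓞 K)
    (φ : 𝓞 K →+* ZMod p) {α β : Fin (h + g) → ZMod p} (W : Finset (Fin w)) (V : Finset (Fin s)) (e0 : Fin s1 → Fin s)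
    {Y : Type} [Fintype Y] (θ : Y → Fin w → ZMod p) (τ : Y → Fin s → ZMod p) (T : Finset (Xp p n M α β)) :
    Finset (Fin s1 → Om p) :=
  (univ.filter (fun y : Y => ∀ i ∈ W, ∏ x ∈ T, fx E' b φ i x = em p (θ y i))).image
    (fun y j => if e0 j ∈ V then em p (τ y (e0 j)) else 0)

open Classical in
/-- the system of the points of a variety -/
private noncomputable def KF_S {K : Type} [Field K] [NumberField K] {p : ℕ} [Fact p.Prime] {n h g M w s s1 e : ℕ}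
    {κ ι : Type} [Fintype κ] [Fintype ι] {δ : Fin w → ℕ} {d' : Fin w → Fin h → ℕ} (E' : Fin w → κ → Fin n → ℤ)
    (b : IxM κ M δ d' → 𝓞 K) (φ : 𝓞 K →+* ZMod p) {α β : Fin (h + g) → ZMod p}
    (Φ : (l : Fin (h + g)) → Pt (em p (α l)) (em p (β l)) →+ Pt (em p (α l)) (em p (β l)))
    (ν : Fin s → ℕ) (d : Fin s → Fin (h + g) → ℕ) (E : Fin s → ι → Fin n → ℤ) (v : Fin e → ZMod p)
    (W : Finset (Fin w)) (V : Finset (Fin s)) (e0 : Fin s1 → Fin s) {Y : Type} [Fintype Y] (θ : Y → Fin w → ZMod p)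
    (τ : Y → Fin s → ZMod p) :
    DW.Sys p (Xp p n M α β) (IxM ι M ν d × Fin e → ZMod p)
      ((Fin n → Additive (Om p)ˣ) × ((l : Fin (h + g)) → Pt (em p (α l)) (em p (β l)))) s1 where
  f := stp Φ
  G := fun x => Gw W E' b φ α β x ∧ ∀ i ∈ W, fx E' b φ i x ≠ 0
  χ := KF_chi
  ev := fun a j x => evX E v a (e0 j) x
  V := univ.filter (fun j => e0 j ∈ V)
  Θ := KF_Th E' b φ W V e0 θ τ

open Classical in
/-- the number of the pairs of a family and a set of points, for one prime -/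
private def KF_Cnt {K : Type} [Field K] [NumberField K] {p : ℕ} [Fact p.Prime] {n h g M w : ℕ} {κ : Type} [Fintype κ]
    {δ : Fin w → ℕ} {d' : Fin w → Fin h → ℕ} (E' : Fin w → κ → Fin n → ℤ) (b : IxM κ M δ d' → 𝓞 K)
    (φ : 𝓞 K →+* ZMod p) {α β : Fin (h + g) → ZMod p}
    (Φ : (l : Fin (h + g)) → Pt (em p (α l)) (em p (β l)) →+ Pt (em p (α l)) (em p (β l))) (W : Finset (Fin w))
    (k r0 C : ℕ) : Prop :=
    ∀ m : ℕ, 1 ≤ m → m ≤ k → ∀ (u : Fin n → Om p) (z : (l : Fin (h + g)) → Pt (em p (α l)) (em p (β l)))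
    (Y : Type) [Fintype Y] (act : (ZMod p)ˣ → Y → Y) (val : Y → Fin w → ZMod p), (∀ a, Function.Injective (act a)) →
    (∀ a x, ∀ i ∈ W, val (act a x) i = (a : ZMod p) ^ δ i * val x i) → (∀ x, ∀ i ∈ W, val x i ≠ 0) →
    ∃ F : Finset (Y × Finset (Xp p n M α β)),
      F.card * p ^ (n + (h + g) + W.card + m) ≤ C * Fintype.card Y * p ^ (m * (n + (h + g) + r0 + W.card)) ∧
      ∀ (y : Y) (N : Finset (Xp p n M α β)), Stb (stp Φ) (Gw W E' b φ α β) N → N.card = m → (∀ l, ∏ x ∈ N, x.1 l = u l) →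
        (∀ l, ∑ x ∈ N, x.2.1 l = z l) → (∀ i ∈ W, ∏ x ∈ N, fx E' b φ i x = em p (val y i)) → (y, N) ∈ F

open Classical in
/-- there are finitely many sets of points -/
private theorem KF_tkf {K : Type} [Field K] [NumberField K] {p : ℕ} [Fact p.Prime] {n h g M w : ℕ} {κ : Type} [Fintype κ]
    {δ : Fin w → ℕ} {d' : Fin w → Fin h → ℕ} (E' : Fin w → κ → Fin n → ℤ) (b : IxM κ M δ d' → 𝓞 K)
    (φ : 𝓞 K →+* ZMod p) {α β : Fin (h + g) → ZMod p}
    {Φ : (l : Fin (h + g)) → Pt (em p (α l)) (em p (β l)) →+ Pt (em p (α l)) (em p (β l))} (hΦ : IsFr p Φ)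
    (W : Finset (Fin w)) {k r0 C : ℕ} (hk : 1 ≤ k) (hcnt : KF_Cnt E' b φ Φ W k r0 C)
    (z : (Fin n → Additive (Om p)ˣ) × ((l : Fin (h + g)) → Pt (em p (α l)) (em p (β l)))) :
    {T : Finset (Xp p n M α β) | Stb (stp Φ) (fun x => Gw W E' b φ α β x ∧ ∀ i ∈ W, fx E' b φ i x ≠ 0) T ∧ T.card = k ∧
      ∑ x ∈ T, KF_chi x = z}.Finite := by
  classical
  obtain ⟨F, -, hF⟩ := hcnt k hk le_rfl (fun l => ((Additive.toMul (z.1 l) : (Om p)ˣ) : Om p)) z.2
    (Fin w → (ZMod p)ˣ) (fun a y i => a ^ δ i * y i) (fun y i => ((y i : (ZMod p)ˣ) : ZMod p))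
    (fun a y y' hy => funext fun i => mul_left_cancel (congrFun hy i))
    (fun a y i _ => by rw [Units.val_mul, Units.val_pow_eq_pow_val]) (fun y i _ => Units.ne_zero _)
  refine (F.image Prod.snd).finite_toSet.subset ?_
  rintro T ⟨hT, hTk, hTz⟩
  have hc : ∀ i, ∃ c : (ZMod p)ˣ, i ∈ W → ∏ x ∈ T, fx E' b φ i x = em p (c : ZMod p) := by
    intro i
    by_cases hi : i ∈ W
    · obtain ⟨c, hc⟩ := KF_val E' b φ hΦ i T (fun x hx => (hT x hx).1)
      have hc0 : c ≠ 0 := by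
        rintro rfl
        rw [map_zero] at hc
        obtain ⟨x, hx, hx0⟩ := Finset.prod_eq_zero_iff.1 hc.symm
        exact (hT x hx).2.2 i hi hx0
      exact ⟨Units.mk0 c hc0, fun _ => hc.symm⟩
    · exact ⟨1, fun h => absurd h hi⟩
  choose c hc using hc
  refine Finset.mem_coe.2 (Finset.mem_image.2 ⟨(c, T), hF c T (fun x hx => ⟨(hT x hx).1, (hT x hx).2.1⟩) hTk
    (fun l => ?_) (fun l => ?_) (fun i hi => hc i hi), rfl⟩)
  · rw [← hTz]
    exact (KF_sum1 T l fun x hx => (hT x hx).2.1.1 l).symm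
  · rw [← hTz]
    exact (KF_sum2 T l).symm

open Classical in
/-- the number of the pairs of a set of points and a family with given intersection with `U` -/
private theorem KF_cnt1 {K : Type} [Field K] [NumberField K] {p : ℕ} [Fact p.Prime] {n h g M w : ℕ} {κ : Type} [Fintype κ]
    {δ : Fin w → ℕ} {d' : Fin w → Fin h → ℕ} (E' : Fin w → κ → Fin n → ℤ) (b : IxM κ M δ d' → 𝓞 K)
    (φ : 𝓞 K →+* ZMod p) {α β : Fin (h + g) → ZMod p} [DecidableEq (Xp p n M α β)]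
    {Φ : (l : Fin (h + g)) → Pt (em p (α l)) (em p (β l)) →+ Pt (em p (α l)) (em p (β l))} (hΦ : IsFr p Φ)
    (W : Finset (Fin w)) {k r0 C ρ : ℕ} (hcnt : KF_Cnt E' b φ Φ W k r0 C) {Y : Type} [Fintype Y]
    (hY : Fintype.card Y ≤ p ^ ρ) (act : (ZMod p)ˣ → Y → Y) (θ : Y → Fin w → ZMod p)
    (hact : ∀ a, Function.Injective (act a)) (hθa : ∀ a x, ∀ i ∈ W, θ (act a x) i = (a : ZMod p) ^ δ i * θ x i)
    (hθ0 : ∀ x, ∀ i ∈ W, θ x i ≠ 0)
    (z : (Fin n → Additive (Om p)ˣ) × ((l : Fin (h + g)) → Pt (em p (α l)) (em p (β l)))) (U U0 : Finset (Xp p n M α β))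
    (hU : Stb (stp Φ) (fun x => Gw W E' b φ α β x ∧ ∀ i ∈ W, fx E' b φ i x ≠ 0) U) (m : ℕ) (hm : 1 ≤ m) (hmk : m ≤ k)
    (P : Finset ((_ : Finset (Xp p n M α β)) × Y))
    (hP : ∀ q ∈ P, (Stb (stp Φ) (fun x => Gw W E' b φ α β x ∧ ∀ i ∈ W, fx E' b φ i x ≠ 0) q.1 ∧ ∑ x ∈ q.1, KF_chi x = z) ∧
      (q.1 \ U).card = m ∧ (∀ i ∈ W, ∏ x ∈ q.1, fx E' b φ i x = em p (θ q.2 i)) ∧ q.1 ∩ U = U0) :
    P.card * p ^ (n + (h + g) + W.card + m) ≤ C * p ^ (m * (n + (h + g) + r0 + W.card) + ρ) := by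
  classical
  rcases P.eq_empty_or_nonempty with h0 | ⟨q1, hq1⟩
  · rw [h0, Finset.card_empty, zero_mul]
    exact Nat.zero_le _
  obtain ⟨⟨hT1, -⟩, -, -, hU0⟩ := hP q1 hq1
  have hs0 : Stb (stp Φ) (fun x => Gw W E' b φ α β x ∧ ∀ i ∈ W, fx E' b φ i x ≠ 0) U0 := by
    intro x hx
    rw [← hU0, Finset.mem_inter] at hx
    refine ⟨?_, (hU x hx.2).2⟩
    rw [← hU0, Finset.mem_inter]
    exact ⟨(hT1 x hx.1).1, (hU x hx.2).1⟩
  have hc : ∀ i, ∃ c : ZMod p, em p c = ∏ x ∈ U0, fx E' b φ i x := fun i =>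
    KF_val E' b φ hΦ i U0 fun x hx => (hs0 x hx).1
  choose c hc using hc
  have hc0 : ∀ i ∈ W, c i ≠ 0 := by
    intro i hi h1
    have h2 := hc i
    rw [h1, map_zero] at h2
    obtain ⟨x, hx, hx0⟩ := Finset.prod_eq_zero_iff.1 h2.symm
    exact (hs0 x hx).2.2 i hi hx0
  obtain ⟨F, hF1, hF2⟩ := hcnt m hm hmk
    (fun l => ((Additive.toMul (z.1 l) : (Om p)ˣ) : Om p) / ∏ x ∈ U0, x.1 l) (fun l => z.2 l - ∑ x ∈ U0, x.2.1 l)
    Y act (fun y i => θ y i / c i) hact (fun a x i hi => by rw [hθa a x i hi, mul_div_assoc])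
    (fun x i hi => div_ne_zero (hθ0 x i hi) (hc0 i hi))
  have hle : P.card ≤ F.card := by
    refine Finset.card_le_card_of_injOn (fun q => (q.2, q.1 \ U)) (fun q hq => ?_) ?_
    · obtain ⟨⟨hT, hTz⟩, hTm, hTθ, hTU⟩ := hP q hq
      refine hF2 q.2 (q.1 \ U) (fun x hx => ?_) hTm (fun l => ?_) (fun l => ?_) (fun i hi => ?_)
      · have h1 := KF_stb (stp_inj hΦ) hU hT x hx
        exact ⟨h1.1, h1.2.1⟩
      · rw [eq_div_iff (Finset.prod_ne_zero_iff.2 fun x hx => (hs0 x hx).2.1.1 l), mul_comm, ← hTU,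
          Finset.prod_inter_mul_prod_sdiff, ← hTz]
        exact (KF_sum1 q.1 l fun x hx => (hT x hx).2.1.1 l).symm
      · rw [eq_sub_iff_add_eq, add_comm, ← hTU, Finset.sum_inter_add_sum_sdiff, ← hTz]
        exact (KF_sum2 q.1 l).symm
      · rw [map_div₀, hc i, eq_div_iff (Finset.prod_ne_zero_iff.2 fun x hx => (hs0 x hx).2.2 i hi), mul_comm, ← hTU,
          Finset.prod_inter_mul_prod_sdiff]
        exact hTθ i hi
    · intro q hq q' hq' hqq
      have h1 : q.2 = q'.2 := congrArg Prod.fst hqq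
      have h2 : q.1 \ U = q'.1 \ U := congrArg Prod.snd hqq
      have h3 : q.1 = q'.1 := by
        rw [← Finset.sdiff_union_inter q.1 U, ← Finset.sdiff_union_inter q'.1 U, h2, (hP q hq).2.2.2, (hP q' hq').2.2.2]
      exact Sigma.ext h3 (heq_of_eq h1)
  calc P.card * p ^ (n + (h + g) + W.card + m) ≤ F.card * p ^ (n + (h + g) + W.card + m) := Nat.mul_le_mul_right _ hle
    _ ≤ C * Fintype.card Y * p ^ (m * (n + (h + g) + r0 + W.card)) := hF1
    _ ≤ C * p ^ ρ * p ^ (m * (n + (h + g) + r0 + W.card)) := Nat.mul_le_mul_right _ (Nat.mul_le_mul_left _ hY)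
    _ = C * p ^ (m * (n + (h + g) + r0 + W.card) + ρ) := by rw [pow_add]; ring

open Classical in
/-- the number of the pairs of a set of points and a family -/
private theorem KF_cnt {K : Type} [Field K] [NumberField K] {p : ℕ} [Fact p.Prime] {n h g M w s s1 : ℕ} {κ : Type} [Fintype κ]
    {δ : Fin w → ℕ} {d' : Fin w → Fin h → ℕ} (E' : Fin w → κ → Fin n → ℤ) (b : IxM κ M δ d' → 𝓞 K)
    (φ : 𝓞 K →+* ZMod p) {α β : Fin (h + g) → ZMod p} [iX : DecidableEq (Xp p n M α β)]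
    {Φ : (l : Fin (h + g)) → Pt (em p (α l)) (em p (β l)) →+ Pt (em p (α l)) (em p (β l))} (hΦ : IsFr p Φ)
    (W : Finset (Fin w)) (V : Finset (Fin s)) (e0 : Fin s1 → Fin s) {k r0 C ρ : ℕ} (hcnt : KF_Cnt E' b φ Φ W k r0 C)
    {Y : Type} [Fintype Y] (hY : Fintype.card Y ≤ p ^ ρ) (act : (ZMod p)ˣ → Y → Y) (θ : Y → Fin w → ZMod p)
    (τ : Y → Fin s → ZMod p)
    (hact : ∀ a, Function.Injective (act a)) (hθa : ∀ a x, ∀ i ∈ W, θ (act a x) i = (a : ZMod p) ^ δ i * θ x i)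
    (hθ0 : ∀ x, ∀ i ∈ W, θ x i ≠ 0)
    (z : (Fin n → Additive (Om p)ˣ) × ((l : Fin (h + g)) → Pt (em p (α l)) (em p (β l)))) (U : Finset (Xp p n M α β))
    (hU : Stb (stp Φ) (fun x => Gw W E' b φ α β x ∧ ∀ i ∈ W, fx E' b φ i x ≠ 0) U) (𝒯 : Finset (Finset (Xp p n M α β)))
    (h𝒯 : ∀ T ∈ 𝒯, Stb (stp Φ) (fun x => Gw W E' b φ α β x ∧ ∀ i ∈ W, fx E' b φ i x ≠ 0) T ∧ ∑ x ∈ T, KF_chi x = z)
    (m : ℕ) (hm : 1 ≤ m) (hmk : m ≤ k) :
    (∑ T ∈ 𝒯.filter (fun T => (T \ U).card = m), (KF_Th E' b φ W V e0 θ τ T).card) * p ^ (n + (h + g) + W.card + m) ≤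
      2 ^ U.card * C * p ^ (m * (n + (h + g) + r0 + W.card) + ρ) := by
  classical
  obtain ⟨P, hPd⟩ : ∃ P : Finset ((_ : Finset (Xp p n M α β)) × Y), P = (𝒯.filter (fun T => (T \ U).card = m)).sigma
    (fun T => univ.filter (fun y : Y => ∀ i ∈ W, ∏ x ∈ T, fx E' b φ i x = em p (θ y i))) := ⟨_, rfl⟩
  have h1 : ∑ T ∈ 𝒯.filter (fun T => (T \ U).card = m), (KF_Th E' b φ W V e0 θ τ T).card ≤ P.card := by
    rw [hPd, Finset.card_sigma]
    refine Finset.sum_le_sum fun T _ => ?_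
    unfold KF_Th
    refine Finset.card_image_le.trans (le_of_eq ?_)
    refine congrArg Finset.card ?_
    ext y
    simp only [Finset.mem_filter]
  have h2 : P.card = ∑ U0 ∈ U.powerset, (P.filter (fun q => q.1 ∩ U = U0)).card :=
    Finset.card_eq_sum_card_fiberwise fun q _ => Finset.mem_coe.2 (Finset.mem_powerset.2 Finset.inter_subset_right)
  have h3 : ∀ U0 ∈ U.powerset, (P.filter (fun q => q.1 ∩ U = U0)).card * p ^ (n + (h + g) + W.card + m) ≤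
      C * p ^ (m * (n + (h + g) + r0 + W.card) + ρ) := by
    intro U0 _
    refine KF_cnt1 E' b φ hΦ W hcnt hY act θ hact hθa hθ0 z U U0 hU m hm hmk _ fun q hq => ?_
    rw [Finset.mem_filter, hPd, Finset.mem_sigma, Finset.mem_filter, Finset.mem_filter] at hq
    exact ⟨h𝒯 q.1 hq.1.1.1, hq.1.1.2, hq.1.2.2, hq.2⟩
  calc (∑ T ∈ 𝒯.filter (fun T => (T \ U).card = m), (KF_Th E' b φ W V e0 θ τ T).card) * p ^ (n + (h + g) + W.card + m)
      ≤ P.card * p ^ (n + (h + g) + W.card + m) := Nat.mul_le_mul_right _ h1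
    _ = ∑ U0 ∈ U.powerset, (P.filter (fun q => q.1 ∩ U = U0)).card * p ^ (n + (h + g) + W.card + m) := by
        rw [h2, Finset.sum_mul]
    _ ≤ ∑ _U0 ∈ U.powerset, C * p ^ (m * (n + (h + g) + r0 + W.card) + ρ) := Finset.sum_le_sum h3
    _ = 2 ^ U.card * C * p ^ (m * (n + (h + g) + r0 + W.card) + ρ) := by
        rw [Finset.sum_const, Finset.card_powerset, smul_eq_mul, mul_assoc]

open Classical in
/-- the number of the families of values -/
private theorem KF_sml1 {K : Type} [Field K] [NumberField K] {p : ℕ} [Fact p.Prime] {n h g M w s s1 : ℕ} {κ : Type}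
    [Fintype κ] {δ : Fin w → ℕ} {d' : Fin w → Fin h → ℕ} (E' : Fin w → κ → Fin n → ℤ) (b : IxM κ M δ d' → 𝓞 K)
    (φ : 𝓞 K →+* ZMod p) {α β : Fin (h + g) → ZMod p} (W : Finset (Fin w)) (V : Finset (Fin s)) (e0 : Fin s1 → Fin s)
    {Y : Type} [Fintype Y] (θ : Y → Fin w → ZMod p) (τ : Y → Fin s → ZMod p) (T : Finset (Xp p n M α β)) :
    (KF_Th E' b φ W V e0 θ τ T).card ≤ p ^ V.card := by
  have h1 : KF_Th E' b φ W V e0 θ τ T ⊆ (univ : Finset ({j // j ∈ V} → ZMod p)).image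
      (fun c j => if h : e0 j ∈ V then em p (c ⟨e0 j, h⟩) else 0) := by
    intro t ht
    unfold KF_Th at ht
    obtain ⟨y, _, rfl⟩ := Finset.mem_image.1 ht
    refine Finset.mem_image.2 ⟨fun j => τ y j.1, Finset.mem_univ _, funext fun j => ?_⟩
    by_cases hj : e0 j ∈ V
    · rw [dif_pos hj, if_pos hj]
    · rw [dif_neg hj, if_neg hj]
  refine (Finset.card_le_card h1).trans (Finset.card_image_le.trans (le_of_eq ?_))
  rw [Finset.card_univ, Fintype.card_fun, ZMod.card, Fintype.card_coe]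

open Classical in
/-- the number of the families of values if a class is dependent -/
private theorem KF_sml2 {K : Type} [Field K] [NumberField K] {p : ℕ} [Fact p.Prime] {n h g M w s s1 : ℕ} {κ : Type}
    [Fintype κ] {δ : Fin w → ℕ} {d' : Fin w → Fin h → ℕ} (E' : Fin w → κ → Fin n → ℤ) (b : IxM κ M δ d' → 𝓞 K)
    (φ : 𝓞 K →+* ZMod p) {α β : Fin (h + g) → ZMod p} (W : Finset (Fin w)) (V : Finset (Fin s)) (e0 : Fin s1 → Fin s)
    (cV : {i // i ∈ W} ⊕ {j // j ∈ V} → Fin (h + g) ⊕ Unit → ℤ) (j0 : {j // j ∈ V}) (N : ℕ) (hN : 1 ≤ N)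
    (hdep : (N : ℤ) • cV (Sum.inr j0) ∈ Submodule.span ℤ {c' | ∃ i, i ≠ Sum.inr j0 ∧ c' = cV i})
    (u1 : Fin w → ZMod p) (u2 : Fin s → ZMod p) (hu1 : ∀ i, u1 i ≠ 0)
    (θ : {f : {i // i ∈ W} ⊕ {j // j ∈ V} → (ZMod p)ˣ // ∃ l : Fin (h + g) ⊕ Unit → (ZMod p)ˣ, f = VU.ch cV l} →
      Fin w → ZMod p) (hθ : ∀ f i (hi : i ∈ W), θ f i = ((f.1 (Sum.inl ⟨i, hi⟩) : (ZMod p)ˣ) : ZMod p) * u1 i)
    (τ : {f : {i // i ∈ W} ⊕ {j // j ∈ V} → (ZMod p)ˣ // ∃ l : Fin (h + g) ⊕ Unit → (ZMod p)ˣ, f = VU.ch cV l} →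
      Fin s → ZMod p) (hτ : ∀ f j (hj : j ∈ V), τ f j = ((f.1 (Sum.inr ⟨j, hj⟩) : (ZMod p)ˣ) : ZMod p) * u2 j)
    (T : Finset (Xp p n M α β)) :
    (KF_Th E' b φ W V e0 θ τ T).card * p ≤ N * p ^ V.card := by
  rcases (KF_Th E' b φ W V e0 θ τ T).eq_empty_or_nonempty with h0 | ⟨t0, ht0⟩
  · rw [h0, Finset.card_empty, zero_mul]
    exact Nat.zero_le _
  have hmem : ∀ t ∈ KF_Th E' b φ W V e0 θ τ T, ∃ y : {f : {i // i ∈ W} ⊕ {j // j ∈ V} → (ZMod p)ˣ //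
      ∃ l : Fin (h + g) ⊕ Unit → (ZMod p)ˣ, f = VU.ch cV l}, (∀ i ∈ W, ∏ x ∈ T, fx E' b φ i x = em p (θ y i)) ∧
      (fun j => if e0 j ∈ V then em p (τ y (e0 j)) else 0) = t := by
    intro t ht
    unfold KF_Th at ht
    obtain ⟨y, hy, hyt⟩ := Finset.mem_image.1 ht
    exact ⟨y, (Finset.mem_filter.1 hy).2, hyt⟩
  obtain ⟨y1, hy1, -⟩ := hmem t0 ht0
  have hfew := few_fam (p := p) cV j0 N hN hdep (fun i => y1.1 (Sum.inl i))
  rw [Fintype.card_coe] at hfew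
  refine le_trans (Nat.mul_le_mul_right p ?_) hfew
  rw [Nat.card_eq_fintype_card, ← Finset.card_univ]
  have h1 : KF_Th E' b φ W V e0 θ τ T ⊆ (univ : Finset {τ : {j // j ∈ V} → (ZMod p)ˣ //
      ∃ l : Fin (h + g) ⊕ Unit → (ZMod p)ˣ, (∀ i, VU.ch cV l (Sum.inl i) = y1.1 (Sum.inl i)) ∧
        ∀ j, VU.ch cV l (Sum.inr j) = τ j}).image
      (fun c j => if h : e0 j ∈ V then em p (((c.1 ⟨e0 j, h⟩ : (ZMod p)ˣ) : ZMod p) * u2 (e0 j)) else 0) := by
    intro t ht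
    obtain ⟨y, hy, hyt⟩ := hmem t ht
    obtain ⟨l, hl⟩ := y.2
    refine Finset.mem_image.2 ⟨⟨fun j => y.1 (Sum.inr j), l, fun i => ?_, fun j => by rw [hl]⟩, Finset.mem_univ _, ?_⟩
    · rw [← hl]
      have h2 := (hy i.1 i.2).symm.trans (hy1 i.1 i.2)
      have h3 := (em p).injective h2
      rw [hθ y i.1 i.2, hθ y1 i.1 i.2] at h3
      exact Units.ext (mul_right_cancel₀ (hu1 i.1) h3)
    · rw [← hyt]
      funext j
      by_cases hj : e0 j ∈ V
      · rw [dif_pos hj, if_pos hj, hτ y (e0 j) hj]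
      · rw [dif_neg hj, if_neg hj]
  exact (Finset.card_le_card h1).trans Finset.card_image_le

open Classical in
private theorem KF_ok {K : Type} [Field K] [NumberField K] {p : ℕ} [Fact p.Prime] {n h g M w s s1 e : ℕ} {κ ι : Type}
    [Fintype κ] [Fintype ι] {δ : Fin w → ℕ} {d' : Fin w → Fin h → ℕ} (E' : Fin w → κ → Fin n → ℤ)
    (b : IxM κ M δ d' → 𝓞 K) (φ : 𝓞 K →+* ZMod p) {α β : Fin (h + g) → ZMod p}
    (Φ : (l : Fin (h + g)) → Pt (em p (α l)) (em p (β l)) →+ Pt (em p (α l)) (em p (β l))) (hΦ : IsFr p Φ)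
    (ν : Fin s → ℕ) (d : Fin s → Fin (h + g) → ℕ) (E : Fin s → ι → Fin n → ℤ) (v : Fin e → ZMod p) (hv : v ≠ 0)
    (W : Finset (Fin w)) (V : Finset (Fin s)) (e0 : Fin s1 → Fin s) (he0 : Function.Injective e0)
    (k N0 r0 ρ C C1 C2 C' : ℕ) (hk : 1 ≤ k) (hC1 : C1 ≤ C) (hC2 : C2 ≤ C)
    (hE : ∀ j, Rich N0 (E j)) (hd : ∀ j l, 2 * (N0 - 1) ≤ d j l) (hν : ∀ j, N0 - 1 ≤ ν j ∨ M = 0)
    (hcnt : KF_Cnt E' b φ Φ W k r0 C1) {Y : Type} [Fintype Y] (hY : Fintype.card Y ≤ p ^ ρ)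
    (act : (ZMod p)ˣ → Y → Y) (θ : Y → Fin w → ZMod p) (τ : Y → Fin s → ZMod p)
    (hact : ∀ a, Function.Injective (act a)) (hθa : ∀ a x, ∀ i ∈ W, θ (act a x) i = (a : ZMod p) ^ δ i * θ x i)
    (hθ0 : ∀ x, ∀ i ∈ W, θ x i ≠ 0) (hτ0 : ∀ y, ∀ j ∈ V, τ y j ≠ 0)
    (hVc : (univ.filter (fun j => e0 j ∈ V)).card = V.card)
    (hsml : ∀ T : Finset (Xp p n M α β), (KF_Th E' b φ W V e0 θ τ T).card * p ^ (1 + k * V.card) ≤
      C' * p ^ (s1 * k + V.card))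
    (hnrm : ∀ (X : Type) (f : X → X),
      Function.Injective f → ∀ N : Finset X, (∀ x ∈ N, f x ∈ N) → 1 ≤ N.card → N.card ≤ k → ∀ θ : Om p, θ ≠ 0 →
      Nat.card {g : X → Om p // g ∈ Fn p f N ∧ ∏ x ∈ N, g x = θ} * p ≤ C2 * p ^ N.card) :
    (KF_S E' b φ Φ ν d E v W V e0 θ τ).Ok k N0 (n + (h + g) + W.card) (n + (h + g) + r0 + W.card) ρ C C' where
  fin := inferInstance
  ne := inferInstance
  inj := stp_inj hΦ
  fr := fun a j x => ev_fr hΦ E v a (e0 j) x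
  eq := by
    intro U hU hc gg hgg
    exact st_eqF hΦ E hE hd hν v hv e0 he0 U (fun x hx => ⟨(hU x hx).1, (hU x hx).2.1.1, (hU x hx).2.1.2.1⟩) hc gg hgg
  tkf := fun z => KF_tkf E' b φ hΦ W hk hcnt z
  cnt := by
    intro U hU _ z 𝒯 h𝒯 m hm hmk
    exact (KF_cnt (iX := fun a b => Classical.propDecidable (a = b)) E' b φ hΦ W V e0 hcnt hY act θ τ hact hθa hθ0 z U hU 𝒯
      (fun T hT => ⟨(h𝒯 T hT).1, (h𝒯 T hT).2.2⟩) m hm hmk).trans
      (Nat.mul_le_mul_right _ (Nat.mul_le_mul_left _ hC1))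
  cls := by
    intro T t ht j hj
    obtain ⟨y, _, rfl⟩ := Finset.mem_image.1 ht
    have hj' : e0 j ∈ V := (Finset.mem_filter.1 hj).2
    show (if e0 j ∈ V then em p (τ y (e0 j)) else 0) ≠ 0
    rw [if_pos hj']
    exact (map_ne_zero (em p)).2 (hτ0 y _ hj')
  sml := by
    intro z T _
    show (KF_Th E' b φ W V e0 θ τ T).card * p ^ (1 + k * (univ.filter (fun j => e0 j ∈ V)).card) ≤
      C' * p ^ (s1 * k + (univ.filter (fun j => e0 j ∈ V)).card)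
    rw [hVc]
    exact hsml T
  nrm := by
    intro N hN h1 h2 θ hθ
    exact (hnrm _ _ (stp_inj hΦ) N hN h1 h2 θ hθ).trans (Nat.mul_le_mul_right _ hC2)

open Classical in
/-- a family of `k` different points gives a set of points -/
private theorem KF_T {K : Type} [Field K] [NumberField K] {p : ℕ} [Fact p.Prime] {n h g M w s s1 e k : ℕ} {κ ι : Type}
    [Fintype κ] [Fintype ι] {δ : Fin w → ℕ} {d' : Fin w → Fin h → ℕ} (E' : Fin w → κ → Fin n → ℤ)
    (b : IxM κ M δ d' → 𝓞 K) (φ : 𝓞 K →+* ZMod p) {α β : Fin (h + g) → ZMod p}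
    (Φ : (l : Fin (h + g)) → Pt (em p (α l)) (em p (β l)) →+ Pt (em p (α l)) (em p (β l)))
    (ν : Fin s → ℕ) (d : Fin s → Fin (h + g) → ℕ) (E : Fin s → ι → Fin n → ℤ) (v : Fin e → ZMod p)
    (W : Finset (Fin w)) (V R : Finset (Fin s)) (e0 : Fin s1 → Fin s) (he0 : ∀ j, e0 j ∉ R \ V) {Y : Type} [Fintype Y]
    (θ : Y → Fin w → ZMod p) (τ : Y → Fin s → ZMod p) (hθ0 : ∀ x, ∀ i ∈ W, θ x i ≠ 0)
    (u : Fin n → ZMod p) (hu : ∀ l, em p (u l) ≠ 0)
    (Z : (l : Fin (h + g)) → Pt (em p (α l)) (em p (β l))) (a : IxM ι M ν d × Fin e → ZMod p)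
    (x : Fin k → Xp p n M α β) (hx : Function.Injective x) (σ : Equiv.Perm (Fin k)) (hσ : ∀ i, x (σ i) = stp Φ (x i))
    (h1 : ∀ i l, (x i).1 l ≠ 0) (h2 : ∀ i, Nrm (x i).2.2) (h3 : ∀ l, ∏ i, (x i).1 l = em p (u l))
    (h4 : ∀ l, ∑ i, (x i).2.1 l = Z l) (y : Y)
    (h5 : ∀ j ∉ W, ∀ i, sM E' (fun x => em p (φ (b x))) (x i).1 (fun l => opP ((x i).2.1 (Fin.castAdd g l))) (x i).2.2 j = 0)
    (h5' : ∀ j ∈ W, ∏ i, sM E' (fun x => em p (φ (b x))) (x i).1 (fun l => opP ((x i).2.1 (Fin.castAdd g l)))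
      (x i).2.2 j = em p (θ y j))
    (h6 : ∀ j ∉ V, j ∉ R → ∀ i, sM E (fun x => em p (∑ i, a (x, i) * v i)) (x i).1 (fun l => opP ((x i).2.1 l)) (x i).2.2 j = 0)
    (h7 : ∀ j ∈ V, ∏ i, sM E (fun x => em p (∑ i, a (x, i) * v i)) (x i).1 (fun l => opP ((x i).2.1 l)) (x i).2.2 j =
      em p (τ y j)) :
    ∃ T, (KF_S E' b φ Φ ν d E v W V e0 θ τ).Tk k (fun l => Additive.ofMul (Units.mk0 (em p (u l)) (hu l)), Z) T ∧
      (KF_S E' b φ Φ ν d E v W V e0 θ τ).Ev T a := by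
  refine ⟨Finset.univ.image x, ⟨?_, ?_, ?_⟩, ?_, fun j => if e0 j ∈ V then em p (τ y (e0 j)) else 0, ?_, ?_⟩
  · intro q hq
    obtain ⟨i, _, rfl⟩ := Finset.mem_image.1 hq
    refine ⟨Finset.mem_image.2 ⟨σ i, Finset.mem_univ _, hσ i⟩, ⟨h1 i, h2 i, fun j hj => h5 j hj i⟩, fun j hj h0 => ?_⟩
    refine (map_ne_zero (em p)).2 (hθ0 y j hj) ?_
    rw [← h5' j hj]
    exact Finset.prod_eq_zero (Finset.mem_univ i) h0
  · rw [Finset.card_image_of_injective _ hx, Finset.card_univ, Fintype.card_fin]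
  · refine Prod.ext (funext fun l => ?_) (funext fun l => ?_)
    · refine Additive.toMul.injective (Units.ext ?_)
      refine (KF_sum1 (Finset.univ.image x) l ?_).trans ?_
      · intro q hq
        obtain ⟨i, _, rfl⟩ := Finset.mem_image.1 hq
        exact h1 i l
      · rw [Finset.prod_image fun i _ j _ hij => hx hij]
        exact h3 l
    · refine (KF_sum2 (Finset.univ.image x) l).trans ?_
      rw [Finset.sum_image fun i _ j _ hij => hx hij]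
      exact h4 l
  · intro j hj q hq
    obtain ⟨i, _, rfl⟩ := Finset.mem_image.1 hq
    have hj' : e0 j ∉ V := fun h => hj (Finset.mem_filter.2 ⟨Finset.mem_univ _, h⟩)
    exact h6 (e0 j) hj' (fun h => he0 j (Finset.mem_sdiff.2 ⟨h, hj'⟩)) i
  · refine Finset.mem_image.2 ⟨y, Finset.mem_filter.2 ⟨Finset.mem_univ _, fun i hi => ?_⟩, rfl⟩
    rw [Finset.prod_image fun i _ j _ hij => hx hij]
    exact h5' i hi
  · intro j hj
    have hj' : e0 j ∈ V := (Finset.mem_filter.1 hj).2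
    dsimp only
    rw [if_pos hj', Finset.prod_image fun i _ j _ hij => hx hij]
    exact h7 (e0 j) hj'

/-- the sections which are not in `R` outside of `V` -/
private theorem KF_e0 {s : ℕ} (V R : Finset (Fin s)) : ∃ (s1 : ℕ) (e0 : Fin s1 → Fin s), s1 + (R \ V).card = s ∧
    Function.Injective e0 ∧ (∀ j, e0 j ∉ R \ V) ∧ ∀ j ∈ V, ∃ j1, e0 j1 = j := by
  refine ⟨((R \ V)ᶜ).card, ⇑(((R \ V)ᶜ).orderEmbOfFin rfl), ?_, (((R \ V)ᶜ).orderEmbOfFin rfl).injective, fun j => ?_,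
    fun j hj => ?_⟩
  · rw [Finset.card_compl_add_card, Fintype.card_fin]
  · exact Finset.mem_compl.1 (Finset.orderEmbOfFin_mem _ _ j)
  · have h1 : j ∈ Set.range (((R \ V)ᶜ).orderEmbOfFin rfl) := by
      rw [Finset.range_orderEmbOfFin]
      refine Finset.mem_coe.2 (Finset.mem_compl.2 fun h => ?_)
      exact (Finset.mem_sdiff.1 h).2 hj
    exact h1

private theorem KF_V1 {s s1 : ℕ} (V : Finset (Fin s)) (e0 : Fin s1 → Fin s) (he0 : Function.Injective e0)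
    (hV : ∀ j ∈ V, ∃ j1, e0 j1 = j) [DecidablePred fun j => e0 j ∈ V] :
    (univ.filter (fun j => e0 j ∈ V)).card = V.card := by
  rw [← Finset.card_image_of_injective _ he0]
  congr 1
  ext j
  rw [Finset.mem_image]
  constructor
  · rintro ⟨j1, hj1, rfl⟩
    exact (Finset.mem_filter.1 hj1).2
  · intro hj
    obtain ⟨j1, rfl⟩ := hV j hj
    exact ⟨j1, Finset.mem_filter.2 ⟨Finset.mem_univ _, hj⟩, rfl⟩

open Classical in
theorem dens_X (K : Type) [Field K] [NumberField K] (L : Type) [Field L] [NumberField L] {n h M w r0 : ℕ} {κ : Type}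
    [Fintype κ] {δ : Fin w → ℕ} {d' : Fin w → Fin h → ℕ} (A' B' : Fin h → 𝓞 K) (E' : Fin w → κ → Fin n → ℤ)
    (b : IxM κ M δ d' → 𝓞 K) (hF : FibP A' B' E' b r0) (k g s : ℕ) (hk1 : 1 ≤ k) (W : Finset (Fin w))
    (hW : ∀ i ∈ W, 1 ≤ δ i) :
    ∃ (N0 : ℕ) (κ0 : ℝ), k ≤ N0 ∧ 0 < κ0 ∧ κ0 ≤ 1 ∧ ∀ (e : ℕ) (ι : Type) [Fintype ι] (ν : Fin s → ℕ)
    (d : Fin s → Fin (h + g) → ℕ) (E : Fin s → ι → Fin n → ℤ) (ω : Module.Basis (Fin e) ℤ (𝓞 K)),
    (∀ j, Rich N0 (E j)) → (∀ j l, 2 * (N0 - 1) ≤ d j l) → (∀ j, N0 - 1 ≤ ν j ∨ M = 0) → ∀ V R : Finset (Fin s),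
    k * (n + (h + g) + r0 + W.card + V.card + (R \ V).card) + Set.finrank ℤ (VU.clD W V δ d' ν d) =
      n + (h + g) + W.card + V.card + k * (s + 1) →
    s + 2 ≤ n + (h + g) + r0 + W.card + V.card + (R \ V).card →
    (V.card + (R \ V).card < s ∨ ∃ j ∈ V, ∃ N : ℕ, 1 ≤ N ∧
      (N : ℤ) • VU.cl (d j) (ν j) ∈ Submodule.span ℤ (VU.clD W (V.erase j) δ d' ν d)) →
    ∃ p0 : ℕ, ∀ ζ : Cv e g, DensK L p0 (RDG k W V R A' B' E' b ν d E (⇑ω) ζ) κ0 := by
  obtain ⟨C1, p1, h1C⟩ := st_cntW K A' B' E' b hF k g W hW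
  obtain ⟨C2, p2, h2C⟩ := fn_nrm k
  obtain ⟨Ls, κ1, hκ0, hκ1, hsys⟩ := DW.sys_main k s (C1 + C2) hk1
  refine ⟨max (Ls * k) k, κ1 / 2, le_max_right _ _, by positivity, by linarith, ?_⟩
  intro e ι _ ν d E ω hE hd hν V R hk hdim hdep
  obtain ⟨cV, hcV⟩ : ∃ cV : {i // i ∈ W} ⊕ {j // j ∈ V} → Fin (h + g) ⊕ Unit → ℤ,
      cV = Sum.elim (fun i => VU.cl (Fin.append (d' i.1) (0 : Fin g → ℕ)) (δ i.1)) (fun j => VU.cl (d j.1) (ν j.1)) :=
    ⟨_, rfl⟩
  have hcl : ∀ i : {i // i ∈ W}, cV (Sum.inl i) = VU.cl (Fin.append (d' i.1) (0 : Fin g → ℕ)) (δ i.1) := fun i => by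
    rw [hcV]
    rfl
  have hcr : ∀ j : {j // j ∈ V}, cV (Sum.inr j) = VU.cl (d j.1) (ν j.1) := fun j => by
    rw [hcV]
    rfl
  have hset : VU.clD W V δ d' ν d = Set.range cV := by
    ext c
    constructor
    · rintro (⟨i, hi, hc⟩ | ⟨j, hj, hc⟩)
      · exact ⟨Sum.inl ⟨i, hi⟩, by rw [hcl, hc]⟩
      · exact ⟨Sum.inr ⟨j, hj⟩, by rw [hcr, hc]⟩
    · rintro ⟨i | j, hj⟩
      · exact Or.inl ⟨i.1, i.2, by rw [← hj, hcl]⟩
      · exact Or.inr ⟨j.1, j.2, by rw [← hj, hcr]⟩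
  rw [hset] at hk
  obtain ⟨ρ, hρd⟩ : ∃ ρ, ρ = Set.finrank ℤ (Set.range cV) := ⟨_, rfl⟩
  have hρ : ρ ≤ W.card + V.card := by
    rw [hρd]
    refine (finrank_range_le_card (R := ℤ) cV).trans (le_of_eq ?_)
    rw [Fintype.card_sum, Fintype.card_coe, Fintype.card_coe]
  rw [← hρd] at hk
  obtain ⟨k1, hk1'⟩ : ∃ k1, k = k1 + 1 := ⟨k - 1, by omega⟩
  have hkk : k1 * (n + (h + g) + r0 + W.card + V.card + (R \ V).card) + ρ <
      n + (h + g) + W.card + V.card + k1 * (s + 1) := by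
    rw [hk1', add_mul, add_mul, one_mul, one_mul] at hk
    omega
  -- the sections which are used
  obtain ⟨s1, e0, hs1, he0i, he0, he0V⟩ := KF_e0 V R
  have hVc : (univ.filter (fun j => e0 j ∈ V)).card = V.card := KF_V1 V e0 he0i he0V
  have hVs1 : V.card ≤ s1 := by
    rw [← hVc]
    refine (Finset.card_le_univ _).trans (le_of_eq ?_)
    rw [Fintype.card_fin]
  have hEq : k * (n + (h + g) + r0 + W.card + V.card) + ρ = n + (h + g) + W.card + V.card + k * (s1 + 1) := by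
    obtain ⟨rv, hrv⟩ : ∃ rv, rv = (R \ V).card := ⟨_, rfl⟩
    rw [← hrv] at hk hs1
    have h1 : k * (s + 1) = k * (s1 + 1) + k * rv := by
      rw [← hs1]
      ring
    have h2 : k * (n + (h + g) + r0 + W.card + V.card + rv) = k * (n + (h + g) + r0 + W.card + V.card) + k * rv := by ring
    rw [h1, h2] at hk
    omega
  obtain ⟨C', hC'⟩ : ∃ C' : ℕ, (V.card + 1 ≤ s1 ∧ C' = 1) ∨ ∃ (j : Fin s) (hj : j ∈ V), 1 ≤ C' ∧
      (C' : ℤ) • cV (Sum.inr ⟨j, hj⟩) ∈ Submodule.span ℤ {c' | ∃ i, i ≠ Sum.inr ⟨j, hj⟩ ∧ c' = cV i} := by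
    rcases hdep with hlt | ⟨j, hj, N, hN, hmem⟩
    · exact ⟨1, Or.inl ⟨by omega, rfl⟩⟩
    · refine ⟨N, Or.inr ⟨j, hj, hN, ?_⟩⟩
      rw [hcr]
      refine Submodule.span_mono ?_ hmem
      rintro c (⟨i, hi, hc⟩ | ⟨j', hj', hc⟩)
      · exact ⟨Sum.inl ⟨i, hi⟩, fun h => Sum.inl_ne_inr h, by rw [hcl, hc]⟩
      · refine ⟨Sum.inr ⟨j', Finset.mem_of_mem_erase hj'⟩, fun h => ?_, by rw [hcr, hc]⟩
        exact Finset.ne_of_mem_erase hj' (congrArg Subtype.val (Sum.inr_injective h))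
  obtain ⟨p3, hsys'⟩ := hsys C'
  have hNk : k ≤ max (Ls * k) k := le_max_right _ _
  have hNL : Ls * k ≤ max (Ls * k) k := le_max_left _ _
  obtain ⟨C3, p4, hC3⟩ := pat_cntX K A' B' E' b hF k k1 g s e ν d E (fun j => KF_rich hNk (hE j))
    (fun j l => le_trans (by omega) (hd j l)) (fun j => (hν j).imp_left fun h1 => le_trans (by omega) h1) W hW V R ρ hρ
    hkk
  obtain ⟨Nk, hNkd⟩ : ∃ Nk, Nk = Fintype.card ((r : Fin (k + 1)) × ((Fin (r : ℕ) → Fin (k + 1)) × (Fin (r : ℕ) → Fin (k + 1)))) := ⟨_, rfl⟩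
  obtain ⟨p5, hp5⟩ : ∃ p5 : ℕ, 2 * ((Nk * C3 : ℕ) : ℝ) / κ1 ≤ p5 := exists_nat_ge _
  refine ⟨p1 + p2 + p3 + p4 + p5 + 3, fun ζ => ?_⟩
  intro p hp hpp _ π u z hu
  have hpf : Fact p.Prime := ⟨hp⟩
  have hp0 : 0 < p := hp.pos
  have hnn : (0 : ℝ) ≤ (1 - κ1 / 2) * (p : ℝ) ^ Fintype.card (IxM ι M ν d × Fin e) := by
    have h1 : 0 ≤ 1 - κ1 / 2 := by linarith
    positivity
  by_cases hds : ∀ l, ds (res π (aA (⇑ω) A' ζ l)) (res π (aB (⇑ω) B' ζ l)) ≠ 0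
  swap
  · have h0 : IsEmpty (RDG k W V R A' B' E' b ν d E (⇑ω) ζ p π u z) := by
      refine ⟨fun a => ?_⟩
      obtain ⟨_, h1, _⟩ := a.2
      exact hds h1
    rw [Nat.card_of_isEmpty, Nat.cast_zero]
    exact hnn
  by_cases hZ : ∀ l, ∃ Zl : Pt (em p (res π (aA (⇑ω) A' ζ l))) (em p (res π (aB (⇑ω) B' ζ l))), opP Zl = mpO (em p) (z l)
  swap
  · have h0 : IsEmpty (RDG k W V R A' B' E' b ν d E (⇑ω) ζ p π u z) := by
      refine ⟨fun a => ?_⟩
      obtain ⟨_, _, _, _, _, _, m, τ, t, P, y, _, _, _, _, _, _, h1, _⟩ := a.2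
      exact hZ fun l => ⟨∑ i, P i l, h1 l⟩
    rw [Nat.card_of_isEmpty, Nat.cast_zero]
    exact hnn
  choose Z hZ' using hZ
  obtain ⟨φ, hφ⟩ := res_hom π
  obtain ⟨Φ, hΦ⟩ := KF_fr p (fun l => res π (aA (⇑ω) A' ζ l)) (fun l => res π (aB (⇑ω) B' ζ l))
  have hv : (fun i => res π ((ω i : 𝓞 K) : K)) ≠ 0 := w_ne ω fun i => rd_res (int_mem π _)
  have hαβ : ∀ l : Fin h, (fun l => res π (aA (⇑ω) A' ζ l)) (Fin.castAdd g l) = φ (A' l) ∧
      (fun l => res π (aB (⇑ω) B' ζ l)) (Fin.castAdd g l) = φ (B' l) := by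
    intro l
    rw [hφ, hφ]
    unfold aA aB
    dsimp only
    rw [Fin.append_left, Fin.append_left]
    exact ⟨rfl, rfl⟩
  have hu' : ∀ l, em p (u (Fin.castAdd (w + s) l)) ≠ 0 := fun l => (map_ne_zero (em p)).2 (hu _)
  -- the families of the values
  have hTc : Fintype.card {f : {i // i ∈ W} ⊕ {j // j ∈ V} → (ZMod p)ˣ // ∃ l : Fin (h + g) ⊕ Unit → (ZMod p)ˣ, f = VU.ch cV l} ≤
      p ^ ρ := by
    have h1 := VU.ch_card (G := (ZMod p)ˣ) cV
    rw [← hρd, Nat.card_eq_fintype_card] at h1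
    refine h1.trans (Nat.pow_le_pow_left ?_ ρ)
    rw [Nat.card_eq_fintype_card, ZMod.card_units]
    exact Nat.sub_le _ _
  obtain ⟨act, hact⟩ : ∃ act : (ZMod p)ˣ →
      {f : {i // i ∈ W} ⊕ {j // j ∈ V} → (ZMod p)ˣ // ∃ l : Fin (h + g) ⊕ Unit → (ZMod p)ˣ, f = VU.ch cV l} →
      {f : {i // i ∈ W} ⊕ {j // j ∈ V} → (ZMod p)ˣ // ∃ l : Fin (h + g) ⊕ Unit → (ZMod p)ˣ, f = VU.ch cV l},
      ∀ a f, (act a f).1 = f.1 * VU.ch cV (Sum.elim 1 (fun _ => a)) :=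
    ⟨fun a f => ⟨f.1 * VU.ch cV (Sum.elim 1 (fun _ => a)), by
      obtain ⟨l, hl⟩ := f.2
      exact ⟨l * Sum.elim (1 : Fin (h + g) → (ZMod p)ˣ) (fun _ => a), by rw [hl, KF_mul]⟩⟩, fun a f => rfl⟩
  have hacti : ∀ a, Function.Injective (act a) := by
    intro a f f' hff
    apply Subtype.ext
    have h1 := congrArg Subtype.val hff
    rw [hact, hact] at h1
    exact mul_right_cancel h1
  obtain ⟨θ, hθ⟩ : ∃ θ : {f : {i // i ∈ W} ⊕ {j // j ∈ V} → (ZMod p)ˣ // ∃ l : Fin (h + g) ⊕ Unit → (ZMod p)ˣ, f = VU.ch cV l} →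
      Fin w → ZMod p,
      ∀ f i (hi : i ∈ W), θ f i = ((f.1 (Sum.inl ⟨i, hi⟩) : (ZMod p)ˣ) : ZMod p) * u (Fin.natAdd n (Fin.castAdd s i)) :=
    ⟨fun f i => if hi : i ∈ W then ((f.1 (Sum.inl ⟨i, hi⟩) : (ZMod p)ˣ) : ZMod p) * u (Fin.natAdd n (Fin.castAdd s i)) else 0,
      fun f i hi => dif_pos hi⟩
  obtain ⟨τ, hτ⟩ : ∃ τ : {f : {i // i ∈ W} ⊕ {j // j ∈ V} → (ZMod p)ˣ // ∃ l : Fin (h + g) ⊕ Unit → (ZMod p)ˣ, f = VU.ch cV l} →
      Fin s → ZMod p,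
      ∀ f j (hj : j ∈ V), τ f j = ((f.1 (Sum.inr ⟨j, hj⟩) : (ZMod p)ˣ) : ZMod p) * u (Fin.natAdd n (Fin.natAdd w j)) :=
    ⟨fun f j => if hj : j ∈ V then ((f.1 (Sum.inr ⟨j, hj⟩) : (ZMod p)ˣ) : ZMod p) * u (Fin.natAdd n (Fin.natAdd w j)) else 0,
      fun f j hj => dif_pos hj⟩
  have hθ0 : ∀ f, ∀ i ∈ W, θ f i ≠ 0 := by
    intro f i hi
    rw [hθ f i hi]
    exact mul_ne_zero (Units.ne_zero _) (hu _)
  have hτ0 : ∀ f, ∀ j ∈ V, τ f j ≠ 0 := by
    intro f j hj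
    rw [hτ f j hj]
    exact mul_ne_zero (Units.ne_zero _) (hu _)
  have hθa : ∀ a f, ∀ i ∈ W, θ (act a f) i = (a : ZMod p) ^ δ i * θ f i := by
    intro a f i hi
    have h2 : VU.ch cV (Sum.elim 1 (fun _ => a)) (Sum.inl ⟨i, hi⟩) = a ^ δ i := by
      unfold VU.ch
      rw [hcl, KF_cl]
      simp only [Pi.one_apply, one_pow, Finset.prod_const_one, one_mul]
    rw [hθ _ i hi, hθ _ i hi, hact, Pi.mul_apply, h2, Units.val_mul, Units.val_pow_eq_pow_val]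
    ring
  have hpat := fun (r : ℕ) (c μ : Fin r → ℕ) (h1 : 1 ≤ r) (h2 : ∀ j, 1 ≤ c j ∧ 1 ≤ μ j) (h3 : ∑ j, μ j * c j ≤ k)
      (h4 : ∑ j, c j ≤ k1) =>
    hC3 p (by omega) φ (fun l => res π (aA (⇑ω) A' ζ l)) (fun l => res π (aB (⇑ω) B' ζ l)) hds hαβ Φ hΦ r c μ h1 h2 h3 h4
      (fun l => u (Fin.castAdd (w + s) l)) Z (fun i => res π ((ω i : 𝓞 K) : K)) hv _ act θ τ hTc hacti hθa hθ0 hτ0
  have hsml : ∀ T : Finset (Xp p n M (fun l => res π (aA (⇑ω) A' ζ l)) (fun l => res π (aB (⇑ω) B' ζ l))),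
      (KF_Th E' b φ W V e0 θ τ T).card * p ^ (1 + k * V.card) ≤ C' * p ^ (s1 * k + V.card) := by
    intro T
    rcases hC' with ⟨hlt, hC'⟩ | ⟨j, hj, hN, hmem⟩
    · have h1 := Nat.mul_le_mul_right k hlt
      rw [add_mul, one_mul, mul_comm V.card k] at h1
      calc (KF_Th E' b φ W V e0 θ τ T).card * p ^ (1 + k * V.card) ≤ p ^ V.card * p ^ (1 + k * V.card) :=
            Nat.mul_le_mul_right _ (KF_sml1 E' b φ W V e0 θ τ T)
        _ = p ^ (V.card + (1 + k * V.card)) := (pow_add _ _ _).symm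
        _ ≤ p ^ (s1 * k + V.card) := Nat.pow_le_pow_right hp0 (by omega)
        _ = C' * p ^ (s1 * k + V.card) := by rw [hC', one_mul]
    · have h1 := KF_sml2 E' b φ W V e0 cV ⟨j, hj⟩ C' hN hmem (fun i => u (Fin.natAdd n (Fin.castAdd s i)))
        (fun j => u (Fin.natAdd n (Fin.natAdd w j))) (fun i => hu _) θ hθ τ hτ T
      have h2 := Nat.mul_le_mul_right k hVs1
      rw [mul_comm V.card k] at h2
      calc (KF_Th E' b φ W V e0 θ τ T).card * p ^ (1 + k * V.card) =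
            (KF_Th E' b φ W V e0 θ τ T).card * p * p ^ (k * V.card) := by rw [pow_add, pow_one, mul_assoc]
        _ ≤ C' * p ^ V.card * p ^ (k * V.card) := Nat.mul_le_mul_right _ h1
        _ = C' * p ^ (V.card + k * V.card) := by rw [mul_assoc, ← pow_add]
        _ ≤ C' * p ^ (s1 * k + V.card) := Nat.mul_le_mul_left _ (Nat.pow_le_pow_right hp0 (by omega))
  have hOk := KF_ok E' b φ Φ hΦ ν d E (fun i => res π ((ω i : 𝓞 K) : K)) hv W V e0 he0i k (Ls * k) r0 ρ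
    (C1 + C2) C1 C2 C' hk1 (Nat.le_add_right _ _) (Nat.le_add_left _ _) (fun j => KF_rich hNL (hE j))
    (fun j l => le_trans (by omega) (hd j l)) (fun j => (hν j).imp_left fun h1 => le_trans (by omega) h1)
    (h1C p (by omega) φ _ _ hds hαβ Φ hΦ) hTc act θ τ hacti hθa hθ0 hτ0 hVc hsml (h2C p (by omega))
  obtain ⟨Q, hQd⟩ : ∃ Q, Q = p ^ Fintype.card (IxM ι M ν d × Fin e) := ⟨_, rfl⟩
  have hQ0 : 0 < Q := by
    rw [hQd]
    exact pow_pos hp0 _
  have hQc : Nat.card (IxM ι M ν d × Fin e → ZMod p) = Q := by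
    rw [Nat.card_fun, Nat.card_eq_fintype_card (α := ZMod p), ZMod.card, Nat.card_eq_fintype_card, hQd]
  obtain ⟨Bad, hBad⟩ : ∃ Bad : (IxM ι M ν d × Fin e → ZMod p) → Prop, Bad = fun a => ∃ T,
      (KF_S E' b φ Φ ν d E (fun i => res π ((ω i : 𝓞 K) : K)) W V e0 θ τ).Tk k
        (fun l => Additive.ofMul (Units.mk0 (em p (u (Fin.castAdd (w + s) l))) (hu' l)), Z) T ∧
      (KF_S E' b φ Φ ν d E (fun i => res π ((ω i : 𝓞 K) : K)) W V e0 θ τ).Ev T a := ⟨_, rfl⟩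
  have hS : pr Bad ≤ 1 - κ1 := by
    rw [hBad]
    refine hsys' p (by omega) _ _ _ s1 _ (n + (h + g) + W.card) (n + (h + g) + r0 + W.card) ρ ?_ hOk ?_ ?_ _
    · show (univ.filter (fun j => e0 j ∈ V)).card ≤ s
      rw [hVc]
      omega
    · show k * (n + (h + g) + r0 + W.card + (univ.filter (fun j => e0 j ∈ V)).card) + ρ =
        n + (h + g) + W.card + (univ.filter (fun j => e0 j ∈ V)).card + k * (s1 + 1)
      rw [hVc]
      exact hEq
    · show s1 + 2 ≤ n + (h + g) + r0 + W.card + (univ.filter (fun j => e0 j ∈ V)).card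
      rw [hVc]
      omega
  unfold pr at hS
  rw [hQc, div_le_iff₀ (by exact_mod_cast hQ0)] at hS
  have hle := KF_un (RDG k W V R A' B' E' b ν d E (⇑ω) ζ p π u z) {a | Bad a}
    {a | a ∈ RDG k W V R A' B' E' b ν d E (⇑ω) ζ p π u z ∧ ¬ Bad a}
    (fun a ha => or_iff_not_imp_left.2 fun h1 => ⟨ha, h1⟩)
  have hmain := KF_union (p := p) (C := C3) (Q := Q)
    {a | a ∈ RDG k W V R A' B' E' b ν d E (⇑ω) ζ p π u z ∧ ¬ Bad a}
    (fun v : (r : Fin (k + 1)) × ((Fin (r : ℕ) → Fin (k + 1)) × (Fin (r : ℕ) → Fin (k + 1))) =>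
      {a : IxM ι M ν d × Fin e → ZMod p | (1 ≤ (v.1 : ℕ) ∧ (∀ j, 1 ≤ (v.2.1 j : ℕ) ∧ 1 ≤ (v.2.2 j : ℕ)) ∧ ∑ j, (v.2.2 j : ℕ) * (v.2.1 j : ℕ) ≤ k ∧
        ∑ j, (v.2.1 j : ℕ) ≤ k1) ∧
        ∃ (x0 : {f : {i // i ∈ W} ⊕ {j // j ∈ V} → (ZMod p)ˣ // ∃ l : Fin (h + g) ⊕ Unit → (ZMod p)ˣ, f = VU.ch cV l})
          (x : Fin (v.1 : ℕ) → Xp p n M (fun l => res π (aA (⇑ω) A' ζ l)) (fun l => res π (aB (⇑ω) B' ζ l))),
          Pat Φ (fun j => (v.2.1 j : ℕ)) (fun j => (v.2.2 j : ℕ)) (fun l => u (Fin.castAdd (w + s) l)) Z x ∧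
      Function.Injective (fun i : (j : Fin (v.1 : ℕ)) × Fin (v.2.1 j : ℕ) => (stp Φ)^[(i.2 : ℕ)] (x i.1)) ∧
      (∀ i ∉ W, ∀ j, sM E' (fun x => em p (φ (b x))) (x j).1 (fun l => opP ((x j).2.1 (Fin.castAdd g l)))
        (x j).2.2 i = 0) ∧
      (∀ i ∈ W, ∏ j, (∏ i' ∈ range (v.2.1 j : ℕ), sM E' (fun x => em p (φ (b x))) (x j).1
        (fun l => opP ((x j).2.1 (Fin.castAdd g l))) (x j).2.2 i ^ p ^ i') ^ (v.2.2 j : ℕ) = em p (θ x0 i)) ∧
      (∀ j ∉ V, j ∉ R → ∀ i, sM E (fun x => em p (∑ i, a (x, i) * res π ((ω i : 𝓞 K) : K))) (x i).1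
        (fun l => opP ((x i).2.1 l)) (x i).2.2 j = 0) ∧
      ∀ j ∈ V, ∏ i, (∏ i' ∈ range (v.2.1 i : ℕ), sM E (fun x => em p (∑ i, a (x, i) * res π ((ω i : 𝓞 K) : K))) (x i).1
        (fun l => opP ((x i).2.1 l)) (x i).2.2 j ^ p ^ i') ^ (v.2.2 i : ℕ) = em p (τ x0 j)}) ?_ ?_
  · rw [← hNkd] at hmain
    obtain ⟨N1, hN1⟩ : ∃ N1, N1 = Nat.card (RDG k W V R A' B' E' b ν d E (⇑ω) ζ p π u z) := ⟨_, rfl⟩
    obtain ⟨N2, hN2⟩ : ∃ N2, N2 = Nat.card {a | a ∈ RDG k W V R A' B' E' b ν d E (⇑ω) ζ p π u z ∧ ¬ Bad a} := ⟨_, rfl⟩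
    rw [← hN2] at hmain hle
    rw [← hN1] at hle ⊢
    have hQr : (p : ℝ) ^ Fintype.card (IxM ι M ν d × Fin e) = (Q : ℝ) := by
      rw [hQd]
      push_cast
      rfl
    rw [hQr]
    have h7 : (N2 : ℝ) * p ≤ ((Nk * C3 : ℕ) : ℝ) * Q := by exact_mod_cast hmain
    have h8 : 2 * ((Nk * C3 : ℕ) : ℝ) ≤ κ1 * p := by
      rw [div_le_iff₀ hκ0] at hp5
      have h9 : (p5 : ℝ) ≤ p := by exact_mod_cast (by omega : p5 ≤ p)
      nlinarith
    have hpr : (0 : ℝ) < p := by exact_mod_cast hp0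
    have hQr0 : (0 : ℝ) < Q := by exact_mod_cast hQ0
    have h10 : (N2 : ℝ) ≤ κ1 / 2 * Q := by
      refine le_of_mul_le_mul_right ?_ hpr
      nlinarith
    have h11 : (N1 : ℝ) ≤ (1 - κ1) * Q + N2 := by
      refine le_trans (Nat.cast_le.2 hle) ?_
      rw [Nat.cast_add]
      exact add_le_add hS le_rfl
    linarith
  · intro a ha
    obtain ⟨ha, hno⟩ := ha
    obtain ⟨_, _, c0, t0, hc0, ht0, hT⟩ := ha
    have hvalθ : ∀ i, i ∈ W → em p (c0 ^ δ i * (∏ l : Fin h, t0 (Fin.castAdd g l) ^ d' i l) *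
        u (Fin.natAdd n (Fin.castAdd s i))) = em p (θ ⟨VU.ch cV (Sum.elim (fun i => Units.mk0 (t0 i) (ht0 i))
          (fun _ => Units.mk0 c0 hc0)), _, rfl⟩ i) := by
      intro i hi
      rw [hθ _ i hi]
      congr 1
      have h9 := KF_ch t0 ht0 c0 hc0 (Fin.append (d' i) (0 : Fin g → ℕ)) (δ i)
      have h10 : (((VU.ch cV (Sum.elim (fun i => Units.mk0 (t0 i) (ht0 i)) (fun _ => Units.mk0 c0 hc0)) (Sum.inl ⟨i, hi⟩) :
          (ZMod p)ˣ)) : ZMod p) = (∏ l, t0 l ^ (Fin.append (d' i) (0 : Fin g → ℕ)) l) * c0 ^ δ i := by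
        rw [← h9]
        unfold VU.ch
        rw [hcl]
      rw [h10, Fin.prod_univ_add]
      simp only [Fin.append_left, Fin.append_right, Pi.zero_apply, pow_zero, Finset.prod_const_one, mul_one]
      ring
    have hvalτ : ∀ j, j ∈ V → em p (c0 ^ ν j * (∏ l, t0 l ^ d j l) * u (Fin.natAdd n (Fin.natAdd w j))) =
        em p (τ ⟨VU.ch cV (Sum.elim (fun i => Units.mk0 (t0 i) (ht0 i)) (fun _ => Units.mk0 c0 hc0)), _, rfl⟩ j) := by
      intro j hj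
      rw [hτ _ j hj]
      congr 1
      have h9 := KF_ch t0 ht0 c0 hc0 (d j) (ν j)
      have h10 : (((VU.ch cV (Sum.elim (fun i => Units.mk0 (t0 i) (ht0 i)) (fun _ => Units.mk0 c0 hc0)) (Sum.inr ⟨j, hj⟩) :
          (ZMod p)ˣ)) : ZMod p) = (∏ i, t0 i ^ d j i) * c0 ^ ν j := by
        rw [← h9]
        unfold VU.ch
        rw [hcr]
      rw [h10]
      ring
    rcases KF_tup W V R Φ hΦ (fun l => u (Fin.castAdd (w + s) l)) z Z
      hZ' _ (fun t P y i => sM_fr E' (fun x => res π ((b x : 𝓞 K) : K)) t (fun l => P (Fin.castAdd g l)) y i) _ _ _ _ hT with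
      ⟨x, hxi, ⟨σ, hσ⟩, h1, h2, h3, h4, h5, h5', h6, h7⟩ | ⟨r, c, μ, hr, hcμ, hdeg, hlt, x, hPat, hinj, hQ, hQW, hW', hVV⟩
    · refine absurd ?_ hno
      rw [hBad]
      refine KF_T E' b φ Φ ν d E (fun i => res π ((ω i : 𝓞 K) : K)) W V R e0 he0 θ τ hθ0
        (fun l => u (Fin.castAdd (w + s) l)) hu' Z a x hxi σ hσ h1 h2 h3 h4
        ⟨VU.ch cV (Sum.elim (fun i => Units.mk0 (t0 i) (ht0 i)) (fun _ => Units.mk0 c0 hc0)), _, rfl⟩ ?_ ?_ h6 ?_
      · intro j hj i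
        have h8 := h5 j hj i
        simp only [hφ]
        exact h8
      · intro j hj
        simp only [hφ]
        exact (h5' j hj).trans (hvalθ j hj)
      · intro j hj
        exact (h7 j hj).trans (hvalτ j hj)
    have hc : ∀ j, c j ≤ k := by
      intro j
      refine le_trans ?_ ((Finset.single_le_sum (f := fun j => μ j * c j) (fun _ _ => Nat.zero_le _) (Finset.mem_univ j)).trans hdeg)
      exact Nat.le_mul_of_pos_left _ (hcμ j).2
    have hμ : ∀ j, μ j ≤ k := by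
      intro j
      refine le_trans ?_ ((Finset.single_le_sum (f := fun j => μ j * c j) (fun _ _ => Nat.zero_le _) (Finset.mem_univ j)).trans hdeg)
      exact Nat.le_mul_of_pos_right _ (hcμ j).1
    have hrk : r ≤ k := by
      refine le_trans ?_ hdeg
      calc r = ∑ _j : Fin r, 1 := by rw [Finset.sum_const, Finset.card_univ, Fintype.card_fin, smul_eq_mul, mul_one]
        _ ≤ ∑ j, μ j * c j := Finset.sum_le_sum fun j _ => Nat.mul_pos (hcμ j).2 (hcμ j).1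
    refine ⟨⟨⟨r, Nat.lt_succ_of_le hrk⟩, (fun j => ⟨c j, Nat.lt_succ_of_le (hc j)⟩, fun j => ⟨μ j, Nat.lt_succ_of_le (hμ j)⟩)⟩,
      ⟨hr, hcμ, hdeg, ?_⟩, ⟨VU.ch cV (Sum.elim (fun i => Units.mk0 (t0 i) (ht0 i)) (fun _ => Units.mk0 c0 hc0)), _, rfl⟩,
      x, hPat, hinj, ?_, ?_, hW', ?_⟩
    · show ∑ j, c j ≤ k1
      omega
    · intro i hi j
      have h8 := hQ i hi j
      simp only [hφ]
      exact h8
    · intro i hi
      simp only [hφ]
      exact (hQW i hi).trans (hvalθ i hi)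
    · intro j hj
      exact (hVV j hj).trans (hvalτ j hj)
  · intro v
    by_cases hw : 1 ≤ (v.1 : ℕ) ∧ (∀ j, 1 ≤ (v.2.1 j : ℕ) ∧ 1 ≤ (v.2.2 j : ℕ)) ∧ ∑ j, (v.2.2 j : ℕ) * (v.2.1 j : ℕ) ≤ k ∧
        ∑ j, (v.2.1 j : ℕ) ≤ k1
    · rw [hQd]
      refine le_trans (Nat.mul_le_mul_right _ ?_) (hpat (v.1 : ℕ) (fun j => (v.2.1 j : ℕ)) (fun j => (v.2.2 j : ℕ)) hw.1
        hw.2.1 hw.2.2.1 hw.2.2.2)
      refine Nat.card_le_card_of_injective (fun a => ⟨a.1, a.2.2⟩) ?_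
      intro a a' haa
      have h9 := congrArg Subtype.val haa
      exact Subtype.ext h9
    · refine le_trans (le_of_eq ?_) (Nat.zero_le _)
      rw [mul_eq_zero]
      left
      rw [Nat.card_eq_zero]
      left
      exact ⟨fun a => hw a.2.1⟩

end DP
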