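import Pool.Agent.Lib.MP_17a322_ntDP.Defs3

/-!
# LEAF NF: norm forms

PROOF.  `G = ∏ i, ∑ a, C (σ i (u a)) * X a` in `MvPolynomial (Fin (M + 1)) N`.  Every `φ : N ≃ₐ[K] N` permutes the factors (`φ ∘ σ i = σ (τ i)`), so the coefficients of `G` are fixed by the Galois group and lie in `K` (`IsGalois.mem_bot_iff_fixed` or `IsGalois.tfae`): `G = map (algebraMap K N) G0`; `G ≠ 0` (each factor is `≠ 0`, a domain), so the vector `γ ↦ G0.coeff γ` on the support is `≠ 0`, and `hS` gives `c ≠ 0` with `⨆ γ, v (c * G0.coeff γ) = 1` for all `v ∉ S`.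
Let `v, F, Λ, c'` be as in `Nf`.  The linear forms `∑ a, c' i * σ i (u a) X a` have coefficients in `Λ.V` and residues not all `0`, so the product `(∏ c' i) G` has coefficients in `Λ.V` and its reduction, the product of the reductions, is `≠ 0` (`MvPolynomial` over the field `F` is a domain; work with polynomials over the ring `Λ.V` and `MvPolynomial.map Λ.ρ`).  So all `(∏ c' i) * G.coeff γ ∈ Λ.V` and one of them has residue `≠ 0`.  The numbers `c * G0.coeff γ` have `v ≤ 1`, one has `v = 1`: their images are in `Λ.V` and one of them is a unit `ε = c * G0.coeff γ1`, `ε⁻¹ ∈ Λ.V`.  `e = (∏ c' i) / c = ((∏ c' i) * G.coeff γ1) * ε⁻¹ ∈ Λ.V`, and for `γ2` with `(∏ c' i) * G.coeff γ2 = e * (c * G0.coeff γ2)` of residue `≠ 0`: `rf e ≠ 0`.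
-/

set_option autoImplicit false

namespace DP

open Finset NumberField LVH VK FB

private theorem NF_mul {K F : Type} [Field K] [Field F] {π : PF K F} {x y : K} {a b : F} (hx : Rf π x a) (hy : Rf π y b) :
    Rf π (x * y) (a * b) := by
  obtain ⟨h1, rfl⟩ := hx
  obtain ⟨h2, rfl⟩ := hy
  exact ⟨π.V.mul_mem _ _ h1 h2, map_mul π.ρ ⟨x, h1⟩ ⟨y, h2⟩⟩

private theorem NF_zero {K F : Type} [Field K] [Field F] {π : PF K F} : Rf π (0 : K) 0 :=
  ⟨π.V.zero_mem, map_zero π.ρ⟩

private theorem NF_unique {K F : Type} [Field K] [Field F] {π : PF K F} {x : K} {a b : F} (h : Rf π x a)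
    (h' : Rf π x b) : a = b := by
  obtain ⟨h1, rfl⟩ := h
  obtain ⟨h2, rfl⟩ := h'
  rfl

private theorem NF_res {K F : Type} [Field K] [Field F] {π : PF K F} {x : K} (h : x ∈ π.V) : Rf π x (rf π x) := by
  unfold rf
  rw [dif_pos h]
  exact ⟨h, rfl⟩

/-- a linear form -/
private noncomputable def NF_lin {R : Type} [CommRing R] {M : ℕ} (a : Fin (M + 1) → R) : MvPolynomial (Fin (M + 1)) R :=
  ∑ i, MvPolynomial.C (a i) * MvPolynomial.X i

private theorem NF_map {R R' : Type} [CommRing R] [CommRing R'] (f : R →+* R') {M : ℕ} (a : Fin (M + 1) → R) :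
    MvPolynomial.map f (NF_lin a) = NF_lin fun i => f (a i) := by
  unfold NF_lin
  rw [map_sum]
  refine Finset.sum_congr rfl fun i _ => ?_
  rw [map_mul, MvPolynomial.map_C, MvPolynomial.map_X]

private theorem NF_smul {R : Type} [CommRing R] {M : ℕ} (c : R) (a : Fin (M + 1) → R) :
    NF_lin (fun i => c * a i) = MvPolynomial.C c * NF_lin a := by
  unfold NF_lin
  rw [Finset.mul_sum]
  refine Finset.sum_congr rfl fun i _ => ?_
  rw [map_mul, mul_assoc]

private theorem NF_coeff {R : Type} [CommRing R] {M : ℕ} (a : Fin (M + 1) → R) (j : Fin (M + 1)) :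
    MvPolynomial.coeff (Finsupp.single j 1) (NF_lin a) = a j := by
  classical
  unfold NF_lin
  rw [MvPolynomial.coeff_sum, Finset.sum_eq_single j]
  · rw [MvPolynomial.coeff_C_mul, MvPolynomial.coeff_X, if_pos rfl, mul_one]
  · intro i _ hi
    rw [MvPolynomial.coeff_C_mul, MvPolynomial.coeff_X, if_neg, mul_zero]
    intro h
    exact hi (Finsupp.single_left_injective one_ne_zero h)
  · intro h
    exact absurd (Finset.mem_univ j) h

private theorem NF_ne {R : Type} [CommRing R] {M : ℕ} (a : Fin (M + 1) → R) {j : Fin (M + 1)} (h : a j ≠ 0) :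
    NF_lin a ≠ 0 := by
  intro h0
  apply h
  rw [← NF_coeff a j, h0, MvPolynomial.coeff_zero]

/-- an automorphism permutes the embeddings -/
private theorem NF_perm {K L N : Type} [Field K] [Field L] [Field N] [Algebra K L] [Algebra K N] {m : ℕ}
    (e : Fin m ≃ (L →ₐ[K] N)) (φ : N ≃ₐ[K] N) : ∃ τ : Equiv.Perm (Fin m), ∀ i y, φ (e i y) = e (τ i) y := by
  let f : (L →ₐ[K] N) ≃ (L →ₐ[K] N) :=
    { toFun := fun g => (φ : N →ₐ[K] N).comp g
      invFun := fun g => (φ.symm : N →ₐ[K] N).comp g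
      left_inv := fun g => AlgHom.ext fun y => φ.symm_apply_apply (g y)
      right_inv := fun g => AlgHom.ext fun y => φ.apply_symm_apply (g y) }
  refine ⟨(e.trans f).trans e.symm, fun i y => ?_⟩
  show φ (e i y) = e (e.symm (f (e i))) y
  rw [Equiv.apply_symm_apply]
  rfl

/-- the coefficients of the norm form are in the base field -/
private theorem NF_fix {K L N : Type} [Field K] [NumberField K] [Field L] [NumberField L] [Field N] [NumberField N]
    [Algebra K L] [Algebra K N] [IsGalois K N] {m : ℕ} (σ : Fin m ≃ (L →ₐ[K] N)) {M : ℕ} (u : Fin (M + 1) → L)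
    (γ : Fin (M + 1) →₀ ℕ) :
    ∃ b : K, algebraMap K N b = MvPolynomial.coeff γ (∏ i, NF_lin fun a => σ i (u a)) := by
  have h := (IsGalois.mem_range_algebraMap_iff_fixed (F := K) (E := N)
    (MvPolynomial.coeff γ (∏ i, NF_lin fun a => σ i (u a)))).2 fun φ => by
      obtain ⟨τ, hτ⟩ := NF_perm σ φ
      have h1 : MvPolynomial.map (φ : N →+* N) (∏ i, NF_lin fun a => σ i (u a)) = ∏ i, NF_lin fun a => σ i (u a) := by
        rw [map_prod]
        rw [← Equiv.prod_comp τ fun i => NF_lin fun a => σ i (u a)]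
        refine Finset.prod_congr rfl fun i _ => ?_
        rw [NF_map]
        congr 1
        funext a
        exact hτ i (u a)
      have h2 := congrArg (MvPolynomial.coeff γ) h1
      rw [MvPolynomial.coeff_map] at h2
      exact h2
  exact h

theorem norm_form {K L N : Type} [Field K] [NumberField K] [Field L] [NumberField L] [Field N] [NumberField N]
    [Algebra K L] [Algebra K N] [IsGalois K N] (S : Finset (FinitePlace K))
    (hS : ∀ (ι : Type) [Fintype ι] (x : ι → K), x ≠ 0 → ∃ l : K, l ≠ 0 ∧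
      ∀ v : FinitePlace K, v ∉ S → (⨆ i, v (l * x i)) = 1)
    (σ : Fin (Module.finrank K L) ≃ (L →ₐ[K] N)) {M : ℕ} (u : Fin (M + 1) → L) (hu : u ≠ 0) :
    ∃ c : K, c ≠ 0 ∧ Nf S σ u c := by
  classical
  set G : MvPolynomial (Fin (M + 1)) N := ∏ i, NF_lin fun a => σ i (u a) with hG
  choose g hg using fun γ => NF_fix σ u γ
  obtain ⟨a0, ha0⟩ : ∃ a, u a ≠ 0 := by
    by_contra h
    push Not at h
    exact hu (funext h)
  have hG0 : G ≠ 0 := by
    rw [hG, Finset.prod_ne_zero_iff]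
    intro i _
    exact NF_ne _ (j := a0) ((map_ne_zero (σ i)).2 ha0)
  obtain ⟨γ0, hγ0⟩ := MvPolynomial.ne_zero_iff.1 hG0
  have hg0 : (fun γ : {γ // γ ∈ G.support} => g γ) ≠ 0 := by
    intro h
    have h1 := congrFun h ⟨γ0, MvPolynomial.mem_support_iff.2 hγ0⟩
    apply hγ0
    rw [← hg γ0]
    have h2 : g γ0 = 0 := h1
    rw [h2, map_zero]
  obtain ⟨c, hc, hcv⟩ := hS {γ // γ ∈ G.support} (fun γ => g γ) hg0
  refine ⟨c, hc, ?_⟩
  intro v hv F _ Λ hΛ c' hc'
  have hsup := hcv v hv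
  have : Nonempty {γ // γ ∈ G.support} := ⟨⟨γ0, MvPolynomial.mem_support_iff.2 hγ0⟩⟩
  have hle : ∀ γ : {γ // γ ∈ G.support}, v (c * g γ) ≤ 1 := by
    intro γ
    rw [← hsup]
    exact le_ciSup (f := fun γ : {γ // γ ∈ G.support} => v (c * g γ.1))
      (Set.finite_range (fun γ : {γ // γ ∈ G.support} => v (c * g γ.1))).bddAbove γ
  obtain ⟨γ1, hγ1⟩ := Finite.exists_max (α := {γ // γ ∈ G.support}) (fun γ : {γ // γ ∈ G.support} => v (c * g γ.1))
  have hγ1' : v (c * g γ1) = 1 := le_antisymm (hle γ1) (hsup ▸ ciSup_le hγ1)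
  -- the product of the integral linear forms
  let ℓ : Fin (Module.finrank K L) → Fin (M + 1) → Λ.V := fun i a => ⟨c' i * σ i (u a), (hc' i).1 a⟩
  set P : MvPolynomial (Fin (M + 1)) Λ.V := ∏ i, NF_lin (ℓ i) with hP
  have hP1 : MvPolynomial.map Λ.V.subtype P = MvPolynomial.C (∏ i, c' i) * G := by
    rw [hP, map_prod, hG, map_prod, ← Finset.prod_mul_distrib]
    refine Finset.prod_congr rfl fun i _ => ?_
    rw [NF_map, ← NF_smul]
    rfl
  have hPc : ∀ γ, ((MvPolynomial.coeff γ P : Λ.V) : N) = (∏ i, c' i) * algebraMap K N (g γ) := by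
    intro γ
    have h1 := congrArg (MvPolynomial.coeff γ) hP1
    rw [MvPolynomial.coeff_map, MvPolynomial.coeff_C_mul, ← hg γ] at h1
    exact h1
  have hP2 : MvPolynomial.map Λ.ρ P ≠ 0 := by
    rw [hP, map_prod, Finset.prod_ne_zero_iff]
    intro i _
    obtain ⟨a, ha⟩ := (hc' i).2
    rw [NF_map]
    refine NF_ne _ (j := a) ?_
    intro h0
    apply ha
    have h1 : Rf Λ (c' i * σ i (u a)) (Λ.ρ (ℓ i a)) := ⟨(hc' i).1 a, rfl⟩
    rw [NF_unique (NF_res ((hc' i).1 a)) h1]
    exact h0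
  obtain ⟨γ2, hγ2⟩ := MvPolynomial.ne_zero_iff.1 hP2
  rw [MvPolynomial.coeff_map] at hγ2
  have hR : Rf Λ ((∏ i, c' i) * algebraMap K N (g γ2)) (Λ.ρ (MvPolynomial.coeff γ2 P)) := by
    rw [← hPc γ2]
    exact ⟨(MvPolynomial.coeff γ2 P).2, rfl⟩
  have hg2 : g γ2 ≠ 0 := by
    intro h0
    apply hγ2
    rw [h0, map_zero, mul_zero] at hR
    exact NF_unique hR NF_zero
  have hγ2s : γ2 ∈ G.support := by
    rw [MvPolynomial.mem_support_iff, ← hg γ2]
    exact (map_ne_zero _).2 hg2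
  have hc2 : algebraMap K N (c * g γ2) ∈ Λ.V := (hΛ _).2 (hle ⟨γ2, hγ2s⟩)
  have hcN : algebraMap K N c ≠ 0 := (map_ne_zero _).2 hc
  have he : (∏ i, c' i) / algebraMap K N c ∈ Λ.V := by
    have h1 : algebraMap K N (c * g γ1)⁻¹ ∈ Λ.V := by
      rw [hΛ, map_inv₀, hγ1', inv_one]
    have h2 : (∏ i, c' i) * algebraMap K N (g γ1) ∈ Λ.V := by
      rw [← hPc γ1]
      exact (MvPolynomial.coeff γ1 P).2
    have hg1 : g γ1 ≠ 0 := by
      intro h0
      rw [h0, mul_zero, map_zero] at hγ1'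
      exact zero_ne_one hγ1'
    have h3 : (∏ i, c' i) / algebraMap K N c =
        (∏ i, c' i) * algebraMap K N (g γ1) * algebraMap K N (c * g γ1)⁻¹ := by
      have h4 : algebraMap K N (g γ1) ≠ 0 := (map_ne_zero _).2 hg1
      rw [map_inv₀, map_mul]
      field_simp
    rw [h3]
    exact Λ.V.mul_mem _ _ h2 h1
  refine ⟨he, fun h0 => hγ2 ?_⟩
  have h1 := NF_mul (NF_res he) (NF_res hc2)
  rw [h0, zero_mul] at h1
  have h2 : (∏ i, c' i) / algebraMap K N c * algebraMap K N (c * g γ2) = (∏ i, c' i) * algebraMap K N (g γ2) := by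
    rw [map_mul]
    field_simp
  rw [h2] at h1
  exact NF_unique hR h1

end DP
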