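import Pool.Agent.Lib.MP_17a322_ntDP.NA
import Pool.Agent.Lib.MP_17a322_ntDP.GG
import Pool.Agent.Lib.MP_17a322_ntDP.GH

/-!
# LEAF NU: the norms of the values of the sections are units

PROOF.  `sup_w`: at a place `Λ` of `N` with `σ' x ∈ Λ.V ↔ w x ≤ 1` (`σ' : L →ₐ[K] N`, `w` a finite place of `L`): `c' * σ' (u a) ∈ Λ.V` for all `a` with one residue `≠ 0` implies for `f : L` with `w f = (⨆ a, w (u a)) ^ ν`: `c' ^ ν * σ' f` is a unit at `Λ`.  Proof: choose `a1` with `w (u a1) = ⨆ a, w (u a)` (`exists_eq_ciSup_of_finite`; `≠ 0`); `c' * σ' (u a1)` is a unit: it is in `Λ.V`, and if `c' * σ' (u a2)` is the unit then `σ' (u a2 / u a1) ∈ Λ.V` (`w ≤ 1`), so the inverse of `c' * σ' (u a1)` is `σ' (u a2 / u a1) / (c' * σ' (u a2)) ∈ Λ.V`.  And `w (f / u a1 ^ ν) = 1`, so `σ' (f / u a1 ^ ν)` is a unit; multiply.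
`unit_V`.  Let `v ∉ S1 ∪ S`; `F, Λ, p` from `ex_above v` (for `N`).  For every `i` `w i` from `ex_below (σ i) Λ`; `Off S (w i)` by `off_of` (`w i (algebraMap a) ≤ 1 ↔ algebraMap a ∈ Λ.V ↔ v a ≤ 1`).  `c' i` for `u` from `nr_ex Λ` (leaf GH) applied to `σ i ∘ u`; `r i l` for the vector `![1, X l]`, `X l = (P l).elim 0 Prod.fst`: `r i l = 1` if `σ i (X l) ∈ Λ.V` and `(σ i (X l))⁻¹` otherwise.  `w i f = lf (w i) ν d P u = (⨆ a, w i (u a)) ^ ν * ∏ l, max 1 (w i (X l)) ^ d l`, so `c' i ^ ν * (∏ l, r i l ^ d l) * σ i f` is a unit at `Λ` (as in `sup_w`: `r i l * σ i (X l or 1)` is a unit for the larger one).  The product over `i` is `(∏ c' i) ^ ν * (∏ l, (∏ i, r i l) ^ d l) * algebraMap (norm f)` (`norm_prod`), a unit at `Λ`; dividing by `((∏ c' i) / c) ^ ν` and `((∏ i, r i l) / s l) ^ d l` (units at `Λ` by `hc`, `hs`, `Nf`): `algebraMap (c ^ ν * (∏ l, s l ^ d l) * norm f)` is a unit at `Λ`: it and its inverse are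 in `Λ.V`, so `v = 1`.
`unit_x`: the same for `x` with `w x = 1` for all `w` with `Off S w`.
-/

set_option autoImplicit false

namespace DP

open Finset NumberField LVH VK FB

private theorem NU_val {N : Type} [Field N] (A : ValuationSubring N) {x : N} (h0 : x ≠ 0) (h1 : x ∈ A) (h2 : x⁻¹ ∈ A) :
    A.valuation x = 1 := by
  have h3 := (A.valuation_le_one_iff x).2 h1
  have h4 := (A.valuation_le_one_iff x⁻¹).2 h2
  rw [map_inv₀] at h4
  exact le_antisymm h3 ((inv_le_one₀ (zero_lt_iff.2 ((map_ne_zero _).2 h0))).1 h4)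

private theorem NU_unit {N F : Type} [Field N] [Field F] (Λ : PF N F) {x : N} (h : x ∈ Λ.V) (h1 : rf Λ x ≠ 0) :
    Λ.V.valuation x = 1 := by
  have h3 := mt (res_zero Λ h).2 h1
  exact NU_val _ (fun h0 => h3 (Or.inl h0)) h (by_contra fun h0 => h3 (Or.inr h0))

private theorem NU_le {L N : Type} [Field L] [NumberField L] [Field N] (A : ValuationSubring N) (σ : L →+* N)
    {w : FinitePlace L} (hw : ∀ x : L, σ x ∈ A ↔ w x ≤ 1) {x y : L} (hy : y ≠ 0) (h : w x ≤ w y) :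
    A.valuation (σ x) ≤ A.valuation (σ y) := by
  have h1 : w (x / y) ≤ 1 := by
    rw [map_div₀]
    exact (div_le_one₀ (FinitePlace.pos_iff.2 hy)).2 h
  have h2 := (A.valuation_le_one_iff _).2 ((hw _).2 h1)
  rw [map_div₀, map_div₀] at h2
  exact (div_le_one₀ (zero_lt_iff.2 ((map_ne_zero _).2 ((map_ne_zero σ).2 hy)))).1 h2

private theorem NU_eqv {L N : Type} [Field L] [NumberField L] [Field N] (A : ValuationSubring N) (σ : L →+* N)
    {w : FinitePlace L} (hw : ∀ x : L, σ x ∈ A ↔ w x ≤ 1) {x y : L} (hy : y ≠ 0) (h : w x = w y) :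
    A.valuation (σ x) = A.valuation (σ y) := by
  have hx : x ≠ 0 := by
    rw [← FinitePlace.pos_iff (w := w), h]
    exact FinitePlace.pos_iff.2 hy
  exact le_antisymm (NU_le A σ hw hy h.le) (NU_le A σ hw hx h.ge)

private theorem NU_sup {L N F : Type} [Field L] [NumberField L] [Field N] [Field F] (Λ : PF N F) (σ : L →+* N)
    {w : FinitePlace L} (hw : ∀ x : L, σ x ∈ Λ.V ↔ w x ≤ 1) {M : ℕ} (u : Fin (M + 1) → L) (hu : u ≠ 0) {c' : N}
    (h1 : ∀ a, c' * σ (u a) ∈ Λ.V) (h2 : ∃ a, rf Λ (c' * σ (u a)) ≠ 0) :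
    ∃ g : L, g ≠ 0 ∧ w g = (⨆ a, w (u a)) ∧ Λ.V.valuation c' * Λ.V.valuation (σ g) = 1 := by
  obtain ⟨a1, ha1⟩ := exists_eq_ciSup_of_finite (f := fun a => w (u a))
  have hle : ∀ a, w (u a) ≤ w (u a1) := by
    intro a
    have h3 : w (u a1) = ⨆ a, w (u a) := ha1
    rw [h3]
    exact le_ciSup (f := fun a => w (u a)) (Set.finite_range _).bddAbove a
  have h0 : u a1 ≠ 0 := by
    intro h0
    apply hu
    funext a
    have h3 := hle a
    rw [h0, map_zero] at h3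
    by_contra h4
    exact absurd (FinitePlace.pos_iff.2 h4) (not_lt.2 h3)
  refine ⟨u a1, h0, ha1, le_antisymm ?_ ?_⟩
  · rw [← map_mul]
    exact (Λ.V.valuation_le_one_iff _).2 (h1 a1)
  · obtain ⟨a2, ha2⟩ := h2
    have h3 := NU_unit Λ (h1 a2) ha2
    rw [← h3, map_mul]
    exact mul_le_mul_right (NU_le Λ.V σ hw h0 (hle a2)) _

private theorem NU_two {L : Type} [Field L] [NumberField L] (w : FinitePlace L) (X : L) :
    (⨆ a, w ((![1, X] : Fin (1 + 1) → L) a)) = max 1 (w X) := by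
  refine le_antisymm (ciSup_le fun a => ?_) (max_le ?_ ?_)
  · fin_cases a
    · show w 1 ≤ _
      rw [map_one]
      exact le_max_left _ _
    · show w X ≤ _
      exact le_max_right _ _
  · have h1 := le_ciSup (f := fun a => w ((![1, X] : Fin (1 + 1) → L) a)) (Set.finite_range _).bddAbove 0
    have h2 : w ((![1, X] : Fin (1 + 1) → L) 0) = 1 := by
      show w 1 = 1
      exact map_one w
    exact h2.ge.trans h1
  · exact le_ciSup (f := fun a => w ((![1, X] : Fin (1 + 1) → L) a)) (Set.finite_range _).bddAbove 1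

private theorem NU_loc {L N F : Type} [Field L] [NumberField L] [Field N] [Field F] (Λ : PF N F) (σ : L →+* N)
    {w : FinitePlace L} (hw : ∀ x : L, σ x ∈ Λ.V ↔ w x ≤ 1) {M q : ℕ} (u : Fin (M + 1) → L) (hu : u ≠ 0) {c' : N}
    (h1 : ∀ a, c' * σ (u a) ∈ Λ.V) (h2 : ∃ a, rf Λ (c' * σ (u a)) ≠ 0) (P : Fin q → Option (L × L)) (r : Fin q → N)
    (h3 : ∀ l a, r l * σ ((![1, (P l).elim 0 Prod.fst] : Fin (1 + 1) → L) a) ∈ Λ.V)
    (h4 : ∀ l, ∃ a, rf Λ (r l * σ ((![1, (P l).elim 0 Prod.fst] : Fin (1 + 1) → L) a)) ≠ 0) (ν : ℕ) (d : Fin q → ℕ)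
    (f : L) (hf : w f = lf w ν d P u) :
    Λ.V.valuation c' ^ ν * (∏ l, Λ.V.valuation (r l) ^ d l) * Λ.V.valuation (σ f) = 1 := by
  obtain ⟨g, hg0, hg1, hg2⟩ := NU_sup Λ σ hw u hu h1 h2
  have h5 : ∀ l, ∃ g : L, g ≠ 0 ∧ w g = max 1 (w ((P l).elim 0 Prod.fst)) ∧ Λ.V.valuation (r l) * Λ.V.valuation (σ g) = 1 := by
    intro l
    obtain ⟨g', hg0', hg1', hg2'⟩ := NU_sup Λ σ hw (![1, (P l).elim 0 Prod.fst] : Fin (1 + 1) → L) (by
      intro h
      have h6 := congrFun h 0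
      exact one_ne_zero h6) (h3 l) (h4 l)
    exact ⟨g', hg0', hg1'.trans (NU_two w _), hg2'⟩
  choose g' hg0' hg1' hg2' using h5
  have h6 : w f = w (g ^ ν * ∏ l, g' l ^ d l) := by
    rw [hf, map_mul, map_pow, map_prod, hg1]
    unfold lf
    refine congrArg₂ (· * ·) rfl (Finset.prod_congr rfl fun l _ => ?_)
    rw [map_pow, hg1']
  have h7 : g ^ ν * ∏ l, g' l ^ d l ≠ 0 :=
    mul_ne_zero (pow_ne_zero _ hg0) (Finset.prod_ne_zero_iff.2 fun l _ => pow_ne_zero _ (hg0' l))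
  rw [NU_eqv Λ.V σ hw h7 h6, map_mul, map_mul, map_pow, map_pow, map_prod, map_prod]
  have h8 : ∀ l, Λ.V.valuation (σ (g' l ^ d l)) = Λ.V.valuation (σ (g' l)) ^ d l := fun l => by
    rw [map_pow, map_pow]
  simp only [h8]
  rw [mul_mul_mul_comm, ← mul_pow, hg2, one_pow, one_mul, ← Finset.prod_mul_distrib]
  refine Finset.prod_eq_one fun l _ => ?_
  rw [← mul_pow, hg2', one_pow]

private theorem NU_nf {K L N : Type} [Field K] [NumberField K] [Field L] [NumberField L] [Field N] [NumberField N]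
    [Algebra K L] [Algebra K N] {S1 : Finset (FinitePlace K)} {σ : Fin (Module.finrank K L) ≃ (L →ₐ[K] N)} {M : ℕ}
    {u : Fin (M + 1) → L} {c : K} (hc0 : c ≠ 0) (hc : Nf S1 σ u c) {v : FinitePlace K} (hv : v ∉ S1) {F : Type} [Field F]
    (Λ : PF N F) (hΛ : ∀ x : K, algebraMap K N x ∈ Λ.V ↔ v x ≤ 1) (c' : Fin (Module.finrank K L) → N)
    (h : ∀ i, (∀ a, c' i * σ i (u a) ∈ Λ.V) ∧ ∃ a, rf Λ (c' i * σ i (u a)) ≠ 0) :
    ∏ i, Λ.V.valuation (c' i) = Λ.V.valuation (algebraMap K N c) := by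
  obtain ⟨h1, h2⟩ := hc v hv F Λ hΛ c' h
  have h3 := NU_unit Λ h1 h2
  rw [map_div₀, map_prod] at h3
  exact (div_eq_one_iff_eq ((map_ne_zero _).2 ((map_ne_zero _).2 hc0))).1 h3

private theorem NU_ex {L N F : Type} [Field L] [Field N] [Field F] (Λ : PF N F) (σ : L →+* N) {M : ℕ}
    (u : Fin (M + 1) → L) (hu : u ≠ 0) :
    ∃ c' : N, (∀ a, c' * σ (u a) ∈ Λ.V) ∧ ∃ a, rf Λ (c' * σ (u a)) ≠ 0 := by
  obtain ⟨y, c, -, hy, hR⟩ := nr_ex Λ (fun a => σ (u a)) (by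
    intro h
    apply hu
    funext a
    exact (map_eq_zero σ).1 (congrFun h a))
  refine ⟨c, fun a => (hR a).choose, ?_⟩
  obtain ⟨i, hi, -⟩ := hy
  refine ⟨i, ?_⟩
  rw [res_eq (hR i), hi]
  exact one_ne_zero

private theorem NU_fin {K N F : Type} [Field K] [NumberField K] [Field N] [Field F] [Algebra K N] (Λ : PF N F)
    {v : FinitePlace K} (hΛ : ∀ x : K, algebraMap K N x ∈ Λ.V ↔ v x ≤ 1) {z : K}
    (h : Λ.V.valuation (algebraMap K N z) = 1) : v z = 1 := by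
  have hz : z ≠ 0 := by
    intro h0
    rw [h0, map_zero, map_zero] at h
    exact zero_ne_one h
  have h1 : v z ≤ 1 := (hΛ z).1 ((Λ.V.valuation_le_one_iff _).1 h.le)
  have h2 : v z⁻¹ ≤ 1 := by
    refine (hΛ _).1 ((Λ.V.valuation_le_one_iff _).1 ?_)
    rw [map_inv₀, map_inv₀, h, inv_one]
  rw [map_inv₀] at h2
  exact le_antisymm h1 ((inv_le_one₀ (FinitePlace.pos_iff.2 hz)).1 h2)

theorem unit_V {K L N : Type} [Field K] [NumberField K] [Field L] [NumberField L] [Field N] [NumberField N]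
    [Algebra K L] [Algebra K N] [IsGalois K N] {S1 S : Finset (FinitePlace K)} [DecidableEq (FinitePlace K)]
    (σ : Fin (Module.finrank K L) ≃ (L →ₐ[K] N)) {M q : ℕ} (u : Fin (M + 1) → L) (hu : u ≠ 0)
    (P : Fin q → Option (L × L)) (c : K) (hc0 : c ≠ 0) (hc : Nf S1 σ u c) (s : Fin q → K) (hs0 : ∀ l, s l ≠ 0)
    (hs : ∀ l, Nf S1 σ ![1, (P l).elim 0 Prod.fst] (s l)) (ν : ℕ) (d : Fin q → ℕ) (f : L)
    (hf : ∀ w : FinitePlace L, Off S w → w f = lf w ν d P u) (v : FinitePlace K) (hv : v ∉ S1 ∪ S) :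
    v (c ^ ν * (∏ l, s l ^ d l) * Algebra.norm K f) = 1 := by
  rw [Finset.mem_union, not_or] at hv
  obtain ⟨F, _, Λ, p, hp, hpF, hΛ⟩ := ex_above (N := N) v
  choose w hw using fun i => ex_below ((σ i : L →ₐ[K] N) : L →+* N) Λ hp hpF
  have hoff : ∀ i, Off S (w i) := by
    intro i
    refine off_of hv.2 fun a => ?_
    rw [← hw i, ← hΛ]
    have h1 : ((σ i : L →ₐ[K] N) : L →+* N) (algebraMap K L a) = algebraMap K N a := (σ i).commutes a
    rw [h1]
  choose c' hc' using fun i => NU_ex Λ ((σ i : L →ₐ[K] N) : L →+* N) u hu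
  choose r hr using fun i l => NU_ex Λ ((σ i : L →ₐ[K] N) : L →+* N) (![1, (P l).elim 0 Prod.fst] : Fin (1 + 1) → L) (by
      intro h
      have h6 := congrFun h 0
      exact one_ne_zero h6)
  have key : ∀ i, Λ.V.valuation (c' i) ^ ν * (∏ l, Λ.V.valuation (r i l) ^ d l) * Λ.V.valuation (σ i f) = 1 :=
    fun i => NU_loc Λ ((σ i : L →ₐ[K] N) : L →+* N) (hw i) u hu (hc' i).1 (hc' i).2 P (r i) (fun l => (hr i l).1)
      (fun l => (hr i l).2) ν d f (hf _ (hoff i))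
  have h1 := NU_nf hc0 hc hv.1 Λ hΛ c' hc'
  have h2 : ∀ l, ∏ i, Λ.V.valuation (r i l) = Λ.V.valuation (algebraMap K N (s l)) := fun l =>
    NU_nf (hs0 l) (hs l) hv.1 Λ hΛ (fun i => r i l) (fun i => hr i l)
  have h3 : ∏ i, (Λ.V.valuation (c' i) ^ ν * (∏ l, Λ.V.valuation (r i l) ^ d l) * Λ.V.valuation (σ i f)) = 1 :=
    Finset.prod_eq_one fun i _ => key i
  rw [Finset.prod_mul_distrib, Finset.prod_mul_distrib, Finset.prod_pow, h1, Finset.prod_comm, ← map_prod, norm_prod] at h3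
  have h4 : ∏ l, ∏ i, Λ.V.valuation (r i l) ^ d l = ∏ l, Λ.V.valuation (algebraMap K N (s l)) ^ d l := by
    refine Finset.prod_congr rfl fun l _ => ?_
    rw [Finset.prod_pow, h2]
  rw [h4] at h3
  refine NU_fin Λ hΛ ?_
  rw [map_mul, map_mul, map_mul, map_mul, map_pow, map_pow, map_prod, map_prod, ← h3]
  refine congrArg₂ (· * ·) (congrArg₂ (· * ·) rfl (Finset.prod_congr rfl fun l _ => ?_)) rfl
  rw [map_pow, map_pow]

theorem unit_x {K L N : Type} [Field K] [NumberField K] [Field L] [NumberField L] [Field N] [NumberField N]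
    [Algebra K L] [Algebra K N] [IsGalois K N] {S : Finset (FinitePlace K)}
    (σ : Fin (Module.finrank K L) ≃ (L →ₐ[K] N)) (x : L) (hx : ∀ w : FinitePlace L, Off S w → w x = 1)
    (v : FinitePlace K) (hv : v ∉ S) : v (Algebra.norm K x) = 1 := by
  obtain ⟨F, _, Λ, p, hp, hpF, hΛ⟩ := ex_above (N := N) v
  refine NU_fin Λ hΛ ?_
  rw [← norm_prod σ, map_prod]
  refine Finset.prod_eq_one fun i _ => ?_
  obtain ⟨w, hw⟩ := ex_below ((σ i : L →ₐ[K] N) : L →+* N) Λ hp hpF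
  have hoff : Off S w := by
    refine off_of hv fun a => ?_
    rw [← hw, ← hΛ]
    have h1 : ((σ i : L →ₐ[K] N) : L →+* N) (algebraMap K L a) = algebraMap K N a := (σ i).commutes a
    rw [h1]
  have h1 : w x = w 1 := by
    rw [hx w hoff, map_one]
  have h2 := NU_eqv Λ.V ((σ i : L →ₐ[K] N) : L →+* N) hw one_ne_zero h1
  rw [map_one, map_one] at h2
  exact h2

end DP
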