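import Pool.Agent.Lib.MP_17a322_ntVK.Stmt

/-!
# LEAF SA: products of sections on an elliptic curve

PROOF.  The section `u` is the pair of polynomials `pa = ∑ i, u (inl i) x ^ i` (degree `≤ d`), `pb = ∑ i, u (inr i) x ^ i` (degree `≤ d - 2`, zero if `d ≤ 1`); its value at `(x, y)` is `pa x + pb x * y`, its value at infinity the coefficient of `x ^ d` of `pa`.  The product: `pa'' = pa pa' + pb pb' (x ^ 3 + a x + b)`, `pb'' = pa pb' + pb pa'`; `natDegree pa'' ≤ d + d'`, `natDegree pb'' ≤ d + d' - 2` (and `pb'' = 0` if `d + d' ≤ 1`), and the coefficient of `x ^ (d + d')` of `pa''` is the product of the coefficients (`Polynomial.coeff_mul_of_natDegree_le`; `natDegree (pb pb' (x ^ 3 + a x + b)) < d + d'`, as `d, d' ≥ 2` if `pb, pb' ≠ 0`).  `w (inl i) = pa''.coeff i`, `w (inr i) = pb''.coeff i`; evaluation of a polynomial of degree `< n`: `Polynomial.eval_eq_sum_range'` and `Fin.sum_univ_eq_sum_range`.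
-/

set_option autoImplicit false

namespace DP

open Finset VK

private def SA_D {F : Type} [Field F] (p : Polynomial F) (n : ℕ) : Prop := p = 0 ∨ p.natDegree < n

private theorem SA_eval {F : Type} [Field F] {p : Polynomial F} {n : ℕ} (h : SA_D p n) (x : F) :
    p.eval x = ∑ i : Fin n, p.coeff i * x ^ (i : ℕ) := by
  rw [Fin.sum_univ_eq_sum_range (fun i => p.coeff i * x ^ i) n]
  rcases h with h | h
  · subst h
    simp
  · exact Polynomial.eval_eq_sum_range' h x

private theorem SA_exists {F : Type} [Field F] {n : ℕ} (f : Fin n → F) :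
    ∃ p : Polynomial F, SA_D p n ∧ ∀ i : Fin n, f i = p.coeff i := by
  classical
  refine ⟨∑ i : Fin n, Polynomial.C (f i) * Polynomial.X ^ (i : ℕ), ?_, ?_⟩
  · by_cases h : (∑ i : Fin n, Polynomial.C (f i) * Polynomial.X ^ (i : ℕ)) = 0
    · exact Or.inl h
    · exact Or.inr ((Polynomial.natDegree_lt_iff_degree_lt h).mpr (Polynomial.degree_sum_fin_lt f))
  · intro i
    rw [Polynomial.finsetSum_coeff]
    rw [Finset.sum_eq_single i]
    · rw [Polynomial.coeff_C_mul, Polynomial.coeff_X_pow, if_pos rfl, mul_one]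
    · intro j _ hj
      rw [Polynomial.coeff_C_mul, Polynomial.coeff_X_pow, if_neg, mul_zero]
      intro h
      exact hj (Fin.ext h.symm)
    · intro h
      exact absurd (Finset.mem_univ i) h

private theorem SA_none {F : Type} [Field F] (d : ℕ) (u : RamCov.Ix d → F) :
    ∑ k, u k * RamCov.bas F d none k = u (Sum.inl (Fin.last d)) := by
  classical
  rw [Fintype.sum_sum_type, Finset.sum_eq_single (Fin.last d)]
  · simp [RamCov.bas]
  · intro i _ hi
    simp [RamCov.bas, hi]
  · intro h
    exact absurd (Finset.mem_univ _) h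

private theorem SA_some {F : Type} [Field F] (d : ℕ) (u : RamCov.Ix d → F) (A B : Polynomial F)
    (hA : SA_D A (d + 1)) (hB : SA_D B (d - 1)) (h1 : ∀ i : Fin (d + 1), u (Sum.inl i) = A.coeff i)
    (h2 : ∀ i : Fin (d - 1), u (Sum.inr i) = B.coeff i) (z : F × F) :
    ∑ k, u k * RamCov.bas F d (some z) k = A.eval z.1 + B.eval z.1 * z.2 := by
  rw [Fintype.sum_sum_type, SA_eval hA, SA_eval hB, Finset.sum_mul]
  congr 1
  · refine Finset.sum_congr rfl fun i _ => ?_
    rw [h1]
    rfl
  · refine Finset.sum_congr rfl fun i _ => ?_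
    rw [h2, mul_assoc]
    rfl

private theorem SA_mul {F : Type} [Field F] {p q : Polynomial F} {m n k : ℕ} (hp : SA_D p m) (hq : SA_D q n)
    (h : m + n ≤ k + 1) : SA_D (p * q) k := by
  rcases hp with hp | hp
  · left
    rw [hp, zero_mul]
  rcases hq with hq | hq
  · left
    rw [hq, mul_zero]
  right
  have := Polynomial.natDegree_mul_le (p := p) (q := q)
  omega

private theorem SA_add {F : Type} [Field F] {p q : Polynomial F} {k : ℕ} (hp : SA_D p k) (hq : SA_D q k) :
    SA_D (p + q) k := by
  rcases hp with hp | hp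
  · rw [hp, zero_add]
    exact hq
  rcases hq with hq | hq
  · rw [hq, add_zero]
    exact Or.inr hp
  right
  exact lt_of_le_of_lt (Polynomial.natDegree_add_le p q) (max_lt hp hq)

private theorem SA_cubic {F : Type} [Field F] (a b : F) :
    SA_D (Polynomial.X ^ 3 + Polynomial.C a * Polynomial.X + Polynomial.C b) 4 := by
  right
  have h : (Polynomial.X ^ 3 + Polynomial.C a * Polynomial.X + Polynomial.C b : Polynomial F).natDegree ≤ 3 := by
    compute_degree
  omega

private theorem SA_coeff {F : Type} [Field F] {p : Polynomial F} {k : ℕ} (hp : SA_D p k) : p.coeff k = 0 := by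
  rcases hp with hp | hp
  · rw [hp, Polynomial.coeff_zero]
  · exact Polynomial.coeff_eq_zero_of_natDegree_lt hp

theorem bas_mul {F : Type} [Field F] (a b : F) (d d' : ℕ) (u : RamCov.Ix d → F) (v : RamCov.Ix d' → F) :
    ∃ w : RamCov.Ix (d + d') → F, ∀ P : Option (F × F), IsPt a b P →
      ∑ k, w k * RamCov.bas F (d + d') P k = (∑ k, u k * RamCov.bas F d P k) * ∑ k, v k * RamCov.bas F d' P k := by
  obtain ⟨A, hA, hA'⟩ := SA_exists fun i : Fin (d + 1) => u (Sum.inl i)
  obtain ⟨B, hB, hB'⟩ := SA_exists fun i : Fin (d - 1) => u (Sum.inr i)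
  obtain ⟨C, hC, hC'⟩ := SA_exists fun i : Fin (d' + 1) => v (Sum.inl i)
  obtain ⟨D, hD, hD'⟩ := SA_exists fun i : Fin (d' - 1) => v (Sum.inr i)
  set Q : Polynomial F := Polynomial.X ^ 3 + Polynomial.C a * Polynomial.X + Polynomial.C b with hQ
  have hQd : SA_D Q 4 := SA_cubic a b
  have hBDQ : SA_D (B * D * Q) (d + d') := by
    rcases hB with hB | hB
    · left
      rw [hB, zero_mul, zero_mul]
    rcases hD with hD | hD
    · left
      rw [hD, mul_zero, zero_mul]
    exact SA_mul (SA_mul (m := d - 1) (n := d' - 1) (k := d + d' - 3) (Or.inr hB) (Or.inr hD) (by omega)) hQd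
      (by omega)
  have hP : SA_D (A * C + B * D * Q) (d + d' + 1) := by
    refine SA_add (SA_mul hA hC (by omega)) ?_
    rcases hBDQ with h | h
    · exact Or.inl h
    · exact Or.inr (by omega)
  have hR : SA_D (A * D + B * C) (d + d' - 1) := by
    refine SA_add ?_ ?_
    · rcases hD with hD | hD
      · left
        rw [hD, mul_zero]
      exact SA_mul hA (Or.inr hD) (by omega)
    · rcases hB with hB | hB
      · left
        rw [hB, zero_mul]
      exact SA_mul (Or.inr hB) hC (by omega)
  refine ⟨Sum.elim (fun i => (A * C + B * D * Q).coeff i) (fun i => (A * D + B * C).coeff i), fun P hP' => ?_⟩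
  cases P with
  | none =>
    rw [SA_none, SA_none, SA_none, hA', hC', Sum.elim_inl, Fin.val_last, Fin.val_last, Fin.val_last,
      Polynomial.coeff_add, SA_coeff hBDQ, add_zero]
    refine Polynomial.coeff_mul_add_eq_of_natDegree_le ?_ ?_
    · rcases hA with h | h
      · rw [h, Polynomial.natDegree_zero]
        exact Nat.zero_le _
      · omega
    · rcases hC with h | h
      · rw [h, Polynomial.natDegree_zero]
        exact Nat.zero_le _
      · omega
  | some z =>
    rw [SA_some (d + d') _ (A * C + B * D * Q) (A * D + B * C) hP hR (fun i => rfl) (fun i => rfl) z,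
      SA_some d u A B hA hB hA' hB' z, SA_some d' v C D hC hD hC' hD' z]
    have hz : z.2 ^ 2 = z.1 ^ 3 + a * z.1 + b := hP'
    have hQz : Q.eval z.1 = z.2 ^ 2 := by
      rw [hz, hQ]
      simp
    rw [Polynomial.eval_add, Polynomial.eval_add, Polynomial.eval_mul, Polynomial.eval_mul, Polynomial.eval_mul,
      Polynomial.eval_mul, Polynomial.eval_mul, hQz]
    ring

end DP
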