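import Pool.Agent.Lib.MP_17a322_ntDP.SA

/-!
# LEAF SB: sections on an elliptic curve which separate points

PROOF.  Induction over `Z`.  `Z = ∅`: `w` is the basis element `1` (index `inl 0`) if `P` is affine and `x ^ d` (index `inl (Fin.last d)`) if `P` is the point at infinity.  `Z = insert Q Z'`: `2 * Z'.card ≤ d - 2`, so there is a section for `Z'` of degree `d - 2`, multiply (`bas_mul`, `d = (d - 2) + 2` by `obtain ⟨e, rfl⟩`) with a section `s` of degree `2` (basis `1, x, x ^ 2, y`) which vanishes at `Q` and not at `P`: `P` infinite, `Q = (x1, y1)`: `s = x ^ 2 - x1 x`; `P = (x0, y0)`, `Q` infinite: `s = 1`; `Q = (x1, y1)`, `x1 ≠ x0`: `s = x - x1`; `x1 = x0`: then `y1 ≠ y0`, `s = y - y1`.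
-/

set_option autoImplicit false

namespace DP

open Finset VK

private theorem SB_ev {F : Type} [Field F] (c0 c1 c2 c3 : F) : ∃ s : RamCov.Ix 2 → F,
    (∀ z : F × F, ∑ k, s k * RamCov.bas F 2 (some z) k = c0 + c1 * z.1 + c2 * z.1 ^ 2 + c3 * z.2) ∧
      ∑ k, s k * RamCov.bas F 2 none k = c2 := by
  refine ⟨Sum.elim (fun i => if i = 0 then c0 else if i = 1 then c1 else c2) (fun _ => c3), fun z => ?_, ?_⟩
  · rw [Fintype.sum_sum_type]
    simp [Fin.sum_univ_succ, RamCov.bas, add_assoc]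
  · rw [Fintype.sum_sum_type]
    simp [RamCov.bas, Fin.last]

private theorem SB_two {F : Type} [Field F] {P Q : Option (F × F)} (h : Q ≠ P) : ∃ s : RamCov.Ix 2 → F,
    ∑ k, s k * RamCov.bas F 2 P k ≠ 0 ∧ ∑ k, s k * RamCov.bas F 2 Q k = 0 := by
  rcases P with _ | ⟨x0, y0⟩
  · rcases Q with _ | ⟨x1, y1⟩
    · exact absurd rfl h
    · obtain ⟨s, hs, hn⟩ := SB_ev 0 (-x1) 1 0
      refine ⟨s, ?_, ?_⟩
      · rw [hn]
        exact one_ne_zero
      · rw [hs]
        ring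
  · rcases Q with _ | ⟨x1, y1⟩
    · obtain ⟨s, hs, hn⟩ := SB_ev (1 : F) 0 0 0
      refine ⟨s, ?_, hn⟩
      rw [hs]
      simp
    · by_cases hx : x1 = x0
      · obtain ⟨s, hs, hn⟩ := SB_ev (-y1) 0 0 1
        refine ⟨s, ?_, ?_⟩
        · rw [hs]
          intro h1
          apply h
          have h2 : y1 = y0 := by linear_combination -h1
          rw [hx, h2]
        · rw [hs]
          ring
      · obtain ⟨s, hs, hn⟩ := SB_ev (-x1) 1 0 0
        refine ⟨s, ?_, ?_⟩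
        · rw [hs]
          intro h1
          apply hx
          linear_combination -h1
        · rw [hs]
          ring

private theorem SB_one {F : Type} [Field F] (d : ℕ) (P : Option (F × F)) : ∃ w : RamCov.Ix d → F,
    ∑ k, w k * RamCov.bas F d P k ≠ 0 := by
  classical
  have h1 : ∀ j : RamCov.Ix d, ∑ k, (Pi.single j 1 : RamCov.Ix d → F) k * RamCov.bas F d P k =
      RamCov.bas F d P j := by
    intro j
    rw [Finset.sum_eq_single j]
    · rw [Pi.single_eq_same, one_mul]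
    · intro k _ hk
      rw [Pi.single_eq_of_ne hk, zero_mul]
    · intro h
      exact absurd (Finset.mem_univ _) h
  rcases P with _ | z
  · refine ⟨Pi.single (Sum.inl (Fin.last d)) 1, ?_⟩
    rw [h1]
    show (if Fin.last d = Fin.last d then (1 : F) else 0) ≠ 0
    rw [if_pos rfl]
    exact one_ne_zero
  · refine ⟨Pi.single (Sum.inl 0) 1, ?_⟩
    rw [h1]
    show z.1 ^ ((0 : Fin (d + 1)) : ℕ) ≠ 0
    rw [Fin.val_zero, pow_zero]
    exact one_ne_zero

private theorem SB_ind {F : Type} [Field F] (a b : F) (P : Option (F × F)) (hP : IsPt a b P)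
    (Z : Finset (Option (F × F))) : (∀ Q ∈ Z, IsPt a b Q ∧ Q ≠ P) → ∀ d : ℕ, 2 * Z.card ≤ d →
    ∃ w : RamCov.Ix d → F, ∑ k, w k * RamCov.bas F d P k ≠ 0 ∧ ∀ Q ∈ Z, ∑ k, w k * RamCov.bas F d Q k = 0 := by
  classical
  induction Z using Finset.induction_on with
  | empty =>
    intro _ d _
    obtain ⟨w, hw⟩ := SB_one d P
    exact ⟨w, hw, fun Q hQ => absurd hQ (Finset.notMem_empty Q)⟩
  | insert Q Z hQ ih =>
    intro hZ d hd
    rw [Finset.card_insert_of_notMem hQ] at hd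
    obtain ⟨e, rfl⟩ : ∃ e, d = e + 2 := ⟨d - 2, by omega⟩
    obtain ⟨w', hw', hZ'⟩ := ih (fun R hR => hZ R (Finset.mem_insert_of_mem hR)) e (by omega)
    obtain ⟨hQ1, hQ2⟩ := hZ Q (Finset.mem_insert_self Q Z)
    obtain ⟨s, hs, hs'⟩ := SB_two hQ2
    obtain ⟨w, hw⟩ := bas_mul a b e 2 w' s
    refine ⟨w, ?_, fun R hR => ?_⟩
    · rw [hw P hP]
      exact mul_ne_zero hw' hs
    · rw [hw R (hZ R hR).1]
      rcases Finset.mem_insert.1 hR with h1 | h1
      · rw [h1, hs', mul_zero]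
      · rw [hZ' R h1, zero_mul]

theorem sep_E {F : Type} [Field F] (a b : F) {d : ℕ} (P : Option (F × F)) (hP : IsPt a b P)
    (Z : Finset (Option (F × F))) (hZ : ∀ Q ∈ Z, IsPt a b Q ∧ Q ≠ P) (hd : 2 * Z.card ≤ d) :
    ∃ w : RamCov.Ix d → F, ∑ k, w k * RamCov.bas F d P k ≠ 0 ∧ ∀ Q ∈ Z, ∑ k, w k * RamCov.bas F d Q k = 0 := by
  exact SB_ind a b P hP Z hZ d hd

end DP
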