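import Pool.Agent.Lib.MP_17a322_ntVY.VB
import Pool.Agent.Lib.MP_17a322_ntCI.HMo

/-!
# LEAF SC: forms which separate points of the projective space

PROOF.  The functions `y ↦ ∑ γ, w γ * mo y γ` are the evaluations of the homogeneous polynomials of degree `ν` (`MvPolynomial (Fin (M + 1)) F`; if `f` is homogeneous of degree `ν`, `w γ = f.coeff (Finsupp.equivFunOnFinite.symm fun i => (γ.1 i : ℕ))`; every monomial of degree `ν` has exponents `≤ ν`; `MvPolynomial.eval_eq'`; there may be a lemma in the library, grep for `MWS.mo` and `IsHomogeneous`, e.g. in `MP_17a322_ntVY`, `MP_17a322_ntVU`).  Let `y i0 = 1`.  For `x ∈ Z`: `x ≠ y` are both normalised, so they are not proportional (`VB_one`, private in `MP_17a322_ntVY/VB.lean`: copy), so there are `i, j` with `x i * y j ≠ x j * y i`; the linear form `ℓ_x = x i X_j - x j X_i` vanishes at `x` and not at `y`.  The form is `X_(i0) ^ (ν - Z.card) * ∏ x ∈ Z, ℓ_x` (`IsHomogeneous.mul, .prod, .pow`).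
-/

set_option autoImplicit false

namespace DP

open Finset VK

/-- the exponent vector of a monomial -/
private noncomputable def SC_m {M d : ℕ} (γ : MWS.Mo M d) : Fin (M + 1) →₀ ℕ :=
  Finsupp.equivFunOnFinite.symm fun i => (γ.1 i : ℕ)

private theorem SC_m_apply {M d : ℕ} (γ : MWS.Mo M d) (i : Fin (M + 1)) : SC_m γ i = (γ.1 i : ℕ) := rfl

private theorem SC_m_inj {M d : ℕ} {γ γ' : MWS.Mo M d} (h : SC_m γ = SC_m γ') : γ = γ' := by
  refine Subtype.ext (funext fun i => Fin.ext ?_)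
  exact DFunLike.congr_fun h i

private theorem SC_m_deg {M d : ℕ} (γ : MWS.Mo M d) : (SC_m γ).degree = d := by
  rw [Finsupp.degree_eq_sum]
  exact γ.2

private theorem SC_m_exists {M d : ℕ} {s : Fin (M + 1) →₀ ℕ} (hs : s.degree = d) :
    ∃ γ : MWS.Mo M d, SC_m γ = s := by
  have hs' : ∑ i, s i = d := by rw [← hs, Finsupp.degree_eq_sum]
  have hle : ∀ i, s i ≤ d := fun i => by
    rw [← hs']
    exact Finset.single_le_sum (f := fun i => s i) (fun _ _ => Nat.zero_le _) (Finset.mem_univ i)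
  refine ⟨⟨fun i => ⟨s i, Nat.lt_succ_of_le (hle i)⟩, hs'⟩, ?_⟩
  ext i
  rfl

private noncomputable def SC_f {F : Type} [Field F] {M d : ℕ} (c : MWS.Mo M d → F) :
    MvPolynomial (Fin (M + 1)) F := ∑ γ, MvPolynomial.monomial (SC_m γ) (c γ)

private theorem SC_eval {F : Type} [Field F] {M d : ℕ} (c : MWS.Mo M d → F) (u : Fin (M + 1) → F) :
    MvPolynomial.eval u (SC_f c) = ∑ γ, c γ * MWS.mo u γ := by
  unfold SC_f MWS.mo
  rw [map_sum]
  refine Finset.sum_congr rfl fun γ _ => ?_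
  rw [MvPolynomial.eval_monomial, Finsupp.prod_fintype _ _ fun i => pow_zero _]
  rfl

private theorem SC_coeff {F : Type} [Field F] {M d : ℕ} (c : MWS.Mo M d → F) (α : MWS.Mo M d) :
    MvPolynomial.coeff (SC_m α) (SC_f c) = c α := by
  classical
  unfold SC_f
  rw [MvPolynomial.coeff_sum, Finset.sum_eq_single α]
  · rw [MvPolynomial.coeff_monomial, if_pos rfl]
  · intro γ _ hγ
    rw [MvPolynomial.coeff_monomial, if_neg fun h => hγ (SC_m_inj h)]
  · intro h
    exact absurd (Finset.mem_univ α) h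

private theorem SC_ishom {F : Type} [Field F] {M d : ℕ} (c : MWS.Mo M d → F) :
    (SC_f c).IsHomogeneous d := by
  unfold SC_f
  exact MvPolynomial.IsHomogeneous.sum _ _ _ fun γ _ =>
    MvPolynomial.isHomogeneous_monomial _ (SC_m_deg γ)

private theorem SC_hom {F : Type} [Field F] {M d : ℕ} {p : MvPolynomial (Fin (M + 1)) F}
    (hp : p.IsHomogeneous d) : SC_f (fun γ : MWS.Mo M d => p.coeff (SC_m γ)) = p := by
  ext s
  by_cases hs : s.degree = d
  · obtain ⟨γ, rfl⟩ := SC_m_exists hs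
    rw [SC_coeff]
  · rw [hp.coeff_eq_zero hs, (SC_ishom _).coeff_eq_zero hs]

/-- different normalised vectors are not proportional -/
private theorem SC_two {F : Type} [Field F] {q : ℕ} {x y : Fin q → F} (hx : Nrm x) (hy : Nrm y)
    (hxy : x ≠ y) : ∃ i j, x i * y j - x j * y i ≠ 0 := by
  by_contra hc
  push Not at hc
  obtain ⟨i, h1, h2⟩ := hx
  obtain ⟨j, h3, h4⟩ := hy
  have hij : i = j := by
    rcases lt_trichotomy i j with h | h | h
    · have h5 := hc i j
      rw [h1, h3, h4 i h, mul_zero, sub_zero, mul_one] at h5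
      exact absurd h5 one_ne_zero
    · exact h
    · have h5 := hc i j
      rw [h1, h3, h2 j h, zero_mul, sub_zero, mul_one] at h5
      exact absurd h5 one_ne_zero
  subst hij
  refine hxy (funext fun k => ?_)
  have h5 := hc i k
  rw [h1, h3, one_mul, mul_one] at h5
  exact (sub_eq_zero.1 h5).symm

open MvPolynomial in
private theorem SC_line {F : Type} [Field F] {M : ℕ} {x y : Fin (M + 1) → F} (hx : Nrm x) (hy : Nrm y)
    (hxy : x ≠ y) : ∃ l : MvPolynomial (Fin (M + 1)) F, l.IsHomogeneous 1 ∧ eval x l = 0 ∧ eval y l ≠ 0 := by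
  obtain ⟨i, j, h⟩ := SC_two hx hy hxy
  refine ⟨C (x i) * X j - C (x j) * X i, ?_, ?_, ?_⟩
  · refine IsHomogeneous.sub ?_ ?_
    · have := (isHomogeneous_C (Fin (M + 1)) (x i)).mul (isHomogeneous_X F j)
      rwa [zero_add] at this
    · have := (isHomogeneous_C (Fin (M + 1)) (x j)).mul (isHomogeneous_X F i)
      rwa [zero_add] at this
  · simp only [map_sub, map_mul, eval_C, eval_X]
    ring
  · simp only [map_sub, map_mul, eval_C, eval_X]
    exact h

theorem sep_M {F : Type} [Field F] {M ν : ℕ} (y : Fin (M + 1) → F) (hy : Nrm y) (Z : Finset (Fin (M + 1) → F))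
    (hZ : ∀ x ∈ Z, Nrm x ∧ x ≠ y) (hν : Z.card ≤ ν) : ∃ w : MWS.Mo M ν → F,
      ∑ γ, w γ * MWS.mo y γ ≠ 0 ∧ ∀ x ∈ Z, ∑ γ, w γ * MWS.mo x γ = 0 := by
  classical
  choose! l hl using fun x (h : x ∈ Z) => SC_line (hZ x h).1 hy (hZ x h).2
  obtain ⟨i0, hi0, -⟩ := id hy
  have hf : (MvPolynomial.X i0 ^ (ν - Z.card) * ∏ x ∈ Z, l x :
      MvPolynomial (Fin (M + 1)) F).IsHomogeneous ν := by
    have h1 := (MvPolynomial.isHomogeneous_X F i0).pow (ν - Z.card)
    have h2 := MvPolynomial.IsHomogeneous.prod Z l (fun _ => 1) fun x hx => (hl x hx).1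
    have h3 := h1.mul h2
    rw [Finset.sum_const, smul_eq_mul, mul_one, one_mul] at h3
    rwa [Nat.sub_add_cancel hν] at h3
  refine ⟨fun γ => MvPolynomial.coeff (SC_m γ) (MvPolynomial.X i0 ^ (ν - Z.card) * ∏ x ∈ Z, l x), ?_, ?_⟩
  · rw [← SC_eval, SC_hom hf, map_mul, map_pow, MvPolynomial.eval_X, hi0, one_pow, one_mul, map_prod]
    exact Finset.prod_ne_zero_iff.2 fun x hx => (hl x hx).2.2
  · intro x hx
    rw [← SC_eval, SC_hom hf, map_mul, map_prod, Finset.prod_eq_zero hx (hl x hx).2.1, mul_zero]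

end DP
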