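import Pool.Agent.Lib.MP_17a322_ntDP.Defs

/-!
# LEAF SD: Laurent polynomials which separate points of the torus

PROOF.  Let `Z.card ≤ k - 1`.  For `x ∈ Z` choose `l_x` with `x (l_x) ≠ t (l_x)`; `f = ∏ x ∈ Z, (X (l_x) - C (x (l_x)))` in `MvPolynomial (Fin n) F` has degree `≤ k - 1` in each variable (`MvPolynomial.degreeOf_mul_le`, `degreeOf_prod_le`), vanishes on `Z` and not at `t`.  So `f = ∑ over the exponents m ∈ f.support`, each `m = (fun l => (a l : ℕ))` for exactly one `a : Fin n → Fin k`.  With `i_a` from `Rich` (`E (i_a) = fun l => a0 l + a l`): `w i = ∑ a with i_a = i, f.coeff (a)`; then `∑ i, w i * ∏ l, x l ^ E i l = ∑ a, f.coeff a * ∏ l, x l ^ (a0 l + a l) = (∏ l, x l ^ a0 l) * f x` for `x l ≠ 0` (`zpow_add₀`, `Finset.sum_fiberwise`).  (Another way: for every `a` the function `x ↦ ∏ l, x l ^ (a0 l + a l)` is `∑ i, w i * ..` with `w = Pi.single (i_a) 1`; linear combinations.)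
-/

set_option autoImplicit false

namespace DP

open Finset NumberField LVH VK FB

theorem sep_T {F : Type} [Field F] {n k : ℕ} {ι : Type} [Fintype ι] (E : ι → Fin n → ℤ) (hE : Rich k E)
    (t : Fin n → F) (ht : ∀ l, t l ≠ 0) (Z : Finset (Fin n → F)) (hZ : ∀ x ∈ Z, (∀ l, x l ≠ 0) ∧ x ≠ t)
    (hc : Z.card + 1 ≤ k) : ∃ w : ι → F,
      ∑ i, w i * ∏ l, t l ^ E i l ≠ 0 ∧ ∀ x ∈ Z, ∑ i, w i * ∏ l, x l ^ E i l = 0 := by
  classical
  obtain ⟨a0, ha0⟩ := hE
  have hl' : ∀ x : Z, ∃ j, (x : Fin n → F) j ≠ t j := fun x => Function.ne_iff.1 (hZ x x.2).2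
  choose l hl using hl'
  set f : MvPolynomial (Fin n) F := ∏ x : Z, (MvPolynomial.X (l x) - MvPolynomial.C ((x : Fin n → F) (l x))) with hf
  have hdeg : f.totalDegree < k := by
    have h1 : f.totalDegree ≤ ∑ _x : Z, 1 := by
      rw [hf]
      refine (MvPolynomial.totalDegree_finsetProd _ _).trans (Finset.sum_le_sum fun x _ => ?_)
      refine (MvPolynomial.totalDegree_sub _ _).trans (max_le ?_ ?_)
      · rw [MvPolynomial.totalDegree_X]
      · rw [MvPolynomial.totalDegree_C]
        exact Nat.zero_le _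
    rw [Finset.sum_const, Finset.card_univ, Fintype.card_coe, smul_eq_mul, mul_one] at h1
    omega
  have hev : ∀ y : Fin n → F, MvPolynomial.eval y f = ∏ x : Z, (y (l x) - (x : Fin n → F) (l x)) := by
    intro y
    rw [hf, map_prod]
    refine Finset.prod_congr rfl fun x _ => ?_
    rw [map_sub, MvPolynomial.eval_X, MvPolynomial.eval_C]
  have hm : ∀ m : Fin n →₀ ℕ, ∃ i : ι, m ∈ f.support → E i = fun l => a0 l + ((m l : ℕ) : ℤ) := by
    intro m
    by_cases hm : m ∈ f.support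
    · have h1 : ∀ j, m j < k := by
        intro j
        have h2 := MvPolynomial.le_totalDegree hm
        rw [Finsupp.sum_fintype _ _ (fun _ => rfl)] at h2
        exact (Finset.single_le_sum (f := fun j => m j) (fun _ _ => Nat.zero_le _) (Finset.mem_univ j)).trans_lt
          (h2.trans_lt hdeg)
      obtain ⟨i, hi⟩ := ha0 fun j => ⟨m j, h1 j⟩
      exact ⟨i, fun _ => hi⟩
    · have hk : 0 < k := by omega
      obtain ⟨i, _⟩ := ha0 fun _ => ⟨0, hk⟩
      exact ⟨i, fun h => absurd h hm⟩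
  choose i hi using hm
  have key : ∀ y : Fin n → F, (∀ j, y j ≠ 0) →
      ∑ r, (∑ m ∈ f.support, (Pi.single (i m) (f.coeff m) : ι → F)) r * ∏ j, y j ^ E r j =
        (∏ j, y j ^ a0 j) * MvPolynomial.eval y f := by
    intro y hy
    simp only [Finset.sum_apply, Finset.sum_mul]
    rw [Finset.sum_comm, MvPolynomial.eval_eq', Finset.mul_sum]
    refine Finset.sum_congr rfl fun m hm => ?_
    rw [Finset.sum_eq_single (i m)]
    · rw [Pi.single_eq_same, hi m hm, mul_left_comm, ← Finset.prod_mul_distrib]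
      congr 1
      refine Finset.prod_congr rfl fun j _ => ?_
      rw [zpow_add₀ (hy j), zpow_natCast]
    · intro r _ hr
      rw [Pi.single_eq_of_ne hr, zero_mul]
    · intro h
      exact absurd (Finset.mem_univ _) h
  refine ⟨∑ m ∈ f.support, (Pi.single (i m) (f.coeff m) : ι → F), ?_, fun x hx => ?_⟩
  · rw [key t ht, hev]
    refine mul_ne_zero (Finset.prod_ne_zero_iff.2 fun j _ => zpow_ne_zero _ (ht j))
      (Finset.prod_ne_zero_iff.2 fun x _ => sub_ne_zero.2 (hl x).symm)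
  · rw [key x (hZ x hx).1, hev, Finset.prod_eq_zero (Finset.mem_univ (⟨x, hx⟩ : Z)) (sub_self _), mul_zero]

end DP
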