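import Pool.Agent.Lib.MP_17a322_ntDP.SB
import Pool.Agent.Lib.MP_17a322_ntDP.SC
import Pool.Agent.Lib.MP_17a322_ntDP.SD

/-!
# LEAF SE: sections which separate points

PROOF.  Let `Zt` be the set of the `t c`, `c ≠ c0`, different from `t c0` (`univ.image t` without `t c0`), `ZP l` that of the `P c l ≠ P c0 l`, `Zy` that of the `y c ≠ y c0`.  Each has at most `Fintype.card C - 1 ≤ k - 1` elements (it is contained in the image of `univ.erase c0`).  So there are `wt` (`sep_T`), `wP l` (`sep_E`, `2 * (k - 1) ≤ d l`), `wy` (`sep_M`; `k - 1 ≤ ν`, or `M = 0` and `Zy = ∅` because there is only one normalised vector in `Fin 1 → F`).  `w (γ, (i, κ)) = wy γ * (wt i * ∏ l, wP l (κ l))`; the sum over all indices is the product of the sums (`Finset.sum_mul_sum`, `Fintype.sum_prod_type`, `Finset.prod_univ_sum` / `Fintype.piFinset_univ`).  At `c0` all the factors are `≠ 0`; for `c ≠ c0` one of `t c ≠ t c0`, `P c l ≠ P c0 l` for some `l`, `y c ≠ y c0` holds (`hinj`)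 and the corresponding factor is `0`.
-/

set_option autoImplicit false

namespace DP

open Finset NumberField LVH VK FB

private theorem SE_card {C X : Type} [Fintype C] [DecidableEq X] (f : C → X) (c0 : C) {k : ℕ}
    (hC : Fintype.card C ≤ k) : ((univ.image f).erase (f c0)).card + 1 ≤ k := by
  have h1 : f c0 ∈ univ.image f := mem_image_of_mem f (mem_univ c0)
  have h2 := card_erase_of_mem h1
  have h3 : 0 < (univ.image f).card := card_pos.2 ⟨_, h1⟩
  have h4 : (univ.image f).card ≤ Fintype.card C := card_image_le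
  omega

private theorem SE_sum {F : Type} [Field F] {n q M ν : ℕ} {ι : Type} [Fintype ι] (E : ι → Fin n → ℤ)
    {d : Fin q → ℕ} (t : Fin n → F) (P : Fin q → Option (F × F)) (y : Fin (M + 1) → F)
    (wy : MWS.Mo M ν → F) (wt : ι → F) (wP : (l : Fin q) → RamCov.Ix (d l) → F) :
    ∑ x : MWS.Mo M ν × IxT ι d, (wy x.1 * (wt x.2.1 * ∏ l, wP l (x.2.2 l))) *
        (MWS.mo y x.1 * bT E t P x.2) =
      (∑ γ, wy γ * MWS.mo y γ) * ((∑ i, wt i * ∏ l, t l ^ E i l) *
        ∏ l, ∑ κ, wP l κ * RamCov.bas F (d l) (P l) κ) := by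
  rw [Finset.prod_univ_sum, Fintype.piFinset_univ, Finset.sum_mul_sum, ← Fintype.sum_prod_type',
    Finset.sum_mul_sum, ← Fintype.sum_prod_type']
  refine Finset.sum_congr rfl fun x _ => ?_
  rw [Finset.prod_mul_distrib]
  unfold bT
  ring

theorem sep_all {F : Type} [Field F] {n q M k ν : ℕ} {ι : Type} [Fintype ι] (α β : Fin q → F) (E : ι → Fin n → ℤ)
    (hE : Rich k E) {d : Fin q → ℕ} (hd : ∀ l, 2 * (k - 1) ≤ d l) (hν : k - 1 ≤ ν ∨ M = 0) {C : Type} [Fintype C]
    (hC : Fintype.card C ≤ k) (t : C → Fin n → F) (P : C → Fin q → Option (F × F)) (y : C → Fin (M + 1) → F)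
    (ht : ∀ c l, t c l ≠ 0) (hP : ∀ c l, IsPt (α l) (β l) (P c l)) (hy : ∀ c, Nrm (y c))
    (hinj : Function.Injective fun c => (t c, P c, y c)) (c0 : C) : ∃ w : MWS.Mo M ν × IxT ι d → F,
      ∑ x, w x * (MWS.mo (y c0) x.1 * bT E (t c0) (P c0) x.2) ≠ 0 ∧
      ∀ c, c ≠ c0 → ∑ x, w x * (MWS.mo (y c) x.1 * bT E (t c) (P c) x.2) = 0 := by
  classical
  obtain ⟨wt, ht0, ht1⟩ := sep_T E hE (t c0) (ht c0) ((univ.image t).erase (t c0)) (by
    intro x hx
    obtain ⟨h1, h2⟩ := mem_erase.1 hx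
    obtain ⟨c, -, rfl⟩ := mem_image.1 h2
    exact ⟨ht c, h1⟩) (SE_card t c0 hC)
  have hE1 : ∀ l, ∃ w : RamCov.Ix (d l) → F, ∑ κ, w κ * RamCov.bas F (d l) (P c0 l) κ ≠ 0 ∧
      ∀ Q ∈ (univ.image fun c => P c l).erase (P c0 l), ∑ κ, w κ * RamCov.bas F (d l) Q κ = 0 := by
    intro l
    refine sep_E (α l) (β l) (P c0 l) (hP c0 l) _ ?_ ?_
    · intro x hx
      obtain ⟨h1, h2⟩ := mem_erase.1 hx
      obtain ⟨c, -, rfl⟩ := mem_image.1 h2
      exact ⟨hP c l, h1⟩
    · have h1 : ((univ.image fun c => P c l).erase (P c0 l)).card + 1 ≤ k :=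
        SE_card (fun c => P c l) c0 hC
      have h2 := hd l
      omega
  choose wP hP0 hP1 using hE1
  obtain ⟨wy, hy0, hy1⟩ := sep_M (ν := ν) (y c0) (hy c0) ((univ.image y).erase (y c0)) (by
    intro x hx
    obtain ⟨h1, h2⟩ := mem_erase.1 hx
    obtain ⟨c, -, rfl⟩ := mem_image.1 h2
    exact ⟨hy c, h1⟩) (by
    rcases hν with h | h
    · have h1 := SE_card y c0 hC
      omega
    · subst h
      have h1 : (univ.image y).erase (y c0) = ∅ := by
        rw [eq_empty_iff_forall_notMem]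
        intro x hx
        obtain ⟨h1, h2⟩ := mem_erase.1 hx
        obtain ⟨c, -, rfl⟩ := mem_image.1 h2
        apply h1
        obtain ⟨i, hi, -⟩ := hy c
        obtain ⟨i', hi', -⟩ := hy c0
        have hs : ∀ u v : Fin (0 + 1), u = v := fun u v => Fin.ext (by omega)
        funext j
        rw [hs j i, hi, hs i i', hi']
      rw [h1, card_empty]
      exact Nat.zero_le _)
  refine ⟨fun x => wy x.1 * (wt x.2.1 * ∏ l, wP l (x.2.2 l)), ?_, fun c hc => ?_⟩
  · rw [SE_sum E (t c0) (P c0) (y c0) wy wt wP]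
    exact mul_ne_zero hy0 (mul_ne_zero ht0 (prod_ne_zero_iff.2 fun l _ => hP0 l))
  · rw [SE_sum E (t c) (P c) (y c) wy wt wP]
    by_cases h1 : y c = y c0
    · by_cases h2 : t c = t c0
      · have h3 : ∃ l, P c l ≠ P c0 l := by
          by_contra h4
          push Not at h4
          apply hc
          apply hinj
          show (t c, P c, y c) = (t c0, P c0, y c0)
          rw [h1, h2, funext h4]
        obtain ⟨l, hl⟩ := h3
        have h5 := hP1 l (P c l) (mem_erase.2 ⟨hl, mem_image_of_mem (fun c => P c l) (mem_univ c)⟩)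
        rw [prod_eq_zero (mem_univ l) h5, mul_zero, mul_zero]
      · rw [ht1 (t c) (mem_erase.2 ⟨h2, mem_image_of_mem t (mem_univ c)⟩), zero_mul, mul_zero]
    · rw [hy1 (y c) (mem_erase.2 ⟨h1, mem_image_of_mem y (mem_univ c)⟩), zero_mul]

end DP
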