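import Pool.Agent.Lib.MP_17a322_ntDP.FB_
import Pool.Agent.Lib.MP_17a322_ntDP.Defs4

/-!
# LEAF WA: the number of the points of a fibre with given values, over a finite field

PROOF.  Copy of `fib_cnt` (`FB_.lean`; copy its private lemmas with the prefix `WA_`), without the normalisation and with the values `g`.  `C, N0` from `cnt_fib K A' B' E' b r (fib_of hF)` (its last argument is the family `v : Fin w → k` of the values, with `v i = 0 ∨ 1 ≤ δ i`).  If there is `v : Fin w → k` with `f (v i) = g i` for all `i` then `T` is the image under `f` of the finite set of the `y0 : Fin (M + 1) → k` with `sM E' (ψ ∘ b) t0 P0 y0 i = v i` for all `i` (`v i = 0` if `g i = 0`); otherwise `T = ∅`: if `y` is as in the claim then `y = f ∘ y0` and `v i = sM E' (ψ ∘ b) t0 P0 y0 i` is such a family.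
-/

set_option autoImplicit false

namespace DP

open Finset NumberField LVH VK FB

private theorem WA_fro {F : Type} [Field F] (p m : ℕ) (z : Option (F × F)) :
    (frO p)^[m] z = Option.map (fun z => (z.1 ^ p ^ m, z.2 ^ p ^ m)) z := by
  induction m with
  | zero =>
    cases z with
    | none => rfl
    | some z =>
      change some z = some (z.1 ^ p ^ 0, z.2 ^ p ^ 0)
      rw [pow_zero, pow_one, pow_one]
  | succ m ih =>
    rw [Function.iterate_succ_apply', ih]
    cases z with
    | none => rfl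
    | some z =>
      change some ((z.1 ^ p ^ m) ^ p, (z.2 ^ p ^ m) ^ p) = some (z.1 ^ p ^ (m + 1), z.2 ^ p ^ (m + 1))
      rw [← pow_mul, ← pow_mul, ← pow_succ]

private theorem WA_bas {F F' : Type} [Field F] [Field F'] (f : F →+* F') (d : ℕ) (z : Option (F × F))
    (i : RamCov.Ix d) : RamCov.bas F' d (mpO f z) i = f (RamCov.bas F d z i) := by
  cases z with
  | none =>
    cases i with
    | inl i =>
      change (if i = Fin.last d then (1 : F') else 0) = f (if i = Fin.last d then (1 : F) else 0)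
      by_cases h : i = Fin.last d
      · rw [if_pos h, if_pos h, map_one]
      · rw [if_neg h, if_neg h, map_zero]
    | inr i => exact (map_zero f).symm
  | some z =>
    cases i with
    | inl i => exact (map_pow f _ _).symm
    | inr i =>
      change f z.1 ^ (i : ℕ) * f z.2 = f (z.1 ^ (i : ℕ) * z.2)
      rw [map_mul, map_pow]

private theorem WA_sM {F F' : Type} [Field F] [Field F'] (f : F →+* F') {n m g s : ℕ} {ι : Type} [Fintype ι]
    {ν : Fin s → ℕ} {d : Fin s → Fin g → ℕ} (E : Fin s → ι → Fin n → ℤ) (a : IxM ι m ν d → F) (x : Fin n → F)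
    (P : Fin g → Option (F × F)) (u : Fin (m + 1) → F) (j : Fin s) :
    sM E (fun t => f (a t)) (fun l => f (x l)) (fun l => mpO f (P l)) (fun i => f (u i)) j = f (sM E a x P u j) := by
  unfold sM
  rw [map_sum]
  refine Finset.sum_congr rfl fun t _ => ?_
  have h1 : MWS.mo (fun i => f (u i)) t.1 = f (MWS.mo u t.1) := by
    unfold MWS.mo
    rw [map_prod]
    exact Finset.prod_congr rfl fun i _ => (map_pow f _ _).symm
  have h2 : bT (E j) (fun l => f (x l)) (fun l => mpO f (P l)) t.2 = f (bT (E j) x P t.2) := by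
    unfold bT
    rw [map_mul, map_prod, map_prod]
    have h3 : (∏ l, f (x l) ^ E j t.2.1 l) = ∏ l, f (x l ^ E j t.2.1 l) :=
      Finset.prod_congr rfl fun l _ => (map_zpow₀ f _ _).symm
    have h4 : (∏ l, RamCov.bas F' (d j l) (mpO f (P l)) (t.2.2 l)) = ∏ l, f (RamCov.bas F (d j l) (P l) (t.2.2 l)) :=
      Finset.prod_congr rfl fun l _ => WA_bas f _ _ _
    rw [h3, h4]
  rw [h1, h2, map_mul, map_mul]

open Classical in
theorem fib_cntW (K : Type) [Field K] [NumberField K] {n h M w r : ℕ} {κ : Type} [Fintype κ] {δ : Fin w → ℕ}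
    {d' : Fin w → Fin h → ℕ} (A' B' : Fin h → 𝓞 K) (E' : Fin w → κ → Fin n → ℤ) (b : IxM κ M δ d' → 𝓞 K)
    (hF : FibP A' B' E' b r) : ∃ C N0 : ℕ, N0 ≠ 0 ∧ ∀ (p : ℕ) [Fact p.Prime], ¬ p ∣ N0 → ∀ (φ : 𝓞 K →+* ZMod p) (m : ℕ),
      1 ≤ m → ∀ (t : Fin n → Om p) (P : Fin h → Option (Om p × Om p)), (∀ l, t l ≠ 0 ∧ t l ^ p ^ m = t l) →
      (∀ l, IsPt (em p (φ (A' l))) (em p (φ (B' l))) (P l) ∧ (frO p)^[m] (P l) = P l) →
      ∀ g : Fin w → Om p, (∀ i, g i = 0 ∨ 1 ≤ δ i) →
      ∃ T : Finset (Fin (M + 1) → Om p), T.card ≤ C * (p ^ m) ^ r ∧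
        ∀ y : Fin (M + 1) → Om p, (∀ l, y l ^ p ^ m = y l) →
          (∀ i, sM E' (fun x => em p (φ (b x))) t P y i = g i) → y ∈ T := by
  obtain ⟨C0, N0, hN0, hc⟩ := cnt_fib K A' B' E' b r (fib_of hF)
  refine ⟨C0, N0, hN0, ?_⟩
  intro p _ hp φ m hm t P ht hP g hg
  obtain ⟨k, _, _, f, hk, him⟩ := gal_im p m hm
  have : CharP k p := RingHom.charP f f.injective p
  let ψ : 𝓞 K →+* k := (ZMod.castHom (dvd_refl p) k).comp φ
  have hψ : ∀ a, f (ψ a) = em p (φ a) := by
    intro a
    have h1 : f.comp (ZMod.castHom (dvd_refl p) k) = em p := Subsingleton.elim _ _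
    rw [← h1]
    rfl
  have hNk : (N0 : k) ≠ 0 := by
    intro h
    exact hp ((CharP.cast_eq_zero_iff k p N0).1 h)
  choose t0 ht0 using fun l => (him (t l)).1 (ht l).2
  have hP0 : ∀ l, ∃ z : Option (k × k), mpO f z = P l := by
    intro l
    have h1 := (hP l).2
    rw [WA_fro] at h1
    cases h2 : P l with
    | none => exact ⟨none, rfl⟩
    | some z =>
      rw [h2] at h1
      have h3 : (z.1 ^ p ^ m, z.2 ^ p ^ m) = z := Option.some.inj h1
      obtain ⟨a, ha⟩ := (him z.1).1 (congrArg Prod.fst h3)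
      obtain ⟨c, hc⟩ := (him z.2).1 (congrArg Prod.snd h3)
      refine ⟨some (a, c), ?_⟩
      change some (f a, f c) = some z
      rw [ha, hc]
  choose P0 hP1 using hP0
  have hpt : ∀ l, IsPt (ψ (A' l)) (ψ (B' l)) (P0 l) := by
    intro l
    have h1 := (hP l).1
    rw [← hP1 l] at h1
    cases h2 : P0 l with
    | none => trivial
    | some z =>
      rw [h2] at h1
      change z.2 ^ 2 = z.1 ^ 3 + ψ (A' l) * z.1 + ψ (B' l)
      apply f.injective
      have h3 : f z.2 ^ 2 = f z.1 ^ 3 + em p (φ (A' l)) * f z.1 + em p (φ (B' l)) := h1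
      rw [map_pow, map_add, map_add, map_mul, map_pow, hψ, hψ]
      exact h3
  have ht1 : ∀ l, t0 l ≠ 0 := by
    intro l h
    apply (ht l).1
    rw [← ht0 l, h, map_zero]
  have : Fintype k := Fintype.ofFinite k
  have key : ∀ (y0 : Fin (M + 1) → k) (i : Fin w), sM E' (fun x => em p (φ (b x))) t P (fun l => f (y0 l)) i =
      f (sM E' (fun t => ψ (b t)) t0 P0 y0 i) := by
    intro y0 i
    rw [← WA_sM f]
    have e1 : (fun t => f (ψ (b t))) = fun x => em p (φ (b x)) := funext fun x => hψ _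
    have e2 : (fun l => f (t0 l)) = t := funext ht0
    have e3 : (fun l => mpO f (P0 l)) = P := funext hP1
    rw [e1, e2, e3]
  by_cases hv : ∃ v : Fin w → k, ∀ i, f (v i) = g i
  · obtain ⟨v, hv⟩ := hv
    have hcnt := hc k ψ hNk t0 P0 ht1 hpt v (fun i => by
      rcases hg i with h | h
      · left
        apply f.injective
        rw [hv i, h, map_zero]
      · exact Or.inr h)
    refine ⟨(univ.filter fun y0 : Fin (M + 1) → k => ∀ i, sM E' (fun t => ψ (b t)) t0 P0 y0 i = v i).image
      (fun y0 l => f (y0 l)), ?_, ?_⟩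
    · refine le_trans Finset.card_image_le ?_
      rw [← Fintype.card_subtype, ← Nat.card_eq_fintype_card, ← hk]
      exact hcnt
    · intro y hyp hys
      choose y0 hy0 using fun l => (him (y l)).1 (hyp l)
      refine Finset.mem_image.2 ⟨y0, Finset.mem_filter.2 ⟨Finset.mem_univ _, fun i => ?_⟩, funext hy0⟩
      apply f.injective
      rw [hv i, ← hys i, ← key y0 i]
      have e4 : (fun l => f (y0 l)) = y := funext hy0
      rw [e4]
  · refine ⟨∅, by rw [Finset.card_empty]; exact Nat.zero_le _, fun y hyp hys => ?_⟩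
    exfalso
    apply hv
    choose y0 hy0 using fun l => (him (y l)).1 (hyp l)
    refine ⟨fun i => sM E' (fun t => ψ (b t)) t0 P0 y0 i, fun i => ?_⟩
    rw [← hys i, ← key y0 i]
    have e4 : (fun l => f (y0 l)) = y := funext hy0
    rw [e4]

end DP
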