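import Pool.Agent.Lib.MP_17a322_ntDP.WA
import Pool.Agent.Lib.MP_17a322_ntDP.EI
import Pool.Agent.Lib.MP_17a322_ntDP.AS

/-!
# LEAF WC: the number of the tuples of vectors with given products of the values

PROOF.  `C1, p1` from `base_T k`, `C2, N0` from `fib_cntW`; `C = C1 ^ W.card * (max C2 1) ^ k`, bound for `p`: `p1 + N0 + 1` (so `p ∤ N0`).  Let `m = ∑ j, c j`, `r ≤ k` (as in the proof of `pat_T`, `AA.lean`).  For `i ∈ W` let `Tw i` be the finset of `base_T k` for `u = θ i`: `(Tw i).card * p ≤ C1 * p ^ m`; for `i ∉ W` let `Tw i = {0}`.  The families of values: `F = Fintype.piFinset Tw` (functions `f : Fin w → Fin r → Om p`), `F.card * p ^ W.card ≤ C1 ^ W.card * p ^ (m * W.card)` (`Fintype.card_piFinset`, `Finset.prod_ite_mem` as in `VA_abs`, `VA.lean`).  For `f ∈ F` and `j` the finset `Ty f j` of `fib_cntW` at `t j`, `P j`, exponent `c j`, `g = fun i => f i j` (`f i j = 0` for `i ∉ W`, `1 ≤ δ i` for `i ∈ W`; outside of `F` take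 the empty set): `(Ty f j).card ≤ (max C2 1) * (p ^ c j) ^ r0`, so `(Fintype.piFinset (Ty f)).card ≤ (max C2 1) ^ r * p ^ (m * r0)`.  `T = F.biUnion fun f => Fintype.piFinset (Ty f)`.  For `y` as in the claim let `f i j` be the value of the section `i` at `y j`: `f i j ^ p ^ c j = f i j` (`sM_fr` in `AS.lean`, by induction: `sM E' .. (fun l => t l ^ p ^ i) (fun l => (frO p)^[i] (P l)) (fun l => y l ^ p ^ i) = (sM ..) ^ p ^ i`), `f i j ≠ 0` for `i ∈ W` as the product is `θ i ≠ 0` (`VB_ne` in `VB_.lean`, copy).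
-/

set_option autoImplicit false

namespace DP

open Finset NumberField LVH VK FB

/-- the value of a section at the conjugates of a point -/
private theorem WC_it {p : ℕ} [Fact p.Prime] {n q M s : ℕ} {ι : Type} [Fintype ι] {ν : Fin s → ℕ} {d : Fin s → Fin q → ℕ}
    (E : Fin s → ι → Fin n → ℤ) (a : IxM ι M ν d → ZMod p) (t : Fin n → Om p) (P : Fin q → Option (Om p × Om p))
    (y : Fin (M + 1) → Om p) (j : Fin s) (i : ℕ) :
    sM E (fun x => em p (a x)) (fun l => t l ^ p ^ i) (fun l => (frO p)^[i] (P l)) (fun l => y l ^ p ^ i) j =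
      sM E (fun x => em p (a x)) t P y j ^ p ^ i := by
  induction i with
  | zero =>
    have e1 : (fun l => t l ^ p ^ 0) = t := funext fun l => by rw [pow_zero, pow_one]
    have e2 : (fun l => y l ^ p ^ 0) = y := funext fun l => by rw [pow_zero, pow_one]
    rw [e1, e2, pow_zero, pow_one]
    rfl
  | succ i ih =>
    have e1 : (fun l => t l ^ p ^ (i + 1)) = fun l => (t l ^ p ^ i) ^ p := funext fun l => by rw [← pow_mul, ← pow_succ]
    have e2 : (fun l => y l ^ p ^ (i + 1)) = fun l => (y l ^ p ^ i) ^ p := funext fun l => by rw [← pow_mul, ← pow_succ]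
    have e3 : (fun l => (frO p)^[i + 1] (P l)) = fun l => frO p ((frO p)^[i] (P l)) :=
      funext fun l => Function.iterate_succ_apply' (frO p) i (P l)
    rw [e1, e2, e3, sM_fr E a (fun l => t l ^ p ^ i) (fun l => (frO p)^[i] (P l)) (fun l => y l ^ p ^ i) j, ih, ← pow_mul,
      ← pow_succ]

/-- the factors of a product of norms which is not zero -/
private theorem WC_ne {F : Type} [Field F] {p r : ℕ} (c μ : Fin r → ℕ) (hc : ∀ j, 1 ≤ c j ∧ 1 ≤ μ j) (f : Fin r → F)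
    {τ : F} (hτ : τ ≠ 0) (h : ∏ i, (∏ i' ∈ range (c i), f i ^ p ^ i') ^ μ i = τ) (i : Fin r) : f i ≠ 0 := by
  intro h0
  rw [← h, Finset.prod_ne_zero_iff] at hτ
  refine hτ i (Finset.mem_univ i) ?_
  have h1 : ∏ i' ∈ range (c i), f i ^ p ^ i' = 0 :=
    Finset.prod_eq_zero (Finset.mem_range.2 (hc i).1) (by rw [pow_zero, pow_one, h0])
  rw [h1]
  exact zero_pow (Nat.one_le_iff_ne_zero.1 (hc i).2)

private theorem WC_pi {r : ℕ} (f c : Fin r → ℕ) (C p r0 : ℕ) (h : ∀ j, f j ≤ C * (p ^ c j) ^ r0) :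
    ∏ j, f j ≤ C ^ r * p ^ ((∑ j, c j) * r0) := by
  calc ∏ j, f j ≤ ∏ j : Fin r, (C * (p ^ c j) ^ r0) := Finset.prod_le_prod' fun l _ => h l
    _ = C ^ r * p ^ ((∑ j, c j) * r0) := by
        rw [Finset.prod_mul_distrib, Finset.prod_const, Finset.card_univ, Fintype.card_fin, Finset.prod_pow,
          Finset.prod_pow_eq_pow_sum, ← pow_mul]

private theorem WC_pj {w : ℕ} (W : Finset (Fin w)) (f : Fin w → ℕ) (C q p : ℕ) (h : ∀ i, f i * p ≤ C * q) :
    (∏ i ∈ W, f i) * p ^ W.card ≤ C ^ W.card * q ^ W.card := by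
  calc (∏ i ∈ W, f i) * p ^ W.card = ∏ i ∈ W, (f i * p) := by
        rw [Finset.prod_mul_distrib, Finset.prod_const]
    _ ≤ ∏ _i ∈ W, (C * q) := Finset.prod_le_prod' fun l _ => h l
    _ = C ^ W.card * q ^ W.card := by
        rw [Finset.prod_const, mul_pow]

open Classical in
theorem un_cnt (K : Type) [Field K] [NumberField K] {n h M w r0 : ℕ} {κ : Type} [Fintype κ] {δ : Fin w → ℕ}
    {d' : Fin w → Fin h → ℕ} (A' B' : Fin h → 𝓞 K) (E' : Fin w → κ → Fin n → ℤ) (b : IxM κ M δ d' → 𝓞 K)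
    (hF : FibP A' B' E' b r0) (k : ℕ) (W : Finset (Fin w)) (hW : ∀ i ∈ W, 1 ≤ δ i) :
    ∃ C p1 : ℕ, ∀ (p : ℕ) [Fact p.Prime], p1 ≤ p →
    ∀ (φ : 𝓞 K →+* ZMod p) (r : ℕ) (c μ : Fin r → ℕ), 1 ≤ r → (∀ j, 1 ≤ c j ∧ 1 ≤ μ j) → ∑ j, μ j * c j ≤ k →
    ∀ (t : Fin r → Fin n → Om p) (P : Fin r → Fin h → Option (Om p × Om p)),
      (∀ j l, t j l ≠ 0 ∧ t j l ^ p ^ c j = t j l) →
      (∀ j l, IsPt (em p (φ (A' l))) (em p (φ (B' l))) (P j l) ∧ (frO p)^[c j] (P j l) = P j l) →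
    ∀ θ : Fin w → Om p, (∀ i ∈ W, θ i ≠ 0) →
    ∃ T : Finset (Fin r → Fin (M + 1) → Om p),
      T.card * p ^ W.card ≤ C * p ^ ((∑ j, c j) * (r0 + W.card)) ∧
      ∀ y : Fin r → Fin (M + 1) → Om p, (∀ j l, y j l ^ p ^ c j = y j l) →
        (∀ i ∉ W, ∀ j, sM E' (fun x => em p (φ (b x))) (t j) (P j) (y j) i = 0) →
        (∀ i ∈ W, ∏ j, (∏ i' ∈ range (c j), sM E' (fun x => em p (φ (b x))) (t j) (P j) (y j) i ^ p ^ i') ^ μ j = θ i) →
        y ∈ T := by
  obtain ⟨C1, q1, h1⟩ := base_T k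
  obtain ⟨C2, N0, hN0, h2⟩ := fib_cntW K A' B' E' b hF
  refine ⟨C1 ^ W.card * (max C2 1) ^ k, q1 + N0 + 1, ?_⟩
  intro p _ hp φ r c μ hr hc hk t P ht hP θ hθ
  have hp1 : q1 ≤ p := by omega
  have hpN : ¬ p ∣ N0 := by
    intro hd
    have := Nat.le_of_dvd (Nat.pos_of_ne_zero hN0) hd
    omega
  set m : ℕ := ∑ j, c j with hm
  have hrk : r ≤ k := by
    refine le_trans ?_ hk
    calc r = ∑ _j : Fin r, 1 := by simp
      _ ≤ ∑ j, μ j * c j := Finset.sum_le_sum fun j _ => Nat.mul_pos (hc j).2 (hc j).1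
  have hTw : ∀ i : Fin w, ∃ T : Finset (Fin r → Om p), T.card * p ≤ C1 * p ^ m ∧
      ∀ f : Fin r → Om p, (∀ j, f j ≠ 0 ∧ f j ^ p ^ c j = f j) →
        ∏ j, (∏ i ∈ range (c j), f j ^ p ^ i) ^ μ j = θ i → f ∈ T :=
    fun i => h1 p hp1 r c μ hr hc hk (θ i)
  choose Tw hTw1 hTw2 using hTw
  have hY : ∀ (f : Fin w → Fin r → Om p) (j : Fin r), ∃ T : Finset (Fin (M + 1) → Om p),
      T.card ≤ max C2 1 * (p ^ c j) ^ r0 ∧ ((∀ i ∉ W, f i j = 0) →
        ∀ y : Fin (M + 1) → Om p, (∀ l, y l ^ p ^ c j = y l) →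
          (∀ i, sM E' (fun x => em p (φ (b x))) (t j) (P j) y i = f i j) → y ∈ T) := by
    intro f j
    by_cases hh : ∀ i ∉ W, f i j = 0
    · obtain ⟨T, hT1, hT2⟩ := h2 p hpN φ (c j) (hc j).1 (t j) (P j) (ht j) (hP j) (fun i => f i j) (fun i => by
        by_cases hi : i ∈ W
        · exact Or.inr (hW i hi)
        · exact Or.inl (hh i hi))
      exact ⟨T, hT1.trans (Nat.mul_le_mul_right _ (le_max_left _ _)), fun _ y hy1 hy2 => hT2 y hy1 hy2⟩
    · exact ⟨∅, by simp, fun ha => absurd ha hh⟩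
  choose Ty hTy1 hTy2 using hY
  let F : Finset (Fin w → Fin r → Om p) := Fintype.piFinset fun i => if i ∈ W then Tw i else {0}
  have hFc : F.card = ∏ i ∈ W, (Tw i).card := by
    change (Fintype.piFinset fun i => if i ∈ W then Tw i else {0}).card = _
    rw [Fintype.card_piFinset]
    have e2 : ∀ i, (if i ∈ W then Tw i else {0} : Finset (Fin r → Om p)).card = if i ∈ W then (Tw i).card else 1 := by
      intro i
      split_ifs
      · rfl
      · exact Finset.card_singleton _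
    simp only [e2]
    rw [Finset.prod_ite_mem, Finset.univ_inter]
  have hF1 : F.card * p ^ W.card ≤ C1 ^ W.card * p ^ (m * W.card) := by
    rw [hFc, pow_mul]
    exact WC_pj W (fun i => (Tw i).card) C1 (p ^ m) p hTw1
  have hYc : ∀ f, (Fintype.piFinset (Ty f)).card ≤ (max C2 1) ^ k * p ^ (m * r0) := by
    intro f
    rw [Fintype.card_piFinset]
    refine (WC_pi (fun j => (Ty f j).card) c (max C2 1) p r0 (hTy1 f)).trans ?_
    exact Nat.mul_le_mul_right _ (Nat.pow_le_pow_right (lt_of_lt_of_le one_pos (le_max_right _ _)) hrk)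
  refine ⟨F.biUnion fun f => Fintype.piFinset (Ty f), ?_, ?_⟩
  · have e1 : (F.biUnion fun f => Fintype.piFinset (Ty f)).card ≤ F.card * ((max C2 1) ^ k * p ^ (m * r0)) := by
      refine Finset.card_biUnion_le.trans ((Finset.sum_le_sum fun f _ => hYc f).trans ?_)
      rw [Finset.sum_const, smul_eq_mul]
    calc (F.biUnion fun f => Fintype.piFinset (Ty f)).card * p ^ W.card ≤
          (F.card * ((max C2 1) ^ k * p ^ (m * r0))) * p ^ W.card := Nat.mul_le_mul_right _ e1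
      _ = (F.card * p ^ W.card) * ((max C2 1) ^ k * p ^ (m * r0)) := by ring
      _ ≤ (C1 ^ W.card * p ^ (m * W.card)) * ((max C2 1) ^ k * p ^ (m * r0)) := Nat.mul_le_mul_right _ hF1
      _ = C1 ^ W.card * (max C2 1) ^ k * p ^ (m * (r0 + W.card)) := by
          rw [mul_add m r0 W.card, pow_add p (m * r0) (m * W.card)]
          ring
  · intro y hy hv0 hvW
    have hfr : ∀ i j, sM E' (fun x => em p (φ (b x))) (t j) (P j) (y j) i ^ p ^ c j =
        sM E' (fun x => em p (φ (b x))) (t j) (P j) (y j) i := by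
      intro i j
      have e := WC_it E' (fun x => φ (b x)) (t j) (P j) (y j) i (c j)
      have e1 : (fun l => t j l ^ p ^ c j) = t j := funext fun l => (ht j l).2
      have e2 : (fun l => y j l ^ p ^ c j) = y j := funext fun l => hy j l
      have e3 : (fun l => (frO p)^[c j] (P j l)) = P j := funext fun l => (hP j l).2
      rw [e1, e2, e3] at e
      exact e.symm
    refine Finset.mem_biUnion.2 ⟨fun i j => sM E' (fun x => em p (φ (b x))) (t j) (P j) (y j) i, ?_, ?_⟩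
    · refine Fintype.mem_piFinset.2 fun i => ?_
      by_cases hi : i ∈ W
      · rw [if_pos hi]
        exact hTw2 i _ (fun j => ⟨WC_ne c μ hc _ (hθ i hi) (hvW i hi) j, hfr i j⟩) (hvW i hi)
      · rw [if_neg hi, Finset.mem_singleton]
        exact funext fun j => hv0 i hi j
    · refine Fintype.mem_piFinset.2 fun j => ?_
      exact hTy2 _ j (fun i hi => hv0 i hi j) (y j) (hy j) fun i => rfl

end DP
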