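import Pool.Agent.Lib.MP_17a322_ntDP.WB
import Pool.Agent.Lib.MP_17a322_ntDP.WE
import Pool.Agent.Lib.MP_17a322_ntDP.VA
import Pool.Agent.Lib.MP_17a322_ntDP.CY

/-!
# LEAF WF: the number of the coefficients for one pattern, pairs with fixed components

PROOF.  As `pat_cntV` (`VB_.lean`; copy its private lemmas with the prefix `WF_`).  `C1, p1` from `pat_TP n (h + g) M k`, `C2, p2` from `pair_cnt K A' B' E' b hF k W hW`, `C3, p3` from `base_T k`; `C = C1 * C2 * C3 ^ V.card` (take `max C3 1`), `q = h + g`, `N = Fintype.card (IxM ι M ν d × Fin e)`, `m = ∑ j, c j`, `1 ≤ m ≤ k`.  `B` from `pat_TP` for `u, z`: `B.card * p ^ (n + q) ≤ C1 * p ^ (m * (n + q))`.  For `tP ∈ B` with `tP.1 l j ≠ 0`, `tP.1 l j ^ p ^ c j = tP.1 l j`, `(⇑(Φ l))^[c j] (tP.2 l j) = tP.2 l j` the finset `TT tP` of `pair_cnt` for `t j l = tP.1 l j`, `P j l = opP (tP.2 (castAdd g l) j)` (as in the proof of `pat_T`, `AA.lean`: `isPt_opP`,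 `AA_iter`), `act`, `val = θ`: `(TT tP).card * p ^ (m + W.card) ≤ C2 * p ^ ρ * p ^ (m * (r0 + W.card))`; otherwise the empty set.  For `(tP, (x0, y))` with `y` and the points as in `Pat` and the injectivity, `x j = (fun l => tP.1 l j, fun l => tP.2 l j, y j)`, the number of the `a` for which the sections of index not in `V`, `R` vanish at the `x j` and the products for `j ∈ V` are `em p (τ x0 j)` is bounded by `card_val` (as `VB_one`) with the finset `V ∪ R` in the place of `V`: `Z j` for `j ∈ V` from `base_T k` for `u = em p (τ x0 j)` as in `VB_.lean`, `(Z j).card * p ≤ C3 * p ^ m`; for `j ∈ R \ V` let `Z j` be the image of `{f : Fin r → Om p | f i ^ p ^ c i = f i}` (a finset with `∏ i, p ^ c i = p ^ m` elements: `gal_im p (c i)` and `Fintype.piFinset`) under `f ↦ ((i, i') ↦ f i ^ p ^ i')`: `(Z j).card ≤ p ^ m`.  So `V_x * p ^ (s * m) * p ^ V.card ≤ C3 ^ V.card * p ^ (m * V.card) * p ^ (m * (R \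 V).card) * p ^ N`.  Sum over `tP` and `TT tP`: `# * p ^ (s * m + V.card + (n + q) + (m + W.card)) ≤ C1 * C2 * C3 ^ V.card * p ^ (ρ + m * (n + q + r0 + W.card + V.card + (R \ V).card)) * p ^ N`, and `m * A + (ρ + 1) ≤ B + m * (s + 1)` with `A = n + q + r0 + W.card + V.card + (R \ V).card`, `B = n + q + W.card + V.card` by `VB_arith` (copy; `ρ ≤ B` by `hρ`).
-/

set_option autoImplicit false

namespace DP

open Finset NumberField LVH VK FB

private theorem WF_arith {A B S ρ k m : ℕ} (hm : 1 ≤ m) (hmk : m ≤ k) (hρ : ρ ≤ B) (h : k * A + ρ < B + k * S) :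
    m * A + (ρ + 1) ≤ B + m * S := by
  rcases lt_or_ge A S with h1 | h1
  · obtain ⟨e, rfl⟩ := Nat.exists_eq_add_of_lt h1
    nlinarith
  · obtain ⟨e, rfl⟩ := Nat.exists_eq_add_of_le h1
    have h2 : k * e + ρ < B := by nlinarith
    have h3 : m * e ≤ k * e := Nat.mul_le_mul hmk le_rfl
    nlinarith

/-- the value of the section of index `j` at the point `x` -/
private noncomputable abbrev WF_val {p : ℕ} [Fact p.Prime] {n q M s e : ℕ} {ι : Type} [Fintype ι] {ν : Fin s → ℕ}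
    {d : Fin s → Fin q → ℕ} {α β : Fin q → ZMod p} (E : Fin s → ι → Fin n → ℤ) (v : Fin e → ZMod p)
    (a : IxM ι M ν d × Fin e → ZMod p) (x : Xp p n M α β) (j : Fin s) : Om p :=
  sM E (fun x => em p (∑ i, a (x, i) * v i)) x.1 (fun l => opP (x.2.1 l)) x.2.2 j

open Classical in
/-- the values at the conjugates of a point -/
private theorem WF_it {p : ℕ} [Fact p.Prime] {n M q s e : ℕ} {ι : Type} [Fintype ι] {ν : Fin s → ℕ}
    {d : Fin s → Fin q → ℕ} {α β : Fin q → ZMod p}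
    {Φ : (l : Fin q) → Pt (em p (α l)) (em p (β l)) →+ Pt (em p (α l)) (em p (β l))}
    (hΦ : IsFr p Φ) (E : Fin s → ι → Fin n → ℤ) (v : Fin e → ZMod p) (a : IxM ι M ν d × Fin e → ZMod p)
    (x : Xp p n M α β) (j : Fin s) (i : ℕ) :
    WF_val E v a ((stp Φ)^[i] x) j = WF_val E v a x j ^ p ^ i := by
  induction i with
  | zero =>
    rw [pow_zero, pow_one]
    rfl
  | succ i ih =>
    rw [Function.iterate_succ_apply']
    obtain ⟨w, hw⟩ : ∃ w, w = (stp Φ)^[i] x := ⟨_, rfl⟩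
    rw [← hw] at ih ⊢
    have h1 : (fun l => opP ((stp Φ w).2.1 l)) = fun l => frO p (opP (w.2.1 l)) := funext fun l => hΦ l (w.2.1 l)
    have h2 := sM_fr E (fun x => ∑ i, a (x, i) * v i) w.1 (fun l => opP (w.2.1 l)) w.2.2 j
    have h3 : WF_val E v a (stp Φ w) j = WF_val E v a w j ^ p := by
      show sM E (fun x => em p (∑ i, a (x, i) * v i)) (stp Φ w).1 (fun l => opP ((stp Φ w).2.1 l)) (stp Φ w).2.2 j = _
      rw [h1]
      exact h2
    rw [h3, ih, ← pow_mul, ← pow_succ]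

open Classical in
private theorem WF_one {p : ℕ} [Fact p.Prime] {n q M s e k : ℕ} {ι : Type} [Fintype ι] (α β : Fin q → ZMod p)
    (ν : Fin s → ℕ) (d : Fin s → Fin q → ℕ) (E : Fin s → ι → Fin n → ℤ) (hE : ∀ j, Rich k (E j))
    (hd : ∀ j l, 2 * (k - 1) ≤ d j l) (hν : ∀ j, k - 1 ≤ ν j ∨ M = 0)
    (Φ : (l : Fin q) → Pt (em p (α l)) (em p (β l)) →+ Pt (em p (α l)) (em p (β l)))
    {r : ℕ} (c : Fin r → ℕ) (hm : ∑ j, c j ≤ k) (x : Fin r → Xp p n M α β)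
    (hx1 : ∀ j l, (x j).1 l ≠ 0) (hx2 : ∀ j, Nrm (x j).2.2)
    (hinj : Function.Injective (fun i : (j : Fin r) × Fin (c j) => (stp Φ)^[(i.2 : ℕ)] (x i.1)))
    (v : Fin e → ZMod p) (hv : v ≠ 0) (V : Finset (Fin s)) (Z : Fin s → Finset (((j : Fin r) × Fin (c j)) → Om p)) :
    Nat.card {a : IxM ι M ν d × Fin e → ZMod p //
      (∀ j ∉ V, ∀ i : (j : Fin r) × Fin (c j), WF_val E v a ((stp Φ)^[(i.2 : ℕ)] (x i.1)) j = 0) ∧
      ∀ j ∈ V, (fun i : (j : Fin r) × Fin (c j) => WF_val E v a ((stp Φ)^[(i.2 : ℕ)] (x i.1)) j) ∈ Z j} *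
      p ^ (s * ∑ j, c j) ≤ (∏ j ∈ V, (Z j).card) * p ^ Fintype.card (IxM ι M ν d × Fin e) := by
  have hcard : Fintype.card ((j : Fin r) × Fin (c j)) = ∑ j, c j := by
    rw [Fintype.card_sigma]; simp
  have h := card_val (fun l => em p (α l)) (fun l => em p (β l)) ν d E hE hd hν (C := (j : Fin r) × Fin (c j))
    (by rw [hcard]; exact hm)
    (fun i => ((stp Φ)^[(i.2 : ℕ)] (x i.1)).1) (fun i l => opP (((stp Φ)^[(i.2 : ℕ)] (x i.1)).2.1 l))
    (fun i => ((stp Φ)^[(i.2 : ℕ)] (x i.1)).2.2) ?_ ?_ ?_ ?_ v hv V Z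
  · rw [hcard] at h
    exact h
  · intro i l
    rw [stp_it]
    exact pow_ne_zero _ (hx1 i.1 l)
  · intro i l
    exact isPt_opP _
  · intro i
    rw [stp_it]
    obtain ⟨w, hw1, hw2⟩ := hx2 i.1
    refine ⟨w, ?_, fun i' hi' => ?_⟩
    · show (x i.1).2.2 w ^ p ^ (i.2 : ℕ) = 1
      rw [hw1, one_pow]
    · show (x i.1).2.2 i' ^ p ^ (i.2 : ℕ) = 0
      rw [hw2 i' hi', zero_pow (pow_ne_zero _ (Nat.Prime.ne_zero Fact.out))]
  · intro i i' hii
    apply hinj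
    have h1 := (Prod.mk.inj hii).1
    have h2 := (Prod.mk.inj (Prod.mk.inj hii).2).1
    have h3 := (Prod.mk.inj (Prod.mk.inj hii).2).2
    refine Prod.ext h1 (Prod.ext (funext fun l => opP_inj (congrFun h2 l)) h3)

open Classical in
/-- a point of a pattern is fixed by the iterate of Frobenius -/
private theorem WF_fix {p : ℕ} [Fact p.Prime] {n M q r : ℕ} {α β : Fin q → ZMod p}
    {Φ : (l : Fin q) → Pt (em p (α l)) (em p (β l)) →+ Pt (em p (α l)) (em p (β l))} {c μ : Fin r → ℕ}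
    {u : Fin n → ZMod p} {z : (l : Fin q) → Pt (em p (α l)) (em p (β l))} {x : Fin r → Xp p n M α β}
    (h : Pat Φ c μ u z x) (i : Fin r) : (stp Φ)^[c i] (x i) = x i := by
  rw [stp_it]
  exact Prod.ext (funext fun l => (h.1 i l).2) (Prod.ext (funext fun l => h.2.1 i l) (funext fun l => (h.2.2.1 i).2 l))

/-- the factors of a product of norms which is not zero -/
private theorem WF_ne {F : Type} [Field F] {p r : ℕ} (c μ : Fin r → ℕ) (hc : ∀ j, 1 ≤ c j ∧ 1 ≤ μ j) (f : Fin r → F)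
    {τ : F} (hτ : τ ≠ 0) (h : ∏ i, (∏ i' ∈ range (c i), f i ^ p ^ i') ^ μ i = τ) (i : Fin r) : f i ≠ 0 := by
  intro h0
  rw [← h, Finset.prod_ne_zero_iff] at hτ
  refine hτ i (Finset.mem_univ i) ?_
  have h1 : ∏ i' ∈ range (c i), f i ^ p ^ i' = 0 :=
    Finset.prod_eq_zero (Finset.mem_range.2 (hc i).1) (by rw [pow_zero, pow_one, h0])
  rw [h1]
  exact zero_pow (Nat.one_le_iff_ne_zero.1 (hc i).2)

private theorem WF_fin (p : ℕ) [Fact p.Prime] (m : ℕ) (hm : 1 ≤ m) :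
    ∃ T : Finset (Om p), T.card ≤ p ^ m ∧ ∀ x : Om p, x ^ p ^ m = x → x ∈ T := by
  classical
  obtain ⟨k, _, _, f, hk, him⟩ := gal_im p m hm
  have : Fintype k := Fintype.ofFinite k
  refine ⟨Finset.univ.image f, ?_, fun x hx => ?_⟩
  · refine Finset.card_image_le.trans ?_
    rw [Finset.card_univ, ← Nat.card_eq_fintype_card, hk]
  · obtain ⟨y, hy⟩ := (him x).1 hx
    exact Finset.mem_image.2 ⟨y, Finset.mem_univ _, hy⟩

private theorem WF_fin2 (p : ℕ) [Fact p.Prime] {r : ℕ} (c : Fin r → ℕ) (hc : ∀ j, 1 ≤ c j) :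
    ∃ T : Finset (Fin r → Om p), T.card ≤ p ^ ∑ j, c j ∧ ∀ f : Fin r → Om p, (∀ j, f j ^ p ^ c j = f j) → f ∈ T := by
  classical
  choose T hT1 hT2 using fun j => WF_fin p (c j) (hc j)
  refine ⟨Fintype.piFinset T, ?_, fun f hf => Fintype.mem_piFinset.2 fun j => hT2 j _ (hf j)⟩
  rw [Fintype.card_piFinset, ← Finset.prod_pow_eq_pow_sum]
  exact Finset.prod_le_prod' fun j _ => hT1 j

open Classical in
/-- the families of the values at the conjugates -/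
private theorem WF_Z {p : ℕ} [Fact p.Prime] {r s C3 : ℕ} (c μ : Fin r → ℕ) (hc : ∀ j, 1 ≤ c j ∧ 1 ≤ μ j)
    (H : ∀ u : Om p, ∃ T : Finset (Fin r → Om p), T.card * p ≤ C3 * p ^ ∑ j, c j ∧
      ∀ t : Fin r → Om p, (∀ j, t j ≠ 0 ∧ t j ^ p ^ c j = t j) →
        ∏ j, (∏ i ∈ range (c j), t j ^ p ^ i) ^ μ j = u → t ∈ T)
    (V R : Finset (Fin s)) (τ : Fin s → Om p) :
    ∃ Z : Fin s → Finset (((j : Fin r) × Fin (c j)) → Om p),
      (∏ j ∈ V ∪ R, (Z j).card) * p ^ V.card ≤ C3 ^ V.card * p ^ ((∑ j, c j) * (V.card + (R \ V).card)) ∧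
      (∀ j ∈ V, ∀ t : Fin r → Om p, (∀ j, t j ≠ 0 ∧ t j ^ p ^ c j = t j) →
        ∏ i, (∏ i' ∈ range (c i), t i ^ p ^ i') ^ μ i = τ j →
        (fun i : (j : Fin r) × Fin (c j) => t i.1 ^ p ^ (i.2 : ℕ)) ∈ Z j) ∧
      ∀ j ∉ V, ∀ t : Fin r → Om p, (∀ j, t j ^ p ^ c j = t j) →
        (fun i : (j : Fin r) × Fin (c j) => t i.1 ^ p ^ (i.2 : ℕ)) ∈ Z j := by
  choose Tj hTj1 hTj2 using fun j : Fin s => H (τ j)
  obtain ⟨T0, hT01, hT02⟩ := WF_fin2 p c fun j => (hc j).1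
  let G : (Fin r → Om p) → ((j : Fin r) × Fin (c j)) → Om p := fun f i => f i.1 ^ p ^ (i.2 : ℕ)
  refine ⟨fun j => if j ∈ V then (Tj j).image G else T0.image G, ?_, ?_, ?_⟩
  · have e1 : ∏ j ∈ V ∪ R, ((if j ∈ V then (Tj j).image G else T0.image G :
        Finset (((j : Fin r) × Fin (c j)) → Om p))).card =
        (∏ j ∈ V, ((Tj j).image G).card) * ∏ _j ∈ R \ V, (T0.image G).card := by
      rw [← Finset.union_sdiff_self_eq_union, Finset.prod_union Finset.disjoint_sdiff]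
      congr 1
      · refine Finset.prod_congr rfl fun j hj => ?_
        rw [if_pos hj]
      · refine Finset.prod_congr rfl fun j hj => ?_
        rw [if_neg (Finset.mem_sdiff.1 hj).2]
    have e2 : (∏ j ∈ V, ((Tj j).image G).card) * p ^ V.card ≤ C3 ^ V.card * p ^ ((∑ j, c j) * V.card) := by
      calc (∏ j ∈ V, ((Tj j).image G).card) * p ^ V.card = ∏ j ∈ V, (((Tj j).image G).card * p) := by
            rw [Finset.prod_mul_distrib, Finset.prod_const]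
        _ ≤ ∏ _j ∈ V, (C3 * p ^ ∑ j, c j) :=
            Finset.prod_le_prod' fun j _ => (Nat.mul_le_mul_right _ Finset.card_image_le).trans (hTj1 j)
        _ = C3 ^ V.card * p ^ ((∑ j, c j) * V.card) := by rw [Finset.prod_const, mul_pow, ← pow_mul]
    have e3 : ∏ _j ∈ R \ V, (T0.image G).card ≤ p ^ ((∑ j, c j) * (R \ V).card) := by
      rw [Finset.prod_const, pow_mul]
      exact Nat.pow_le_pow_left (Finset.card_image_le.trans hT01) _
    rw [e1]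
    calc (∏ j ∈ V, ((Tj j).image G).card) * (∏ _j ∈ R \ V, (T0.image G).card) * p ^ V.card =
          ((∏ j ∈ V, ((Tj j).image G).card) * p ^ V.card) * ∏ _j ∈ R \ V, (T0.image G).card := by ring
      _ ≤ (C3 ^ V.card * p ^ ((∑ j, c j) * V.card)) * p ^ ((∑ j, c j) * (R \ V).card) := Nat.mul_le_mul e2 e3
      _ = C3 ^ V.card * p ^ ((∑ j, c j) * (V.card + (R \ V).card)) := by rw [mul_add, pow_add]; ring
  · intro j hj t ht h1
    show _ ∈ (if j ∈ V then (Tj j).image G else T0.image G)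
    rw [if_pos hj]
    exact Finset.mem_image.2 ⟨t, hTj2 j t ht h1, rfl⟩
  · intro j hj t ht
    show _ ∈ (if j ∈ V then (Tj j).image G else T0.image G)
    rw [if_neg hj]
    exact Finset.mem_image.2 ⟨t, hT02 t ht, rfl⟩

open Classical in
private theorem WF_iter {p : ℕ} [Fact p.Prime] {q : ℕ} {α β : Fin q → ZMod p}
    {Φ : (l : Fin q) → Pt (em p (α l)) (em p (β l)) →+ Pt (em p (α l)) (em p (β l))} (hΦ : IsFr p Φ) (l : Fin q)
    (m : ℕ) (P : Pt (em p (α l)) (em p (β l))) : (frO p)^[m] (opP P) = opP ((⇑(Φ l))^[m] P) := by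
  have h : Function.Semiconj (opP : Pt (em p (α l)) (em p (β l)) → Option (Om p × Om p)) (⇑(Φ l)) (frO p) :=
    fun Q => hΦ l Q
  exact ((h.iterate_right m) P).symm

private theorem WF_isPt {F : Type} [Field F] {a b a' b' : F} (ha : a = a') (hb : b = b') {z : Option (F × F)}
    (h : IsPt a b z) : IsPt a' b' z := by
  subst ha
  subst hb
  exact h

open Classical in
/-- the number of the pairs of a family of values and a tuple of points -/
private theorem WF_T (K : Type) [Field K] [NumberField K] {n h M w r0 : ℕ} {κ : Type} [Fintype κ] {δ : Fin w → ℕ}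
    {d' : Fin w → Fin h → ℕ} (A' B' : Fin h → 𝓞 K) (E' : Fin w → κ → Fin n → ℤ) (b : IxM κ M δ d' → 𝓞 K)
    (hF : FibP A' B' E' b r0) (k g : ℕ) (W : Finset (Fin w)) (hW : ∀ i ∈ W, 1 ≤ δ i) :
    ∃ C p1 : ℕ, ∀ (p : ℕ) [Fact p.Prime], p1 ≤ p → ∀ (φ : 𝓞 K →+* ZMod p)
    (α β : Fin (h + g) → ZMod p), (∀ l, ds (α l) (β l) ≠ 0) →
    (∀ l : Fin h, α (Fin.castAdd g l) = φ (A' l) ∧ β (Fin.castAdd g l) = φ (B' l)) →
    ∀ Φ : (l : Fin (h + g)) → Pt (em p (α l)) (em p (β l)) →+ Pt (em p (α l)) (em p (β l)), IsFr p Φ →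
    ∀ (r : ℕ) (c μ : Fin r → ℕ), 1 ≤ r → (∀ j, 1 ≤ c j ∧ 1 ≤ μ j) → ∑ j, μ j * c j ≤ k →
    ∀ (u : Fin n → ZMod p) (z : (l : Fin (h + g)) → Pt (em p (α l)) (em p (β l))),
    ∀ (X : Type) [Fintype X] (act : (ZMod p)ˣ → X → X) (θ : X → Fin w → ZMod p), (∀ a, Function.Injective (act a)) →
      (∀ a x, ∀ i ∈ W, θ (act a x) i = (a : ZMod p) ^ δ i * θ x i) → (∀ x, ∀ i ∈ W, θ x i ≠ 0) →
    ∃ T : Finset (X × (Fin r → Xp p n M α β)),
      T.card * p ^ (n + (h + g) + ((∑ j, c j) + W.card)) ≤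
        C * Fintype.card X * p ^ ((∑ j, c j) * (n + (h + g) + (r0 + W.card))) ∧
      ∀ x0 x, Pat Φ c μ u z x →
        (∀ i ∉ W, ∀ j, sM E' (fun x => em p (φ (b x))) (x j).1 (fun l => opP ((x j).2.1 (Fin.castAdd g l)))
          (x j).2.2 i = 0) →
        (∀ i ∈ W, ∏ j, (∏ i' ∈ range (c j), sM E' (fun x => em p (φ (b x))) (x j).1
          (fun l => opP ((x j).2.1 (Fin.castAdd g l))) (x j).2.2 i ^ p ^ i') ^ μ j = em p (θ x0 i)) →
        (x0, x) ∈ T := by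
  obtain ⟨C1, q1, h1⟩ := pat_TP n (h + g) M k
  obtain ⟨C2, q2, h2⟩ := pair_cnt K A' B' E' b hF k W hW
  refine ⟨C1 * C2, max q1 q2, ?_⟩
  intro p _ hp φ α β hds hαβ Φ hΦ r c μ hr hc hk u z X _ act θ hact hθ hθ0
  have hp1 : q1 ≤ p := (le_max_left q1 q2).trans hp
  have hp2 : q2 ≤ p := (le_max_right q1 q2).trans hp
  obtain ⟨B, hB1, hB2⟩ := h1 p hp1 α β hds Φ hΦ r c μ hr hc hk u z
  have hY : ∀ tP : (Fin n → Fin r → Om p) × ((l : Fin (h + g)) → Fin r → Pt (em p (α l)) (em p (β l))),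
      ∃ T : Finset (X × (Fin r → Fin (M + 1) → Om p)),
      T.card * p ^ ((∑ j, c j) + W.card) ≤ C2 * Fintype.card X * p ^ ((∑ j, c j) * (r0 + W.card)) ∧
      ((∀ j l, tP.1 l j ≠ 0 ∧ tP.1 l j ^ p ^ c j = tP.1 l j) →
        (∀ (j : Fin r) (l : Fin (h + g)), (⇑(Φ l))^[c j] (tP.2 l j) = tP.2 l j) →
        ∀ (x : X) (y : Fin r → Fin (M + 1) → Om p), (∀ j, Nrm (y j) ∧ ∀ l, y j l ^ p ^ c j = y j l) →
          (∀ i ∉ W, ∀ j, sM E' (fun x => em p (φ (b x))) (fun l => tP.1 l j)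
            (fun l => opP (tP.2 (Fin.castAdd g l) j)) (y j) i = 0) →
          (∀ i ∈ W, ∏ j, (∏ i' ∈ range (c j), sM E' (fun x => em p (φ (b x))) (fun l => tP.1 l j)
            (fun l => opP (tP.2 (Fin.castAdd g l) j)) (y j) i ^ p ^ i') ^ μ j = em p (θ x i)) → (x, y) ∈ T) := by
    intro tP
    by_cases hh : (∀ j l, tP.1 l j ≠ 0 ∧ tP.1 l j ^ p ^ c j = tP.1 l j) ∧
        (∀ (j : Fin r) (l : Fin (h + g)), (⇑(Φ l))^[c j] (tP.2 l j) = tP.2 l j)
    · obtain ⟨T, hT1, hT2⟩ := h2 p hp2 φ r c μ hr hc hk (fun j l => tP.1 l j)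
        (fun j l => opP (tP.2 (Fin.castAdd g l) j)) hh.1 (fun j l => by
          refine ⟨?_, ?_⟩
          · exact WF_isPt (congrArg (em p) (hαβ l).1) (congrArg (em p) (hαβ l).2)
              (isPt_opP (tP.2 (Fin.castAdd g l) j))
          · rw [WF_iter hΦ, hh.2]) X act θ hact hθ hθ0
      exact ⟨T, hT1, fun _ _ x y hy1 hy2 hy3 => hT2 x y hy1 hy2 hy3⟩
    · refine ⟨∅, by simp, fun ha hb => absurd ⟨ha, hb⟩ hh⟩
  choose TT hTT1 hTT2 using hY
  let F : ((Fin n → Fin r → Om p) × ((l : Fin (h + g)) → Fin r → Pt (em p (α l)) (em p (β l)))) →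
      (X × (Fin r → Fin (M + 1) → Om p)) → X × (Fin r → Xp p n M α β) :=
    fun tP xy => (xy.1, fun j => (fun l => tP.1 l j, fun l => tP.2 l j, xy.2 j))
  refine ⟨B.biUnion fun tP => (TT tP).image (F tP), ?_, ?_⟩
  · have e1 : (B.biUnion fun tP => (TT tP).image (F tP)).card ≤ ∑ tP ∈ B, (TT tP).card :=
      Finset.card_biUnion_le.trans (Finset.sum_le_sum fun tP _ => Finset.card_image_le)
    have e2 : (∑ tP ∈ B, (TT tP).card) * p ^ ((∑ j, c j) + W.card) ≤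
        B.card * (C2 * Fintype.card X * p ^ ((∑ j, c j) * (r0 + W.card))) := by
      rw [Finset.sum_mul]
      refine (Finset.sum_le_sum fun tP _ => hTT1 tP).trans ?_
      rw [Finset.sum_const, smul_eq_mul]
    calc (B.biUnion fun tP => (TT tP).image (F tP)).card * p ^ (n + (h + g) + ((∑ j, c j) + W.card)) ≤
          (∑ tP ∈ B, (TT tP).card) * p ^ (n + (h + g) + ((∑ j, c j) + W.card)) := Nat.mul_le_mul_right _ e1
      _ = ((∑ tP ∈ B, (TT tP).card) * p ^ ((∑ j, c j) + W.card)) * p ^ (n + (h + g)) := by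
          rw [pow_add p (n + (h + g)) ((∑ j, c j) + W.card)]
          ring
      _ ≤ (B.card * (C2 * Fintype.card X * p ^ ((∑ j, c j) * (r0 + W.card)))) * p ^ (n + (h + g)) :=
          Nat.mul_le_mul_right _ e2
      _ = (B.card * p ^ (n + (h + g))) * (C2 * Fintype.card X * p ^ ((∑ j, c j) * (r0 + W.card))) := by ring
      _ ≤ (C1 * p ^ ((∑ j, c j) * (n + (h + g)))) * (C2 * Fintype.card X * p ^ ((∑ j, c j) * (r0 + W.card))) :=
          Nat.mul_le_mul_right _ hB1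
      _ = C1 * C2 * Fintype.card X * p ^ ((∑ j, c j) * (n + (h + g) + (r0 + W.card))) := by
          rw [mul_add (∑ j, c j) (n + (h + g)) (r0 + W.card), pow_add p ((∑ j, c j) * (n + (h + g)))]
          ring
  · intro x0 x hx hv hw
    have hx' := hx
    obtain ⟨a1, a2, a3, a4, a5⟩ := hx
    refine Finset.mem_biUnion.2 ⟨_, hB2 x hx', Finset.mem_image.2 ⟨(x0, fun j => (x j).2.2), ?_, ?_⟩⟩
    · exact hTT2 _ (fun j l => a1 j l) (fun j l => a2 j l) x0 _ a3 hv hw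
    · rfl

open Classical in
theorem pat_cntW (K : Type) [Field K] [NumberField K] {n h M w r0 : ℕ} {κ : Type} [Fintype κ] {δ : Fin w → ℕ}
    {d' : Fin w → Fin h → ℕ} (A' B' : Fin h → 𝓞 K) (E' : Fin w → κ → Fin n → ℤ) (b : IxM κ M δ d' → 𝓞 K)
    (hF : FibP A' B' E' b r0) (k g s e : ℕ) {ι : Type} [Fintype ι] (ν : Fin s → ℕ) (d : Fin s → Fin (h + g) → ℕ)
    (E : Fin s → ι → Fin n → ℤ) (hE : ∀ j, Rich k (E j)) (hd : ∀ j l, 2 * (k - 1) ≤ d j l)
    (hν : ∀ j, k - 1 ≤ ν j ∨ M = 0) (W : Finset (Fin w)) (hW : ∀ i ∈ W, 1 ≤ δ i) (V R : Finset (Fin s)) (ρ : ℕ)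
    (hρ : ρ ≤ W.card + V.card)
    (hk : k * (n + (h + g) + r0 + W.card + V.card + (R \ V).card) + ρ < n + (h + g) + W.card + V.card + k * (s + 1)) :
    ∃ C p1 : ℕ, ∀ (p : ℕ) [Fact p.Prime], p1 ≤ p → ∀ (φ : 𝓞 K →+* ZMod p)
    (α β : Fin (h + g) → ZMod p), (∀ l, ds (α l) (β l) ≠ 0) →
    (∀ l : Fin h, α (Fin.castAdd g l) = φ (A' l) ∧ β (Fin.castAdd g l) = φ (B' l)) →
    ∀ Φ : (l : Fin (h + g)) → Pt (em p (α l)) (em p (β l)) →+ Pt (em p (α l)) (em p (β l)), IsFr p Φ →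
    ∀ (r : ℕ) (c μ : Fin r → ℕ), 1 ≤ r → (∀ j, 1 ≤ c j ∧ 1 ≤ μ j) → ∑ j, μ j * c j ≤ k →
    ∀ (u : Fin n → ZMod p) (z : (l : Fin (h + g)) → Pt (em p (α l)) (em p (β l))) (v : Fin e → ZMod p), v ≠ 0 →
    ∀ (X : Type) [Fintype X] (act : (ZMod p)ˣ → X → X) (θ : X → Fin w → ZMod p) (τ : X → Fin s → ZMod p),
      Fintype.card X ≤ p ^ ρ → (∀ a, Function.Injective (act a)) →
      (∀ a x, ∀ i ∈ W, θ (act a x) i = (a : ZMod p) ^ δ i * θ x i) → (∀ x, ∀ i ∈ W, θ x i ≠ 0) →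
      (∀ x, ∀ j ∈ V, τ x j ≠ 0) →
    Nat.card {a : IxM ι M ν d × Fin e → ZMod p // ∃ (x0 : X) (x : Fin r → Xp p n M α β), Pat Φ c μ u z x ∧
      Function.Injective (fun i : (j : Fin r) × Fin (c j) => (stp Φ)^[(i.2 : ℕ)] (x i.1)) ∧
      (∀ i ∉ W, ∀ j, sM E' (fun x => em p (φ (b x))) (x j).1 (fun l => opP ((x j).2.1 (Fin.castAdd g l)))
        (x j).2.2 i = 0) ∧
      (∀ i ∈ W, ∏ j, (∏ i' ∈ range (c j), sM E' (fun x => em p (φ (b x))) (x j).1
        (fun l => opP ((x j).2.1 (Fin.castAdd g l))) (x j).2.2 i ^ p ^ i') ^ μ j = em p (θ x0 i)) ∧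
      (∀ j ∉ V, j ∉ R → ∀ i, sM E (fun x => em p (∑ i, a (x, i) * v i)) (x i).1 (fun l => opP ((x i).2.1 l))
        (x i).2.2 j = 0) ∧
      ∀ j ∈ V, ∏ i, (∏ i' ∈ range (c i), sM E (fun x => em p (∑ i, a (x, i) * v i)) (x i).1
        (fun l => opP ((x i).2.1 l)) (x i).2.2 j ^ p ^ i') ^ μ i = em p (τ x0 j)} * p ≤
      C * p ^ Fintype.card (IxM ι M ν d × Fin e) := by
  obtain ⟨C1, p1, H⟩ := WF_T K A' B' E' b hF k g W hW
  obtain ⟨C3, p3, H3⟩ := base_T k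
  refine ⟨C1 * C3 ^ V.card, max p1 p3, ?_⟩
  intro p _ hp φ α β hds hαβ Φ hΦ r c μ hr hc hsum u z v hv X _ act θ τ hX hact hθ hθ0 hτ
  have hp1 : p1 ≤ p := (le_max_left _ _).trans hp
  have hp3 : p3 ≤ p := (le_max_right _ _).trans hp
  obtain ⟨T, hT1, hT2⟩ := H p hp1 φ α β hds hαβ Φ hΦ r c μ hr hc hsum u z X act θ hact hθ hθ0
  choose Z hZ1 hZ2 hZ3 using fun x0 : X => WF_Z c μ hc (H3 p hp3 r c μ hr hc hsum) V R (fun j => em p (τ x0 j))
  have hpp : p.Prime := Fact.out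
  have hp0 : 0 < p := hpp.pos
  have : NeZero p := ⟨hp0.ne'⟩
  have hmk : ∑ j, c j ≤ k := (Finset.sum_le_sum fun j _ => Nat.le_mul_of_pos_left _ (hc j).2).trans hsum
  have hm1 : 1 ≤ ∑ j, c j := by
    have h1 : c ⟨0, hr⟩ ≤ ∑ j, c j := Finset.single_le_sum (fun _ _ => Nat.zero_le _) (Finset.mem_univ _)
    exact (hc ⟨0, hr⟩).1.trans h1
  obtain ⟨m, hm⟩ : ∃ m, m = ∑ j, c j := ⟨_, rfl⟩
  obtain ⟨N, hN⟩ : ∃ N, N = Fintype.card (IxM ι M ν d × Fin e) := ⟨_, rfl⟩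
  let PP : (IxM ι M ν d × Fin e → ZMod p) → X → (Fin r → Xp p n M α β) → Prop := fun a x0 x => Pat Φ c μ u z x ∧
      Function.Injective (fun i : (j : Fin r) × Fin (c j) => (stp Φ)^[(i.2 : ℕ)] (x i.1)) ∧
      (∀ i ∉ W, ∀ j, sM E' (fun x => em p (φ (b x))) (x j).1 (fun l => opP ((x j).2.1 (Fin.castAdd g l)))
        (x j).2.2 i = 0) ∧
      (∀ i ∈ W, ∏ j, (∏ i' ∈ range (c j), sM E' (fun x => em p (φ (b x))) (x j).1
        (fun l => opP ((x j).2.1 (Fin.castAdd g l))) (x j).2.2 i ^ p ^ i') ^ μ j = em p (θ x0 i)) ∧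
      (∀ j ∉ V, j ∉ R → ∀ i, sM E (fun x => em p (∑ i, a (x, i) * v i)) (x i).1 (fun l => opP ((x i).2.1 l))
        (x i).2.2 j = 0) ∧
      ∀ j ∈ V, ∏ i, (∏ i' ∈ range (c i), sM E (fun x => em p (∑ i, a (x, i) * v i)) (x i).1
        (fun l => opP ((x i).2.1 l)) (x i).2.2 j ^ p ^ i') ^ μ i = em p (τ x0 j)
  let QQ : X × (Fin r → Xp p n M α β) → Type := fun x => {a : IxM ι M ν d × Fin e → ZMod p //
      (∀ j ∉ V ∪ R, ∀ i : (j : Fin r) × Fin (c j), WF_val E v a ((stp Φ)^[(i.2 : ℕ)] (x.2 i.1)) j = 0) ∧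
      ∀ j ∈ V ∪ R, (fun i : (j : Fin r) × Fin (c j) => WF_val E v a ((stp Φ)^[(i.2 : ℕ)] (x.2 i.1)) j) ∈ Z x.1 j}
  let T' : Finset (X × (Fin r → Xp p n M α β)) := T.filter (fun x => Pat Φ c μ u z x.2 ∧
    Function.Injective (fun i : (j : Fin r) × Fin (c j) => (stp Φ)^[(i.2 : ℕ)] (x.2 i.1)))
  have hle : Nat.card {a : IxM ι M ν d × Fin e → ZMod p // ∃ (x0 : X) (x : Fin r → Xp p n M α β), PP a x0 x} ≤
      ∑ x : T', Nat.card (QQ x.1) := by
    rw [← Nat.card_sigma]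
    refine Nat.card_le_card_of_injective (fun a => ⟨⟨(a.2.choose, a.2.choose_spec.choose), ?_⟩, ⟨a.1, ?_⟩⟩) ?_
    · obtain ⟨h1, h2, h3, h4, h5, h6⟩ := a.2.choose_spec.choose_spec
      exact Finset.mem_filter.2 ⟨hT2 _ _ h1 h3 h4, h1, h2⟩
    · obtain ⟨h1, h2, h3, h4, h5, h6⟩ := a.2.choose_spec.choose_spec
      obtain ⟨x0, hx0⟩ : ∃ x0, x0 = a.2.choose := ⟨_, rfl⟩
      obtain ⟨x, hx⟩ : ∃ x, x = a.2.choose_spec.choose := ⟨_, rfl⟩
      rw [← hx] at h1 h2 h3 h4 h5 h6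
      rw [← hx0] at h4 h6
      show (∀ j ∉ V ∪ R, ∀ i : (j : Fin r) × Fin (c j),
        WF_val E v a.1 ((stp Φ)^[(i.2 : ℕ)] (a.2.choose_spec.choose i.1)) j = 0) ∧
        ∀ j ∈ V ∪ R, (fun i : (j : Fin r) × Fin (c j) =>
          WF_val E v a.1 ((stp Φ)^[(i.2 : ℕ)] (a.2.choose_spec.choose i.1)) j) ∈ Z a.2.choose j
      rw [← hx, ← hx0]
      refine ⟨fun j hj i => ?_, fun j hj => ?_⟩
      · rw [WF_it hΦ]
        rw [Finset.mem_union, not_or] at hj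
        have h7 : WF_val E v a.1 (x i.1) j = 0 := h5 j hj.1 hj.2 i.1
        rw [h7]
        exact zero_pow (pow_ne_zero _ hp0.ne')
      · have h10 : ∀ i, WF_val E v a.1 (x i) j ^ p ^ c i = WF_val E v a.1 (x i) j := by
          intro i
          have h9 := WF_it hΦ E v a.1 (x i) j (c i)
          rw [WF_fix h1 i] at h9
          exact h9.symm
        have h11 : (fun i : (j : Fin r) × Fin (c j) => WF_val E v a.1 ((stp Φ)^[(i.2 : ℕ)] (x i.1)) j) =
            fun i : (j : Fin r) × Fin (c j) => (fun i => WF_val E v a.1 (x i) j) i.1 ^ p ^ (i.2 : ℕ) :=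
          funext fun i => WF_it hΦ E v a.1 (x i.1) j i.2
        rw [h11]
        by_cases hjV : j ∈ V
        · have h7 : ∏ i, (∏ i' ∈ range (c i), WF_val E v a.1 (x i) j ^ p ^ i') ^ μ i = em p (τ x0 j) := h6 j hjV
          have h12 : em p (τ x0 j) ≠ 0 := by
            intro h0
            exact hτ x0 j hjV ((map_eq_zero _).1 h0)
          exact hZ2 x0 j hjV _ (fun i => ⟨WF_ne c μ hc _ h12 h7 i, h10 i⟩) h7
        · exact hZ3 x0 j hjV _ h10
    · intro a a' haa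
      exact Subtype.ext (congrArg (fun y : (x : T') × QQ x.1 => y.2.1) haa)
  show Nat.card {a : IxM ι M ν d × Fin e → ZMod p // ∃ (x0 : X) (x : Fin r → Xp p n M α β), PP a x0 x} * p ≤ _
  obtain ⟨Y, hY⟩ : ∃ Y, Y = Nat.card {a : IxM ι M ν d × Fin e → ZMod p //
    ∃ (x0 : X) (x : Fin r → Xp p n M α β), PP a x0 x} := ⟨_, rfl⟩
  rw [← hY] at hle ⊢
  rw [← hN]
  have hV : ∀ x : T', Nat.card (QQ x.1) * p ^ (s * m) * p ^ V.card ≤
      C3 ^ V.card * p ^ (m * (V.card + (R \ V).card)) * p ^ N := by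
    intro x
    have hx := (Finset.mem_filter.1 x.2).2
    have h1 : Nat.card (QQ x.1) * p ^ (s * m) ≤ (∏ j ∈ V ∪ R, (Z x.1.1 j).card) * p ^ N := by
      rw [hm, hN]
      exact WF_one α β ν d E hE hd hν Φ c hmk x.1.2 (fun j l => (hx.1.1 j l).1) (fun j => (hx.1.2.2.1 j).1) hx.2 v hv
        (V ∪ R) (Z x.1.1)
    have h2 := hZ1 x.1.1
    rw [← hm] at h2
    calc Nat.card (QQ x.1) * p ^ (s * m) * p ^ V.card ≤ ((∏ j ∈ V ∪ R, (Z x.1.1 j).card) * p ^ N) * p ^ V.card :=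
          Nat.mul_le_mul_right _ h1
      _ = ((∏ j ∈ V ∪ R, (Z x.1.1 j).card) * p ^ V.card) * p ^ N := by ring
      _ ≤ _ := Nat.mul_le_mul_right _ h2
  have h1 : Y * p ^ (s * m) * p ^ V.card ≤
      T.card * (C3 ^ V.card * p ^ (m * (V.card + (R \ V).card)) * p ^ N) := by
    calc Y * p ^ (s * m) * p ^ V.card ≤ (∑ x : T', Nat.card (QQ x.1)) * p ^ (s * m) * p ^ V.card :=
          Nat.mul_le_mul_right _ (Nat.mul_le_mul_right _ hle)
      _ = ∑ x : T', Nat.card (QQ x.1) * p ^ (s * m) * p ^ V.card := by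
          rw [Finset.sum_mul, Finset.sum_mul]
      _ ≤ ∑ _x : T', (C3 ^ V.card * p ^ (m * (V.card + (R \ V).card)) * p ^ N) :=
          Finset.sum_le_sum fun x _ => hV x
      _ = T'.card * (C3 ^ V.card * p ^ (m * (V.card + (R \ V).card)) * p ^ N) := by
          rw [Finset.sum_const, smul_eq_mul, Finset.card_univ, Fintype.card_coe]
      _ ≤ _ := Nat.mul_le_mul_right _ (Finset.card_filter_le _ _)
  rw [← hm] at hT1 hmk hm1
  have hT3 : T.card * p ^ (n + (h + g) + (m + W.card)) ≤ C1 * p ^ ρ * p ^ (m * (n + (h + g) + (r0 + W.card))) :=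
    hT1.trans (Nat.mul_le_mul_right _ (Nat.mul_le_mul_left _ hX))
  have h2 : Y * p ^ (s * m) * p ^ V.card * p ^ (n + (h + g) + (m + W.card)) ≤
      C1 * p ^ ρ * p ^ (m * (n + (h + g) + (r0 + W.card))) *
        (C3 ^ V.card * p ^ (m * (V.card + (R \ V).card)) * p ^ N) := by
    calc Y * p ^ (s * m) * p ^ V.card * p ^ (n + (h + g) + (m + W.card)) ≤
          T.card * (C3 ^ V.card * p ^ (m * (V.card + (R \ V).card)) * p ^ N) * p ^ (n + (h + g) + (m + W.card)) :=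
          Nat.mul_le_mul_right _ h1
      _ = T.card * p ^ (n + (h + g) + (m + W.card)) *
          (C3 ^ V.card * p ^ (m * (V.card + (R \ V).card)) * p ^ N) := by ring
      _ ≤ _ := Nat.mul_le_mul_right _ hT3
  have h3 : ρ + m * (n + (h + g) + r0 + W.card + V.card + (R \ V).card) + 1 ≤
      s * m + V.card + (n + (h + g) + (m + W.card)) := by
    have := WF_arith (A := n + (h + g) + r0 + W.card + V.card + (R \ V).card) (B := n + (h + g) + W.card + V.card)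
      (S := s + 1) hm1 hmk (by omega) hk
    have h4 : m * (s + 1) = s * m + m := by ring
    omega
  have h4 : Y * p * p ^ (ρ + m * (n + (h + g) + r0 + W.card + V.card + (R \ V).card)) ≤
      C1 * C3 ^ V.card * p ^ N * p ^ (ρ + m * (n + (h + g) + r0 + W.card + V.card + (R \ V).card)) := by
    calc Y * p * p ^ (ρ + m * (n + (h + g) + r0 + W.card + V.card + (R \ V).card)) =
          Y * p ^ (ρ + m * (n + (h + g) + r0 + W.card + V.card + (R \ V).card) + 1) := by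
          rw [pow_succ]
          ring
      _ ≤ Y * p ^ (s * m + V.card + (n + (h + g) + (m + W.card))) :=
          Nat.mul_le_mul le_rfl (Nat.pow_le_pow_right hp0 h3)
      _ = Y * p ^ (s * m) * p ^ V.card * p ^ (n + (h + g) + (m + W.card)) := by
          rw [pow_add p (s * m + V.card), pow_add p (s * m)]
          ring
      _ ≤ _ := h2
      _ = C1 * C3 ^ V.card * p ^ N * (p ^ ρ * (p ^ (m * (n + (h + g) + (r0 + W.card))) *
          p ^ (m * (V.card + (R \ V).card)))) := by ring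
      _ = _ := by
          rw [← pow_add, ← pow_add]
          congr 2
          ring
  exact Nat.le_of_mul_le_mul_right h4 (pow_pos hp0 _)

end DP
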