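import Pool.Agent.Lib.MP_17a322_ntDP.Defs4
import Pool.Agent.Lib.MP_17a322_ntDP.NU
import Pool.Agent.Lib.MP_17a322_ntDP.NF
import Pool.Agent.Lib.MP_17a322_ntDP.GD
import Pool.Agent.Lib.MP_17a322_ntDP.GE
import Pool.Agent.Lib.MP_17a322_ntDP.GF
import Pool.Agent.Lib.MP_17a322_ntDP.GI
import Pool.Agent.Lib.MP_17a322_ntDP.GJ
import Pool.Agent.Lib.MP_17a322_ntVU.G5
import Pool.Agent.Lib.MP_17a322_ntOC.TP

/-!
# LEAF WH: the points of degree at most `k` of a pair with fixed components satisfy the local conditions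

PROOF.  Copy of `loc_V` (`GV.lean`; copy its private lemmas with the prefix `WH_`), with the following changes.  `IntW` has the sections with the coefficients `b` of index `i ∈ W` as components of the divisor: `Y i = c0 ^ δ i * (∏ l : Fin h, sc (castAdd g l) ^ d' i l) * norm (f' i)`, `f' i` the value of the section over `L0`, is a unit outside of `S1 ∪ S` by `unit_V` for the first `h` curves (`P (castAdd g l)`, `sc (castAdd g l)`, `q = h`; `lf w (δ i) (d' i) (fun l => P (castAdd g l)) u`).  The torus has the coordinates `Fin.append xx (Fin.append YY UU)` (`n + (w + s)`), `YY i` is `Y i` for `i ∈ W` and `1` otherwise, and `ϖ` as the last one.  In the local condition `RDG` (definition `TupG`) the sections of index not in `W` vanish at all the points (as the sections with the coefficients `b` in `loc_V`, from the hypothesis for `i ∉ W`), the sections `E` of index not in `V`, `R` vanish; the products for `i ∈ W`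 by `GV_pr` with `q = h`, `r i l` and `s l`, `t l` at `castAdd g l`, and for `j ∈ V` as in `loc_V`.
-/

set_option autoImplicit false

namespace DP

open Finset NumberField LVH VK VU OCM FB

/-- a basis function at the image of a point -/
private theorem WH_bas {L N : Type} [Field L] [Field N] (σ : L →+* N) (d : ℕ) (P : Option (L × L)) (k : RamCov.Ix d) :
    RamCov.bas N d (mpO σ P) k = σ (RamCov.bas L d P k) := by
  rcases P with _ | z
  · rcases k with i | i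
    · show (if i = Fin.last d then (1 : N) else 0) = σ (if i = Fin.last d then (1 : L) else 0)
      rw [apply_ite σ, map_one, map_zero]
    · show (0 : N) = σ 0
      rw [map_zero]
  · rcases k with i | i
    · show σ z.1 ^ (i : ℕ) = σ (z.1 ^ (i : ℕ))
      rw [map_pow]
    · show σ z.1 ^ (i : ℕ) * σ z.2 = σ (z.1 ^ (i : ℕ) * z.2)
      rw [map_mul, map_pow]

/-- a section at the image of a point -/
private theorem WH_sM {L N : Type} [Field L] [Field N] (σ : L →+* N) {n q M s : ℕ} {ι : Type} [Fintype ι] {ν : Fin s → ℕ}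
    {d : Fin s → Fin q → ℕ} (E : Fin s → ι → Fin n → ℤ) (a : IxM ι M ν d → L) (x : Fin n → L)
    (P : Fin q → Option (L × L)) (u : Fin (M + 1) → L) (j : Fin s) :
    sM E (fun t => σ (a t)) (fun l => σ (x l)) (fun l => mpO σ (P l)) (fun i => σ (u i)) j = σ (sM E a x P u j) := by
  unfold sM
  rw [map_sum]
  refine Finset.sum_congr rfl fun t _ => ?_
  rw [map_mul, map_mul]
  congr 2
  · unfold MWS.mo
    rw [map_prod]
    exact Finset.prod_congr rfl fun i _ => (map_pow σ _ _).symm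
  · unfold bT
    rw [map_mul, map_prod, map_prod]
    congr 1
    · exact Finset.prod_congr rfl fun i _ => (map_zpow₀ σ _ _).symm
    · exact Finset.prod_congr rfl fun l _ => WH_bas σ _ _ _

/-- an automorphism permutes the embeddings -/
private theorem WH_perm {K L N : Type} [Field K] [Field L] [Field N] [Algebra K L] [Algebra K N] {m : ℕ}
    (e : Fin m ≃ (L →ₐ[K] N)) (φ : N ≃ₐ[K] N) : ∃ τ : Equiv.Perm (Fin m), ∀ i y, φ (e i y) = e (τ i) y := by
  let f : (L →ₐ[K] N) ≃ (L →ₐ[K] N) :=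
    { toFun := fun g => (φ : N →ₐ[K] N).comp g
      invFun := fun g => (φ.symm : N →ₐ[K] N).comp g
      left_inv := fun g => AlgHom.ext fun y => φ.symm_apply_apply (g y)
      right_inv := fun g => AlgHom.ext fun y => φ.apply_symm_apply (g y) }
  refine ⟨(e.trans f).trans e.symm, fun i y => ?_⟩
  show φ (e i y) = e (e.symm (f (e i))) y
  rw [Equiv.apply_symm_apply]
  rfl

private theorem WH_mpO {L N : Type} [Field L] [Field N] (σ σ' : L →+* N) (φ : N →+* N) (h : ∀ y, φ (σ y) = σ' y)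
    (z : Option (L × L)) : mpO φ (mpO σ z) = mpO σ' z := by
  rcases z with _ | z
  · rfl
  · show some (φ (σ z.1), φ (σ z.2)) = some (σ' z.1, σ' z.2)
    rw [h, h]

private theorem WH_elim {L N : Type} [Field L] [Field N] (σ : L →+* N) (z : Option (L × L)) :
    (mpO σ z).elim 0 Prod.fst = σ (z.elim 0 Prod.fst) := by
  rcases z with _ | z
  · exact (map_zero σ).symm
  · rfl

open Classical in
/-- the conjugates of a point and their sum -/
private theorem WH_glob {K L N : Type} [Field K] [NumberField K] [Field L] [NumberField L] [Field N] [NumberField N]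
    [Algebra K L] [Algebra K N] [IsGalois K N] {m : ℕ} (e : Fin m ≃ (L →ₐ[K] N)) {A B : K}
    (P : Pt (algebraMap K L A) (algebraMap K L B)) :
    ∃ Q : Fin m → Pt (algebraMap K N A) (algebraMap K N B),
      (∀ i, opP (Q i) = mpO ((e i : L →ₐ[K] N) : L →+* N) (opP P)) ∧
      ∃ T0 : Pt A B, mpO (algebraMap K N) (opP T0) = opP (∑ i, Q i) := by
  choose ψ hψ hψ' using fun i => ex_map ((e i : L →ₐ[K] N) : L →+* N) (a := algebraMap K L A) (b := algebraMap K L B)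
    (a' := algebraMap K N A) (b' := algebraMap K N B) ((e i).commutes A) ((e i).commutes B)
  refine ⟨fun i => ψ i P, fun i => hψ' i P, ?_⟩
  refine tr_pt A B _ fun φ => ?_
  obtain ⟨Φ, -, hΦ⟩ := ex_map ((φ : N ≃ₐ[K] N) : N →+* N) (a := algebraMap K N A) (b := algebraMap K N B)
    (a' := algebraMap K N A) (b' := algebraMap K N B) (φ.commutes A) (φ.commutes B)
  obtain ⟨τ, hτ⟩ := WH_perm e φ
  have h1 : ∀ i, Φ (ψ i P) = ψ (τ i) P := by
    intro i
    apply opP_inj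
    rw [hΦ, hψ', hψ']
    exact WH_mpO _ _ _ (fun y => hτ i y) _
  rw [← hΦ, map_sum, Finset.sum_congr rfl fun i _ => h1 i]
  exact congrArg opP (Equiv.sum_comp τ fun i => ψ i P)

private theorem WH_ds {p : ℕ} [Fact p.Prime] {a b : ZMod p} (h : ds a b ≠ 0) : ds (em p a) (em p b) ≠ 0 := by
  intro h0
  apply h
  have h1 : em p (ds a b) = 0 := by
    rw [← h0]
    unfold ds
    rw [map_add, map_mul, map_mul, map_pow, map_pow, map_ofNat, map_ofNat]
  exact (map_eq_zero (em p)).1 h1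

private theorem WH_nrm {F : Type} [Field F] {q p : ℕ} (hp : p ≠ 0) {y : Fin q → F} (h : Nrm y) :
    Nrm fun a => y a ^ p := by
  obtain ⟨i, h1, h2⟩ := h
  refine ⟨i, ?_, fun i' hi' => ?_⟩
  · show y i ^ p = 1
    rw [h1, one_pow]
  · show y i' ^ p = 0
    rw [h2 i' hi', zero_pow hp]

/-- a fixed point of Frobenius is in the prime field -/
private theorem WH_fix {p : ℕ} [Fact p.Prime] {x : Om p} (h : x ^ p = x) : ∃ x0 : ZMod p, em p x0 = x := by
  have h1 : x ∈ (⊥ : Subfield (Om p)) := (Subfield.mem_bot_iff_pow_eq_self (Om p) p).2 h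
  obtain ⟨n, hn⟩ := (mem_bot_iff_intCast p (Om p)).1 h1
  refine ⟨(n : ZMod p), ?_⟩
  rw [map_intCast]
  exact hn

/-- a finite place over a prime number -/
private theorem WH_place (K : Type) [Field K] [NumberField K] {p : ℕ} (hp : p.Prime) :
    ∃ v : FinitePlace K, v (p : K) < 1 := by
  classical
  have hpI : Prime (p : ℤ) := Nat.prime_iff_prime_int.1 hp
  have hm : (Ideal.span {(p : ℤ)}).IsMaximal :=
    PrincipalIdealRing.isMaximal_of_irreducible hpI.irreducible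
  obtain ⟨Q, hQ1, hQ2⟩ := Ideal.exists_maximal_ideal_liesOver_of_isIntegral (S := 𝓞 K) (Ideal.span {(p : ℤ)})
  have hmem : ((p : ℕ) : 𝓞 K) ∈ Q := by
    have h1 : (p : ℤ) ∈ Q.under ℤ := by
      rw [← hQ2.over]
      exact Ideal.mem_span_singleton_self _
    have h2 : algebraMap ℤ (𝓞 K) (p : ℤ) ∈ Q := h1
    rwa [map_natCast] at h2
  have hne : Q ≠ ⊥ := by
    rintro rfl
    rw [Ideal.mem_bot, Nat.cast_eq_zero] at hmem
    exact hp.ne_zero hmem
  let P : IsDedekindDomain.HeightOneSpectrum (𝓞 K) := ⟨Q, hQ1.isPrime, hne⟩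
  refine ⟨FinitePlace.mk P, ?_⟩
  have h3 := (FinitePlace.norm_lt_one_iff_mem K P ((p : ℕ) : 𝓞 K)).2 hmem
  rw [map_natCast (algebraMap (𝓞 K) K)] at h3
  rw [FinitePlace.mk_apply]
  exact h3

/-- the places of `S` are over small primes -/
private theorem WH_far (K : Type) [Field K] [NumberField K] (S : Finset (FinitePlace K)) :
    ∃ v : FinitePlace K, v ∉ S := by
  obtain ⟨M0, hM0, hM⟩ := exists_M0 K S
  obtain ⟨p, hp, hpp⟩ := Nat.exists_infinite_primes (M0 + 1)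
  obtain ⟨v, hv⟩ := WH_place K hpp
  refine ⟨v, fun hvS => ?_⟩
  have h1 := hM v hvS
  have h2 := place_coprime K v hpp hv (m := M0) (fun h => by
    have := Nat.le_of_dvd (Nat.pos_of_ne_zero hM0) h
    omega)
  rw [h2] at h1
  exact lt_irrefl _ h1

private theorem WH_inv {K F : Type} [Field K] [Field F] {π : PF K F} {x : K} (hx : x ∉ π.V) :
    x ≠ 0 ∧ Rf π x⁻¹ 0 := by
  have h0 : x ≠ 0 := by
    rintro rfl
    exact hx π.V.zero_mem
  have h1 : x⁻¹ ∈ π.V := (π.V.mem_or_inv_mem x).resolve_left hx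
  refine ⟨h0, h1, ?_⟩
  refine π.ker ⟨x⁻¹, h1⟩ ?_
  show (x⁻¹)⁻¹ ∉ π.V
  rw [inv_inv]
  exact hx

private theorem WH_red {K F : Type} [Field K] [Field F] {π : PF K F} {A B : K} (hA : A ∈ π.V) (hB : B ∈ π.V) {d : ℕ}
    {x y : K} (he : y ^ 2 = x ^ 3 + A * x + B) (hx : x ∉ π.V) (k : RamCov.Ix d) :
    Rf π ((x⁻¹) ^ d * RamCov.bas K d (some (x, y)) k) (RamCov.bas (F) d none k) := by
  obtain ⟨hx0, ht⟩ := WH_inv hx
  obtain ⟨t, htdef⟩ : ∃ t, t = x⁻¹ := ⟨_, rfl⟩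
  rw [← htdef] at ht ⊢
  have hxt : x * t = 1 := by rw [htdef]; exact mul_inv_cancel₀ hx0
  obtain ⟨s, hsdef⟩ : ∃ s, s = y * t ^ 2 := ⟨_, rfl⟩
  have hs2 : s ^ 2 = t + A * t ^ 3 + B * t ^ 4 := by
    have e1 : s ^ 2 = y ^ 2 * t ^ 4 := by rw [hsdef]; ring
    rw [e1, he]
    have e2 : x ^ 3 * t ^ 4 = t := by
      have : x ^ 3 * t ^ 4 = (x * t) ^ 3 * t := by ring
      rw [this, hxt]; ring
    have e3 : x * t ^ 4 = t ^ 3 := by
      have : x * t ^ 4 = (x * t) * t ^ 3 := by ring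
      rw [this, hxt]; ring
    linear_combination e2 + A * e3
  have hs2r : Rf π (s ^ 2) 0 := by
    rw [hs2]
    have h3 := (ht.add ((rf_res hA).mul (ht.pow 3))).add ((rf_res hB).mul (ht.pow 4))
    simpa using h3
  have hs : Rf π s 0 := by
    have h1 : s ∈ π.V := FB.mem_pow π (by norm_num) hs2r.choose
    have h2 := rf_res h1
    have h5 : rf π s = 0 := (pow_eq_zero_iff two_ne_zero).1 ((h2.pow 2).unique hs2r)
    rwa [h5] at h2
  rcases k with i | i
  · show Rf π (t ^ d * x ^ (i : ℕ)) (if i = Fin.last d then 1 else 0)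
    have hi : (i : ℕ) ≤ d := Nat.lt_succ_iff.1 i.2
    have e4 : t ^ d * x ^ (i : ℕ) = t ^ (d - (i : ℕ)) := by
      have e5 : t ^ d = t ^ (i : ℕ) * t ^ (d - (i : ℕ)) := by rw [← pow_add, Nat.add_sub_cancel' hi]
      have e6 : x ^ (i : ℕ) * t ^ (i : ℕ) = 1 := by rw [← mul_pow, hxt, one_pow]
      rw [e5]
      linear_combination (t ^ (d - (i : ℕ))) * e6
    rw [e4]
    by_cases hl : i = Fin.last d
    · have h6 : (i : ℕ) = d := by rw [hl]; rfl
      rw [if_pos hl, h6, Nat.sub_self, pow_zero]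
      exact Rf.one
    · have h6 : (i : ℕ) < d := lt_of_le_of_ne hi fun h7 => hl (Fin.ext (by rw [h7]; rfl))
      rw [if_neg hl]
      have h7 := ht.pow (d - (i : ℕ))
      rwa [zero_pow (by omega)] at h7
  · show Rf π (t ^ d * (x ^ (i : ℕ) * y)) 0
    have hi : (i : ℕ) < d - 1 := i.2
    have hi2 : (i : ℕ) + 2 ≤ d := by omega
    have e4 : t ^ d * (x ^ (i : ℕ) * y) = t ^ (d - ((i : ℕ) + 2)) * s := by
      have e5 : t ^ d = t ^ (i : ℕ) * t ^ 2 * t ^ (d - ((i : ℕ) + 2)) := by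
        rw [← pow_add, ← pow_add, Nat.add_sub_cancel' hi2]
      have e6 : x ^ (i : ℕ) * t ^ (i : ℕ) = 1 := by rw [← mul_pow, hxt, one_pow]
      rw [e5, hsdef]
      linear_combination (t ^ 2 * y * t ^ (d - ((i : ℕ) + 2))) * e6
    rw [e4]
    have h7 := (ht.pow (d - ((i : ℕ) + 2))).mul hs
    rwa [mul_zero] at h7

open Classical in
/-- the scalar of the first coordinate of a point at a place -/
private noncomputable def WH_r {N F : Type} [Field N] [Field F] (Λ : PF N F) (x : N) : N := if x ∈ Λ.V then 1 else x⁻¹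

/-- the basis functions at the reduction of a point -/
private theorem WH_rbas {N F : Type} [Field N] [Field F] (Λ : PF N F) {A B : N} (hA : A ∈ Λ.V) (hB : B ∈ Λ.V)
    (P : Pt A B) (d : ℕ) (k : RamCov.Ix d) :
    Rf Λ (WH_r Λ ((opP P).elim 0 Prod.fst) ^ d * RamCov.bas N d (opP P) k) (RamCov.bas F d (rdF Λ P) k) := by
  classical
  rcases P with _ | ⟨x, y, hxy⟩
  · have h1 : WH_r Λ ((opP (.zero : Pt A B)).elim 0 Prod.fst) = 1 := if_pos Λ.V.zero_mem
    rw [h1, one_pow, one_mul]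
    rcases k with i | i
    · show Rf Λ (if i = Fin.last d then 1 else 0) (if i = Fin.last d then 1 else 0)
      by_cases hi : i = Fin.last d
      · rw [if_pos hi, if_pos hi]
        exact Rf.one
      · rw [if_neg hi, if_neg hi]
        exact Rf.zero
    · exact Rf.zero
  · have he : y ^ 2 = x ^ 3 + A * x + B := (EK_eqn A B x y).1 hxy.1
    by_cases hx : x ∈ Λ.V
    · have h1 : rdF Λ (.some x y hxy : Pt A B) = some (rf Λ x, rf Λ y) := by
        unfold rdF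
        exact if_pos hx
      have h2 : WH_r Λ ((opP (.some x y hxy : Pt A B)).elim 0 Prod.fst) = 1 := if_pos hx
      have hy : y ∈ Λ.V := (FB.den_xyK Λ hA hB he).1 hx
      rw [h1, h2, one_pow, one_mul]
      rcases k with i | i
      · show Rf Λ (x ^ (i : ℕ)) (rf Λ x ^ (i : ℕ))
        exact (rf_res hx).pow _
      · show Rf Λ (x ^ (i : ℕ) * y) (rf Λ x ^ (i : ℕ) * rf Λ y)
        exact ((rf_res hx).pow _).mul (rf_res hy)
    · have h1 : rdF Λ (.some x y hxy : Pt A B) = none := by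
        unfold rdF
        exact if_neg hx
      have h2 : WH_r Λ ((opP (.some x y hxy : Pt A B)).elim 0 Prod.fst) = x⁻¹ := if_neg hx
      rw [h1, h2]
      exact WH_red hA hB he hx k

private theorem WH_zpow {K F : Type} [Field K] [Field F] {π : PF K F} {x : K} (h1 : x ∈ π.V) (h2 : x⁻¹ ∈ π.V)
    (n : ℤ) : Rf π (x ^ n) (rf π x ^ n) := (rf_res h1).zpow h2 n

private theorem WH_mo {K : Type} [Field K] {m n : ℕ} (c : K) (u : Fin (m + 1) → K) (e : MWS.Mo m n) :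
    MWS.mo (fun l => c * u l) e = c ^ n * MWS.mo u e := by
  unfold MWS.mo
  simp only [mul_pow]
  rw [Finset.prod_mul_distrib, Finset.prod_pow_eq_pow_sum, e.2]

private theorem WH_mo_rf {K F : Type} [Field K] [Field F] {π : PF K F} {m n : ℕ} {u : Fin (m + 1) → K}
    {y : Fin (m + 1) → F} (h : ∀ l, Rf π (u l) (y l)) (e : MWS.Mo m n) :
    Rf π (MWS.mo u e) (MWS.mo y e) :=
  Rf.prod _ fun l _ => (h l).pow _

/-- the value of a section at the reduction of a point -/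
private theorem WH_sred {N F : Type} [Field N] [Field F] (Λ : PF N F) {n q M s : ℕ} {ι : Type} [Fintype ι] {ν : Fin s → ℕ}
    {d : Fin s → Fin q → ℕ} (E : Fin s → ι → Fin n → ℤ) {A B : Fin q → N} (hA : ∀ l, A l ∈ Λ.V) (hB : ∀ l, B l ∈ Λ.V)
    (a : IxM ι M ν d → N) (a' : IxM ι M ν d → F) (ha : ∀ x, Rf Λ (a x) (a' x)) (x : Fin n → N)
    (hx : ∀ l, x l ∈ Λ.V ∧ (x l)⁻¹ ∈ Λ.V) (P : (l : Fin q) → Pt (A l) (B l)) (u : Fin (M + 1) → N) (c : N)
    (y : Fin (M + 1) → F) (hy : ∀ i, Rf Λ (c * u i) (y i)) (j : Fin s) :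
    Rf Λ (c ^ ν j * (∏ l, WH_r Λ ((opP (P l)).elim 0 Prod.fst) ^ d j l) * sM E a x (fun l => opP (P l)) u j)
      (sM E a' (fun l => rf Λ (x l)) (fun l => rdF Λ (P l)) y j) := by
  have h2 : c ^ ν j * (∏ l, WH_r Λ ((opP (P l)).elim 0 Prod.fst) ^ d j l) * sM E a x (fun l => opP (P l)) u j =
      ∑ t : MWS.Mo M (ν j) × IxT ι (d j), a ⟨j, t⟩ *
        (MWS.mo (fun l => c * u l) t.1 * ((∏ l, x l ^ E j t.2.1 l) *
          ∏ l, (WH_r Λ ((opP (P l)).elim 0 Prod.fst) ^ d j l * RamCov.bas N (d j l) (opP (P l)) (t.2.2 l)))) := by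
    unfold sM
    rw [Finset.mul_sum]
    refine Finset.sum_congr rfl fun t _ => ?_
    rw [WH_mo, Finset.prod_mul_distrib]
    unfold bT
    ring
  rw [h2]
  unfold sM
  refine Rf.sum _ fun t _ => (ha ⟨j, t⟩).mul ((WH_mo_rf hy t.1).mul ?_)
  unfold bT
  exact (Rf.prod _ fun l _ => WH_zpow (hx l).1 (hx l).2 _).mul (Rf.prod _ fun l _ => WH_rbas Λ (hA l) (hB l) (P l) _ _)

/-- the value of a section at the reduction of a conjugate -/
private theorem WH_sec {K L N : Type} [Field K] [NumberField K] [Field L] [Field N] [Algebra K L] [Algebra K N]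
    {p : ℕ} [Fact p.Prime] (π : Pl K p) (Λ : PF N (Om p)) (hΛ : ∀ x ∈ π.V, Rf Λ (algebraMap K N x) (em p (res π x)))
    (σ : L →ₐ[K] N) {n q M s : ℕ} {ι : Type} [Fintype ι] {ν : Fin s → ℕ}
    {d : Fin s → Fin q → ℕ} (E : Fin s → ι → Fin n → ℤ) {A B : Fin q → K} (hA : ∀ l, A l ∈ π.V) (hB : ∀ l, B l ∈ π.V)
    (a : IxM ι M ν d → K) (a' : IxM ι M ν d → ZMod p) (ha : ∀ x, Rd π (a x) (a' x)) (x : Fin n → L)
    (hx : ∀ l, σ (x l) ∈ Λ.V ∧ (σ (x l))⁻¹ ∈ Λ.V) (P : Fin q → Option (L × L))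
    (Q : (l : Fin q) → Pt (algebraMap K N (A l)) (algebraMap K N (B l)))
    (hQ : ∀ l, opP (Q l) = mpO (σ : L →+* N) (P l)) (u : Fin (M + 1) → L) (c : N)
    (y : Fin (M + 1) → Om p) (hy : ∀ i, Rf Λ (c * σ (u i)) (y i)) (j : Fin s) :
    Rf Λ (c ^ ν j * (∏ l, WH_r Λ (σ ((P l).elim 0 Prod.fst)) ^ d j l) * σ (sM E (fun t => algebraMap K L (a t)) x P u j))
      (sM E (fun t => em p (a' t)) (fun l => rf Λ (σ (x l))) (fun l => rdF Λ (Q l)) y j) := by
  have h := WH_sred Λ E (fun l => (hΛ _ (hA l)).1) (fun l => (hΛ _ (hB l)).1) (fun t => algebraMap K N (a t))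
    (fun t => em p (a' t)) (fun t => by
      have h1 := hΛ _ (ha t).1
      rw [(rd_res (ha t).1).unique (ha t)] at h1
      exact h1) (fun l => σ (x l)) hx Q (fun i => σ (u i)) c y hy j
  have h1 := WH_sM (σ : L →+* N) E (fun t => algebraMap K L (a t)) x P u j
  have h2 : (fun t => (σ : L →+* N) (algebraMap K L (a t))) = fun t => algebraMap K N (a t) :=
    funext fun t => σ.commutes (a t)
  have h3 : (fun l => mpO (σ : L →+* N) (P l)) = fun l => opP (Q l) := funext fun l => (hQ l).symm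
  rw [h2, h3] at h1
  have h4 : ∀ l, (opP (Q l)).elim 0 Prod.fst = σ ((P l).elim 0 Prod.fst) := by
    intro l
    rw [hQ]
    exact WH_elim _ _
  simp only [h4] at h
  have h5 : sM E (fun t => algebraMap K N (a t)) (fun l => σ (x l)) (fun l => opP (Q l)) (fun i => σ (u i)) j =
      σ (sM E (fun t => algebraMap K L (a t)) x P u j) := h1
  rw [h5] at h
  exact h

/-- a place of the extension above a place of the base -/
private theorem WH_above {K N : Type} [Field K] [NumberField K] [Field N] [Algebra K N] {p : ℕ} [Fact p.Prime]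
    (π : Pl K p) (Λ : PF N (Om p)) (hΛ : ∀ x ∈ π.V, Rf Λ (algebraMap K N x) (em p (res π x)))
    (v : FinitePlace K) (hv : ∀ x : K, x ∈ π.V ↔ v x ≤ 1) (x : K) : algebraMap K N x ∈ Λ.V ↔ v x ≤ 1 := by
  rw [← hv]
  refine ⟨fun h6 => ?_, fun h => (hΛ x h).1⟩
  by_contra hx
  have hi : x⁻¹ ∈ π.V := (π.V.mem_or_inv_mem x).resolve_left hx
  have hx0 : x ≠ 0 := by
    rintro rfl
    exact hx π.V.zero_mem
  have h7 : res π x⁻¹ = 0 := (VK.res_zero π hi).2 (Or.inr (by rw [inv_inv]; exact hx))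
  have h8 := hΛ x⁻¹ hi
  rw [h7, map_zero] at h8
  have h9 := (rf_res h6).mul h8
  rw [← map_mul, mul_inv_cancel₀ hx0, map_one, mul_zero] at h9
  exact one_ne_zero (Rf.one.unique h9)

/-- a unit at the places which are not above `S` -/
private theorem WH_xV {K L N F : Type} [Field K] [NumberField K] [Field L] [NumberField L] [Field N] [NumberField N]
    [Field F] [Algebra K L] [Algebra K N] {S : Finset (FinitePlace K)} {v : FinitePlace K} (hv : v ∉ S) (Λ : PF N F)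
    (hΛ : ∀ x : K, algebraMap K N x ∈ Λ.V ↔ v x ≤ 1) {p : ℕ} (hp : p ≠ 0) (hpF : (p : F) = 0) (σ : L →ₐ[K] N) (x : L)
    (hx : ∀ w : FinitePlace L, Off S w → w x = 1) : σ x ∈ Λ.V ∧ (σ x)⁻¹ ∈ Λ.V := by
  obtain ⟨w, hw⟩ := ex_below (σ : L →+* N) Λ hp hpF
  have h1 : Off S w := by
    refine off_of hv fun a => ?_
    rw [← hw, ← hΛ]
    exact iff_of_eq (congrArg (· ∈ Λ.V) (σ.commutes a))
  have h2 := hx w h1
  refine ⟨(hw x).2 h2.le, ?_⟩
  rw [← map_inv₀]
  refine (hw x⁻¹).2 ?_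
  rw [map_inv₀, h2, inv_one]

/-- a residue which is fixed by Frobenius -/
private theorem WH_fx {K N : Type} [Field K] [Field N] [Algebra K N] {p : ℕ} [Fact p.Prime]
    (Λ : PF N (Om p)) (φ : N ≃ₐ[K] N) (hφ1 : ∀ x ∈ Λ.V, Rf Λ (φ x) (rf Λ x ^ p)) {Y Z : N} (hY : Y ∈ Λ.V)
    (hZ : Rf Λ Z 1) (h : φ Y = Z * Y) : ∃ y0 : ZMod p, em p y0 = rf Λ Y := by
  apply WH_fix
  have h1 := hφ1 Y hY
  have h2 := hZ.mul (rf_res hY)
  rw [← h, one_mul] at h2
  exact h1.unique h2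

/-- the scalars of the conjugates of a vector -/
private theorem WH_lam {K L N : Type} [Field K] [Field L] [Field N] [Algebra K L] [Algebra K N] {m M : ℕ}
    (e : Fin m ≃ (L →ₐ[K] N)) {p : ℕ} [Fact p.Prime] (Λ : PF N (Om p)) (φ : N ≃ₐ[K] N)
    (hφ1 : ∀ x ∈ Λ.V, Rf Λ (φ x) (rf Λ x ^ p)) (τ : Equiv.Perm (Fin m)) (hτ : ∀ i y, φ (e i y) = e (τ i) y)
    (u : Fin (M + 1) → L) (c : Fin m → N) (y : Fin m → Fin (M + 1) → Om p) (hc : ∀ i, c i ≠ 0)
    (hcy : ∀ i a, Rf Λ (c i * e i (u a)) (y i a)) (hy : ∀ i, Nrm (y i)) (hyt : ∀ i a, y (τ i) a = y i a ^ p) (i : Fin m) :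
    Rf Λ (φ (c i) * (c (τ i))⁻¹) 1 := by
  obtain ⟨a, ha, -⟩ := hy (τ i)
  have h1 := hφ1 _ (hcy i a).1
  rw [map_mul, hτ, FB.res_eq (hcy i a), ← hyt, ha] at h1
  have h2 := hcy (τ i) a
  rw [ha] at h2
  have h3 : (c (τ i) * e (τ i) (u a))⁻¹ ∈ Λ.V := by
    by_contra hcon
    obtain ⟨h4, h5⟩ := h2
    have h6 := Λ.ker ⟨_, h4⟩ hcon
    rw [h6] at h5
    exact zero_ne_one h5
  have h4 := h1.mul (h2.inv h3)
  rw [inv_one, mul_one] at h4
  have h5 : c (τ i) * e (τ i) (u a) ≠ 0 := by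
    intro h0
    rw [h0] at h2
    exact zero_ne_one (Rf.zero.unique h2)
  have h6 : φ (c i) * e (τ i) (u a) * (c (τ i) * e (τ i) (u a))⁻¹ = φ (c i) * (c (τ i))⁻¹ := by
    have h7 : e (τ i) (u a) ≠ 0 := right_ne_zero_of_mul h5
    have h8 := hc (τ i)
    field_simp
  rw [h6] at h4
  exact h4

private theorem WH_phr {K N : Type} [Field K] [Field N] [Algebra K N] {p : ℕ} [Fact p.Prime]
    (Λ : PF N (Om p)) (φ : N ≃ₐ[K] N) (hφ1 : ∀ x ∈ Λ.V, Rf Λ (φ x) (rf Λ x ^ p)) (hφ2 : ∀ x, φ x ∈ Λ.V → x ∈ Λ.V)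
    (x : N) : φ (WH_r Λ x) = WH_r Λ (φ x) := by
  unfold WH_r
  by_cases hx : x ∈ Λ.V
  · rw [if_pos hx, if_pos (hφ1 x hx).1, map_one]
  · rw [if_neg hx, if_neg fun h => hx (hφ2 x h), map_inv₀]

private theorem WH_rV {N F : Type} [Field N] [Field F] (Λ : PF N F) {L : Type} [Field L] (σ : L →+* N) (x : L) :
    (∀ a, WH_r Λ (σ x) * σ ((![1, x] : Fin (1 + 1) → L) a) ∈ Λ.V) ∧
      ∃ a, rf Λ (WH_r Λ (σ x) * σ ((![1, x] : Fin (1 + 1) → L) a)) ≠ 0 := by
  have h0 : (![1, x] : Fin (1 + 1) → L) 0 = 1 := rfl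
  have h1 : (![1, x] : Fin (1 + 1) → L) 1 = x := rfl
  have hone : rf Λ (1 : N) ≠ 0 := by
    rw [FB.res_eq Rf.one]
    exact one_ne_zero
  unfold WH_r
  by_cases hx : σ x ∈ Λ.V
  · rw [if_pos hx]
    refine ⟨fun a => ?_, 0, ?_⟩
    · fin_cases a
      · show 1 * σ 1 ∈ Λ.V
        rw [map_one, one_mul]
        exact Λ.V.one_mem
      · show 1 * σ x ∈ Λ.V
        rw [one_mul]
        exact hx
    · rw [h0, map_one, one_mul]
      exact hone
  · rw [if_neg hx]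
    obtain ⟨h2, h3⟩ := WH_inv hx
    refine ⟨fun a => ?_, 1, ?_⟩
    · fin_cases a
      · show (σ x)⁻¹ * σ 1 ∈ Λ.V
        rw [map_one, mul_one]
        exact h3.1
      · show (σ x)⁻¹ * σ x ∈ Λ.V
        rw [inv_mul_cancel₀ h2]
        exact Λ.V.one_mem
    · rw [h1, inv_mul_cancel₀ h2]
      exact hone

open Classical in
/-- the tuple of the reductions of the conjugates -/
private theorem WH_loc {K L N : Type} [Field K] [NumberField K] [Field L] [NumberField L] [Field N] [NumberField N]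
    [Algebra K L] [Algebra K N] [IsGalois K N] {m n q M : ℕ} (e : Fin m ≃ (L →ₐ[K] N)) {p : ℕ} [Fact p.Prime]
    (h2 : (2 : Om p) ≠ 0) (π : Pl K p) (A B : Fin q → K) (hA : ∀ l, A l ∈ π.V) (hB : ∀ l, B l ∈ π.V)
    (hd : ∀ l, ds (res π (A l)) (res π (B l)) ≠ 0) (Λ : PF N (Om p)) (φ : N ≃ₐ[K] N)
    (hΛ : ∀ x ∈ π.V, Rf Λ (algebraMap K N x) (em p (res π x))) (hφ1 : ∀ x ∈ Λ.V, Rf Λ (φ x) (rf Λ x ^ p))
    (hφ2 : ∀ x, φ x ∈ Λ.V → x ∈ Λ.V) (τ : Equiv.Perm (Fin m)) (hτ : ∀ i y, φ (e i y) = e (τ i) y)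
    (x : Fin n → L) (hx : ∀ l, x l ≠ 0) (hxV : ∀ i l, e i (x l) ∈ Λ.V ∧ (e i (x l))⁻¹ ∈ Λ.V) (xx : Fin n → K)
    (hxx : ∀ l, xx l ∈ π.V) (hn : ∀ l, ∏ i, e i (x l) = algebraMap K N (xx l))
    (PL : (l : Fin q) → Pt (algebraMap K L (A l)) (algebraMap K L (B l)))
    (Q : (l : Fin q) → Fin m → Pt (algebraMap K N (A l)) (algebraMap K N (B l)))
    (hQ : ∀ l i, opP (Q l i) = mpO ((e i : L →ₐ[K] N) : L →+* N) (opP (PL l))) (T0 : (l : Fin q) → Pt (A l) (B l))
    (hT0 : ∀ l, mpO (algebraMap K N) (opP (T0 l)) = opP (∑ i, Q l i)) (u : Fin (M + 1) → L) (hu : u ≠ 0) :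
    ∃ (PP : Fin m → (l : Fin q) → Pt (em p (res π (A l))) (em p (res π (B l)))) (y : Fin m → Fin (M + 1) → Om p)
      (c : Fin m → N), (∀ i l, rf Λ (e i (x l)) ≠ 0 ∧ rf Λ (e (τ i) (x l)) = rf Λ (e i (x l)) ^ p) ∧
      (∀ i l, opP (PP (τ i) l) = frO p (opP (PP i l))) ∧ (∀ i, Nrm (y i) ∧ ∀ l, y (τ i) l = y i l ^ p) ∧
      (∀ l, ∏ i, rf Λ (e i (x l)) = em p (res π (xx l))) ∧
      (∀ l, opP (∑ i, PP i l) = mpO (em p) (rdK π (T0 l))) ∧
      (∀ i l, opP (PP i l) = rdF Λ (Q l i)) ∧ (∀ i, c i ≠ 0) ∧ ∀ i a, Rf Λ (c i * e i (u a)) (y i a) := by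
  have hp : p.Prime := Fact.out
  have hΛV : ∀ x ∈ π.V, algebraMap K N x ∈ Λ.V := fun x hx => (hΛ x hx).1
  choose ρ hρ using fun l => exists_redF Λ (hΛ _ (hA l)) (hΛ _ (hB l)) h2 (WH_ds (hd l))
  have hui : ∀ i, (fun a => e i (u a)) ≠ 0 := by
    intro i h0
    apply hu
    funext a
    have h1 := congrFun h0 a
    exact (map_eq_zero (e i)).1 h1
  choose y c hc hy hcy using fun i => nr_ex Λ (fun a => e i (u a)) (hui i)
  refine ⟨fun i l => ρ l (Q l i), y, c, fun i l => ⟨?_, ?_⟩, fun i l => ?_, fun i => ⟨hy i, fun a => ?_⟩,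
    fun l => ?_, fun l => ?_, fun i l => hρ l _, hc, hcy⟩
  · exact (rf_res (hxV i l).1).ne ((map_ne_zero (e i)).2 (hx l)) (hxV i l).2
  · have h1 := hφ1 _ (hxV i l).1
    rw [hτ] at h1
    exact (rf_res (hxV (τ i) l).1).unique h1
  · rw [hρ, hρ]
    refine rdF_fr Λ ((φ : N ≃ₐ[K] N) : N →+* N) hφ1 hφ2 (hΛV _ (hA l)) (hΛV _ (hB l)) _ _ ?_
    rw [hQ, hQ]
    exact (WH_mpO _ _ _ (fun y => hτ i y) _).symm
  · refine congrFun (nr_uniq Λ (fun a => e (τ i) (u a)) (hc (τ i)) (c' := φ (c i)) ?_ (hy (τ i))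
      (WH_nrm hp.ne_zero (hy i)) (hcy (τ i)) fun a => ?_) a
    · exact (map_ne_zero φ).2 (hc i)
    · have h1 := hφ1 _ (hcy i a).1
      rw [map_mul, hτ, FB.res_eq (hcy i a)] at h1
      exact h1
  · have h1 := Rf.prod (Finset.univ : Finset (Fin m)) fun i _ => rf_res (hxV i l).1
    rw [hn] at h1
    exact h1.unique (hΛ _ (hxx l))
  · rw [← map_sum, hρ]
    exact rdF_ext π Λ hΛ (hA l) (hB l) (T0 l) _ (hT0 l).symm

/-- the scalars of the local condition -/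
private theorem WH_sc {K L N : Type} [Field K] [NumberField K] [Field L] [NumberField L] [Field N] [NumberField N]
    [Algebra K L] [Algebra K N] {q M : ℕ} (e : Fin (Module.finrank K L) ≃ (L →ₐ[K] N)) {p : ℕ}
    [Fact p.Prime] (Λ : PF N (Om p)) (φ : N ≃ₐ[K] N) (hφ1 : ∀ x ∈ Λ.V, Rf Λ (φ x) (rf Λ x ^ p))
    (hφ2 : ∀ x, φ x ∈ Λ.V → x ∈ Λ.V) (τ : Equiv.Perm (Fin (Module.finrank K L)))
    (hτ : ∀ i y, φ (e i y) = e (τ i) y) {S1 : Finset (FinitePlace K)} {v : FinitePlace K} (hv : v ∉ S1)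
    (hΛv : ∀ x : K, algebraMap K N x ∈ Λ.V ↔ v x ≤ 1) (u : Fin (M + 1) → L) (c : Fin (Module.finrank K L) → N)
    (y : Fin (Module.finrank K L) → Fin (M + 1) → Om p) (hc : ∀ i, c i ≠ 0)
    (hcy : ∀ i a, Rf Λ (c i * e i (u a)) (y i a)) (hy : ∀ i, Nrm (y i)) (hyt : ∀ i a, y (τ i) a = y i a ^ p)
    (c0 : K) (hc0 : Nf S1 e u c0) (X : Fin q → L) (s : Fin q → K)
    (hs : ∀ l, Nf S1 e (M := 1) ![1, X l] (s l)) :
    ∃ (l0 : ZMod p) (t : Fin q → ZMod p), l0 ≠ 0 ∧ (∀ l, t l ≠ 0) ∧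
      Rf Λ ((∏ i, c i) / algebraMap K N c0) (em p l0) ∧
      ∀ l, Rf Λ ((∏ i, WH_r Λ (e i (X l))) / algebraMap K N (s l)) (em p (t l)) := by
  obtain ⟨h1, h2⟩ := hc0 v hv (Om p) Λ hΛv c fun i => by
    refine ⟨fun a => (hcy i a).1, ?_⟩
    obtain ⟨a, ha, -⟩ := hy i
    refine ⟨a, ?_⟩
    rw [FB.res_eq (hcy i a), ha]
    exact one_ne_zero
  have h3 := fun l => hs l v hv (Om p) Λ hΛv (fun i => WH_r Λ (e i (X l))) fun i =>
    WH_rV Λ ((e i : L →ₐ[K] N) : L →+* N) (X l)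
  have h4 : φ ((∏ i, c i) / algebraMap K N c0) =
      (∏ i, φ (c i) * (c (τ i))⁻¹) * ((∏ i, c i) / algebraMap K N c0) := by
    have h5 : ∏ i, c (τ i) = ∏ i, c i := Equiv.prod_comp τ c
    have h6 : ∏ i, c i ≠ 0 := Finset.prod_ne_zero_iff.2 fun i _ => hc i
    rw [map_div₀, φ.commutes, map_prod, Finset.prod_mul_distrib, Finset.prod_inv_distrib, h5]
    field_simp
  obtain ⟨l0, hl0⟩ := WH_fx Λ φ hφ1 h1 (by
    have h5 := Rf.prod (Finset.univ : Finset (Fin (Module.finrank K L))) fun i _ =>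
      WH_lam e Λ φ hφ1 τ hτ u c y hc hcy hy hyt i
    rw [Finset.prod_const_one] at h5
    exact h5) h4
  have h5 : ∀ l, φ ((∏ i, WH_r Λ (e i (X l))) / algebraMap K N (s l)) =
      1 * ((∏ i, WH_r Λ (e i (X l))) / algebraMap K N (s l)) := by
    intro l
    have h6 : ∏ i, WH_r Λ (e (τ i) (X l)) = ∏ i, WH_r Λ (e i (X l)) := Equiv.prod_comp τ fun i => WH_r Λ (e i (X l))
    rw [map_div₀, φ.commutes, map_prod, one_mul, Finset.prod_congr rfl fun i _ => (WH_phr Λ φ hφ1 hφ2 (e i (X l))).trans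
      (congrArg (WH_r Λ) (hτ i (X l))), h6]
  choose t ht using fun l => WH_fx Λ φ hφ1 (h3 l).1 Rf.one (h5 l)
  refine ⟨l0, t, ?_, fun l => ?_, ?_, fun l => ?_⟩
  · rintro rfl
    rw [map_zero] at hl0
    exact h2 hl0.symm
  · intro h0
    have h6 := ht l
    rw [h0, map_zero] at h6
    exact (h3 l).2 h6.symm
  · rw [hl0]
    exact rf_res h1
  · rw [ht l]
    exact rf_res (h3 l).1

/-- the product of the residues of the conjugates -/
private theorem WH_pr {K L N : Type} [Field K] [NumberField K] [Field L] [NumberField L] [Field N] [NumberField N]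
    [Algebra K L] [Algebra K N] {q : ℕ} (e : Fin (Module.finrank K L) ≃ (L →ₐ[K] N)) {p : ℕ} [Fact p.Prime]
    (π : Pl K p) (Λ : PF N (Om p)) (hΛ : ∀ x ∈ π.V, Rf Λ (algebraMap K N x) (em p (res π x)))
    (c : Fin (Module.finrank K L) → N) (r : Fin (Module.finrank K L) → Fin q → N) (c0 : K) (hc0 : c0 ≠ 0) (s : Fin q → K)
    (hs0 : ∀ l, s l ≠ 0) (l0 : ZMod p) (t : Fin q → ZMod p)
    (h1 : Rf Λ ((∏ i, c i) / algebraMap K N c0) (em p l0))
    (h2 : ∀ l, Rf Λ ((∏ i, r i l) / algebraMap K N (s l)) (em p (t l))) (ν : ℕ) (d : Fin q → ℕ) (f : L)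
    (hU : c0 ^ ν * (∏ l, s l ^ d l) * Algebra.norm K f ∈ π.V) (g : Fin (Module.finrank K L) → Om p)
    (hg : ∀ i, Rf Λ (c i ^ ν * (∏ l, r i l ^ d l) * e i f) (g i)) :
    ∏ i, g i = em p (l0 ^ ν * (∏ l, t l ^ d l) * res π (c0 ^ ν * (∏ l, s l ^ d l) * Algebra.norm K f)) := by
  have h3 := Rf.prod (Finset.univ : Finset (Fin (Module.finrank K L))) fun i _ => hg i
  have h4 := ((h1.pow ν).mul (Rf.prod (Finset.univ : Finset (Fin q)) fun l _ => (h2 l).pow (d l))).mul (hΛ _ hU)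
  have hc1 : algebraMap K N c0 ≠ 0 := (map_ne_zero _).2 hc0
  have hs1 : ∀ l, algebraMap K N (s l) ≠ 0 := fun l => (map_ne_zero _).2 (hs0 l)
  have h5 : ((∏ i, c i) / algebraMap K N c0) ^ ν * (∏ l, ((∏ i, r i l) / algebraMap K N (s l)) ^ d l) *
      algebraMap K N (c0 ^ ν * (∏ l, s l ^ d l) * Algebra.norm K f) = ∏ i, (c i ^ ν * (∏ l, r i l ^ d l) * e i f) := by
    rw [Finset.prod_mul_distrib, Finset.prod_mul_distrib, norm_prod e f, Finset.prod_pow, map_mul, map_mul, map_pow,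
      map_prod]
    have h6 : ∏ i, ∏ l, r i l ^ d l = ∏ l, (∏ i, r i l) ^ d l := by
      rw [Finset.prod_comm]
      exact Finset.prod_congr rfl fun l _ => Finset.prod_pow _ _ _
    have h7 : (∏ l, ((∏ i, r i l) / algebraMap K N (s l)) ^ d l) * ∏ l, algebraMap K N (s l ^ d l) =
        ∏ l, (∏ i, r i l) ^ d l := by
      rw [← Finset.prod_mul_distrib]
      refine Finset.prod_congr rfl fun l _ => ?_
      rw [map_pow, ← mul_pow, div_mul_cancel₀ _ (hs1 l)]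
    have h8 : ((∏ i, c i) / algebraMap K N c0) ^ ν * algebraMap K N c0 ^ ν = (∏ i, c i) ^ ν := by
      rw [← mul_pow, div_mul_cancel₀ _ hc1]
    rw [h6, ← h7, ← h8]
    ring
  rw [h5] at h4
  rw [h3.unique h4, map_mul, map_mul, map_pow, map_prod]
  simp only [map_pow]

open Classical in
theorem loc_W {K : Type} [Field K] [NumberField K] (L : Type) [Field L] [NumberField L] (p0 : ℕ) (hp5 : 5 ≤ p0)
    {S1 S : Finset (FinitePlace K)}
    (hS1 : ∀ (ι : Type) [Fintype ι] (x : ι → K), x ≠ 0 → ∃ l : K, l ≠ 0 ∧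
      ∀ v : FinitePlace K, v ∉ S1 → (⨆ i, v (l * x i)) = 1)
    (hp0 : ∀ p : ℕ, p.Prime → p0 ≤ p → ∀ v : FinitePlace K, v (p : K) < 1 → v ∉ S1) (ϖ : Kˣ)
    (hϖ1 : ϖ ∈ Su (S1 ∪ S)) (hϖ2 : ∀ v ∈ S, v ∉ S1 → v (ϖ : K) ≠ 1)
    {n h g M w s e k : ℕ} {κ ι : Type} [Fintype κ] [Fintype ι] (W : Finset (Fin w)) (V R : Finset (Fin s))
    (A' B' : Fin h → 𝓞 K)
    (hdd : ∀ l, ds (A' l) (B' l) ≠ 0) {δ : Fin w → ℕ} {d' : Fin w → Fin h → ℕ} (E' : Fin w → κ → Fin n → ℤ)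
    (b : IxM κ M δ d' → 𝓞 K) {ν : Fin s → ℕ} {d : Fin s → Fin (h + g) → ℕ} (E : Fin s → ι → Fin n → ℤ)
    (ω : Fin e → 𝓞 K) {H : ℕ} (z : Cv e g × (IxM ι M ν d × Fin e → ℤ)) (hz : Box ω H z)
    (hI : IntW k S W V R E' (fun t => ((b t : 𝓞 K) : K)) E (aA ω A' z.1) (aB ω B' z.1) (cf ω z.2)) :
    ∃ x : Fin (n + (w + s) + 1) → Kˣ, (∀ l, x l ∈ Su (S1 ∪ S)) ∧
      ∃ P : (l : Fin (h + g)) → Pt (aA ω A' z.1 l) (aB ω B' z.1 l),
        AdmK L p0 (RGU k W V R A' B' E' b ν d E ω z.1) (A := aA ω A' z.1) (B := aB ω B' z.1) z.2 x P := by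
  obtain ⟨L0, _, _, _, hk, x, P, u, hx0, hP, hu, hY0, hV0, hS⟩ := hI
  obtain ⟨N, _, _, _, _, ⟨e⟩⟩ := ex_gal K L0
  have hds : ∀ l, ds (aA ω A' z.1 l) (aB ω B' z.1 l) ≠ 0 := by
    intro l
    refine Fin.addCases (fun i h0 => ?_) (fun i h0 => ?_) l
    · refine hdd i ?_
      apply RingOfIntegers.coe_injective
      rw [map_zero]
      rw [← h0]
      simp only [ds, aA, aB, Fin.append_left, map_add, map_mul, map_pow, map_ofNat]
    · refine (hz.1 i).1 ?_
      apply RingOfIntegers.coe_injective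
      rw [map_zero]
      rw [← h0]
      simp only [ds, aA, aB, Fin.append_right, cA, cB, map_add, map_mul, map_pow, map_ofNat]
  have hdL : ∀ l, ds (algebraMap K L0 (aA ω A' z.1 l)) (algebraMap K L0 (aB ω B' z.1 l)) ≠ 0 := by
    intro l h0
    apply hds l
    apply (algebraMap K L0).injective
    rw [map_zero, ← h0]
    simp only [ds, map_add, map_mul, map_pow, map_ofNat]
  choose PL hPL using fun l => pt_of (two_ne_zero : (2 : L0) ≠ 0) (hdL l) (P l) (hP l)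
  choose Q hQ T0 hT0 using fun l => WH_glob e (PL l)
  have hm : 1 ≤ Module.finrank K L0 := Module.finrank_pos
  have hN0 : ∀ l, Algebra.norm K (x l) ≠ 0 := fun l => Algebra.norm_ne_zero_iff.2 (hx0 l)
  -- the norm forms
  obtain ⟨c0, hc0, hcf⟩ := norm_form S1 hS1 e u hu
  have hX : ∀ l, (![1, (P l).elim 0 Prod.fst] : Fin (1 + 1) → L0) ≠ 0 := fun l h0 => one_ne_zero (congrFun h0 0)
  choose sc hsc0 hscf using fun l => norm_form (M := 1) S1 hS1 e ![1, (P l).elim 0 Prod.fst] (hX l)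
  obtain ⟨U, hUd⟩ : ∃ U : Fin s → K, U = fun j => c0 ^ ν j * (∏ l, sc l ^ d j l) *
    Algebra.norm K (sM E (fun t => algebraMap K L0 (cf ω z.2 t)) x P u j) := ⟨_, rfl⟩
  obtain ⟨Y, hYd⟩ : ∃ Y : Fin w → K, Y = fun j => c0 ^ δ j * (∏ l : Fin h, sc (Fin.castAdd g l) ^ d' j l) *
    Algebra.norm K (sM E' (fun t => algebraMap K L0 ((b t : 𝓞 K) : K)) x (fun l => P (Fin.castAdd g l)) u j) := ⟨_, rfl⟩
  have hU1 : ∀ j ∈ V, ∀ v : FinitePlace K, v ∉ S1 ∪ S → v (U j) = 1 := by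
    intro j hj v hv
    rw [hUd]
    exact unit_V e u hu P c0 hc0 hcf sc hsc0 hscf (ν j) (d j) _ (fun w hw => (hS w hw).2.2 j hj) v hv
  have hY1 : ∀ j ∈ W, ∀ v : FinitePlace K, v ∉ S1 ∪ S → v (Y j) = 1 := by
    intro j hj v hv
    rw [hYd]
    exact unit_V e u hu (fun l => P (Fin.castAdd g l)) c0 hc0 hcf (fun l => sc (Fin.castAdd g l)) (fun l => hsc0 _)
      (fun l => hscf _) (δ j) (d' j) _ (fun w hw => (hS w hw).2.1 j hj) v hv
  obtain ⟨v1, hv1⟩ := WH_far K (S1 ∪ S)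
  have hne : ∀ a : K, (∀ v : FinitePlace K, v ∉ S1 ∪ S → v a = 1) → a ≠ 0 := by
    intro a ha h0
    have h1 := ha v1 hv1
    rw [h0, map_zero] at h1
    exact zero_ne_one h1
  obtain ⟨UU, hUU⟩ : ∃ UU : Fin s → Kˣ, ∀ j, (UU j ∈ Su (S1 ∪ S)) ∧ (j ∈ V → (UU j : K) = U j) := by
    have h1 : ∀ j, ∃ y : Kˣ, y ∈ Su (S1 ∪ S) ∧ (j ∈ V → (y : K) = U j) := by
      intro j
      by_cases hj : j ∈ V
      · exact ⟨Units.mk0 (U j) (hne _ (hU1 j hj)), fun v hv => hU1 j hj v hv, fun _ => rfl⟩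
      · exact ⟨1, Subgroup.one_mem _, fun h => absurd h hj⟩
    choose UU hUU using h1
    exact ⟨UU, hUU⟩
  obtain ⟨YY, hYY⟩ : ∃ YY : Fin w → Kˣ, ∀ j, (YY j ∈ Su (S1 ∪ S)) ∧ (j ∈ W → (YY j : K) = Y j) := by
    have h1 : ∀ j, ∃ y : Kˣ, y ∈ Su (S1 ∪ S) ∧ (j ∈ W → (y : K) = Y j) := by
      intro j
      by_cases hj : j ∈ W
      · exact ⟨Units.mk0 (Y j) (hne _ (hY1 j hj)), fun v hv => hY1 j hj v hv, fun _ => rfl⟩
      · exact ⟨1, Subgroup.one_mem _, fun h => absurd h hj⟩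
    choose YY hYY using h1
    exact ⟨YY, hYY⟩
  obtain ⟨X0, hX0⟩ : ∃ X0 : Fin (n + (w + s)) → Kˣ,
      X0 = Fin.append (fun l => Units.mk0 (Algebra.norm K (x l)) (hN0 l)) (Fin.append YY UU) := ⟨_, rfl⟩
  have hX1 : ∀ l, X0 (Fin.castAdd (w + s) l) = Units.mk0 (Algebra.norm K (x l)) (hN0 l) := by
    intro l
    rw [hX0, Fin.append_left]
  have hX2 : ∀ j, X0 (Fin.natAdd n (Fin.natAdd w j)) = UU j := by
    intro j
    rw [hX0, Fin.append_right, Fin.append_right]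
  have hX3 : ∀ j, X0 (Fin.natAdd n (Fin.castAdd s j)) = YY j := by
    intro j
    rw [hX0, Fin.append_right, Fin.append_left]
  refine ⟨Fin.snoc (α := fun _ => Kˣ) X0 ϖ, fun l => ?_, T0, ?_⟩
  · refine Fin.lastCases ?_ (fun l => ?_) l
    · rw [Fin.snoc_last]
      exact hϖ1
    · rw [Fin.snoc_castSucc]
      refine Fin.addCases (fun i => ?_) (fun i => ?_) l
      · rw [hX1, mem_Su]
        intro v hv
        have hvS : v ∉ S := fun h => hv (mem_union_right _ h)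
        rw [Units.val_mk0]
        exact unit_x e (x i) (fun w hw => (hS w hw).1 i) v hvS
      · refine Fin.addCases (fun i => ?_) (fun i => ?_) i
        · rw [hX3]
          exact (hYY i).1
        · rw [hX2]
          exact (hUU i).1
  · intro p hp hpp _ π hAB hdp hxx
    have hF : Fact p.Prime := ⟨hp⟩
    obtain ⟨v, hvp, hvV⟩ := pl_iff K hp π
    have hv1 : v ∉ S1 := hp0 p hp hpp v hvp
    have hvS : v ∉ S := by
      intro hvS
      have h1 := hxx (Fin.last _)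
      rw [Fin.snoc_last] at h1
      refine hϖ2 v hvS hv1 (le_antisymm ((hvV _).1 h1.1) ?_)
      have h2 := (hvV _).1 h1.2
      rw [map_inv₀] at h2
      have h3 : 0 < v (ϖ : K) := FinitePlace.pos_iff.2 ϖ.ne_zero
      exact (inv_le_one₀ h3).1 h2
    have h2 : (2 : Om p) ≠ 0 := by
      intro h0
      have h3 : em p (2 : ZMod p) = 0 := by
        rw [map_ofNat]
        exact h0
      have h4 : (2 : ZMod p) = 0 := (map_eq_zero (em p)).1 h3
      have h5 : ((2 : ℕ) : ZMod p) = 0 := by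
        rw [Nat.cast_ofNat]
        exact h4
      rw [ZMod.natCast_eq_zero_iff] at h5
      have h6 := Nat.le_of_dvd two_pos h5
      omega
    have hpF : (p : Om p) = 0 := by
      have h3 := map_natCast (em p) p
      rw [ZMod.natCast_self, map_zero] at h3
      exact h3.symm
    have hxx1 : ∀ l, Algebra.norm K (x l) ∈ π.V := by
      intro l
      have h1 := hxx (Fin.castSucc (Fin.castAdd (w + s) l))
      rw [Fin.snoc_castSucc, hX1] at h1
      exact h1.1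
    have hUV : ∀ j ∈ V, U j ∈ π.V := by
      intro j hj
      have h1 := hxx (Fin.castSucc (Fin.natAdd n (Fin.natAdd w j)))
      rw [Fin.snoc_castSucc, hX2, (hUU j).2 hj] at h1
      exact h1.1
    have hYV : ∀ j ∈ W, Y j ∈ π.V := by
      intro j hj
      have h1 := hxx (Fin.castSucc (Fin.natAdd n (Fin.castAdd s j)))
      rw [Fin.snoc_castSucc, hX3, (hYY j).2 hj] at h1
      exact h1.1
    obtain ⟨Λ, φ, hΛ, hφ1, hφ2⟩ := ex_frob (N := N) π
    obtain ⟨τ, hτ⟩ := WH_perm e φ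
    have hΛv := WH_above π Λ hΛ v hvV
    have hxV : ∀ i l, e i (x l) ∈ Λ.V ∧ (e i (x l))⁻¹ ∈ Λ.V := fun i l =>
      WH_xV hvS Λ hΛv hp.ne_zero hpF (e i) (x l) fun w hw => (hS w hw).1 l
    obtain ⟨PP, y, c, c1, c2, c3, c4, c5, c8, c0', c9⟩ := WH_loc e h2 π (aA ω A' z.1) (aB ω B' z.1)
      (fun l => (hAB l).1) (fun l => (hAB l).2) hdp Λ φ hΛ hφ1 hφ2 τ hτ x hx0 hxV (fun l => Algebra.norm K (x l)) hxx1
      (fun l => norm_prod e (x l)) PL Q hQ T0 hT0 u hu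
    obtain ⟨l0, t, hl0, ht0, hl1, ht1⟩ := WH_sc e Λ φ hφ1 hφ2 τ hτ hv1 hΛv u c y c0' c9 (fun i => (c3 i).1)
      (fun i a => (c3 i).2 a) c0 hcf (fun l => (P l).elim 0 Prod.fst) sc hscf
    have hsn : (fun l : Fin (n + (w + s)) => res π ((Fin.snoc (α := fun _ => Kˣ) X0 ϖ (Fin.castSucc l) : Kˣ) : K)) =
        fun l => res π (X0 l : K) := funext fun l => by rw [Fin.snoc_castSucc]
    show _ ∈ RDG k W V R A' B' E' b ν d E ω z.1 p π (fun l : Fin (n + (w + s)) => res π ((Fin.snoc (α := fun _ => Kˣ) X0 ϖ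
      (Fin.castSucc l) : Kˣ) : K)) (fun l => rdK π (T0 l))
    rw [hsn]
    have hsec : ∀ i j, Rf Λ (c i ^ ν j * (∏ l, WH_r Λ (e i ((P l).elim 0 Prod.fst)) ^ d j l) *
        e i (sM E (fun t => algebraMap K L0 (cf ω z.2 t)) x P u j))
        (sM E (fun x => em p (∑ i, ((z.2 (x, i) : ℤ) : ZMod p) * res π ((ω i : 𝓞 K) : K))) (fun l => rf Λ (e i (x l)))
        (fun l => opP (PP i l)) (y i) j) := by
      intro i j
      have h3 := WH_sec π Λ hΛ (e i) E (A := aA ω A' z.1) (B := aB ω B' z.1)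
        (fun l => (hAB _).1) (fun l => (hAB _).2) (cf ω z.2)
        (fun t => ∑ k, ((z.2 (t, k) : ℤ) : ZMod p) * res π ((ω k : 𝓞 K) : K))
        (fun t => el_rd (fun k => rd_res (VK.int_mem π (ω k))) (fun k => z.2 (t, k))) x (hxV i) P (fun l => Q l i)
        (fun l => by rw [hQ, hPL]) u (c i) (y i) (c9 i) j
      have h4 : (fun l => opP (PP i l)) = fun l => rdF Λ (Q l i) := funext fun l => c8 i _
      rw [h4]
      exact h3
    have hsec' : ∀ i j, Rf Λ (c i ^ δ j * (∏ l : Fin h, WH_r Λ (e i ((P (Fin.castAdd g l)).elim 0 Prod.fst)) ^ d' j l) *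
        e i (sM E' (fun t => algebraMap K L0 ((b t : 𝓞 K) : K)) x (fun l => P (Fin.castAdd g l)) u j))
        (sM E' (fun x => em p (res π ((b x : 𝓞 K) : K))) (fun l => rf Λ (e i (x l)))
        (fun l => opP (PP i (Fin.castAdd g l))) (y i) j) := by
      intro i j
      have h3 := WH_sec π Λ hΛ (e i) E' (A := fun l => aA ω A' z.1 (Fin.castAdd g l)) (B := fun l => aB ω B' z.1 (Fin.castAdd g l))
        (fun l => (hAB _).1) (fun l => (hAB _).2) (fun t => ((b t : 𝓞 K) : K)) (fun t => res π ((b t : 𝓞 K) : K))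
        (fun t => rd_res (VK.int_mem π (b t))) x (hxV i) (fun l => P (Fin.castAdd g l)) (fun l => Q (Fin.castAdd g l) i)
        (fun l => by rw [hQ, hPL]) u (c i) (y i) (c9 i) j
      have h4 : (fun l => opP (PP i (Fin.castAdd g l))) = fun l => rdF Λ (Q (Fin.castAdd g l) i) :=
        funext fun l => c8 i _
      rw [h4]
      exact h3
    refine ⟨hF, hdp, l0, t, hl0, ht0, Module.finrank K L0, τ, fun i l => rf Λ (e i (x l)), PP, y, hm, hk, c1, c2, c3,
      fun l => ?_, c5, fun j hj i => ?_, fun j hj => ?_, fun j hj hjR i => ?_, fun j hj => ?_⟩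
    · show ∏ i, rf Λ (e i (x l)) = em p (res π (X0 (Fin.castAdd (w + s) l) : K))
      rw [hX1, Units.val_mk0]
      exact c4 l
    · have h3 := hsec' i j
      rw [hY0 j hj, map_zero, mul_zero] at h3
      exact h3.unique Rf.zero
    · have h3 := hYV j hj
      rw [hYd] at h3
      have h4 := WH_pr e π Λ hΛ c (fun i l => WH_r Λ (e i ((P (Fin.castAdd g l)).elim 0 Prod.fst))) c0 hc0
        (fun l => sc (Fin.castAdd g l)) (fun l => hsc0 _) l0 (fun l => t (Fin.castAdd g l)) hl1 (fun l => ht1 _) (δ j)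
        (d' j) (sM E' (fun t => algebraMap K L0 ((b t : 𝓞 K) : K)) x (fun l => P (Fin.castAdd g l)) u j) h3 _
        fun i => hsec' i j
      show ∏ i, sM E' (fun x => em p (res π ((b x : 𝓞 K) : K))) (fun l => rf Λ (e i (x l)))
        (fun l => opP (PP i (Fin.castAdd g l))) (y i) j =
        em p (l0 ^ δ j * (∏ l : Fin h, t (Fin.castAdd g l) ^ d' j l) * res π (X0 (Fin.natAdd n (Fin.castAdd s j)) : K))
      rw [h4, hX3, (hYY j).2 hj, hYd]
    · have h3 := hsec i j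
      rw [hV0 j hj hjR, map_zero, mul_zero] at h3
      exact h3.unique Rf.zero
    · have h3 := hUV j hj
      rw [hUd] at h3
      have h4 := WH_pr e π Λ hΛ c (fun i l => WH_r Λ (e i ((P l).elim 0 Prod.fst))) c0 hc0 sc hsc0 l0 t hl1 ht1 (ν j)
        (d j) (sM E (fun t => algebraMap K L0 (cf ω z.2 t)) x P u j) h3 _ fun i => hsec i j
      show ∏ i, sM E (fun x => em p (∑ i, ((z.2 (x, i) : ℤ) : ZMod p) * res π ((ω i : 𝓞 K) : K)))
        (fun l => rf Λ (e i (x l))) (fun l => opP (PP i l)) (y i) j =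
        em p (l0 ^ ν j * (∏ l, t l ^ d j l) * res π (X0 (Fin.natAdd n (Fin.natAdd w j)) : K))
      rw [h4, hX2, (hUU j).2 hj, hUd]

end DP
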