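import Pool.Agent.Lib.MP_17a322_ntDP.WG
import Pool.Agent.Lib.MP_17a322_ntDP.WH
import Pool.Agent.Lib.MP_17a322_ntFB.PLK
import Pool.Agent.Lib.MP_17a322_ntFB.PM2
import Pool.Agent.Lib.MP_17a322_ntOC.TE

/-!
# Points of bounded degree: the products of copies of an elliptic curve of rank at most one over `ℚ` and of elliptic curves
with finitely many points
-/

set_option autoImplicit false

namespace DP

open Finset NumberField LVH VK VU OCM FB IsDedekindDomain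

variable {K : Type} [Field K] [NumberField K]

/-- the residue field of a prime ideal of `𝓞 K` is the prime field -/
private theorem WK_rf_equiv (hK : Module.finrank ℚ K = 1) (v : HeightOneSpectrum (𝓞 K)) (p : ℕ) (hp : p.Prime)
    (hc : CharP (RF v) p) : Nonempty (RF v ≃+* ZMod p) := by
  have : Fact p.Prime := ⟨hp⟩
  obtain ⟨f, hf⟩ : ∃ f : ZMod p →+* RF v, f = ZMod.castHom (dvd_refl p) (RF v) := ⟨_, rfl⟩
  have hsurj : Function.Surjective f := by
    intro x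
    obtain ⟨a, ha⟩ := surj_RF v x
    obtain ⟨n, hn⟩ : ∃ n : ℤ, ((n : ℤ) : 𝓞 K) = a := by
      obtain ⟨q, hq⟩ : ∃ q : ℚ, algebraMap ℚ K q = (a : K) := by
        have h1 := (finrank_eq_one_iff_of_nonzero' (1 : K) one_ne_zero).1 hK (a : K)
        obtain ⟨q, hq⟩ := h1
        exact ⟨q, by rw [← hq, Algebra.smul_def, mul_one]⟩
      have hi : IsIntegral ℤ q := by
        have h1 : IsIntegral ℤ (algebraMap ℚ K q) := by
          rw [hq]
          exact a.isIntegral_coe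
        exact (isIntegral_algebraMap_iff (algebraMap ℚ K).injective).1 h1
      obtain ⟨n, hn⟩ := IsIntegrallyClosed.isIntegral_iff.1 hi
      refine ⟨n, RingOfIntegers.coe_injective ?_⟩
      have h2 : (((n : ℤ) : 𝓞 K) : K) = (n : K) := map_intCast (algebraMap (𝓞 K) K) n
      refine h2.trans (Eq.trans ?_ hq)
      rw [← hn]
      simp
    refine ⟨(n : ZMod p), ?_⟩
    rw [map_intCast]
    rw [← hn] at ha
    have h1 : Rf (pV v) (((n : ℤ) : 𝓞 K) : K) ((n : ℤ) : RF v) := by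
      have h2 : (((n : ℤ) : 𝓞 K) : K) = (n : K) := map_intCast (algebraMap (𝓞 K) K) n
      rw [h2]
      exact Rf.int n
    exact h1.unique ha
  exact ⟨(RingEquiv.ofBijective f ⟨f.injective, hsurj⟩).symm⟩

/-- the place with values in the prime field -/
private noncomputable def WK_plv (v : HeightOneSpectrum (𝓞 K)) {p : ℕ} (e : RF v ≃+* ZMod p) : Pl K p where
  V := (pV v).V
  ρ := (e : RF v →+* ZMod p).comp (pV v).ρ
  ker := fun x hx => by rw [RingHom.comp_apply, (pV v).ker x hx, map_zero]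

private theorem WK_res_plv (v : HeightOneSpectrum (𝓞 K)) {p : ℕ} (e : RF v ≃+* ZMod p) (x : K) :
    res (WK_plv v e) x = e (rf (pV v) x) := by
  unfold res rf
  by_cases h : x ∈ (pV v).V
  · rw [dif_pos h, dif_pos (show x ∈ (WK_plv v e).V from h)]
    rfl
  · rw [dif_neg h, dif_neg (show x ∉ (WK_plv v e).V from h), map_zero]

private theorem WK_rdK_plv (v : HeightOneSpectrum (𝓞 K)) {p : ℕ} (e : RF v ≃+* ZMod p) {A B : K} (P : Pt A B) :
    rdK (WK_plv v e) P = (rdF (pV v) P).map (fun z => (e z.1, e z.2)) := by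
  classical
  rcases P with _ | ⟨x, y, hxy⟩
  · rfl
  · show (if x ∈ (WK_plv v e).V then some (res (WK_plv v e) x, res (WK_plv v e) y) else none) =
      Option.map (fun z => (e z.1, e z.2)) (if x ∈ (pV v).V then some (rf (pV v) x, rf (pV v) y) else none)
    by_cases h : x ∈ (pV v).V
    · rw [if_pos h, if_pos (show x ∈ (WK_plv v e).V from h), WK_res_plv, WK_res_plv]
      rfl
    · rw [if_neg h, if_neg (show x ∉ (WK_plv v e).V from h)]
      rfl

open Classical in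
/-- the local condition at the prime ideals, at the value `1` of the coordinates of the torus; the points of the curves of
index not in `J` are given -/
private noncomputable def WK_R {m h : ℕ} {ι : Type} (R : Loc K m h ι) (J : Fin h → Prop) {A' B' : Fin h → K}
    (Q : (l : {l // ¬ J l}) → Pt (A' l.1) (B' l.1)) : LocV K h ι := fun v p z =>
  if hh : Nonempty (RF v ≃+* ZMod p) then
    R p (WK_plv v hh.some) (fun _ => 1)
      (fun l => (if hl : J l then z l else rdF (pV v) (Q ⟨l, hl⟩)).map fun y => (hh.some y.1, hh.some y.2))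
  else ∅

/-- a prime ideal of norm `p` -/
private theorem WK_d1 (hK : Module.finrank ℚ K = 1) (p : ℕ) : D1 K p := by
  refine ⟨Ideal.span {((p : ℕ) : 𝓞 K)}, ?_⟩
  rw [Ideal.absNorm_span_singleton]
  have h1 : ((p : ℕ) : 𝓞 K) = algebraMap ℤ (𝓞 K) (p : ℤ) := (map_natCast (algebraMap ℤ (𝓞 K)) p).symm
  rw [h1, Algebra.norm_algebraMap]
  have h2 : Module.finrank ℤ (𝓞 K) = 1 := by
    rw [RingOfIntegers.rank, hK]
  rw [h2, pow_one, Int.natAbs_natCast]

private theorem WK_dens (hK : Module.finrank ℚ K = 1) {m h : ℕ} {ι : Type} [Fintype ι] (R : Loc K m h ι) {p0 : ℕ} {κ : ℝ}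
    (hR : DensK K p0 R κ) (J : Fin h → Prop) {A' B' : Fin h → K} (Q : (l : {l // ¬ J l}) → Pt (A' l.1) (B' l.1)) :
    DensV p0 (WK_R R J Q) κ := by
  intro v p hp hc hpN z
  have hF : Fact p.Prime := ⟨hp⟩
  have hh := WK_rf_equiv hK v p hp hc
  unfold WK_R
  rw [dif_pos hh]
  exact hR p hp hpN (WK_d1 hK p) _ _ _ fun l => one_ne_zero

/-- good reduction at the large primes -/
private theorem WK_good {A B : 𝓞 K} (hd : ds A B ≠ 0) : ∃ p1 : ℕ, ∀ p : ℕ, p.Prime → p1 ≤ p → ∀ (π : Pl K p),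
    ds (res π ((A : 𝓞 K) : K)) (res π ((B : 𝓞 K) : K)) ≠ 0 := by
  have hn0 : ((ds A B : 𝓞 K) : K) ≠ 0 := fun h0 => hd (NumberField.RingOfIntegers.coe_eq_zero_iff.1 h0)
  obtain ⟨N, hN⟩ := unit_pl K (g := ((ds A B : 𝓞 K) : K)) hn0
  refine ⟨1 + N, fun p hp hpp π => ?_⟩
  have : Fact p.Prime := ⟨hp⟩
  obtain ⟨u1, u2⟩ := hN p hp (by omega) π
  have hr := res_ne hn0 u1 u2
  have hA := rd_res (VK.int_mem π A)
  have hB := rd_res (VK.int_mem π B)
  have e4 : Rd π ((4 : ℤ) : K) ((4 : ℤ) : ZMod p) := Rd.int 4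
  have e27 : Rd π ((27 : ℤ) : K) ((27 : ℤ) : ZMod p) := Rd.int 27
  have hds : Rd π ((ds A B : 𝓞 K) : K) (ds (res π ((A : 𝓞 K) : K)) (res π ((B : 𝓞 K) : K))) := by
    have h1 := (e4.mul (hA.pow 3)).add (e27.mul (hB.pow 2))
    have h2 : ((ds A B : 𝓞 K) : K) = ((4 : ℤ) : K) * ((A : 𝓞 K) : K) ^ 3 + ((27 : ℤ) : K) * ((B : 𝓞 K) : K) ^ 2 := by
      unfold ds
      push_cast
      rfl
    have h3 : ds (res π ((A : 𝓞 K) : K)) (res π ((B : 𝓞 K) : K))
        = ((4 : ℤ) : ZMod p) * res π ((A : 𝓞 K) : K) ^ 3 + ((27 : ℤ) : ZMod p) * res π ((B : 𝓞 K) : K) ^ 2 := by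
      unfold ds
      push_cast
      rfl
    rw [h2, h3]
    exact h1
  have h4 := hds.unique (rd_res u1)
  rw [h4]
  exact hr

private theorem WK_cast {A B A1 B1 : K} (h1 : A1 = A) (h2 : B1 = B) (P : Pt A1 B1) :
    ∃ Q : Pt A B, ∀ v : HeightOneSpectrum (𝓞 K), rdF (pV v) Q = rdF (pV v) P := by
  subst h1 h2
  exact ⟨P, fun _ => rfl⟩

private theorem WK_finite {ι : Type} [Fintype ι] (H : ℕ) (X : (ι → ℤ) → Prop) :
    Finite {a : ι → ℤ // (∀ i, |a i| ≤ (H : ℤ)) ∧ X a} := by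
  have h1 : Finite {a : ι → ℤ // ∀ i, |a i| ≤ (H : ℤ)} := by
    have h2 : Set.Finite {a : ι → ℤ | ∀ i, |a i| ≤ (H : ℤ)} := by
      refine Set.Finite.subset (Set.Finite.pi (fun _ => Set.finite_Icc (-(H : ℤ)) H)) fun a ha i _ => ?_
      exact Set.mem_Icc.2 (abs_le.1 (ha i))
    exact h2
  exact Finite.of_injective (β := {a : ι → ℤ // ∀ i, |a i| ≤ (H : ℤ)}) (fun a => ⟨a.1, a.2.1⟩)
    fun a b hab => Subtype.ext (congrArg (fun x => x.1) hab)

private theorem WK_union {ι τ : Type} [Fintype ι] [Fintype τ] (H : ℕ) (X : (ι → ℤ) → Prop) (Y : τ → (ι → ℤ) → Prop)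
    (h : ∀ a, (∀ i, |a i| ≤ (H : ℤ)) → X a → ∃ i, Y i a) :
    Nat.card {a : ι → ℤ // (∀ i, |a i| ≤ (H : ℤ)) ∧ X a} ≤
      ∑ i, Nat.card {a : ι → ℤ // (∀ i, |a i| ≤ (H : ℤ)) ∧ Y i a} := by
  have := fun i => WK_finite H (Y i)
  rw [← Nat.card_sigma]
  have hex : ∀ a : {a : ι → ℤ // (∀ i, |a i| ≤ (H : ℤ)) ∧ X a}, ∃ i : τ, (∀ i, |a.1 i| ≤ (H : ℤ)) ∧ Y i a.1 := by
    rintro ⟨a, ha, hX⟩
    obtain ⟨i, hi⟩ := h a ha hX
    exact ⟨i, ha, hi⟩
  choose f hf using hex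
  refine Nat.card_le_card_of_injective (fun a => (⟨f a, a.1, hf a⟩ : Σ i : τ,
    {a : ι → ℤ // (∀ i, |a i| ≤ (H : ℤ)) ∧ Y i a})) ?_
  intro a b hab
  exact Subtype.ext (congrArg (fun x => x.2.1) hab)

/-- the places of `S` are over small primes -/
private theorem WK_far (K : Type) [Field K] [NumberField K] (S : Finset (FinitePlace K)) : ∃ p0 : ℕ, ∀ p : ℕ, p.Prime →
    p0 ≤ p → ∀ v : FinitePlace K, v (p : K) < 1 → v ∉ S := by
  obtain ⟨M0, hM0, hM⟩ := exists_M0 K S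
  refine ⟨M0 + 1, fun p hp hpM v hv hvS => ?_⟩
  have h1 := hM v hvS
  have h2 := place_coprime K v hp hv (m := M0) (fun h => by
    have := Nat.le_of_dvd (Nat.pos_of_ne_zero hM0) h
    omega)
  rw [h2] at h1
  exact lt_irrefl _ h1

theorem rank_oneW {K : Type} [Field K] [NumberField K] [DecidableEq K] (hK : Module.finrank ℚ K = 1) {A B : 𝓞 K}
    (hd : ds A B ≠ 0) (hΓ : Module.finrank ℤ (Pt (A : K) (B : K)) ≤ 1) :
    ∃ c : ℝ, 0 < c ∧ ∀ (h r M w : ℕ) (κ : Type) [Fintype κ] (δ : Fin w → ℕ) (d' : Fin w → Fin h → ℕ)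
      (A' B' : Fin h → 𝓞 K), (∀ l, ds (A' l) (B' l) ≠ 0) →
      (∀ l, (A' l = A ∧ B' l = B) ∨ Finite (Pt ((A' l : 𝓞 K) : K) ((B' l : 𝓞 K) : K))) →
      ∀ (E' : Fin w → κ → Fin 0 → ℤ) (b : IxM κ M δ d' → 𝓞 K), FibP A' B' E' b r →
      ∀ (e : ℕ) (ω : Module.Basis (Fin e) ℤ (𝓞 K)) (k s : ℕ)
      (ι : Type) [Fintype ι] [DecidableEq ι] (ν : Fin s → ℕ) (E : Fin s → ι → Fin 0 → ℤ)
      (d : Fin s → Fin (h + 0) → ℕ) (R : Finset (Fin s)),
      (∀ j, Rich k (E j)) → (∀ j l, 2 * (k - 1) ≤ d j l) → (∀ j, k - 1 ≤ ν j ∨ M = 0) →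
      k * (h + r + R.card) < h + k * (s + 1) →
      ∃ C : ℝ, ∀ H : ℕ, 1 ≤ H →
        (Nat.card {z : Cv e 0 × (IxM ι M ν d × Fin e → ℤ) // Box ω H z ∧ ∃ S : Finset (FinitePlace K),
          IntW k S ∅ ∅ R E' (fun t => ((b t : 𝓞 K) : K)) E (aA ω A' z.1) (aB ω B' z.1) (cf ω z.2)} : ℝ) ≤
          C * (H : ℝ) ^ Fintype.card (IxM ι M ν d × Fin e) * Real.exp (-(c * (Real.log (Real.log H)) ^ 2)) := by
  classical
  have hΓ' : Module.finrank ℤ (⊤ : AddSubgroup (Pt (A : K) (B : K))) ≤ 1 := by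
    have h1 : Module.finrank ℤ (⊤ : AddSubgroup (Pt (A : K) (B : K))) = Module.finrank ℤ (Pt (A : K) (B : K)) :=
      (AddSubgroup.topEquiv (G := Pt (A : K) (B : K))).toIntLinearEquiv.finrank_eq
    rw [h1]
    exact hΓ
  obtain ⟨c, hc, hcK⟩ := conclK hd ⊤ hΓ' (κ := 1 / 2) (by norm_num)
  refine ⟨c, hc, fun h r M w κ _ δ d' A' B' hds hAB E' b hF e ω k s ι _ _ ν E d R hE hdd hν hk => ?_⟩
  have hcd : Set.finrank ℤ (clD (∅ : Finset (Fin w)) (∅ : Finset (Fin s)) δ d' ν d) = 0 := by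
    have h2 : clD (∅ : Finset (Fin w)) (∅ : Finset (Fin s)) δ d' ν d = (∅ : Set (Fin (h + 0) ⊕ Unit → ℤ)) := by
      ext x
      constructor
      · rintro (⟨k, hk, -⟩ | ⟨k, hk, -⟩)
        · exact absurd hk (Finset.notMem_empty k)
        · exact absurd hk (Finset.notMem_empty k)
      · intro hx
        exact absurd hx (Set.notMem_empty x)
    rw [h2]
    unfold Set.finrank
    rw [Submodule.span_empty]
    exact finrank_bot ℤ _
  obtain ⟨p0, hp0⟩ := dens_W K K A' B' E' b hF k 0 s e ν d E ω hE hdd hν ∅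
    (fun i hi => absurd hi (Finset.notMem_empty i)) ∅ R (by
      rw [hcd, Finset.card_empty, Finset.card_empty, Finset.sdiff_empty]
      simpa using hk)
  obtain ⟨ζ0, hζ0⟩ : ∃ ζ0 : Cv e 0, ζ0 = fun l => l.elim0 := ⟨_, rfl⟩
  have hζ1 : ∀ ζ : Cv e 0, ζ = ζ0 := fun ζ => funext fun l => l.elim0
  -- the places
  obtain ⟨S1, -, hS1⟩ := scale K ∅
  obtain ⟨p2, hp2⟩ := WK_far K S1
  choose p3 hp3 using fun l : Fin h => WK_good (K := K) (hds l)
  obtain ⟨pm, hpm⟩ : ∃ pm : ℕ, pm = max p0 (max p2 (5 + ∑ l, p3 l)) := ⟨_, rfl⟩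
  have hpm0 : p0 ≤ pm := by rw [hpm]; exact le_max_left _ _
  have hpm2 : p2 ≤ pm := by rw [hpm]; exact (le_max_left _ _).trans (le_max_right _ _)
  have hpm3 : ∀ l, p3 l ≤ pm := by
    intro l
    have h1 : p3 l ≤ ∑ l, p3 l := single_le_sum (f := p3) (fun i _ => Nat.zero_le _) (mem_univ l)
    rw [hpm]
    exact (h1.trans (Nat.le_add_left _ _)).trans ((le_max_right _ _).trans (le_max_right _ _))
  have hpm5 : 5 ≤ pm := by
    rw [hpm]
    exact (Nat.le_add_right _ _).trans ((le_max_right _ _).trans (le_max_right _ _))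
  -- the curves with finitely many points
  obtain ⟨J, hJd⟩ : ∃ J : Fin (h + 0) → Prop, ∀ l, J l ↔ (A' l = A ∧ B' l = B) := ⟨_, fun _ => Iff.rfl⟩
  obtain ⟨a1, ha1⟩ : ∃ a1 : Fin (h + 0) → K, a1 = aA (⇑ω) A' ζ0 := ⟨_, rfl⟩
  obtain ⟨b1, hb1⟩ : ∃ b1 : Fin (h + 0) → K, b1 = aB (⇑ω) B' ζ0 := ⟨_, rfl⟩
  have ha2 : ∀ l : Fin h, a1 (Fin.castAdd 0 l) = ((A' l : 𝓞 K) : K) := by
    intro l
    rw [ha1, aA, Fin.append_left]
  have hb2 : ∀ l : Fin h, b1 (Fin.castAdd 0 l) = ((B' l : 𝓞 K) : K) := by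
    intro l
    rw [hb1, aB, Fin.append_left]
  have hfin : ∀ l : {l // ¬ J l}, Finite (Pt (a1 l.1) (b1 l.1)) := by
    rintro ⟨l, hl⟩
    have h1 := (hAB l).resolve_left fun h1 => hl ((hJd _).2 h1)
    have h2 : a1 l = ((A' l : 𝓞 K) : K) := ha2 l
    have h3 : b1 l = ((B' l : 𝓞 K) : K) := hb2 l
    show Finite (Pt (a1 l) (b1 l))
    rw [h2, h3]
    exact h1
  have hT : Finite ((l : {l // ¬ J l}) → Pt (a1 l.1) (b1 l.1)) := Pi.finite
  obtain ⟨hTf⟩ := nonempty_fintype ((l : {l // ¬ J l}) → Pt (a1 l.1) (b1 l.1))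
  have hDK : DensK K pm (RGU k ∅ ∅ R A' B' E' b ν d E (⇑ω) ζ0) (1 / 2) :=
    dens_RGU K fun p hp hpp => hp0 ζ0 p hp (hpm0.trans hpp)
  obtain ⟨C, hC⟩ := hcK (h + 0) pm (Fintype.card (IxM ι M ν d × Fin e))
  refine ⟨Fintype.card ((l : {l // ¬ J l}) → Pt (a1 l.1) (b1 l.1)) * |C|, fun H hH => ?_⟩
  have h1 := fun Q : (l : {l // ¬ J l}) → Pt (a1 l.1) (b1 l.1) =>
    hC H hH (IxM ι M ν d × Fin e) rfl _ (WK_dens hK _ hDK J Q)
  have h3 := WK_union (ι := IxM ι M ν d × Fin e) (τ := (l : {l // ¬ J l}) → Pt (a1 l.1) (b1 l.1)) H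
    (fun a => ∃ S : Finset (FinitePlace K),
      IntW k S ∅ ∅ R E' (fun t => ((b t : 𝓞 K) : K)) E a1 b1 (cf ω a))
    (fun Q a => ∃ P : Fin (h + 0) → Pt (A : K) (B : K), (∀ l, P l ∈ (⊤ : AddSubgroup (Pt (A : K) (B : K)))) ∧
      AdmV pm (WK_R (RGU k ∅ ∅ R A' B' E' b ν d E (⇑ω) ζ0) J Q) a P) (by
      rintro a ha ⟨S, hI⟩
      have hI2 : IntW k ∅ ∅ ∅ R E' (fun t => ((b t : 𝓞 K) : K)) E (aA ω A' ζ0) (aB ω B' ζ0) (cf ω a) := by
        rw [← ha1, ← hb1]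
        obtain ⟨L, i1, i2, i3, hk1, x, P, u, x1, x2, x3, x4, x5, -⟩ := hI
        exact ⟨L, i1, i2, i3, hk1, x, P, u, x1, x2, x3, x4, x5, fun v _ => ⟨fun l => l.elim0,
          fun i hi => absurd hi (Finset.notMem_empty i), fun i hi => absurd hi (Finset.notMem_empty i)⟩⟩
      obtain ⟨x, hx, P, hP⟩ := loc_W K pm hpm5 (S := ∅) hS1 (fun p hp hpp => hp2 p hp (hpm2.trans hpp)) 1
        (Subgroup.one_mem _) (fun v hv => absurd hv (Finset.notMem_empty v)) ∅ ∅ R A' B' hds E' b E (⇑ω)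
        (H := H) (ζ0, a) ⟨fun l => l.elim0, ha⟩ hI2
      have hPv : ∃ Q : (l : Fin (h + 0)) → Pt (a1 l) (b1 l), ∀ (p : ℕ) (π : Pl K p) (l : Fin (h + 0)),
          rdK π (Q l) = rdK π (P l) := by
        subst ha1 hb1
        exact ⟨P, fun _ _ _ => rfl⟩
      obtain ⟨Q, hQ⟩ := hPv
      have hP2 : ∀ l : Fin (h + 0), ∃ P2 : Pt (A : K) (B : K), J l →
          ∀ v : HeightOneSpectrum (𝓞 K), rdF (pV v) P2 = rdF (pV v) (Q l) := by
        intro l
        by_cases hl : J l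
        · obtain ⟨P2, h2⟩ := WK_cast (A := (A : K)) (B := (B : K)) (A1 := a1 l) (B1 := b1 l)
            ((ha2 l).trans (by rw [((hJd l).1 hl).1])) ((hb2 l).trans (by rw [((hJd l).1 hl).2])) (Q l)
          exact ⟨P2, fun _ => h2⟩
        · exact ⟨.zero, fun h1 => absurd h1 hl⟩
      choose P2 hP2 using hP2
      refine ⟨fun l => Q l.1, P2, fun l => AddSubgroup.mem_top _, ?_⟩
      intro v p hp hc hpN
      have hF : Fact p.Prime := ⟨hp⟩
      have hh := WK_rf_equiv hK v p hp hc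
      unfold WK_R
      rw [dif_pos hh]
      have hz : (fun l : Fin (h + 0) => (if hl : J l then rdF (pV v) (P2 l) else rdF (pV v) (Q l)).map
          fun y => (hh.some y.1, hh.some y.2)) = fun l => rdK (WK_plv v hh.some) (P l) := by
        funext l
        rw [← hQ p (WK_plv v hh.some) l, WK_rdK_plv]
        by_cases hl : J l
        · rw [dif_pos hl, hP2 l hl v]
        · rw [dif_neg hl]
      have h5 : (fun i => ((a i : ℤ) : ZMod p)) ∈ RGU k ∅ ∅ R A' B' E' b ν d E (⇑ω) ζ0 p (WK_plv v hh.some)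
          (fun l => res (WK_plv v hh.some) (x l : K)) (fun l => rdK (WK_plv v hh.some) (P l)) := by
        refine hP p hp hpN (WK_d1 hK p) (WK_plv v hh.some) (fun l => ?_) (fun l => ?_) (fun l => ?_)
        · show aA ω A' ζ0 l ∈ _ ∧ aB ω B' ζ0 l ∈ _
          rw [← ha1, ← hb1]
          have h6 : a1 l = ((A' l : 𝓞 K) : K) := ha2 l
          have h7 : b1 l = ((B' l : 𝓞 K) : K) := hb2 l
          rw [h6, h7]
          exact ⟨VK.int_mem _ _, VK.int_mem _ _⟩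
        · show ds (res _ (aA ω A' ζ0 l)) (res _ (aB ω B' ζ0 l)) ≠ 0
          rw [← ha1, ← hb1]
          have h6 : a1 l = ((A' l : 𝓞 K) : K) := ha2 l
          have h7 : b1 l = ((B' l : 𝓞 K) : K) := hb2 l
          rw [h6, h7]
          exact hp3 l p hp ((hpm3 l).trans hpN) _
        · refine su_unit (S := S1 ∪ ∅) hp _ (fun v hv hvS => ?_) _ (hx l)
          rcases mem_union.1 hvS with h3 | h3
          · exact hp2 p hp (hpm2.trans hpN) v hv h3
          · exact absurd h3 (Finset.notMem_empty v)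
      rw [← hz] at h5
      obtain ⟨g1, g2, c0, t, g3, g4, m, σ, t1, P1, y1, g5, g6, g7, g8, g9, g10, g11, g12, -, g14, -⟩ := h5
      refine ⟨g1, g2, c0, t, g3, g4, m, σ, t1, P1, y1, g5, g6, g7, g8, g9, fun l => l.elim0, g11, g12,
        fun j hj => absurd hj (Finset.notMem_empty j), g14, fun j hj => absurd hj (Finset.notMem_empty j)⟩)
  have h4 : (Nat.card {z : Cv e 0 × (IxM ι M ν d × Fin e → ℤ) // Box ω H z ∧ ∃ S : Finset (FinitePlace K),
          IntW k S ∅ ∅ R E' (fun t => ((b t : 𝓞 K) : K)) E (aA ω A' z.1) (aB ω B' z.1) (cf ω z.2)}) ≤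
      Nat.card {a : IxM ι M ν d × Fin e → ℤ // (∀ i, |a i| ≤ (H : ℤ)) ∧ ∃ S : Finset (FinitePlace K),
        IntW k S ∅ ∅ R E' (fun t => ((b t : 𝓞 K) : K)) E a1 b1 (cf ω a)} := by
    have := WK_finite H fun a : IxM ι M ν d × Fin e → ℤ => ∃ S : Finset (FinitePlace K),
        IntW k S ∅ ∅ R E' (fun t => ((b t : 𝓞 K) : K)) E a1 b1 (cf ω a)
    refine Nat.card_le_card_of_injective (fun z => ⟨z.1.2, z.2.1.2, ?_⟩) ?_
    · obtain ⟨S, hS⟩ := z.2.2
      rw [hζ1 z.1.1, ← ha1, ← hb1] at hS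
      exact ⟨S, hS⟩
    · intro z z' hzz
      refine Subtype.ext (Prod.ext ((hζ1 _).trans (hζ1 _).symm) ?_)
      exact congrArg (fun w => w.1) hzz
  calc _ ≤ ((∑ Q : (l : {l // ¬ J l}) → Pt (a1 l.1) (b1 l.1),
        Nat.card {a : IxM ι M ν d × Fin e → ℤ // (∀ i, |a i| ≤ (H : ℤ)) ∧
        ∃ P : Fin (h + 0) → Pt (A : K) (B : K), (∀ l, P l ∈ (⊤ : AddSubgroup (Pt (A : K) (B : K)))) ∧
      AdmV pm (WK_R (RGU k ∅ ∅ R A' B' E' b ν d E (⇑ω) ζ0) J Q) a P} : ℕ) : ℝ) := by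
        exact_mod_cast h4.trans h3
    _ ≤ ∑ Q : (l : {l // ¬ J l}) → Pt (a1 l.1) (b1 l.1), |C| * (H : ℝ) ^ Fintype.card (IxM ι M ν d × Fin e) *
        Real.exp (-(c * (Real.log (Real.log H)) ^ 2)) := by
        rw [Nat.cast_sum]
        refine Finset.sum_le_sum fun Q _ => (h1 Q).trans ?_
        refine mul_le_mul_of_nonneg_right (mul_le_mul_of_nonneg_right (le_abs_self C) (by positivity)) (Real.exp_pos _).le
    _ = _ := by
        rw [Finset.sum_const, Finset.card_univ, nsmul_eq_mul]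
        ring

end DP
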