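import Pool.Agent.Lib.MP_17a322_ntDP.WI
import Pool.Agent.Lib.MP_17a322_ntDP.DefsG

/-!
# Smaller savings
-/

set_option autoImplicit false

namespace DP

open Finset NumberField LVH VK VU OCM FB

theorem shrink {K : Type} [Field K] [NumberField K] {e g : ℕ} {τ : Type} [Fintype τ] (ω : Fin e → 𝓞 K) {N : ℕ}
    (hN : Fintype.card τ + 5 * e * g = N) (Q Q' : ℕ → Cv e g × (τ → ℤ) → Prop) (f f1 : ℕ → ℝ) (H0 : ℕ)
    (hf : ∀ H, H0 ≤ H → f H ≤ f1 H) (hQ : ∀ H, H0 ≤ H → ∀ z, Q' H z → Q H z)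
    (h : ∃ C : ℝ, ∀ H : ℕ, 1 ≤ H → (Nat.card {z : Cv e g × (τ → ℤ) // Box ω H z ∧ Q H z} : ℝ) ≤
      C * (H : ℝ) ^ N * Real.exp (-(f1 H))) :
    ∃ C : ℝ, ∀ H : ℕ, 1 ≤ H → (Nat.card {z : Cv e g × (τ → ℤ) // Box ω H z ∧ Q' H z} : ℝ) ≤
      C * (H : ℝ) ^ N * Real.exp (-(f H)) := by
  obtain ⟨C, hC⟩ := h
  refine ⟨|C| + ∑ H ∈ range H0, (16 ^ e) ^ g * 4 ^ Fintype.card τ * Real.exp (f H), fun H hH => ?_⟩
  have hs0 : ∀ H, 0 ≤ (16 ^ e) ^ g * 4 ^ Fintype.card τ * Real.exp (f H) := fun H => by positivity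
  have hs : 0 ≤ ∑ H ∈ range H0, (16 ^ e) ^ g * 4 ^ Fintype.card τ * Real.exp (f H) := sum_nonneg fun H _ => hs0 H
  have hHN : 0 ≤ (H : ℝ) ^ N := by positivity
  have hE := Real.exp_pos (-(f H))
  rcases lt_or_ge H H0 with h1 | h1
  · have h2 := box_triv (K := K) (e := e) (g := g) (τ := τ) ω hH (Q' H)
    rw [hN] at h2
    have h3 : (16 ^ e) ^ g * 4 ^ Fintype.card τ * Real.exp (f H) ≤
        ∑ H ∈ range H0, (16 ^ e) ^ g * 4 ^ Fintype.card τ * Real.exp (f H) :=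
      single_le_sum (f := fun H => (16 ^ e) ^ g * 4 ^ Fintype.card τ * Real.exp (f H)) (fun i _ => hs0 i)
        (mem_range.2 h1)
    have h4 : Real.exp (f H) * Real.exp (-(f H)) = 1 := by rw [← Real.exp_add, add_neg_cancel, Real.exp_zero]
    calc _ ≤ (16 ^ e) ^ g * 4 ^ Fintype.card τ * (H : ℝ) ^ N := h2
      _ = (16 ^ e) ^ g * 4 ^ Fintype.card τ * (H : ℝ) ^ N * (Real.exp (f H) * Real.exp (-(f H))) := by rw [h4, mul_one]
      _ = ((16 ^ e) ^ g * 4 ^ Fintype.card τ * Real.exp (f H)) * (H : ℝ) ^ N * Real.exp (-(f H)) := by ring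
      _ ≤ _ := mul_le_mul_of_nonneg_right (mul_le_mul_of_nonneg_right
          (h3.trans (le_add_of_nonneg_left (abs_nonneg C))) hHN) hE.le
  · have h2 := box_union (K := K) (e := e) (g := g) (τ := τ) ω H {()} (Q' H) (fun _ => Q H)
      fun z _ hz => ⟨(), mem_singleton_self _, hQ H h1 z hz⟩
    rw [sum_singleton] at h2
    have h3 : Real.exp (-(f1 H)) ≤ Real.exp (-(f H)) := Real.exp_le_exp.2 (neg_le_neg (hf H h1))
    calc _ ≤ (Nat.card {z : Cv e g × (τ → ℤ) // Box ω H z ∧ Q H z} : ℝ) := by exact_mod_cast h2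
      _ ≤ C * (H : ℝ) ^ N * Real.exp (-(f1 H)) := hC H hH
      _ ≤ |C| * (H : ℝ) ^ N * Real.exp (-(f1 H)) :=
          mul_le_mul_of_nonneg_right (mul_le_mul_of_nonneg_right (le_abs_self C) hHN) (Real.exp_pos _).le
      _ ≤ |C| * (H : ℝ) ^ N * Real.exp (-(f H)) := mul_le_mul_of_nonneg_left h3 (by positivity)
      _ ≤ _ := mul_le_mul_of_nonneg_right (mul_le_mul_of_nonneg_right (le_add_of_nonneg_right hs) hHN) hE.le

/-- the exponent `(log H) ^ c` is monotone in `c` for `H ≥ 3` -/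
theorem rpow_mono {c c1 : ℝ} (hcc : c ≤ c1) (H : ℕ) (hH : 3 ≤ H) : (Real.log H) ^ c ≤ (Real.log H) ^ c1 := by
  refine Real.rpow_le_rpow_of_exponent_le ?_ hcc
  have h1 : Real.exp 1 ≤ 3 := by
    have := Real.exp_one_lt_d9
    linarith
  have h2 : (3 : ℝ) ≤ H := by exact_mod_cast hH
  rw [Real.le_log_iff_exp_le (by linarith)]
  exact h1.trans h2

theorem intW_of {K : Type} [Field K] [NumberField K] {n h g M w s : ℕ} {κ ι : Type} [Fintype κ] [Fintype ι]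
    {δ : Fin w → ℕ} {d' : Fin w → Fin h → ℕ} {ν : Fin s → ℕ} {d : Fin s → Fin (h + g) → ℕ} {k : ℕ}
    {S : Finset (FinitePlace K)} {W : Finset (Fin w)} {V R : Finset (Fin s)} {ρ : Fin s → ℕ} {E' : Fin w → κ → Fin n → ℤ}
    {b : IxM κ M δ d' → K} {E : Fin s → ι → Fin n → ℤ} {A B : Fin (h + g) → K} {a : IxM ι M ν d → K}
    (hI : IntG k S W V R ρ E' b E A B a) : IntW k S W V R E' b E A B a := by
  obtain ⟨L, i1, i2, i3, hk1, x, P, u, x1, x2, x3, x4, x5, -, x7⟩ := hI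
  exact ⟨L, i1, i2, i3, hk1, x, P, u, x1, x2, x3, x4, x5, x7⟩

theorem rich_mono {n : ℕ} {ι : Type} {N N' : ℕ} (h : N' ≤ N) {E : ι → Fin n → ℤ} (hE : Rich N E) : Rich N' E := by
  obtain ⟨a0, ha⟩ := hE
  refine ⟨a0, fun a => ?_⟩
  obtain ⟨i, hi⟩ := ha fun l => Fin.castLE h (a l)
  exact ⟨i, hi⟩

theorem clD_of_empty {h g w s : ℕ} (V : Finset (Fin s)) (δ : Fin w → ℕ) (d' : Fin w → Fin h → ℕ) (ν : Fin s → ℕ)
    (d : Fin s → Fin (h + g) → ℕ) :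
    clD (∅ : Finset (Fin w)) V δ d' ν d = {c | ∃ j ∈ V, c = VU.cl (d j) (ν j)} := by
  ext c
  constructor
  · rintro (⟨k, hk, -⟩ | hc)
    · exact absurd hk (Finset.notMem_empty k)
    · exact hc
  · exact fun hc => Or.inr hc

theorem intV_of {K : Type} [Field K] [NumberField K] {n h g M w s : ℕ} {κ ι : Type} [Fintype κ] [Fintype ι]
    {δ : Fin w → ℕ} {d' : Fin w → Fin h → ℕ} {ν : Fin s → ℕ} {d : Fin s → Fin (h + g) → ℕ} {k : ℕ}
    {S : Finset (FinitePlace K)} {V : Finset (Fin s)} {ρ : Fin s → ℕ} {E' : Fin w → κ → Fin n → ℤ}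
    {b : IxM κ M δ d' → K} {E : Fin s → ι → Fin n → ℤ} {A B : Fin (h + g) → K} {a : IxM ι M ν d → K}
    (hI : IntG k S ∅ V ∅ ρ E' b E A B a) : IntV k S V E' b E A B a := by
  obtain ⟨L, i1, i2, i3, hk1, x, P, u, x1, x2, x3, x4, x5, -, x7⟩ := hI
  exact ⟨L, i1, i2, i3, hk1, x, P, u, x1, x2, x3, fun i => x4 i (Finset.notMem_empty i),
    fun j hj => x5 j hj (Finset.notMem_empty j), fun v hv => ⟨(x7 v hv).1, (x7 v hv).2.2⟩⟩

end DP
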