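import Pool.Agent.Lib.MP_17a322_ntDP.WL
import Pool.Agent.Lib.MP_17a322_ntDP.WK
import Pool.Agent.Lib.MP_17a322_ntDP.WX
import Pool.Agent.Lib.MP_17a322_ntDP.WY
import Pool.Agent.Lib.MP_17a322_ntDP.KA
import Pool.Agent.Lib.MP_17a322_ntOC.YC
import Pool.Agent.Lib.MP_17a322_ntOC.ZL
import Pool.Agent.Lib.MP_17a322_ntOC.PE
import Pool.Agent.Lib.MP_17a322_ntOC.PA
import Pool.Agent.Lib.MP_17a322_ntOC.HasCM
import Pool.Agent.Lib.MP_17a322_ntVK.RMain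
import Pool.Agent.Lib.MP_10e784_agWP.QD

/-!
# Points of bounded degree: the two classes of fixed products of elliptic curves
-/

set_option autoImplicit false

namespace DP

open Finset NumberField LVH VK VU OCM FB

/-- replace the curves with finitely many points by `y² = x³ + x` -/
private theorem WN_cm {K : Type} [Field K] [NumberField K] {h : ℕ} (A' B' : Fin h → 𝓞 K)
    (hds : ∀ l, ds (A' l) (B' l) ≠ 0)
    (hB : ∀ l, HasCM ((A' l : 𝓞 K) : K) ((B' l : 𝓞 K) : K) ∨ Finite (Pt ((A' l : 𝓞 K) : K) ((B' l : 𝓞 K) : K))) :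
    ∃ A'' B'' : Fin h → 𝓞 K, (∀ l, ds (A'' l) (B'' l) ≠ 0) ∧ (∀ l, HasCM ((A'' l : 𝓞 K) : K) ((B'' l : 𝓞 K) : K)) ∧
      ∀ l, (A'' l = A' l ∧ B'' l = B' l) ∨ Finite (Pt ((A' l : 𝓞 K) : K) ((B' l : 𝓞 K) : K)) := by
  have h1 : ∀ l, ∃ A B : 𝓞 K, ds A B ≠ 0 ∧ HasCM ((A : 𝓞 K) : K) ((B : 𝓞 K) : K) ∧
      ((A = A' l ∧ B = B' l) ∨ Finite (Pt ((A' l : 𝓞 K) : K) ((B' l : 𝓞 K) : K))) := by
    intro l
    rcases hB l with h2 | h2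
    · exact ⟨A' l, B' l, hds l, h2, Or.inl ⟨rfl, rfl⟩⟩
    · refine ⟨1, 0, ?_, ?_, Or.inr h2⟩
      · unfold ds
        norm_num
      · have h3 : ((0 : 𝓞 K) : K) = 0 := map_zero _
        rw [h3]
        exact hasCM_one _
  choose A'' B'' h2 h3 h4 using h1
  exact ⟨A'', B'', h2, h3, h4⟩

theorem cl1 (K : Type) [Field K] [NumberField K] [DecidableEq K] {h : ℕ} (A' B' : Fin h → 𝓞 K)
    (hds : ∀ l, ds (A' l) (B' l) ≠ 0) (m : ℕ) (hm : 1 ≤ m)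
    (hB : ∀ l, HasCM ((A' l : 𝓞 K) : K) ((B' l : 𝓞 K) : K) ∨ Finite (Pt ((A' l : 𝓞 K) : K) ((B' l : 𝓞 K) : K))) :
    ∃ c : ℝ, 0 < c ∧ ∀ (n r M w : ℕ) (κ : Type) [Fintype κ] (δ : Fin w → ℕ) (d' : Fin w → Fin h → ℕ)
    (E' : Fin w → κ → Fin n → ℤ) (b : IxM κ M δ d' → 𝓞 K), FibP A' B' E' b r →
    ∃ (ν0 : ℕ) (N0 : ℕ → ℕ → ℕ → ℕ), ∀ (e : ℕ) (ω : Module.Basis (Fin e) ℤ (𝓞 K)) (k N g q s : ℕ) (σ : Fin g → Fin q) (ι : Type) [Fintype ι]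
    [DecidableEq ι] [Nonempty ι] (ν : Fin s → ℕ) (E : Fin s → ι → Fin n → ℤ) (d : Fin s → Fin (h + g) → ℕ)
    (W : Finset (Fin w)) (V R : Finset (Fin s)) (ex : Fin s → ℕ), (∀ i ∈ W, 1 ≤ δ i) →
    (∀ j ∈ R, 1 ≤ ex j ∧ ex j ∣ ν j ∧ ∀ l, ex j ∣ 2 * d j l) →
    (∀ j, Rich N (E j)) → (∀ j l, 2 * (N - 1) ≤ d j l) → (∀ j, N - 1 ≤ ν j ∨ M = 0) → k ≤ N →
    (k * (n + (h + g) + r + W.card + V.card + (R \ V).card) + Set.finrank ℤ (clD W V δ d' ν d) <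
        n + (h + g) + W.card + V.card + k * (s + 1) ∨
      1 ≤ k ∧ N0 k g s ≤ N ∧ (V.card + (R \ V).card < s ∨ ∃ j ∈ V, ∃ N : ℕ, 1 ≤ N ∧
          (N : ℤ) • cl (d j) (ν j) ∈ Submodule.span ℤ (clD W (V.erase j) δ d' ν d)) ∧
        s + 2 ≤ n + (h + g) + r + W.card + V.card + (R \ V).card ∧
        k * (n + (h + g) + r + W.card + V.card + (R \ V).card) + Set.finrank ℤ (clD W V δ d' ν d) =
          n + (h + g) + W.card + V.card + k * (s + 1) ∨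
      k = 1 ∧ r + Set.finrank ℤ (clD W V δ d' ν d) + (R \ V).card ≤ s + 1 ∧
      ((∃ j, (ν0 ≤ ν j ∨ M = 0) ∧ (j ∈ V → ∃ N : ℕ, 1 ≤ N ∧
        (N : ℤ) • cl (d j) (ν j) ∈ Submodule.span ℤ (clD W (V.erase j) δ d' ν d)) ∧
        (j ∉ V → j ∈ R → ∃ q : ℕ, q.Prime ∧ q ∣ ex j ∧ ∃ ζ : CyclotomicField m K, IsPrimitiveRoot ζ q)) ∨
        (w = 0 ∧ V = ∅ ∧ R = ∅ ∧ M ≤ s ∧ (∀ j, 1 ≤ ν j) ∧ M + 1 ≤ ∑ j, ν j))) → ∃ C : ℝ, ∀ H : ℕ, 1 ≤ H →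
    (Nat.card {z : Cv e q × (IxM ι M ν d × Fin e → ℤ) // Box ω H z ∧ ∃ S : Finset (FinitePlace K),
      ∏ v ∈ S, (nrm v : ℝ) ≤ Real.exp ((Real.log H) ^ c) ∧
      IntG k S W V R ex E' (fun t => ((b t : 𝓞 K) : K)) E
          (aA ω A' fun i => z.1 (σ i)) (aB ω B' fun i => z.1 (σ i)) (cf ω z.2)} : ℝ) ≤
      C * (H : ℝ) ^ (e * (Fintype.card (IxM ι M ν d) + 5 * q)) * Real.exp (-(Real.log H) ^ c) := by
  classical
  have : NeZero m := ⟨by omega⟩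
  obtain ⟨A'', B'', hd'', hCM, hJ⟩ := WN_cm A' B' hds hB
  have hSm := smo_of (CyclotomicField m K) A'' B'' fun l => cmf_of (hd'' l) (hCM l)
  obtain ⟨c1, hc1, h1⟩ := inter_F K (factRK K) WPL.factQ (CyclotomicField m K) A' B' A'' B'' hds hd'' hSm hJ
  obtain ⟨c2, hc2, h2⟩ := inter_WF K (factRK K) WPL.factQ (CyclotomicField m K) A' B' A'' B'' hds hd'' hSm hJ
  obtain ⟨c3, hc3, h3⟩ := inter_XF K (factRK K) WPL.factQ (CyclotomicField m K) A' B' A'' B'' hds hd'' hSm hJ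
  obtain ⟨c, hcd⟩ : ∃ c, c = min c1 (min c2 c3) := ⟨_, rfl⟩
  have hc1' : c ≤ c1 := by rw [hcd]; exact min_le_left _ _
  have hc2' : c ≤ c2 := by rw [hcd]; exact (min_le_right _ _).trans (min_le_left _ _)
  have hc3' : c ≤ c3 := by rw [hcd]; exact (min_le_right _ _).trans (min_le_right _ _)
  refine ⟨c, by rw [hcd]; exact lt_min hc1 (lt_min hc2 hc3), fun n r M w κ _ δ d' E' b hF => ?_⟩
  obtain ⟨ν0, hν0⟩ := h1 n r M w κ δ d' E' b hF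
  have h4 : ∀ (k g s : ℕ) (W : Finset (Fin w)), ∃ N0 : ℕ, 1 ≤ k → (∀ i ∈ W, 1 ≤ δ i) → k ≤ N0 ∧
    ∀ (e : ℕ) (ω : Module.Basis (Fin e) ℤ (𝓞 K)) (g' : ℕ) (σ : Fin g → Fin g') (ι : Type)
    [Fintype ι] [DecidableEq ι] (ν : Fin s → ℕ) (E : Fin s → ι → Fin n → ℤ) (d : Fin s → Fin (h + g) → ℕ),
    (∀ j, Rich N0 (E j)) → (∀ j l, 2 * (N0 - 1) ≤ d j l) → (∀ j, N0 - 1 ≤ ν j ∨ M = 0) →
    ∀ V R : Finset (Fin s),
    k * (n + (h + g) + r + W.card + V.card + (R \ V).card) + Set.finrank ℤ (VU.clD W V δ d' ν d) =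
      n + (h + g) + W.card + V.card + k * (s + 1) →
    s + 2 ≤ n + (h + g) + r + W.card + V.card + (R \ V).card →
    (V.card + (R \ V).card < s ∨ ∃ j ∈ V, ∃ N : ℕ, 1 ≤ N ∧
      (N : ℤ) • VU.cl (d j) (ν j) ∈ Submodule.span ℤ (VU.clD W (V.erase j) δ d' ν d)) → ∃ C : ℝ, ∀ H : ℕ, 1 ≤ H →
    (Nat.card {z : Cv e g' × (IxM ι M ν d × Fin e → ℤ) // Box ω H z ∧ ∃ S : Finset (FinitePlace K),
      ∏ v ∈ S, (nrm v : ℝ) ≤ Real.exp ((Real.log H) ^ c3) ∧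
      IntW k S W V R E' (fun t => ((b t : 𝓞 K) : K)) E (aA ω A' fun i => z.1 (σ i)) (aB ω B' fun i => z.1 (σ i)) (cf ω z.2)} : ℝ) ≤
      C * (H : ℝ) ^ (e * (Fintype.card (IxM ι M ν d) + 5 * g')) * Real.exp (-(Real.log H) ^ c3) := by
    intro k g s W
    by_cases hk : 1 ≤ k ∧ ∀ i ∈ W, 1 ≤ δ i
    · obtain ⟨N0, hN0, h5⟩ := h3 n r M w κ δ d' E' b hF k g s hk.1 W hk.2
      exact ⟨N0, fun _ _ => ⟨hN0, h5⟩⟩
    · exact ⟨0, fun h0 h1 => absurd ⟨h0, h1⟩ hk⟩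
  choose N0 hN0 using h4
  refine ⟨ν0, fun k g s => Finset.univ.sup (N0 k g s), fun e ω k N g q s σ ι _ _ _ ν E d W V R ex hW hex hE hd hν hkN
    hcnd => ?_⟩
  have hN : Fintype.card (IxM ι M ν d × Fin e) + 5 * e * q = e * (Fintype.card (IxM ι M ν d) + 5 * q) := by
    rw [Fintype.card_prod, Fintype.card_fin]
    ring
  rcases hcnd with a4 | ⟨hk1, a0, a2, a3, a4⟩ | ⟨rfl, a1, a2⟩
  · refine shrink (⇑ω) hN (fun H z => ∃ S : Finset (FinitePlace K),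
      ∏ v ∈ S, (nrm v : ℝ) ≤ Real.exp ((Real.log H) ^ c2) ∧
      IntW k S W V R E' (fun t => ((b t : 𝓞 K) : K)) E
          (aA ω A' fun i => z.1 (σ i)) (aB ω B' fun i => z.1 (σ i)) (cf ω z.2)) _ (fun H => (Real.log H) ^ c)
      (fun H => (Real.log H) ^ c2) 3 (fun H hH => rpow_mono hc2' H hH) ?_
      (h2 n r M w κ δ d' E' b hF e ω k g q s σ ι ν E d (fun j => rich_mono hkN (hE j))
        (fun j l => le_trans (Nat.mul_le_mul_left 2 (Nat.sub_le_sub_right hkN 1)) (hd j l))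
        (fun j => (hν j).imp (fun h5 => (Nat.sub_le_sub_right hkN 1).trans h5) id) W V R hW a4)
    rintro H hH z ⟨S, hS, hI⟩
    exact ⟨S, hS.trans (Real.exp_le_exp.2 (rpow_mono hc2' H hH)), intW_of hI⟩
  · have a1 : N0 k g s W ≤ N := (Finset.le_sup (f := N0 k g s) (Finset.mem_univ W)).trans a0
    refine shrink (⇑ω) hN (fun H z => ∃ S : Finset (FinitePlace K),
      ∏ v ∈ S, (nrm v : ℝ) ≤ Real.exp ((Real.log H) ^ c3) ∧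
      IntW k S W V R E' (fun t => ((b t : 𝓞 K) : K)) E
          (aA ω A' fun i => z.1 (σ i)) (aB ω B' fun i => z.1 (σ i)) (cf ω z.2)) _ (fun H => (Real.log H) ^ c)
      (fun H => (Real.log H) ^ c3) 3 (fun H hH => rpow_mono hc3' H hH) ?_
      ((hN0 k g s W hk1 hW).2 e ω q σ ι ν E d (fun j => rich_mono a1 (hE j))
        (fun j l => le_trans (Nat.mul_le_mul_left 2 (Nat.sub_le_sub_right a1 1)) (hd j l))
        (fun j => (hν j).imp (fun h5 => (Nat.sub_le_sub_right a1 1).trans h5) id) V R a4 a3 a2)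
    rintro H hH z ⟨S, hS, hI⟩
    exact ⟨S, hS.trans (Real.exp_le_exp.2 (rpow_mono hc3' H hH)), intW_of hI⟩
  · refine shrink (⇑ω) hN (fun H z => ∃ S : Finset (FinitePlace K),
      ∏ v ∈ S, (nrm v : ℝ) ≤ Real.exp ((Real.log H) ^ c1) ∧
      IntQ (⊥ ⊔ Su S) S W V R ex E' (fun t => ((b t : 𝓞 K) : K)) E
          (aA ω A' fun i => z.1 (σ i)) (aB ω B' fun i => z.1 (σ i)) (cf ω z.2)) _ (fun H => (Real.log H) ^ c)
      (fun H => (Real.log H) ^ c1) 3 (fun H hH => rpow_mono hc1' H hH) ?_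
      (hν0 ⊥ ⟨∅, by rw [Finset.coe_empty, Subgroup.closure_empty]⟩ e ω g q s σ ι ν E d W V R ex hW hex
        (Or.inr ⟨a1, a2⟩))
    rintro H hH z ⟨S, hS, hI⟩
    refine ⟨S, hS.trans (Real.exp_le_exp.2 (rpow_mono hc1' H hH)), ?_⟩
    rw [bot_sup_eq]
    exact intG_one hI

end DP
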