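import Pool.Agent.Lib.MP_17a322_ntDP.WN

/-!
# Points of bounded degree: the second class of fixed products of elliptic curves
-/

set_option autoImplicit false

namespace DP

open Finset NumberField LVH VK VU OCM FB

theorem cl2 (K : Type) [Field K] [NumberField K] [DecidableEq K] {h : ℕ} (A' B' : Fin h → 𝓞 K)
    (hds : ∀ l, ds (A' l) (B' l) ≠ 0) (n r M w : ℕ) (κ : Type) [Fintype κ] (δ : Fin w → ℕ)
    (d' : Fin w → Fin h → ℕ) (E' : Fin w → κ → Fin n → ℤ) (b : IxM κ M δ d' → 𝓞 K) (hF : FibP A' B' E' b r)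
    {m : ℕ} (hm : 1 ≤ m) (hK : ∃ ζ : K, IsPrimitiveRoot ζ m)
    (hE : ∃ A B : 𝓞 K, ds A B ≠ 0 ∧ Module.finrank ℤ (Pt (A : K) (B : K)) ≤ 1 ∧
      ∀ l, (A' l = A ∧ B' l = B) ∨ Finite (Pt ((A' l : 𝓞 K) : K) ((B' l : 𝓞 K) : K))) (hn : n = 0) :
    ∃ (ν0 : ℕ) (N0 : ℕ → ℕ → ℕ) (c : ℕ → ℕ → ℝ), (∀ k s, 0 < c k s) ∧
      ∀ (e : ℕ) (ω : Module.Basis (Fin e) ℤ (𝓞 K)) (k N g s : ℕ)
      (ι : Type) [Fintype ι] [DecidableEq ι] [Nonempty ι] (ν : Fin s → ℕ) (E : Fin s → ι → Fin n → ℤ)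
      (d : Fin s → Fin (h + g) → ℕ) (R : Finset (Fin s)) (ex : Fin s → ℕ), g = 0 →
      (k = 1 ∨ Module.finrank ℚ K = 1) → (∀ j ∈ R, 1 ≤ ex j ∧ ex j ∣ ν j ∧ ∀ l, ex j ∣ 2 * d j l) →
      (∀ j, Rich N (E j)) → (∀ j l, 2 * (N - 1) ≤ d j l) → (∀ j, N - 1 ≤ ν j ∨ M = 0) → k ≤ N →
      (k * (n + (h + g) + r + R.card) < n + (h + g) + k * (s + 1) ∨
        Module.finrank ℚ K = 1 ∧ 1 ≤ k ∧ N0 k s ≤ N ∧ R.card < s ∧ s + 2 ≤ n + (h + g) + r + R.card ∧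
          k * (n + (h + g) + r + R.card) = n + (h + g) + k * (s + 1) ∨
        k = 1 ∧ r + R.card ≤ s + 1 ∧
        ((∃ j, (ν0 ≤ ν j ∨ M = 0) ∧ (j ∈ R → ¬ (ex j).Coprime m)) ∨
          (w = 0 ∧ R = ∅ ∧ M ≤ s ∧ (∀ j, 1 ≤ ν j) ∧ M + 1 ≤ ∑ j, ν j))) →
      ∃ C : ℝ, ∀ H : ℕ, 1 ≤ H →
        (Nat.card {z : Cv e g × (IxM ι M ν d × Fin e → ℤ) // Box ω H z ∧ ∃ S : Finset (FinitePlace K),
          ∏ v ∈ S, (nrm v : ℝ) ≤ Real.exp (c k s * (Real.log (Real.log H)) ^ 2) ∧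
          IntG k S ∅ ∅ R ex E' (fun t => ((b t : 𝓞 K) : K)) E (aA ω A' z.1) (aB ω B' z.1) (cf ω z.2)} : ℝ) ≤
          C * (H : ℝ) ^ (e * (Fintype.card (IxM ι M ν d) + 5 * g)) *
            Real.exp (-(c k s * (Real.log (Real.log H)) ^ 2)) := by
  classical
  obtain ⟨ν0, c1, hc1, h1⟩ := clF K A' B' hds n r M w κ δ d' E' b hF hm hK hE hn
  obtain ⟨c2, hc2, h2⟩ : ∃ c : ℝ, 0 < c ∧ (Module.finrank ℚ K = 1 →
      ∀ (e : ℕ) (ω : Module.Basis (Fin e) ℤ (𝓞 K)) (k g s : ℕ)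
      (ι : Type) [Fintype ι] [DecidableEq ι] (ν : Fin s → ℕ) (E : Fin s → ι → Fin n → ℤ)
      (d : Fin s → Fin (h + g) → ℕ) (R : Finset (Fin s)), g = 0 →
      (∀ j, Rich k (E j)) → (∀ j l, 2 * (k - 1) ≤ d j l) → (∀ j, k - 1 ≤ ν j ∨ M = 0) →
      k * (h + r + R.card) < h + k * (s + 1) →
      ∃ C : ℝ, ∀ H : ℕ, 1 ≤ H →
        (Nat.card {z : Cv e g × (IxM ι M ν d × Fin e → ℤ) // Box ω H z ∧ ∃ S : Finset (FinitePlace K),
          IntW k S ∅ ∅ R E' (fun t => ((b t : 𝓞 K) : K)) E (aA ω A' z.1) (aB ω B' z.1) (cf ω z.2)} : ℝ) ≤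
          C * (H : ℝ) ^ Fintype.card (IxM ι M ν d × Fin e) * Real.exp (-(c * (Real.log (Real.log H)) ^ 2))) := by
    by_cases hQ : Module.finrank ℚ K = 1
    · obtain ⟨A, B, hd, hrk, hAB⟩ := hE
      obtain ⟨c, hc, hh⟩ := rank_oneW hQ hd hrk
      subst hn
      refine ⟨c, hc, fun _ e ω k g s ι _ _ ν E d R hg a1 a2 a3 a4 => ?_⟩
      subst hg
      exact hh h r M w κ δ d' A' B' hds hAB E' b hF e ω k s ι ν E d R a1 a2 a3 a4
    · exact ⟨1, one_pos, fun h0 => absurd h0 hQ⟩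
  have h3 : ∀ k s : ℕ, ∃ (N0 : ℕ) (c : ℝ), 0 < c ∧ (Module.finrank ℚ K = 1 → 1 ≤ k →
      ∀ (e : ℕ) (ω : Module.Basis (Fin e) ℤ (𝓞 K)) (g : ℕ)
      (ι : Type) [Fintype ι] [DecidableEq ι] (ν : Fin s → ℕ) (E : Fin s → ι → Fin n → ℤ)
      (d : Fin s → Fin (h + g) → ℕ) (R : Finset (Fin s)), g = 0 →
      (∀ j, Rich N0 (E j)) → (∀ j l, 2 * (N0 - 1) ≤ d j l) → (∀ j, N0 - 1 ≤ ν j ∨ M = 0) →
      k * (h + r + R.card) = h + k * (s + 1) → s + 2 ≤ h + r + R.card → R.card < s →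
      ∃ C : ℝ, ∀ H : ℕ, 1 ≤ H →
        (Nat.card {z : Cv e g × (IxM ι M ν d × Fin e → ℤ) // Box ω H z ∧ ∃ S : Finset (FinitePlace K),
          IntW k S ∅ ∅ R E' (fun t => ((b t : 𝓞 K) : K)) E (aA ω A' z.1) (aB ω B' z.1) (cf ω z.2)} : ℝ) ≤
          C * (H : ℝ) ^ Fintype.card (IxM ι M ν d × Fin e) * Real.exp (-(c * (Real.log (Real.log H)) ^ 2))) := by
    intro k s
    by_cases hQ : Module.finrank ℚ K = 1 ∧ 1 ≤ k
    · obtain ⟨A, B, hd, hrk, hAB⟩ := hE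
      subst hn
      obtain ⟨N0, c, hN0, hc, hh⟩ := rank_oneX hQ.1 hd hrk h r M w κ δ d' A' B' hds hAB E' b hF k s hQ.2
      refine ⟨N0, c, hc, fun _ _ e ω g ι _ _ ν E d R hg a1 a2 a3 a4 a5 a6 => ?_⟩
      subst hg
      exact hh e ω ι ν E d R a1 a2 a3 a4 a5 a6
    · exact ⟨0, 1, one_pos, fun h0 h1 => absurd ⟨h0, h1⟩ hQ⟩
  choose N0 c3 hc3 h3 using h3
  refine ⟨ν0, N0, fun k s => min c1 (min c2 (c3 k s)), fun k s => lt_min hc1 (lt_min hc2 (hc3 k s)),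
    fun e ω k N g s ι _ _ _ ν E d R ex hg hk hex hE hd hν hkN hcnd => ?_⟩
  obtain ⟨c, hcd⟩ : ∃ c, c = min c1 (min c2 (c3 k s)) := ⟨_, rfl⟩
  have hc1' : c ≤ c1 := by rw [hcd]; exact min_le_left _ _
  have hc2' : c ≤ c2 := by rw [hcd]; exact (min_le_right _ _).trans (min_le_left _ _)
  have hc3' : c ≤ c3 k s := by rw [hcd]; exact (min_le_right _ _).trans (min_le_right _ _)
  show ∃ C : ℝ, ∀ H : ℕ, 1 ≤ H →
        (Nat.card {z : Cv e g × (IxM ι M ν d × Fin e → ℤ) // Box ω H z ∧ ∃ S : Finset (FinitePlace K),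
          ∏ v ∈ S, (nrm v : ℝ) ≤ Real.exp (min c1 (min c2 (c3 k s)) * (Real.log (Real.log H)) ^ 2) ∧
          IntG k S ∅ ∅ R ex E' (fun t => ((b t : 𝓞 K) : K)) E (aA ω A' z.1) (aB ω B' z.1) (cf ω z.2)} : ℝ) ≤
          C * (H : ℝ) ^ (e * (Fintype.card (IxM ι M ν d) + 5 * g)) *
            Real.exp (-(min c1 (min c2 (c3 k s)) * (Real.log (Real.log H)) ^ 2))
  rw [← hcd]
  have hN : Fintype.card (IxM ι M ν d × Fin e) + 5 * e * g = e * (Fintype.card (IxM ι M ν d) + 5 * g) := by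
    rw [Fintype.card_prod, Fintype.card_fin]
    ring
  have hmono : ∀ c4 : ℝ, c ≤ c4 → ∀ H : ℕ, c * (Real.log (Real.log H)) ^ 2 ≤ c4 * (Real.log (Real.log H)) ^ 2 :=
    fun c4 h4 H => mul_le_mul_of_nonneg_right h4 (sq_nonneg _)
  have e1 : Fintype.card (IxM ι M ν d × Fin e) = e * (Fintype.card (IxM ι M ν d) + 5 * g) := by
    rw [← hN]
    have h5 : 5 * e * g = 0 := by rw [hg, Nat.mul_zero]
    omega
  rcases hcnd with a4 | ⟨hQ, hk1, a1, a2, a3, a4⟩ | ⟨rfl, a1, a2⟩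
  · by_cases hk1 : k = 1
    · subst hk1
      refine shrink (⇑ω) hN (fun H z => ∃ S : Finset (FinitePlace K),
        ∏ v ∈ S, (nrm v : ℝ) ≤ Real.exp (c1 * (Real.log (Real.log H)) ^ 2) ∧
        IntQ (⊥ ⊔ Su S) S ∅ ∅ R ex E' (fun t => ((b t : 𝓞 K) : K)) E
            (aA ω A' z.1) (aB ω B' z.1) (cf ω z.2)) _ (fun H => c * (Real.log (Real.log H)) ^ 2)
        (fun H => c1 * (Real.log (Real.log H)) ^ 2) 0 (fun H _ => hmono c1 hc1' H) ?_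
        (h1 ⊥ ⟨∅, by rw [Finset.coe_empty, Subgroup.closure_empty]⟩ e ω g s ι ν E d R ex hg hex (Or.inl (by omega)))
      rintro H hH z ⟨S, hS, hI⟩
      refine ⟨S, hS.trans (Real.exp_le_exp.2 (hmono c1 hc1' H)), ?_⟩
      rw [bot_sup_eq]
      exact intG_one hI
    · have hQ := hk.resolve_left hk1
      obtain ⟨C, hC⟩ := h2 hQ e ω k g s ι ν E d R hg (fun j => rich_mono hkN (hE j))
        (fun j l => le_trans (Nat.mul_le_mul_left 2 (Nat.sub_le_sub_right hkN 1)) (hd j l))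
        (fun j => (hν j).imp (fun h5 => (Nat.sub_le_sub_right hkN 1).trans h5) id) (by
        subst hg hn
        simpa using a4)
      refine shrink (⇑ω) hN (fun H z => ∃ S : Finset (FinitePlace K),
        IntW k S ∅ ∅ R E' (fun t => ((b t : 𝓞 K) : K)) E (aA ω A' z.1) (aB ω B' z.1) (cf ω z.2)) _
        (fun H => c * (Real.log (Real.log H)) ^ 2)
        (fun H => c2 * (Real.log (Real.log H)) ^ 2) 0 (fun H _ => hmono c2 hc2' H) ?_ ⟨C, fun H hH => ?_⟩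
      · rintro H hH z ⟨S, hS, hI⟩
        exact ⟨S, intW_of hI⟩
      · have h6 := hC H hH
        rw [e1] at h6
        exact h6
  · obtain ⟨C, hC⟩ := h3 k s hQ hk1 e ω g ι ν E d R hg (fun j => rich_mono a1 (hE j))
      (fun j l => le_trans (Nat.mul_le_mul_left 2 (Nat.sub_le_sub_right a1 1)) (hd j l))
      (fun j => (hν j).imp (fun h5 => (Nat.sub_le_sub_right a1 1).trans h5) id)
      (by subst hg hn; simpa using a4) (by subst hg hn; simpa using a3) a2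
    refine shrink (⇑ω) hN (fun H z => ∃ S : Finset (FinitePlace K),
      IntW k S ∅ ∅ R E' (fun t => ((b t : 𝓞 K) : K)) E (aA ω A' z.1) (aB ω B' z.1) (cf ω z.2)) _
      (fun H => c * (Real.log (Real.log H)) ^ 2)
      (fun H => c3 k s * (Real.log (Real.log H)) ^ 2) 0 (fun H _ => hmono (c3 k s) hc3' H) ?_ ⟨C, fun H hH => ?_⟩
    · rintro H hH z ⟨S, hS, hI⟩
      exact ⟨S, intW_of hI⟩
    · have h6 := hC H hH
      rw [e1] at h6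
      exact h6
  · refine shrink (⇑ω) hN (fun H z => ∃ S : Finset (FinitePlace K),
      ∏ v ∈ S, (nrm v : ℝ) ≤ Real.exp (c1 * (Real.log (Real.log H)) ^ 2) ∧
      IntQ (⊥ ⊔ Su S) S ∅ ∅ R ex E' (fun t => ((b t : 𝓞 K) : K)) E
          (aA ω A' z.1) (aB ω B' z.1) (cf ω z.2)) _ (fun H => c * (Real.log (Real.log H)) ^ 2)
      (fun H => c1 * (Real.log (Real.log H)) ^ 2) 0 (fun H _ => hmono c1 hc1' H) ?_
      (h1 ⊥ ⟨∅, by rw [Finset.coe_empty, Subgroup.closure_empty]⟩ e ω g s ι ν E d R ex hg hex (Or.inr ⟨a1, a2⟩))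
    rintro H hH z ⟨S, hS, hI⟩
    refine ⟨S, hS.trans (Real.exp_le_exp.2 (hmono c1 hc1' H)), ?_⟩
    rw [bot_sup_eq]
    exact intG_one hI

end DP
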